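import Mathlib
import Pool.Agent.H85.Kuhn

set_option autoImplicit false

/-!
Brouwer's fixed point theorem from Kuhn's lemma (`Pool.Agent.H85.Kuhn.kuhn`).

`brouwer_cube`: `f` continuous on `[0,1]^n` (`Set.Icc 0 1` in `Fin n → ℝ`) into itself.  For `M > 0` label
the grid points `x` (`x i ≤ M`, `p = x / M`) by `r x = ` the largest `i + 1` with `0 < p i` and
`f p i ≤ p i`, and `0` if there is none.  `H1`, `H2` (`x i = 0` implies that `i` is not counted) and `H3`
(`x i = M` implies `f p i ≤ 1 = p i`, so `i` is counted) hold.  `kuhn` gives a small simplex with all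
labels: for every `i` a vertex (label `i+1`) with `f p i ≤ p i`, and a vertex (label `0`) where
`f p i ≥ p i` for all `i` (either `f p i > p i` or `p i = 0`).  The diameter is `≤ 1/M`, so for `M → ∞` by
compactness a subsequence of the vertices converges to `p` with `f p = p`.

`brouwer_ball`: for a finite dimensional real normed space `E`, choose a linear homeomorphism
`e : E ≃L[ℝ] (Fin n → ℝ)` and `C` with `e (closedBall 0 R) ⊆ [-C, C]^n`.  Compose with the retraction
`ρ x = x` if `‖x‖ ≤ R`, `(R/‖x‖) • x` otherwise (continuous): `g = e ∘ f ∘ ρ ∘ e⁻¹` maps `[-C,C]^n` to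
`e (closedBall 0 R)`; after rescaling to `[0,1]^n` it has a fixed point, which lies in
`e (closedBall 0 R)` where `ρ` is the identity.
-/

open Set

namespace Pool.Agent.CC57

/-- The grid point of the unit cube. -/
private noncomputable def gp {n : ℕ} (M : ℕ) (x : Fin n → ℕ) : Fin n → ℝ := fun i => (x i : ℝ) / M

private theorem gp_mem {n M : ℕ} (hM : 0 < M) {x : Fin n → ℕ} (hx : ∀ i, x i ≤ M) :
    gp M x ∈ Icc (0 : Fin n → ℝ) 1 := by
  have hM' : (0 : ℝ) < M := by exact_mod_cast hM
  refine ⟨fun i => ?_, fun i => ?_⟩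
  · simp only [gp, Pi.zero_apply]; positivity
  · simp only [gp, Pi.one_apply]
    rw [div_le_one hM']
    exact_mod_cast hx i

open Classical in
private noncomputable def lab {n : ℕ} (f : (Fin n → ℝ) → (Fin n → ℝ)) (M : ℕ) (x : Fin n → ℕ) : ℕ :=
  (Finset.univ.filter (fun i : Fin n => 0 < gp M x i ∧ f (gp M x) i ≤ gp M x i)).sup
    (fun i => (i : ℕ) + 1)

private theorem lab_le {n : ℕ} (f : (Fin n → ℝ) → (Fin n → ℝ)) (M : ℕ) (x : Fin n → ℕ) :
    lab f M x ≤ n := by
  unfold lab
  apply Finset.sup_le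
  intro i _
  have := i.2
  omega

private theorem lab_eq {n : ℕ} (f : (Fin n → ℝ) → (Fin n → ℝ)) (M : ℕ) (x : Fin n → ℕ) (i : Fin n)
    (h : lab f M x = i + 1) : 0 < gp M x i ∧ f (gp M x) i ≤ gp M x i := by
  classical
  unfold lab at h
  by_cases hne : (Finset.univ.filter
      (fun i : Fin n => 0 < gp M x i ∧ f (gp M x) i ≤ gp M x i)).Nonempty
  · obtain ⟨j, hj, hje⟩ := Finset.exists_mem_eq_sup _ hne (fun i : Fin n => (i : ℕ) + 1)
    rw [hje] at h
    have hij : j = i := Fin.ext (by simpa using h)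
    subst hij
    simpa using hj
  · rw [Finset.not_nonempty_iff_eq_empty] at hne
    rw [hne, Finset.sup_empty] at h
    simp at h

private theorem lab_zero {n : ℕ} (f : (Fin n → ℝ) → (Fin n → ℝ)) (M : ℕ) (x : Fin n → ℕ)
    (h : lab f M x = 0) (i : Fin n) : ¬ (0 < gp M x i ∧ f (gp M x) i ≤ gp M x i) := by
  classical
  intro hi
  unfold lab at h
  have h1 := Finset.le_sup (s := Finset.univ.filter
      (fun i : Fin n => 0 < gp M x i ∧ f (gp M x) i ≤ gp M x i))
      (f := fun i : Fin n => (i : ℕ) + 1) (b := i) (by simpa using hi)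
  omega

private theorem vx_close {n M : ℕ} (hM : 0 < M) (x : Fin n → ℕ) (τ : Equiv.Perm (Fin n))
    (j k : ℕ) : dist (gp M (H85.Kuhn.vx x τ j)) (gp M (H85.Kuhn.vx x τ k)) ≤ 1 / M := by
  have hM' : (0 : ℝ) < M := by exact_mod_cast hM
  rw [dist_pi_le_iff (by positivity)]
  intro i
  rw [Real.dist_eq]
  unfold gp H85.Kuhn.vx
  rw [← sub_div, abs_div, abs_of_pos hM']
  apply div_le_div_of_nonneg_right _ hM'.le
  split_ifs <;> simp

theorem brouwer_cube {n : ℕ} {f : (Fin n → ℝ) → (Fin n → ℝ)} (hf : ContinuousOn f (Icc 0 1))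
    (hm : MapsTo f (Icc 0 1) (Icc 0 1)) : ∃ x ∈ Icc (0 : Fin n → ℝ) 1, f x = x := by
  by_contra hcon
  push Not at hcon
  have hK : IsCompact (Icc (0 : Fin n → ℝ) 1) := isCompact_Icc
  have hne : (Icc (0 : Fin n → ℝ) 1).Nonempty := ⟨0, by simp⟩
  have hcd : ContinuousOn (fun p => dist (f p) p) (Icc (0 : Fin n → ℝ) 1) :=
    continuous_dist.comp_continuousOn (hf.prodMk continuousOn_id)
  obtain ⟨p0, hp0, hmin⟩ := hK.exists_isMinOn hne hcd
  set ε := dist (f p0) p0 with hε
  have hεpos : 0 < ε := dist_pos.2 (hcon p0 hp0)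
  have hmin' : ∀ p ∈ Icc (0 : Fin n → ℝ) 1, ε ≤ dist (f p) p := fun p hp => hmin hp
  have huc : UniformContinuousOn f (Icc 0 1) := hK.uniformContinuousOn_of_continuous hf
  rw [Metric.uniformContinuousOn_iff] at huc
  obtain ⟨δ, hδ, hδf⟩ := huc (ε / 4) (by positivity)
  obtain ⟨M, hMpos, hM⟩ : ∃ M : ℕ, 0 < M ∧ (1 : ℝ) / M < min δ (ε / 4) := by
    obtain ⟨N, hN⟩ := exists_nat_one_div_lt (show 0 < min δ (ε / 4) by positivity)
    exact ⟨N + 1, by omega, by push_cast; exact hN⟩
  have hM' : (0 : ℝ) < M := by exact_mod_cast hMpos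
  obtain ⟨x, τ, hx, hfull⟩ := H85.Kuhn.kuhn hMpos (lab f M)
    (fun x _ => lab_le f M x)
    (fun x _ i hi he => by
      have := (lab_eq f M x i he).1
      simp [gp, hi] at this)
    (fun x hx i hi => by
      classical
      have hp := gp_mem hMpos hx
      have h1 : gp M x i = 1 := by
        simp only [gp, hi]
        exact div_self hM'.ne'
      unfold lab
      apply Finset.le_sup (f := fun i : Fin n => (i : ℕ) + 1)
      simp only [Finset.mem_filter, Finset.mem_univ, true_and]
      rw [h1]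
      exact ⟨one_pos, (hm hp).2 i⟩)
  have hvm : ∀ j, gp M (H85.Kuhn.vx x τ j) ∈ Icc (0 : Fin n → ℝ) 1 := fun j =>
    gp_mem hMpos (fun i => H85.Kuhn.vx_le (H85.Kuhn.mem_X.2 hx) τ j i)
  obtain ⟨j0, hj0, hl0⟩ := hfull 0 (Nat.zero_le _)
  have h0 := lab_zero f M _ hl0
  have hkey : dist (f (gp M (H85.Kuhn.vx x τ j0))) (gp M (H85.Kuhn.vx x τ j0)) ≤ ε / 2 := by
    rw [dist_pi_le_iff (by positivity)]
    intro i
    obtain ⟨j, hj, hl⟩ := hfull (i + 1) (by have := i.2; omega)
    have h1 := (lab_eq f M _ i hl).2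
    have hd := lt_of_le_of_lt (vx_close hMpos x τ j0 j) hM
    have hd1 := hδf _ (hvm j0) _ (hvm j) (lt_of_lt_of_le hd (min_le_left _ _))
    have e1 := le_trans (dist_le_pi_dist _ _ i) hd1.le
    have e2 := le_trans (dist_le_pi_dist _ _ i) (lt_of_lt_of_le hd (min_le_right _ _)).le
    rw [Real.dist_eq] at e1 e2 ⊢
    have hge : gp M (H85.Kuhn.vx x τ j0) i ≤ f (gp M (H85.Kuhn.vx x τ j0)) i := by
      by_contra hlt
      push Not at hlt
      have hf0 := (hm (hvm j0)).1 i
      exact h0 i ⟨lt_of_le_of_lt hf0 hlt, hlt.le⟩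
    rw [abs_le] at e1 e2 ⊢
    constructor <;> linarith [e1.1, e1.2, e2.1, e2.2]
  have := hmin' _ (hvm j0)
  linarith

theorem brouwer_ball {E : Type} [NormedAddCommGroup E] [NormedSpace ℝ E] [FiniteDimensional ℝ E]
    {R : ℝ} (hR : 0 ≤ R) {f : E → E} (hf : ContinuousOn f (Metric.closedBall 0 R))
    (hm : MapsTo f (Metric.closedBall 0 R) (Metric.closedBall 0 R)) :
    ∃ x ∈ Metric.closedBall (0 : E) R, f x = x := by
  rcases hR.eq_or_lt with hR0 | hRpos
  · subst hR0
    refine ⟨0, by simp, ?_⟩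
    have := hm (x := 0) (by simp)
    simpa using this
  have hcont0 : Continuous (fun x : E => (R / max R ‖x‖) • x) := by
    apply Continuous.smul _ continuous_id
    apply Continuous.div continuous_const (continuous_const.max continuous_norm)
    intro x
    exact (lt_of_lt_of_le hRpos (le_max_left _ _)).ne'
  set ρ : E → E := fun x => (R / max R ‖x‖) • x with hρ
  have hρm : ∀ x, ρ x ∈ Metric.closedBall (0 : E) R := by
    intro x
    have hp : 0 < max R ‖x‖ := lt_of_lt_of_le hRpos (le_max_left _ _)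
    rw [mem_closedBall_zero_iff, hρ]
    simp only
    rw [norm_smul, Real.norm_of_nonneg (by positivity), div_mul_eq_mul_div, div_le_iff₀ hp]
    exact mul_le_mul_of_nonneg_left (le_max_right _ _) hR
  have hρi : ∀ x, ‖x‖ ≤ R → ρ x = x := by
    intro x hx
    simp only [hρ]
    rw [max_eq_left hx, div_self hRpos.ne', one_smul]
  set n := Module.finrank ℝ E with hn
  let e : E ≃L[ℝ] (Fin n → ℝ) := (Module.finBasis ℝ E).equivFun.toContinuousLinearEquiv
  obtain ⟨C, hC, hCe⟩ : ∃ C : ℝ, 0 < C ∧ ∀ x ∈ Metric.closedBall (0 : E) R, ‖e x‖ ≤ C := by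
    refine ⟨‖(e : E →L[ℝ] (Fin n → ℝ))‖ * R + 1, by positivity, fun x hx => ?_⟩
    rw [mem_closedBall_zero_iff] at hx
    have h1 := (e : E →L[ℝ] (Fin n → ℝ)).le_opNorm x
    have h2 := mul_le_mul_of_nonneg_left hx (norm_nonneg (e : E →L[ℝ] (Fin n → ℝ)))
    have h3 : ‖e x‖ = ‖(e : E →L[ℝ] (Fin n → ℝ)) x‖ := rfl
    rw [h3]
    linarith
  let A : (Fin n → ℝ) → (Fin n → ℝ) := fun y i => 2 * C * y i - C
  let B : (Fin n → ℝ) → (Fin n → ℝ) := fun z i => (z i + C) / (2 * C)
  have hA : Continuous A := by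
    apply continuous_pi
    intro i
    exact (continuous_const.mul (continuous_apply i)).sub continuous_const
  have hB : Continuous B := by
    apply continuous_pi
    intro i
    exact ((continuous_apply i).add continuous_const).div_const _
  have hfρ : Continuous (fun x => f (ρ x)) := hf.comp_continuous hcont0 hρm
  have hg : Continuous (fun y => B (e (f (ρ (e.symm (A y)))))) :=
    hB.comp (e.continuous.comp (hfρ.comp (e.symm.continuous.comp hA)))
  obtain ⟨y, hy, hfy⟩ := brouwer_cube (f := fun y => B (e (f (ρ (e.symm (A y))))))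
    hg.continuousOn (by
      intro y _
      have h1 := hCe _ (hm (hρm (e.symm (A y))))
      have h2 : ∀ i, |e (f (ρ (e.symm (A y)))) i| ≤ C := fun i =>
        le_trans (by rw [← Real.norm_eq_abs]; exact norm_le_pi_norm _ i) h1
      refine ⟨fun i => ?_, fun i => ?_⟩
      · have := (abs_le.1 (h2 i)).1
        simp only [B, Pi.zero_apply]
        apply div_nonneg <;> linarith
      · have := (abs_le.1 (h2 i)).2
        simp only [B, Pi.one_apply]
        rw [div_le_one (by positivity)]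
        linarith)
  have hAy : e (f (ρ (e.symm (A y)))) = A y := by
    funext i
    have := congrFun hfy i
    simp only [B] at this
    simp only [A]
    rw [div_eq_iff (by positivity)] at this
    linarith
  have hx : f (ρ (e.symm (A y))) = e.symm (A y) :=
    (e.symm_apply_apply (f (ρ (e.symm (A y))))).symm.trans (congrArg e.symm hAy)
  have hmem : e.symm (A y) ∈ Metric.closedBall (0 : E) R := by
    rw [← hx]
    exact hm (hρm _)
  refine ⟨e.symm (A y), hmem, ?_⟩
  rw [hρi _ (mem_closedBall_zero_iff.1 hmem)] at hx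
  exact hx

end Pool.Agent.CC57
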