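import Pool.Agent.CC57.Loop
import Pool.Agent.H65G.Cube

set_option autoImplicit false

/-!
The annulus `-L ≤ Re z ≤ -y` as a Riemannian square.  `annq p = Ψ (z p)`,
`z p = pt (-L + (L - y) p 0) (2π p 1)`, with the metric `annG p = diag (((L-y) lam(z p))², (2π lam(z p))²)`.
* `isRiem_ann`: `z` is affine, `‖z p' - z p‖² = (L-y)² ξ₀² + (2π)² ξ₁²`, `ξ = p' - p`, so
  `√(quad (annG ·) ξ) = lam(z ·) ‖z p' - z p‖` and the hypothesis `hseg` is exactly `dist_le`.
* `vol_ann`: `√det = (L-y) 2π lam²`; change of variables (product of two affine maps), Fubini.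
* `det_ann`: for `F : X → E 2` Lipschitz, `f z = F (Ψ z)` is Lipschitz on the strip, and
  `det D(F ∘ annq) p = (L-y) 2π (f₀ₓ f₁_θ - f₀_θ f₁ₓ)(z p)` at a.e. `p`; so the integral is
  `∫_{Cell (-L) (-y)} br f₁ f₀` and `rect_stokes` with `A = f₀`, `B = f₁` gives
  `∮_{-y} f₀ f₁' - ∮_{-L} f₀ f₁'`, and `∮ f₀ f₁' = (1/2) cr f` by integration by parts.
-/

open Real Set MeasureTheory
open scoped RealInnerProductSpace

namespace Pool.Agent.CC57

open Pool.Agent.H65G

variable {X : Type} [MetricSpace X]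

noncomputable def annq (L y : ℝ) (Ψ : ℂ → X) (p : E 2) : X :=
  Ψ (pt (-L + (L - y) * p 0) (2 * π * p 1))

noncomputable def annG (L y : ℝ) (lam : ℂ → ℝ) (p : E 2) : Matrix (Fin 2) (Fin 2) ℝ :=
  Matrix.diagonal ![((L - y) * lam (pt (-L + (L - y) * p 0) (2 * π * p 1))) ^ 2,
    (2 * π * lam (pt (-L + (L - y) * p 0) (2 * π * p 1))) ^ 2]

/-- The hypotheses on the annulus. -/
structure IsAnn (L y : ℝ) (lam : ℂ → ℝ) (Ψ : ℂ → X) : Prop where
  lt : y < L
  cont : Continuous lam
  nonneg : ∀ z, 0 ≤ lam z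
  lam_per : ∀ z, lam (z + 2 * π * Complex.I) = lam z
  per : ∀ z : ℂ, -L ≤ z.re → z.re ≤ -y → Ψ (z + 2 * π * Complex.I) = Ψ z
  seg : ∀ z w : ℂ, -L ≤ z.re → z.re ≤ -y → -L ≤ w.re → w.re ≤ -y →
    dist (Ψ w) (Ψ z) ≤ (∫ t in (0 : ℝ)..1, lam (z + t * (w - z))) * ‖w - z‖

/-! ### Auxiliary facts -/

private lemma ann_pt_re (x θ : ℝ) : (pt x θ).re = x := by simp [pt]

private lemma ann_pt_im (x θ : ℝ) : (pt x θ).im = θ := by simp [pt]

private lemma ann_cont_pt : Continuous fun p : ℝ × ℝ => pt p.1 p.2 := by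
  unfold pt
  fun_prop

private lemma ann_bdd {L y : ℝ} {lam : ℂ → ℝ} (hc : Continuous lam)
    (hp : ∀ z, lam (z + 2 * π * Complex.I) = lam z) :
    ∃ M : ℝ, 0 ≤ M ∧ ∀ z : ℂ, -L ≤ z.re → z.re ≤ -y → lam z ≤ M := by
  have hK : IsCompact (Icc (-L) (-y) ×ℂ Icc 0 (2 * π)) := isCompact_Icc.reProdIm isCompact_Icc
  obtain ⟨M, hM⟩ := hK.bddAbove_image hc.continuousOn
  refine ⟨max M 0, le_max_right _ _, fun z h1 h2 => ?_⟩
  have hper : Function.Periodic (fun θ : ℝ => lam (pt z.re θ)) (2 * π) := by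
    intro θ
    show lam (pt z.re (θ + 2 * π)) = lam (pt z.re θ)
    rw [← hp (pt z.re θ)]
    congr 1
    unfold pt
    push_cast
    ring
  obtain ⟨θ, hθ, h3⟩ := hper.exists_mem_Ico₀ (by positivity) z.im
  have h4 : lam z = lam (pt z.re θ) := by
    have h5 : z = pt z.re z.im := (Complex.re_add_im z).symm
    conv_lhs => rw [h5]
    exact h3
  rw [h4]
  refine le_max_of_le_left (hM ⟨pt z.re θ, ?_, rfl⟩)
  rw [Complex.mem_reProdIm, ann_pt_re, ann_pt_im]
  exact ⟨⟨h1, h2⟩, hθ.1, hθ.2.le⟩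

theorem ann_lip {L y : ℝ} {lam : ℂ → ℝ} {Ψ : ℂ → X} (h : IsAnn L y lam Ψ) :
    ∃ K : NNReal, LipschitzOnWith K Ψ {z : ℂ | -L ≤ z.re ∧ z.re ≤ -y} := by
  obtain ⟨M, hM0, hM⟩ := ann_bdd (L := L) (y := y) h.cont h.lam_per
  refine ⟨⟨M, hM0⟩, LipschitzOnWith.of_dist_le_mul fun z hz w hw => ?_⟩
  have h1 := h.seg w z hw.1 hw.2 hz.1 hz.2
  refine h1.trans ?_
  rw [dist_eq_norm]
  refine mul_le_mul_of_nonneg_right ?_ (norm_nonneg _)
  have h2 : ∫ t in (0 : ℝ)..1, lam (w + t * (z - w)) ≤ ∫ _ in (0 : ℝ)..1, M := by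
    refine intervalIntegral.integral_mono_on zero_le_one ?_ ?_ ?_
    · apply Continuous.intervalIntegrable
      exact h.cont.comp (by fun_prop)
    · exact intervalIntegrable_const
    · intro t ht
      have h3 : (w + (t : ℂ) * (z - w)).re = w.re + t * (z.re - w.re) := by simp
      apply hM
      · rw [h3]
        nlinarith [ht.1, ht.2, hz.1, hz.2, hw.1, hw.2]
      · rw [h3]
        nlinarith [ht.1, ht.2, hz.1, hz.2, hw.1, hw.2]
  refine h2.trans (le_of_eq ?_)
  rw [intervalIntegral.integral_const, sub_zero, one_smul]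
  rfl

/-- The affine chart. -/
private noncomputable def zp (L y : ℝ) (p : E 2) : ℂ := pt (-L + (L - y) * p 0) (2 * π * p 1)

private lemma continuous_zp (L y : ℝ) : Continuous (zp L y) := by
  unfold zp pt
  fun_prop

private lemma annG_eq (L y : ℝ) (lam : ℂ → ℝ) (p : E 2) :
    annG L y lam p = Matrix.diagonal ![((L - y) * lam (zp L y p)) ^ 2, (2 * π * lam (zp L y p)) ^ 2] :=
  rfl

private lemma quad_annG (L y : ℝ) (lam : ℂ → ℝ) (p ξ : E 2) :
    quad (annG L y lam p) ξ = lam (zp L y p) ^ 2 * (((L - y) * ξ 0) ^ 2 + (2 * π * ξ 1) ^ 2) := by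
  rw [annG_eq]
  unfold quad
  simp [Fin.sum_univ_two, Matrix.diagonal]
  ring

private lemma zp_sub (L y : ℝ) (p p' : E 2) :
    ‖zp L y p' - zp L y p‖ = √(((L - y) * (p' - p) 0) ^ 2 + (2 * π * (p' - p) 1) ^ 2) := by
  rw [Complex.norm_eq_sqrt_sq_add_sq]
  unfold zp
  rw [Complex.sub_re, Complex.sub_im, ann_pt_re, ann_pt_re, ann_pt_im, ann_pt_im]
  congr 1
  simp only [PiLp.sub_apply]
  ring

private lemma zp_line (L y : ℝ) (p p' : E 2) (t : ℝ) :
    zp L y (p + t • (p' - p)) = zp L y p + t * (zp L y p' - zp L y p) := by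
  unfold zp pt
  simp only [PiLp.add_apply, PiLp.smul_apply, PiLp.sub_apply, smul_eq_mul]
  push_cast
  ring

private lemma zp_mem {L y : ℝ} (hLy : y < L) {p : E 2} (hp : p ∈ cube 2) :
    -L ≤ (zp L y p).re ∧ (zp L y p).re ≤ -y := by
  unfold zp
  rw [ann_pt_re]
  have h := hp 0
  constructor
  · nlinarith [h.1, h.2]
  · nlinarith [h.1, h.2]

theorem isRiem_ann {L y : ℝ} {lam : ℂ → ℝ} {Ψ : ℂ → X} (h : IsAnn L y lam Ψ) :
    IsRiemannianCube (annq L y Ψ) (annG L y lam) := by
  have hcl : Continuous fun p => lam (zp L y p) := h.cont.comp (continuous_zp L y)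
  refine ⟨?_, ?_, ?_, ?_⟩
  · refine Continuous.continuousOn ?_
    have h1 : annG L y lam = fun p => Matrix.diagonal
        ![((L - y) * lam (zp L y p)) ^ 2, (2 * π * lam (zp L y p)) ^ 2] := rfl
    rw [h1]
    refine Continuous.matrix_diagonal ?_
    refine continuous_pi fun i => ?_
    fin_cases i
    · exact (continuous_const.mul hcl).pow 2
    · exact (continuous_const.mul hcl).pow 2
  · intro p _
    exact Matrix.isSymm_diagonal _
  · intro p _ ξ
    rw [quad_annG]
    positivity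
  · intro p hp p' hp'
    obtain ⟨h1, h2⟩ := zp_mem h.lt hp
    obtain ⟨h3, h4⟩ := zp_mem h.lt hp'
    have h5 := h.seg (zp L y p) (zp L y p') h1 h2 h3 h4
    rw [dist_comm]
    refine h5.trans (le_of_eq ?_)
    unfold segLength
    rw [← intervalIntegral.integral_mul_const]
    refine intervalIntegral.integral_congr fun t _ => ?_
    rw [quad_annG, zp_line, zp_sub, Real.sqrt_mul (sq_nonneg _), Real.sqrt_sq (h.nonneg _)]

/-! ### Change of variables -/

private noncomputable def eC : E 2 ≃ᵐ ℂ :=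
  (MeasurableEquiv.toLp 2 (Fin 2 → ℝ)).symm.trans Complex.measurableEquivPi.symm

private lemma eC_apply (p : E 2) : eC p = pt (p 0) (p 1) := rfl

private lemma mp_eC : MeasurePreserving eC volume volume :=
  (EuclideanSpace.volume_preserving_symm_measurableEquiv_toLp (Fin 2)).trans
    Complex.volume_preserving_equiv_pi.symm

private lemma cube_eC : cube 2 = eC ⁻¹' (Icc 0 1 ×ℂ Icc 0 1) := by
  ext p
  rw [mem_preimage, eC_apply, Complex.mem_reProdIm, ann_pt_re, ann_pt_im]
  constructor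
  · intro h
    exact ⟨h 0, h 1⟩
  · rintro ⟨h0, h1⟩ i
    fin_cases i
    · exact h0
    · exact h1

private noncomputable def AC (L y : ℝ) (w : ℂ) : ℂ := pt (-L + (L - y) * w.re) (2 * π * w.im)

private noncomputable def AL (L y : ℝ) : ℂ →L[ℝ] ℂ :=
  Complex.reCLM.smulRight ((L - y : ℝ) : ℂ) +
    Complex.imCLM.smulRight (((2 * π : ℝ) : ℂ) * Complex.I)

private lemma AC_eq (L y : ℝ) (w : ℂ) : AC L y w = pt (-L) 0 + AL L y w := by
  unfold AC AL pt
  simp
  ring

private lemma hasFDerivAt_AC (L y : ℝ) (w : ℂ) : HasFDerivAt (AC L y) (AL L y) w := by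
  have h1 : AC L y = fun w => pt (-L) 0 + AL L y w := funext (AC_eq L y)
  rw [h1]
  exact (AL L y).hasFDerivAt.const_add _

private lemma det_AL (L y : ℝ) : (AL L y).det = (L - y) * (2 * π) := by
  rw [ContinuousLinearMap.det, ← LinearMap.det_toMatrix Complex.basisOneI, Matrix.det_fin_two]
  simp [LinearMap.toMatrix_apply, AL]

private lemma image_AC {L y : ℝ} (h : y < L) :
    AC L y '' (Icc 0 1 ×ℂ Icc 0 1) = Icc (-L) (-y) ×ℂ Icc 0 (2 * π) := by
  have hpi := Real.pi_pos
  have hL : 0 < L - y := sub_pos.2 h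
  ext z
  simp only [mem_image, Complex.mem_reProdIm, mem_Icc]
  constructor
  · rintro ⟨w, ⟨⟨h1, h2⟩, h3, h4⟩, rfl⟩
    unfold AC
    rw [ann_pt_re, ann_pt_im]
    refine ⟨⟨by nlinarith, by nlinarith⟩, by positivity, by nlinarith⟩
  · rintro ⟨⟨h1, h2⟩, h3, h4⟩
    refine ⟨pt ((z.re + L) / (L - y)) (z.im / (2 * π)), ⟨⟨?_, ?_⟩, ?_, ?_⟩, ?_⟩
    · rw [ann_pt_re]
      exact div_nonneg (by linarith) hL.le
    · rw [ann_pt_re, div_le_one hL]
      linarith
    · rw [ann_pt_im]
      positivity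
    · rw [ann_pt_im, div_le_one (by positivity)]
      exact h4
    · unfold AC
      rw [ann_pt_re, ann_pt_im]
      have e1 : -L + (L - y) * ((z.re + L) / (L - y)) = z.re := by
        field_simp
        ring
      have e2 : 2 * π * (z.im / (2 * π)) = z.im := by field_simp
      rw [e1, e2]
      exact Complex.re_add_im z

private lemma injective_AC {L y : ℝ} (h : y < L) : Function.Injective (AC L y) := by
  have hpi := Real.pi_pos
  have hL : 0 < L - y := sub_pos.2 h
  intro z w hzw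
  have h1 := congrArg Complex.re hzw
  have h2 := congrArg Complex.im hzw
  unfold AC at h1 h2
  rw [ann_pt_re, ann_pt_re] at h1
  rw [ann_pt_im, ann_pt_im] at h2
  apply Complex.ext
  · exact mul_left_cancel₀ hL.ne' (by linarith)
  · exact mul_left_cancel₀ (by positivity : (2 * π) ≠ 0) h2

private lemma cell_ae (a b : ℝ) :
    (Icc a b ×ℂ Icc 0 (2 * π) : Set ℂ) =ᵐ[volume] Cell a b := by
  have h1 : (Ioc a b ×ˢ Ioc 0 (2 * π) : Set (ℝ × ℝ)) =ᵐ[volume] (Icc a b ×ˢ Icc 0 (2 * π)) :=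
    Measure.set_prod_ae_eq Ioc_ae_eq_Icc Ioc_ae_eq_Icc
  have h2 := Complex.volume_preserving_equiv_real_prod.quasiMeasurePreserving.preimage_ae_eq h1
  have h3 : Complex.measurableEquivRealProd ⁻¹' (Ioc a b ×ˢ Ioc 0 (2 * π)) = Cell a b := by
    ext z
    simp only [mem_preimage, Complex.measurableEquivRealProd_apply, mem_prod, mem_Ioc, Cell,
      Set.mem_ofPred_eq]
    tauto
  have h4 : Complex.measurableEquivRealProd ⁻¹' (Icc a b ×ˢ Icc 0 (2 * π)) =
      (Icc a b ×ℂ Icc 0 (2 * π) : Set ℂ) := by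
    ext z
    simp only [mem_preimage, Complex.measurableEquivRealProd_apply, mem_prod, mem_Icc,
      Complex.mem_reProdIm]
  rw [h3, h4] at h2
  exact h2.symm

private lemma integral_cube {L y : ℝ} (h : y < L) (g : ℂ → ℝ) :
    ∫ p in cube 2, (L - y) * (2 * π) * g (zp L y p) = ∫ z in Cell (-L) (-y), g z := by
  have hpi := Real.pi_pos
  have hL : 0 < L - y := sub_pos.2 h
  have hm : MeasurableSet (Icc (0 : ℝ) 1 ×ℂ Icc (0 : ℝ) 1) :=
    (isCompact_Icc.reProdIm isCompact_Icc).measurableSet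
  have h1 : ∫ p in cube 2, (L - y) * (2 * π) * g (zp L y p) =
      ∫ w in Icc (0 : ℝ) 1 ×ℂ Icc (0 : ℝ) 1, (L - y) * (2 * π) * g (AC L y w) := by
    rw [cube_eC]
    have h2 := mp_eC.setIntegral_preimage_emb eC.measurableEmbedding
      (fun w => (L - y) * (2 * π) * g (AC L y w)) (Icc (0 : ℝ) 1 ×ℂ Icc (0 : ℝ) 1)
    rw [← h2]
    refine setIntegral_congr_fun (eC.measurable hm) fun p _ => ?_
    simp only [eC_apply, AC, ann_pt_re, ann_pt_im, zp]
  rw [h1, ← setIntegral_congr_set (cell_ae (-L) (-y)), ← image_AC h,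
    integral_image_eq_integral_abs_det_fderiv_smul volume hm
      (fun w _ => (hasFDerivAt_AC L y w).hasFDerivWithinAt) (injective_AC h).injOn]
  refine setIntegral_congr_fun hm fun w _ => ?_
  simp only [det_AL, smul_eq_mul]
  rw [abs_of_pos (by positivity)]

theorem vol_ann {L y : ℝ} {lam : ℂ → ℝ} {Ψ : ℂ → X} (h : IsAnn L y lam Ψ) :
    cubeVolume (annG L y lam) = ∫ z in Cell (-L) (-y), lam z ^ 2 := by
  have hpi := Real.pi_pos
  have hL : 0 < L - y := sub_pos.2 h.lt
  rw [← integral_cube h.lt]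
  unfold cubeVolume
  congr 1
  funext p
  have e1 : (annG L y lam p).det =
      ((L - y) * lam (zp L y p)) ^ 2 * (2 * π * lam (zp L y p)) ^ 2 := by
    rw [annG_eq, Matrix.det_diagonal, Fin.prod_univ_two]
    rfl
  rw [e1, ← mul_pow, Real.sqrt_sq]
  · ring
  · have := h.nonneg (zp L y p)
    positivity

/-! ### The determinant -/

private noncomputable def Lin {L y : ℝ} (h : y < L) : E 2 ≃L[ℝ] ℂ :=
  LinearEquiv.toContinuousLinearEquiv
    { toFun := fun p => pt ((L - y) * p 0) (2 * π * p 1)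
      invFun := fun z => WithLp.toLp 2 ![z.re / (L - y), z.im / (2 * π)]
      map_add' := by
        intro p p'
        apply Complex.ext
        · simp only [ann_pt_re, PiLp.add_apply, Complex.add_re]
          ring
        · simp only [ann_pt_im, PiLp.add_apply, Complex.add_im]
          ring
      map_smul' := by
        intro c p
        apply Complex.ext
        · simp only [ann_pt_re, PiLp.smul_apply, smul_eq_mul, RingHom.id_apply, Complex.smul_re]
          ring
        · simp only [ann_pt_im, PiLp.smul_apply, smul_eq_mul, RingHom.id_apply, Complex.smul_im]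
          ring
      left_inv := by
        intro p
        have hL : L - y ≠ 0 := (sub_pos.2 h).ne'
        have hpi := Real.pi_pos
        ext i
        fin_cases i
        · simp [ann_pt_re, hL]
        · simp [ann_pt_im, hpi.ne']
      right_inv := by
        intro z
        have hL : L - y ≠ 0 := (sub_pos.2 h).ne'
        have hpi := Real.pi_pos
        apply Complex.ext
        · simp [ann_pt_re]
          field_simp
        · simp [ann_pt_im]
          field_simp }

private lemma Lin_apply {L y : ℝ} (h : y < L) (p : E 2) :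
    Lin h p = pt ((L - y) * p 0) (2 * π * p 1) := rfl

private lemma zp_Lin {L y : ℝ} (h : y < L) (p : E 2) : zp L y p = pt (-L) 0 + Lin h p := by
  rw [Lin_apply]
  unfold zp pt
  push_cast
  ring

private lemma fderiv_zp {L y : ℝ} (h : y < L) (f : ℂ → E 2) (p : E 2) :
    fderiv ℝ (fun p => f (zp L y p)) p =
      (fderiv ℝ f (zp L y p)).comp (Lin h : E 2 →L[ℝ] ℂ) := by
  have h1 : (fun p => f (zp L y p)) = (fun v => f (pt (-L) 0 + v)) ∘ (Lin h) := by
    funext p
    simp only [Function.comp]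
    rw [zp_Lin h]
  rw [h1, (Lin h).comp_right_fderiv, fderiv_comp_add_left, ← zp_Lin h]

private lemma ann_det_eq (A : E 2 →L[ℝ] E 2) :
    A.det = (A (EuclideanSpace.single 0 (1 : ℝ))) 0 * (A (EuclideanSpace.single 1 (1 : ℝ))) 1 -
      (A (EuclideanSpace.single 1 (1 : ℝ))) 0 * (A (EuclideanSpace.single 0 (1 : ℝ))) 1 := by
  set b := EuclideanSpace.basisFun (Fin 2) ℝ with hb
  rw [ContinuousLinearMap.det, ← LinearMap.det_toMatrix b.toBasis, Matrix.det_fin_two]
  simp [LinearMap.toMatrix_apply, hb]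

private lemma comp_fderiv {f : ℂ → E 2} {z : ℂ} (hf : DifferentiableAt ℝ f z) (i : Fin 2) (v : ℂ) :
    fderiv ℝ (fun z => (f z) i) z v = (fderiv ℝ f z v) i := by
  have h1 := (EuclideanSpace.proj (𝕜 := ℝ) i : E 2 →L[ℝ] ℝ).hasFDerivAt.comp z hf.hasFDerivAt
  have h2 : (fun z => (f z) i) = (EuclideanSpace.proj (𝕜 := ℝ) i : E 2 →L[ℝ] ℝ) ∘ f := rfl
  rw [h2, h1.fderiv]
  rfl

/-- The identity holds everywhere. -/
private lemma det_pt {L y : ℝ} (h : y < L) (f : ℂ → E 2) (p : E 2) :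
    (fderiv ℝ (fun p => f (zp L y p)) p).det = (L - y) * (2 * π) *
      br (fun z => (f z) 1) (fun z => (f z) 0) (zp L y p) := by
  rw [fderiv_zp h, ann_det_eq]
  have e0 : (Lin h) (EuclideanSpace.single 0 (1 : ℝ)) = (L - y) • (1 : ℂ) := by
    rw [Lin_apply]
    simp [pt]
  have e1 : (Lin h) (EuclideanSpace.single 1 (1 : ℝ)) = (2 * π) • Complex.I := by
    rw [Lin_apply]
    simp [pt]
  simp only [ContinuousLinearMap.coe_comp, Function.comp_apply, ContinuousLinearEquiv.coe_coe, e0,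
    e1, map_smul, PiLp.smul_apply, smul_eq_mul]
  unfold br
  by_cases hd : DifferentiableAt ℝ f (zp L y p)
  · rw [comp_fderiv hd, comp_fderiv hd, comp_fderiv hd, comp_fderiv hd]
    ring
  · rw [fderiv_zero_of_not_differentiableAt hd]
    have h2 : ¬ DifferentiableAt ℝ (fun z => (f z) 0) (zp L y p) ∨
        ¬ DifferentiableAt ℝ (fun z => (f z) 1) (zp L y p) := by
      by_contra hcon
      push Not at hcon
      apply hd
      rw [differentiableAt_euclidean]
      intro i
      fin_cases i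
      · exact hcon.1
      · exact hcon.2
    rcases h2 with h2 | h2
    · rw [fderiv_zero_of_not_differentiableAt h2]
      simp
    · rw [fderiv_zero_of_not_differentiableAt h2]
      simp

private lemma half_cr {f : ℝ → E 2} {K : NNReal} (hf : LipschitzWith K f)
    (hp : ∀ θ, f (θ + 2 * π) = f θ) :
    ∫ θ in (0 : ℝ)..2 * π, (f θ) 0 * deriv (fun θ => (f θ) 1) θ = 1 / 2 * cr f := by
  have hc : ∀ i : Fin 2, LipschitzWith K fun θ => (f θ) i := by
    intro i
    refine LipschitzWith.of_dist_le_mul fun x y => ?_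
    refine le_trans ?_ (hf.dist_le_mul x y)
    rw [dist_eq_norm, dist_eq_norm]
    exact PiLp.norm_apply_le (f x - f y) i
  have hac : ∀ i : Fin 2, AbsolutelyContinuousOnInterval (fun θ => (f θ) i) 0 (2 * π) :=
    fun i => ((hc i).lipschitzOnWith).absolutelyContinuousOnInterval
  have hi : ∀ i j : Fin 2, IntervalIntegrable (fun θ => (f θ) i * deriv (fun θ => (f θ) j) θ)
      volume 0 (2 * π) := by
    intro i j
    refine IntervalIntegrable.continuousOn_mul ?_ (hc i).continuous.continuousOn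
    refine (intervalIntegrable_const (c := (K : ℝ))).mono_fun
      (measurable_deriv _).aestronglyMeasurable ?_
    refine Filter.Eventually.of_forall fun θ => ?_
    refine (norm_deriv_le_of_lipschitz (hc j)).trans ?_
    rw [Real.norm_eq_abs]
    exact le_abs_self _
  have h1 := (hac 0).integral_mul_deriv_eq_deriv_mul (hac 1)
  have h2 : f (2 * π) = f 0 := by
    have := hp 0
    rwa [zero_add] at this
  rw [h2, sub_self, zero_sub] at h1
  have h3 : ∫ θ in (0 : ℝ)..2 * π, deriv (fun θ => (f θ) 0) θ * (f θ) 1 =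
      ∫ θ in (0 : ℝ)..2 * π, (f θ) 1 * deriv (fun θ => (f θ) 0) θ := by
    congr 1
    funext θ
    ring
  rw [h3] at h1
  unfold cr
  rw [intervalIntegral.integral_sub (hi 0 1) (hi 1 0)]
  linarith

theorem det_ann {L y : ℝ} {lam : ℂ → ℝ} {Ψ : ℂ → X} (h : IsAnn L y lam Ψ) {F : X → E 2}
    {K' : NNReal} (hF : LipschitzWith K' F) :
    ∫ p in cube 2, (fderiv ℝ (F ∘ annq L y Ψ) p).det =
      1 / 2 * cr (fun θ => F (Ψ (pt (-y) θ))) - 1 / 2 * cr (fun θ => F (Ψ (pt (-L) θ))) := by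
  obtain ⟨K, hK⟩ := ann_lip h
  have hLy : -L ≤ -y := by linarith [h.lt]
  have hl : LipschitzOnWith (K' * K) (fun z => F (Ψ z)) {z : ℂ | -L ≤ z.re ∧ z.re ≤ -y} :=
    hF.comp_lipschitzOnWith hK
  have hc : ∀ i : Fin 2, LipschitzOnWith (K' * K) (fun z => (F (Ψ z)) i)
      {z : ℂ | -L ≤ z.re ∧ z.re ≤ -y} := by
    intro i
    refine LipschitzOnWith.of_dist_le_mul fun x hx y hy => ?_
    refine le_trans ?_ (hl.dist_le_mul x hx y hy)
    rw [dist_eq_norm, dist_eq_norm]
    exact PiLp.norm_apply_le (F (Ψ x) - F (Ψ y)) i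
  have hp : ∀ (i : Fin 2) (z : ℂ), -L ≤ z.re → z.re ≤ -y →
      (F (Ψ (z + 2 * π * Complex.I))) i = (F (Ψ z)) i := by
    intro i z h1 h2
    rw [h.per z h1 h2]
  have h1 : ∫ p in cube 2, (fderiv ℝ (F ∘ annq L y Ψ) p).det =
      ∫ z in Cell (-L) (-y), br (fun z => (F (Ψ z)) 1) (fun z => (F (Ψ z)) 0) z := by
    rw [← integral_cube h.lt]
    congr 1
    funext p
    rw [← det_pt h.lt (fun z => F (Ψ z)) p]
    rfl
  have h2 : ∀ x : ℝ, -L ≤ x → x ≤ -y →
      ∫ θ in (0 : ℝ)..2 * π, (F (Ψ (pt x θ))) 0 * deriv (fun θ => (F (Ψ (pt x θ))) 1) θ =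
        1 / 2 * cr (fun θ => F (Ψ (pt x θ))) := by
    intro x hx1 hx2
    refine half_cr (K := K' * K) ?_ ?_
    · refine LipschitzWith.of_dist_le_mul fun θ θ' => ?_
      have h3 := hl.dist_le_mul (pt x θ) (by
        rw [Set.mem_ofPred_eq, ann_pt_re]; exact ⟨hx1, hx2⟩) (pt x θ') (by
        rw [Set.mem_ofPred_eq, ann_pt_re]; exact ⟨hx1, hx2⟩)
      refine h3.trans (le_of_eq ?_)
      congr 1
      rw [dist_eq_norm, dist_eq_norm]
      have h4 : pt x θ - pt x θ' = ((θ - θ' : ℝ) : ℂ) * Complex.I := by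
        unfold pt
        push_cast
        ring
      rw [h4, norm_mul, Complex.norm_I, mul_one, Complex.norm_real]
    · intro θ
      have h3 : pt x (θ + 2 * π) = pt x θ + 2 * π * Complex.I := by
        unfold pt
        push_cast
        ring
      rw [h3, h.per _ (by rw [ann_pt_re]; exact hx1) (by rw [ann_pt_re]; exact hx2)]
  rw [h1, rect_stokes hLy (hc 0) (hc 1) (hp 0) (hp 1), h2 (-y) hLy le_rfl, h2 (-L) le_rfl hLy]

end Pool.Agent.CC57
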