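import Pool.Agent.CC57.Sph

set_option autoImplicit false

/-!
Linear algebra of the averages over the circle.  `inn a σ = a.re cos σ + a.im sin σ`,
`inp a σ = a.im cos σ - a.re sin σ`, `avg cos² = avg sin² = 1/2`, `avg (cos sin) = 0`,
and `avgE f = avg (f cos) + i avg (f sin)`.
-/

open Real MeasureTheory Set

namespace Pool.Agent.CC57

theorem avg_const (c : ℝ) : avg (fun _ => c) = c := by
  unfold avg
  rw [intervalIntegral.integral_const]
  have : (2 * π) ≠ 0 := by positivity
  rw [smul_eq_mul, sub_zero, ← mul_assoc, inv_mul_cancel₀ this, one_mul]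

theorem avg_add {f g : ℝ → ℝ} (hf : IntervalIntegrable f volume 0 (2 * π))
    (hg : IntervalIntegrable g volume 0 (2 * π)) :
    avg (fun σ => f σ + g σ) = avg f + avg g := by
  unfold avg
  rw [intervalIntegral.integral_add hf hg, mul_add]

theorem avg_sub {f g : ℝ → ℝ} (hf : IntervalIntegrable f volume 0 (2 * π))
    (hg : IntervalIntegrable g volume 0 (2 * π)) :
    avg (fun σ => f σ - g σ) = avg f - avg g := by
  unfold avg
  rw [intervalIntegral.integral_sub hf hg, mul_sub]

theorem avg_mul_left (c : ℝ) (f : ℝ → ℝ) : avg (fun σ => c * f σ) = c * avg f := by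
  unfold avg
  rw [intervalIntegral.integral_const_mul]
  ring

theorem avg_mono {f g : ℝ → ℝ} (hf : IntervalIntegrable f volume 0 (2 * π))
    (hg : IntervalIntegrable g volume 0 (2 * π)) (h : ∀ σ, f σ ≤ g σ) : avg f ≤ avg g := by
  unfold avg
  have h2 : (0 : ℝ) ≤ 2 * π := by positivity
  exact mul_le_mul_of_nonneg_left
    (intervalIntegral.integral_mono_on h2 hf hg (fun σ _ => h σ)) (by positivity)

theorem abs_avg_le {f : ℝ → ℝ} {C : ℝ} (h : ∀ σ, |f σ| ≤ C) : |avg f| ≤ C := by
  unfold avg
  have h2 : (0 : ℝ) < 2 * π := by positivity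
  have h3 := intervalIntegral.norm_integral_le_of_norm_le_const (a := 0) (b := 2 * π) (f := f)
    (C := C) (fun σ _ => by rw [Real.norm_eq_abs]; exact h σ)
  rw [Real.norm_eq_abs, sub_zero, abs_of_pos h2] at h3
  rw [abs_mul, abs_of_pos (inv_pos.2 h2)]
  calc (2 * π)⁻¹ * |∫ σ in (0 : ℝ)..2 * π, f σ| ≤ (2 * π)⁻¹ * (C * (2 * π)) :=
        mul_le_mul_of_nonneg_left h3 (by positivity)
    _ = C := by field_simp

theorem ofReal_ii {f : ℝ → ℝ} {a b : ℝ} (hf : IntervalIntegrable f volume a b) :
    IntervalIntegrable (fun σ => ((f σ : ℝ) : ℂ)) volume a b :=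
  ⟨hf.1.ofReal, hf.2.ofReal⟩

theorem avgE_eq {f : ℝ → ℝ} (hf : IntervalIntegrable f volume 0 (2 * π)) :
    avgE f = ((avg fun σ => f σ * cos σ : ℝ) : ℂ) + ((avg fun σ => f σ * sin σ : ℝ) : ℂ) *
      Complex.I := by
  have h1 : IntervalIntegrable (fun σ => ((f σ * cos σ : ℝ) : ℂ)) volume 0 (2 * π) :=
    ofReal_ii (hf.mul_continuousOn continuous_cos.continuousOn)
  have h2 : IntervalIntegrable (fun σ => ((f σ * sin σ : ℝ) : ℂ)) volume 0 (2 * π) :=
    ofReal_ii (hf.mul_continuousOn continuous_sin.continuousOn)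
  have h3 : (fun σ : ℝ => f σ • Complex.exp (σ * Complex.I)) =
      fun σ => ((f σ * cos σ : ℝ) : ℂ) + ((f σ * sin σ : ℝ) : ℂ) * Complex.I := by
    funext σ
    rw [Complex.exp_mul_I, ← Complex.ofReal_cos, ← Complex.ofReal_sin, Complex.real_smul]
    push_cast
    ring
  unfold avgE avg
  rw [h3, intervalIntegral.integral_add h1 (h2.mul_const _), intervalIntegral.integral_mul_const,
    intervalIntegral.integral_ofReal, intervalIntegral.integral_ofReal, Complex.real_smul]
  push_cast
  ring

theorem avgE_re {f : ℝ → ℝ} (hf : IntervalIntegrable f volume 0 (2 * π)) :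
    (avgE f).re = avg fun σ => f σ * cos σ := by
  rw [avgE_eq hf]
  simp

theorem avgE_im {f : ℝ → ℝ} (hf : IntervalIntegrable f volume 0 (2 * π)) :
    (avgE f).im = avg fun σ => f σ * sin σ := by
  rw [avgE_eq hf]
  simp

theorem avgE_sub {f g : ℝ → ℝ} (hf : IntervalIntegrable f volume 0 (2 * π))
    (hg : IntervalIntegrable g volume 0 (2 * π)) :
    avgE (fun σ => f σ - g σ) = avgE f - avgE g := by
  apply Complex.ext
  · rw [Complex.sub_re, avgE_re hf, avgE_re hg, avgE_re (hf.sub hg),
      ← avg_sub (hf.mul_continuousOn continuous_cos.continuousOn)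
        (hg.mul_continuousOn continuous_cos.continuousOn)]
    congr 1
    funext σ
    ring
  · rw [Complex.sub_im, avgE_im hf, avgE_im hg, avgE_im (hf.sub hg),
      ← avg_sub (hf.mul_continuousOn continuous_sin.continuousOn)
        (hg.mul_continuousOn continuous_sin.continuousOn)]
    congr 1
    funext σ
    ring

/-- `‖avgE f‖ ≤ sup |f|`. -/
theorem norm_avgE_le {f : ℝ → ℝ} {C : ℝ} (h : ∀ σ, |f σ| ≤ C) : ‖avgE f‖ ≤ C := by
  unfold avgE
  have h2 : (0 : ℝ) < 2 * π := by positivity
  have h3 := intervalIntegral.norm_integral_le_of_norm_le_const (a := 0) (b := 2 * π)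
    (f := fun σ : ℝ => f σ • Complex.exp (σ * Complex.I)) (C := C) (fun σ _ => by
      rw [norm_smul, Complex.norm_exp_ofReal_mul_I, mul_one, Real.norm_eq_abs]
      exact h σ)
  rw [sub_zero, abs_of_pos h2] at h3
  rw [norm_smul, Real.norm_eq_abs, abs_of_pos (inv_pos.2 h2)]
  refine le_trans (mul_le_mul_of_nonneg_left h3 (by positivity)) (le_of_eq ?_)
  field_simp

theorem cont_inn (a : ℂ) : Continuous (inn a) := by
  change Continuous fun σ : ℝ => a.re * cos σ + a.im * sin σ
  fun_prop

theorem avg_quad (A B C : ℝ) :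
    avg (fun σ => A * (cos σ * cos σ) + (B * (cos σ * sin σ) + C * (sin σ * sin σ))) =
      (A + C) / 2 := by
  have h1 : IntervalIntegrable (fun σ => cos σ * cos σ) volume 0 (2 * π) :=
    (by fun_prop : Continuous fun σ => cos σ * cos σ).intervalIntegrable _ _
  have h2 : IntervalIntegrable (fun σ => cos σ * sin σ) volume 0 (2 * π) :=
    (by fun_prop : Continuous fun σ => cos σ * sin σ).intervalIntegrable _ _
  have h3 : IntervalIntegrable (fun σ => sin σ * sin σ) volume 0 (2 * π) :=
    (by fun_prop : Continuous fun σ => sin σ * sin σ).intervalIntegrable _ _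
  have hc : avg (fun σ => cos σ * cos σ) = 1 / 2 := by
    unfold avg
    have e : (fun σ => cos σ * cos σ) = fun σ => cos σ ^ 2 := by funext σ; ring
    rw [e, integral_cos_sq]
    have : (2 * π) ≠ 0 := by positivity
    simp
    field_simp
  have hs : avg (fun σ => sin σ * sin σ) = 1 / 2 := by
    unfold avg
    have e : (fun σ => sin σ * sin σ) = fun σ => sin σ ^ 2 := by funext σ; ring
    rw [e, integral_sin_sq]
    have : (2 * π) ≠ 0 := by positivity
    simp
    field_simp
  have hm : avg (fun σ => cos σ * sin σ) = 0 := by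
    unfold avg
    have e : (fun σ => cos σ * sin σ) = fun σ => sin σ * cos σ := by funext σ; ring
    rw [e, integral_sin_mul_cos₁]
    simp
  rw [avg_add (h1.const_mul A) ((h2.const_mul B).add (h3.const_mul C)),
    avg_add (h2.const_mul B) (h3.const_mul C), avg_mul_left, avg_mul_left, avg_mul_left,
    hc, hs, hm]
  ring

theorem avgE_inn (a : ℂ) : avgE (inn a) = (1 / 2 : ℝ) * a := by
  have hi : IntervalIntegrable (inn a) volume 0 (2 * π) := (cont_inn a).intervalIntegrable _ _
  apply Complex.ext
  · rw [avgE_re hi]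
    have e : (fun σ => inn a σ * cos σ) = fun σ => a.re * (cos σ * cos σ) +
        (a.im * (cos σ * sin σ) + 0 * (sin σ * sin σ)) := by
      funext σ
      unfold inn
      ring
    rw [e, avg_quad, Complex.re_ofReal_mul]
    ring
  · rw [avgE_im hi]
    have e : (fun σ => inn a σ * sin σ) = fun σ => 0 * (cos σ * cos σ) +
        (a.re * (cos σ * sin σ) + a.im * (sin σ * sin σ)) := by
      funext σ
      unfold inn
      ring
    rw [e, avg_quad, Complex.im_ofReal_mul]
    ring

theorem avg_inn_mul_inn (a b : ℂ) :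
    avg (fun σ => inn a σ * inn b σ) = (a.re * b.re + a.im * b.im) / 2 := by
  have e : (fun σ => inn a σ * inn b σ) = fun σ => (a.re * b.re) * (cos σ * cos σ) +
      ((a.re * b.im + a.im * b.re) * (cos σ * sin σ) + (a.im * b.im) * (sin σ * sin σ)) := by
    funext σ
    unfold inn
    ring
  rw [e, avg_quad]

theorem avg_inp_mul_inn (a b : ℂ) :
    avg (fun σ => inp a σ * inn b σ) = (a.im * b.re - a.re * b.im) / 2 := by
  have e : (fun σ => inp a σ * inn b σ) = fun σ => (a.im * b.re) * (cos σ * cos σ) +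
      ((a.im * b.im - a.re * b.re) * (cos σ * sin σ) + (-(a.re * b.im)) * (sin σ * sin σ)) := by
    funext σ
    unfold inn inp
    ring
  rw [e, avg_quad]
  ring

theorem avg_mul_inn {f : ℝ → ℝ} (hf : IntervalIntegrable f volume 0 (2 * π)) (a : ℂ) :
    avg (fun σ => f σ * inn a σ) = (avgE f).re * a.re + (avgE f).im * a.im := by
  have h1 : IntervalIntegrable (fun σ => f σ * cos σ) volume 0 (2 * π) :=
    hf.mul_continuousOn continuous_cos.continuousOn
  have h2 : IntervalIntegrable (fun σ => f σ * sin σ) volume 0 (2 * π) :=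
    hf.mul_continuousOn continuous_sin.continuousOn
  have e : (fun σ => f σ * inn a σ) = fun σ => a.re * (f σ * cos σ) + a.im * (f σ * sin σ) := by
    funext σ
    unfold inn
    ring
  rw [e, avg_add (h1.const_mul _) (h2.const_mul _), avg_mul_left, avg_mul_left, avgE_re hf,
    avgE_im hf]
  ring

theorem avg_mul_inp {f : ℝ → ℝ} (hf : IntervalIntegrable f volume 0 (2 * π)) (a : ℂ) :
    avg (fun σ => f σ * inp a σ) = (avgE f).re * a.im - (avgE f).im * a.re := by
  have h1 : IntervalIntegrable (fun σ => f σ * cos σ) volume 0 (2 * π) :=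
    hf.mul_continuousOn continuous_cos.continuousOn
  have h2 : IntervalIntegrable (fun σ => f σ * sin σ) volume 0 (2 * π) :=
    hf.mul_continuousOn continuous_sin.continuousOn
  have e : (fun σ => f σ * inp a σ) = fun σ => a.im * (f σ * cos σ) - a.re * (f σ * sin σ) := by
    funext σ
    unfold inp
    ring
  rw [e, avg_sub (h1.const_mul _) (h2.const_mul _), avg_mul_left, avg_mul_left, avgE_re hf,
    avgE_im hf]
  ring

end Pool.Agent.CC57
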