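import Pool.Agent.CC57.Defs

set_option autoImplicit false

/-!
Elementary facts on `Af`, `As`, `psi`.  With `x = Re z`, the `i`-th term of `Af b y z` has norm
`e^{-x} (‖b i‖/(i+1)) (e^{-(y+x)})^{i+1} ≤ e^{-x} (‖b i‖/(i+1)) e^{-(y+x)}` if `-y ≤ x`, and
`∑ ‖b i‖/(i+1) ≤ (∑ ‖b i‖²)^{1/2} (π²/6)^{1/2} ≤ (13/10) ε`.  The derivative of the term is `-(i+2)`
times the term and `(i+2)/(i+1) ≤ 2`; use `(i+2) ‖b i‖/(i+1) ≤ ...`: the bound of the derivative is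
stated with the factor `exp (-y)` only after `K`-independent summation:
`∑ (i+2) ‖b i‖/(i+1) q^{i+1} ≤ 2 ε (∑ q^{2(i+1)})^{1/2} ≤ 4 ε q` for `q = e^{-(y+x)} ≤ 1/2`.
`tau`: `exp (tau z) = -1 / conj (exp z)`, so `Af (tau z) = conj (As z)`, `As (tau z) = conj (Af z)`.
Mathlib only.
-/

open Real MeasureTheory Set

namespace Pool.Agent.CC57

theorem tau_re (z : ℂ) : (tau z).re = -z.re := by
  simp [tau]

theorem tau_im (z : ℂ) : (tau z).im = z.im + π := by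
  simp [tau]

theorem tau_tau (z : ℂ) : tau (tau z) = z + 2 * π * Complex.I := by
  apply Complex.ext
  · rw [tau_re, tau_re]
    simp
  · rw [tau_im, tau_im]
    simp
    ring

theorem exp_tau (z : ℂ) : Complex.exp (tau z) * (starRingEnd ℂ) (Complex.exp z) = -1 := by
  rw [← Complex.exp_conj, ← Complex.exp_add, tau]
  have h : -(starRingEnd ℂ) z + π * Complex.I + (starRingEnd ℂ) z = π * Complex.I := by ring
  rw [h, Complex.exp_pi_mul_I]

theorem differentiable_Af {K : ℕ} (b : Fin K → ℂ) (y : ℝ) : Differentiable ℂ (Af b y) := by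
  unfold Af
  fun_prop

theorem differentiable_As {K : ℕ} (b : Fin K → ℂ) (y : ℝ) : Differentiable ℂ (As b y) := by
  unfold As
  fun_prop

/-- Joint continuity. -/
theorem continuous_Af {K : ℕ} (y : ℝ) :
    Continuous fun p : (Fin K → ℂ) × ℂ => Af p.1 y p.2 := by
  unfold Af
  refine continuous_finsetSum _ fun i _ => ?_
  have h1 : Continuous fun p : (Fin K → ℂ) × ℂ => p.1 i :=
    (continuous_apply i).comp continuous_fst
  have h2 : Continuous fun p : (Fin K → ℂ) × ℂ => Complex.exp (-(((i : ℂ) + 2) * p.2)) := by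
    fun_prop
  exact ((h1.div_const _).mul continuous_const).mul h2

theorem continuous_As {K : ℕ} (y : ℝ) :
    Continuous fun p : (Fin K → ℂ) × ℂ => As p.1 y p.2 := by
  unfold As
  refine continuous_finsetSum _ fun i _ => ?_
  have h1 : Continuous fun p : (Fin K → ℂ) × ℂ => (starRingEnd ℂ) (p.1 i) :=
    Complex.continuous_conj.comp ((continuous_apply i).comp continuous_fst)
  have h2 : Continuous fun p : (Fin K → ℂ) × ℂ => Complex.exp (((i : ℂ) + 2) * p.2) := by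
    fun_prop
  exact (((h1.div_const _).mul continuous_const).mul continuous_const).mul h2

theorem exp_nat_per (n : ℕ) (z : ℂ) :
    Complex.exp (((n : ℂ) + 2) * (z + 2 * π * Complex.I)) = Complex.exp (((n : ℂ) + 2) * z) := by
  have h : ((n : ℂ) + 2) * (z + 2 * π * Complex.I) =
      ((n : ℂ) + 2) * z + ((n + 2 : ℕ) : ℂ) * (2 * π * Complex.I) := by
    push_cast
    ring
  rw [h, Complex.exp_add, Complex.exp_nat_mul_two_pi_mul_I, mul_one]

theorem Af_per {K : ℕ} (b : Fin K → ℂ) (y : ℝ) (z : ℂ) :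
    Af b y (z + 2 * π * Complex.I) = Af b y z := by
  unfold Af
  refine Finset.sum_congr rfl fun i _ => ?_
  rw [Complex.exp_neg (((i : ℂ) + 2) * (z + 2 * π * Complex.I)), exp_nat_per, ← Complex.exp_neg]

theorem As_per {K : ℕ} (b : Fin K → ℂ) (y : ℝ) (z : ℂ) :
    As b y (z + 2 * π * Complex.I) = As b y z := by
  unfold As
  refine Finset.sum_congr rfl fun i _ => ?_
  rw [exp_nat_per]

theorem psi_per {K : ℕ} (b : Fin K → ℂ) (y : ℝ) (z : ℂ) :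
    psi b y (z + 2 * π * Complex.I) = psi b y z := by
  have h : Complex.exp (z + 2 * π * Complex.I) = Complex.exp z := Complex.exp_periodic z
  unfold psi
  rw [Af_per, As_per, h]

/-- The coefficients of the reflected sum. -/
def bs {K : ℕ} (b : Fin K → ℂ) (i : Fin K) : ℂ := (starRingEnd ℂ) (b i) * (-1) ^ ((i : ℕ) + 2)

theorem norm_bs {K : ℕ} (b : Fin K → ℂ) (i : Fin K) : ‖bs b i‖ = ‖b i‖ := by
  simp [bs]

theorem As_eq {K : ℕ} (b : Fin K → ℂ) (y : ℝ) (z : ℂ) : As b y z = Af (bs b) y (-z) := by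
  unfold Af As bs
  refine Finset.sum_congr rfl fun i _ => ?_
  have h : -(((i : ℂ) + 2) * -z) = ((i : ℂ) + 2) * z := by ring
  rw [h]
  ring

theorem exp_tau_nat (n : ℕ) (z : ℂ) : Complex.exp (((n : ℂ) + 2) * tau z) =
    (-1) ^ (n + 2) * Complex.exp (-(((n : ℂ) + 2) * (starRingEnd ℂ) z)) := by
  have h : ((n : ℂ) + 2) * tau z =
      ((n + 2 : ℕ) : ℂ) * (π * Complex.I) + -(((n : ℂ) + 2) * (starRingEnd ℂ) z) := by
    rw [tau]
    push_cast
    ring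
  rw [h, Complex.exp_add, Complex.exp_nat_mul, Complex.exp_pi_mul_I]

theorem neg_one_pow_mul (n : ℕ) : ((-1 : ℂ)) ^ n * (-1) ^ n = 1 := by
  rw [← mul_pow]
  simp

theorem As_tau {K : ℕ} (b : Fin K → ℂ) (y : ℝ) (z : ℂ) :
    As b y (tau z) = (starRingEnd ℂ) (Af b y z) := by
  unfold Af As
  rw [map_sum]
  refine Finset.sum_congr rfl fun i _ => ?_
  rw [exp_tau_nat]
  simp only [map_mul, map_div₀, map_add, map_one, map_natCast, ← Complex.exp_conj, map_neg,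
    Complex.conj_ofReal, map_ofNat]
  have h := neg_one_pow_mul ((i : ℕ) + 2)
  linear_combination (starRingEnd ℂ) (b i) / ((i : ℂ) + 1) * Complex.exp (-(((i : ℂ) + 1) * y)) *
    Complex.exp (-(((i : ℂ) + 2) * (starRingEnd ℂ) z)) * h

theorem Af_tau {K : ℕ} (b : Fin K → ℂ) (y : ℝ) (z : ℂ) :
    Af b y (tau z) = (starRingEnd ℂ) (As b y z) := by
  have h := As_tau b y (tau z)
  rw [tau_tau, As_per] at h
  rw [h, Complex.conj_conj]

theorem cs_aux {K : ℕ} {b : Fin K → ℂ} {ε c : ℝ} (hε : 0 ≤ ε) (hc : 0 ≤ c)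
    (hb : ∑ i, ‖b i‖ ^ 2 ≤ ε ^ 2) {a : Fin K → ℝ} (ha : ∑ i, a i ^ 2 ≤ c ^ 2) :
    ∑ i, ‖b i‖ * a i ≤ ε * c := by
  have h1 := Finset.sum_mul_sq_le_sq_mul_sq Finset.univ (fun i => ‖b i‖) a
  have h2 : (∑ i, ‖b i‖ ^ 2) * ∑ i, a i ^ 2 ≤ ε ^ 2 * c ^ 2 :=
    mul_le_mul hb ha (Finset.sum_nonneg fun i _ => sq_nonneg _) (sq_nonneg _)
  have h3 : (∑ i, ‖b i‖ * a i) ^ 2 ≤ (ε * c) ^ 2 := by
    rw [mul_pow]
    exact h1.trans h2
  exact (abs_le.mp (abs_le_of_sq_le_sq h3 (mul_nonneg hε hc))).2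

theorem zeta_aux (K : ℕ) : ∑ i : Fin K, ((1 : ℝ) / ((i : ℝ) + 1)) ^ 2 ≤ (13 / 10) ^ 2 := by
  rw [Fin.sum_univ_eq_sum_range (fun i : ℕ => ((1 : ℝ) / ((i : ℝ) + 1)) ^ 2) K]
  have h1 := sum_le_hasSum (Finset.range (K + 1)) (fun i _ => by positivity) hasSum_zeta_two
  rw [Finset.sum_range_succ'] at h1
  have h2 : π ^ 2 / 6 ≤ (13 / 10) ^ 2 := by
    have := pi_lt_d2
    have hp := pi_pos
    nlinarith
  refine le_trans (le_of_eq ?_) (h1.trans h2)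
  simp [div_pow]

theorem norm_term {K : ℕ} (b : Fin K → ℂ) (y : ℝ) (z : ℂ) (i : Fin K) :
    ‖b i / ((i : ℂ) + 1) * Complex.exp (-(((i : ℂ) + 1) * y)) *
      Complex.exp (-(((i : ℂ) + 2) * z))‖ =
    ‖b i‖ * (1 / ((i : ℝ) + 1)) * (rexp (-y) * rexp (-2 * z.re)) * rexp (-(y + z.re)) ^ (i : ℕ) := by
  have h1 : ‖(i : ℂ) + 1‖ = (i : ℝ) + 1 := by
    have : ((i : ℂ) + 1) = (((i : ℝ) + 1 : ℝ) : ℂ) := by push_cast; rfl
    rw [this, Complex.norm_real, Real.norm_of_nonneg (by positivity)]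
  rw [norm_mul, norm_mul, norm_div, h1, Complex.norm_exp, Complex.norm_exp]
  have h2 : (-(((i : ℂ) + 1) * y)).re = -(((i : ℝ) + 1) * y) := by simp
  have h3 : (-(((i : ℂ) + 2) * z)).re = -(((i : ℝ) + 2) * z.re) := by simp
  have h4 : rexp (-(((i : ℝ) + 1) * y)) * rexp (-(((i : ℝ) + 2) * z.re)) =
      rexp (-y) * rexp (-2 * z.re) * rexp (-(y + z.re)) ^ (i : ℕ) := by
    rw [← Real.exp_nat_mul, ← Real.exp_add, ← Real.exp_add, ← Real.exp_add]
    congr 1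
    ring
  rw [h2, h3, mul_assoc, h4]
  ring

theorem norm_Af_le {K : ℕ} {b : Fin K → ℂ} {y ε : ℝ} (hε : 0 ≤ ε)
    (hb : ∑ i, ‖b i‖ ^ 2 ≤ ε ^ 2) {z : ℂ} (hz : -y ≤ z.re) :
    ‖Af b y z‖ ≤ 13 / 10 * ε * rexp (-y) * rexp (-2 * z.re) := by
  have h1 : ‖Af b y z‖ ≤ ∑ i : Fin K, ‖b i‖ * (1 / ((i : ℝ) + 1)) *
      (rexp (-y) * rexp (-2 * z.re)) := by
    unfold Af
    refine (norm_sum_le _ _).trans (Finset.sum_le_sum fun i _ => ?_)
    rw [norm_term]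
    refine mul_le_of_le_one_right (by positivity) (pow_le_one₀ (by positivity) ?_)
    rw [Real.exp_le_one_iff]
    linarith
  rw [← Finset.sum_mul] at h1
  have h2 := cs_aux hε (by norm_num) hb (zeta_aux K)
  calc ‖Af b y z‖ ≤ _ := h1
    _ ≤ (ε * (13 / 10)) * (rexp (-y) * rexp (-2 * z.re)) :=
      mul_le_mul_of_nonneg_right h2 (by positivity)
    _ = _ := by ring

theorem hb_bs {K : ℕ} {b : Fin K → ℂ} {ε : ℝ} (hb : ∑ i, ‖b i‖ ^ 2 ≤ ε ^ 2) :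
    ∑ i, ‖bs b i‖ ^ 2 ≤ ε ^ 2 := by
  refine le_trans (le_of_eq ?_) hb
  exact Finset.sum_congr rfl fun i _ => by rw [norm_bs]

theorem norm_As_le {K : ℕ} {b : Fin K → ℂ} {y ε : ℝ} (hε : 0 ≤ ε)
    (hb : ∑ i, ‖b i‖ ^ 2 ≤ ε ^ 2) {z : ℂ} (hz : z.re ≤ y) :
    ‖As b y z‖ ≤ 13 / 10 * ε * rexp (-y) * rexp (2 * z.re) := by
  rw [As_eq]
  have h := norm_Af_le (z := -z) (y := y) hε (hb_bs hb) (by rw [Complex.neg_re]; linarith)
  rw [Complex.neg_re] at h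
  have h2 : -2 * -z.re = 2 * z.re := by ring
  rwa [h2] at h

theorem hasDerivAt_Af {K : ℕ} (b : Fin K → ℂ) (y : ℝ) (z : ℂ) :
    HasDerivAt (Af b y) (∑ i : Fin K, b i / ((i : ℂ) + 1) * Complex.exp (-(((i : ℂ) + 1) * y)) *
      (Complex.exp (-(((i : ℂ) + 2) * z)) * -((i : ℂ) + 2))) z := by
  unfold Af
  refine HasDerivAt.fun_sum fun i _ => ?_
  refine HasDerivAt.const_mul _ ?_
  refine HasDerivAt.cexp ?_
  have h := ((hasDerivAt_id z).const_mul ((i : ℂ) + 2)).neg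
  rw [mul_one] at h
  exact h

theorem norm_deriv_Af_le {K : ℕ} {b : Fin K → ℂ} {y ε : ℝ} (hε : 0 ≤ ε)
    (hb : ∑ i, ‖b i‖ ^ 2 ≤ ε ^ 2) {z : ℂ} (hz : -y + 1 ≤ z.re) :
    ‖deriv (Af b y) z‖ ≤ 4 * ε * rexp (-y) * rexp (-2 * z.re) := by
  have hq : rexp (-(y + z.re)) ≤ 1 / 2 := by
    have h1 : rexp (-(y + z.re)) ≤ rexp (-1) := Real.exp_le_exp.mpr (by linarith)
    have h2 : rexp (-1) < 0.3678794412 := Real.exp_neg_one_lt_d9
    norm_num at h2
    linarith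
  have h1 : ‖deriv (Af b y) z‖ ≤ ∑ i : Fin K, ‖b i‖ * (1 / 2) ^ (i : ℕ) *
      (2 * (rexp (-y) * rexp (-2 * z.re))) := by
    rw [(hasDerivAt_Af b y z).deriv]
    refine (norm_sum_le _ _).trans (Finset.sum_le_sum fun i _ => ?_)
    rw [← mul_assoc, norm_mul, norm_term, norm_neg]
    have h2 : ‖(i : ℂ) + 2‖ = (i : ℝ) + 2 := by
      have : ((i : ℂ) + 2) = (((i : ℝ) + 2 : ℝ) : ℂ) := by push_cast; rfl
      rw [this, Complex.norm_real, Real.norm_of_nonneg (by positivity)]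
    rw [h2]
    have h3 : 1 / ((i : ℝ) + 1) * ((i : ℝ) + 2) ≤ 2 := by
      rw [one_div, inv_mul_le_iff₀ (by positivity)]
      have : (0 : ℝ) ≤ (i : ℝ) := by positivity
      linarith
    have h4 : rexp (-(y + z.re)) ^ (i : ℕ) ≤ (1 / 2) ^ (i : ℕ) :=
      pow_le_pow_left₀ (by positivity) hq _
    calc ‖b i‖ * (1 / ((i : ℝ) + 1)) * (rexp (-y) * rexp (-2 * z.re)) *
          rexp (-(y + z.re)) ^ (i : ℕ) * ((i : ℝ) + 2)
        = (‖b i‖ * (rexp (-y) * rexp (-2 * z.re))) *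
          ((1 / ((i : ℝ) + 1) * ((i : ℝ) + 2)) * rexp (-(y + z.re)) ^ (i : ℕ)) := by ring
      _ ≤ (‖b i‖ * (rexp (-y) * rexp (-2 * z.re))) * (2 * (1 / 2) ^ (i : ℕ)) := by
        refine mul_le_mul_of_nonneg_left ?_ (by positivity)
        exact mul_le_mul h3 h4 (by positivity) (by norm_num)
      _ = _ := by ring
  rw [← Finset.sum_mul] at h1
  have h5 : ∑ i : Fin K, (((1 : ℝ) / 2) ^ (i : ℕ)) ^ 2 ≤ 2 ^ 2 := by
    rw [Fin.sum_univ_eq_sum_range (fun i : ℕ => (((1 : ℝ) / 2) ^ i) ^ 2) K]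
    have h6 : HasSum (fun i : ℕ => ((1 : ℝ) / 4) ^ i) (1 - 1 / 4)⁻¹ :=
      hasSum_geometric_of_lt_one (by norm_num) (by norm_num)
    have h7 := sum_le_hasSum (Finset.range K) (fun i _ => by positivity) h6
    have h8 : ∑ i ∈ Finset.range K, (((1 : ℝ) / 2) ^ i) ^ 2 =
        ∑ i ∈ Finset.range K, ((1 : ℝ) / 4) ^ i := by
      refine Finset.sum_congr rfl fun i _ => ?_
      rw [← pow_mul, mul_comm i 2, pow_mul]
      norm_num
    rw [h8]
    refine h7.trans ?_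
    norm_num
  have h2 := cs_aux hε (by norm_num) hb h5
  calc ‖deriv (Af b y) z‖ ≤ _ := h1
    _ ≤ (ε * 2) * (2 * (rexp (-y) * rexp (-2 * z.re))) :=
      mul_le_mul_of_nonneg_right h2 (by positivity)
    _ = _ := by ring

theorem norm_deriv_As_le {K : ℕ} {b : Fin K → ℂ} {y ε : ℝ} (hε : 0 ≤ ε)
    (hb : ∑ i, ‖b i‖ ^ 2 ≤ ε ^ 2) {z : ℂ} (hz : z.re ≤ y - 1) :
    ‖deriv (As b y) z‖ ≤ 4 * ε * rexp (-y) * rexp (2 * z.re) := by
  have h1 : As b y = fun z => Af (bs b) y (-z) := funext (As_eq b y)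
  have h2 : deriv (As b y) z = -deriv (Af (bs b) y) (-z) := by
    rw [h1, deriv_comp_neg]
  rw [h2, norm_neg]
  have h := norm_deriv_Af_le (z := -z) (y := y) hε (hb_bs hb) (by rw [Complex.neg_re]; linarith)
  rw [Complex.neg_re] at h
  have h3 : -2 * -z.re = 2 * z.re := by ring
  rwa [h3] at h

end Pool.Agent.CC57
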