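import Pool.Agent.CC57.Vcr
import Pool.Agent.CC57.PsiB

set_option autoImplicit false

/-!
Consequences of `IsGauge`.
* `om_lip`: `om - id` is bounded by `1/8` and, by periodicity and the Cauchy estimate (or compactness),
  has a bounded derivative on `|Re z| ≤ 2`; the strip is convex.
  (`deriv om` is continuous on `|Re z| < 9/4`, periodic, so bounded on `|Re z| ≤ 2`.)
* `om_inj`: `om z = om z'` gives `exp z = exp z'` (`psi_om`), so `z' = z + 2πi n`, and
  `‖z - z'‖ ≤ 1/4`, so `n = 0`.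
* `om_period`: `om z' = om z + 2πi n` implies `z' = z + 2πi n`.
* `norm_lt_iff`: for `l = om z`: `‖ψ l‖ = ‖exp z‖ = e^{Re z}`, so `‖ψ l‖ < 1` iff `Re z < 0`.
* `psi_tau`: for `|Re l| ≤ 3/2`, `l = om z`: `ψ (tau l) = ψ (om (tau z)) = exp (tau z)`, so
  `ψ (tau l) * conj (ψ l) = -1` (`exp_tau`).
* `norm_psi_lt`: `‖ψ z‖ < 1` for `-y ≤ Re z ≤ -1/2` (`small`).
-/

open Real MeasureTheory Set

namespace Pool.Agent.CC57

variable {y : ℝ} {ψ om : ℂ → ℂ}

theorem om_int (hg : IsGauge y ψ om) {z : ℂ} (hz : |z.re| ≤ 2) (n : ℤ) :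
    om (z + 2 * π * n * Complex.I) = om z + 2 * π * n * Complex.I := by
  have hre : ∀ n : ℤ, |(z + 2 * π * n * Complex.I).re| ≤ 2 := by
    intro n
    have : (z + 2 * π * n * Complex.I).re = z.re := by simp
    rw [this]
    exact hz
  induction n using Int.induction_on with
  | zero => simp
  | succ i ih =>
    have h1 := hg.om_per _ (hre i)
    have e : z + 2 * π * ((i : ℤ) + 1 : ℤ) * Complex.I =
        z + 2 * π * (i : ℤ) * Complex.I + 2 * π * Complex.I := by
      push_cast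
      ring
    rw [e, h1, ih]
    push_cast
    ring
  | pred i ih =>
    have h1 := hg.om_per _ (hre (-(i : ℤ) - 1))
    have e : z + 2 * π * (-(i : ℤ) - 1 : ℤ) * Complex.I + 2 * π * Complex.I =
        z + 2 * π * (-(i : ℤ) : ℤ) * Complex.I := by
      push_cast
      ring
    rw [e, ih] at h1
    have h2 : om (z + 2 * π * (-(i : ℤ) - 1 : ℤ) * Complex.I) =
        om z + 2 * π * (-(i : ℤ) : ℤ) * Complex.I - 2 * π * Complex.I := by
      rw [h1]
      ring
    rw [h2]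
    push_cast
    ring

private theorem exists_red (x : ℝ) : ∃ n : ℤ, 0 ≤ x - 2 * π * n ∧ x - 2 * π * n ≤ 2 * π := by
  have hpi := Real.pi_pos
  refine ⟨⌊x / (2 * π)⌋, ?_, ?_⟩
  · have h := Int.floor_le (x / (2 * π))
    rw [le_div_iff₀ (by positivity)] at h
    linarith
  · have h := (Int.lt_floor_add_one (x / (2 * π))).le
    rw [div_le_iff₀ (by positivity)] at h
    linarith

private theorem convex_rect (a b c d : ℝ) : Convex ℝ {z : ℂ | z.re ∈ Icc a b ∧ z.im ∈ Icc c d} := by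
  have : {z : ℂ | z.re ∈ Icc a b ∧ z.im ∈ Icc c d} =
      (Complex.reLm ⁻¹' (Icc a b)) ∩ (Complex.imLm ⁻¹' (Icc c d)) := by
    ext z
    simp
  rw [this]
  exact ((convex_Icc a b).linear_preimage Complex.reLm).inter ((convex_Icc c d).linear_preimage Complex.imLm)

private theorem compact_rect (a b c d : ℝ) : IsCompact {z : ℂ | z.re ∈ Icc a b ∧ z.im ∈ Icc c d} := by
  have h := (isCompact_Icc (a := a) (b := b)).reProdIm (isCompact_Icc (a := c) (b := d))
  have e : {z : ℂ | z.re ∈ Icc a b ∧ z.im ∈ Icc c d} = Icc a b ×ℂ Icc c d := by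
    ext z
    simp [Complex.mem_reProdIm]
  rw [e]
  exact h

private theorem deriv_bdd {f : ℂ → ℂ} {U : Set ℂ} (hU : IsOpen U) (hf : ∀ z ∈ U, DifferentiableAt ℂ f z)
    {Q : Set ℂ} (hQ : IsCompact Q) (hQU : Q ⊆ U) : ∃ C : ℝ, 0 ≤ C ∧ ∀ z ∈ Q, ‖deriv f z‖ ≤ C := by
  have hd : DifferentiableOn ℂ f U := fun z hz => (hf z hz).differentiableWithinAt
  have hc : ContinuousOn (deriv f) Q := ((hd.deriv hU).continuousOn).mono hQU
  obtain ⟨C, hC⟩ := hQ.exists_bound_of_continuousOn hc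
  refine ⟨max C 0, le_max_right _ _, fun z hz => (hC z hz).trans (le_max_left _ _)⟩

theorem om_lip (hg : IsGauge y ψ om) :
    ∃ K : NNReal, LipschitzOnWith K om {z : ℂ | |z.re| ≤ 2} := by
  have hpi := Real.pi_pos
  have hU : IsOpen {z : ℂ | |z.re| < 9 / 4} :=
    isOpen_lt (continuous_abs.comp Complex.continuous_re) continuous_const
  have hQU : {z : ℂ | z.re ∈ Icc (-2 : ℝ) 2 ∧ z.im ∈ Icc (-1 : ℝ) (2 * π + 1)} ⊆
      {z : ℂ | |z.re| < 9 / 4} := by
    rintro z ⟨⟨h1, h2⟩, _⟩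
    show |z.re| < 9 / 4
    rw [abs_lt]
    constructor <;> linarith
  obtain ⟨C, hC0, hC⟩ := deriv_bdd hU (fun z hz => hg.om_diff z hz) (compact_rect (-2) 2 (-1) (2 * π + 1)) hQU
  refine ⟨⟨max C (5 / 4), le_trans hC0 (le_max_left _ _)⟩, LipschitzOnWith.of_dist_le_mul ?_⟩
  intro z hz w hw
  have hz' : |z.re| ≤ 2 := hz
  have hw' : |w.re| ≤ 2 := hw
  show dist (om z) (om w) ≤ max C (5 / 4) * dist z w
  rw [dist_eq_norm, dist_eq_norm]
  rcases le_or_gt 1 ‖z - w‖ with h1 | h1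
  · have e : om z - om w = (om z - z) + (z - w) - (om w - w) := by ring
    have h2 := hg.om_near z hz'
    have h3 := hg.om_near w hw'
    have h4 : ‖om z - om w‖ ≤ 5 / 4 * ‖z - w‖ := by
      rw [e]
      refine (norm_sub_le _ _).trans ?_
      have := norm_add_le (om z - z) (z - w)
      linarith
    refine h4.trans ?_
    apply mul_le_mul_of_nonneg_right (le_max_right _ _) (norm_nonneg _)
  · obtain ⟨n, hn1, hn2⟩ := exists_red z.im
    have ez := om_int hg hz' (-n)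
    have ew := om_int hg hw' (-n)
    have hzr : (z + 2 * π * ((-n : ℤ) : ℂ) * Complex.I).re = z.re := by simp
    have hwr : (w + 2 * π * ((-n : ℤ) : ℂ) * Complex.I).re = w.re := by simp
    have hzi : (z + 2 * π * ((-n : ℤ) : ℂ) * Complex.I).im = z.im - 2 * π * n := by
      simp
      ring
    have hwi : (w + 2 * π * ((-n : ℤ) : ℂ) * Complex.I).im = w.im - 2 * π * n := by
      simp
      ring
    have him : |z.im - w.im| ≤ 1 := by
      have := Complex.abs_im_le_norm (z - w)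
      rw [Complex.sub_im] at this
      linarith
    obtain ⟨him1, him2⟩ := abs_le.1 him
    have hzQ : z + 2 * π * ((-n : ℤ) : ℂ) * Complex.I ∈
        {z : ℂ | z.re ∈ Icc (-2 : ℝ) 2 ∧ z.im ∈ Icc (-1 : ℝ) (2 * π + 1)} := by
      constructor
      · rw [hzr]
        exact abs_le.1 hz'
      · rw [hzi]
        constructor <;> linarith
    have hwQ : w + 2 * π * ((-n : ℤ) : ℂ) * Complex.I ∈
        {z : ℂ | z.re ∈ Icc (-2 : ℝ) 2 ∧ z.im ∈ Icc (-1 : ℝ) (2 * π + 1)} := by
      constructor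
      · rw [hwr]
        exact abs_le.1 hw'
      · rw [hwi]
        constructor <;> linarith
    have h5 := Convex.norm_image_sub_le_of_norm_deriv_le (fun x hx => hg.om_diff x (hQU hx)) hC
      (convex_rect (-2) 2 (-1) (2 * π + 1)) hwQ hzQ
    rw [ez, ew, add_sub_add_right_eq_sub, add_sub_add_right_eq_sub] at h5
    refine h5.trans ?_
    apply mul_le_mul_of_nonneg_right (le_max_left _ _) (norm_nonneg _)

theorem om_re_le (hg : IsGauge y ψ om) {z : ℂ} (hz : |z.re| ≤ 2) :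
    |(om z).re - z.re| ≤ 1 / 8 := by
  have h1 := hg.om_near z hz
  have h2 := Complex.abs_re_le_norm (om z - z)
  rw [Complex.sub_re] at h2
  linarith

theorem om_inj (hg : IsGauge y ψ om) : InjOn om {z : ℂ | |z.re| ≤ 2} := by
  intro z hz w hw h
  have hz' : |z.re| ≤ 2 := hz
  have hw' : |w.re| ≤ 2 := hw
  have h1 := hg.psi_om z hz'
  have h2 := hg.psi_om w hw'
  rw [h, h2] at h1
  obtain ⟨n, hn⟩ := Complex.exp_eq_exp_iff_exists_int.1 h1
  have h3 := hg.om_near z hz'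
  have h4 := hg.om_near w hw'
  rw [h] at h3
  have h5 : ‖w - z‖ ≤ 1 / 4 := by
    have e : w - z = (om w - z) - (om w - w) := by ring
    rw [e]
    refine (norm_sub_le _ _).trans ?_
    linarith
  have h6 : ‖w - z‖ = |(n : ℝ)| * (2 * π) := by
    rw [hn, add_sub_cancel_left, norm_mul, Complex.norm_intCast, norm_mul, norm_mul, Complex.norm_I, mul_one,
      Complex.norm_real, Real.norm_of_nonneg Real.pi_pos.le]
    simp
  have hn0 : n = 0 := by
    by_contra hne
    have h7 : (1 : ℝ) ≤ |(n : ℝ)| := by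
      rw [← Int.cast_abs]
      exact_mod_cast Int.one_le_abs hne
    have := Real.pi_gt_three
    rw [h6] at h5
    nlinarith
  rw [hn, hn0]
  simp

theorem om_period (hg : IsGauge y ψ om) {z z' : ℂ} (hz : |z.re| ≤ 2) (hz' : |z'.re| ≤ 2) {n : ℤ}
    (h : om z' = om z + 2 * π * n * Complex.I) : z' = z + 2 * π * n * Complex.I := by
  rw [← om_int hg hz] at h
  apply om_inj hg hz' _ h
  show |(z + 2 * π * n * Complex.I).re| ≤ 2
  have : (z + 2 * π * n * Complex.I).re = z.re := by simp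
  rw [this]
  exact hz

theorem norm_psi_lt_iff (hg : IsGauge y ψ om) {z : ℂ} (hz : |z.re| ≤ 2) :
    ‖ψ (om z)‖ < 1 ↔ z.re < 0 := by
  rw [hg.psi_om z hz, Complex.norm_exp, Real.exp_lt_one_iff]

theorem psi_tau (hg : IsGauge y ψ om) {l : ℂ} (hl : |l.re| ≤ 3 / 2) :
    ψ (tau l) * (starRingEnd ℂ) (ψ l) = -1 := by
  obtain ⟨z, hz, rfl⟩ := hg.om_surj l hl
  have hz' : |(tau z).re| ≤ 2 := by
    rw [tau_re, abs_neg]
    exact hz
  rw [← hg.om_tau z hz, hg.psi_om _ hz', hg.psi_om z hz, exp_tau]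

theorem psi_int (hg : IsGauge y ψ om) (z : ℂ) (n : ℤ) :
    ψ (z + 2 * π * n * Complex.I) = ψ z := by
  induction n using Int.induction_on with
  | zero => simp
  | succ i ih =>
    have h1 := hg.per (z + 2 * π * (i : ℤ) * Complex.I)
    rw [← ih, ← h1]
    congr 1
    push_cast
    ring
  | pred i ih =>
    have h1 := hg.per (z + 2 * π * (-(i : ℤ) - 1 : ℤ) * Complex.I)
    rw [← h1, ← ih]
    congr 1
    push_cast
    ring

private theorem convex_strip (a b : ℝ) : Convex ℝ {z : ℂ | a ≤ z.re ∧ z.re ≤ b} := by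
  have : {z : ℂ | a ≤ z.re ∧ z.re ≤ b} = Complex.reLm ⁻¹' (Icc a b) := by
    ext z
    simp
  rw [this]
  exact (convex_Icc a b).linear_preimage Complex.reLm

/-- `ψ` is Lipschitz on the strip. -/
theorem psi_lip (hg : IsGauge y ψ om) :
    ∃ K : NNReal, LipschitzOnWith K ψ {z : ℂ | -y ≤ z.re ∧ z.re ≤ 2} := by
  have hpi := Real.pi_pos
  have hU : IsOpen {z : ℂ | z.re < 5 / 2} := isOpen_lt Complex.continuous_re continuous_const
  have hQU : {z : ℂ | z.re ∈ Icc (-y) 2 ∧ z.im ∈ Icc (0 : ℝ) (2 * π)} ⊆ {z : ℂ | z.re < 5 / 2} := by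
    rintro z ⟨⟨h1, h2⟩, _⟩
    show z.re < 5 / 2
    linarith
  obtain ⟨C, hC0, hC⟩ := deriv_bdd hU (fun z hz => hg.diff z hz) (compact_rect (-y) 2 0 (2 * π)) hQU
  refine ⟨⟨C, hC0⟩, LipschitzOnWith.of_dist_le_mul ?_⟩
  intro z hz w hw
  show dist (ψ z) (ψ w) ≤ C * dist z w
  rw [dist_eq_norm, dist_eq_norm]
  apply Convex.norm_image_sub_le_of_norm_deriv_le (s := {z : ℂ | -y ≤ z.re ∧ z.re ≤ 2}) _ _
    (convex_strip (-y) 2) hw hz
  · rintro x ⟨_, hx⟩
    exact hg.diff x (by linarith)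
  · rintro x ⟨hx1, hx2⟩
    obtain ⟨n, hn1, hn2⟩ := exists_red x.im
    have hfun : (fun u => ψ (u + 2 * π * ((-n : ℤ) : ℂ) * Complex.I)) = ψ := by
      funext u
      exact psi_int hg u (-n)
    have h1 : deriv ψ (x + 2 * π * ((-n : ℤ) : ℂ) * Complex.I) = deriv ψ x := by
      conv_rhs => rw [← hfun]
      rw [deriv_comp_add_const]
    rw [← h1]
    apply hC
    have hr : (x + 2 * π * ((-n : ℤ) : ℂ) * Complex.I).re = x.re := by simp
    have hi : (x + 2 * π * ((-n : ℤ) : ℂ) * Complex.I).im = x.im - 2 * π * n := by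
      simp
      ring
    constructor
    · rw [hr]
      exact ⟨hx1, hx2⟩
    · rw [hi]
      exact ⟨hn1, hn2⟩

private theorem F_lip (σ : ℝ) : ∃ K : NNReal, LipschitzOnWith K (fun v => Tx (xc v) σ) (Metric.closedBall 0 (3 / 4)) := by
  have hxc : ContDiff ℝ 1 xc := by
    unfold xc
    have h1 : ContDiff ℝ 1 fun v : ℂ => (2 / (1 + ‖v‖ ^ 2) : ℝ) := by
      apply ContDiff.div contDiff_const (contDiff_const.add (contDiff_norm_sq ℝ))
      intro v
      positivity
    exact (Complex.ofRealCLM.contDiff.comp h1).mul contDiff_id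
  have hinn : ContDiff ℝ 1 fun v : ℂ => inn (xc v) σ := by
    unfold inn
    exact ((Complex.reCLM.contDiff.comp hxc).mul contDiff_const).add
      ((Complex.imCLM.contDiff.comp hxc).mul contDiff_const)
  have hinp : ContDiff ℝ 1 fun v : ℂ => inp (xc v) σ := by
    unfold inp
    exact ((Complex.imCLM.contDiff.comp hxc).mul contDiff_const).sub
      ((Complex.reCLM.contDiff.comp hxc).mul contDiff_const)
  have hpos : ∀ v ∈ Metric.ball (0 : ℂ) 1, 0 < qx (xc v) σ := by
    intro v hv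
    rw [mem_ball_zero_iff] at hv
    exact qx_pos (norm_xc_lt hv) σ
  have hF : ContDiffOn ℝ 1 (fun v => Tx (xc v) σ) (Metric.ball 0 1) := by
    unfold Tx
    apply ContDiffOn.div hinp.contDiffOn _ (fun v hv => (hpos v hv).ne')
    unfold qx
    apply ContDiffOn.sqrt (contDiff_const.sub (hinn.pow 2)).contDiffOn
    intro v hv
    have := hpos v hv
    unfold qx at this
    exact (Real.sqrt_pos.1 this).ne'
  have hsub : Metric.closedBall (0 : ℂ) (3 / 4) ⊆ Metric.ball 0 1 :=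
    Metric.closedBall_subset_ball (by norm_num)
  have hc : ContinuousOn (fderiv ℝ (fun v => Tx (xc v) σ)) (Metric.closedBall 0 (3 / 4)) :=
    (hF.continuousOn_fderiv_of_isOpen Metric.isOpen_ball le_rfl).mono hsub
  obtain ⟨C, hC⟩ := (isCompact_closedBall (0 : ℂ) (3 / 4)).exists_bound_of_continuousOn hc
  refine ⟨⟨max C 0, le_max_right _ _⟩, ?_⟩
  apply Convex.lipschitzOnWith_of_nnnorm_fderiv_le (𝕜 := ℝ) _ _ (convex_closedBall 0 (3 / 4))
  · intro v hv
    exact (hF.differentiableOn (by norm_num)).differentiableAt (Metric.isOpen_ball.mem_nhds (hsub hv))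
  · intro v hv
    exact (hC v hv).trans (le_max_left _ _)

/-- `Ts ψ σ` is Lipschitz on the part where `‖ψ‖ ≤ 3/4`. -/
theorem Ts_lip (hg : IsGauge y ψ om) (σ : ℝ) :
    ∃ K : NNReal, LipschitzOnWith K (Ts ψ σ) {z : ℂ | -y ≤ z.re ∧ z.re ≤ -1 / 2} := by
  obtain ⟨K1, h1⟩ := psi_lip hg
  obtain ⟨K2, h2⟩ := F_lip σ
  refine ⟨K2 * K1, ?_⟩
  have h3 : LipschitzOnWith K1 ψ {z : ℂ | -y ≤ z.re ∧ z.re ≤ -1 / 2} := by
    apply h1.mono
    rintro z ⟨a, b⟩
    exact ⟨a, by linarith⟩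
  apply h2.comp h3
  rintro z ⟨a, b⟩
  rw [mem_closedBall_zero_iff]
  exact hg.small z a (by linarith)

end Pool.Agent.CC57
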