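import Pool.Agent.CC57.Per
import Pool.Agent.CC57.OmB

set_option autoImplicit false

/-!
Change of variables near the equator.  `f` is Lipschitz on `|Re z| ≤ 3`, periodic, zero for
`Re z ≤ -1`.  Put `g = br (Ts ψ σ) f` on `{-1 < Re z ≤ 1, ‖ψ z‖ < 1}` and `g = 0` elsewhere, a periodic
function.  `U = Cell (-2) 0` minus the null set `Re z = 0`, `V = om '' U`.
1. Change of variables (`MeasureTheory.integral_image_eq_integral_abs_det_fderiv_smul`, `om` injective
   on `U`, holomorphic with `|det| = ‖om'‖²`): `∫_V g = ∫_U ‖om' z‖² g (om z)`.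
2. For a.e. `z ∈ U`: `‖om' z‖² g (om z) = br (Ts exp σ) (f ∘ om) z`: if `-1 < Re (om z)`, then
   `Re (om z) ≤ 1/8 ≤ 1` and `‖ψ (om z)‖ < 1` (`norm_psi_lt_iff`), use `br_comp` with
   `Ts ψ σ (om z) = Ts exp σ z` near `z` (`psi_om`); `f` is differentiable at `om z` for a.e. `z` (Rademacher
   and `om` maps null sets' preimages to null sets: `om` is locally bi-Lipschitz, or: `f ∘ om` is
   Lipschitz so a.e. differentiable, and `f = (f ∘ om) ∘ om⁻¹` near `om z`).  If `Re (om z) < -1` both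
   sides vanish (`f ∘ om = 0` near `z`); `Re (om z) = -1` is a null set of `z` (or there `f` has derivative
   zero a.e.).
3. The translates of `V` by `2πi n` are disjoint (`om_period`), `per_integral`:
   `∫_V g = ∫_{0 < im ≤ 2π, ∃ n, z + 2πi n ∈ V} g`, and up to a null set this is the integral over
   `Nc y ψ` of `br (Ts ψ σ) f`: a point `z` of `Nc y ψ` with `Re z > -1` is `om z'` with `|Re z'| ≤ 2`
   (`om_surj`), `Re z' < 0` (`norm_psi_lt_iff`), `Re z' > -9/8`; after a translation by a period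
   `z' ∈ U`; for `Re z < -1` the function `br (Ts ψ σ) f` vanishes as `f = 0` near `z`.
-/

open Real MeasureTheory Set

namespace Pool.Agent.CC57

namespace ChgAux

theorem abs_det_mul (c : ℂ) :
    |(((ContinuousLinearMap.toSpanSingleton ℂ c : ℂ →L[ℂ] ℂ).restrictScalars ℝ :
      ℂ →L[ℝ] ℂ)).det| = ‖c‖ ^ 2 := by
  have h1 : (((ContinuousLinearMap.toSpanSingleton ℂ c : ℂ →L[ℂ] ℂ).restrictScalars ℝ :
      ℂ →L[ℝ] ℂ)).det = Complex.normSq c := by
    simp only [ContinuousLinearMap.det]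
    have h2 : (((ContinuousLinearMap.toSpanSingleton ℂ c : ℂ →L[ℂ] ℂ).restrictScalars ℝ :
      ℂ →L[ℝ] ℂ) : ℂ →ₗ[ℝ] ℂ) =
      ((ContinuousLinearMap.toSpanSingleton ℂ c : ℂ →L[ℂ] ℂ) : ℂ →ₗ[ℂ] ℂ).restrictScalars ℝ := rfl
    rw [h2, LinearMap.det_restrictScalars, Algebra.norm_complex_apply]
    congr 1
    simp
  rw [h1, Complex.normSq_eq_norm_sq, abs_of_nonneg (by positivity)]

/-- `f` is differentiable at `om z` if `f ∘ om` is differentiable at `z`. -/
theorem diff_of_comp {om : ℂ → ℂ} {c z : ℂ} (hs : HasStrictDerivAt om c z) (hc : c ≠ 0)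
    {f : ℂ → ℝ} (h : DifferentiableAt ℝ (fun z => f (om z)) z) : DifferentiableAt ℝ f (om z) := by
  set inv := hs.localInverse om c z hc
  have h1 : HasStrictDerivAt inv c⁻¹ (om z) := hs.to_localInverse hc
  have h2 : ∀ᶠ w in nhds (om z), om (inv w) = w := hs.eventually_right_inverse hc
  have h3 : inv (om z) = z := (hs.eventually_left_inverse hc).self_of_nhds
  have h4 : DifferentiableAt ℝ inv (om z) := (h1.hasDerivAt.differentiableAt).restrictScalars ℝ
  have h5 : DifferentiableAt ℝ (fun w => f (om (inv w))) (om z) := by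
    have h6 : DifferentiableAt ℝ (fun z => f (om z)) (inv (om z)) := by rw [h3]; exact h
    exact h6.comp (om z) h4
  refine h5.congr_of_eventuallyEq ?_
  filter_upwards [h2] with w hw
  rw [hw]

theorem br_congr {T T' f f' : ℂ → ℝ} {z : ℂ} (h1 : T =ᶠ[nhds z] T') (h2 : f =ᶠ[nhds z] f') :
    br T f z = br T' f' z := by
  unfold br
  rw [h1.fderiv_eq, h2.fderiv_eq]

theorem br_eq_zero {T f : ℂ → ℝ} {z : ℂ} (h : fderiv ℝ f z = 0) : br T f z = 0 := by
  unfold br
  rw [h]
  simp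

theorem br_add_period {T f : ℂ → ℝ} {z w : ℂ} (hT : ∀ᶠ u in nhds z, T (u + w) = T u)
    (hf : ∀ᶠ u in nhds z, f (u + w) = f u) : br T f (z + w) = br T f z := by
  unfold br
  have h1 : fderiv ℝ T (z + w) = fderiv ℝ T z := by
    rw [← fderiv_comp_add_right]
    exact Filter.EventuallyEq.fderiv_eq hT
  have h2 : fderiv ℝ f (z + w) = fderiv ℝ f z := by
    rw [← fderiv_comp_add_right]
    exact Filter.EventuallyEq.fderiv_eq hf
  rw [h1, h2]

variable {y : ℝ} {ψ om : ℂ → ℂ}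

theorem isOpen_abs_re (c : ℝ) : IsOpen {z : ℂ | |z.re| < c} :=
  isOpen_lt (Complex.continuous_re.abs) continuous_const

theorem om_strict (hg : IsGauge y ψ om) {z : ℂ} (hz : |z.re| < 9 / 4) :
    HasStrictDerivAt om (deriv om z) z := by
  have h1 : DifferentiableOn ℂ om {z : ℂ | |z.re| < 9 / 4} := fun w hw =>
    (hg.om_diff w hw).differentiableWithinAt
  exact (h1.analyticAt ((isOpen_abs_re _).mem_nhds hz)).hasStrictDerivAt

theorem deriv_om_ne (hg : IsGauge y ψ om) {z : ℂ} (hz : |z.re| < 2) : deriv om z ≠ 0 := by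
  intro h0
  have h1 : HasDerivAt om (deriv om z) z := (om_strict hg (by linarith)).hasDerivAt
  have h2 : |(om z).re - z.re| ≤ 1 / 8 := om_re_le hg hz.le
  have h3 : (om z).re < 5 / 2 := by
    have := (abs_le.1 h2).2
    have := (abs_lt.1 hz).2
    linarith
  have h4 : HasDerivAt ψ (deriv ψ (om z)) (om z) := (hg.diff _ h3).hasDerivAt
  have h5 := h4.comp z h1
  rw [h0, mul_zero] at h5
  have h6 : (ψ ∘ om) =ᶠ[nhds z] Complex.exp := by
    filter_upwards [(isOpen_abs_re 2).mem_nhds hz] with w hw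
    exact hg.psi_om w (le_of_lt hw)
  have h7 := h5.congr_of_eventuallyEq h6.symm
  exact Complex.exp_ne_zero z ((Complex.hasDerivAt_exp z).unique h7)

/-- The region. -/
def P (ψ : ℂ → ℂ) : Set ℂ := {z | -1 ≤ z.re ∧ z.re ≤ 1 ∧ ‖ψ z‖ < 1}

/-- The periodic function. -/
noncomputable def gg (ψ : ℂ → ℂ) (σ : ℝ) (f : ℂ → ℝ) : ℂ → ℝ := (P ψ).indicator (br (Ts ψ σ) f)

theorem gg_per (hg : IsGauge y ψ om) {f : ℂ → ℝ}
    (hp : ∀ z : ℂ, |z.re| ≤ 3 → f (z + 2 * π * Complex.I) = f z) (σ : ℝ) (z : ℂ) :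
    gg ψ σ f (z + 2 * π * Complex.I) = gg ψ σ f z := by
  have hre : (z + 2 * π * Complex.I).re = z.re := by simp
  have hP : z + 2 * π * Complex.I ∈ P ψ ↔ z ∈ P ψ := by
    simp only [P, mem_ofPred_eq, hg.per, hre]
  unfold gg
  by_cases h : z ∈ P ψ
  · rw [indicator_of_mem h, indicator_of_mem (hP.2 h)]
    refine br_add_period (Filter.Eventually.of_forall fun u => ?_) ?_
    · simp only [Ts, hg.per]
    · have h1 : |z.re| < 3 := by
        rw [abs_lt]
        exact ⟨by linarith [h.1], by linarith [h.2.1]⟩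
      filter_upwards [(isOpen_abs_re 3).mem_nhds h1] with u hu
      exact hp u (le_of_lt hu)
  · rw [indicator_of_notMem h, indicator_of_notMem (fun h' => h (hP.1 h'))]

theorem fderiv_zero_of_re_lt {f : ℂ → ℝ} (h0 : ∀ z : ℂ, z.re ≤ -1 → f z = 0) {z : ℂ}
    (hz : z.re < -1) : fderiv ℝ f z = 0 := by
  have h1 : f =ᶠ[nhds z] fun _ => 0 := by
    filter_upwards [(isOpen_lt Complex.continuous_re continuous_const).mem_nhds hz] with w hw
    exact h0 w (le_of_lt hw)
  rw [h1.fderiv_eq]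
  simp

/-- The pointwise identity. -/
theorem point (hg : IsGauge y ψ om) {f : ℂ → ℝ} (h0 : ∀ z : ℂ, z.re ≤ -1 → f z = 0) (σ : ℝ)
    {z : ℂ} (h1 : -2 < z.re) (h2 : z.re < 0) :
    ‖deriv om z‖ ^ 2 * gg ψ σ f (om z) = br (Ts Complex.exp σ) (f ∘ om) z := by
  have hz : |z.re| < 2 := abs_lt.2 ⟨h1, by linarith⟩
  have hs := om_strict hg (by linarith : |z.re| < 9 / 4)
  have hc := deriv_om_ne hg hz
  have h3 : |(om z).re - z.re| ≤ 1 / 8 := om_re_le hg hz.le
  rcases lt_or_ge (om z).re (-1) with h4 | h4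
  · have h5 : om z ∉ P ψ := fun h => by linarith [h.1]
    rw [gg, indicator_of_notMem h5, mul_zero]
    symm
    refine br_eq_zero ?_
    have h6 : (f ∘ om) =ᶠ[nhds z] fun _ => 0 := by
      have h7 : ∀ᶠ w in nhds (om z), w.re < -1 :=
        (isOpen_lt Complex.continuous_re continuous_const).mem_nhds h4
      filter_upwards [hs.hasDerivAt.continuousAt.eventually h7] with w hw
      exact h0 _ (le_of_lt hw)
    rw [h6.fderiv_eq]
    simp
  · have h5 : ‖ψ (om z)‖ < 1 := (norm_psi_lt_iff hg hz.le).2 h2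
    have h6 : om z ∈ P ψ := ⟨h4, by linarith [(abs_le.1 h3).2], h5⟩
    rw [gg, indicator_of_mem h6]
    have hT : DifferentiableAt ℝ (Ts ψ σ) (om z) := by
      have h7 : (om z).re < 5 / 2 := by linarith [(abs_le.1 h3).2]
      exact differentiableAt_Ts (hg.diff _ h7).hasDerivAt h5 σ
    have e1 : Ts Complex.exp σ =ᶠ[nhds z] fun z => Ts ψ σ (om z) := by
      filter_upwards [(isOpen_abs_re 2).mem_nhds hz] with w hw
      simp only [Ts, hg.psi_om w (le_of_lt hw)]
    by_cases hf : DifferentiableAt ℝ f (om z)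
    · rw [← br_comp hs.hasDerivAt hT hf]
      exact (br_congr e1 (Filter.EventuallyEq.refl _ _)).symm
    · rw [br_eq_zero (fderiv_zero_of_not_differentiableAt hf), mul_zero]
      symm
      refine br_eq_zero (fderiv_zero_of_not_differentiableAt fun h => hf ?_)
      exact diff_of_comp hs hc h

/-- The open cell. -/
def U : Set ℂ := {z | (-2 < z.re ∧ z.re < 0) ∧ 0 < z.im ∧ z.im ≤ 2 * π}

theorem measurableSet_U : MeasurableSet U := by
  have h1 : U = Cell (-2) 0 ∩ {z : ℂ | z.re < 0} := by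
    ext z
    simp only [U, Cell, mem_ofPred_eq, mem_inter_iff]
    constructor
    · rintro ⟨⟨a, b⟩, c, d⟩
      exact ⟨⟨a, b.le, c, d⟩, b⟩
    · rintro ⟨⟨a, b, c, d⟩, e⟩
      exact ⟨⟨a, e⟩, c, d⟩
  rw [h1]
  exact (measurableSet_cell _ _).inter (measurableSet_lt Complex.measurable_re measurable_const)

theorem U_ae : (U : Set ℂ) =ᵐ[volume] Cell (-2) 0 := by
  have h := RectAux.ae_re_ne 0
  filter_upwards [h] with z hz
  apply propext
  show z ∈ U ↔ z ∈ Cell (-2) 0
  simp only [U, Cell, mem_ofPred_eq]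
  constructor
  · rintro ⟨⟨a, b⟩, c, d⟩
    exact ⟨a, b.le, c, d⟩
  · rintro ⟨a, b, c, d⟩
    exact ⟨⟨a, lt_of_le_of_ne b hz⟩, c, d⟩

end ChgAux

open ChgAux

theorem chg {y : ℝ} {ψ om : ℂ → ℂ} (hg : IsGauge y ψ om) {f : ℂ → ℝ} {K : NNReal}
    (hf : LipschitzOnWith K f {z : ℂ | |z.re| ≤ 3})
    (hp : ∀ z : ℂ, |z.re| ≤ 3 → f (z + 2 * π * Complex.I) = f z)
    (h0 : ∀ z : ℂ, z.re ≤ -1 → f z = 0) (σ : ℝ)
    (hi : IntegrableOn (br (Ts Complex.exp σ) (f ∘ om)) (Cell (-2) 0)) :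
    IntegrableOn (br (Ts ψ σ) f) (Nc y ψ) ∧
    ∫ z in Nc y ψ, br (Ts ψ σ) f z = ∫ z in Cell (-2) 0, br (Ts Complex.exp σ) (f ∘ om) z := by
  have hU2 : ∀ z ∈ U, |z.re| < 2 := fun z hz => abs_lt.2 ⟨hz.1.1, by linarith [hz.1.2]⟩
  have hd : ∀ z ∈ U, HasFDerivWithinAt om (((ContinuousLinearMap.toSpanSingleton ℂ (deriv om z) :
      ℂ →L[ℂ] ℂ).restrictScalars ℝ : ℂ →L[ℝ] ℂ)) U z := by
    intro z hz
    have h1 := (om_strict hg (by linarith [hU2 z hz] : |z.re| < 9 / 4)).hasDerivAt.hasFDerivAt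
    exact (h1.restrictScalars ℝ).hasFDerivWithinAt
  have hinj : InjOn om U := (om_inj hg).mono fun z hz => (hU2 z hz).le
  set g := gg ψ σ f with hgd
  have hgper : ∀ z, g (z + 2 * π * Complex.I) = g z := gg_per hg hp σ
  have e1 : ∀ z ∈ U, |((ContinuousLinearMap.toSpanSingleton ℂ (deriv om z) :
      ℂ →L[ℂ] ℂ).restrictScalars ℝ : ℂ →L[ℝ] ℂ).det| • g (om z) =
      br (Ts Complex.exp σ) (f ∘ om) z := by
    intro z hz
    rw [abs_det_mul, smul_eq_mul]
    exact point hg h0 σ hz.1.1 hz.1.2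
  have hiU : IntegrableOn (br (Ts Complex.exp σ) (f ∘ om)) U :=
    hi.congr_set_ae U_ae
  have iV : IntegrableOn g (om '' U) := by
    rw [integrableOn_image_iff_integrableOn_abs_det_fderiv_smul volume measurableSet_U hd hinj]
    exact hiU.congr_fun (fun z hz => (e1 z hz).symm) measurableSet_U
  have eV : ∫ z in om '' U, g z = ∫ z in Cell (-2) 0, br (Ts Complex.exp σ) (f ∘ om) z := by
    rw [integral_image_eq_integral_abs_det_fderiv_smul volume measurableSet_U hd hinj,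
      setIntegral_congr_fun measurableSet_U e1]
    exact setIntegral_congr_set U_ae
  have mV : MeasurableSet (om '' U) := measurable_image_of_fderivWithin measurableSet_U hd hinj
  have hdisj : ∀ z ∈ om '' U, ∀ n : ℤ, n ≠ 0 → z + 2 * π * n * Complex.I ∉ om '' U := by
    rintro _ ⟨z, hz, rfl⟩ n hn ⟨w, hw, hwe⟩
    have h1 := om_period hg (hU2 z hz).le (hU2 w hw).le hwe
    have h2 : w.im = z.im + 2 * π * n := by
      rw [h1]
      simp
    have h3 := hz.2
    have h4 := hw.2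
    have hπ := Real.pi_pos
    rcases lt_or_gt_of_ne hn with h5 | h5
    · have h6 : (n : ℝ) ≤ -1 := by exact_mod_cast (by omega : n ≤ -1)
      nlinarith
    · have h6 : (1 : ℝ) ≤ n := by exact_mod_cast (by omega : 1 ≤ n)
      nlinarith
  obtain ⟨iW, eW⟩ := per_integral mV hdisj hgper iV
  set W : Set ℂ := {z | 0 < z.im ∧ z.im ≤ 2 * π ∧ ∃ n : ℤ, z + 2 * π * n * Complex.I ∈ om '' U}
    with hW
  have hy := hg.y_ge
  have oO : IsOpen ({z : ℂ | z.re < 5 / 2} ∩ ψ ⁻¹' Metric.ball 0 1) := by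
    have h1 : ContinuousOn ψ {z : ℂ | z.re < 5 / 2} := fun z hz =>
      (hg.diff z hz).continuousAt.continuousWithinAt
    exact h1.isOpen_inter_preimage (isOpen_lt Complex.continuous_re continuous_const)
      Metric.isOpen_ball
  have mP : MeasurableSet (P ψ) := by
    have h1 : P ψ = ({z : ℂ | -1 ≤ z.re} ∩ {z : ℂ | z.re ≤ 1}) ∩
        ({z : ℂ | z.re < 5 / 2} ∩ ψ ⁻¹' Metric.ball 0 1) := by
      ext z
      simp only [P, mem_ofPred_eq, mem_inter_iff, mem_preimage, Metric.mem_ball, dist_zero_right]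
      constructor
      · rintro ⟨a, b, c⟩
        exact ⟨⟨a, b⟩, by linarith, c⟩
      · rintro ⟨⟨a, b⟩, _, c⟩
        exact ⟨a, b, c⟩
    rw [h1]
    exact ((measurableSet_le measurable_const Complex.measurable_re).inter
      (measurableSet_le Complex.measurable_re measurable_const)).inter oO.measurableSet
  have mN : MeasurableSet (Nc y ψ) := by
    have h1 : Nc y ψ = Cell (-y) 1 ∩ ({z : ℂ | z.re < 5 / 2} ∩ ψ ⁻¹' Metric.ball 0 1) := by
      ext z
      simp only [Nc, Cell, mem_ofPred_eq, mem_inter_iff, mem_preimage, Metric.mem_ball,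
        dist_zero_right]
      constructor
      · rintro ⟨⟨a, b, c⟩, d⟩
        exact ⟨⟨a, b, c⟩, by linarith, d⟩
      · rintro ⟨⟨a, b, c⟩, _, d⟩
        exact ⟨⟨a, b, c⟩, d⟩
    rw [h1]
    exact (measurableSet_cell _ _).inter oO.measurableSet
  have eN : ∀ z ∈ Nc y ψ, br (Ts ψ σ) f z = g z := by
    intro z hz
    rw [hgd, gg]
    by_cases h : z ∈ P ψ
    · rw [indicator_of_mem h]
    · rw [indicator_of_notMem h]
      refine br_eq_zero (fderiv_zero_of_re_lt h0 ?_)
      by_contra h3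
      exact h ⟨not_lt.1 h3, hz.1.2.1, hz.2⟩
  have eWN : P ψ ∩ W = P ψ ∩ Nc y ψ := by
    ext z
    constructor
    · rintro ⟨hzP, hzW⟩
      refine ⟨hzP, ⟨by linarith [hzP.1], hzP.2.1, hzW.1, hzW.2.1⟩, hzP.2.2⟩
    · rintro ⟨hzP, hzN⟩
      refine ⟨hzP, hzN.1.2.2.1, hzN.1.2.2.2, ?_⟩
      obtain ⟨w, hw, hwz⟩ := hg.om_surj z (abs_le.2 ⟨by linarith [hzP.1], by linarith [hzP.2.1]⟩)
      have h1 : |z.re - w.re| ≤ 1 / 8 := by
        have := om_re_le hg hw
        rwa [hwz] at this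
      have h2 : w.re < 0 := by
        rw [← norm_psi_lt_iff hg hw, hwz]
        exact hzP.2.2
      -- the translate
      obtain ⟨n, hn1, hn2⟩ : ∃ n : ℤ, 0 < w.im + 2 * π * n ∧ w.im + 2 * π * n ≤ 2 * π := by
        have hπ := Real.two_pi_pos
        obtain ⟨n, hn, -⟩ := existsUnique_add_zsmul_mem_Ioc hπ w.im 0
        refine ⟨n, ?_, ?_⟩
        · have := hn.1
          rw [zsmul_eq_mul] at this
          linarith
        · have := hn.2
          rw [zsmul_eq_mul] at this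
          linarith
      refine ⟨n, w + 2 * π * n * Complex.I, ?_, ?_⟩
      · have r1 : (w + 2 * π * n * Complex.I).re = w.re := by simp
        have r2 : (w + 2 * π * n * Complex.I).im = w.im + 2 * π * n := by simp
        refine ⟨⟨?_, ?_⟩, ?_, ?_⟩
        · rw [r1]; linarith [(abs_le.1 h1).2, hzP.1]
        · rw [r1]; exact h2
        · rw [r2]; exact hn1
        · rw [r2]; exact hn2
      · rw [om_int hg hw, hwz]
  constructor
  · have h1 : IntegrableOn g (Nc y ψ) := by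
      rw [hgd, gg, integrableOn_indicator_iff mP, ← eWN, ← integrableOn_indicator_iff mP]
      exact iW
    exact h1.congr_fun (fun z hz => (eN z hz).symm) mN
  · rw [← eV, eW, setIntegral_congr_fun mN eN, hgd, gg, setIntegral_indicator mP,
      setIntegral_indicator mP, inter_comm _ (P ψ), inter_comm W, eWN]

end Pool.Agent.CC57
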