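import Pool.Agent.CC57.Gauge

set_option autoImplicit false

/-!
Data and definitions for the fixed point argument.  `f p θ` is the value at the point `θ` of the circle
`Re z = -y` of the function which belongs to the point `p` of the strip.
-/

open Real MeasureTheory Set

namespace Pool.Agent.CC57

/-- The data on the circle. -/
structure CircData (ε M : ℝ) (f : ℂ → ℝ → ℝ) (lamc : ℝ → ℝ) : Prop where
  M_nonneg : 0 ≤ M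
  lam_cont : Continuous lamc
  lam_nonneg : ∀ θ, 0 ≤ lamc θ
  lam_per : ∀ θ, lamc (θ + 2 * π) = lamc θ
  lam_sq : ∫ θ in (0 : ℝ)..2 * π, lamc θ ^ 2 ≤ ε ^ 2
  f_th : ∀ p : ℂ, |p.re| ≤ 1 → ∀ θ θ' : ℝ, θ ≤ θ' → |f p θ' - f p θ| ≤ ∫ t in θ..θ', lamc t
  f_p : ∀ p p' : ℂ, |p.re| ≤ 1 → |p'.re| ≤ 1 → ∀ θ : ℝ, |f p θ - f p' θ| ≤ M * ‖p - p'‖
  f_per : ∀ (p : ℂ) (θ : ℝ), |p.re| ≤ 1 → f p (θ + 2 * π) = f p θ
  f_per' : ∀ (p : ℂ) (θ : ℝ), |p.re| ≤ 1 → f (p + 2 * π * Complex.I) θ = f p θ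

variable {K : ℕ}

/-- `h_σ - g_σ(X)` before the mean is removed. -/
noncomputable def delF (y : ℝ) (om : (Fin K → ℂ) → ℂ → ℂ) (f : ℂ → ℝ → ℝ) (b : Fin K → ℂ)
    (σ θ : ℝ) : ℝ := f (om b (pt 0 σ)) θ - gx (Xc b y θ) σ

/-- Its mean. -/
noncomputable def cF (y : ℝ) (om : (Fin K → ℂ) → ℂ → ℂ) (f : ℂ → ℝ → ℝ) (b : Fin K → ℂ)
    (σ : ℝ) : ℝ := avg (delF y om f b σ)

/-- The functions `h_σ` on the circle. -/
noncomputable def hF (y : ℝ) (om : (Fin K → ℂ) → ℂ → ℂ) (f : ℂ → ℝ → ℝ) (b : Fin K → ℂ)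
    (σ θ : ℝ) : ℝ := f (om b (pt 0 σ)) θ - cF y om f b σ

open Classical in
/-- The curve `W`: a point `w` in the ball of radius `1/2` with `zhC w = avgE (h · θ)`. -/
noncomputable def WF (y : ℝ) (om : (Fin K → ℂ) → ℂ → ℂ) (f : ℂ → ℝ → ℝ) (b : Fin K → ℂ)
    (θ : ℝ) : ℂ :=
  if h : ∃ w : ℂ, ‖w‖ ≤ 1 / 2 ∧ zhC w = avgE (fun σ => hF y om f b σ θ) then h.choose else 0

end Pool.Agent.CC57
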