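import Pool.Agent.CC57.Fam
import Pool.Agent.CC57.FixDefs

set_option autoImplicit false

/-!
The data on the circle `Re z = -y`: `f p θ = Phi F D Ψ p (pt (-y) θ)`, `lamc θ = lam (pt (-y) θ)`.
`f_th`: `Phi_seg` for the segment from `pt (-y) θ` to `pt (-y) θ'`, of length `θ' - θ`, and the substitution
`t ↦ θ + t (θ' - θ)`.  `f_p`: `Phi_seg_p` and `lam ≤ M` on the strip (`exists_lam_bound`), `1 ≤ L`.
Periodicity: `Phi_per`, `pt (-y) (θ + 2π) = pt (-y) θ + 2πi`; in `p`: `Phat_per`.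
-/

open Real MeasureTheory Set

namespace Pool.Agent.CC57

private theorem ptre (x θ : ℝ) : (pt x θ).re = x := by simp [pt]

private theorem pt_per (x θ : ℝ) : pt x (θ + 2 * π) = pt x θ + 2 * π * Complex.I := by
  unfold pt
  push_cast
  ring

theorem circData {X : Type} [MetricSpace X]
    {γ : Metric.sphere (0 : EuclideanSpace ℝ (Fin 2)) 1 → X} {F : X → X → ℝ} {L H : ℝ}
    {lam : ℂ → ℝ} {D : Set ℂ} {Ψ : ℂ → X} (hC : IsCollar γ L H lam D Ψ) (hF : IsF γ F) {y ε : ℝ}
    (hy : 1 ≤ y) (hyL : y < L)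
    (hl : ∫ θ in (0 : ℝ)..2 * π, lam (pt (-y) θ) ^ 2 ≤ ε ^ 2) :
    ∃ M : ℝ, CircData ε M (fun p θ => Phi F D Ψ p (pt (-y) θ)) (fun θ => lam (pt (-y) θ)) := by
  obtain ⟨M, hM0, hM⟩ := exists_lam_bound hC
  have hy0 : 0 ≤ y := by linarith
  have hz : ∀ θ : ℝ, |(pt (-y) θ).re| ≤ L := by
    intro θ
    rw [ptre, abs_neg, abs_of_nonneg hy0]
    exact hyL.le
  refine ⟨M, hM0, ?_, fun θ => hC.lam_nonneg _, ?_, hl, ?_, ?_, ?_, ?_⟩
  · refine hC.lam_cont.comp ?_
    unfold pt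
    fun_prop
  · intro θ
    show lam (pt (-y) (θ + 2 * π)) = lam (pt (-y) θ)
    rw [pt_per, hC.lam_per]
  · intro p hp θ θ' hθ
    have h1 := Phi_seg hC hF p (hz θ) (hz θ')
    have e1 : pt (-y) θ' - pt (-y) θ = ((θ' - θ : ℝ) : ℂ) * Complex.I := by
      unfold pt
      push_cast
      ring
    have e2 : ‖pt (-y) θ' - pt (-y) θ‖ = θ' - θ := by
      rw [e1, norm_mul, Complex.norm_I, mul_one, Complex.norm_real, Real.norm_of_nonneg (by linarith)]
    have e3 : ∀ t : ℝ, pt (-y) θ + t * (pt (-y) θ' - pt (-y) θ) = pt (-y) (θ + (θ' - θ) * t) := by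
      intro t
      unfold pt
      push_cast
      ring
    rw [e2] at h1
    refine h1.trans (le_of_eq ?_)
    have e4 : ∫ t in (0 : ℝ)..1, lam (pt (-y) θ + t * (pt (-y) θ' - pt (-y) θ)) =
        ∫ t in (0 : ℝ)..1, lam (pt (-y) (θ + (θ' - θ) * t)) := by
      apply intervalIntegral.integral_congr
      intro t _
      show lam (pt (-y) θ + t * (pt (-y) θ' - pt (-y) θ)) = lam (pt (-y) (θ + (θ' - θ) * t))
      rw [e3]
    rw [e4, mul_comm, intervalIntegral.mul_integral_comp_add_mul (f := fun x => lam (pt (-y) x)) (θ' - θ) θ]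
    congr 1 <;> ring
  · intro p p' hp hp' θ
    have hpL : |p.re| ≤ L := by linarith
    have hpL' : |p'.re| ≤ L := by linarith
    have h1 := Phi_seg_p hC hF hpL' hpL (pt (-y) θ)
    refine h1.trans (mul_le_mul_of_nonneg_right ?_ (norm_nonneg _))
    have hseg : ∀ t ∈ Icc (0 : ℝ) 1, |(p' + t * (p - p')).re| ≤ L := by
      intro t ht
      have e : (p' + t * (p - p')).re = (1 - t) * p'.re + t * p.re := by
        simp
        ring
      rw [e, abs_le]
      rw [abs_le] at hpL hpL'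
      constructor <;> nlinarith [ht.1, ht.2]
    have hc : Continuous fun t : ℝ => lam (p' + t * (p - p')) := hC.lam_cont.comp (by fun_prop)
    have h2 : ∫ t in (0 : ℝ)..1, lam (p' + t * (p - p')) ≤ ∫ t in (0 : ℝ)..1, M := by
      apply intervalIntegral.integral_mono_on zero_le_one (hc.intervalIntegrable _ _)
        (continuous_const.intervalIntegrable _ _)
      intro t ht
      exact hM _ (hseg t ht)
    refine h2.trans (le_of_eq ?_)
    simp
  · intro p θ hp
    show Phi F D Ψ p (pt (-y) (θ + 2 * π)) = Phi F D Ψ p (pt (-y) θ)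
    rw [pt_per, Phi_per hC p (hz θ)]
  · intro p θ hp
    have hpL : |p.re| ≤ L := by linarith
    show Phi F D Ψ (p + 2 * π * Complex.I) (pt (-y) θ) = Phi F D Ψ p (pt (-y) θ)
    unfold Phi
    rw [Phat_per hC hpL, Phat_per hC hpL]

end Pool.Agent.CC57
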