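import Mathlib

set_option autoImplicit false

/-!
Conformal collars.
-/

open Real MeasureTheory Set

namespace Pool.Agent.CC57

noncomputable section

/-- The antipodal involution of the strip (its square is the translation by `2πi`). -/
def tau (z : ℂ) : ℂ := -(starRingEnd ℂ) z + π * Complex.I

/-- A conformal collar of the boundary `γ`, written on the Moebius band which one obtains by glueing
antipodal boundary points.  The strip `|Re z| ≤ L` is the double cover of that band, `D` is the part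
which belongs to the collar, the rest belongs to its image under `tau`.  The metric is `lam |dz|`:
at every point of `D` the local Lipschitz constant of `Ψ` is at most `lam`.  The points of `D` whose
image under `tau` is also in `D` are the boundary points.  The part `Re z ≤ -H` belongs to `D`. -/
structure IsCollar {X : Type} [MetricSpace X]
    (γ : Metric.sphere (0 : EuclideanSpace ℝ (Fin 2)) 1 → X) (L H : ℝ) (lam : ℂ → ℝ) (D : Set ℂ)
    (Ψ : ℂ → X) : Prop where
  lam_cont : Continuous lam
  lam_nonneg : ∀ z, 0 ≤ lam z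
  lam_per : ∀ z, lam (z + 2 * π * Complex.I) = lam z
  lam_tau : ∀ z : ℂ, |z.re| ≤ L → lam (tau z) = lam z
  closed : IsClosed D
  per : ∀ z ∈ D, z + 2 * π * Complex.I ∈ D ∧ Ψ (z + 2 * π * Complex.I) = Ψ z
  per' : ∀ z, z + 2 * π * Complex.I ∈ D → z ∈ D
  cover : ∀ z : ℂ, |z.re| ≤ L → z ∈ D ∨ tau z ∈ D
  clean : ∀ z : ℂ, -L ≤ z.re → z.re ≤ -H → z ∈ D
  lip : ∀ z ∈ D, |z.re| ≤ L → ∀ c, lam z < c →
    ∀ᶠ w in nhdsWithin z (D ∩ {w : ℂ | |w.re| ≤ L}), dist (Ψ w) (Ψ z) ≤ c * ‖w - z‖
  seam : ∀ z ∈ D, tau z ∈ D → |z.re| ≤ L → ∃ s, Ψ z = γ s ∧ Ψ (tau z) = γ (-s)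

end

end Pool.Agent.CC57
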