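import Pool.Agent.CC57.Half

set_option autoImplicit false

/-!
Complex valued functions `u = u₁ + i u₂`, Lipschitz and `2π`-periodic, `U n = cf u n`.
`cf u₁ n = (U n + conj (U (-n)))/2`, `cf u₂ n = (U n - conj (U (-n)))/(2i)`.
* `int_cross`: `∫ (u₁ u₂' - u₂ u₁') = Im ∫ conj(u) u' = 2π ∑ n |U n|²` (`parseval2`, `cf_deriv`).
* `hs_re_add_hs_im`: `|cf u₁ n|² + |cf u₂ n|² = (|U n|² + |U (-n)|²)/2`.
* `hs_re_le`, `hs_im_le`: from the previous identity.
* `gauge_sum`: if `U (-n) = 0` for `1 ≤ n ≤ K` then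
  `∑ n |U n|² = hsC u - 2 ∑_{n > K} n |U (-n)|²` and
  `2 ∑_{n>K} n |U (-n)|² ≤ (2/K) ∑ n² |U n|² = (1/(π K)) ∫ |u'|²` (`hasSum_deriv`).
-/

open Real MeasureTheory Set

namespace Pool.Agent.CC57

private lemma cplx_bdd {u : ℝ → ℂ} {K : NNReal} (hu : LipschitzWith K u)
    (hp : ∀ θ, u (θ + 2 * π) = u θ) : ∃ C : ℝ, ∀ θ, ‖u θ‖ ≤ C := by
  have h1 : Function.Periodic u (2 * π) := hp
  have h2 := h1.isBounded_of_continuous (by positivity) hu.continuous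
  obtain ⟨C, hC⟩ := h2.exists_norm_le
  exact ⟨C, fun θ => hC _ ⟨θ, rfl⟩⟩

private lemma cplx_ii {f : ℝ → ℂ} (hm : Measurable f) {C : ℝ} (hb : ∀ θ, ‖f θ‖ ≤ C) (a b : ℝ) :
    IntervalIntegrable f volume a b := by
  rw [intervalIntegrable_iff]
  refine Measure.integrableOn_of_bounded (M := C) ?_ hm.aestronglyMeasurable ?_
  · rw [uIoc]
    simp
  · exact Filter.Eventually.of_forall fun θ => hb θ

private lemma cplx_re {u : ℝ → ℂ} {K : NNReal} (hu : LipschitzWith K u) :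
    LipschitzWith K (fun θ => (((u θ).re : ℝ) : ℂ)) := by
  refine LipschitzWith.of_dist_le_mul fun x y => ?_
  refine le_trans ?_ (hu.dist_le_mul x y)
  rw [dist_eq_norm, dist_eq_norm, ← Complex.ofReal_sub, Complex.norm_real, Real.norm_eq_abs,
    ← Complex.sub_re]
  exact Complex.abs_re_le_norm _

private lemma cplx_im {u : ℝ → ℂ} {K : NNReal} (hu : LipschitzWith K u) :
    LipschitzWith K (fun θ => (((u θ).im : ℝ) : ℂ)) := by
  refine LipschitzWith.of_dist_le_mul fun x y => ?_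
  refine le_trans ?_ (hu.dist_le_mul x y)
  rw [dist_eq_norm, dist_eq_norm, ← Complex.ofReal_sub, Complex.norm_real, Real.norm_eq_abs,
    ← Complex.sub_im]
  exact Complex.abs_im_le_norm _

private lemma cplx_normSq (z : ℂ) : ‖z‖ ^ 2 = z.re ^ 2 + z.im ^ 2 := by
  rw [← Complex.normSq_eq_norm_sq, Complex.normSq_apply]
  ring

private lemma cplx_deriv {u : ℝ → ℂ} {θ : ℝ} (h : DifferentiableAt ℝ u θ) :
    deriv (fun θ => (u θ).re) θ = (deriv u θ).re ∧ deriv (fun θ => (u θ).im) θ = (deriv u θ).im := by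
  have h1 := h.hasDerivAt
  have h2 := Complex.reCLM.hasFDerivAt.comp_hasDerivAt θ h1
  have h3 := Complex.imCLM.hasFDerivAt.comp_hasDerivAt θ h1
  exact ⟨h2.deriv, h3.deriv⟩

theorem int_cross {u : ℝ → ℂ} {K : NNReal} (hu : LipschitzWith K u)
    (hp : ∀ θ, u (θ + 2 * π) = u θ) :
    ∫ θ in (0 : ℝ)..2 * π, ((u θ).re * deriv (fun θ => (u θ).im) θ -
      (u θ).im * deriv (fun θ => (u θ).re) θ) = 2 * π * ∑' n : ℤ, (n : ℝ) * ‖cf u n‖ ^ 2 := by
  obtain ⟨C, hC⟩ := cplx_bdd hu hp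
  have hd : ∀ θ, ‖deriv u θ‖ ≤ K := fun θ => norm_deriv_le_of_lipschitz hu
  have hm1 : Measurable (deriv u) := measurable_deriv u
  have hm2 : Measurable u := hu.continuous.measurable
  have h1 := parseval2 (f := deriv u) (g := u) (C := max (K : ℝ) C) hm1.aestronglyMeasurable
    hm2.aestronglyMeasurable (fun θ => (hd θ).trans (le_max_left _ _))
    (fun θ => (hC θ).trans (le_max_right _ _))
  have h2 := Complex.imCLM.hasSum h1
  have e1 : (fun n : ℤ => Complex.imCLM (cf (deriv u) n * (starRingEnd ℂ) (cf u n))) =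
      fun n : ℤ => (n : ℝ) * ‖cf u n‖ ^ 2 := by
    funext n
    rw [cf_deriv hu hp, Complex.imCLM_apply, mul_assoc, Complex.mul_conj, Complex.normSq_eq_norm_sq]
    have : ((n : ℂ) * Complex.I * ((‖cf u n‖ ^ 2 : ℝ) : ℂ)) =
        (((n : ℝ) * ‖cf u n‖ ^ 2 : ℝ) : ℂ) * Complex.I := by
      push_cast
      ring
    rw [this, Complex.mul_I_im, Complex.ofReal_re]
  have h3 : ∑' n : ℤ, (n : ℝ) * ‖cf u n‖ ^ 2 = Complex.imCLM
      (((2 * π)⁻¹ : ℝ) • ∫ θ in (0 : ℝ)..2 * π, deriv u θ * (starRingEnd ℂ) (u θ)) := by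
    rw [← h2.tsum_eq]
    exact (congrArg tsum e1).symm
  have hint : IntervalIntegrable (fun θ => deriv u θ * (starRingEnd ℂ) (u θ)) volume 0 (2 * π) := by
    refine cplx_ii (C := K * C) ?_ ?_ _ _
    · exact hm1.mul (Complex.continuous_conj.measurable.comp hm2)
    · intro θ
      rw [norm_mul, Complex.norm_conj]
      exact mul_le_mul (hd θ) (hC θ) (norm_nonneg _) K.2
  rw [h3, map_smul, ← ContinuousLinearMap.intervalIntegral_comp_comm _ hint, smul_eq_mul,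
    ← mul_assoc, mul_inv_cancel₀ (by positivity), one_mul]
  refine intervalIntegral.integral_congr_ae ?_
  filter_upwards [hu.ae_differentiableAt (μ := volume)] with θ hθ _
  obtain ⟨e2, e3⟩ := cplx_deriv hθ
  rw [e2, e3, Complex.imCLM_apply, Complex.mul_im, Complex.conj_re, Complex.conj_im]
  ring

private lemma cplx_cf {u : ℝ → ℂ} {K : NNReal} (hu : LipschitzWith K u) (n : ℤ) :
    cf u n = cf (fun θ => (((u θ).re : ℝ) : ℂ)) n + Complex.I * cf (fun θ => (((u θ).im : ℝ) : ℂ)) n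
    := by
  have h1 : IntervalIntegrable (fun θ => (((u θ).re : ℝ) : ℂ)) volume 0 (2 * π) :=
    (cplx_re hu).continuous.intervalIntegrable _ _
  have h2 : IntervalIntegrable (fun θ => Complex.I * (((u θ).im : ℝ) : ℂ)) volume 0 (2 * π) :=
    (continuous_const.mul (cplx_im hu).continuous).intervalIntegrable _ _
  rw [← cf_mul_left, ← cf_add h1 h2]
  congr 1
  funext θ
  rw [mul_comm, Complex.re_add_im]

private lemma cplx_par {u : ℝ → ℂ} {K : NNReal} (hu : LipschitzWith K u) (n : ℤ) :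
    ‖cf (fun θ => (((u θ).re : ℝ) : ℂ)) n‖ ^ 2 + ‖cf (fun θ => (((u θ).im : ℝ) : ℂ)) n‖ ^ 2 =
      (‖cf u n‖ ^ 2 + ‖cf u (-n)‖ ^ 2) / 2 := by
  rw [cplx_cf hu n, cplx_cf hu (-n), cf_neg_real, cf_neg_real]
  generalize cf (fun θ => (((u θ).re : ℝ) : ℂ)) n = a
  generalize cf (fun θ => (((u θ).im : ℝ) : ℂ)) n = b
  rw [cplx_normSq, cplx_normSq, cplx_normSq, cplx_normSq]
  simp only [Complex.add_re, Complex.add_im, Complex.mul_re, Complex.mul_im, Complex.I_re,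
    Complex.I_im, Complex.conj_re, Complex.conj_im]
  ring

theorem hs_re_add_hs_im {u : ℝ → ℂ} {K : NNReal} (hu : LipschitzWith K u)
    (hp : ∀ θ, u (θ + 2 * π) = u θ) :
    hs (fun θ => (u θ).re) + hs (fun θ => (u θ).im) = hsC u := by
  have s1 := summable_hsC (cplx_re hu) (fun θ => by rw [hp])
  have s2 := summable_hsC (cplx_im hu) (fun θ => by rw [hp])
  have s3 := summable_hsC hu hp
  have s4 : Summable fun n : ℤ => |(n : ℝ)| * ‖cf u (-n)‖ ^ 2 := by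
    have := (Equiv.neg ℤ).summable_iff.2 s3
    refine this.congr fun n => ?_
    simp [Function.comp]
  have e4 : ∑' n : ℤ, |(n : ℝ)| * ‖cf u (-n)‖ ^ 2 = hsC u := by
    unfold hsC
    rw [← (Equiv.neg ℤ).tsum_eq]
    refine tsum_congr fun n => ?_
    simp
  have e1 : hs (fun θ => (u θ).re) + hs (fun θ => (u θ).im) =
      ∑' n : ℤ, (|(n : ℝ)| * ‖cf (fun θ => (((u θ).re : ℝ) : ℂ)) n‖ ^ 2 +
        |(n : ℝ)| * ‖cf (fun θ => (((u θ).im : ℝ) : ℂ)) n‖ ^ 2) := by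
    rw [s1.tsum_add s2]
    rfl
  have e2 : ∑' n : ℤ, (|(n : ℝ)| * ‖cf (fun θ => (((u θ).re : ℝ) : ℂ)) n‖ ^ 2 +
        |(n : ℝ)| * ‖cf (fun θ => (((u θ).im : ℝ) : ℂ)) n‖ ^ 2) =
      ∑' n : ℤ, (1 / 2) * (|(n : ℝ)| * ‖cf u n‖ ^ 2 + |(n : ℝ)| * ‖cf u (-n)‖ ^ 2) := by
    refine tsum_congr fun n => ?_
    rw [← mul_add, cplx_par hu n]
    ring
  rw [e1, e2, tsum_mul_left, s3.tsum_add s4, e4]
  unfold hsC
  ring

theorem avg_sq_add_avg_sq {u : ℝ → ℂ} {K : NNReal} (hu : LipschitzWith K u) :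
    avg (fun θ => (u θ).re) ^ 2 + avg (fun θ => (u θ).im) ^ 2 = ‖cf u 0‖ ^ 2 := by
  have hint : IntervalIntegrable u volume 0 (2 * π) := hu.continuous.intervalIntegrable _ _
  have e1 : cf u 0 = ((2 * π)⁻¹ : ℝ) • ∫ θ in (0 : ℝ)..2 * π, u θ := by
    unfold cf
    congr 1
    refine intervalIntegral.integral_congr fun θ _ => ?_
    simp
  have e2 : (cf u 0).re = avg fun θ => (u θ).re := by
    rw [e1]
    have h := ContinuousLinearMap.intervalIntegral_comp_comm Complex.reCLM hint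
    rw [← Complex.reCLM_apply, map_smul, ← h]
    rfl
  have e3 : (cf u 0).im = avg fun θ => (u θ).im := by
    rw [e1]
    have h := ContinuousLinearMap.intervalIntegral_comp_comm Complex.imCLM hint
    rw [← Complex.imCLM_apply, map_smul, ← h]
    rfl
  rw [cplx_normSq, e2, e3]

theorem gauge_sum {u : ℝ → ℂ} {K : NNReal} (hu : LipschitzWith K u)
    (hp : ∀ θ, u (θ + 2 * π) = u θ) {N : ℕ} (hN : 1 ≤ N)
    (h0 : ∀ n : ℕ, 1 ≤ n → n ≤ N → cf u (-n) = 0) :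
    hsC u - (π * N)⁻¹ * (∫ θ in (0 : ℝ)..2 * π, ‖deriv u θ‖ ^ 2) ≤
      ∑' n : ℤ, (n : ℝ) * ‖cf u n‖ ^ 2 := by
  have hNpos : (0 : ℝ) < N := by exact_mod_cast hN
  have hpi := Real.pi_pos
  have s3 := summable_hsC hu hp
  have hD := hasSum_deriv hu hp
  have s1 : Summable fun n : ℤ => (n : ℝ) * ‖cf u n‖ ^ 2 := by
    refine Summable.of_norm (s3.congr fun n => ?_)
    rw [norm_mul, Real.norm_eq_abs, Real.norm_eq_abs, abs_of_nonneg (sq_nonneg ‖cf u n‖)]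
  have hD2 := hD.mul_left (2 / (N : ℝ))
  have s5 := s3.sub hD2.summable
  have e1 : hsC u - (π * N)⁻¹ * (∫ θ in (0 : ℝ)..2 * π, ‖deriv u θ‖ ^ 2) =
      ∑' n : ℤ, (|(n : ℝ)| * ‖cf u n‖ ^ 2 - 2 / (N : ℝ) * ((n : ℝ) ^ 2 * ‖cf u n‖ ^ 2)) := by
    rw [s3.tsum_sub hD2.summable, hD2.tsum_eq]
    unfold hsC
    congr 1
    field_simp
  rw [e1]
  refine s5.tsum_le_tsum (fun n => ?_) s1
  have hU := sq_nonneg ‖cf u n‖
  rcases le_or_gt 0 n with hn | hn
  · have h1 : (0 : ℝ) ≤ n := by exact_mod_cast hn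
    rw [abs_of_nonneg h1]
    have : 0 ≤ 2 / (N : ℝ) * ((n : ℝ) ^ 2 * ‖cf u n‖ ^ 2) := by positivity
    linarith
  · obtain ⟨k, rfl⟩ : ∃ k : ℕ, n = -(k : ℤ) := ⟨n.natAbs, by omega⟩
    have hk : 1 ≤ k := by omega
    rcases le_or_gt k N with h | h
    · rw [h0 k hk h]
      simp
    · have h1 : (N : ℝ) < k := by exact_mod_cast h
      have h2 : (0 : ℝ) < k := hNpos.trans h1
      push_cast
      rw [abs_neg, abs_of_pos h2]
      have h3 : 2 * (k : ℝ) ≤ 2 / (N : ℝ) * (k : ℝ) ^ 2 := by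
        rw [div_mul_eq_mul_div, le_div_iff₀ hNpos]
        nlinarith
      have h4 : 2 * (k : ℝ) * ‖cf u (-(k : ℤ))‖ ^ 2 ≤
          2 / (N : ℝ) * (k : ℝ) ^ 2 * ‖cf u (-(k : ℤ))‖ ^ 2 := mul_le_mul_of_nonneg_right h3 hU
      nlinarith

end Pool.Agent.CC57
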