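import Mathlib
import Pool.Agent.H65G.Defs
import Pool.Agent.CC57.CollarDefs

set_option autoImplicit false

/-!
Definitions for the conformal collar theorem.  Points of the strip are complex numbers `z = x + i θ`;
the inner end of the collar is at `x → -∞`.  Everything is `2πi`-periodic in `z`.  The hemisphere is
described by the orthographic coordinate `x` (a point of the open unit disc of `ℂ`).
-/

open Real MeasureTheory Set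

namespace Pool.Agent.CC57

noncomputable section

/-! ### The hemisphere in the orthographic coordinate -/

/-- `⟨x, e^{iσ}⟩`. -/
def inn (x : ℂ) (σ : ℝ) : ℝ := x.re * cos σ + x.im * sin σ

/-- `⟨x, i e^{iσ}⟩`. -/
def inp (x : ℂ) (σ : ℝ) : ℝ := x.im * cos σ - x.re * sin σ

/-- `√(1 - ⟨x, e^{iσ}⟩²)`. -/
def qx (x : ℂ) (σ : ℝ) : ℝ := √(1 - inn x σ ^ 2)

/-- `π/2` minus the spherical distance from the boundary point `e^{iσ}`. -/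
def gx (x : ℂ) (σ : ℝ) : ℝ := arcsin (inn x σ)

/-- The angle function `sin η` of the great circles through `e^{iσ}`. -/
def Tx (x : ℂ) (σ : ℝ) : ℝ := inp x σ / qx x σ

/-- The derivative of `gx` in `x` in the direction `a`. -/
def Dg (x : ℂ) (σ : ℝ) (a : ℂ) : ℝ := inn a σ / qx x σ

/-- The derivative of `Tx` in `x` in the direction `a`. -/
def DT (x : ℂ) (σ : ℝ) (a : ℂ) : ℝ := inp a σ / qx x σ + inp x σ * inn x σ * inn a σ / qx x σ ^ 3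

/-- The visual weight `√(1 - |x|²) / (1 - ⟨x, e^{iσ}⟩²)`. -/
def wx (x : ℂ) (σ : ℝ) : ℝ := √(1 - ‖x‖ ^ 2) / (1 - inn x σ ^ 2)

/-! ### Averages over the circle -/

/-- The mean over the circle. -/
def avg (f : ℝ → ℝ) : ℝ := (2 * π)⁻¹ * ∫ σ in (0 : ℝ)..2 * π, f σ

/-- The mean of `f(σ) e^{iσ}`. -/
def avgE (f : ℝ → ℝ) : ℂ :=
  ((2 * π)⁻¹ : ℝ) • ∫ σ in (0 : ℝ)..2 * π, f σ • Complex.exp (σ * Complex.I)

/-- The mean of `arcsin ⟨x, e^{iσ}⟩ e^{iσ}`. -/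
def zhC (x : ℂ) : ℂ := avgE (gx x)

/-! ### Fourier coefficients and the `H^{1/2}` seminorm -/

/-- Fourier coefficients. -/
def cf (f : ℝ → ℂ) (n : ℤ) : ℂ :=
  ((2 * π)⁻¹ : ℝ) • ∫ θ in (0 : ℝ)..2 * π, f θ * Complex.exp (-(n * θ * Complex.I))

/-- The square of the `H^{1/2}` seminorm of a complex valued function. -/
def hsC (f : ℝ → ℂ) : ℝ := ∑' n : ℤ, |(n : ℝ)| * ‖cf f n‖ ^ 2

/-- The square of the `H^{1/2}` seminorm of a real valued function. -/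
def hs (f : ℝ → ℝ) : ℝ := hsC fun θ => (f θ : ℂ)

/-! ### The calibration functional -/

/-- `avg ∮ (2 h_σ - g_σ(w)) dT_σ(w)`. -/
def Gam (h : ℝ → ℝ → ℝ) (w : ℝ → ℂ) : ℝ :=
  avg fun σ => ∫ θ in (0 : ℝ)..2 * π, (2 * h σ θ - gx (w θ) σ) * DT (w θ) σ (deriv w θ)

/-! ### The strip -/

/-- A fundamental cell of the part `a < Re z ≤ b` of the strip. -/
def Cell (a b : ℝ) : Set ℂ := {z | a < z.re ∧ z.re ≤ b ∧ 0 < z.im ∧ z.im ≤ 2 * π}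

/-- The point `x + i θ`. -/
def pt (x θ : ℝ) : ℂ := x + θ * Complex.I

/-- `∇f · J∇T = f_x T_θ - f_θ T_x`. -/
def br (T f : ℂ → ℝ) (z : ℂ) : ℝ :=
  fderiv ℝ f z 1 * fderiv ℝ T z Complex.I - fderiv ℝ f z Complex.I * fderiv ℝ T z 1

/-- `|∇f|²`. -/
def gr2 (f : ℂ → ℝ) (z : ℂ) : ℝ := fderiv ℝ f z 1 ^ 2 + fderiv ℝ f z Complex.I ^ 2

/-- From the stereographic coordinate (the boundary is the unit circle) to the orthographic one. -/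
def xc (v : ℂ) : ℂ := ((2 / (1 + ‖v‖ ^ 2) : ℝ) : ℂ) * v

/-- The function `g_σ` in the coordinate `z`, for a map `ψ` to the stereographic coordinate. -/
def Gs (ψ : ℂ → ℂ) (σ : ℝ) (z : ℂ) : ℝ := gx (xc (ψ z)) σ

/-- The function `T_σ` in the coordinate `z`. -/
def Ts (ψ : ℂ → ℂ) (σ : ℝ) (z : ℂ) : ℝ := Tx (xc (ψ z)) σ

/-- The part of a cell which is mapped to the open hemisphere. -/
def Nc (y : ℝ) (ψ : ℂ → ℂ) : Set ℂ := Cell (-y) 1 ∩ {z | ‖ψ z‖ < 1}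

/-! ### The family of holomorphic maps -/

/-- `A = ∑ b_n r^n / n · ζ^{-(n+1)}` with `n = i + 1`, `r = e^{-y}`, `ζ = e^z`. -/
def Af {K : ℕ} (b : Fin K → ℂ) (y : ℝ) (z : ℂ) : ℂ :=
  ∑ i : Fin K, b i / ((i : ℂ) + 1) * Complex.exp (-(((i : ℂ) + 1) * y)) *
    Complex.exp (-(((i : ℂ) + 2) * z))

/-- `A^* = ∑ conj b_n r^n / n · (-ζ)^{n+1}`. -/
def As {K : ℕ} (b : Fin K → ℂ) (y : ℝ) (z : ℂ) : ℂ :=
  ∑ i : Fin K, (starRingEnd ℂ) (b i) / ((i : ℂ) + 1) * Complex.exp (-(((i : ℂ) + 1) * y)) *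
    (-1) ^ ((i : ℕ) + 2) * Complex.exp (((i : ℂ) + 2) * z)

/-- `ψ = ζ (1 + A) / (1 + A^*)`. -/
def psi {K : ℕ} (b : Fin K → ℂ) (y : ℝ) (z : ℂ) : ℂ :=
  Complex.exp z * (1 + Af b y z) / (1 + As b y z)

/-- The curve `x(ψ)` on the circle `Re z = -y`. -/
def Xc {K : ℕ} (b : Fin K → ℂ) (y : ℝ) (θ : ℝ) : ℂ := xc (psi b y (pt (-y) θ))

/-- The properties of the gauge map `ψ` and of the inverse `om` of `log ψ` near the equator. -/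
structure IsGauge (y : ℝ) (ψ om : ℂ → ℂ) : Prop where
  y_ge : 5 ≤ y
  diff : ∀ z : ℂ, z.re < 5 / 2 → DifferentiableAt ℂ ψ z
  per : ∀ z, ψ (z + 2 * π * Complex.I) = ψ z
  small : ∀ z : ℂ, -y ≤ z.re → z.re ≤ -1 / 2 → ‖ψ z‖ ≤ 3 / 4
  tiny : ∀ z : ℂ, -y ≤ z.re → z.re ≤ -y + 1 → ‖ψ z‖ ≤ 1 / 4
  om_diff : ∀ z : ℂ, |z.re| < 9 / 4 → DifferentiableAt ℂ om z
  om_per : ∀ z : ℂ, |z.re| ≤ 2 → om (z + 2 * π * Complex.I) = om z + 2 * π * Complex.I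
  om_near : ∀ z : ℂ, |z.re| ≤ 2 → ‖om z - z‖ ≤ 1 / 8
  om_tau : ∀ z : ℂ, |z.re| ≤ 2 → om (tau z) = tau (om z)
  psi_om : ∀ z : ℂ, |z.re| ≤ 2 → ψ (om z) = Complex.exp z
  om_surj : ∀ l : ℂ, |l.re| ≤ 3 / 2 → ∃ z : ℂ, |z.re| ≤ 2 ∧ om z = l

/-- The functions `φ_σ` on the strip: `|∇φ_σ| ≤ lam`, odd under `tau`, and `π/2` at `p σ`. -/
structure IsFam (y : ℝ) (K : NNReal) (lam : ℂ → ℝ) (p : ℝ → ℂ) (φ : ℝ → ℂ → ℝ) : Prop where
  cont : Continuous (Function.uncurry φ)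
  lip : ∀ σ, LipschitzWith K (φ σ)
  grad : ∀ σ (z : ℂ), |z.re| < y → ‖fderiv ℝ (φ σ) z‖ ≤ lam z
  per : ∀ σ z, φ σ (z + 2 * π * Complex.I) = φ σ z
  anti : ∀ σ (z : ℂ), |z.re| ≤ y → φ σ (tau z) = -φ σ z
  pole : ∀ σ, φ σ (p σ) = π / 2

end

end Pool.Agent.CC57
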