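import Pool.Agent.CC57.Sph

set_option autoImplicit false

/-!
Derivatives of `gx` and `Tx` in `x`, for `‖x‖ < 1`.
`d arcsin(m) = dm / √(1 - m²)` with `m = inn x σ`, `dm = inn a σ`; `Tx = inp x σ / qx`, `d qx = -m dm / qx`,
so `dTx = inp a σ / qx + inp x σ * m * inn a σ / qx ^ 3`.

Lipschitz bounds on `‖x‖ ≤ 1/2`: there `qx ≥ 4/5` and everything is a polynomial in bounded quantities
and in `1 / qx`; one can use for instance the convexity of the ball and a bound for the derivative, or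
the compactness of `closedBall 0 (1/2) × [0, 2π]` (all functions are `2π`-periodic in `σ`) with the
derivative of `x ↦ Dg x σ a` (resp. `DT`).  Explicitly: with `|1/q - 1/q'| ≤ C |m - m'|` and
`|m - m'| ≤ ‖x - x'‖` all estimates are elementary.
-/

open Real MeasureTheory Set

namespace Pool.Agent.CC57

/-- `inn` as a linear map -/
noncomputable def innL (σ : ℝ) : ℂ →L[ℝ] ℝ := cos σ • Complex.reCLM + sin σ • Complex.imCLM

/-- `inp` as a linear map -/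
noncomputable def inpL (σ : ℝ) : ℂ →L[ℝ] ℝ := cos σ • Complex.imCLM - sin σ • Complex.reCLM

theorem innL_apply (σ : ℝ) (a : ℂ) : innL σ a = inn a σ := by
  unfold innL inn
  simp
  ring

theorem inpL_apply (σ : ℝ) (a : ℂ) : inpL σ a = inp a σ := by
  unfold inpL inp
  simp
  ring

theorem hasFDerivAt_inn (x : ℂ) (σ : ℝ) : HasFDerivAt (fun x => inn x σ) (innL σ) x := by
  have h := (innL σ).hasFDerivAt (x := x)
  have e : (fun x => inn x σ) = fun x => innL σ x := by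
    funext y
    exact (innL_apply σ y).symm
  rw [e]
  exact h

theorem hasFDerivAt_inp (x : ℂ) (σ : ℝ) : HasFDerivAt (fun x => inp x σ) (inpL σ) x := by
  have h := (inpL σ).hasFDerivAt (x := x)
  have e : (fun x => inp x σ) = fun x => inpL σ x := by
    funext y
    exact (inpL_apply σ y).symm
  rw [e]
  exact h

/-- the derivative of `gx` -/
noncomputable def gL (x : ℂ) (σ : ℝ) : ℂ →L[ℝ] ℝ := (qx x σ)⁻¹ • innL σ

/-- the derivative of `Tx` -/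
noncomputable def TL (x : ℂ) (σ : ℝ) : ℂ →L[ℝ] ℝ :=
  (qx x σ)⁻¹ • inpL σ + (inp x σ * inn x σ / qx x σ ^ 3) • innL σ

theorem gL_apply (x : ℂ) (σ : ℝ) (a : ℂ) : gL x σ a = Dg x σ a := by
  unfold gL Dg
  rw [ContinuousLinearMap.smul_apply, innL_apply, smul_eq_mul, inv_mul_eq_div]

theorem TL_apply (x : ℂ) (σ : ℝ) (a : ℂ) : TL x σ a = DT x σ a := by
  unfold TL DT
  rw [ContinuousLinearMap.add_apply, ContinuousLinearMap.smul_apply,
    ContinuousLinearMap.smul_apply, innL_apply, inpL_apply, smul_eq_mul, smul_eq_mul]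
  ring

theorem abs_inn_lt {x : ℂ} (hx : ‖x‖ < 1) (σ : ℝ) : |inn x σ| < 1 :=
  lt_of_le_of_lt (abs_inn_le x σ) hx

theorem hasFDerivAt_gL {x : ℂ} (hx : ‖x‖ < 1) (σ : ℝ) :
    HasFDerivAt (fun x => gx x σ) (gL x σ) x := by
  have h1 := abs_lt.1 (abs_inn_lt hx σ)
  have h2 := (Real.hasDerivAt_arcsin h1.1.ne' h1.2.ne).comp_hasFDerivAt x (hasFDerivAt_inn x σ)
  have e : (1 / √(1 - inn x σ ^ 2)) • innL σ = gL x σ := by
    unfold gL qx
    rw [one_div]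
  rw [← e]
  exact h2

theorem hasFDerivAt_qx {x : ℂ} (hx : ‖x‖ < 1) (σ : ℝ) :
    HasFDerivAt (fun x => qx x σ) ((-(inn x σ / qx x σ)) • innL σ) x := by
  have hq := qx_pos hx σ
  have h1 : HasFDerivAt (fun x => 1 - inn x σ ^ 2) (-((2 * inn x σ) • innL σ)) x := by
    have h2 := ((hasFDerivAt_inn x σ).pow 2).const_sub 1
    refine h2.congr_fderiv ?_
    simp
  have h2 : 1 - inn x σ ^ 2 ≠ 0 := by
    rw [← qx_sq hx σ]
    positivity
  have h3 := h1.sqrt h2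
  refine h3.congr_fderiv ?_
  ext
  simp [qx]
  ring

theorem hasFDerivAt_TL {x : ℂ} (hx : ‖x‖ < 1) (σ : ℝ) :
    HasFDerivAt (fun x => Tx x σ) (TL x σ) x := by
  have hq := qx_pos hx σ
  have h1 := (hasDerivAt_inv hq.ne').comp_hasFDerivAt x (hasFDerivAt_qx hx σ)
  have h2 := (hasFDerivAt_inp x σ).mul h1
  have e : (fun x => Tx x σ) = fun x => inp x σ * (qx x σ)⁻¹ := by
    funext y
    unfold Tx
    rw [div_eq_mul_inv]
  rw [e]
  refine h2.congr_fderiv ?_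
  unfold TL
  ext a
  simp
  field_simp
  ring

theorem hasFDerivAt_gx {x : ℂ} (hx : ‖x‖ < 1) (σ : ℝ) :
    ∃ L : ℂ →L[ℝ] ℝ, (∀ a, L a = Dg x σ a) ∧ HasFDerivAt (fun x => gx x σ) L x := by
  exact ⟨gL x σ, gL_apply x σ, hasFDerivAt_gL hx σ⟩

theorem hasFDerivAt_Tx {x : ℂ} (hx : ‖x‖ < 1) (σ : ℝ) :
    ∃ L : ℂ →L[ℝ] ℝ, (∀ a, L a = DT x σ a) ∧ HasFDerivAt (fun x => Tx x σ) L x := by
  exact ⟨TL x σ, TL_apply x σ, hasFDerivAt_TL hx σ⟩

theorem hasDerivAt_gx_comp {w : ℝ → ℂ} {w' : ℂ} {θ : ℝ} (hw : HasDerivAt w w' θ)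
    (h1 : ‖w θ‖ < 1) (σ : ℝ) : HasDerivAt (fun θ => gx (w θ) σ) (Dg (w θ) σ w') θ := by
  have h := (hasFDerivAt_gL h1 σ).comp_hasDerivAt θ hw
  rw [gL_apply] at h
  exact h

theorem hasDerivAt_Tx_comp {w : ℝ → ℂ} {w' : ℂ} {θ : ℝ} (hw : HasDerivAt w w' θ)
    (h1 : ‖w θ‖ < 1) (σ : ℝ) : HasDerivAt (fun θ => Tx (w θ) σ) (DT (w θ) σ w') θ := by
  have h := (hasFDerivAt_TL h1 σ).comp_hasDerivAt θ hw
  rw [TL_apply] at h
  exact h

theorem gx_lip {x y : ℂ} (hx : ‖x‖ ≤ 1 / 2) (hy : ‖y‖ ≤ 1 / 2) (σ : ℝ) :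
    |gx x σ - gx y σ| ≤ 2 * ‖x - y‖ := by
  have h := (convex_closedBall (0 : ℂ) (1 / 2)).norm_image_sub_le_of_norm_hasFDerivWithin_le
    (f := fun x => gx x σ) (f' := fun x => gL x σ) (C := 2) (x := y) (y := x)
    (fun z hz => (hasFDerivAt_gL (by
      have := mem_closedBall_zero_iff.1 hz
      linarith) σ).hasFDerivWithinAt)
    (fun z hz => ContinuousLinearMap.opNorm_le_bound _ (by norm_num) (fun a => by
      rw [gL_apply, Real.norm_eq_abs]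
      exact abs_Dg_le (mem_closedBall_zero_iff.1 hz) σ a))
    (mem_closedBall_zero_iff.2 hy) (mem_closedBall_zero_iff.2 hx)
  rwa [Real.norm_eq_abs] at h

theorem Tx_lip {x y : ℂ} (hx : ‖x‖ ≤ 1 / 2) (hy : ‖y‖ ≤ 1 / 2) (σ : ℝ) :
    |Tx x σ - Tx y σ| ≤ 2 * ‖x - y‖ := by
  have h := (convex_closedBall (0 : ℂ) (1 / 2)).norm_image_sub_le_of_norm_hasFDerivWithin_le
    (f := fun x => Tx x σ) (f' := fun x => TL x σ) (C := 2) (x := y) (y := x)
    (fun z hz => (hasFDerivAt_TL (by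
      have := mem_closedBall_zero_iff.1 hz
      linarith) σ).hasFDerivWithinAt)
    (fun z hz => ContinuousLinearMap.opNorm_le_bound _ (by norm_num) (fun a => by
      rw [TL_apply, Real.norm_eq_abs]
      exact abs_DT_le (mem_closedBall_zero_iff.1 hz) σ a))
    (mem_closedBall_zero_iff.2 hy) (mem_closedBall_zero_iff.2 hx)
  rwa [Real.norm_eq_abs] at h

theorem iq_lip {x y : ℂ} (hx : ‖x‖ ≤ 1 / 2) (hy : ‖y‖ ≤ 1 / 2) (σ : ℝ) :
    |(qx x σ)⁻¹ - (qx y σ)⁻¹| ≤ ‖x - y‖ := by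
  have hx1 := qx_ge hx σ
  have hy1 := qx_ge hy σ
  have hx2 : ‖x‖ < 1 := by linarith
  have hy2 : ‖y‖ < 1 := by linarith
  have hxs := qx_sq hx2 σ
  have hys := qx_sq hy2 σ
  have hm : |inn x σ - inn y σ| ≤ ‖x - y‖ := by
    rw [← inn_sub]
    exact abs_inn_le _ _
  have hs : |inn x σ + inn y σ| ≤ 1 := by
    have h1 := abs_inn_le x σ
    have h2 := abs_inn_le y σ
    exact le_trans (abs_add_le _ _) (by linarith)
  have hqpos : 0 < qx x σ := by linarith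
  have hqpos' : 0 < qx y σ := by linarith
  have e1 : (qx x σ)⁻¹ - (qx y σ)⁻¹ =
      (inn x σ - inn y σ) * (inn x σ + inn y σ) / (qx x σ * qx y σ * (qx x σ + qx y σ)) := by
    have h3 : (inn x σ - inn y σ) * (inn x σ + inn y σ) =
        (qx y σ - qx x σ) * (qx x σ + qx y σ) := by
      have : (inn x σ - inn y σ) * (inn x σ + inn y σ) = inn x σ ^ 2 - inn y σ ^ 2 := by ring
      rw [this]
      have : (qx y σ - qx x σ) * (qx x σ + qx y σ) = qx y σ ^ 2 - qx x σ ^ 2 := by ring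
      rw [this, hxs, hys]
      ring
    rw [h3]
    field_simp
  have hd : (1 : ℝ) ≤ qx x σ * qx y σ * (qx x σ + qx y σ) := by
    have h4 : (4 / 5 : ℝ) * (4 / 5) ≤ qx x σ * qx y σ := mul_le_mul hx1 hy1 (by norm_num) hqpos.le
    have h5 : (4 / 5 : ℝ) * (4 / 5) * (8 / 5) ≤ qx x σ * qx y σ * (qx x σ + qx y σ) :=
      mul_le_mul h4 (by linarith) (by norm_num) (by positivity)
    linarith
  rw [e1, abs_div, abs_mul]
  have hd' : 0 < qx x σ * qx y σ * (qx x σ + qx y σ) := by positivity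
  rw [abs_of_pos hd', div_le_iff₀ hd']
  calc |inn x σ - inn y σ| * |inn x σ + inn y σ| ≤ ‖x - y‖ * 1 :=
        mul_le_mul hm hs (abs_nonneg _) (norm_nonneg _)
    _ ≤ ‖x - y‖ * (qx x σ * qx y σ * (qx x σ + qx y σ)) :=
        mul_le_mul_of_nonneg_left hd (norm_nonneg _)

theorem Dg_lip : ∃ C : ℝ, 0 ≤ C ∧ ∀ (x y : ℂ) (σ : ℝ) (a : ℂ), ‖x‖ ≤ 1 / 2 → ‖y‖ ≤ 1 / 2 →
    |Dg x σ a - Dg y σ a| ≤ C * ‖x - y‖ * ‖a‖ := by
  refine ⟨1, zero_le_one, fun x y σ a hx hy => ?_⟩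
  have h1 : Dg x σ a - Dg y σ a = inn a σ * ((qx x σ)⁻¹ - (qx y σ)⁻¹) := by
    unfold Dg
    ring
  rw [h1, abs_mul, one_mul, mul_comm ‖x - y‖ ‖a‖]
  exact mul_le_mul (abs_inn_le a σ) (iq_lip hx hy σ) (abs_nonneg _) (norm_nonneg _)

theorem DT_lip : ∃ C : ℝ, 0 ≤ C ∧ ∀ (x y : ℂ) (σ : ℝ) (a : ℂ), ‖x‖ ≤ 1 / 2 → ‖y‖ ≤ 1 / 2 →
    |DT x σ a - DT y σ a| ≤ C * ‖x - y‖ * ‖a‖ := by
  refine ⟨6, by norm_num, fun x y σ a hx hy => ?_⟩
  set p := (qx x σ)⁻¹ with hp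
  set p' := (qx y σ)⁻¹ with hp'
  have hx1 := qx_ge hx σ
  have hy1 := qx_ge hy σ
  have hp0 : 0 ≤ p := inv_nonneg.2 (by linarith)
  have hp0' : 0 ≤ p' := inv_nonneg.2 (by linarith)
  have hp1 : p ≤ 5 / 4 := by
    rw [hp]
    have := inv_anti₀ (by norm_num : (0 : ℝ) < 4 / 5) hx1
    norm_num at this ⊢
    exact this
  have hp1' : p' ≤ 5 / 4 := by
    rw [hp']
    have := inv_anti₀ (by norm_num : (0 : ℝ) < 4 / 5) hy1
    norm_num at this ⊢
    exact this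
  have hpp : |p - p'| ≤ ‖x - y‖ := iq_lip hx hy σ
  have hm : |inn x σ - inn y σ| ≤ ‖x - y‖ := by
    rw [← inn_sub]
    exact abs_inn_le _ _
  have hn : |inp x σ - inp y σ| ≤ ‖x - y‖ := by
    rw [← inp_sub]
    exact abs_inp_le _ _
  have hxm : |inn x σ| ≤ 1 / 2 := le_trans (abs_inn_le _ _) hx
  have hym : |inn y σ| ≤ 1 / 2 := le_trans (abs_inn_le _ _) hy
  have hyn : |inp y σ| ≤ 1 / 2 := le_trans (abs_inp_le _ _) hy
  have hD := norm_nonneg (x - y)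
  have h3 : |p ^ 3 - p' ^ 3| ≤ 5 * ‖x - y‖ := by
    have e : p ^ 3 - p' ^ 3 = (p - p') * (p ^ 2 + p * p' + p' ^ 2) := by ring
    have h4 : |p ^ 2 + p * p' + p' ^ 2| ≤ 5 := by
      rw [abs_of_nonneg (by positivity)]
      nlinarith
    rw [e, abs_mul, mul_comm (5 : ℝ)]
    exact mul_le_mul hpp h4 (abs_nonneg _) hD
  have hp3 : p ^ 3 ≤ 2 := by
    have : p ^ 3 ≤ (5 / 4) ^ 3 := pow_le_pow_left₀ hp0 hp1 3
    norm_num at this
    linarith
  have h5 : |inp x σ * inn x σ * p ^ 3 - inp y σ * inn y σ * p' ^ 3| ≤ 5 * ‖x - y‖ := by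
    have e : inp x σ * inn x σ * p ^ 3 - inp y σ * inn y σ * p' ^ 3 =
        (inp x σ - inp y σ) * (inn x σ * p ^ 3) + inp y σ * ((inn x σ - inn y σ) * p ^ 3) +
        inp y σ * inn y σ * (p ^ 3 - p' ^ 3) := by ring
    have a1 : |(inp x σ - inp y σ) * (inn x σ * p ^ 3)| ≤ ‖x - y‖ * 1 := by
      rw [abs_mul]
      refine mul_le_mul hn ?_ (abs_nonneg _) hD
      rw [abs_mul, abs_of_nonneg (pow_nonneg hp0 3)]
      calc |inn x σ| * p ^ 3 ≤ 1 / 2 * 2 := mul_le_mul hxm hp3 (pow_nonneg hp0 3) (by norm_num)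
        _ = 1 := by norm_num
    have a2 : |inp y σ * ((inn x σ - inn y σ) * p ^ 3)| ≤ 1 / 2 * (‖x - y‖ * 2) := by
      rw [abs_mul]
      refine mul_le_mul hyn ?_ (abs_nonneg _) (by norm_num)
      rw [abs_mul, abs_of_nonneg (pow_nonneg hp0 3)]
      exact mul_le_mul hm hp3 (pow_nonneg hp0 3) hD
    have a3 : |inp y σ * inn y σ * (p ^ 3 - p' ^ 3)| ≤ 1 / 2 * (1 / 2) * (5 * ‖x - y‖) := by
      rw [abs_mul, abs_mul]
      refine mul_le_mul ?_ h3 (abs_nonneg _) (by norm_num)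
      exact mul_le_mul hyn hym (abs_nonneg _) (by norm_num)
    rw [e]
    refine le_trans (abs_add_le _ _) ?_
    have a4 := abs_add_le ((inp x σ - inp y σ) * (inn x σ * p ^ 3))
      (inp y σ * ((inn x σ - inn y σ) * p ^ 3))
    linarith
  have e : DT x σ a - DT y σ a = inp a σ * (p - p') +
      inn a σ * (inp x σ * inn x σ * p ^ 3 - inp y σ * inn y σ * p' ^ 3) := by
    unfold DT
    rw [hp, hp']
    ring
  rw [e]
  refine le_trans (abs_add_le _ _) ?_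
  rw [abs_mul, abs_mul]
  have b1 : |inp a σ| * |p - p'| ≤ ‖a‖ * ‖x - y‖ :=
    mul_le_mul (abs_inp_le _ _) hpp (abs_nonneg _) (norm_nonneg _)
  have b2 : |inn a σ| * |inp x σ * inn x σ * p ^ 3 - inp y σ * inn y σ * p' ^ 3| ≤
      ‖a‖ * (5 * ‖x - y‖) :=
    mul_le_mul (abs_inn_le _ _) h5 (abs_nonneg _) (norm_nonneg _)
  linarith

/-- The fundamental theorem of calculus along a segment in the ball of radius `1/2`. -/
theorem gx_sub_eq {x u : ℂ} (hx : ‖x‖ ≤ 1 / 2) {t : ℝ} (ht : 0 ≤ t) (hu : ‖x + t * u‖ ≤ 1 / 2)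
    (σ : ℝ) : gx (x + t * u) σ - gx x σ = ∫ τ in (0 : ℝ)..t, Dg (x + τ * u) σ u := by
  have hball : ∀ τ ∈ Icc (0 : ℝ) t, ‖x + τ * u‖ ≤ 1 / 2 := by
    intro τ hτ
    rcases eq_or_lt_of_le ht with h0 | h0
    · have : τ = 0 := le_antisymm (by rw [h0]; exact hτ.2) hτ.1
      rw [this]
      simpa using hx
    · have hconv := convex_closedBall (0 : ℂ) (1 / 2)
      have h1 := hconv (mem_closedBall_zero_iff.2 hx) (mem_closedBall_zero_iff.2 hu)
        (a := 1 - τ / t) (b := τ / t)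
        (by rw [sub_nonneg, div_le_one h0]; exact hτ.2) (div_nonneg hτ.1 h0.le) (by ring)
      have e : (1 - τ / t) • x + (τ / t) • (x + (t : ℂ) * u) = x + (τ : ℂ) * u := by
        rw [Complex.real_smul, Complex.real_smul]
        have : (t : ℂ) ≠ 0 := by exact_mod_cast h0.ne'
        push_cast
        field_simp
        ring
      rw [e] at h1
      exact mem_closedBall_zero_iff.1 h1
  have hd : ∀ τ ∈ uIcc (0 : ℝ) t, HasDerivAt (fun τ : ℝ => gx (x + (τ : ℂ) * u) σ)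
      (Dg (x + (τ : ℂ) * u) σ u) τ := by
    intro τ hτ
    rw [uIcc_of_le ht] at hτ
    have hw : HasDerivAt (fun τ : ℝ => x + (τ : ℂ) * u) u τ := by
      have h1 := (((hasDerivAt_id τ).ofReal_comp).mul_const u).const_add x
      simpa using h1
    exact hasDerivAt_gx_comp hw (by linarith [hball τ hτ]) σ
  have hc : ContinuousOn (fun τ : ℝ => Dg (x + (τ : ℂ) * u) σ u) (uIcc (0 : ℝ) t) := by
    rw [uIcc_of_le ht]
    have h1 : Continuous fun τ : ℝ => ((x + (τ : ℂ) * u, σ) : ℂ × ℝ) := by fun_prop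
    refine ContinuousOn.comp (g := fun p : ℂ × ℝ => Dg p.1 p.2 u)
      (f := fun τ : ℝ => ((x + (τ : ℂ) * u, σ) : ℂ × ℝ)) (t := {p | ‖p.1‖ < 1})
      (continuousOn_Dg u) h1.continuousOn ?_
    intro τ hτ
    have := hball τ hτ
    change ‖x + (τ : ℂ) * u‖ < 1
    linarith
  have h := intervalIntegral.integral_eq_sub_of_hasDerivAt hd hc.intervalIntegrable
  rw [h]
  simp

end Pool.Agent.CC57
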