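import Pool.Agent.CC57.MultU
import Pool.Agent.CC57.SphDer

set_option autoImplicit false

/-!
Error terms, first part.  `u = du X W`, `w_t = wt X W t`, `t ∈ [0,1]`; all points `X + τ u`,
`τ ∈ [0,1]`, are in the ball of radius `ε ≤ 1/2` (convexity).

* `err_g`: by `gx_sub_eq`, `gx (w_t) - gx X - t inn u = ∫_0^t (Dg (X + τu) - Dg 0)[u] dτ
  = φ₁ u.re + φ₂ u.im`, `φ_k(θ) = ∫_0^t (Dg (X θ + τ u θ) σ e_k - Dg 0 σ e_k) dτ`, `e₁ = 1`, `e₂ = I`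
  (`Dg_coord`, `Dg_zero`).  By `Dg_lip`, `|φ_k| ≤ C sup ‖X + τu‖ ≤ C ε` and
  `|φ_k θ - φ_k θ'| ≤ C (‖X θ - X θ'‖ + ‖W θ - W θ'‖)` as
  `‖(X + τu) θ - (X + τu) θ'‖ ≤ (1-τ)‖X θ - X θ'‖ + τ‖W θ - W θ'‖`.  Apply `hs_multU`.
* `err_t`: `DT (w_t)[u] - inp u = φ₁ u.re + φ₂ u.im` with `φ_k = DT (w_t θ) σ e_k - DT 0 σ e_k`
  (`DT_coord`, `DT_zero`), `DT_lip`.
-/

open Real MeasureTheory Set

namespace Pool.Agent.CC57

private lemma eg_norm {ε : ℝ} {K : NNReal} {X W : ℝ → ℂ} (hD : Curves ε K X W) {τ : ℝ}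
    (h0 : 0 ≤ τ) (h1 : τ ≤ 1) (θ : ℝ) : ‖X θ + (τ : ℂ) * du X W θ‖ ≤ ε := by
  have e : X θ + (τ : ℂ) * du X W θ = ((1 - τ : ℝ) : ℂ) * X θ + (τ : ℂ) * W θ := by
    unfold du
    push_cast
    ring
  rw [e]
  refine (norm_add_le _ _).trans ?_
  rw [norm_mul, norm_mul, Complex.norm_real, Complex.norm_real, Real.norm_of_nonneg h0,
    Real.norm_of_nonneg (by linarith)]
  have hx := hD.Xb θ
  have hw := hD.Wb θ
  have a1 := mul_le_mul_of_nonneg_left hx (show 0 ≤ 1 - τ by linarith)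
  have a2 := mul_le_mul_of_nonneg_left hw h0
  linarith

private lemma eg_sub {X W : ℝ → ℂ} {τ : ℝ}
    (h0 : 0 ≤ τ) (h1 : τ ≤ 1) (θ θ' : ℝ) :
    ‖(X θ + (τ : ℂ) * du X W θ) - (X θ' + (τ : ℂ) * du X W θ')‖ ≤
      ‖X θ - X θ'‖ + ‖W θ - W θ'‖ := by
  have e : (X θ + (τ : ℂ) * du X W θ) - (X θ' + (τ : ℂ) * du X W θ') =
      ((1 - τ : ℝ) : ℂ) * (X θ - X θ') + (τ : ℂ) * (W θ - W θ') := by
    unfold du
    push_cast
    ring
  rw [e]
  refine (norm_add_le _ _).trans ?_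
  rw [norm_mul, norm_mul, Complex.norm_real, Complex.norm_real, Real.norm_of_nonneg h0,
    Real.norm_of_nonneg (by linarith)]
  have a1 := mul_le_mul_of_nonneg_right (show 1 - τ ≤ 1 by linarith) (norm_nonneg (X θ - X θ'))
  have a2 := mul_le_mul_of_nonneg_right h1 (norm_nonneg (W θ - W θ'))
  linarith

private lemma eg_cont {ε : ℝ} {K : NNReal} {X W : ℝ → ℂ} (hD : Curves ε K X W) {t : ℝ}
    (h0 : 0 ≤ t) (h1 : t ≤ 1) (σ θ : ℝ) (a : ℂ) :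
    IntervalIntegrable (fun τ : ℝ => Dg (X θ + (τ : ℂ) * du X W θ) σ a) volume 0 t := by
  apply ContinuousOn.intervalIntegrable
  rw [uIcc_of_le h0]
  refine ContinuousOn.comp (t := {p : ℂ × ℝ | ‖p.1‖ < 1}) (continuousOn_Dg a)
    (f := fun τ : ℝ => (X θ + (τ : ℂ) * du X W θ, σ)) ?_ ?_
  · refine Continuous.continuousOn ?_
    fun_prop
  · intro τ hτ
    have := eg_norm hD hτ.1 (hτ.2.trans h1) θ
    have h2 := hD.le
    simp only [mem_ofPred_eq]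
    linarith

private lemma eg_facts {ε : ℝ} {K : NNReal} {X W : ℝ → ℂ} (hD : Curves ε K X W) {t C : ℝ}
    (h0 : 0 ≤ t) (h1 : t ≤ 1) (σ : ℝ) (a : ℂ) (ha : ‖a‖ = 1) (hC : 0 ≤ C)
    (hL : ∀ (x y : ℂ) (σ : ℝ) (a : ℂ), ‖x‖ ≤ 1 / 2 → ‖y‖ ≤ 1 / 2 →
      |Dg x σ a - Dg y σ a| ≤ C * ‖x - y‖ * ‖a‖) :
    (∀ θ, |∫ τ in (0 : ℝ)..t, (Dg (X θ + (τ : ℂ) * du X W θ) σ a - Dg 0 σ a)| ≤ C * ε) ∧
    ∀ θ θ', |(∫ τ in (0 : ℝ)..t, (Dg (X θ + (τ : ℂ) * du X W θ) σ a - Dg 0 σ a)) -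
      ∫ τ in (0 : ℝ)..t, (Dg (X θ' + (τ : ℂ) * du X W θ') σ a - Dg 0 σ a)| ≤
        C * (‖X θ - X θ'‖ + ‖W θ - W θ'‖) := by
  have hε := hD.pos
  have hε2 := hD.le
  have hii : ∀ θ, IntervalIntegrable
      (fun τ : ℝ => Dg (X θ + (τ : ℂ) * du X W θ) σ a - Dg 0 σ a) volume 0 t := fun θ =>
    (eg_cont hD h0 h1 σ θ a).sub intervalIntegrable_const
  constructor
  · intro θ
    have h2 : ‖∫ τ in (0 : ℝ)..t, (Dg (X θ + (τ : ℂ) * du X W θ) σ a - Dg 0 σ a)‖ ≤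
        C * ε * |t - 0| := by
      apply intervalIntegral.norm_integral_le_of_norm_le_const
      intro τ hτ
      rw [uIoc_of_le h0] at hτ
      have h3 := eg_norm hD hτ.1.le (hτ.2.trans h1) θ
      have h4 := hL (X θ + (τ : ℂ) * du X W θ) 0 σ a (by linarith) (by simp)
      rw [ha, mul_one, sub_zero] at h4
      rw [Real.norm_eq_abs]
      exact h4.trans (mul_le_mul_of_nonneg_left h3 hC)
    rw [Real.norm_eq_abs, sub_zero, abs_of_nonneg h0] at h2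
    refine h2.trans ?_
    have : 0 ≤ C * ε := by positivity
    nlinarith
  · intro θ θ'
    rw [← intervalIntegral.integral_sub (hii θ) (hii θ')]
    have h2 : ‖∫ τ in (0 : ℝ)..t, ((Dg (X θ + (τ : ℂ) * du X W θ) σ a - Dg 0 σ a) -
        (Dg (X θ' + (τ : ℂ) * du X W θ') σ a - Dg 0 σ a))‖ ≤
        C * (‖X θ - X θ'‖ + ‖W θ - W θ'‖) * |t - 0| := by
      apply intervalIntegral.norm_integral_le_of_norm_le_const
      intro τ hτ
      rw [uIoc_of_le h0] at hτ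
      have h3 := eg_norm hD hτ.1.le (hτ.2.trans h1) θ
      have h3' := eg_norm hD hτ.1.le (hτ.2.trans h1) θ'
      have h4 := hL (X θ + (τ : ℂ) * du X W θ) (X θ' + (τ : ℂ) * du X W θ') σ a
        (by linarith) (by linarith)
      rw [ha, mul_one] at h4
      rw [Real.norm_eq_abs]
      have e : Dg (X θ + (τ : ℂ) * du X W θ) σ a - Dg 0 σ a -
          (Dg (X θ' + (τ : ℂ) * du X W θ') σ a - Dg 0 σ a) =
          Dg (X θ + (τ : ℂ) * du X W θ) σ a - Dg (X θ' + (τ : ℂ) * du X W θ') σ a := by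
        ring
      rw [e]
      exact h4.trans (mul_le_mul_of_nonneg_left
        (eg_sub hτ.1.le (hτ.2.trans h1) θ θ') hC)
    rw [Real.norm_eq_abs, sub_zero, abs_of_nonneg h0] at h2
    refine h2.trans ?_
    have : 0 ≤ C * (‖X θ - X θ'‖ + ‖W θ - W θ'‖) := by positivity
    nlinarith

theorem err_g : ∃ C : ℝ, 0 < C ∧ ∀ (ε : ℝ) (K : NNReal) (X W : ℝ → ℂ), Curves ε K X W →
    ∀ (σ t : ℝ), 0 ≤ t → t ≤ 1 →
    LP (fun θ => gx (wt X W t θ) σ - gx (X θ) σ - t * inn (du X W θ) σ) ∧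
    hs (fun θ => gx (wt X W t θ) σ - gx (X θ) σ - t * inn (du X W θ) σ) ≤
      C * ε ^ 2 * nu X W := by
  obtain ⟨C0, hC0, hm⟩ := hs_multU
  obtain ⟨C1, hC1, hL⟩ := Dg_lip
  refine ⟨C0 * (C1 + 1) ^ 2, by positivity, ?_⟩
  intro ε K X W hD σ t h0 h1
  have hC2 : 0 ≤ C1 + 1 := by linarith
  have hL' : ∀ (x y : ℂ) (σ : ℝ) (a : ℂ), ‖x‖ ≤ 1 / 2 → ‖y‖ ≤ 1 / 2 →
      |Dg x σ a - Dg y σ a| ≤ (C1 + 1) * ‖x - y‖ * ‖a‖ := by
    intro x y σ a hx hy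
    refine (hL x y σ a hx hy).trans ?_
    gcongr
    linarith
  obtain ⟨b1, l1⟩ := eg_facts hD h0 h1 σ 1 norm_one hC2 hL'
  obtain ⟨b2, l2⟩ := eg_facts hD h0 h1 σ Complex.I Complex.norm_I hC2 hL'
  have key : (fun θ => gx (wt X W t θ) σ - gx (X θ) σ - t * inn (du X W θ) σ) =
      fun θ => (∫ τ in (0 : ℝ)..t, (Dg (X θ + (τ : ℂ) * du X W θ) σ 1 - Dg 0 σ 1)) *
        (du X W θ).re +
        (∫ τ in (0 : ℝ)..t, (Dg (X θ + (τ : ℂ) * du X W θ) σ Complex.I - Dg 0 σ Complex.I)) *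
        (du X W θ).im := by
    funext θ
    have hε2 := hD.le
    have hx := hD.Xb θ
    have h2 := eg_norm hD h0 h1 θ
    have h3 := gx_sub_eq (x := X θ) (u := du X W θ) (by linarith) h0 (by linarith) σ
    unfold wt
    rw [h3]
    have i1 := eg_cont hD h0 h1 σ θ 1
    have i2 := eg_cont hD h0 h1 σ θ Complex.I
    have e1 : (∫ τ in (0 : ℝ)..t, Dg (X θ + (τ : ℂ) * du X W θ) σ (du X W θ)) =
        (du X W θ).re * (∫ τ in (0 : ℝ)..t, Dg (X θ + (τ : ℂ) * du X W θ) σ 1) +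
        (du X W θ).im * ∫ τ in (0 : ℝ)..t, Dg (X θ + (τ : ℂ) * du X W θ) σ Complex.I := by
      rw [← intervalIntegral.integral_const_mul, ← intervalIntegral.integral_const_mul,
        ← intervalIntegral.integral_add (i1.const_mul _) (i2.const_mul _)]
      congr 1
      funext τ
      exact Dg_coord _ _ _
    rw [e1, intervalIntegral.integral_sub i1 intervalIntegrable_const,
      intervalIntegral.integral_sub i2 intervalIntegrable_const,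
      intervalIntegral.integral_const, intervalIntegral.integral_const, sub_zero,
      ← Dg_zero σ (du X W θ), Dg_coord 0 σ (du X W θ)]
    simp only [smul_eq_mul]
    ring
  rw [key]
  constructor
  · exact LP_mul_add hD hC2 b1 b2 l1 l2
  · refine (hm ε K X W hD (C1 + 1) _ _ hC2 b1 b2 l1 l2).trans_eq ?_
    ring

theorem err_t : ∃ C : ℝ, 0 < C ∧ ∀ (ε : ℝ) (K : NNReal) (X W : ℝ → ℂ), Curves ε K X W →
    ∀ (σ t : ℝ), 0 ≤ t → t ≤ 1 →
    LP (fun θ => DT (wt X W t θ) σ (du X W θ) - inp (du X W θ) σ) ∧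
    hs (fun θ => DT (wt X W t θ) σ (du X W θ) - inp (du X W θ) σ) ≤ C * ε ^ 2 * nu X W := by
  obtain ⟨C0, hC0, hm⟩ := hs_multU
  obtain ⟨C1, hC1, hL⟩ := DT_lip
  refine ⟨C0 * (C1 + 1) ^ 2, by positivity, ?_⟩
  intro ε K X W hD σ t h0 h1
  have hC2 : 0 ≤ C1 + 1 := by linarith
  have hε2 := hD.le
  have hw : ∀ θ, ‖wt X W t θ‖ ≤ ε := fun θ => eg_norm hD h0 h1 θ
  have b : ∀ a : ℂ, ‖a‖ = 1 → ∀ θ, |DT (wt X W t θ) σ a - DT 0 σ a| ≤ (C1 + 1) * ε := by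
    intro a ha θ
    have h3 := hw θ
    have h4 := hL (wt X W t θ) 0 σ a (by linarith) (by simp)
    rw [ha, mul_one, sub_zero] at h4
    refine h4.trans ?_
    have hn := norm_nonneg (wt X W t θ)
    have h5 := mul_le_mul_of_nonneg_left h3 hC1
    have h6 := hD.pos
    linarith
  have l : ∀ a : ℂ, ‖a‖ = 1 → ∀ θ θ', |(DT (wt X W t θ) σ a - DT 0 σ a) -
      (DT (wt X W t θ') σ a - DT 0 σ a)| ≤ (C1 + 1) * (‖X θ - X θ'‖ + ‖W θ - W θ'‖) := by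
    intro a ha θ θ'
    have h3 := hw θ
    have h3' := hw θ'
    have h4 := hL (wt X W t θ) (wt X W t θ') σ a (by linarith) (by linarith)
    rw [ha, mul_one] at h4
    have e : DT (wt X W t θ) σ a - DT 0 σ a - (DT (wt X W t θ') σ a - DT 0 σ a) =
        DT (wt X W t θ) σ a - DT (wt X W t θ') σ a := by
      ring
    rw [e]
    refine h4.trans ?_
    have h5 : ‖wt X W t θ - wt X W t θ'‖ ≤ ‖X θ - X θ'‖ + ‖W θ - W θ'‖ :=
      eg_sub h0 h1 θ θ'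
    have h6 := mul_le_mul_of_nonneg_left h5 hC1
    have h7 : 0 ≤ ‖X θ - X θ'‖ + ‖W θ - W θ'‖ := by positivity
    linarith
  have key : (fun θ => DT (wt X W t θ) σ (du X W θ) - inp (du X W θ) σ) =
      fun θ => (DT (wt X W t θ) σ 1 - DT 0 σ 1) * (du X W θ).re +
        (DT (wt X W t θ) σ Complex.I - DT 0 σ Complex.I) * (du X W θ).im := by
    funext θ
    rw [← DT_zero σ (du X W θ), DT_coord 0 σ (du X W θ),
      DT_coord (wt X W t θ) σ (du X W θ)]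
    ring
  rw [key]
  constructor
  · exact LP_mul_add hD hC2 (b 1 norm_one) (b Complex.I Complex.norm_I) (l 1 norm_one)
      (l Complex.I Complex.norm_I)
  · refine (hm ε K X W hD (C1 + 1) _ _ hC2 (b 1 norm_one) (b Complex.I Complex.norm_I)
      (l 1 norm_one) (l Complex.I Complex.norm_I)).trans_eq ?_
    ring

end Pool.Agent.CC57
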