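import Pool.Agent.CC57.SphDer
import Pool.Agent.CC57.Avg

set_option autoImplicit false

/-!
The map `zhC x = avgE (gx x)`.

* `zhC_expand`: for `a, b ∈ [-1,1]`, `(arcsin a - arcsin b)(a - b) ≥ (a - b)²` (`H65G.arcsin_mono_sq`,
  or `|sin s - sin t| ≤ |s - t|`).  With `a = inn w σ`, `b = inn w' σ` and `avg_mul_inn` (applied to
  `f = gx w - gx w'` and the vector `w - w'`), `⟨zhC w - zhC w', w - w'⟩ ≥ avg (inn (w - w'))² =
  ‖w - w'‖² / 2` (`avg_inn_mul_inn`); then Cauchy-Schwarz.
* `zhC_surj`: by rotation invariance of the mean (periodicity in `σ`) and the reflection `σ ↦ -σ`,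
  `zhC (ρ e^{iα}) = R(ρ) e^{iα}` with `R(ρ) = avg (arcsin (ρ cos σ) cos σ)`, which is continuous, `R 0 = 0`
  and `R ρ ≥ ρ / 2` for `0 ≤ ρ ≤ 1` (as `arcsin m * m ≥ m²`).  Intermediate value theorem on `[0, 1/2]`;
  `‖w‖ ≤ 2 ‖z‖` from `zhC_expand` with `w' = 0`, `zhC 0 = 0`.  (Alternatively transfer `H65G.zh_surj`.)
* `zhC_lip`: `|gx w σ - gx w' σ| ≤ 2 ‖w - w'‖` (`gx_lip`) and `norm_avgE_le`.
-/

open Real MeasureTheory Set

namespace Pool.Agent.CC57

private theorem gx_cont (w : ℂ) : Continuous (gx w) :=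
  continuous_gx.comp (continuous_const.prodMk continuous_id)

private theorem inn_cont (w : ℂ) : Continuous (inn w) :=
  continuous_inn.comp (continuous_const.prodMk continuous_id)

theorem zhC_zero : zhC 0 = 0 := by
  have h : gx 0 = fun _ => 0 := by
    funext σ
    simp [gx, inn]
  unfold zhC avgE
  rw [h]
  simp

private theorem arcsin_expand {a b : ℝ} (ha : |a| ≤ 1) (hb : |b| ≤ 1) :
    (a - b) ^ 2 ≤ (arcsin a - arcsin b) * (a - b) := by
  have ha' := abs_le.1 ha
  have hb' := abs_le.1 hb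
  have h1 : |a - b| ≤ |arcsin a - arcsin b| := by
    have h2 := Real.abs_sin_sub_sin_le (arcsin a) (arcsin b)
    rwa [sin_arcsin ha'.1 ha'.2, sin_arcsin hb'.1 hb'.2] at h2
  rcases le_total a b with h | h
  · have h3 : arcsin a ≤ arcsin b := monotone_arcsin h
    rw [abs_of_nonpos (by linarith), abs_of_nonpos (by linarith)] at h1
    nlinarith
  · have h3 : arcsin b ≤ arcsin a := monotone_arcsin h
    rw [abs_of_nonneg (by linarith), abs_of_nonneg (by linarith)] at h1
    nlinarith

theorem zhC_expand {w w' : ℂ} (hw : ‖w‖ ≤ 1) (hw' : ‖w'‖ ≤ 1) :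
    ‖w - w'‖ ≤ 2 * ‖zhC w - zhC w'‖ := by
  have hc := gx_cont w
  have hc' := gx_cont w'
  have h1 := avgE_sub (hc.intervalIntegrable 0 (2 * π)) (hc'.intervalIntegrable 0 (2 * π))
  have h2 := avg_mul_inn (f := fun σ => gx w σ - gx w' σ)
    ((hc.sub hc').intervalIntegrable 0 (2 * π)) (w - w')
  have h3 := avg_inn_mul_inn (w - w') (w - w')
  have h4 : avg (fun σ => inn (w - w') σ * inn (w - w') σ) ≤
      avg (fun σ => (gx w σ - gx w' σ) * inn (w - w') σ) := by
    refine avg_mono ?_ ?_ fun σ => ?_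
    · exact ((inn_cont _).mul (inn_cont _)).intervalIntegrable _ _
    · exact ((hc.sub hc').mul (inn_cont _)).intervalIntegrable _ _
    · have h5 := arcsin_expand ((abs_inn_le w σ).trans hw) ((abs_inn_le w' σ).trans hw')
      rw [inn_sub]
      have h6 : (inn w σ - inn w' σ) * (inn w σ - inn w' σ) = (inn w σ - inn w' σ) ^ 2 := by ring
      rw [h6]
      exact h5
  rw [h2, h3, h1] at h4
  set D : ℂ := zhC w - zhC w' with hD
  have hD' : avgE (gx w) - avgE (gx w') = D := rfl
  rw [hD'] at h4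
  set v : ℂ := w - w' with hv
  have h7 : v.re * v.re + v.im * v.im = ‖v‖ ^ 2 := by
    rw [Complex.sq_norm, Complex.normSq_apply]
  have h8 : D.re * v.re + D.im * v.im ≤ ‖D‖ * ‖v‖ := by
    have e : D.re * v.re + D.im * v.im = (D * (starRingEnd ℂ) v).re := by
      rw [Complex.mul_re, Complex.conj_re, Complex.conj_im]
      ring
    rw [e]
    refine (Complex.re_le_norm _).trans ?_
    rw [norm_mul, Complex.norm_conj]
  rw [h7] at h4
  rcases eq_or_lt_of_le (norm_nonneg v) with h9 | h9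
  · rw [← h9]
    positivity
  · have h10 : ‖v‖ * ‖v‖ ≤ 2 * ‖D‖ * ‖v‖ := by nlinarith
    exact le_of_mul_le_mul_right h10 h9

private noncomputable def RR (ρ : ℝ) : ℝ := avg fun σ => arcsin (ρ * cos σ) * cos σ

private theorem RR_cont : Continuous RR := by
  unfold RR avg
  refine continuous_const.mul ?_
  refine intervalIntegral.continuous_parametric_intervalIntegral_of_continuous' ?_ 0 (2 * π)
  exact (continuous_arcsin.comp (continuous_fst.mul (continuous_cos.comp continuous_snd))).mul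
    (continuous_cos.comp continuous_snd)

private theorem avg_shift {F : ℝ → ℝ} (hF : ∀ x, F (x + 2 * π) = F x) (α : ℝ) :
    avg F = avg fun σ => F (σ + α) := by
  unfold avg
  congr 1
  rw [intervalIntegral.integral_comp_add_right (fun x => F x) α]
  have h := Function.Periodic.intervalIntegral_add_eq (f := F) (T := 2 * π) hF 0 α
  rw [zero_add] at h
  rw [h, zero_add, add_comm α]

private theorem avg_odd (ρ : ℝ) : avg (fun σ => arcsin (ρ * cos σ) * sin σ) = 0 := by
  unfold avg
  have h1 := intervalIntegral.integral_comp_sub_left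
    (fun σ => arcsin (ρ * cos σ) * sin σ) (2 * π) (a := 0) (b := 2 * π)
  rw [sub_self, sub_zero] at h1
  have h2 : (fun σ => arcsin (ρ * cos (2 * π - σ)) * sin (2 * π - σ)) =
      fun σ => -(arcsin (ρ * cos σ) * sin σ) := by
    funext σ
    rw [cos_two_pi_sub, sin_two_pi_sub]
    ring
  rw [h2, intervalIntegral.integral_neg] at h1
  have h3 : (∫ σ in (0 : ℝ)..2 * π, arcsin (ρ * cos σ) * sin σ) = 0 := by linarith
  rw [h3, mul_zero]

private theorem inn_polar (ρ α σ : ℝ) :
    inn ((ρ : ℂ) * Complex.exp (α * Complex.I)) σ = ρ * cos (σ - α) := by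
  unfold inn
  rw [Complex.re_ofReal_mul, Complex.im_ofReal_mul, Complex.exp_ofReal_mul_I_re,
    Complex.exp_ofReal_mul_I_im, cos_sub]
  ring

private theorem cosc (ρ : ℝ) : Continuous fun σ => arcsin (ρ * cos σ) :=
  continuous_arcsin.comp (continuous_const.mul continuous_cos)

private theorem zhC_polar (ρ α : ℝ) :
    zhC ((ρ : ℂ) * Complex.exp (α * Complex.I)) = (RR ρ : ℂ) * Complex.exp (α * Complex.I) := by
  set w : ℂ := (ρ : ℂ) * Complex.exp (α * Complex.I) with hw
  have hg : ∀ σ, gx w σ = arcsin (ρ * cos (σ - α)) := fun σ => by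
    unfold gx
    rw [hw, inn_polar]
  have hint := (gx_cont w).intervalIntegrable (μ := volume) 0 (2 * π)
  have i1 : IntervalIntegrable (fun σ => arcsin (ρ * cos σ) * cos σ) volume 0 (2 * π) :=
    ((cosc ρ).mul continuous_cos).intervalIntegrable _ _
  have i2 : IntervalIntegrable (fun σ => arcsin (ρ * cos σ) * sin σ) volume 0 (2 * π) :=
    ((cosc ρ).mul continuous_sin).intervalIntegrable _ _
  apply Complex.ext
  · rw [Complex.re_ofReal_mul, Complex.exp_ofReal_mul_I_re]
    show (avgE (gx w)).re = _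
    rw [avgE_re hint, avg_shift (F := fun σ => gx w σ * cos σ) (fun x => by
      simp only [hg]
      rw [cos_add_two_pi, show x + 2 * π - α = (x - α) + 2 * π by ring, cos_add_two_pi]) α]
    have e : (fun σ => gx w (σ + α) * cos (σ + α)) = fun σ =>
        cos α * (arcsin (ρ * cos σ) * cos σ) - sin α * (arcsin (ρ * cos σ) * sin σ) := by
      funext σ
      rw [hg, add_sub_cancel_right, cos_add]
      ring
    rw [e, avg_sub (i1.const_mul _) (i2.const_mul _), avg_mul_left, avg_mul_left, avg_odd]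
    unfold RR
    ring
  · rw [Complex.im_ofReal_mul, Complex.exp_ofReal_mul_I_im]
    show (avgE (gx w)).im = _
    rw [avgE_im hint, avg_shift (F := fun σ => gx w σ * sin σ) (fun x => by
      simp only [hg]
      rw [sin_add_two_pi, show x + 2 * π - α = (x - α) + 2 * π by ring, cos_add_two_pi]) α]
    have e : (fun σ => gx w (σ + α) * sin (σ + α)) = fun σ =>
        cos α * (arcsin (ρ * cos σ) * sin σ) + sin α * (arcsin (ρ * cos σ) * cos σ) := by
      funext σ
      rw [hg, add_sub_cancel_right, sin_add]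
      ring
    rw [e, avg_add (i2.const_mul _) (i1.const_mul _), avg_mul_left, avg_mul_left, avg_odd]
    unfold RR
    ring

private theorem RR_zero : RR 0 = 0 := by
  unfold RR
  simp only [zero_mul, arcsin_zero]
  exact avg_const 0

private theorem RR_half : 1 / 4 ≤ RR (1 / 2) := by
  have h1 : avg (fun σ => inn 1 σ * inn 1 σ) ≤ avg (fun σ => 4 * (1 / 2 * (arcsin (1 / 2 * cos σ) * cos σ))) := by
    refine avg_mono ?_ ?_ fun σ => ?_
    · exact ((inn_cont _).mul (inn_cont _)).intervalIntegrable _ _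
    · exact (((cosc (1 / 2)).mul continuous_cos).const_mul _ |>.const_mul _).intervalIntegrable _ _
    · have e : inn 1 σ = cos σ := by simp [inn]
      rw [e]
      have hb : |1 / 2 * cos σ| ≤ 1 := by
        rw [abs_mul, abs_of_pos (by norm_num : (0 : ℝ) < 1 / 2)]
        have := abs_cos_le_one σ
        linarith
      have h2 := arcsin_expand (a := 1 / 2 * cos σ) (b := 0) hb (by simp)
      rw [arcsin_zero, sub_zero, sub_zero] at h2
      nlinarith
  rw [avg_mul_left, avg_mul_left, avg_inn_mul_inn] at h1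
  simp only [Complex.one_re, Complex.one_im] at h1
  unfold RR
  linarith

theorem zhC_surj {z : ℂ} (hz : ‖z‖ ≤ 1 / 4) : ∃ w : ℂ, ‖w‖ ≤ 2 * ‖z‖ ∧ zhC w = z := by
  have h1 : ‖z‖ ∈ Icc (RR 0) (RR (1 / 2)) := by
    rw [RR_zero]
    exact ⟨norm_nonneg z, hz.trans RR_half⟩
  obtain ⟨ρ, ⟨hρ0, hρ1⟩, hρ⟩ := intermediate_value_Icc (by norm_num : (0 : ℝ) ≤ 1 / 2)
    RR_cont.continuousOn h1
  refine ⟨(ρ : ℂ) * Complex.exp (Complex.arg z * Complex.I), ?_, ?_⟩
  · set w : ℂ := (ρ : ℂ) * Complex.exp (Complex.arg z * Complex.I) with hw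
    have hwn : ‖w‖ = ρ := by
      rw [hw, norm_mul, Complex.norm_exp_ofReal_mul_I, mul_one, Complex.norm_real,
        Real.norm_of_nonneg hρ0]
    have hz' : zhC w = z := by
      rw [hw, zhC_polar, hρ]
      exact Complex.norm_mul_exp_arg_mul_I z
    have h2 := zhC_expand (w := w) (w' := 0) (by rw [hwn]; linarith) (by simp)
    rw [sub_zero, zhC_zero, sub_zero, hz'] at h2
    exact h2
  · rw [zhC_polar, hρ]
    exact Complex.norm_mul_exp_arg_mul_I z

theorem zhC_lip {w w' : ℂ} (hw : ‖w‖ ≤ 1 / 2) (hw' : ‖w'‖ ≤ 1 / 2) :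
    ‖zhC w - zhC w'‖ ≤ 2 * ‖w - w'‖ := by
  have h1 := avgE_sub ((gx_cont w).intervalIntegrable 0 (2 * π))
    ((gx_cont w').intervalIntegrable 0 (2 * π))
  have h2 : zhC w - zhC w' = avgE (fun σ => gx w σ - gx w' σ) := h1.symm
  rw [h2]
  exact norm_avgE_le fun σ => gx_lip hw hw' σ

end Pool.Agent.CC57
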