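import Pool.Agent.CC57.ErrG
import Pool.Agent.CC57.Zh

set_option autoImplicit false

/-!
Error terms, second part.  `v θ = zhC (W θ) - zhC (X θ)`.  By `gx_sub_eq` with `t = 1` and
`2 avgE (inn a) = a` (`avgE_inn`), `2 v - u = φ₁ u.re + φ₂ u.im` with the complex valued
`φ_k(θ) = 2 avgE (fun σ' => ∫_0^1 (Dg (X θ + τ u θ) σ' e_k - Dg 0 σ' e_k) dτ)`, and `‖φ_k‖ ≤ C ε`,
`‖φ_k θ - φ_k θ'‖ ≤ C (‖X θ - X θ'‖ + ‖W θ - W θ'‖)` (`Dg_lip`, `norm_avgE_le`).
* `err_z`: `inn (2v - u) σ = (φ₁.re cos σ + φ₁.im sin σ) u.re + (...) u.im`; apply `hs_multU`.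
* `mean_u`: if `∫ v = 0` then `-∫ u = ∫ (2v - u)`, so `‖2π cf u 0‖ ≤ C ε ∫ ‖u‖` and by Cauchy-Schwarz
  and `l2_le`, `‖cf u 0‖² ≤ C ε² (2π)⁻¹ ∫ ‖u‖² ≤ C ε² nu`.
-/

open Real MeasureTheory Set

namespace Pool.Agent.CC57

private theorem hpi : (0 : ℝ) < 2 * π := two_pi_pos

/-- Truncation to `[-1/2, 1/2]`. -/
private noncomputable def cl (m : ℝ) : ℝ := max (-(1 / 2)) (min (1 / 2) m)

private theorem cl_bd (m : ℝ) : |cl m| ≤ 1 / 2 := by
  unfold cl
  rw [abs_le]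
  constructor
  · exact le_max_left _ _
  · exact max_le (by norm_num) (min_le_left _ _)

private theorem cl_eq {m : ℝ} (h : |m| ≤ 1 / 2) : cl m = m := by
  unfold cl
  rw [abs_le] at h
  rw [min_eq_right h.2, max_eq_right h.1]

private theorem cl_lip (m m' : ℝ) : |cl m - cl m'| ≤ |m - m'| := by
  unfold cl
  have h1 := abs_max_sub_max_le_max (-(1 / 2) : ℝ) (min (1 / 2) m) (-(1 / 2)) (min (1 / 2) m')
  have h2 := abs_min_sub_min_le_max (1 / 2 : ℝ) m (1 / 2) m'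
  have h3 : max |(-(1 / 2) : ℝ) - -(1 / 2)| |min (1 / 2) m - min (1 / 2) m'| =
      |min (1 / 2) m - min (1 / 2) m'| := by
    rw [sub_self, abs_zero]
    exact max_eq_right (abs_nonneg _)
  have h4 : max |(1 / 2 : ℝ) - 1 / 2| |m - m'| = |m - m'| := by
    rw [sub_self, abs_zero]
    exact max_eq_right (abs_nonneg _)
  rw [h3] at h1
  rw [h4] at h2
  exact h1.trans h2

/-- The derivative of `arcsin`, truncated. -/
private noncomputable def Dc (m : ℝ) : ℝ := 1 / √(1 - cl m ^ 2)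

private theorem sqrt_ge (m : ℝ) : 4 / 5 ≤ √(1 - cl m ^ 2) := by
  apply le_sqrt_of_sq_le
  have h := cl_bd m
  have h1 : cl m ^ 2 ≤ (1 / 2) ^ 2 := sq_le_sq' (by linarith [(abs_le.1 h).1]) (abs_le.1 h).2
  nlinarith

private theorem Dc_lip (m m' : ℝ) : |Dc m - Dc m'| ≤ |m - m'| := by
  refine le_trans ?_ (cl_lip m m')
  unfold Dc
  have s1 := sqrt_ge m
  have s2 := sqrt_ge m'
  have h1 := cl_bd m
  have h2 := cl_bd m'
  set a := cl m
  set b := cl m'
  have q1 : √(1 - a ^ 2) ^ 2 = 1 - a ^ 2 := by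
    apply sq_sqrt
    rw [abs_le] at h1
    nlinarith
  have q2 : √(1 - b ^ 2) ^ 2 = 1 - b ^ 2 := by
    apply sq_sqrt
    rw [abs_le] at h2
    nlinarith
  set p := √(1 - a ^ 2)
  set q := √(1 - b ^ 2)
  have hp : 0 < p := by linarith
  have hq : 0 < q := by linarith
  have e : 1 / p - 1 / q = (a - b) * ((a + b) / (p * q * (p + q))) := by
    have : q ^ 2 - p ^ 2 = (a - b) * (a + b) := by rw [q1, q2]; ring
    field_simp
    linear_combination this
  rw [e, abs_mul]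
  apply mul_le_of_le_one_right (abs_nonneg _)
  rw [abs_div, abs_of_pos (by positivity : 0 < p * q * (p + q)), div_le_one (by positivity)]
  have h3 : |a + b| ≤ 1 := by
    calc |a + b| ≤ |a| + |b| := abs_add_le _ _
      _ ≤ 1 := by linarith
  have h4 : (4 / 5 : ℝ) * (4 / 5) ≤ p * q := mul_le_mul s1 s2 (by norm_num) hp.le
  have h5 : (8 / 5 : ℝ) ≤ p + q := by linarith
  have h6 : (4 / 5 : ℝ) * (4 / 5) * (8 / 5) ≤ p * q * (p + q) :=
    mul_le_mul h4 h5 (by norm_num) (by positivity)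
  linarith

private theorem Dc_zero : Dc 0 = 1 := by
  unfold Dc
  rw [cl_eq (by norm_num)]
  simp

private theorem Dc_cont : Continuous Dc := by
  have : LipschitzWith 1 Dc := by
    apply LipschitzWith.of_dist_le_mul
    intro x y
    rw [Real.dist_eq, Real.dist_eq]
    simpa using Dc_lip x y
  exact this.continuous

/-- The divided difference of `arcsin`. -/
private noncomputable def Sd (a b : ℝ) : ℝ := ∫ τ in (0 : ℝ)..1, Dc (a + τ * (b - a))

private theorem Sd_cont : Continuous (Function.uncurry Sd) := by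
  unfold Sd
  apply intervalIntegral.continuous_parametric_intervalIntegral_of_continuous'
    (f := fun (p : ℝ × ℝ) (τ : ℝ) => Dc (p.1 + τ * (p.2 - p.1)))
  exact Dc_cont.comp (by fun_prop)

private theorem seg_cont (a b : ℝ) : Continuous fun τ : ℝ => Dc (a + τ * (b - a)) :=
  Dc_cont.comp (by fun_prop)

private theorem Sd_lip (a b a' b' : ℝ) : |Sd a b - Sd a' b'| ≤ |a - a'| + |b - b'| := by
  unfold Sd
  rw [← intervalIntegral.integral_sub ((seg_cont a b).intervalIntegrable _ _)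
    ((seg_cont a' b').intervalIntegrable _ _)]
  have h := intervalIntegral.norm_integral_le_of_norm_le_const (a := (0 : ℝ)) (b := 1)
    (f := fun τ => Dc (a + τ * (b - a)) - Dc (a' + τ * (b' - a'))) (C := |a - a'| + |b - b'|) ?_
  · simpa using h
  · intro τ hτ
    rw [uIoc_of_le zero_le_one] at hτ
    rw [Real.norm_eq_abs]
    refine (Dc_lip _ _).trans ?_
    have e : a + τ * (b - a) - (a' + τ * (b' - a')) = (1 - τ) * (a - a') + τ * (b - b') := by ring
    rw [e]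
    refine (abs_add_le _ _).trans ?_
    rw [abs_mul, abs_mul, abs_of_nonneg (by linarith [hτ.2] : (0 : ℝ) ≤ 1 - τ),
      abs_of_pos hτ.1]
    have h1 : (1 - τ) * |a - a'| ≤ 1 * |a - a'| :=
      mul_le_mul_of_nonneg_right (by linarith [hτ.1]) (abs_nonneg _)
    have h2 : τ * |b - b'| ≤ 1 * |b - b'| :=
      mul_le_mul_of_nonneg_right hτ.2 (abs_nonneg _)
    linarith

private theorem Sd_sub_one {a b c : ℝ} (ha : |a| ≤ c) (hb : |b| ≤ c) : |Sd a b - 1| ≤ c := by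
  unfold Sd
  have e : (1 : ℝ) = ∫ τ in (0 : ℝ)..1, (1 : ℝ) := by simp
  nth_rewrite 2 [e]
  rw [← intervalIntegral.integral_sub ((seg_cont a b).intervalIntegrable _ _)
    (continuous_const.intervalIntegrable _ _)]
  have h := intervalIntegral.norm_integral_le_of_norm_le_const (a := (0 : ℝ)) (b := 1)
    (f := fun τ => Dc (a + τ * (b - a)) - 1) (C := c) ?_
  · simpa using h
  · intro τ hτ
    rw [uIoc_of_le zero_le_one] at hτ
    rw [Real.norm_eq_abs, ← Dc_zero]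
    refine (Dc_lip _ _).trans ?_
    rw [sub_zero]
    have e : a + τ * (b - a) = (1 - τ) * a + τ * b := by ring
    rw [e]
    refine (abs_add_le _ _).trans ?_
    rw [abs_mul, abs_mul, abs_of_nonneg (by linarith [hτ.2] : (0 : ℝ) ≤ 1 - τ),
      abs_of_pos hτ.1]
    have h1 : (1 - τ) * |a| ≤ (1 - τ) * c :=
      mul_le_mul_of_nonneg_left ha (by linarith [hτ.2])
    have h2 : τ * |b| ≤ τ * c := mul_le_mul_of_nonneg_left hb hτ.1.le
    linarith

private theorem Sd_eq {a b : ℝ} (ha : |a| ≤ 1 / 2) (hb : |b| ≤ 1 / 2) :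
    arcsin b - arcsin a = (b - a) * Sd a b := by
  have hseg : ∀ τ ∈ uIcc (0 : ℝ) 1, |a + τ * (b - a)| ≤ 1 / 2 := by
    intro τ hτ
    rw [uIcc_of_le zero_le_one] at hτ
    have e : a + τ * (b - a) = (1 - τ) * a + τ * b := by ring
    rw [e]
    refine (abs_add_le _ _).trans ?_
    rw [abs_mul, abs_mul, abs_of_nonneg (by linarith [hτ.2] : (0 : ℝ) ≤ 1 - τ),
      abs_of_nonneg hτ.1]
    have h1 : (1 - τ) * |a| ≤ (1 - τ) * (1 / 2) :=
      mul_le_mul_of_nonneg_left ha (by linarith [hτ.2])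
    have h2 : τ * |b| ≤ τ * (1 / 2) := mul_le_mul_of_nonneg_left hb hτ.1
    linarith
  have hd : ∀ τ ∈ uIcc (0 : ℝ) 1, HasDerivAt (fun τ : ℝ => arcsin (a + τ * (b - a)))
      (Dc (a + τ * (b - a)) * (b - a)) τ := by
    intro τ hτ
    have h1 := hseg τ hτ
    have h2 := abs_le.1 h1
    have h3 : HasDerivAt (fun τ : ℝ => a + τ * (b - a)) (b - a) τ := by
      have := ((hasDerivAt_id τ).mul_const (b - a)).const_add a
      simpa using this
    have h4 := (hasDerivAt_arcsin (x := a + τ * (b - a)) (by linarith) (by linarith)).comp τ h3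
    unfold Dc
    rw [cl_eq h1]
    exact h4
  have h5 := intervalIntegral.integral_eq_sub_of_hasDerivAt hd
    (((seg_cont a b).mul continuous_const).intervalIntegrable _ _)
  rw [intervalIntegral.integral_mul_const] at h5
  simp only [one_mul, zero_mul, add_zero, add_sub_cancel] at h5
  rw [← h5]
  unfold Sd
  ring

/-- The factor `arcsin`-difference quotient minus one. -/
private noncomputable def Rf (x w : ℂ) (σ : ℝ) : ℝ := Sd (inn x σ) (inn w σ) - 1

private theorem Rf_cont (x w : ℂ) : Continuous (Rf x w) := by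
  unfold Rf
  have h1 : ∀ z : ℂ, Continuous fun σ : ℝ => inn z σ := fun z =>
    continuous_inn.comp (by fun_prop : Continuous fun σ : ℝ => (z, σ))
  exact (Sd_cont.comp ((h1 x).prodMk (h1 w))).sub continuous_const

private theorem Rf_le {x w : ℂ} {ε : ℝ} (hx : ‖x‖ ≤ ε) (hw : ‖w‖ ≤ ε) (σ : ℝ) :
    |Rf x w σ| ≤ ε :=
  Sd_sub_one ((abs_inn_le x σ).trans hx) ((abs_inn_le w σ).trans hw)

private theorem Rf_lip (x w x' w' : ℂ) (σ : ℝ) :
    |Rf x w σ - Rf x' w' σ| ≤ ‖x - x'‖ + ‖w - w'‖ := by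
  unfold Rf
  have e : Sd (inn x σ) (inn w σ) - 1 - (Sd (inn x' σ) (inn w' σ) - 1) =
      Sd (inn x σ) (inn w σ) - Sd (inn x' σ) (inn w' σ) := by ring
  rw [e]
  refine (Sd_lip _ _ _ _).trans ?_
  rw [← inn_sub, ← inn_sub]
  exact add_le_add (abs_inn_le _ _) (abs_inn_le _ _)

private noncomputable def Pf (c : ℝ → ℝ) (x w : ℂ) : ℂ := 2 * avgE (fun σ => c σ * Rf x w σ)

private theorem Pf_le {c : ℝ → ℝ} (hc : ∀ σ, |c σ| ≤ 1) {x w : ℂ} {ε : ℝ} (hx : ‖x‖ ≤ ε)
    (hw : ‖w‖ ≤ ε) : ‖Pf c x w‖ ≤ 2 * ε := by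
  unfold Pf
  rw [norm_mul]
  have h : ‖avgE (fun σ => c σ * Rf x w σ)‖ ≤ ε := by
    apply norm_avgE_le
    intro σ
    rw [abs_mul]
    calc |c σ| * |Rf x w σ| ≤ 1 * ε :=
          mul_le_mul (hc σ) (Rf_le hx hw σ) (abs_nonneg _) zero_le_one
      _ = ε := one_mul _
  simpa using h

private theorem Pf_lip {c : ℝ → ℝ} (hcc : Continuous c) (hc : ∀ σ, |c σ| ≤ 1) (x w x' w' : ℂ) :
    ‖Pf c x w - Pf c x' w'‖ ≤ 2 * (‖x - x'‖ + ‖w - w'‖) := by
  unfold Pf
  have hs := avgE_sub (f := fun σ => c σ * Rf x w σ) (g := fun σ => c σ * Rf x' w' σ)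
    ((hcc.mul (Rf_cont x w)).intervalIntegrable _ _)
    ((hcc.mul (Rf_cont x' w')).intervalIntegrable _ _)
  rw [← mul_sub, ← hs, norm_mul]
  have h : ‖avgE (fun σ => c σ * Rf x w σ - c σ * Rf x' w' σ)‖ ≤ ‖x - x'‖ + ‖w - w'‖ := by
    apply norm_avgE_le
    intro σ
    rw [← mul_sub, abs_mul]
    calc |c σ| * |Rf x w σ - Rf x' w' σ| ≤ 1 * (‖x - x'‖ + ‖w - w'‖) :=
          mul_le_mul (hc σ) (Rf_lip _ _ _ _ σ) (abs_nonneg _) zero_le_one
      _ = _ := one_mul _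
  simpa using h

private theorem key_eq {x w : ℂ} (hx : ‖x‖ ≤ 1 / 2) (hw : ‖w‖ ≤ 1 / 2) :
    2 * (zhC w - zhC x) - (w - x) = (w - x).re * Pf cos x w + (w - x).im * Pf sin x w := by
  have hg : ∀ z : ℂ, Continuous (gx z) := fun z =>
    continuous_gx.comp (by fun_prop : Continuous fun σ : ℝ => (z, σ))
  have hi : ∀ z : ℂ, Continuous (inn z) := fun z =>
    continuous_inn.comp (by fun_prop : Continuous fun σ : ℝ => (z, σ))
  have h1 : zhC w - zhC x = avgE (fun σ => gx w σ - gx x σ) := by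
    unfold zhC
    exact (avgE_sub ((hg w).intervalIntegrable _ _) ((hg x).intervalIntegrable _ _)).symm
  have h2 : w - x = 2 * avgE (inn (w - x)) := by
    rw [avgE_inn]
    push_cast
    ring
  have h3 : 2 * (zhC w - zhC x) - (w - x) =
      2 * avgE (fun σ => (gx w σ - gx x σ) - inn (w - x) σ) := by
    have hs := avgE_sub (f := fun σ => gx w σ - gx x σ) (g := fun σ => inn (w - x) σ)
      (((hg w).sub (hg x)).intervalIntegrable _ _) ((hi _).intervalIntegrable _ _)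
    rw [hs, h1]
    linear_combination -h2
  have h4 : (fun σ => (gx w σ - gx x σ) - inn (w - x) σ) =
      fun σ => (w - x).re * (cos σ * Rf x w σ) + (w - x).im * (sin σ * Rf x w σ) := by
    funext σ
    unfold gx
    rw [Sd_eq ((abs_inn_le x σ).trans hx) ((abs_inn_le w σ).trans hw), ← inn_sub]
    unfold Rf inn
    ring
  rw [h3, h4]
  unfold Pf avgE
  have c1 : Continuous fun σ : ℝ => (cos σ * Rf x w σ) • Complex.exp (σ * Complex.I) :=
    (continuous_cos.mul (Rf_cont x w)).smul (by fun_prop)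
  have c2 : Continuous fun σ : ℝ => (sin σ * Rf x w σ) • Complex.exp (σ * Complex.I) :=
    (continuous_sin.mul (Rf_cont x w)).smul (by fun_prop)
  have h5 : ∫ σ in (0 : ℝ)..2 * π, ((w - x).re * (cos σ * Rf x w σ) +
      (w - x).im * (sin σ * Rf x w σ)) • Complex.exp (σ * Complex.I) =
      ((w - x).re : ℂ) * (∫ σ in (0 : ℝ)..2 * π, (cos σ * Rf x w σ) • Complex.exp (σ * Complex.I)) +
      ((w - x).im : ℂ) *
        (∫ σ in (0 : ℝ)..2 * π, (sin σ * Rf x w σ) • Complex.exp (σ * Complex.I)) := by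
    rw [← intervalIntegral.integral_const_mul, ← intervalIntegral.integral_const_mul,
      ← intervalIntegral.integral_add]
    · apply intervalIntegral.integral_congr
      intro σ _
      simp only [Complex.real_smul]
      push_cast
      ring
    · exact (continuous_const.mul c1).intervalIntegrable _ _
    · exact (continuous_const.mul c2).intervalIntegrable _ _
  rw [h5]
  simp only [Complex.real_smul]
  ring

private theorem inn_key {x w : ℂ} (hx : ‖x‖ ≤ 1 / 2) (hw : ‖w‖ ≤ 1 / 2) (σ : ℝ) :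
    2 * inn (zhC w - zhC x) σ - inn (w - x) σ =
      inn (Pf cos x w) σ * (w - x).re + inn (Pf sin x w) σ * (w - x).im := by
  have h1 : 2 * inn (zhC w - zhC x) σ - inn (w - x) σ =
      inn (2 * (zhC w - zhC x) - (w - x)) σ := by
    rw [inn_sub (2 * (zhC w - zhC x)) (w - x)]
    have := inn_smul 2 (zhC w - zhC x) σ
    push_cast at this
    rw [this]
  rw [h1, key_eq hx hw, inn_add, inn_smul, inn_smul]
  ring

theorem err_z : ∃ C : ℝ, 0 < C ∧ ∀ (ε : ℝ) (K : NNReal) (X W : ℝ → ℂ), Curves ε K X W → ∀ σ : ℝ,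
    LP (fun θ => 2 * inn (zhC (W θ) - zhC (X θ)) σ - inn (du X W θ) σ) ∧
    hs (fun θ => 2 * inn (zhC (W θ) - zhC (X θ)) σ - inn (du X W θ) σ) ≤ C * ε ^ 2 * nu X W := by
  obtain ⟨C, hC, h⟩ := hs_multU
  refine ⟨C * 2 ^ 2, by positivity, fun ε K X W hD σ => ?_⟩
  have hx : ∀ θ, ‖X θ‖ ≤ 1 / 2 := fun θ => (hD.Xb θ).trans hD.le
  have hw : ∀ θ, ‖W θ‖ ≤ 1 / 2 := fun θ => (hD.Wb θ).trans hD.le
  have e : (fun θ => 2 * inn (zhC (W θ) - zhC (X θ)) σ - inn (du X W θ) σ) =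
      fun θ => inn (Pf cos (X θ) (W θ)) σ * (du X W θ).re +
        inn (Pf sin (X θ) (W θ)) σ * (du X W θ).im := by
    funext θ
    exact inn_key (hx θ) (hw θ) σ
  have b1 : ∀ θ, |inn (Pf cos (X θ) (W θ)) σ| ≤ 2 * ε := fun θ =>
    (abs_inn_le _ _).trans (Pf_le abs_cos_le_one (hD.Xb θ) (hD.Wb θ))
  have b2 : ∀ θ, |inn (Pf sin (X θ) (W θ)) σ| ≤ 2 * ε := fun θ =>
    (abs_inn_le _ _).trans (Pf_le abs_sin_le_one (hD.Xb θ) (hD.Wb θ))
  have l1 : ∀ θ θ', |inn (Pf cos (X θ) (W θ)) σ - inn (Pf cos (X θ') (W θ')) σ| ≤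
      2 * (‖X θ - X θ'‖ + ‖W θ - W θ'‖) := by
    intro θ θ'
    rw [← inn_sub]
    exact (abs_inn_le _ _).trans (Pf_lip continuous_cos abs_cos_le_one _ _ _ _)
  have l2 : ∀ θ θ', |inn (Pf sin (X θ) (W θ)) σ - inn (Pf sin (X θ') (W θ')) σ| ≤
      2 * (‖X θ - X θ'‖ + ‖W θ - W θ'‖) := by
    intro θ θ'
    rw [← inn_sub]
    exact (abs_inn_le _ _).trans (Pf_lip continuous_sin abs_sin_le_one _ _ _ _)
  rw [e]
  exact ⟨LP_mul_add hD (by norm_num) b1 b2 l1 l2, h ε K X W hD 2 _ _ (by norm_num) b1 b2 l1 l2⟩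

theorem mean_u : ∃ C : ℝ, 0 < C ∧ ∀ (ε : ℝ) (K : NNReal) (X W : ℝ → ℂ), Curves ε K X W →
    (∫ θ in (0 : ℝ)..2 * π, (zhC (W θ) - zhC (X θ))) = 0 →
    ‖cf (du X W) 0‖ ^ 2 ≤ C * ε ^ 2 * nu X W := by
  refine ⟨16, by norm_num, fun ε K X W hD h0 => ?_⟩
  have hx : ∀ θ, ‖X θ‖ ≤ 1 / 2 := fun θ => (hD.Xb θ).trans hD.le
  have hw : ∀ θ, ‖W θ‖ ≤ 1 / 2 := fun θ => (hD.Wb θ).trans hD.le
  have hu : LipschitzWith (K + K) (du X W) := hD.WL.sub hD.XL
  have hup : ∀ θ, du X W (θ + 2 * π) = du X W θ := by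
    intro θ
    unfold du
    rw [hD.Xp, hD.Wp]
  have huc := hu.continuous
  -- continuity of `zhC ∘ X`
  have hzc : ∀ Y : ℝ → ℂ, Continuous Y → (∀ θ, ‖Y θ‖ ≤ 1 / 2) → Continuous fun θ => zhC (Y θ) := by
    intro Y hY hb
    rw [continuous_iff_continuousAt]
    intro θ
    rw [ContinuousAt, tendsto_iff_dist_tendsto_zero]
    have h1 : Filter.Tendsto (fun t => 2 * dist (Y t) (Y θ)) (nhds θ) (nhds 0) := by
      have := (tendsto_iff_dist_tendsto_zero.1 (hY.tendsto θ)).const_mul 2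
      simpa using this
    refine squeeze_zero (fun _ => dist_nonneg) (fun t => ?_) h1
    rw [dist_eq_norm, dist_eq_norm]
    exact zhC_lip (hb t) (hb θ)
  have hvc : Continuous fun θ => zhC (W θ) - zhC (X θ) :=
    (hzc W hD.WL.continuous hw).sub (hzc X hD.XL.continuous hx)
  have e1 : ∫ θ in (0 : ℝ)..2 * π, (2 * (zhC (W θ) - zhC (X θ)) - du X W θ) =
      -∫ θ in (0 : ℝ)..2 * π, du X W θ := by
    have hvc2 : Continuous fun θ => 2 * (zhC (W θ) - zhC (X θ)) := continuous_const.mul hvc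
    rw [intervalIntegral.integral_sub (hvc2.intervalIntegrable _ _)
      (huc.intervalIntegrable _ _), intervalIntegral.integral_const_mul, h0]
    ring
  have hb : ∀ θ, ‖2 * (zhC (W θ) - zhC (X θ)) - du X W θ‖ ≤ 4 * ε * ‖du X W θ‖ := by
    intro θ
    have e2 := key_eq (hx θ) (hw θ)
    unfold du
    rw [e2]
    have n1 := Pf_le abs_cos_le_one (hD.Xb θ) (hD.Wb θ)
    have n2 := Pf_le abs_sin_le_one (hD.Xb θ) (hD.Wb θ)
    have m1 := Complex.abs_re_le_norm (W θ - X θ)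
    have m2 := Complex.abs_im_le_norm (W θ - X θ)
    refine (norm_add_le _ _).trans ?_
    rw [norm_mul, norm_mul, Complex.norm_real, Complex.norm_real, Real.norm_eq_abs,
      Real.norm_eq_abs]
    have k1 : |(W θ - X θ).re| * ‖Pf cos (X θ) (W θ)‖ ≤ ‖W θ - X θ‖ * (2 * ε) :=
      mul_le_mul m1 n1 (norm_nonneg _) (norm_nonneg _)
    have k2 : |(W θ - X θ).im| * ‖Pf sin (X θ) (W θ)‖ ≤ ‖W θ - X θ‖ * (2 * ε) :=
      mul_le_mul m2 n2 (norm_nonneg _) (norm_nonneg _)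
    linarith
  have e3 : ‖∫ θ in (0 : ℝ)..2 * π, du X W θ‖ ≤ 4 * ε * ∫ θ in (0 : ℝ)..2 * π, ‖du X W θ‖ := by
    rw [← norm_neg, ← e1, ← intervalIntegral.integral_const_mul]
    refine (intervalIntegral.norm_integral_le_integral_norm hpi.le).trans ?_
    apply intervalIntegral.integral_mono_on hpi.le
    · exact (((continuous_const.mul hvc).sub huc).norm).intervalIntegrable _ _
    · exact (continuous_const.mul huc.norm).intervalIntegrable _ _
    · intro θ _
      exact hb θ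
  have e4 : cf (du X W) 0 = ((2 * π)⁻¹ : ℝ) • ∫ θ in (0 : ℝ)..2 * π, du X W θ := by
    unfold cf
    congr 1
    apply intervalIntegral.integral_congr
    intro θ _
    simp
  set m : ℝ := (2 * π)⁻¹ * ∫ θ in (0 : ℝ)..2 * π, ‖du X W θ‖ with hm
  have hm0 : 0 ≤ m := by
    apply mul_nonneg (inv_pos.2 hpi).le
    exact intervalIntegral.integral_nonneg hpi.le fun _ _ => norm_nonneg _
  have e5 : ‖cf (du X W) 0‖ ≤ 4 * ε * m := by
    rw [e4, norm_smul, Real.norm_eq_abs, abs_of_pos (inv_pos.2 hpi), hm]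
    calc (2 * π)⁻¹ * ‖∫ θ in (0 : ℝ)..2 * π, du X W θ‖
        ≤ (2 * π)⁻¹ * (4 * ε * ∫ θ in (0 : ℝ)..2 * π, ‖du X W θ‖) :=
          mul_le_mul_of_nonneg_left e3 (inv_pos.2 hpi).le
      _ = _ := by ring
  have e6 : m ^ 2 ≤ nu X W := by
    have h1 : 0 ≤ ∫ θ in (0 : ℝ)..2 * π, (‖du X W θ‖ - m) ^ 2 :=
      intervalIntegral.integral_nonneg hpi.le fun _ _ => sq_nonneg _
    have h2 : ∫ θ in (0 : ℝ)..2 * π, (‖du X W θ‖ - m) ^ 2 =
        (∫ θ in (0 : ℝ)..2 * π, ‖du X W θ‖ ^ 2) - 2 * m * (∫ θ in (0 : ℝ)..2 * π, ‖du X W θ‖) +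
          ∫ θ in (0 : ℝ)..2 * π, m ^ 2 := by
      rw [← intervalIntegral.integral_const_mul, ← intervalIntegral.integral_sub,
        ← intervalIntegral.integral_add]
      · apply intervalIntegral.integral_congr
        intro θ _
        simp only
        ring
      · exact ((huc.norm.pow 2).sub (continuous_const.mul huc.norm)).intervalIntegrable _ _
      · exact continuous_const.intervalIntegrable _ _
      · exact (huc.norm.pow 2).intervalIntegrable _ _
      · exact (continuous_const.mul huc.norm).intervalIntegrable _ _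
    have h3 : ∫ θ in (0 : ℝ)..2 * π, ‖du X W θ‖ = 2 * π * m := by
      rw [hm]
      field_simp
    rw [h2, h3, intervalIntegral.integral_const, smul_eq_mul, sub_zero] at h1
    have h4 := l2_le hu hup
    have h5 : 2 * π * m ^ 2 ≤ 2 * π * nu X W := by
      unfold nu
      nlinarith
    exact le_of_mul_le_mul_left h5 hpi
  calc ‖cf (du X W) 0‖ ^ 2 ≤ (4 * ε * m) ^ 2 := pow_le_pow_left₀ (norm_nonneg _) e5 2
    _ = 16 * ε ^ 2 * m ^ 2 := by ring
    _ ≤ 16 * ε ^ 2 * nu X W := mul_le_mul_of_nonneg_left e6 (by positivity)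

end Pool.Agent.CC57
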