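import Mathlib

set_option autoImplicit false

/-!
The functions `F P : X → ℝ`.  Write `ρ s t = arccos ⟨s,t⟩` on the unit sphere; it is symmetric, satisfies
the triangle inequality (`InnerProductGeometry.angle`, `angle_le_angle_add_angle`), `0 ≤ ρ ≤ π`, and
`ρ s (-t) = π - ρ s t`.  For `P x : X` put
`β P t = inf_{t'} (d(γ t', P) + ρ t' t)`,
`D₊ P x = min (d(x,P)) (inf_t (d(x, γ t) + β P t))`, `D₋ P x = inf_t (d(x, γ t) + β P (-t))`,
`F P x = max (-π/2) (min (π/2) ((D₋ P x - D₊ P x)/2))`.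
All infima are over a nonempty type, of nonnegative functions.
(a) `β P` is 1-Lipschitz for `ρ`, `|β P t - β Q t| ≤ d(P,Q)`; `D₊`, `D₋` are 1-Lipschitz in `x` and in `P`,
    so `F` is 1-Lipschitz in `x` and in `P`.
(b) `β P t + β P (-t) ≥ π`: `d(γ t',P) + ρ t' t + d(γ t'',P) + ρ t'' (-t) ≥ d(γ t', γ t'') + ρ t' t +
    ρ t'' (-t) ≥ ρ t' t'' + ... ≥ ρ t (-t) = π`.
(c) `D₊ P (γ t) = β P t`: `β P t ≤ d(γ t,P)` (`t' = t`), `d(γ t, γ t') + β P t' ≥ ρ t t' + β P t' ≥ β P t`, with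
    equality for `t' = t`.  In the same way `D₋ P (γ t) = β P (-t)`.  So
    `F P (γ (-t)) = -F P (γ t)`.
(d) `F P P = π/2`: `D₊ P P = 0` and `D₋ P P = inf_t (d(P,γ t) + β P (-t)) ≥ inf_t (β P t + β P (-t)) ≥ π`.
(e) `F (γ (-s)) x = -F (γ s) x`: `β (γ s) t = ρ s t` (as `d(γ t', γ s) + ρ t' t ≥ ρ t' s + ρ t' t ≥ ρ s t`),
    `D₊ (γ s) x = inf_t (d(x,γ t) + ρ s t)` (the value at `t = s` is `d(x, γ s)`) and
    `D₋ (γ s) x = inf_t (d(x,γ t) + ρ s (-t)) = inf_t (d(x,γ t) + ρ (-s) t)`, so `D₊ (γ (-s)) = D₋ (γ s)`,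
    `D₋ (γ (-s)) = D₊ (γ s)`.
Mathlib only.
-/

open Real Set

open scoped RealInnerProductSpace

namespace Pool.Agent.CC57

namespace FD

/-- The unit circle. -/
abbrev S1 : Type := Metric.sphere (0 : EuclideanSpace ℝ (Fin 2)) 1

/-- The spherical distance. -/
noncomputable def rho (s t : S1) : ℝ :=
  arccos ⟪(s : EuclideanSpace ℝ (Fin 2)), (t : EuclideanSpace ℝ (Fin 2))⟫

theorem rho_eq_angle (s t : S1) : rho s t =
    InnerProductGeometry.angle (s : EuclideanSpace ℝ (Fin 2)) (t : EuclideanSpace ℝ (Fin 2)) := by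
  have hs : ‖(s : EuclideanSpace ℝ (Fin 2))‖ = 1 := by simp
  have ht : ‖(t : EuclideanSpace ℝ (Fin 2))‖ = 1 := by simp
  rw [rho, InnerProductGeometry.angle, hs, ht]
  simp

theorem rho_nonneg (s t : S1) : 0 ≤ rho s t := arccos_nonneg _

theorem rho_symm (s t : S1) : rho s t = rho t s := by
  rw [rho, rho, real_inner_comm]

theorem rho_self (s : S1) : rho s s = 0 := by
  have hs : ‖(s : EuclideanSpace ℝ (Fin 2))‖ = 1 := by simp
  rw [rho, real_inner_self_eq_norm_sq, hs]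
  simp

theorem rho_neg (s t : S1) : rho s (-t) = π - rho s t := by
  have h : ((-t : S1) : EuclideanSpace ℝ (Fin 2)) = -(t : EuclideanSpace ℝ (Fin 2)) := rfl
  rw [rho, rho, h, inner_neg_right, arccos_neg]

theorem rho_tri (s t u : S1) : rho s u ≤ rho s t + rho t u := by
  rw [rho_eq_angle, rho_eq_angle, rho_eq_angle]
  exact InnerProductGeometry.angle_le_angle_add_angle _ _ _

theorem rho_neg_neg (s t : S1) : rho s (-t) = rho (-s) t := by
  rw [rho_neg, rho_symm (-s) t, rho_neg, rho_symm t s]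

instance : Nonempty S1 := by
  have : (EuclideanSpace.single (0 : Fin 2) (1 : ℝ)) ∈
      Metric.sphere (0 : EuclideanSpace ℝ (Fin 2)) 1 := by simp
  exact ⟨⟨_, this⟩⟩

theorem bdd {ι : Sort*} {f : ι → ℝ} (h : ∀ i, 0 ≤ f i) : BddBelow (Set.range f) :=
  ⟨0, by rintro _ ⟨i, rfl⟩; exact h i⟩

variable {X : Type} [MetricSpace X]

/-- The function `β`. -/
noncomputable def beta (γ : S1 → X) (P : X) (t : S1) : ℝ := ⨅ t', (dist (γ t') P + rho t' t)

/-- The function `D₋` for a general `b : S1 → ℝ`. -/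
noncomputable def DD (γ : S1 → X) (b : S1 → ℝ) (x : X) : ℝ := ⨅ t, (dist x (γ t) + b t)

/-- The function `D₊`. -/
noncomputable def Dp (γ : S1 → X) (P x : X) : ℝ := min (dist x P) (DD γ (beta γ P) x)

/-- The function `D₋`. -/
noncomputable def Dm (γ : S1 → X) (P x : X) : ℝ := DD γ (fun t => beta γ P (-t)) x

/-- The clamp. -/
noncomputable def clamp (a : ℝ) : ℝ := max (-(π / 2)) (min (π / 2) a)

/-- The function `F`. -/
noncomputable def FF (γ : S1 → X) (P x : X) : ℝ := clamp ((Dm γ P x - Dp γ P x) / 2)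

theorem clamp_lip (a b : ℝ) : |clamp a - clamp b| ≤ |a - b| := by
  unfold clamp
  refine (abs_max_sub_max_le_max _ _ _ _).trans ?_
  rw [sub_self, abs_zero, max_eq_right (abs_nonneg _)]
  refine (abs_min_sub_min_le_max _ _ _ _).trans ?_
  rw [sub_self, abs_zero, max_eq_right (abs_nonneg _)]

theorem clamp_neg (a : ℝ) : clamp (-a) = -clamp a := by
  unfold clamp
  have hp : 0 < π := pi_pos
  rcases le_total a (-(π / 2)) with h | h
  · rw [min_eq_left (by linarith), min_eq_right (by linarith), max_eq_left h, max_eq_right (by linarith)]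
    ring
  · rcases le_total a (π / 2) with h' | h'
    · rw [min_eq_right (by linarith), min_eq_right h', max_eq_right (by linarith), max_eq_right h]
    · rw [min_eq_right (by linarith), min_eq_left h', max_eq_left (by linarith),
        max_eq_right (by linarith)]

theorem clamp_abs (a : ℝ) : |clamp a| ≤ π / 2 := by
  unfold clamp
  have hp : 0 < π := pi_pos
  rw [abs_le]
  refine ⟨le_max_left _ _, max_le (by linarith) (min_le_left _ _)⟩

theorem clamp_big {a : ℝ} (h : π / 2 ≤ a) : clamp a = π / 2 := by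
  unfold clamp
  have hp : 0 < π := pi_pos
  rw [min_eq_left h, max_eq_right (by linarith)]

theorem beta_nonneg (γ : S1 → X) (P : X) (t : S1) : 0 ≤ beta γ P t :=
  Real.iInf_nonneg fun t' => add_nonneg dist_nonneg (rho_nonneg _ _)

theorem beta_le (γ : S1 → X) (P : X) (t t' : S1) : beta γ P t ≤ dist (γ t') P + rho t' t :=
  ciInf_le (bdd fun t' => add_nonneg dist_nonneg (rho_nonneg _ _)) t'

theorem beta_lipt (γ : S1 → X) (P : X) (t u : S1) : beta γ P t ≤ beta γ P u + rho u t := by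
  rw [← sub_le_iff_le_add]
  refine le_ciInf fun t' => ?_
  have h1 := beta_le γ P t t'
  have h2 := rho_tri t' u t
  linarith

theorem beta_lipP (γ : S1 → X) (P Q : X) (t : S1) : beta γ P t ≤ beta γ Q t + dist P Q := by
  rw [← sub_le_iff_le_add]
  refine le_ciInf fun t' => ?_
  have h1 := beta_le γ P t t'
  have h2 := dist_triangle (γ t') Q P
  rw [dist_comm Q P] at h2
  linarith

theorem DD_le (γ : S1 → X) {b : S1 → ℝ} (hb : ∀ t, 0 ≤ b t) (x : X) (t : S1) :
    DD γ b x ≤ dist x (γ t) + b t :=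
  ciInf_le (bdd fun t => add_nonneg dist_nonneg (hb t)) t

theorem DD_lipx (γ : S1 → X) {b : S1 → ℝ} (hb : ∀ t, 0 ≤ b t) (x x' : X) :
    DD γ b x ≤ DD γ b x' + dist x x' := by
  rw [← sub_le_iff_le_add]
  refine le_ciInf fun t => ?_
  have h1 := DD_le γ hb x t
  have h2 := dist_triangle x x' (γ t)
  linarith

theorem DD_lipb (γ : S1 → X) {b b' : S1 → ℝ} (hb : ∀ t, 0 ≤ b t) (x : X) {c : ℝ}
    (h : ∀ t, b t ≤ b' t + c) : DD γ b x ≤ DD γ b' x + c := by
  rw [← sub_le_iff_le_add]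
  refine le_ciInf fun t => ?_
  have h1 := DD_le γ hb x t
  have h2 := h t
  linarith

theorem Dp_lipx (γ : S1 → X) (P x x' : X) : Dp γ P x ≤ Dp γ P x' + dist x x' := by
  unfold Dp
  rw [← min_add_add_right]
  refine min_le_min ?_ (DD_lipx γ (beta_nonneg γ P) x x')
  have := dist_triangle x x' P
  linarith

theorem Dp_lipP (γ : S1 → X) (P Q x : X) : Dp γ P x ≤ Dp γ Q x + dist P Q := by
  unfold Dp
  rw [← min_add_add_right]
  refine min_le_min ?_ (DD_lipb γ (beta_nonneg γ P) x fun t => beta_lipP γ P Q t)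
  have := dist_triangle x Q P
  rw [dist_comm Q P] at this
  linarith

theorem Dm_lipx (γ : S1 → X) (P x x' : X) : Dm γ P x ≤ Dm γ P x' + dist x x' :=
  DD_lipx γ (fun t => beta_nonneg γ P (-t)) x x'

theorem Dm_lipP (γ : S1 → X) (P Q x : X) : Dm γ P x ≤ Dm γ Q x + dist P Q :=
  DD_lipb γ (fun t => beta_nonneg γ P (-t)) x fun t => beta_lipP γ P Q (-t)

theorem FF_lipx (γ : S1 → X) (P x x' : X) : |FF γ P x - FF γ P x'| ≤ dist x x' := by
  refine (clamp_lip _ _).trans ?_
  have h1 := Dp_lipx γ P x x'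
  have h2 := Dp_lipx γ P x' x
  have h3 := Dm_lipx γ P x x'
  have h4 := Dm_lipx γ P x' x
  rw [dist_comm x' x] at h2 h4
  rw [abs_le]
  constructor <;> linarith

theorem FF_lipP (γ : S1 → X) (P Q x : X) : |FF γ P x - FF γ Q x| ≤ dist P Q := by
  refine (clamp_lip _ _).trans ?_
  have h1 := Dp_lipP γ P Q x
  have h2 := Dp_lipP γ Q P x
  have h3 := Dm_lipP γ P Q x
  have h4 := Dm_lipP γ Q P x
  rw [dist_comm Q P] at h2 h4
  rw [abs_le]
  constructor <;> linarith

section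
variable {γ : S1 → X} (hγ : ∀ s t : S1, rho s t ≤ dist (γ s) (γ t))
include hγ

theorem beta_add (P : X) (t : S1) : π ≤ beta γ P t + beta γ P (-t) := by
  rw [← sub_le_iff_le_add]
  refine le_ciInf fun t' => ?_
  rw [sub_le_iff_le_add, ← sub_le_iff_le_add']
  refine le_ciInf fun t'' => ?_
  have h1 := dist_triangle (γ t') P (γ t'')
  rw [dist_comm P] at h1
  have h2 := hγ t' t''
  have h3 := rho_tri t t' (-t)
  have h4 := rho_tri t' t'' (-t)
  have h5 := rho_neg t t
  rw [rho_self] at h5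
  rw [rho_symm t t'] at h3
  linarith

theorem DD_gamma {b : S1 → ℝ} (hb : ∀ t, 0 ≤ b t) (hl : ∀ t u, b t ≤ b u + rho u t) (t : S1) :
    DD γ b (γ t) = b t := by
  refine le_antisymm ?_ ?_
  · have := DD_le γ hb (γ t) t
    rwa [dist_self, zero_add] at this
  · refine le_ciInf fun u => ?_
    have h1 := hl t u
    have h2 := hγ u t
    rw [dist_comm] at h2
    linarith

theorem Dp_gamma (P : X) (t : S1) : Dp γ P (γ t) = beta γ P t := by
  unfold Dp
  rw [DD_gamma hγ (beta_nonneg γ P) (beta_lipt γ P) t, min_eq_right]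
  have := beta_le γ P t t
  rwa [rho_self, add_zero] at this

theorem Dm_gamma (P : X) (t : S1) : Dm γ P (γ t) = beta γ P (-t) := by
  unfold Dm
  rw [DD_gamma hγ (fun t => beta_nonneg γ P (-t)) _ t]
  intro t u
  have h := beta_lipt γ P (-t) (-u)
  have h2 : rho (-u) (-t) = rho u t := by rw [← rho_neg_neg, neg_neg]
  rwa [h2] at h

theorem FF_gamma_neg (P : X) (s : S1) : FF γ P (γ (-s)) = -FF γ P (γ s) := by
  unfold FF
  rw [Dp_gamma hγ, Dp_gamma hγ, Dm_gamma hγ, Dm_gamma hγ, neg_neg, ← clamp_neg]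
  congr 1
  ring

theorem FF_self (P : X) : FF γ P P = π / 2 := by
  refine clamp_big ?_
  have h1 : Dp γ P P ≤ 0 := by
    unfold Dp
    exact (min_le_left _ _).trans (by rw [dist_self])
  have h2 : π ≤ Dm γ P P := by
    refine le_ciInf fun t => ?_
    have h3 := beta_add hγ P t
    have h4 := beta_le γ P t t
    rw [rho_self, add_zero] at h4
    have h5 := dist_comm P (γ t)
    linarith
  linarith

theorem beta_gamma (s t : S1) : beta γ (γ s) t = rho s t := by
  refine le_antisymm ?_ ?_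
  · have := beta_le γ (γ s) t s
    rwa [dist_self, zero_add] at this
  · refine le_ciInf fun t' => ?_
    have h1 := hγ t' s
    have h2 := rho_tri s t' t
    rw [rho_symm s t'] at h2
    linarith

theorem Dp_of_gamma (s : S1) (x : X) : Dp γ (γ s) x = DD γ (rho s) x := by
  unfold Dp
  have h : beta γ (γ s) = rho s := funext (beta_gamma hγ s)
  rw [h, min_eq_right]
  have := DD_le γ (rho_nonneg s) x s
  rwa [rho_self, add_zero] at this

theorem Dm_of_gamma (s : S1) (x : X) : Dm γ (γ s) x = DD γ (rho (-s)) x := by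
  unfold Dm
  have h : (fun t => beta γ (γ s) (-t)) = rho (-s) := by
    funext t
    rw [beta_gamma hγ, rho_neg_neg]
  rw [h]

theorem FF_neg_gamma (s : S1) (x : X) : FF γ (γ (-s)) x = -FF γ (γ s) x := by
  unfold FF
  rw [Dp_of_gamma hγ, Dp_of_gamma hγ, Dm_of_gamma hγ, Dm_of_gamma hγ, neg_neg, ← clamp_neg]
  congr 1
  ring

end

end FD

theorem exists_F {X : Type} [MetricSpace X]
    {γ : Metric.sphere (0 : EuclideanSpace ℝ (Fin 2)) 1 → X}
    (hγ : ∀ s t : Metric.sphere (0 : EuclideanSpace ℝ (Fin 2)) 1,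
      arccos ⟪(s : EuclideanSpace ℝ (Fin 2)), (t : EuclideanSpace ℝ (Fin 2))⟫ ≤
        dist (γ s) (γ t)) :
    ∃ F : X → X → ℝ, (∀ P x x', |F P x - F P x'| ≤ dist x x') ∧
      (∀ P P' x, |F P x - F P' x| ≤ dist P P') ∧ (∀ P, F P P = π / 2) ∧
      (∀ P s, F P (γ (-s)) = -F P (γ s)) ∧ (∀ s x, F (γ (-s)) x = -F (γ s) x) ∧
      (∀ P x, |F P x| ≤ π / 2) := by
  exact ⟨FD.FF γ, FD.FF_lipx γ, FD.FF_lipP γ, FD.FF_self hγ, FD.FF_gamma_neg hγ,
    FD.FF_neg_gamma hγ, fun P x => FD.clamp_abs _⟩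

end Pool.Agent.CC57
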