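import Pool.Agent.CC57.PhiS

set_option autoImplicit false

/-!
The family `φ σ z = Phi (p σ) (cl z)`, `cl z = max (-y) (min (Re z) y) + i Im z`, `0 < y < L`.
* Joint continuity: `|φ σ z - φ σ' z'| ≤ M ‖p σ - p σ'‖ + M ‖z - z'‖` (`Phi_seg`, `Phi_seg_p`,
  `lam ≤ M` on the strip, `cl` is 1-Lipschitz).
* `grad`: for `|Re z| < y`, `φ σ = Phi (p σ)` near `z`; `norm_fderiv_le_of_pt`, `Phi_pt` (the strip
  `|Re| ≤ L` is a neighbourhood of `z`).
* `per`, `anti`, `pole`: `Phi_per`, `Phi_tau` (`cl (tau z) = tau (cl z)` for `|Re z| ≤ y`), `Phi_self`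
  (`|Re p σ| ≤ 1 ≤ y`).
-/

open Real Set MeasureTheory

namespace Pool.Agent.CC57

variable {X : Type} [MetricSpace X]

/-- The clamp of the real part. -/
noncomputable def cl (y : ℝ) (z : ℂ) : ℂ := (max (-y) (min z.re y) : ℝ) + z.im * Complex.I

private theorem cl_re (y : ℝ) (z : ℂ) : (cl y z).re = max (-y) (min z.re y) := by
  simp [cl]

private theorem cl_im (y : ℝ) (z : ℂ) : (cl y z).im = z.im := by
  simp [cl]

private theorem cl_abs {y : ℝ} (hy : 0 ≤ y) (z : ℂ) : |(cl y z).re| ≤ y := by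
  rw [cl_re, abs_le]
  exact ⟨le_max_left _ _, max_le (by linarith) (min_le_right _ _)⟩

private theorem cl_eq {y : ℝ} {z : ℂ} (h : |z.re| ≤ y) : cl y z = z := by
  obtain ⟨h1, h2⟩ := abs_le.1 h
  apply Complex.ext
  · rw [cl_re, min_eq_left h2, max_eq_right h1]
  · rw [cl_im]

private theorem cl_cont (y : ℝ) : Continuous (cl y) := by
  unfold cl
  have h1 : Continuous fun z : ℂ => max (-y) (min z.re y) :=
    continuous_const.max (Complex.continuous_re.min continuous_const)
  exact (Complex.continuous_ofReal.comp h1).add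
    ((Complex.continuous_ofReal.comp Complex.continuous_im).mul continuous_const)

private theorem cl_lip (y : ℝ) (z w : ℂ) : ‖cl y z - cl y w‖ ≤ ‖z - w‖ := by
  have h1 : |(cl y z - cl y w).re| ≤ |(z - w).re| := by
    rw [Complex.sub_re, Complex.sub_re, cl_re, cl_re]
    have h2 := abs_max_sub_max_le_max (-y) (min z.re y) (-y) (min w.re y)
    have h3 := abs_min_sub_min_le_max z.re y w.re y
    rw [sub_self, abs_zero] at h2 h3
    have h4 : |min z.re y - min w.re y| ≤ |z.re - w.re| :=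
      h3.trans (max_le le_rfl (abs_nonneg _))
    exact h2.trans (max_le (abs_nonneg _) h4)
  have h2 : (cl y z - cl y w).im = (z - w).im := by
    rw [Complex.sub_im, Complex.sub_im, cl_im, cl_im]
  have h3 : ‖cl y z - cl y w‖ ^ 2 ≤ ‖z - w‖ ^ 2 := by
    rw [Complex.sq_norm, Complex.sq_norm, Complex.normSq_apply, Complex.normSq_apply, h2]
    have h4 := sq_le_sq.2 h1
    nlinarith
  exact (sq_le_sq₀ (norm_nonneg _) (norm_nonneg _)).1 h3

private theorem int_le {lam : ℂ → ℝ} (hc : Continuous lam) {L M : ℝ}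
    (hM : ∀ z : ℂ, |z.re| ≤ L → lam z ≤ M) {z w : ℂ} (hz : |z.re| ≤ L) (hw : |w.re| ≤ L) :
    (∫ t in (0 : ℝ)..1, lam (z + t * (w - z))) ≤ M := by
  have hcont : Continuous fun t : ℝ => lam (z + t * (w - z)) := by
    refine hc.comp ?_
    fun_prop
  have h := intervalIntegral.integral_mono_on (μ := volume) (a := 0) (b := 1)
    (f := fun t : ℝ => lam (z + t * (w - z))) (g := fun _ => M) zero_le_one
    (hcont.intervalIntegrable _ _) (continuous_const.intervalIntegrable _ _) (fun t ht => by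
      refine hM _ ?_
      have e : (z + t * (w - z)).re = (1 - t) * z.re + t * w.re := by
        simp
        ring
      rw [e]
      have h1 : |(1 - t) * z.re| ≤ (1 - t) * L := by
        rw [abs_mul, abs_of_nonneg (sub_nonneg.2 ht.2)]
        exact mul_le_mul_of_nonneg_left hz (sub_nonneg.2 ht.2)
      have h2 : |t * w.re| ≤ t * L := by
        rw [abs_mul, abs_of_nonneg ht.1]
        exact mul_le_mul_of_nonneg_left hw ht.1
      have h3 := abs_add_le ((1 - t) * z.re) (t * w.re)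
      linarith)
  simpa using h

theorem isFam {γ : Metric.sphere (0 : EuclideanSpace ℝ (Fin 2)) 1 → X} {F : X → X → ℝ}
    {L H : ℝ} {lam : ℂ → ℝ} {D : Set ℂ} {Ψ : ℂ → X} (hC : IsCollar γ L H lam D Ψ)
    (hF : IsF γ F) {y : ℝ} (hy : 1 ≤ y) (hyL : y < L) {p : ℝ → ℂ} (hp : Continuous p)
    (hp1 : ∀ σ, |(p σ).re| ≤ 1) :
    ∃ K : NNReal, IsFam y K lam p (fun σ z => Phi F D Ψ (p σ) (cl y z)) := by
  obtain ⟨M, hM0, hM⟩ := exists_lam_bound hC
  have hy0 : 0 ≤ y := by linarith
  have hcl : ∀ z : ℂ, |(cl y z).re| ≤ L := fun z => (cl_abs hy0 z).trans hyL.le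
  have hpL : ∀ σ, |(p σ).re| ≤ L := fun σ => (hp1 σ).trans (by linarith)
  have hlz : ∀ σ z w, |Phi F D Ψ (p σ) (cl y z) - Phi F D Ψ (p σ) (cl y w)| ≤
      M * ‖cl y z - cl y w‖ := by
    intro σ z w
    refine (Phi_seg hC hF (p σ) (hcl w) (hcl z)).trans ?_
    exact mul_le_mul_of_nonneg_right (int_le hC.lam_cont hM (hcl w) (hcl z)) (norm_nonneg _)
  have hlp : ∀ σ σ' z, |Phi F D Ψ (p σ) (cl y z) - Phi F D Ψ (p σ') (cl y z)| ≤
      M * ‖p σ - p σ'‖ := by
    intro σ σ' z
    refine (Phi_seg_p hC hF (hpL σ') (hpL σ) (cl y z)).trans ?_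
    exact mul_le_mul_of_nonneg_right (int_le hC.lam_cont hM (hpL σ') (hpL σ)) (norm_nonneg _)
  refine ⟨⟨M, hM0⟩, ?_, ?_, ?_, ?_, ?_, ?_⟩
  · rw [continuous_iff_continuousAt]
    rintro ⟨σ0, z0⟩
    rw [ContinuousAt, tendsto_iff_dist_tendsto_zero]
    have hg : Continuous fun q : ℝ × ℂ => M * ‖cl y q.2 - cl y z0‖ + M * ‖p q.1 - p σ0‖ :=
      (continuous_const.mul (((cl_cont y).comp continuous_snd).sub continuous_const).norm).add
        (continuous_const.mul ((hp.comp continuous_fst).sub continuous_const).norm)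
    have h2 := hg.tendsto (σ0, z0)
    simp only [sub_self, norm_zero, mul_zero, add_zero] at h2
    refine squeeze_zero (fun _ => dist_nonneg) (fun q => ?_) h2
    show dist (Phi F D Ψ (p q.1) (cl y q.2)) (Phi F D Ψ (p σ0) (cl y z0)) ≤ _
    rw [Real.dist_eq]
    have h3 := hlz q.1 q.2 z0
    have h4 := hlp q.1 σ0 z0
    have h5 := abs_add_le (Phi F D Ψ (p q.1) (cl y q.2) - Phi F D Ψ (p q.1) (cl y z0))
      (Phi F D Ψ (p q.1) (cl y z0) - Phi F D Ψ (p σ0) (cl y z0))
    rw [sub_add_sub_cancel] at h5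
    linarith
  · intro σ
    refine LipschitzWith.of_dist_le_mul fun z w => ?_
    rw [Real.dist_eq, dist_eq_norm]
    refine (hlz σ z w).trans ?_
    exact mul_le_mul_of_nonneg_left (cl_lip y z w) hM0
  · intro σ z hz
    refine norm_fderiv_le_of_pt (hC.lam_nonneg z) fun c hc => ?_
    have hzL : |z.re| ≤ L := (hz.le).trans hyL.le
    have hopen : IsOpen {w : ℂ | |w.re| < y} :=
      isOpen_lt (continuous_abs.comp Complex.continuous_re) continuous_const
    have hnh : {w : ℂ | |w.re| < y} ∈ nhds z := hopen.mem_nhds hz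
    have h1 := Phi_pt hC hF (p σ) hzL hc
    have h2 : nhdsWithin z {w : ℂ | |w.re| ≤ L} = nhds z := by
      rw [nhdsWithin_eq_nhds]
      filter_upwards [hnh] with w hw
      have hw' : |w.re| < y := hw
      show |w.re| ≤ L
      linarith
    rw [h2] at h1
    filter_upwards [h1, hnh] with w hw hwy
    have hwy' : |w.re| < y := hwy
    rw [cl_eq hwy'.le, cl_eq hz.le]
    exact hw
  · intro σ z
    have e : cl y (z + 2 * π * Complex.I) = cl y z + 2 * π * Complex.I := by
      apply Complex.ext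
      · rw [cl_re, Complex.add_re, Complex.add_re, cl_re]
        simp
      · rw [cl_im, Complex.add_im, Complex.add_im, cl_im]
    show Phi F D Ψ (p σ) (cl y (z + 2 * π * Complex.I)) = Phi F D Ψ (p σ) (cl y z)
    rw [e]
    exact Phi_per hC (p σ) (hcl z)
  · intro σ z hz
    have htz : |(tau z).re| ≤ y := by
      rw [tau_re, abs_neg]
      exact hz
    show Phi F D Ψ (p σ) (cl y (tau z)) = -Phi F D Ψ (p σ) (cl y z)
    rw [cl_eq hz, cl_eq htz]
    exact Phi_tau hC hF (p σ) (hz.trans hyL.le)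
  · intro σ
    show Phi F D Ψ (p σ) (cl y (p σ)) = π / 2
    rw [cl_eq ((hp1 σ).trans hy)]
    exact Phi_self hF (p σ)

end Pool.Agent.CC57
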