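import Mathlib

set_option autoImplicit false

/-!
Definitions for the theorem on fillings of the circle with a conformal collar.  Only real and complex
coordinates are used; the unit square and the strip are sets of complex numbers `z = x + i y`.
-/

open Real MeasureTheory Set

namespace Pool.Agent.CC57.Fill

noncomputable section

/-! ### Riemannian squares and their boundary -/

/-- The closed unit square. -/
def unitSquare : Set ℂ := {z | 0 ≤ z.re ∧ z.re ≤ 1 ∧ 0 ≤ z.im ∧ z.im ≤ 1}

/-- The quadratic form `E dx² + 2 F dx dy + G dy²` at the point `z`, applied to the vector `v`. -/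
def firstForm (E F G : ℂ → ℝ) (z v : ℂ) : ℝ :=
  E z * v.re ^ 2 + 2 * F z * v.re * v.im + G z * v.im ^ 2

/-- The length of the straight segment from `z` to `w`. -/
def segmentLength (E F G : ℂ → ℝ) (z w : ℂ) : ℝ :=
  ∫ t in (0 : ℝ)..1, √(firstForm E F G (z + t * (w - z)) (w - z))

/-- `q` is a Riemannian square in the metric space `X`, with a continuous (possibly degenerate) metric:
distances in `X` are at most the lengths of straight segments. -/
structure IsRiemannianSquare {X : Type} [MetricSpace X] (q : ℂ → X) (E F G : ℂ → ℝ) : Prop where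
  contE : ContinuousOn E unitSquare
  contF : ContinuousOn F unitSquare
  contG : ContinuousOn G unitSquare
  nonneg : ∀ z ∈ unitSquare, ∀ v, 0 ≤ firstForm E F G z v
  dist_le : ∀ z ∈ unitSquare, ∀ w ∈ unitSquare, dist (q z) (q w) ≤ segmentLength E F G z w

/-- The area of a Riemannian square. -/
def squareArea (E F G : ℂ → ℝ) : ℝ := ∫ z in unitSquare, √(E z * G z - F z ^ 2)

/-- The Jacobian determinant `f_x g_y - f_y g_x`. -/
def jac (f g : ℂ → ℝ) (z : ℂ) : ℝ :=
  fderiv ℝ f z 1 * fderiv ℝ g z Complex.I - fderiv ℝ f z Complex.I * fderiv ℝ g z 1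

/-- The boundary of the chain of squares `q j` is the loop `c` (of period `2π`), in the sense of metric
currents: `∑ ∫ df ∧ dg = ∫ f dg` for all real valued Lipschitz functions `f`, `g` on `X`. -/
def Bounds {X : Type} [MetricSpace X] {m : ℕ} (q : Fin m → ℂ → X) (c : ℝ → X) : Prop :=
  ∀ f g : X → ℝ, (∃ K, LipschitzWith K f) → (∃ K, LipschitzWith K g) →
    ∑ j, ∫ z in unitSquare, jac (fun z => f (q j z)) (fun z => g (q j z)) z =
      ∫ θ in (0 : ℝ)..2 * π, f (c θ) * deriv (fun θ => g (c θ)) θ

/-! ### Conformal collars -/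

/-- The involution `z ↦ -conj z + π i`; its square is the translation by `2πi`. -/
def tau (z : ℂ) : ℂ := -(starRingEnd ℂ) z + π * Complex.I

/-- A conformal collar of the closed curve `γ` (`θ ↦ γ θ` has period `2π`, the point opposite to `γ θ` is
`γ (θ + π)`).  Glueing opposite points of `γ` turns the collar into a Moebius band; its double cover is
the strip `|Re z| ≤ L` modulo `2πi`, with the deck transformation `tau` and the metric `lam |dz|`.
`D` is the part of the strip which belongs to the collar, the rest belongs to the image of `D` under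
`tau`; `Ψ` maps `D` to `X`, and at every point of `D` its local Lipschitz constant is at most `lam`.
The points of `D` whose image under `tau` also lies in `D` are the points of `γ`.  The part
`-L ≤ Re z ≤ -H` of the strip belongs to `D`; its edge `Re z = -L` is the inner edge of the collar. -/
structure IsCollar {X : Type} [MetricSpace X] (γ : ℝ → X) (L H : ℝ) (lam : ℂ → ℝ) (D : Set ℂ)
    (Ψ : ℂ → X) : Prop where
  lam_cont : Continuous lam
  lam_nonneg : ∀ z, 0 ≤ lam z
  lam_per : ∀ z, lam (z + 2 * π * Complex.I) = lam z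
  lam_tau : ∀ z : ℂ, |z.re| ≤ L → lam (tau z) = lam z
  closed : IsClosed D
  per : ∀ z ∈ D, z + 2 * π * Complex.I ∈ D ∧ Ψ (z + 2 * π * Complex.I) = Ψ z
  per' : ∀ z, z + 2 * π * Complex.I ∈ D → z ∈ D
  cover : ∀ z : ℂ, |z.re| ≤ L → z ∈ D ∨ tau z ∈ D
  clean : ∀ z : ℂ, -L ≤ z.re → z.re ≤ -H → z ∈ D
  lip : ∀ z ∈ D, |z.re| ≤ L → ∀ c, lam z < c →
    ∀ᶠ w in nhdsWithin z (D ∩ {w : ℂ | |w.re| ≤ L}), dist (Ψ w) (Ψ z) ≤ c * ‖w - z‖
  seam : ∀ z ∈ D, tau z ∈ D → |z.re| ≤ L → ∃ s, Ψ z = γ s ∧ Ψ (tau z) = γ (s + π)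

end

end Pool.Agent.CC57.Fill
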