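import Pool.Agent.CC57.Top
import Pool.Agent.CC57.FillDefs

set_option autoImplicit false

/-!
The conformal collar theorem in plain coordinates.
-/

open Real MeasureTheory Set

open scoped RealInnerProductSpace

namespace Pool.Agent.CC57.Fill

open Pool.Agent.H65G Pool.Agent.CC57

/-! ### The circle -/

private theorem per_eq {X : Type} {γ : ℝ → X} (hp : ∀ s, γ (s + 2 * π) = γ s) {s t : ℝ}
    (h : circ s = circ t) : γ s = γ t := by
  have h1 : (circ s : E 2) = circ t := congrArg Subtype.val h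
  have h2 : cos s = cos t := by
    have := congrArg (fun p : E 2 => p 0) h1
    simpa [circ] using this
  have h3 : sin s = sin t := by
    have := congrArg (fun p : E 2 => p 1) h1
    simpa [circ] using this
  have h4 := Real.Angle.cos_sin_inj h2 h3
  obtain ⟨k, hk⟩ := Real.Angle.angle_eq_iff_two_pi_dvd_sub.1 h4
  have hper : Function.Periodic γ (2 * π) := hp
  have h5 := hper.int_mul k t
  rw [← h5]
  congr 1
  linarith

private noncomputable def lift {X : Type} (γ : ℝ → X) (s : Sph 2) : X :=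
  γ (Classical.choose (circ_surj s))

private theorem lift_circ {X : Type} {γ : ℝ → X} (hp : ∀ s, γ (s + 2 * π) = γ s) (s : ℝ) :
    lift γ (circ s) = γ s := by
  unfold lift
  exact per_eq hp (Classical.choose_spec (circ_surj (circ s))).2.2

private theorem inner_circ (s t : ℝ) : ⟪(circ s : E 2), (circ t : E 2)⟫ = cos (s - t) := by
  rw [cos_sub]
  simp [circ, PiLp.inner_apply, Fin.sum_univ_two]
  ring

/-! ### The squares -/

private noncomputable def eC : E 2 ≃ᵐ ℂ :=
  (MeasurableEquiv.toLp 2 (Fin 2 → ℝ)).symm.trans Complex.measurableEquivPi.symm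

private lemma eC_apply (p : E 2) : eC p = pt (p 0) (p 1) := rfl

private lemma mp_eC : MeasurePreserving eC volume volume :=
  (EuclideanSpace.volume_preserving_symm_measurableEquiv_toLp (Fin 2)).trans
    Complex.volume_preserving_equiv_pi.symm

private lemma pt_re' (x θ : ℝ) : (pt x θ).re = x := by simp [pt]

private lemma pt_im' (x θ : ℝ) : (pt x θ).im = θ := by simp [pt]

private lemma cube_eC : cube 2 = eC ⁻¹' unitSquare := by
  ext p
  rw [mem_preimage, eC_apply]
  unfold unitSquare
  simp only [Set.mem_ofPred_eq, pt_re', pt_im']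
  constructor
  · intro h
    exact ⟨(h 0).1, (h 0).2, (h 1).1, (h 1).2⟩
  · rintro ⟨h0, h1, h2, h3⟩ i
    fin_cases i
    · exact ⟨h0, h1⟩
    · exact ⟨h2, h3⟩

private lemma measurableSet_unitSquare : MeasurableSet unitSquare := by
  have : unitSquare = Icc (0 : ℝ) 1 ×ℂ Icc (0 : ℝ) 1 := by
    ext z
    simp only [unitSquare, Set.mem_ofPred_eq, Complex.mem_reProdIm, mem_Icc]
    tauto
  rw [this]
  exact (isCompact_Icc.reProdIm isCompact_Icc).measurableSet

private lemma integral_square (g : ℂ → ℝ) :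
    ∫ p in cube 2, g (eC p) = ∫ z in unitSquare, g z := by
  rw [cube_eC]
  exact mp_eC.setIntegral_preimage_emb eC.measurableEmbedding g unitSquare

private noncomputable def Lin : E 2 ≃L[ℝ] ℂ :=
  LinearEquiv.toContinuousLinearEquiv
    { toFun := fun p => pt (p 0) (p 1)
      invFun := fun z => WithLp.toLp 2 ![z.re, z.im]
      map_add' := by
        intro p p'
        apply Complex.ext
        · simp only [pt_re', PiLp.add_apply, Complex.add_re]
        · simp only [pt_im', PiLp.add_apply, Complex.add_im]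
      map_smul' := by
        intro c p
        apply Complex.ext
        · simp [pt]
        · simp [pt]
      left_inv := by
        intro p
        ext i
        fin_cases i
        · simp [pt]
        · simp [pt]
      right_inv := by
        intro z
        apply Complex.ext
        · simp [pt]
        · simp [pt] }

private lemma Lin_apply (p : E 2) : Lin p = pt (p 0) (p 1) := rfl

private lemma eC_eq (p : E 2) : eC p = Lin p := rfl

/-- The metric matrix. -/
private noncomputable def mat (E F G : ℂ → ℝ) (p : H65G.E 2) : Matrix (Fin 2) (Fin 2) ℝ :=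
  !![E (Lin p), F (Lin p); F (Lin p), G (Lin p)]

private lemma quad_mat (E F G : ℂ → ℝ) (p ξ : H65G.E 2) :
    quad (mat E F G p) ξ = firstForm E F G (Lin p) (Lin ξ) := by
  unfold quad mat firstForm
  simp only [Fin.sum_univ_two, Lin_apply, pt_re', pt_im']
  simp
  ring

private lemma det_mat (E F G : ℂ → ℝ) (p : H65G.E 2) :
    (mat E F G p).det = E (Lin p) * G (Lin p) - F (Lin p) ^ 2 := by
  unfold mat
  rw [Matrix.det_fin_two]
  simp
  ring

private lemma Lin_mem {p : H65G.E 2} (hp : p ∈ cube 2) : Lin p ∈ unitSquare := by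
  rw [cube_eC] at hp
  exact hp

private theorem isCube {X : Type} [MetricSpace X] {q : ℂ → X} {E F G : ℂ → ℝ}
    (h : IsRiemannianSquare q E F G) :
    IsRiemannianCube (n := 2) (fun p => q (Lin p)) (mat E F G) := by
  have hm : MapsTo (fun p : H65G.E 2 => Lin p) (cube 2) unitSquare := fun p hp => Lin_mem hp
  have hc : ContinuousOn (fun p : H65G.E 2 => Lin p) (cube 2) := Lin.continuous.continuousOn
  refine ⟨?_, ?_, ?_, ?_⟩
  · unfold mat
    refine continuousOn_pi.2 fun i => continuousOn_pi.2 fun j => ?_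
    fin_cases i <;> fin_cases j
    · exact h.contE.comp hc hm
    · exact h.contF.comp hc hm
    · exact h.contF.comp hc hm
    · exact h.contG.comp hc hm
  · intro p _
    ext i j
    fin_cases i <;> fin_cases j <;> simp [mat]
  · intro p hp ξ
    rw [quad_mat]
    exact h.nonneg _ (Lin_mem hp) _
  · intro p hp p' hp'
    refine (h.dist_le _ (Lin_mem hp) _ (Lin_mem hp')).trans (le_of_eq ?_)
    unfold segmentLength segLength
    refine intervalIntegral.integral_congr fun t _ => ?_
    rw [quad_mat]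
    congr 2
    · rw [map_add, map_smul, map_sub]
      simp
    · rw [map_sub]

private theorem volume_mat (E F G : ℂ → ℝ) : cubeVolume (mat E F G) = squareArea E F G := by
  unfold cubeVolume squareArea
  rw [← integral_square]
  simp only [det_mat, eC_eq]

private theorem det_jac {k : ℂ → E 2} (p : E 2) :
    (fderiv ℝ (fun p => k (Lin p)) p).det = jac (fun z => (k z) 0) (fun z => (k z) 1) (Lin p) := by
  have h1 : fderiv ℝ (fun p => k (Lin p)) p =
      (fderiv ℝ k (Lin p)).comp (Lin : E 2 →L[ℝ] ℂ) := Lin.comp_right_fderiv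
  have h2 := det_cx (fderiv ℝ (fun p => k (Lin p)) p) (EuclideanSpace.single 0 1)
    (EuclideanSpace.single 1 1)
  have h3 : cx (EuclideanSpace.single (0 : Fin 2) (1 : ℝ)) (EuclideanSpace.single 1 1) = 1 := by
    simp [cx]
  rw [h3, mul_one] at h2
  rw [← h2, h1]
  have e0 : (Lin : E 2 →L[ℝ] ℂ) (EuclideanSpace.single 0 1) = 1 := by
    change Lin (EuclideanSpace.single 0 1) = 1
    rw [Lin_apply]
    simp [pt]
  have e1 : (Lin : E 2 →L[ℝ] ℂ) (EuclideanSpace.single 1 1) = Complex.I := by
    change Lin (EuclideanSpace.single 1 1) = Complex.I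
    rw [Lin_apply]
    simp [pt]
  rw [ContinuousLinearMap.comp_apply, ContinuousLinearMap.comp_apply, e0, e1]
  unfold cx jac
  by_cases hk : DifferentiableAt ℝ k (Lin p)
  · have h4 : ∀ i : Fin 2, ∀ v : ℂ,
        fderiv ℝ (fun z => (k z) i) (Lin p) v = (fderiv ℝ k (Lin p) v) i := by
      intro i v
      have h5 : HasFDerivAt (fun z => (k z) i)
          ((EuclideanSpace.proj i : E 2 →L[ℝ] ℝ).comp (fderiv ℝ k (Lin p))) (Lin p) :=
        (EuclideanSpace.proj i : E 2 →L[ℝ] ℝ).hasFDerivAt.comp _ hk.hasFDerivAt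
      rw [h5.fderiv]
      rfl
    rw [h4, h4, h4, h4]
    ring
  · rw [fderiv_zero_of_not_differentiableAt hk]
    have h6 : ¬ (DifferentiableAt ℝ (fun z => (k z) 0) (Lin p) ∧
        DifferentiableAt ℝ (fun z => (k z) 1) (Lin p)) := by
      rintro ⟨h7, h8⟩
      apply hk
      rw [differentiableAt_euclidean]
      intro i
      fin_cases i
      · exact h7
      · exact h8
    rcases not_and_or.1 h6 with h7 | h7
    · rw [fderiv_zero_of_not_differentiableAt h7]
      simp
    · rw [fderiv_zero_of_not_differentiableAt h7]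
      simp

/-! ### The loop -/

private theorem hasLoop {X : Type} [MetricSpace X] {m : ℕ} {q : Fin m → ℂ → X} {c : ℝ → X}
    (h : Bounds q c) {K : NNReal} (hc : LipschitzWith K c) (hp : ∀ θ, c (θ + 2 * π) = c θ) :
    HasLoop (fun j p => q j (Lin p)) c := by
  intro F K' hF
  have hF0 : ∀ i : Fin 2, LipschitzWith K' fun x => (F x) i := by
    intro i
    refine LipschitzWith.of_dist_le_mul fun x y => ?_
    refine le_trans ?_ (hF.dist_le_mul x y)
    rw [Real.dist_eq, dist_eq_norm]
    have := PiLp.norm_apply_le (F x - F y) i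
    rwa [PiLp.sub_apply, norm_eq_abs] at this
  have h1 := h (fun x => (F x) 0) (fun x => (F x) 1) ⟨_, hF0 0⟩ ⟨_, hF0 1⟩
  have h2 : ∀ j, ∫ p in cube 2, (fderiv ℝ (F ∘ fun p => q j (Lin p)) p).det =
      ∫ z in unitSquare, jac (fun z => (F (q j z)) 0) (fun z => (F (q j z)) 1) z := by
    intro j
    rw [← integral_square]
    congr 1
    funext p
    exact det_jac (k := fun z => F (q j z)) p
  simp only [h2]
  rw [h1]
  -- integration by parts
  set f : ℝ → ℝ := fun θ => (F (c θ)) 0 with hf
  set g : ℝ → ℝ := fun θ => (F (c θ)) 1 with hg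
  have hfl : LipschitzWith (K' * K) f := (hF0 0).comp hc
  have hgl : LipschitzWith (K' * K) g := (hF0 1).comp hc
  have hfac : AbsolutelyContinuousOnInterval f 0 (2 * π) :=
    (hfl.lipschitzOnWith (s := uIcc 0 (2 * π))).absolutelyContinuousOnInterval
  have hgac : AbsolutelyContinuousOnInterval g 0 (2 * π) :=
    (hgl.lipschitzOnWith (s := uIcc 0 (2 * π))).absolutelyContinuousOnInterval
  have h3 := hgac.integral_mul_deriv_eq_deriv_mul hfac
  have hper : c (2 * π) = c 0 := by
    have := hp 0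
    rwa [zero_add] at this
  have h4 : g (2 * π) * f (2 * π) - g 0 * f 0 = 0 := by
    simp only [hf, hg, hper, sub_self]
  rw [h4, zero_sub] at h3
  have hi1 : IntervalIntegrable (fun θ => f θ * deriv g θ) volume 0 (2 * π) :=
    hgac.intervalIntegrable_deriv.continuousOn_mul hfl.continuous.continuousOn
  have hi2 : IntervalIntegrable (fun θ => g θ * deriv f θ) volume 0 (2 * π) :=
    hfac.intervalIntegrable_deriv.continuousOn_mul hgl.continuous.continuousOn
  have h5 : cr (fun θ => F (c θ)) = (∫ θ in (0 : ℝ)..2 * π, f θ * deriv g θ) -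
      ∫ θ in (0 : ℝ)..2 * π, g θ * deriv f θ := by
    rw [← intervalIntegral.integral_sub hi1 hi2]
    rfl
  have h6 : ∫ θ in (0 : ℝ)..2 * π, deriv g θ * f θ = ∫ θ in (0 : ℝ)..2 * π, f θ * deriv g θ := by
    congr 1
    funext θ
    ring
  rw [h5, h3, h6]
  ring

/-! ### The theorem -/

private theorem toCollar {X : Type} [MetricSpace X] {γ : ℝ → X} (hp : ∀ s, γ (s + 2 * π) = γ s)
    {L H : ℝ} {lam : ℂ → ℝ} {D : Set ℂ} {Ψ : ℂ → X} (h : Fill.IsCollar γ L H lam D Ψ) :
    CC57.IsCollar (lift γ) L H lam D Ψ := by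
  refine ⟨h.lam_cont, h.lam_nonneg, h.lam_per, h.lam_tau, h.closed, h.per, h.per', h.cover,
    h.clean, h.lip, ?_⟩
  intro z hz hz' hzL
  obtain ⟨s, h1, h2⟩ := h.seam z hz hz' hzL
  refine ⟨circ s, ?_, ?_⟩
  · rw [lift_circ hp, h1]
  · rw [← circ_add_pi, lift_circ hp]
    exact h2

theorem fill_top : ∃ L₀ : ℝ, 0 < L₀ ∧ ∀ (X : Type) [MetricSpace X] (γ : ℝ → X) (L H : ℝ)
    (lam : ℂ → ℝ) (D : Set ℂ) (Ψ : ℂ → X) (m : ℕ) (q : Fin m → ℂ → X) (E F G : Fin m → ℂ → ℝ),
    (∀ s, γ (s + 2 * π) = γ s) →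
    (∀ s t, arccos (cos (s - t)) ≤ dist (γ s) (γ t)) →
    Fill.IsCollar γ L H lam D Ψ → 0 ≤ H → H + L₀ ≤ L →
    (∀ j, IsRiemannianSquare (q j) (E j) (F j) (G j)) →
    (Bounds q fun θ => Ψ (-L + θ * Complex.I)) →
    2 * π ≤ 1 / 2 * (∫ x in (-L)..L, ∫ θ in (0 : ℝ)..2 * π, lam (x + θ * Complex.I) ^ 2) +
      ∑ j, squareArea (E j) (F j) (G j) := by
  obtain ⟨L₀, hL₀, h⟩ := top
  refine ⟨L₀, hL₀, ?_⟩
  intro X _ γ L H lam D Ψ m q E F G hp hγ hCol hH hHL hq hB
  have hCol' := toCollar hp hCol
  have hγ' : ∀ s t : Metric.sphere (0 : EuclideanSpace ℝ (Fin 2)) 1,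
      arccos ⟪(s : EuclideanSpace ℝ (Fin 2)), (t : EuclideanSpace ℝ (Fin 2))⟫ ≤
        dist (lift γ s) (lift γ t) := by
    intro s t
    obtain ⟨a, _, _, rfl⟩ := circ_surj s
    obtain ⟨b, _, _, rfl⟩ := circ_surj t
    rw [lift_circ hp, lift_circ hp, inner_circ]
    exact hγ a b
  have hpt : ∀ θ : ℝ, pt (-L) θ = -L + θ * Complex.I := by
    intro θ
    unfold pt
    push_cast
    rfl
  have hann := isAnn hCol' hH le_rfl (by linarith : H < L)
  obtain ⟨K, hK⟩ := ann_lip hann
  have hmem : ∀ θ : ℝ, pt (-L) θ ∈ {z : ℂ | -L ≤ z.re ∧ z.re ≤ -H} := by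
    intro θ
    constructor
    · rw [pt_re']
    · rw [pt_re']
      linarith
  have hlip : LipschitzWith K fun θ => Ψ (pt (-L) θ) := by
    refine LipschitzWith.of_dist_le_mul fun a b => ?_
    refine (hK.dist_le_mul _ (hmem a) _ (hmem b)).trans (le_of_eq ?_)
    congr 1
    rw [Complex.dist_eq, Real.dist_eq]
    have h2 : pt (-L) a - pt (-L) b = ((a - b : ℝ) : ℂ) * Complex.I := by
      simp only [pt]
      push_cast
      ring
    rw [h2, norm_mul, Complex.norm_I, mul_one, Complex.norm_real, Real.norm_eq_abs]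
  have hper : ∀ θ, Ψ (pt (-L) (θ + 2 * π)) = Ψ (pt (-L) θ) := by
    intro θ
    have h1 := (hCol.per (pt (-L) θ) (hCol.clean _ (hmem θ).1 (hmem θ).2)).2
    rw [← h1]
    congr 1
    unfold pt
    push_cast
    ring
  have hB' : Bounds q fun θ => Ψ (pt (-L) θ) := by
    simp only [hpt]
    exact hB
  have hloop : HasLoop (fun j p => q j (Lin p)) fun θ => Ψ (pt (-L) θ) := by
    intro F K'
    exact hasLoop hB' hlip hper
  have h1 := h hγ' hCol' hH hHL (fun j => isCube (hq j)) hloop
  simp only [volume_mat] at h1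
  have hint : IntegrableOn (fun z => lam z ^ 2) (Cell (-L) L) := by
    have hc : Continuous fun z => lam z ^ 2 := hCol.lam_cont.pow 2
    have hsub : Cell (-L) L ⊆ Icc (-L) L ×ℂ Icc 0 (2 * π) := by
      rintro z ⟨h1, h2, h3, h4⟩
      rw [Complex.mem_reProdIm]
      exact ⟨⟨h1.le, h2⟩, h3.le, h4⟩
    exact (hc.continuousOn.integrableOn_compact (isCompact_Icc.reProdIm isCompact_Icc)).mono_set hsub
  rw [integral_cell (by linarith) hint] at h1
  exact h1

end Pool.Agent.CC57.Fill
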