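import Pool.Agent.CC57.Defs

set_option autoImplicit false

/-!
Stokes formula for Lipschitz functions on a cylinder `a ≤ Re z ≤ b`, `2πi`-periodic.
`br B A = A_x B_θ - A_θ B_x`, and `∫ br B A = ∮_{x=b} A B_θ - ∮_{x=a} A B_θ`.

Reduction to globally Lipschitz functions: replace `A`, `B` by their compositions with the clamp
`z ↦ max a (min (re z) b) + i im z` (this does not change derivatives in the open cylinder, a.e.).

Proof for global Lipschitz `A`, `B` by symmetric difference quotients in `θ`.  For `h > 0` put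
`A^h(z) = A(z + ih)`, `B^h` similarly.
(1) `(2h)⁻¹ ∫∫ [A_x (B^h - B^{-h}) - (A^h - A^{-h}) B_x] → ∫∫ (A_x B_θ - A_θ B_x)` by dominated
convergence (Rademacher).
(2) By the shift invariance in `θ` (periodicity) and integration by parts in `x` for Lipschitz functions
`∫∫ A_x B^{±h} = [∮ A B^{±h}]_a^b - ∫∫ A (B^{±h})_x`, `∫∫ A^{±h} B_x = ∫∫ A (B^{∓h})_x`, so the left side
of (1) is exactly `(2h)⁻¹ [∮ A (B^h - B^{-h})]_a^b`.
(3) `(2h)⁻¹ [∮ A (B^h - B^{-h})]_a^b → [∮ A B_θ]_a^b` by dominated convergence.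
The integrand is bounded and measurable (`measurable_fderiv`), the
boundary `Re z = b` is a null set.  Fubini for `Cell`: `Complex.volume_preserving_equiv_real_prod`.
-/

open Real MeasureTheory Set

namespace Pool.Agent.CC57

namespace RectAux

theorem cell_eq (a b : ℝ) :
    Cell a b = Complex.measurableEquivRealProd ⁻¹' (Ioc a b ×ˢ Ioc 0 (2 * π)) := by
  ext z
  simp only [Cell, mem_ofPred_eq, mem_preimage, mem_prod, mem_Ioc,
    Complex.measurableEquivRealProd_apply]
  tauto

theorem _root_.Pool.Agent.CC57.measurableSet_cell (a b : ℝ) : MeasurableSet (Cell a b) := by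
  rw [cell_eq]
  exact (measurableSet_Ioc.prod measurableSet_Ioc).preimage
    Complex.measurableEquivRealProd.measurable

theorem _root_.Pool.Agent.CC57.volume_cell_lt_top (a b : ℝ) : volume (Cell a b) < ⊤ := by
  rw [cell_eq, Complex.volume_preserving_equiv_real_prod.measure_preimage_equiv]
  rw [Measure.volume_eq_prod, Measure.prod_prod]
  simp [Real.volume_Ioc, ENNReal.mul_lt_top]

theorem pt_mk (x θ : ℝ) : pt x θ = ⟨x, θ⟩ := by
  apply Complex.ext <;> simp [pt]

theorem integrableOn_cell_iff {F : ℂ → ℝ} {a b : ℝ} :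
    IntegrableOn F (Cell a b) ↔
      IntegrableOn (fun p : ℝ × ℝ => F (pt p.1 p.2)) (Ioc a b ×ˢ Ioc 0 (2 * π)) := by
  rw [cell_eq, ← Complex.volume_preserving_equiv_real_prod.integrableOn_comp_preimage
    Complex.measurableEquivRealProd.measurableEmbedding]
  have : ((fun p : ℝ × ℝ => F (pt p.1 p.2)) ∘ Complex.measurableEquivRealProd) = F := by
    funext z
    simp [Complex.measurableEquivRealProd_apply, pt]
  rw [this]

theorem integral_cell_prod {F : ℂ → ℝ} {a b : ℝ} :
    ∫ z in Cell a b, F z = ∫ p in Ioc a b ×ˢ Ioc 0 (2 * π), F (pt p.1 p.2) := by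
  rw [cell_eq, ← Complex.volume_preserving_equiv_real_prod.setIntegral_preimage_emb
    Complex.measurableEquivRealProd.measurableEmbedding]
  refine setIntegral_congr_fun ?_ ?_
  · exact (measurableSet_Ioc.prod measurableSet_Ioc).preimage
      Complex.measurableEquivRealProd.measurable
  · intro z _
    simp [Complex.measurableEquivRealProd_apply, pt]

/-- Fubini on a cell. -/
theorem _root_.Pool.Agent.CC57.integral_cell {F : ℂ → ℝ} {a b : ℝ} (hab : a ≤ b) (hF : IntegrableOn F (Cell a b)) :
    ∫ z in Cell a b, F z = ∫ x in a..b, ∫ θ in (0 : ℝ)..2 * π, F (pt x θ) := by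
  have h2 : (0 : ℝ) ≤ 2 * π := by positivity
  rw [integral_cell_prod, Measure.volume_eq_prod, setIntegral_prod]
  · rw [intervalIntegral.integral_of_le hab]
    refine setIntegral_congr_fun measurableSet_Ioc ?_
    intro x _
    simp only
    rw [intervalIntegral.integral_of_le h2]
  · rw [← Measure.volume_eq_prod]
    exact integrableOn_cell_iff.1 hF

/-- Fubini on a cell, the other order. -/
theorem integral_cell_symm {F : ℂ → ℝ} {a b : ℝ} (hab : a ≤ b) (hF : IntegrableOn F (Cell a b)) :
    ∫ z in Cell a b, F z = ∫ θ in (0 : ℝ)..2 * π, ∫ x in a..b, F (pt x θ) := by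
  have h2 : (0 : ℝ) ≤ 2 * π := by positivity
  have h1 := integrableOn_cell_iff.1 hF
  rw [integral_cell_prod, Measure.volume_eq_prod]
  rw [IntegrableOn, Measure.volume_eq_prod, ← Measure.prod_restrict] at h1
  rw [← Measure.prod_restrict, integral_prod_symm _ h1, intervalIntegral.integral_of_le h2]
  refine setIntegral_congr_fun measurableSet_Ioc ?_
  intro x _
  simp only
  rw [intervalIntegral.integral_of_le hab]

theorem ae_re_ne (b : ℝ) : ∀ᵐ z : ℂ, z.re ≠ b := by
  have h : {z : ℂ | z.re = b} = Complex.measurableEquivRealProd ⁻¹' ({b} ×ˢ univ) := by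
    ext z
    simp [Complex.measurableEquivRealProd_apply]
  have : (volume : Measure ℂ) {z : ℂ | z.re = b} = 0 := by
    rw [h, Complex.volume_preserving_equiv_real_prod.measure_preimage_equiv,
      Measure.volume_eq_prod, Measure.prod_prod]
    simp
  rw [ae_iff]
  simpa using this

theorem strip_mem_nhds {a b : ℝ} {z : ℂ} (h1 : a < z.re) (h2 : z.re < b) :
    {z : ℂ | a ≤ z.re ∧ z.re ≤ b} ∈ nhds z := by
  have ho : IsOpen {z : ℂ | a < z.re ∧ z.re < b} :=
    (isOpen_lt continuous_const Complex.continuous_re).inter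
      (isOpen_lt Complex.continuous_re continuous_const)
  exact Filter.mem_of_superset (ho.mem_nhds ⟨h1, h2⟩) fun w hw => ⟨hw.1.le, hw.2.le⟩

theorem norm_fderiv_le_strip {a b : ℝ} {A : ℂ → ℝ} {K : NNReal}
    (hA : LipschitzOnWith K A {z | a ≤ z.re ∧ z.re ≤ b}) {z : ℂ} (h1 : a < z.re) (h2 : z.re < b) :
    ‖fderiv ℝ A z‖ ≤ K :=
  norm_fderiv_le_of_lipschitzOn ℝ (strip_mem_nhds h1 h2) hA

theorem abs_br_le_strip {a b : ℝ} {A B : ℂ → ℝ} {K : NNReal}
    (hA : LipschitzOnWith K A {z | a ≤ z.re ∧ z.re ≤ b})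
    (hB : LipschitzOnWith K B {z | a ≤ z.re ∧ z.re ≤ b}) {z : ℂ} (h1 : a < z.re)
    (h2 : z.re < b) : |br B A z| ≤ 2 * K ^ 2 := by
  have hA' := norm_fderiv_le_strip hA h1 h2
  have hB' := norm_fderiv_le_strip hB h1 h2
  have e1 : |fderiv ℝ A z 1| ≤ K := by
    refine ((fderiv ℝ A z).le_opNorm 1).trans ?_
    simpa using hA'
  have e2 : |fderiv ℝ A z Complex.I| ≤ K := by
    refine ((fderiv ℝ A z).le_opNorm Complex.I).trans ?_
    simpa using hA'
  have e3 : |fderiv ℝ B z 1| ≤ K := by
    refine ((fderiv ℝ B z).le_opNorm 1).trans ?_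
    simpa using hB'
  have e4 : |fderiv ℝ B z Complex.I| ≤ K := by
    refine ((fderiv ℝ B z).le_opNorm Complex.I).trans ?_
    simpa using hB'
  unfold br
  have f1 : |fderiv ℝ A z 1 * fderiv ℝ B z Complex.I| ≤ K * K := by
    rw [abs_mul]; gcongr
  have f2 : |fderiv ℝ A z Complex.I * fderiv ℝ B z 1| ≤ K * K := by
    rw [abs_mul]; gcongr
  exact (abs_sub _ _).trans ((add_le_add f1 f2).trans (le_of_eq (by ring)))

theorem measurable_br (B A : ℂ → ℝ) : Measurable (br B A) := by
  unfold br
  exact ((measurable_fderiv_apply_const ℝ A 1).mul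
    (measurable_fderiv_apply_const ℝ B Complex.I)).sub
    ((measurable_fderiv_apply_const ℝ A Complex.I).mul (measurable_fderiv_apply_const ℝ B 1))

theorem _root_.Pool.Agent.CC57.integrableOn_br {a b : ℝ} {A B : ℂ → ℝ} {K : NNReal}
    (hA : LipschitzOnWith K A {z | a ≤ z.re ∧ z.re ≤ b})
    (hB : LipschitzOnWith K B {z | a ≤ z.re ∧ z.re ≤ b}) :
    IntegrableOn (br B A) (Cell a b) := by
  refine Measure.integrableOn_of_bounded (M := 2 * K ^ 2) (volume_cell_lt_top a b).ne
    (measurable_br B A).aestronglyMeasurable ?_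
  rw [ae_restrict_iff' (measurableSet_cell a b)]
  filter_upwards [ae_re_ne b] with z hz hz2
  exact abs_br_le_strip hA hB hz2.1 (lt_of_le_of_ne hz2.2.1 hz)

/-- The symmetric difference quotient. -/
theorem tendsto_symm_quot {f : ℝ → ℝ} {f' x : ℝ} (hf : HasDerivAt f f' x) :
    Filter.Tendsto (fun h : ℝ => (2 * h)⁻¹ * (f (x + h) - f (x - h))) (nhdsWithin 0 (Ioi 0))
      (nhds f') := by
  have h1 : HasDerivAt (fun h : ℝ => f (x + h)) f' 0 := by
    have : HasDerivAt f f' (x + 0) := by simpa using hf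
    exact this.comp_const_add x 0
  have h2 : HasDerivAt (fun h : ℝ => f (x - h)) (-f') 0 := by
    have : HasDerivAt f f' (x - 0) := by simpa using hf
    exact this.comp_const_sub x 0
  have h3 : HasDerivAt (fun h : ℝ => f (x + h) - f (x - h)) (f' - -f') 0 := h1.sub h2
  have h4 := hasDerivAt_iff_tendsto_slope_zero.1 h3
  have h5 : Filter.Tendsto (fun t : ℝ => t⁻¹ • ((f (x + (0 + t)) - f (x - (0 + t))) -
      (f (x + 0) - f (x - 0)))) (nhdsWithin 0 (Ioi 0)) (nhds (f' - -f')) :=
    h4.mono_left (nhdsWithin_mono _ fun t ht => ne_of_gt ht)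
  have h6 := h5.const_mul (1 / 2 : ℝ)
  have h7 : (1 / 2 : ℝ) * (f' - -f') = f' := by ring
  rw [h7] at h6
  refine h6.congr fun t => ?_
  simp only [smul_eq_mul, zero_add, add_zero, sub_zero, sub_self]
  rw [mul_inv]
  ring

section Real2

variable {K : NNReal} {α β : ℝ → ℝ → ℝ}

/-- Lipschitz functions of two real variables. -/
def Lip2 (K : NNReal) (α : ℝ → ℝ → ℝ) : Prop :=
  ∀ x θ x' θ', |α x θ - α x' θ'| ≤ K * (|x - x'| + |θ - θ'|)

theorem Lip2.fst (h : Lip2 K α) (θ : ℝ) : LipschitzWith K (fun x => α x θ) := by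
  refine LipschitzWith.of_dist_le_mul fun x y => ?_
  have := h x θ y θ
  simpa [Real.dist_eq] using this

theorem Lip2.snd (h : Lip2 K α) (x : ℝ) : LipschitzWith K (fun θ => α x θ) := by
  refine LipschitzWith.of_dist_le_mul fun θ θ' => ?_
  have := h x θ x θ'
  simpa [Real.dist_eq] using this

theorem Lip2.continuous (h : Lip2 K α) : Continuous (fun p : ℝ × ℝ => α p.1 p.2) := by
  have : LipschitzWith (2 * K) (fun p : ℝ × ℝ => α p.1 p.2) := by
    refine LipschitzWith.of_dist_le_mul fun p q => ?_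
    have h1 := h p.1 p.2 q.1 q.2
    have h2 : |p.1 - q.1| ≤ dist p q := by
      rw [Prod.dist_eq, ← Real.dist_eq]; exact le_max_left _ _
    have h3 : |p.2 - q.2| ≤ dist p q := by
      rw [Prod.dist_eq, ← Real.dist_eq]; exact le_max_right _ _
    have h4 : (0 : ℝ) ≤ K := K.2
    rw [Real.dist_eq]
    push_cast
    nlinarith
  exact this.continuous

/-- The derivative in the first variable. -/
noncomputable def d1 (α : ℝ → ℝ → ℝ) (x θ : ℝ) : ℝ := deriv (fun s => α s θ) x

theorem Lip2.abs_d1_le (h : Lip2 K α) (x θ : ℝ) : |d1 α x θ| ≤ K :=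
  norm_deriv_le_of_lipschitz (h.fst θ)

theorem Lip2.measurable_d1 (h : Lip2 K α) : Measurable (fun p : ℝ × ℝ => d1 α p.1 p.2) := by
  have h1 : Continuous (Function.uncurry (fun θ x => α x θ)) := by
    have := h.continuous.comp continuous_swap
    exact this
  have h2 := measurable_deriv_with_param (𝕜 := ℝ) h1
  exact h2.comp measurable_swap

theorem Lip2.ac (h : Lip2 K α) (a b θ : ℝ) : AbsolutelyContinuousOnInterval (fun x => α x θ) a b :=
  ((h.fst θ).lipschitzOnWith).absolutelyContinuousOnInterval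

theorem integrable_prod_mul {G D : ℝ × ℝ → ℝ} (hG : Continuous G) (hD : Measurable D) {M : ℝ}
    (hM : ∀ p, |D p| ≤ M) (a b c d : ℝ) :
    Integrable (fun p => G p * D p) ((volume.restrict (Ioc a b)).prod (volume.restrict (Ioc c d))) := by
  obtain ⟨C, hC⟩ := (isCompact_Icc.prod isCompact_Icc).exists_bound_of_continuousOn
    (f := G) (s := Icc a b ×ˢ Icc c d) hG.continuousOn
  rw [Measure.prod_restrict]
  refine Measure.integrableOn_of_bounded (M := C * M) ?_
    (hG.measurable.mul hD).aestronglyMeasurable ?_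
  · rw [Measure.prod_prod]
    simp [Real.volume_Ioc, ENNReal.mul_eq_top]
  · rw [ae_restrict_iff' (measurableSet_Ioc.prod measurableSet_Ioc)]
    refine Filter.Eventually.of_forall fun p hp => ?_
    have h1 := hC p ⟨Ioc_subset_Icc_self hp.1, Ioc_subset_Icc_self hp.2⟩
    rw [norm_mul]
    exact mul_le_mul h1 (hM p) (norm_nonneg _) ((norm_nonneg _).trans h1)

theorem intervalIntegrable_param {G D : ℝ × ℝ → ℝ} (hG : Continuous G) (hD : Measurable D) {M : ℝ}
    (hM : ∀ p, |D p| ≤ M) {a b c d : ℝ} (hab : a ≤ b) (hcd : c ≤ d) :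
    IntervalIntegrable (fun θ => ∫ x in a..b, G (x, θ) * D (x, θ)) volume c d := by
  rw [intervalIntegrable_iff_integrableOn_Ioc_of_le hcd]
  have h1 := integrable_prod_mul hG hD hM a b c d
  have h2 := h1.integral_prod_right
  refine Integrable.congr h2 (Filter.Eventually.of_forall fun θ => ?_)
  simp only
  rw [intervalIntegral.integral_of_le hab]

theorem intervalIntegrable_mul {G D : ℝ → ℝ} (hG : Continuous G) (hD : Measurable D) {M : ℝ}
    (hM : ∀ p, |D p| ≤ M) (a b : ℝ) :
    IntervalIntegrable (fun x => G x * D x) volume a b := by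
  have h1 : IntervalIntegrable D volume a b := by
    rw [intervalIntegrable_iff]
    refine Measure.integrableOn_of_bounded (M := M) ?_ hD.aestronglyMeasurable
      (Filter.Eventually.of_forall hM)
    simp [uIoc, Real.volume_Ioc]
  exact h1.continuousOn_mul hG.continuousOn

/-- The discrete Stokes formula. -/
theorem disc_stokes (hα : Lip2 K α) (hβ : Lip2 K β) (hpα : ∀ x θ, α x (θ + 2 * π) = α x θ)
    (hpβ : ∀ x θ, β x (θ + 2 * π) = β x θ) {a b : ℝ} (hab : a ≤ b) (h : ℝ) :
    ∫ θ in (0 : ℝ)..2 * π, ∫ x in a..b,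
      (d1 α x θ * (β x (θ + h) - β x (θ - h)) - (α x (θ + h) - α x (θ - h)) * d1 β x θ) =
    ∫ θ in (0 : ℝ)..2 * π, (α b θ * (β b (θ + h) - β b (θ - h)) -
      α a θ * (β a (θ + h) - β a (θ - h))) := by
  have hcα := hα.continuous
  have hcβ := hβ.continuous
  have cα : ∀ {f g : ℝ → ℝ}, Continuous f → Continuous g → Continuous fun x => α (f x) (g x) :=
    fun hf hg => hcα.comp (hf.prodMk hg)
  have cβ : ∀ {f g : ℝ → ℝ}, Continuous f → Continuous g → Continuous fun x => β (f x) (g x) :=
    fun hf hg => hcβ.comp (hf.prodMk hg)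
  have m1 : ∀ {f g : ℝ → ℝ}, Measurable f → Measurable g → Measurable fun x => d1 α (f x) (g x) :=
    fun hf hg => hα.measurable_d1.comp (hf.prodMk hg)
  have m2 : ∀ {f g : ℝ → ℝ}, Measurable f → Measurable g → Measurable fun x => d1 β (f x) (g x) :=
    fun hf hg => hβ.measurable_d1.comp (hf.prodMk hg)
  have pβ : ∀ x θ, d1 β x (θ + 2 * π) = d1 β x θ := by
    intro x θ
    unfold d1
    congr 1
    funext s
    exact hpβ s θ
  set Q : ℝ → ℝ := fun θ => ∫ x in a..b, α x (θ + h) * d1 β x θ with hQ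
  set R : ℝ → ℝ := fun θ => ∫ x in a..b, α x (θ - h) * d1 β x θ with hR
  have key : ∀ θ, ∫ x in a..b,
      (d1 α x θ * (β x (θ + h) - β x (θ - h)) - (α x (θ + h) - α x (θ - h)) * d1 β x θ) =
      (α b θ * (β b (θ + h) - β b (θ - h)) - α a θ * (β a (θ + h) - β a (θ - h))) +
      ((R θ - R (θ + h)) + (Q (θ - h) - Q θ)) := by
    intro θ
    have e1 := AbsolutelyContinuousOnInterval.integral_mul_deriv_eq_deriv_mul
      (hα.ac a b θ) (hβ.ac a b (θ + h))
    have e2 := AbsolutelyContinuousOnInterval.integral_mul_deriv_eq_deriv_mul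
      (hα.ac a b θ) (hβ.ac a b (θ - h))
    have e3 : R (θ + h) = ∫ x in a..b, α x θ * deriv (fun x => β x (θ + h)) x := by
      simp only [hR, d1, add_sub_cancel_right]
    have e4 : Q (θ - h) = ∫ x in a..b, α x θ * deriv (fun x => β x (θ - h)) x := by
      simp only [hQ, d1, sub_add_cancel]
    have i1 : IntervalIntegrable (fun x => deriv (fun x => α x θ) x * β x (θ + h)) volume a b := by
      have := intervalIntegrable_mul (cβ continuous_id (continuous_const (y := θ + h)))
        (m1 measurable_id (measurable_const (a := θ))) (fun p => hα.abs_d1_le _ _) a b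
      exact this.congr fun x _ => by simp [d1, mul_comm]
    have i2 : IntervalIntegrable (fun x => deriv (fun x => α x θ) x * β x (θ - h)) volume a b := by
      have := intervalIntegrable_mul (cβ continuous_id (continuous_const (y := θ - h)))
        (m1 measurable_id (measurable_const (a := θ))) (fun p => hα.abs_d1_le _ _) a b
      exact this.congr fun x _ => by simp [d1, mul_comm]
    have i3 : IntervalIntegrable (fun x => α x (θ + h) * d1 β x θ) volume a b :=
      intervalIntegrable_mul (cα continuous_id (continuous_const (y := θ + h)))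
        (m2 measurable_id (measurable_const (a := θ))) (fun p => hβ.abs_d1_le _ _) a b
    have i4 : IntervalIntegrable (fun x => α x (θ - h) * d1 β x θ) volume a b :=
      intervalIntegrable_mul (cα continuous_id (continuous_const (y := θ - h)))
        (m2 measurable_id (measurable_const (a := θ))) (fun p => hβ.abs_d1_le _ _) a b
    have e5 : ∫ x in a..b,
        (d1 α x θ * (β x (θ + h) - β x (θ - h)) - (α x (θ + h) - α x (θ - h)) * d1 β x θ) =
        ((∫ x in a..b, deriv (fun x => α x θ) x * β x (θ + h)) -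
          ∫ x in a..b, deriv (fun x => α x θ) x * β x (θ - h)) - (Q θ - R θ) := by
      rw [← intervalIntegral.integral_sub i1 i2, hQ, hR]
      simp only
      rw [← intervalIntegral.integral_sub i3 i4, ← intervalIntegral.integral_sub (i1.sub i2)
        (i3.sub i4)]
      refine intervalIntegral.integral_congr fun x _ => ?_
      simp only [d1]
      ring
    rw [e5, e3, e4]
    linarith
  have hpQ : ∀ θ, Q (θ + 2 * π) = Q θ := by
    intro θ
    simp only [hQ]
    refine intervalIntegral.integral_congr fun x _ => ?_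
    rw [pβ, show θ + 2 * π + h = θ + h + 2 * π by ring, hpα]
  have hpR : ∀ θ, R (θ + 2 * π) = R θ := by
    intro θ
    simp only [hR]
    refine intervalIntegral.integral_congr fun x _ => ?_
    rw [pβ, show θ + 2 * π - h = θ - h + 2 * π by ring, hpα]
  have iQ : ∀ c d : ℝ, c ≤ d → IntervalIntegrable Q volume c d := fun c d hcd =>
    intervalIntegrable_param (G := fun p : ℝ × ℝ => α p.1 (p.2 + h))
      (D := fun p : ℝ × ℝ => d1 β p.1 p.2)
      (hcα.comp (continuous_fst.prodMk (continuous_snd.add continuous_const)))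
      hβ.measurable_d1 (fun p => hβ.abs_d1_le _ _) hab hcd
  have iR : ∀ c d : ℝ, c ≤ d → IntervalIntegrable R volume c d := fun c d hcd =>
    intervalIntegrable_param (G := fun p : ℝ × ℝ => α p.1 (p.2 - h))
      (D := fun p : ℝ × ℝ => d1 β p.1 p.2)
      (hcα.comp (continuous_fst.prodMk (continuous_snd.sub continuous_const)))
      hβ.measurable_d1 (fun p => hβ.abs_d1_le _ _) hab hcd
  have h2 : (0 : ℝ) ≤ 2 * π := by positivity
  have i5 : IntervalIntegrable (fun θ => R (θ + h)) volume 0 (2 * π) := by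
    have := (iR (0 + h) (2 * π + h) (by linarith)).comp_add_right h
    simpa using this
  have i6 : IntervalIntegrable (fun θ => Q (θ - h)) volume 0 (2 * π) := by
    have := (iQ (0 - h) (2 * π - h) (by linarith)).comp_sub_right h
    simpa using this
  have s1 : ∫ θ in (0 : ℝ)..2 * π, R (θ + h) = ∫ θ in (0 : ℝ)..2 * π, R θ := by
    rw [intervalIntegral.integral_comp_add_right (fun θ => R θ)]
    have hper : Function.Periodic R (2 * π) := hpR
    have := hper.intervalIntegral_add_eq (0 + h) 0
    rw [zero_add (2 * π)] at this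
    rw [← this]
    congr 1
    ring
  have s2 : ∫ θ in (0 : ℝ)..2 * π, Q (θ - h) = ∫ θ in (0 : ℝ)..2 * π, Q θ := by
    rw [intervalIntegral.integral_comp_sub_right (fun θ => Q θ)]
    have hper : Function.Periodic Q (2 * π) := hpQ
    have := hper.intervalIntegral_add_eq (0 - h) 0
    rw [zero_add (2 * π)] at this
    rw [← this]
    congr 1
    ring
  have i7 : IntervalIntegrable (fun θ => α b θ * (β b (θ + h) - β b (θ - h)) -
      α a θ * (β a (θ + h) - β a (θ - h))) volume 0 (2 * π) := by
    apply Continuous.intervalIntegrable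
    have c1 : ∀ y : ℝ, Continuous fun θ : ℝ => α y θ := fun y => cα continuous_const continuous_id
    have c2 : ∀ y : ℝ, Continuous fun θ : ℝ => β y (θ + h) := fun y =>
      cβ continuous_const (continuous_id.add continuous_const)
    have c3 : ∀ y : ℝ, Continuous fun θ : ℝ => β y (θ - h) := fun y =>
      cβ continuous_const (continuous_id.sub continuous_const)
    exact ((c1 b).mul ((c2 b).sub (c3 b))).sub ((c1 a).mul ((c2 a).sub (c3 a)))
  have i8 := iQ 0 (2 * π) h2
  have i9 := iR 0 (2 * π) h2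
  simp_rw [key]
  rw [intervalIntegral.integral_add i7 ((i9.sub i5).add (i6.sub i8)),
    intervalIntegral.integral_add (i9.sub i5) (i6.sub i8),
    intervalIntegral.integral_sub i9 i5, intervalIntegral.integral_sub i6 i8, s1, s2]
  ring

end Real2

/-- The clamped function in real coordinates. -/
noncomputable def cl (a b : ℝ) (A : ℂ → ℝ) (x θ : ℝ) : ℝ := A (pt (max a (min x b)) θ)

theorem cl_eq {a b : ℝ} {A : ℂ → ℝ} {x : ℝ} (h1 : a ≤ x) (h2 : x ≤ b) (θ : ℝ) :
    cl a b A x θ = A (pt x θ) := by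
  unfold cl
  rw [min_eq_left h2, max_eq_right h1]

theorem lip2_cl {a b : ℝ} (hab : a ≤ b) {A : ℂ → ℝ} {K : NNReal}
    (hA : LipschitzOnWith K A {z | a ≤ z.re ∧ z.re ≤ b}) : Lip2 K (cl a b A) := by
  intro x θ x' θ'
  have h1 : ∀ y : ℝ, a ≤ max a (min y b) ∧ max a (min y b) ≤ b := fun y =>
    ⟨le_max_left _ _, max_le hab (min_le_right _ _)⟩
  have h2 : pt (max a (min x b)) θ ∈ {z : ℂ | a ≤ z.re ∧ z.re ≤ b} := by
    simpa [pt_mk] using h1 x
  have h3 : pt (max a (min x' b)) θ' ∈ {z : ℂ | a ≤ z.re ∧ z.re ≤ b} := by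
    simpa [pt_mk] using h1 x'
  have h4 := hA.dist_le_mul _ h2 _ h3
  have h5 : dist (pt (max a (min x b)) θ) (pt (max a (min x' b)) θ') ≤
      |max a (min x b) - max a (min x' b)| + |θ - θ'| := by
    rw [Complex.dist_eq]
    refine (Complex.norm_le_abs_re_add_abs_im _).trans ?_
    simp [pt_mk]
  have h6 : |max a (min x b) - max a (min x' b)| ≤ |x - x'| := by
    refine (abs_max_sub_max_le_max _ _ _ _).trans ?_
    rw [sub_self, abs_zero, max_eq_right (abs_nonneg _)]
    refine (abs_min_sub_min_le_max _ _ _ _).trans ?_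
    rw [sub_self, abs_zero, max_eq_left (abs_nonneg _)]
  have h7 : (0 : ℝ) ≤ K := K.2
  calc |cl a b A x θ - cl a b A x' θ'| = dist (cl a b A x θ) (cl a b A x' θ') :=
        (Real.dist_eq _ _).symm
    _ ≤ K * dist (pt (max a (min x b)) θ) (pt (max a (min x' b)) θ') := h4
    _ ≤ K * (|x - x'| + |θ - θ'|) := by gcongr; linarith

theorem hasDerivAt_pt_re {A : ℂ → ℝ} {z : ℂ} (hz : DifferentiableAt ℝ A z) :
    HasDerivAt (fun x : ℝ => A (pt x z.im)) (fderiv ℝ A z 1) z.re := by
  have h1 : HasDerivAt (fun x : ℝ => pt x z.im) 1 z.re := by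
    unfold pt
    exact (Complex.ofRealCLM.hasDerivAt (x := z.re)).add_const _
  have h2 : pt z.re z.im = z := by simp [pt_mk]
  have h3 : HasFDerivAt A (fderiv ℝ A z) (pt z.re z.im) := by
    rw [h2]; exact hz.hasFDerivAt
  exact h3.comp_hasDerivAt z.re h1

theorem hasDerivAt_pt_im {A : ℂ → ℝ} {z : ℂ} (hz : DifferentiableAt ℝ A z) :
    HasDerivAt (fun θ : ℝ => A (pt z.re θ)) (fderiv ℝ A z Complex.I) z.im := by
  have h1 : HasDerivAt (fun θ : ℝ => pt z.re θ) Complex.I z.im := by
    unfold pt
    have := ((Complex.ofRealCLM.hasDerivAt (x := z.im)).mul_const Complex.I).const_add (z.re : ℂ)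
    simpa using this
  have h2 : pt z.re z.im = z := by simp [pt_mk]
  have h3 : HasFDerivAt A (fderiv ℝ A z) (pt z.re z.im) := by
    rw [h2]; exact hz.hasFDerivAt
  exact h3.comp_hasDerivAt z.im h1

theorem ae_differentiableAt_cell {a b : ℝ} {A : ℂ → ℝ} {K : NNReal}
    (hA : LipschitzOnWith K A {z | a ≤ z.re ∧ z.re ≤ b}) :
    ∀ᵐ z : ℂ, z ∈ Cell a b → (a < z.re ∧ z.re < b) ∧ DifferentiableAt ℝ A z := by
  filter_upwards [ae_re_ne b, hA.ae_differentiableWithinAt_of_mem] with z h1 h2 h3
  have h4 : z.re < b := lt_of_le_of_ne h3.2.1 h1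
  refine ⟨⟨h3.1, h4⟩, ?_⟩
  exact (h2 ⟨h3.1.le, h4.le⟩).differentiableAt (strip_mem_nhds h3.1 h4)

theorem _root_.Pool.Agent.CC57.rect_stokes {a b : ℝ} (hab : a ≤ b) {A B : ℂ → ℝ} {K : NNReal}
    (hA : LipschitzOnWith K A {z | a ≤ z.re ∧ z.re ≤ b})
    (hB : LipschitzOnWith K B {z | a ≤ z.re ∧ z.re ≤ b})
    (hAp : ∀ z : ℂ, a ≤ z.re → z.re ≤ b → A (z + 2 * π * Complex.I) = A z)
    (hBp : ∀ z : ℂ, a ≤ z.re → z.re ≤ b → B (z + 2 * π * Complex.I) = B z) :
    ∫ z in Cell a b, br B A z =
      (∫ θ in (0 : ℝ)..2 * π, A (pt b θ) * deriv (fun θ => B (pt b θ)) θ) -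
      ∫ θ in (0 : ℝ)..2 * π, A (pt a θ) * deriv (fun θ => B (pt a θ)) θ := by
  set α := cl a b A with hαd
  set β := cl a b B with hβd
  have hα : Lip2 K α := lip2_cl hab hA
  have hβ : Lip2 K β := lip2_cl hab hB
  have hcα := hα.continuous
  have hcβ := hβ.continuous
  have hK : (0 : ℝ) ≤ K := K.2
  have hpt : ∀ x θ : ℝ, pt x (θ + 2 * π) = pt x θ + 2 * π * Complex.I := by
    intro x θ
    simp only [pt]
    push_cast
    ring
  have h1 : ∀ y : ℝ, a ≤ max a (min y b) ∧ max a (min y b) ≤ b := fun y =>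
    ⟨le_max_left _ _, max_le hab (min_le_right _ _)⟩
  have hpα : ∀ x θ, α x (θ + 2 * π) = α x θ := by
    intro x θ
    simp only [hαd, cl]
    rw [hpt]
    exact hAp _ (by simp [pt_mk]) (by simpa [pt_mk] using (h1 x).2)
  have hpβ : ∀ x θ, β x (θ + 2 * π) = β x θ := by
    intro x θ
    simp only [hβd, cl]
    rw [hpt]
    exact hBp _ (by simp [pt_mk]) (by simpa [pt_mk] using (h1 x).2)
  -- the approximating integrands
  set E : ℝ → ℝ → ℝ → ℝ := fun h x θ => (2 * h)⁻¹ *
    (d1 α x θ * (β x (θ + h) - β x (θ - h)) - (α x (θ + h) - α x (θ - h)) * d1 β x θ) with hE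
  have mE : ∀ h, Measurable (fun z : ℂ => E h z.re z.im) := by
    intro h
    have m0 : Measurable fun z : ℂ => (z.re, z.im) :=
      Complex.measurable_re.prodMk Complex.measurable_im
    have m1 : Measurable fun z : ℂ => d1 α z.re z.im := hα.measurable_d1.comp m0
    have m2 : Measurable fun z : ℂ => d1 β z.re z.im := hβ.measurable_d1.comp m0
    have m3 : Measurable fun z : ℂ => β z.re (z.im + h) :=
      (hcβ.comp (Complex.continuous_re.prodMk (Complex.continuous_im.add continuous_const))).measurable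
    have m4 : Measurable fun z : ℂ => β z.re (z.im - h) :=
      (hcβ.comp (Complex.continuous_re.prodMk (Complex.continuous_im.sub continuous_const))).measurable
    have m5 : Measurable fun z : ℂ => α z.re (z.im + h) :=
      (hcα.comp (Complex.continuous_re.prodMk (Complex.continuous_im.add continuous_const))).measurable
    have m6 : Measurable fun z : ℂ => α z.re (z.im - h) :=
      (hcα.comp (Complex.continuous_re.prodMk (Complex.continuous_im.sub continuous_const))).measurable
    exact ((m1.mul (m3.sub m4)).sub ((m5.sub m6).mul m2)).const_mul _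
  have quot_le : ∀ {γ : ℝ → ℝ → ℝ}, Lip2 K γ → ∀ (h x θ : ℝ), 0 < h →
      |(2 * h)⁻¹ * (γ x (θ + h) - γ x (θ - h))| ≤ K := by
    intro γ hγ h x θ hh
    have h3 := hγ x (θ + h) x (θ - h)
    rw [sub_self, abs_zero, zero_add, show θ + h - (θ - h) = 2 * h by ring,
      abs_of_pos (by linarith : (0 : ℝ) < 2 * h)] at h3
    rw [abs_mul, abs_of_pos (by positivity : (0 : ℝ) < (2 * h)⁻¹)]
    rw [inv_mul_le_iff₀ (by positivity)]
    linarith
  have bE : ∀ h, 0 < h → ∀ x θ, |E h x θ| ≤ 2 * K ^ 2 := by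
    intro h hh x θ
    have e1 : E h x θ = d1 α x θ * ((2 * h)⁻¹ * (β x (θ + h) - β x (θ - h))) -
        ((2 * h)⁻¹ * (α x (θ + h) - α x (θ - h))) * d1 β x θ := by
      simp only [hE]
      ring
    rw [e1]
    have f1 := hα.abs_d1_le x θ
    have f2 := hβ.abs_d1_le x θ
    have f3 := quot_le hα h x θ hh
    have f4 := quot_le hβ h x θ hh
    have g1 : |d1 α x θ * ((2 * h)⁻¹ * (β x (θ + h) - β x (θ - h)))| ≤ K * K := by
      rw [abs_mul]; exact mul_le_mul f1 f4 (abs_nonneg _) hK
    have g2 : |((2 * h)⁻¹ * (α x (θ + h) - α x (θ - h))) * d1 β x θ| ≤ K * K := by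
      rw [abs_mul]; exact mul_le_mul f3 f2 (abs_nonneg _) hK
    exact (abs_sub _ _).trans ((add_le_add g1 g2).trans (le_of_eq (by ring)))
  have iE : ∀ h, 0 < h → IntegrableOn (fun z : ℂ => E h z.re z.im) (Cell a b) := by
    intro h hh
    exact Measure.integrableOn_of_bounded (M := 2 * K ^ 2) (volume_cell_lt_top a b).ne
      (mE h).aestronglyMeasurable (Filter.Eventually.of_forall fun z => bE h hh _ _)
  -- the integral of the approximations
  have lhs : ∀ h, 0 < h → ∫ z in Cell a b, E h z.re z.im =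
      (∫ θ in (0 : ℝ)..2 * π, α b θ * ((2 * h)⁻¹ * (β b (θ + h) - β b (θ - h)))) -
      ∫ θ in (0 : ℝ)..2 * π, α a θ * ((2 * h)⁻¹ * (β a (θ + h) - β a (θ - h))) := by
    intro h hh
    rw [integral_cell_symm hab (iE h hh)]
    have e1 : ∀ θ : ℝ, ∫ x in a..b, E h (pt x θ).re (pt x θ).im = (2 * h)⁻¹ * ∫ x in a..b,
        (d1 α x θ * (β x (θ + h) - β x (θ - h)) - (α x (θ + h) - α x (θ - h)) * d1 β x θ) := by
      intro θ
      rw [← intervalIntegral.integral_const_mul]
      refine intervalIntegral.integral_congr fun x _ => ?_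
      simp [hE, pt_mk]
    simp_rw [e1]
    rw [intervalIntegral.integral_const_mul, disc_stokes hα hβ hpα hpβ hab h]
    have c1 : ∀ y : ℝ, Continuous fun θ : ℝ => α y θ := fun y =>
      hcα.comp (continuous_const.prodMk continuous_id)
    have c2 : ∀ y : ℝ, Continuous fun θ : ℝ => β y (θ + h) := fun y =>
      hcβ.comp (continuous_const.prodMk (continuous_id.add continuous_const))
    have c3 : ∀ y : ℝ, Continuous fun θ : ℝ => β y (θ - h) := fun y =>
      hcβ.comp (continuous_const.prodMk (continuous_id.sub continuous_const))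
    have c4 : ∀ y : ℝ, IntervalIntegrable (fun θ : ℝ =>
        α y θ * ((2 * h)⁻¹ * (β y (θ + h) - β y (θ - h)))) volume 0 (2 * π) := fun y =>
      ((c1 y).mul (continuous_const.mul ((c2 y).sub (c3 y)))).intervalIntegrable _ _
    rw [← intervalIntegral.integral_sub (c4 b) (c4 a), ← intervalIntegral.integral_const_mul]
    refine intervalIntegral.integral_congr fun θ _ => ?_
    ring
  -- limits
  have lim1 : Filter.Tendsto (fun h => ∫ z in Cell a b, E h z.re z.im)
      (nhdsWithin 0 (Ioi 0)) (nhds (∫ z in Cell a b, br B A z)) := by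
    refine tendsto_integral_filter_of_dominated_convergence (fun _ => 2 * K ^ 2) ?_ ?_ ?_ ?_
    · exact Filter.Eventually.of_forall fun h => (mE h).aestronglyMeasurable
    · filter_upwards [self_mem_nhdsWithin] with h hh
      exact Filter.Eventually.of_forall fun z => bE h hh _ _
    · have : IsFiniteMeasure ((volume : Measure ℂ).restrict (Cell a b)) :=
        ⟨by rw [Measure.restrict_apply_univ]; exact volume_cell_lt_top a b⟩
      exact integrable_const _
    · rw [ae_restrict_iff' (measurableSet_cell a b)]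
      filter_upwards [ae_differentiableAt_cell hA, ae_differentiableAt_cell hB] with z k1 k2 hz
      obtain ⟨⟨z1, z2⟩, k3⟩ := k1 hz
      obtain ⟨-, k4⟩ := k2 hz
      have ev : ∀ᶠ s in nhds z.re, a ≤ s ∧ s ≤ b := by
        filter_upwards [Ioo_mem_nhds z1 z2] with s hs using ⟨hs.1.le, hs.2.le⟩
      have a1 : d1 α z.re z.im = fderiv ℝ A z 1 := by
        refine HasDerivAt.deriv ?_
        refine (hasDerivAt_pt_re k3).congr_of_eventuallyEq ?_
        filter_upwards [ev] with s hs
        exact cl_eq hs.1 hs.2 _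
      have b1 : d1 β z.re z.im = fderiv ℝ B z 1 := by
        refine HasDerivAt.deriv ?_
        refine (hasDerivAt_pt_re k4).congr_of_eventuallyEq ?_
        filter_upwards [ev] with s hs
        exact cl_eq hs.1 hs.2 _
      have a2 := tendsto_symm_quot (hasDerivAt_pt_im k3)
      have b2 := tendsto_symm_quot (hasDerivAt_pt_im k4)
      have lim := (b2.const_mul (fderiv ℝ A z 1)).sub (a2.mul_const (fderiv ℝ B z 1))
      refine lim.congr fun h => ?_
      simp only [hE]
      rw [a1, b1]
      simp only [hαd, hβd]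
      rw [cl_eq z1.le z2.le, cl_eq z1.le z2.le, cl_eq z1.le z2.le, cl_eq z1.le z2.le]
      ring
  have lim2 : ∀ y : ℝ, a ≤ y → y ≤ b → Filter.Tendsto (fun h =>
      ∫ θ in (0 : ℝ)..2 * π, α y θ * ((2 * h)⁻¹ * (β y (θ + h) - β y (θ - h))))
      (nhdsWithin 0 (Ioi 0))
      (nhds (∫ θ in (0 : ℝ)..2 * π, A (pt y θ) * deriv (fun θ => B (pt y θ)) θ)) := by
    intro y hy1 hy2
    have c1 : Continuous fun θ : ℝ => α y θ := hcα.comp (continuous_const.prodMk continuous_id)
    refine intervalIntegral.tendsto_integral_filter_of_dominated_convergence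
      (fun θ => |α y θ| * K) ?_ ?_ ?_ ?_
    · refine Filter.Eventually.of_forall fun h => Continuous.aestronglyMeasurable ?_
      have c2 : Continuous fun θ : ℝ => β y (θ + h) :=
        hcβ.comp (continuous_const.prodMk (continuous_id.add continuous_const))
      have c3 : Continuous fun θ : ℝ => β y (θ - h) :=
        hcβ.comp (continuous_const.prodMk (continuous_id.sub continuous_const))
      exact c1.mul (continuous_const.mul (c2.sub c3))
    · filter_upwards [self_mem_nhdsWithin] with h hh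
      refine Filter.Eventually.of_forall fun θ _ => ?_
      rw [norm_mul]
      exact mul_le_mul le_rfl (quot_le hβ h y θ hh) (norm_nonneg _) (abs_nonneg _)
    · exact (c1.abs.mul continuous_const).intervalIntegrable _ _
    · have l1 := (hβ.snd y).ae_differentiableAt_real
      filter_upwards [l1] with θ hθ _
      have e1 : (fun θ => β y θ) = fun θ => B (pt y θ) := by
        funext θ
        exact cl_eq hy1 hy2 θ
      have e2 := tendsto_symm_quot hθ.hasDerivAt
      rw [e1] at e2
      have e3 := e2.const_mul (A (pt y θ))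
      refine e3.congr fun h => ?_
      simp only [hαd, hβd]
      rw [cl_eq hy1 hy2, cl_eq hy1 hy2, cl_eq hy1 hy2]
  have lim3 := (lim2 b hab le_rfl).sub (lim2 a le_rfl hab)
  refine tendsto_nhds_unique lim1 (lim3.congr' ?_)
  filter_upwards [self_mem_nhdsWithin] with h hh
  exact (lhs h hh).symm

end RectAux

end Pool.Agent.CC57
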