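import Pool.Agent.CC57.Sph

set_option autoImplicit false

/-!
The symmetry identity.  For fixed `x` (`‖x‖ < 1`) put `m = inn x σ`, `n = inp x σ`, `α = inn a σ`,
`β = inn b σ`, `α' = inp a σ`, `β' = inp b σ`.  By `hasDerivAt_inn`, `m' = n` and `α`, `β` have the
derivatives `α'`, `β'` in `σ`.  Hence
`d/dσ (α β / (1 - m²)) = (α' β + α β') / (1 - m²) + 2 m n α β / (1 - m²)² = Dg a DT b + DT a Dg b`
(use `qx² = 1 - m²`), and the integral of the derivative of a `2π`-periodic function over a period is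
zero.
-/

open Real MeasureTheory Set

namespace Pool.Agent.CC57

theorem avg_sym {x : ℂ} (hx : ‖x‖ < 1) (a b : ℂ) :
    avg (fun σ => Dg x σ a * DT x σ b + DT x σ a * Dg x σ b) = 0 := by
  have hq0 : ∀ σ, qx x σ ≠ 0 := fun σ => (qx_pos hx σ).ne'
  have hq : ∀ σ, qx x σ ^ 2 = 1 - inn x σ ^ 2 := fun σ => qx_sq hx σ
  have hd : ∀ σ, HasDerivAt (fun σ => inn a σ * inn b σ / (1 - inn x σ ^ 2))
      (Dg x σ a * DT x σ b + DT x σ a * Dg x σ b) σ := by
    intro σ
    have h1 := ((hasDerivAt_inn a σ).mul (hasDerivAt_inn b σ)).div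
      (((hasDerivAt_inn x σ).pow 2).const_sub 1) (by
        change 1 - inn x σ ^ 2 ≠ 0
        rw [← hq σ]
        exact pow_ne_zero 2 (hq0 σ))
    refine h1.congr_deriv ?_
    simp only [Pi.mul_apply, Pi.pow_apply]
    unfold Dg DT
    rw [← hq σ]
    have h2 := hq0 σ
    field_simp
    ring
  have hcont : ∀ c : ℂ, Continuous fun σ => Dg x σ c := by
    intro c
    have h1 : Continuous fun σ : ℝ => ((x, σ) : ℂ × ℝ) := by fun_prop
    exact (continuousOn_Dg c).comp_continuous h1 (fun σ => hx)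
  have hcont2 : ∀ c : ℂ, Continuous fun σ => DT x σ c := by
    intro c
    have h1 : Continuous fun σ : ℝ => ((x, σ) : ℂ × ℝ) := by fun_prop
    exact (continuousOn_DT c).comp_continuous h1 (fun σ => hx)
  have hint : IntervalIntegrable (fun σ => Dg x σ a * DT x σ b + DT x σ a * Dg x σ b) volume 0
      (2 * π) :=
    (((hcont a).mul (hcont2 b)).add ((hcont2 a).mul (hcont b))).intervalIntegrable _ _
  unfold avg
  rw [intervalIntegral.integral_eq_sub_of_hasDerivAt (fun σ _ => hd σ) hint]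
  have e : (2 * π : ℝ) = 0 + 2 * π := by ring
  have e1 : ∀ c : ℂ, inn c (2 * π) = inn c 0 := fun c => by
    have := inn_per c 0
    rwa [zero_add] at this
  rw [e1, e1, e1, sub_self, mul_zero]

end Pool.Agent.CC57
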