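import Pool.Agent.CC57.FinDefs
import Pool.Agent.CC57.Rect
import Pool.Agent.CC57.SphDer
import Pool.Agent.CC57.Sym

set_option autoImplicit false

/-!
The exact formula `Gam h W - Gam h X = -2 avg_σ ∫_0^1 Jt h X W σ t dt`.

Fix `σ`.  On the cylinder `0 ≤ Re z ≤ 1` (`z = t + iθ`) put `A z = 2 h σ θ - gx (w_t θ) σ`,
`B z = Tx (w_t θ) σ` with `w_t = wt X W t`.  Both are Lipschitz (products and compositions of bounded
Lipschitz functions; `‖w_t‖ ≤ ε ≤ 1/2`) and periodic.  At almost every `z`,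
`A_t = -Dg(w_t)[u]`, `A_θ = 2 h' - Dg(w_t)[w_t']`, `B_t = DT(w_t)[u]`, `B_θ = DT(w_t)[w_t']`
(`hasFDerivAt_gx`, `hasFDerivAt_Tx`, `u = du X W`, `w_t' = deriv (wt X W t)`; a.e. `θ` is a point of
differentiability of `X`, `W`, `h σ`).  `rect_stokes` with `a = 0`, `b = 1` gives
`∮ (2h - g(W)) DT(W)[W'] - ∮ (2h - g(X)) DT(X)[X'] = ∫_0^1 ∮ (-Dg[u] DT[w'] - (2h' - Dg[w']) DT[u])`.
Now `-Dg[u]DT[w'] - (2h' - Dg[w'])DT[u] = -2 DT[u] (h' - Dg[w']) - (Dg[u]DT[w'] + DT[u]Dg[w'])`; the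
mean over `σ` of the last bracket is zero for all `(t,θ)` (`avg_sym`), by Fubini its integral vanishes.
All integrands are bounded and measurable in `(σ,t,θ)` (`h` is jointly continuous, so
`(σ,θ) ↦ deriv (h σ) θ` is measurable: `measurable_deriv_with_param`), which gives the integrability
statements as well.  Note `deriv (fun θ => h σ θ - gx (w_t θ) σ) θ = h' - Dg[w']` for a.e. `θ`.
-/

open Real MeasureTheory Set

namespace Pool.Agent.CC57

private theorem meas_qx : Measurable fun p : ℂ × ℝ => qx p.1 p.2 := by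
  unfold qx
  exact (continuous_sqrt.comp (continuous_const.sub (continuous_inn.pow 2))).measurable

private theorem meas_Dg {α : Type*} [MeasurableSpace α] {x a : α → ℂ} {s : α → ℝ}
    (hx : Measurable x) (hs : Measurable s) (ha : Measurable a) :
    Measurable fun p => Dg (x p) (s p) (a p) := by
  unfold Dg
  exact (continuous_inn.measurable.comp (ha.prodMk hs)).div (meas_qx.comp (hx.prodMk hs))

private theorem meas_DT {α : Type*} [MeasurableSpace α] {x a : α → ℂ} {s : α → ℝ}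
    (hx : Measurable x) (hs : Measurable s) (ha : Measurable a) :
    Measurable fun p => DT (x p) (s p) (a p) := by
  unfold DT
  have hq := meas_qx.comp (hx.prodMk hs)
  have h1 := continuous_inn.measurable.comp (hx.prodMk hs)
  have h2 := continuous_inp.measurable.comp (hx.prodMk hs)
  have h3 := continuous_inn.measurable.comp (ha.prodMk hs)
  have h4 := continuous_inp.measurable.comp (ha.prodMk hs)
  exact (h4.div hq).add (((h2.mul h1).mul h3).div (hq.pow_const 3))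

private theorem two_pi_pos' : (0 : ℝ) ≤ 2 * π := by positivity

private theorem fub {F : ℝ → ℝ → ℝ → ℝ}
    (hF : Measurable fun p : (ℝ × ℝ) × ℝ => F p.1.1 p.1.2 p.2) {C : ℝ}
    (hC : ∀ σ t θ, 0 ≤ t → t ≤ 1 → |F σ t θ| ≤ C) :
    (∀ σ t, 0 ≤ t → t ≤ 1 → IntervalIntegrable (F σ t) volume 0 (2 * π)) ∧
    (∀ σ, IntervalIntegrable (fun t => ∫ θ in (0 : ℝ)..2 * π, F σ t θ) volume 0 1) ∧
    IntervalIntegrable (fun σ => ∫ t in (0 : ℝ)..1, ∫ θ in (0 : ℝ)..2 * π, F σ t θ)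
      volume 0 (2 * π) ∧
    (∫ σ in (0 : ℝ)..2 * π, ∫ t in (0 : ℝ)..1, ∫ θ in (0 : ℝ)..2 * π, F σ t θ) =
      ∫ t in (0 : ℝ)..1, ∫ θ in (0 : ℝ)..2 * π, ∫ σ in (0 : ℝ)..2 * π, F σ t θ := by
  have h2 := two_pi_pos'
  simp only [intervalIntegral.integral_of_le h2, intervalIntegral.integral_of_le zero_le_one]
  set μ : Measure ℝ := volume.restrict (Ioc 0 (2 * π)) with hμ
  set ν : Measure ℝ := volume.restrict (Ioc 0 1) with hν
  -- measurability of the inner integral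
  have hG : Measurable fun p : ℝ × ℝ => ∫ θ, F p.1 p.2 θ ∂μ :=
    (StronglyMeasurable.integral_prod_right (f := fun (p : ℝ × ℝ) θ => F p.1 p.2 θ)
      hF.stronglyMeasurable).measurable
  have hGb : ∀ σ t, 0 ≤ t → t ≤ 1 → ‖∫ θ, F σ t θ ∂μ‖ ≤ C * μ.real univ := by
    intro σ t h0 h1
    exact norm_integral_le_of_norm_le_const (Filter.Eventually.of_forall fun θ => hC σ t θ h0 h1)
  have hH : Measurable fun σ : ℝ => ∫ t, ∫ θ, F σ t θ ∂μ ∂ν :=
    (StronglyMeasurable.integral_prod_right (f := fun (σ : ℝ) t => ∫ θ, F σ t θ ∂μ)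
      hG.stronglyMeasurable).measurable
  have hνt : ∀ᵐ t ∂ν, 0 ≤ t ∧ t ≤ 1 := by
    rw [hν]
    filter_upwards [ae_restrict_mem measurableSet_Ioc] with t ht
    exact ⟨ht.1.le, ht.2⟩
  have hHb : ∀ σ, ‖∫ t, ∫ θ, F σ t θ ∂μ ∂ν‖ ≤ C * μ.real univ * ν.real univ := by
    intro σ
    refine norm_integral_le_of_norm_le_const ?_
    filter_upwards [hνt] with t ht
    exact hGb σ t ht.1 ht.2
  refine ⟨?_, ?_, ?_, ?_⟩
  · intro σ t h0 h1
    rw [intervalIntegrable_iff_integrableOn_Ioc_of_le h2]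
    refine Integrable.of_bound (C := C) ?_ (Filter.Eventually.of_forall fun θ => hC σ t θ h0 h1)
    exact (hF.comp (measurable_const.prodMk measurable_id :
      Measurable fun θ : ℝ => (((σ, t) : ℝ × ℝ), θ))).aestronglyMeasurable
  · intro σ
    rw [intervalIntegrable_iff_integrableOn_Ioc_of_le zero_le_one]
    refine Integrable.of_bound (C := C * μ.real univ) ?_ ?_
    · exact (hG.comp (measurable_const.prodMk measurable_id :
        Measurable fun t : ℝ => ((σ, t) : ℝ × ℝ))).aestronglyMeasurable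
    · filter_upwards [hνt] with t ht
      exact hGb σ t ht.1 ht.2
  · rw [intervalIntegrable_iff_integrableOn_Ioc_of_le h2]
    exact Integrable.of_bound (C := C * μ.real univ * ν.real univ) hH.aestronglyMeasurable
      (Filter.Eventually.of_forall hHb)
  · rw [integral_integral_swap]
    · refine integral_congr_ae ?_
      filter_upwards [hνt] with t ht
      rw [integral_integral_swap]
      refine Integrable.of_bound (C := C) ?_
        (Filter.Eventually.of_forall fun p => hC p.1 t p.2 ht.1 ht.2)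
      exact (hF.comp (((measurable_fst.prodMk measurable_const).prodMk measurable_snd :
        Measurable fun p : ℝ × ℝ => (((p.1, t) : ℝ × ℝ), p.2)))).aestronglyMeasurable
    · refine Integrable.of_bound (C := C * μ.real univ) hG.aestronglyMeasurable ?_
      have : ∀ᵐ p ∂(μ.prod ν), 0 ≤ p.2 ∧ p.2 ≤ 1 :=
        Measure.quasiMeasurePreserving_snd.ae hνt
      filter_upwards [this] with p hp
      exact hGb p.1 p.2 hp.1 hp.2


private theorem fub2 {F : ℝ → ℝ → ℝ} (hF : Measurable fun p : ℝ × ℝ => F p.1 p.2) {C : ℝ}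
    (hC : ∀ σ θ, 0 ≤ σ → σ ≤ 2 * π → 0 ≤ θ → θ ≤ 2 * π → |F σ θ| ≤ C) :
    IntervalIntegrable (fun σ => ∫ θ in (0 : ℝ)..2 * π, F σ θ) volume 0 (2 * π) := by
  have h2 := two_pi_pos'
  simp only [intervalIntegral.integral_of_le h2]
  rw [intervalIntegrable_iff_integrableOn_Ioc_of_le h2]
  set μ : Measure ℝ := volume.restrict (Ioc 0 (2 * π)) with hμ
  have hG : Measurable fun σ : ℝ => ∫ θ, F σ θ ∂μ :=
    (StronglyMeasurable.integral_prod_right (f := fun (σ : ℝ) θ => F σ θ)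
      hF.stronglyMeasurable).measurable
  have hμt : ∀ᵐ t ∂μ, 0 ≤ t ∧ t ≤ 2 * π := by
    rw [hμ]
    filter_upwards [ae_restrict_mem measurableSet_Ioc] with t ht
    exact ⟨ht.1.le, ht.2⟩
  refine Integrable.of_bound (C := C * μ.real univ) hG.aestronglyMeasurable ?_
  filter_upwards [hμt] with σ hσ
  refine norm_integral_le_of_norm_le_const ?_
  filter_upwards [hμt] with θ hθ
  exact hC σ θ hσ.1 hσ.2 hθ.1 hθ.2

private theorem wt_norm {ε : ℝ} {K : NNReal} {X W : ℝ → ℂ} (hD : Curves ε K X W) {t : ℝ}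
    (h0 : 0 ≤ t) (h1 : t ≤ 1) (θ : ℝ) : ‖wt X W t θ‖ ≤ 1 / 2 := by
  have : wt X W t θ = ((1 - t : ℝ) : ℂ) * X θ + (t : ℂ) * W θ := by
    unfold wt du; push_cast; ring
  rw [this]
  refine (norm_add_le _ _).trans ?_
  rw [norm_mul, norm_mul, Complex.norm_real, Complex.norm_real, Real.norm_eq_abs,
    Real.norm_eq_abs, abs_of_nonneg h0, abs_of_nonneg (by linarith : 0 ≤ 1 - t)]
  have h2 := hD.le
  have h3 : (1 - t) * ‖X θ‖ ≤ (1 - t) * ε := mul_le_mul_of_nonneg_left (hD.Xb θ) (by linarith)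
  have h4 : t * ‖W θ‖ ≤ t * ε := mul_le_mul_of_nonneg_left (hD.Wb θ) h0
  linarith

private theorem du_norm {ε : ℝ} {K : NNReal} {X W : ℝ → ℂ} (hD : Curves ε K X W) (θ : ℝ) :
    ‖du X W θ‖ ≤ 1 := by
  unfold du
  refine (norm_sub_le _ _).trans ?_
  have h2 := hD.le
  have := hD.Xb θ
  have := hD.Wb θ
  linarith

private theorem wt_sub {ε : ℝ} {K : NNReal} {X W : ℝ → ℂ} (hD : Curves ε K X W) {t : ℝ} (t' : ℝ)
    (h0 : 0 ≤ t) (h1 : t ≤ 1) (θ θ' : ℝ) :
    ‖wt X W t θ - wt X W t' θ'‖ ≤ K * |θ - θ'| + |t - t'| := by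
  have : wt X W t θ - wt X W t' θ' = ((1 - t : ℝ) : ℂ) * (X θ - X θ') + (t : ℂ) * (W θ - W θ') +
      ((t - t' : ℝ) : ℂ) * du X W θ' := by
    unfold wt du; push_cast; ring
  rw [this]
  refine (norm_add_le _ _).trans ?_
  refine (add_le_add_left (norm_add_le _ _) _).trans ?_
  rw [norm_mul, norm_mul, norm_mul, Complex.norm_real, Complex.norm_real, Complex.norm_real,
    Real.norm_eq_abs, Real.norm_eq_abs, Real.norm_eq_abs, abs_of_nonneg h0,
    abs_of_nonneg (by linarith : 0 ≤ 1 - t)]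
  have hX := hD.XL.norm_sub_le θ θ'
  have hW := hD.WL.norm_sub_le θ θ'
  rw [Real.norm_eq_abs] at hX hW
  have h3 : (1 - t) * ‖X θ - X θ'‖ ≤ (1 - t) * (K * |θ - θ'|) :=
    mul_le_mul_of_nonneg_left hX (by linarith)
  have h4 : t * ‖W θ - W θ'‖ ≤ t * (K * |θ - θ'|) := mul_le_mul_of_nonneg_left hW h0
  have h5 : |t - t'| * ‖du X W θ'‖ ≤ |t - t'| * 1 :=
    mul_le_mul_of_nonneg_left (du_norm hD θ') (abs_nonneg _)
  linarith

private noncomputable def wd (X W : ℝ → ℂ) (t θ : ℝ) : ℂ := deriv X θ + t * (deriv W θ - deriv X θ)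

private theorem wd_norm {ε : ℝ} {K : NNReal} {X W : ℝ → ℂ} (hD : Curves ε K X W) {t : ℝ}
    (h0 : 0 ≤ t) (h1 : t ≤ 1) (θ : ℝ) : ‖wd X W t θ‖ ≤ K := by
  have : wd X W t θ = ((1 - t : ℝ) : ℂ) * deriv X θ + (t : ℂ) * deriv W θ := by
    unfold wd; push_cast; ring
  rw [this]
  refine (norm_add_le _ _).trans ?_
  rw [norm_mul, norm_mul, Complex.norm_real, Complex.norm_real, Real.norm_eq_abs,
    Real.norm_eq_abs, abs_of_nonneg h0, abs_of_nonneg (by linarith : 0 ≤ 1 - t)]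
  have h3 : (1 - t) * ‖deriv X θ‖ ≤ (1 - t) * K :=
    mul_le_mul_of_nonneg_left (norm_deriv_le_of_lipschitz hD.XL) (by linarith)
  have h4 : t * ‖deriv W θ‖ ≤ t * K :=
    mul_le_mul_of_nonneg_left (norm_deriv_le_of_lipschitz hD.WL) h0
  linarith

private theorem hasDerivAt_wt {X W : ℝ → ℂ} {θ : ℝ} (hX : DifferentiableAt ℝ X θ)
    (hW : DifferentiableAt ℝ W θ) (t : ℝ) : HasDerivAt (wt X W t) (wd X W t θ) θ := by
  unfold wt wd du
  exact hX.hasDerivAt.add ((hW.hasDerivAt.sub hX.hasDerivAt).const_mul (t : ℂ))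

private theorem hasFDerivAt_wt {X W : ℝ → ℂ} {z : ℂ} (hX : DifferentiableAt ℝ X z.im)
    (hW : DifferentiableAt ℝ W z.im) :
    ∃ L : ℂ →L[ℝ] ℂ, L 1 = du X W z.im ∧ L Complex.I = wd X W z.re z.im ∧
      HasFDerivAt (fun z : ℂ => wt X W z.re z.im) L z := by
  have hX1 := hX.hasFDerivAt.comp z Complex.imCLM.hasFDerivAt
  have hW1 := hW.hasFDerivAt.comp z Complex.imCLM.hasFDerivAt
  have hr : HasFDerivAt (fun z : ℂ => ((z.re : ℝ) : ℂ)) (Complex.ofRealCLM.comp Complex.reCLM) z :=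
    (Complex.ofRealCLM.comp Complex.reCLM).hasFDerivAt
  have h := hX1.add (hr.mul (hW1.sub hX1))
  refine ⟨_, ?_, ?_, h⟩
  · simp [du]
  · simp [wd]


private noncomputable def JJ (h : ℝ → ℝ → ℝ) (X W : ℝ → ℂ) (σ t θ : ℝ) : ℝ :=
  DT (wt X W t θ) σ (du X W θ) * deriv (fun θ => h σ θ - gx (wt X W t θ) σ) θ

private noncomputable def SS (X W : ℝ → ℂ) (σ t θ : ℝ) : ℝ :=
  Dg (wt X W t θ) σ (du X W θ) * DT (wt X W t θ) σ (wd X W t θ) +
    DT (wt X W t θ) σ (du X W θ) * Dg (wt X W t θ) σ (wd X W t θ)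

private theorem continuous_wt {ε : ℝ} {K : NNReal} {X W : ℝ → ℂ} (hD : Curves ε K X W) :
    Continuous fun p : ℝ × ℝ => wt X W p.1 p.2 := by
  have hX := hD.XL.continuous
  have hW := hD.WL.continuous
  unfold wt du
  fun_prop

private theorem lip_hg {ε : ℝ} {K : NNReal} {X W : ℝ → ℂ} {h : ℝ → ℝ → ℝ} (hD : Curves ε K X W)
    (hl : ∀ σ, LipschitzWith K (h σ)) {t : ℝ} (h0 : 0 ≤ t) (h1 : t ≤ 1) (σ : ℝ) :
    LipschitzWith (3 * K) (fun θ => h σ θ - gx (wt X W t θ) σ) := by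
  refine LipschitzWith.of_dist_le_mul fun θ θ' => ?_
  rw [Real.dist_eq, Real.dist_eq]
  have e : h σ θ - gx (wt X W t θ) σ - (h σ θ' - gx (wt X W t θ') σ) =
    (h σ θ - h σ θ') - (gx (wt X W t θ) σ - gx (wt X W t θ') σ) := by ring
  rw [e]
  refine (abs_sub _ _).trans ?_
  have h2 := gx_lip (wt_norm hD h0 h1 θ) (wt_norm hD h0 h1 θ') σ
  have h3 := wt_sub hD t h0 h1 θ θ'
  have h4 := (hl σ).norm_sub_le θ θ'
  rw [Real.norm_eq_abs, Real.norm_eq_abs] at h4
  rw [sub_self, abs_zero] at h3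
  push_cast
  linarith

private theorem stokes_sigma {ε : ℝ} {K : NNReal} {X W : ℝ → ℂ} {h : ℝ → ℝ → ℝ}
    (hD : Curves ε K X W) (hl : ∀ σ, LipschitzWith K (h σ))
    (hp : ∀ σ θ, h σ (θ + 2 * π) = h σ θ) (σ : ℝ) :
    (∫ θ in (0 : ℝ)..2 * π, (2 * h σ θ - gx (W θ) σ) * DT (W θ) σ (deriv W θ)) -
    (∫ θ in (0 : ℝ)..2 * π, (2 * h σ θ - gx (X θ) σ) * DT (X θ) σ (deriv X θ)) =
    ∫ t in (0 : ℝ)..1, ∫ θ in (0 : ℝ)..2 * π, (-2 * JJ h X W σ t θ - SS X W σ t θ) := by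
  set A : ℂ → ℝ := fun z => 2 * h σ z.im - gx (wt X W z.re z.im) σ with hA
  set B : ℂ → ℝ := fun z => Tx (wt X W z.re z.im) σ with hB
  have hw : ∀ z z' : ℂ, z ∈ {z : ℂ | 0 ≤ z.re ∧ z.re ≤ 1} → z' ∈ {z : ℂ | 0 ≤ z.re ∧ z.re ≤ 1} →
      ‖wt X W z.re z.im - wt X W z'.re z'.im‖ ≤ (K + 1) * ‖z - z'‖ := by
    intro z z' hz hz'
    refine (wt_sub hD _ hz.1 hz.2 _ _).trans ?_
    have h1 : |z.re - z'.re| ≤ ‖z - z'‖ := by
      simpa using Complex.abs_re_le_norm (z - z')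
    have h2 : |z.im - z'.im| ≤ ‖z - z'‖ := by
      simpa using Complex.abs_im_le_norm (z - z')
    have h3 : (K : ℝ) * |z.im - z'.im| ≤ K * ‖z - z'‖ := mul_le_mul_of_nonneg_left h2 K.2
    linarith
  have hAL : LipschitzOnWith (4 * K + 2) A {z | 0 ≤ z.re ∧ z.re ≤ 1} := by
    refine LipschitzOnWith.of_dist_le_mul fun z hz z' hz' => ?_
    rw [Real.dist_eq, Complex.dist_eq, hA]
    have e : 2 * h σ z.im - gx (wt X W z.re z.im) σ - (2 * h σ z'.im - gx (wt X W z'.re z'.im) σ) =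
      2 * (h σ z.im - h σ z'.im) - (gx (wt X W z.re z.im) σ - gx (wt X W z'.re z'.im) σ) := by ring
    show |2 * h σ z.im - gx (wt X W z.re z.im) σ - (2 * h σ z'.im - gx (wt X W z'.re z'.im) σ)| ≤ _
    rw [e]
    refine (abs_sub _ _).trans ?_
    rw [abs_mul, abs_two]
    have h2 := gx_lip (wt_norm hD hz.1 hz.2 z.im) (wt_norm hD hz'.1 hz'.2 z'.im) σ
    have h3 := hw z z' hz hz'
    have h4 := (hl σ).norm_sub_le z.im z'.im
    rw [Real.norm_eq_abs, Real.norm_eq_abs] at h4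
    have h5 : |z.im - z'.im| ≤ ‖z - z'‖ := by
      simpa using Complex.abs_im_le_norm (z - z')
    have h6 : (K : ℝ) * |z.im - z'.im| ≤ K * ‖z - z'‖ := mul_le_mul_of_nonneg_left h5 K.2
    push_cast
    linarith
  have hBL : LipschitzOnWith (4 * K + 2) B {z | 0 ≤ z.re ∧ z.re ≤ 1} := by
    refine LipschitzOnWith.of_dist_le_mul fun z hz z' hz' => ?_
    rw [Real.dist_eq, Complex.dist_eq]
    have h2 := Tx_lip (wt_norm hD hz.1 hz.2 z.im) (wt_norm hD hz'.1 hz'.2 z'.im) σ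
    have h3 := hw z z' hz hz'
    have h6 : 0 ≤ (K : ℝ) * ‖z - z'‖ := mul_nonneg K.2 (norm_nonneg _)
    refine h2.trans ?_
    push_cast
    linarith
  have hwp : ∀ t θ, wt X W t (θ + 2 * π) = wt X W t θ := by
    intro t θ
    unfold wt du
    rw [hD.Xp, hD.Wp]
  have him : ∀ z : ℂ, (z + 2 * π * Complex.I).im = z.im + 2 * π := by
    intro z
    simp
  have hre : ∀ z : ℂ, (z + 2 * π * Complex.I).re = z.re := by
    intro z
    simp
  have hAp : ∀ z : ℂ, 0 ≤ z.re → z.re ≤ 1 → A (z + 2 * π * Complex.I) = A z := by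
    intro z _ _
    simp only [hA, him, hre, hwp, hp]
  have hBp : ∀ z : ℂ, 0 ≤ z.re → z.re ≤ 1 → B (z + 2 * π * Complex.I) = B z := by
    intro z _ _
    simp only [hB, him, hre, hwp]
  have hS := rect_stokes zero_le_one hAL hBL hAp hBp
  rw [integral_cell zero_le_one (integrableOn_br hAL hBL)] at hS
  have ptre : ∀ x θ : ℝ, (pt x θ).re = x := by intro x θ; simp [pt]
  have ptim : ∀ x θ : ℝ, (pt x θ).im = θ := by intro x θ; simp [pt]
  have hdX := hD.XL.ae_differentiableAt_real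
  have hdW := hD.WL.ae_differentiableAt_real
  have hdh := (hl σ).ae_differentiableAt_real
  have b1 : ∫ θ in (0 : ℝ)..2 * π, A (pt 1 θ) * deriv (fun θ => B (pt 1 θ)) θ =
      ∫ θ in (0 : ℝ)..2 * π, (2 * h σ θ - gx (W θ) σ) * DT (W θ) σ (deriv W θ) := by
    refine intervalIntegral.integral_congr_ae ?_
    filter_upwards [hdW] with θ hθ _
    have e1 : A (pt 1 θ) = 2 * h σ θ - gx (W θ) σ := by
      simp [hA, ptre, ptim, wt, du]
    have e2 : (fun θ => B (pt 1 θ)) = fun θ => Tx (W θ) σ := by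
      funext θ
      simp [hB, ptre, ptim, wt, du]
    have hn : ‖W θ‖ < 1 := by
      have := hD.Wb θ
      have := hD.le
      linarith
    rw [e1, e2, (hasDerivAt_Tx_comp hθ.hasDerivAt hn σ).deriv]
  have b0 : ∫ θ in (0 : ℝ)..2 * π, A (pt 0 θ) * deriv (fun θ => B (pt 0 θ)) θ =
      ∫ θ in (0 : ℝ)..2 * π, (2 * h σ θ - gx (X θ) σ) * DT (X θ) σ (deriv X θ) := by
    refine intervalIntegral.integral_congr_ae ?_
    filter_upwards [hdX] with θ hθ _
    have e1 : A (pt 0 θ) = 2 * h σ θ - gx (X θ) σ := by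
      simp [hA, ptre, ptim, wt, du]
    have e2 : (fun θ => B (pt 0 θ)) = fun θ => Tx (X θ) σ := by
      funext θ
      simp [hB, ptre, ptim, wt, du]
    have hn : ‖X θ‖ < 1 := by
      have := hD.Xb θ
      have := hD.le
      linarith
    rw [e1, e2, (hasDerivAt_Tx_comp hθ.hasDerivAt hn σ).deriv]
  rw [b1, b0] at hS
  rw [← hS]
  have hne : ∀ᵐ t : ℝ, t ≠ 1 := by
    rw [ae_iff]
    simp
  refine intervalIntegral.integral_congr_ae ?_
  filter_upwards [hne] with t ht htI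
  rw [uIoc_of_le zero_le_one] at htI
  have ht0 : 0 < t := htI.1
  have ht1 : t < 1 := lt_of_le_of_ne htI.2 ht
  refine intervalIntegral.integral_congr_ae ?_
  filter_upwards [hdX, hdW, hdh] with θ hX hW hh _
  have hX' : DifferentiableAt ℝ X (pt t θ).im := by rw [ptim]; exact hX
  have hW' : DifferentiableAt ℝ W (pt t θ).im := by rw [ptim]; exact hW
  have hh' : DifferentiableAt ℝ (h σ) (pt t θ).im := by rw [ptim]; exact hh
  obtain ⟨L, hL1, hLI, hL⟩ := hasFDerivAt_wt hX' hW'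
  rw [ptre, ptim] at hLI
  rw [ptim] at hL1
  have hn : ‖wt X W (pt t θ).re (pt t θ).im‖ < 1 := by
    rw [ptre, ptim]
    have := wt_norm hD ht0.le ht1.le θ
    linarith
  obtain ⟨Lg, hLg, hLg'⟩ := hasFDerivAt_gx hn σ
  obtain ⟨LT, hLT, hLT'⟩ := hasFDerivAt_Tx hn σ
  rw [ptre, ptim] at hLg hLT
  have hcg := hLg'.comp (pt t θ) hL
  have hcT := hLT'.comp (pt t θ) hL
  have hch := (hh'.hasFDerivAt.comp (pt t θ) Complex.imCLM.hasFDerivAt).const_mul 2
  have hcA : HasFDerivAt A _ (pt t θ) := hch.sub hcg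
  have hcB : HasFDerivAt B _ (pt t θ) := hcT
  have hdg : HasDerivAt (fun θ => gx (wt X W t θ) σ) (Dg (wt X W t θ) σ (wd X W t θ)) θ :=
    hasDerivAt_gx_comp (hasDerivAt_wt hX hW t) (by rw [ptre, ptim] at hn; exact hn) σ
  have hJ : deriv (fun θ => h σ θ - gx (wt X W t θ) σ) θ =
      deriv (h σ) θ - Dg (wt X W t θ) σ (wd X W t θ) := (hh.hasDerivAt.sub hdg).deriv
  unfold br JJ SS
  rw [hJ, hcA.fderiv, hcB.fderiv]
  simp only [sub_apply, smul_apply,
    ContinuousLinearMap.comp_apply, hL1, hLI, hLg, hLT, smul_eq_mul, Complex.imCLM_apply,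
    Complex.one_im, Complex.I_im, map_zero, ptim]
  rw [fderiv_eq_smul_deriv]
  simp only [smul_eq_mul]
  ring


private theorem meas_DT_wt {ε : ℝ} {K : NNReal} {X W : ℝ → ℂ} (hD : Curves ε K X W)
    {a : (ℝ × ℝ) × ℝ → ℂ} (ha : Measurable a) :
    Measurable fun p : (ℝ × ℝ) × ℝ => DT (wt X W p.1.2 p.2) p.1.1 (a p) :=
  meas_DT ((continuous_wt hD).measurable.comp
    ((measurable_snd.comp measurable_fst).prodMk measurable_snd))
    (measurable_fst.comp measurable_fst) ha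

private theorem meas_Dg_wt {ε : ℝ} {K : NNReal} {X W : ℝ → ℂ} (hD : Curves ε K X W)
    {a : (ℝ × ℝ) × ℝ → ℂ} (ha : Measurable a) :
    Measurable fun p : (ℝ × ℝ) × ℝ => Dg (wt X W p.1.2 p.2) p.1.1 (a p) :=
  meas_Dg ((continuous_wt hD).measurable.comp
    ((measurable_snd.comp measurable_fst).prodMk measurable_snd))
    (measurable_fst.comp measurable_fst) ha

private theorem meas_du {ε : ℝ} {K : NNReal} {X W : ℝ → ℂ} (hD : Curves ε K X W) :
    Measurable fun p : (ℝ × ℝ) × ℝ => du X W p.2 := by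
  unfold du
  exact (hD.WL.continuous.measurable.comp measurable_snd).sub
    (hD.XL.continuous.measurable.comp measurable_snd)

private theorem meas_wd (X W : ℝ → ℂ) :
    Measurable fun p : (ℝ × ℝ) × ℝ => wd X W p.1.2 p.2 := by
  unfold wd
  have h1 := (measurable_deriv X).comp (measurable_snd : Measurable fun p : (ℝ × ℝ) × ℝ => p.2)
  have h2 := (measurable_deriv W).comp (measurable_snd : Measurable fun p : (ℝ × ℝ) × ℝ => p.2)
  exact h1.add ((Complex.measurable_ofReal.comp (measurable_snd.comp measurable_fst)).mul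
    (h2.sub h1))

private theorem meas_JJ {ε : ℝ} {K : NNReal} {X W : ℝ → ℂ} {h : ℝ → ℝ → ℝ}
    (hD : Curves ε K X W) (hc : Continuous (Function.uncurry h)) :
    Measurable fun p : (ℝ × ℝ) × ℝ => JJ h X W p.1.1 p.1.2 p.2 := by
  unfold JJ
  refine (meas_DT_wt hD (meas_du hD)).mul ?_
  have hcont : Continuous (Function.uncurry fun (q : ℝ × ℝ) (θ : ℝ) =>
      h q.1 θ - gx (wt X W q.2 θ) q.1) := by
    have c1 : Continuous fun p : (ℝ × ℝ) × ℝ => h p.1.1 p.2 := by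
      have e : (fun p : (ℝ × ℝ) × ℝ => h p.1.1 p.2) =
        (Function.uncurry h) ∘ (fun p : (ℝ × ℝ) × ℝ => (p.1.1, p.2)) := rfl
      rw [e]
      exact hc.comp (by fun_prop)
    have c2 : Continuous fun p : (ℝ × ℝ) × ℝ => gx (wt X W p.1.2 p.2) p.1.1 := by
      have e : (fun p : (ℝ × ℝ) × ℝ => gx (wt X W p.1.2 p.2) p.1.1) =
        (fun q : ℂ × ℝ => gx q.1 q.2) ∘ (fun p : (ℝ × ℝ) × ℝ => (wt X W p.1.2 p.2, p.1.1)) := rfl
      rw [e]
      refine continuous_gx.comp ?_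
      refine Continuous.prodMk ?_ (by fun_prop)
      have e' : (fun p : (ℝ × ℝ) × ℝ => wt X W p.1.2 p.2) =
        (fun q : ℝ × ℝ => wt X W q.1 q.2) ∘ (fun p : (ℝ × ℝ) × ℝ => (p.1.2, p.2)) := rfl
      rw [e']
      exact (continuous_wt hD).comp (by fun_prop)
    exact c1.sub c2
  exact measurable_deriv_with_param hcont

private theorem JJ_bd {ε : ℝ} {K : NNReal} {X W : ℝ → ℂ} {h : ℝ → ℝ → ℝ}
    (hD : Curves ε K X W) (hl : ∀ σ, LipschitzWith K (h σ)) (σ t θ : ℝ) (h0 : 0 ≤ t)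
    (h1 : t ≤ 1) : |JJ h X W σ t θ| ≤ 2 * (3 * K) := by
  unfold JJ
  rw [abs_mul]
  have e1 : |DT (wt X W t θ) σ (du X W θ)| ≤ 2 := by
    refine (abs_DT_le (wt_norm hD h0 h1 θ) σ _).trans ?_
    have := du_norm hD θ
    linarith
  have e2 : |deriv (fun θ => h σ θ - gx (wt X W t θ) σ) θ| ≤ 3 * K := by
    have := norm_deriv_le_of_lipschitz (x₀ := θ) (lip_hg hD hl h0 h1 σ)
    rw [Real.norm_eq_abs] at this
    exact_mod_cast this
  exact mul_le_mul e1 e2 (abs_nonneg _) (by norm_num)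

private theorem meas_SS {ε : ℝ} {K : NNReal} {X W : ℝ → ℂ} (hD : Curves ε K X W) :
    Measurable fun p : (ℝ × ℝ) × ℝ => SS X W p.1.1 p.1.2 p.2 := by
  unfold SS
  exact ((meas_Dg_wt hD (meas_du hD)).mul (meas_DT_wt hD (meas_wd X W))).add
    ((meas_DT_wt hD (meas_du hD)).mul (meas_Dg_wt hD (meas_wd X W)))

private theorem SS_bd {ε : ℝ} {K : NNReal} {X W : ℝ → ℂ}
    (hD : Curves ε K X W) (σ t θ : ℝ) (h0 : 0 ≤ t) (h1 : t ≤ 1) :
    |SS X W σ t θ| ≤ 8 * K := by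
  unfold SS
  have hw := wt_norm hD h0 h1 θ
  have hu := du_norm hD θ
  have hd := wd_norm hD h0 h1 θ
  have a1 : |DT (wt X W t θ) σ (du X W θ)| ≤ 2 := by
    refine (abs_DT_le hw σ _).trans ?_
    linarith
  have a2 : |Dg (wt X W t θ) σ (du X W θ)| ≤ 2 := by
    refine (abs_Dg_le hw σ _).trans ?_
    linarith
  have a3 : |DT (wt X W t θ) σ (wd X W t θ)| ≤ 2 * K := by
    refine (abs_DT_le hw σ _).trans ?_
    linarith
  have a4 : |Dg (wt X W t θ) σ (wd X W t θ)| ≤ 2 * K := by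
    refine (abs_Dg_le hw σ _).trans ?_
    linarith
  refine (abs_add_le _ _).trans ?_
  rw [abs_mul, abs_mul]
  have b1 := mul_le_mul a2 a3 (abs_nonneg _) (by norm_num)
  have b2 := mul_le_mul a1 a4 (abs_nonneg _) (by norm_num)
  linarith

private theorem inner_int {K : NNReal} {Y : ℝ → ℂ} {h : ℝ → ℝ → ℝ}
    (hY : LipschitzWith K Y) (hb : ∀ θ, ‖Y θ‖ ≤ 1 / 2) (hc : Continuous (Function.uncurry h)) :
    IntervalIntegrable (fun σ => ∫ θ in (0 : ℝ)..2 * π,
      (2 * h σ θ - gx (Y θ) σ) * DT (Y θ) σ (deriv Y θ)) volume 0 (2 * π) := by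
  obtain ⟨C, hC⟩ := (isCompact_Icc.prod isCompact_Icc : IsCompact
    (Icc (0 : ℝ) (2 * π) ×ˢ Icc (0 : ℝ) (2 * π))).exists_bound_of_continuousOn hc.continuousOn
  have hYm := hY.continuous.measurable
  refine fub2 (F := fun σ θ => (2 * h σ θ - gx (Y θ) σ) * DT (Y θ) σ (deriv Y θ))
    (C := (2 * C + 1) * (2 * K)) ?_ ?_
  · refine Measurable.mul (Measurable.sub ?_ ?_) ?_
    · have e : (fun p : ℝ × ℝ => 2 * h p.1 p.2) = fun p => 2 * Function.uncurry h p := rfl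
      rw [e]
      exact (hc.measurable).const_mul 2
    · have e : (fun p : ℝ × ℝ => gx (Y p.2) p.1) =
        (fun q : ℂ × ℝ => gx q.1 q.2) ∘ (fun p : ℝ × ℝ => (Y p.2, p.1)) := rfl
      rw [e]
      exact continuous_gx.measurable.comp ((hYm.comp measurable_snd).prodMk measurable_fst)
    · exact meas_DT (hYm.comp measurable_snd) measurable_fst
        ((measurable_deriv Y).comp measurable_snd)
  · intro σ θ s0 s1 t0 t1
    rw [abs_mul]
    have e1 : |h σ θ| ≤ C := hC (σ, θ) ⟨⟨s0, s1⟩, ⟨t0, t1⟩⟩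
    have e2 : |gx (Y θ) σ| ≤ 1 := by
      have h2 := gx_lip (hb θ) (by simp : ‖(0 : ℂ)‖ ≤ 1 / 2) σ
      have h3 : gx 0 σ = 0 := by simp [gx, inn]
      rw [h3, sub_zero, sub_zero] at h2
      have := hb θ
      linarith
    have e3 : |2 * h σ θ - gx (Y θ) σ| ≤ 2 * C + 1 := by
      refine (abs_sub _ _).trans ?_
      rw [abs_mul, abs_two]
      linarith
    have e4 : |DT (Y θ) σ (deriv Y θ)| ≤ 2 * K := by
      refine (abs_DT_le (hb θ) σ _).trans ?_
      have := norm_deriv_le_of_lipschitz (x₀ := θ) hY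
      linarith
    have e5 : 0 ≤ 2 * C + 1 := (abs_nonneg _).trans e3
    exact mul_le_mul e3 e4 (abs_nonneg _) e5

theorem gam_diff {ε : ℝ} {K : NNReal} {X W : ℝ → ℂ} {h : ℝ → ℝ → ℝ} (hD : Curves ε K X W)
    (hc : Continuous (Function.uncurry h)) (hl : ∀ σ, LipschitzWith K (h σ))
    (hp : ∀ σ θ, h σ (θ + 2 * π) = h σ θ) :
    (∀ σ, IntervalIntegrable (Jt h X W σ) volume 0 1) ∧
    IntervalIntegrable (fun σ => ∫ t in (0 : ℝ)..1, Jt h X W σ t) volume 0 (2 * π) ∧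
    Gam h W - Gam h X = -2 * avg (fun σ => ∫ t in (0 : ℝ)..1, Jt h X W σ t) := by
  obtain ⟨j1, j2, j3, -⟩ := fub (meas_JJ hD hc) (JJ_bd hD hl)
  obtain ⟨s1, s2, s3, s4⟩ := fub (meas_SS hD) (SS_bd hD)
  refine ⟨j2, j3, ?_⟩
  have hWb : ∀ θ, ‖W θ‖ ≤ 1 / 2 := fun θ => (hD.Wb θ).trans hD.le
  have hXb : ∀ θ, ‖X θ‖ ≤ 1 / 2 := fun θ => (hD.Xb θ).trans hD.le
  have iW := inner_int hD.WL hWb hc
  have iX := inner_int hD.XL hXb hc
  unfold Gam avg
  rw [← mul_sub, ← intervalIntegral.integral_sub iW iX]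
  have key : ∀ σ : ℝ,
      (∫ θ in (0 : ℝ)..2 * π, (2 * h σ θ - gx (W θ) σ) * DT (W θ) σ (deriv W θ)) -
      (∫ θ in (0 : ℝ)..2 * π, (2 * h σ θ - gx (X θ) σ) * DT (X θ) σ (deriv X θ)) =
      -2 * (∫ t in (0 : ℝ)..1, Jt h X W σ t) -
        ∫ t in (0 : ℝ)..1, ∫ θ in (0 : ℝ)..2 * π, SS X W σ t θ := by
    intro σ
    rw [stokes_sigma hD hl hp σ]
    have : (∫ t in (0 : ℝ)..1, ∫ θ in (0 : ℝ)..2 * π, (-2 * JJ h X W σ t θ - SS X W σ t θ)) =
        ∫ t in (0 : ℝ)..1, (-2 * (∫ θ in (0 : ℝ)..2 * π, JJ h X W σ t θ) -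
          ∫ θ in (0 : ℝ)..2 * π, SS X W σ t θ) := by
      refine intervalIntegral.integral_congr fun t ht => ?_
      rw [uIcc_of_le zero_le_one] at ht
      show (∫ θ in (0 : ℝ)..2 * π, (-2 * JJ h X W σ t θ - SS X W σ t θ)) = _
      rw [intervalIntegral.integral_sub ((j1 σ t ht.1 ht.2).const_mul (-2)) (s1 σ t ht.1 ht.2),
        intervalIntegral.integral_const_mul]
    rw [this, intervalIntegral.integral_sub ((j2 σ).const_mul (-2)) (s2 σ),
      intervalIntegral.integral_const_mul]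
    rfl
  simp only [key]
  have j3' : IntervalIntegrable (fun σ => ∫ t in (0 : ℝ)..1, Jt h X W σ t) volume 0 (2 * π) := j3
  rw [intervalIntegral.integral_sub (j3'.const_mul (-2)) s3, intervalIntegral.integral_const_mul,
    s4]
  have z : (∫ t in (0 : ℝ)..1, ∫ θ in (0 : ℝ)..2 * π, ∫ σ in (0 : ℝ)..2 * π, SS X W σ t θ) = 0 := by
    rw [intervalIntegral.integral_congr (g := fun _ => (0 : ℝ))]
    · simp
    · intro t ht
      rw [uIcc_of_le zero_le_one] at ht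
      show (∫ θ in (0 : ℝ)..2 * π, ∫ σ in (0 : ℝ)..2 * π, SS X W σ t θ) = 0
      rw [intervalIntegral.integral_congr (g := fun _ => (0 : ℝ))]
      · simp
      · intro θ _
        have hn : ‖wt X W t θ‖ < 1 := by
          have := wt_norm hD ht.1 ht.2 θ
          linarith
        have h3 := avg_sym hn (du X W θ) (wd X W t θ)
        unfold avg at h3
        have h4 : (2 * π)⁻¹ ≠ 0 := by positivity
        exact (mul_eq_zero.1 h3).resolve_left h4
  rw [z, sub_zero]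
  ring

end Pool.Agent.CC57
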