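import Pool.Agent.CC57.HsCont
import Pool.Agent.CC57.Avg

set_option autoImplicit false

/-!
Orthogonality.  Let `δ σ θ = 2 inn (v θ) σ + η σ θ` with `avgE (fun σ => η σ θ) = 0` for all `θ`.
For each `n`: `cf (δ σ) n = 2 (cos σ a + sin σ b) + cf (η σ) n` with `a = cf v₁ n`, `b = cf v₂ n`.
`‖cf (δ σ) n‖² = ‖2 (cos σ a + sin σ b)‖² + ‖cf (η σ) n‖² + 4 Re ((cos σ a + sin σ b) conj (cf (η σ) n))`.
The mean over `σ` of the last term is zero: by Fubini
`avg (cos σ conj (cf (η σ) n)) = (2π)⁻¹ ∫_θ e^{inθ} avg (cos σ η σ θ) = 0` (real part of `avgE = 0`), the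
same for `sin`.  Hence `avg ‖cf (η σ) n‖² ≤ avg ‖cf (δ σ) n‖²`.  Multiply by `|n|` and sum over `n`:
`avg (hs (η σ)) = ∑ |n| avg ‖cf (η σ) n‖²` by `integral_tsum`/`hasSum_integral_of_summable` (the terms are
continuous in `σ`, nonnegative and bounded, `∑_n |n| ‖cf‖² ≤ K²`), similarly for `δ`.
-/

open Real MeasureTheory Set

namespace Pool.Agent.CC57

private theorem hpi : (0 : ℝ) < 2 * π := two_pi_pos

private theorem lipC {f : ℝ → ℝ} {K : NNReal} (hf : LipschitzWith K f) :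
    LipschitzWith K fun θ => (f θ : ℂ) := by
  apply LipschitzWith.of_dist_le_mul
  intro x y
  refine le_trans (le_of_eq ?_) (hf.dist_le_mul x y)
  rw [Complex.dist_eq, ← Complex.ofReal_sub, Complex.norm_real, Real.dist_eq, Real.norm_eq_abs]

private theorem cont_cf {η : ℝ → ℝ → ℝ} (hηc : Continuous (Function.uncurry η)) (n : ℤ) :
    Continuous fun σ => cf (fun θ => (η σ θ : ℂ)) n := by
  unfold cf
  have h1 : Continuous fun p : ℝ × ℝ => ((η p.1 p.2 : ℝ) : ℂ) :=
    Complex.continuous_ofReal.comp hηc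
  have h2 : Continuous fun p : ℝ × ℝ => Complex.exp (-(n * p.2 * Complex.I)) := by fun_prop
  have h3 := intervalIntegral.continuous_parametric_intervalIntegral_of_continuous' (μ := volume)
    (f := fun σ θ => (η σ θ : ℂ) * Complex.exp (-(n * θ * Complex.I))) (h1.mul h2) 0 (2 * π)
  exact h3.const_smul ((2 * π)⁻¹ : ℝ)

private theorem swap_zero {η : ℝ → ℝ → ℝ} (hηc : Continuous (Function.uncurry η)) (n : ℤ)
    {c : ℝ → ℝ} (hc : Continuous c) (h0 : ∀ θ, ∫ σ in (0 : ℝ)..2 * π, c σ * η σ θ = 0) :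
    ∫ σ in (0 : ℝ)..2 * π, (c σ : ℂ) * cf (fun θ => (η σ θ : ℂ)) n = 0 := by
  have h1 : ∀ σ, (c σ : ℂ) * cf (fun θ => (η σ θ : ℂ)) n =
      (((2 * π)⁻¹ : ℝ) : ℂ) * ∫ θ in (0 : ℝ)..2 * π,
        (c σ : ℂ) * (η σ θ : ℂ) * Complex.exp (-(n * θ * Complex.I)) := by
    intro σ
    unfold cf
    rw [Complex.real_smul]
    rw [mul_left_comm, ← intervalIntegral.integral_const_mul]
    congr 1
    apply intervalIntegral.integral_congr
    intro θ _
    simp only
    ring
  simp only [h1]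
  rw [intervalIntegral.integral_const_mul]
  have hcont : Continuous (Function.uncurry fun σ θ : ℝ =>
      (c σ : ℂ) * (η σ θ : ℂ) * Complex.exp (-(n * θ * Complex.I))) := by
    have h1 : Continuous fun p : ℝ × ℝ => ((η p.1 p.2 : ℝ) : ℂ) :=
      Complex.continuous_ofReal.comp hηc
    have h2 : Continuous fun p : ℝ × ℝ => Complex.exp (-(n * p.2 * Complex.I)) := by fun_prop
    have h3 : Continuous fun p : ℝ × ℝ => ((c p.1 : ℝ) : ℂ) :=
      Complex.continuous_ofReal.comp (hc.comp continuous_fst)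
    exact (h3.mul h1).mul h2
  rw [MeasureTheory.intervalIntegral_intervalIntegral_swap]
  · have : ∀ θ : ℝ, ∫ σ in (0 : ℝ)..2 * π,
        (c σ : ℂ) * (η σ θ : ℂ) * Complex.exp (-(n * θ * Complex.I)) = 0 := by
      intro θ
      rw [intervalIntegral.integral_mul_const]
      have h2 : ∫ σ in (0 : ℝ)..2 * π, (c σ : ℂ) * (η σ θ : ℂ) =
          ((∫ σ in (0 : ℝ)..2 * π, c σ * η σ θ : ℝ) : ℂ) := by
        rw [← intervalIntegral.integral_ofReal]
        apply intervalIntegral.integral_congr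
        intro σ _
        simp only
        push_cast
        ring
      rw [h2, h0 θ]
      simp
    simp only [this]
    simp
  · apply (hcont.continuousOn.integrableOn_compact
      (isCompact_uIcc (a := (0 : ℝ)) (b := 2 * π) |>.prod
        (isCompact_uIcc (a := (0 : ℝ)) (b := 2 * π)))).mono_set
    exact Set.prod_mono uIoc_subset_uIcc uIoc_subset_uIcc

private theorem split_cf {δ η : ℝ → ℝ → ℝ} {v : ℝ → ℂ} (hv : Continuous v)
    (hηc : Continuous (Function.uncurry η)) (he : ∀ σ θ, δ σ θ = 2 * inn (v θ) σ + η σ θ)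
    (n : ℤ) (σ : ℝ) :
    cf (fun θ => (δ σ θ : ℂ)) n = 2 * ((cos σ : ℂ) * cf (fun θ => ((v θ).re : ℂ)) n +
      (sin σ : ℂ) * cf (fun θ => ((v θ).im : ℂ)) n) + cf (fun θ => (η σ θ : ℂ)) n := by
  have hre : Continuous fun θ => ((v θ).re : ℂ) :=
    Complex.continuous_ofReal.comp (Complex.continuous_re.comp hv)
  have him : Continuous fun θ => ((v θ).im : ℂ) :=
    Complex.continuous_ofReal.comp (Complex.continuous_im.comp hv)
  have hη : Continuous fun θ => (η σ θ : ℂ) :=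
    Complex.continuous_ofReal.comp (hηc.comp (by fun_prop : Continuous fun θ : ℝ => (σ, θ)))
  have e : (fun θ => (δ σ θ : ℂ)) = fun θ =>
      (2 * ((cos σ : ℂ) * ((v θ).re : ℂ)) + 2 * ((sin σ : ℂ) * ((v θ).im : ℂ))) + (η σ θ : ℂ) := by
    funext θ
    rw [he σ θ]
    unfold inn
    push_cast
    ring
  rw [e, cf_add, cf_add, cf_mul_left, cf_mul_left, cf_mul_left, cf_mul_left]
  · ring
  · exact (continuous_const.mul (continuous_const.mul hre)).intervalIntegrable _ _
  · exact (continuous_const.mul (continuous_const.mul him)).intervalIntegrable _ _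
  · exact ((continuous_const.mul (continuous_const.mul hre)).add
      (continuous_const.mul (continuous_const.mul him))).intervalIntegrable _ _
  · exact hη.intervalIntegrable _ _

private theorem point_le (a e : ℂ) : ‖e‖ ^ 2 + 4 * (a * (starRingEnd ℂ) e).re ≤ ‖2 * a + e‖ ^ 2 := by
  simp only [← Complex.normSq_eq_norm_sq, Complex.normSq_apply]
  simp
  nlinarith [sq_nonneg a.re, sq_nonneg a.im]

private theorem re_int {g : ℝ → ℂ} (hg : Continuous g) :
    ∫ σ in (0 : ℝ)..2 * π, (g σ).re = (∫ σ in (0 : ℝ)..2 * π, g σ).re := by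
  have := Complex.reCLM.intervalIntegral_comp_comm (hg.intervalIntegrable (μ := volume) 0 (2 * π))
  exact this

private theorem term_le {δ η : ℝ → ℝ → ℝ} {v : ℝ → ℂ} (hv : Continuous v)
    (hδc : Continuous (Function.uncurry δ)) (hηc : Continuous (Function.uncurry η))
    (he : ∀ σ θ, δ σ θ = 2 * inn (v θ) σ + η σ θ)
    (h0 : ∀ θ, avgE (fun σ => η σ θ) = 0) (n : ℤ) :
    ∫ σ in (0 : ℝ)..2 * π, ‖cf (fun θ => (η σ θ : ℂ)) n‖ ^ 2 ≤
      ∫ σ in (0 : ℝ)..2 * π, ‖cf (fun θ => (δ σ θ : ℂ)) n‖ ^ 2 := by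
  have hηθ : ∀ θ, Continuous fun σ => η σ θ := fun θ =>
    hηc.comp (by fun_prop : Continuous fun σ : ℝ => (σ, θ))
  have hcos : ∀ θ, ∫ σ in (0 : ℝ)..2 * π, cos σ * η σ θ = 0 := by
    intro θ
    have h1 := avgE_re ((hηθ θ).intervalIntegrable 0 (2 * π))
    rw [h0 θ, Complex.zero_re] at h1
    unfold avg at h1
    have h2 := (mul_eq_zero.1 h1.symm).resolve_left (inv_ne_zero hpi.ne')
    refine Eq.trans ?_ h2
    apply intervalIntegral.integral_congr
    intro σ _
    simp only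
    ring
  have hsin : ∀ θ, ∫ σ in (0 : ℝ)..2 * π, sin σ * η σ θ = 0 := by
    intro θ
    have h1 := avgE_im ((hηθ θ).intervalIntegrable 0 (2 * π))
    rw [h0 θ, Complex.zero_im] at h1
    unfold avg at h1
    have h2 := (mul_eq_zero.1 h1.symm).resolve_left (inv_ne_zero hpi.ne')
    refine Eq.trans ?_ h2
    apply intervalIntegral.integral_congr
    intro σ _
    simp only
    ring
  have z1 := swap_zero hηc n continuous_cos hcos
  have z2 := swap_zero hηc n continuous_sin hsin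
  set A := cf (fun θ => ((v θ).re : ℂ)) n with hA
  set B := cf (fun θ => ((v θ).im : ℂ)) n with hB
  have ce := cont_cf hηc n
  have cd := cont_cf hδc n
  have c1 : Continuous fun σ : ℝ => (cos σ : ℂ) := Complex.continuous_ofReal.comp continuous_cos
  have c2 : Continuous fun σ : ℝ => (sin σ : ℂ) := Complex.continuous_ofReal.comp continuous_sin
  have cstar : Continuous fun σ => (starRingEnd ℂ) (cf (fun θ => (η σ θ : ℂ)) n) :=
    Complex.continuous_conj.comp ce
  have cross : ∫ σ in (0 : ℝ)..2 * π,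
      (((cos σ : ℂ) * A + (sin σ : ℂ) * B) * (starRingEnd ℂ) (cf (fun θ => (η σ θ : ℂ)) n)).re
        = 0 := by
    have hg : Continuous fun σ : ℝ => ((cos σ : ℂ) * A + (sin σ : ℂ) * B) *
        (starRingEnd ℂ) (cf (fun θ => (η σ θ : ℂ)) n) :=
      ((c1.mul continuous_const).add (c2.mul continuous_const)).mul cstar
    rw [re_int hg]
    have h1 : ∀ c : ℝ → ℝ, Continuous c →
        ∫ σ in (0 : ℝ)..2 * π, (c σ : ℂ) * cf (fun θ => (η σ θ : ℂ)) n = 0 →
        ∫ σ in (0 : ℝ)..2 * π, (c σ : ℂ) * (starRingEnd ℂ) (cf (fun θ => (η σ θ : ℂ)) n) = 0 := by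
      intro c hc hz
      have h2 : ∫ σ in (0 : ℝ)..2 * π, (c σ : ℂ) * (starRingEnd ℂ) (cf (fun θ => (η σ θ : ℂ)) n) =
          (starRingEnd ℂ) (∫ σ in (0 : ℝ)..2 * π, (c σ : ℂ) * cf (fun θ => (η σ θ : ℂ)) n) := by
        rw [intervalIntegral.integral_of_le hpi.le, intervalIntegral.integral_of_le hpi.le,
          ← integral_conj]
        apply integral_congr_ae
        refine ae_of_all _ fun x => ?_
        simp only
        rw [map_mul, Complex.conj_ofReal]
      rw [h2, hz, map_zero]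
    have h3 : ∫ σ in (0 : ℝ)..2 * π,
        (((cos σ : ℂ) * A + (sin σ : ℂ) * B) * (starRingEnd ℂ) (cf (fun θ => (η σ θ : ℂ)) n)) =
        A * (∫ σ in (0 : ℝ)..2 * π, (cos σ : ℂ) * (starRingEnd ℂ) (cf (fun θ => (η σ θ : ℂ)) n)) +
        B * (∫ σ in (0 : ℝ)..2 * π,
          (sin σ : ℂ) * (starRingEnd ℂ) (cf (fun θ => (η σ θ : ℂ)) n)) := by
      rw [← intervalIntegral.integral_const_mul, ← intervalIntegral.integral_const_mul,
        ← intervalIntegral.integral_add]
      · apply intervalIntegral.integral_congr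
        intro σ _
        simp only
        ring
      · exact (continuous_const.mul (c1.mul cstar)).intervalIntegrable _ _
      · exact (continuous_const.mul (c2.mul cstar)).intervalIntegrable _ _
    rw [h3, h1 _ continuous_cos z1, h1 _ continuous_sin z2]
    simp
  have i1 : Continuous fun σ => ‖cf (fun θ => (η σ θ : ℂ)) n‖ ^ 2 := (ce.norm).pow 2
  have i2 : Continuous fun σ => 4 * (((cos σ : ℂ) * A + (sin σ : ℂ) * B) *
      (starRingEnd ℂ) (cf (fun θ => (η σ θ : ℂ)) n)).re :=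
    continuous_const.mul (Complex.continuous_re.comp
      (((c1.mul continuous_const).add (c2.mul continuous_const)).mul cstar))
  have i3 : Continuous fun σ => ‖cf (fun θ => (δ σ θ : ℂ)) n‖ ^ 2 := (cd.norm).pow 2
  calc ∫ σ in (0 : ℝ)..2 * π, ‖cf (fun θ => (η σ θ : ℂ)) n‖ ^ 2
      = ∫ σ in (0 : ℝ)..2 * π, (‖cf (fun θ => (η σ θ : ℂ)) n‖ ^ 2 +
        4 * (((cos σ : ℂ) * A + (sin σ : ℂ) * B) *
          (starRingEnd ℂ) (cf (fun θ => (η σ θ : ℂ)) n)).re) := by
        rw [intervalIntegral.integral_add (i1.intervalIntegrable _ _) (i2.intervalIntegrable _ _),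
          intervalIntegral.integral_const_mul, cross]
        ring
    _ ≤ ∫ σ in (0 : ℝ)..2 * π, ‖cf (fun θ => (δ σ θ : ℂ)) n‖ ^ 2 := by
        apply intervalIntegral.integral_mono_on hpi.le ((i1.add i2).intervalIntegrable _ _)
          (i3.intervalIntegrable _ _)
        intro σ _
        rw [split_cf hv hηc he n σ]
        exact point_le _ _

private theorem hasSum_hs {η : ℝ → ℝ → ℝ} {K : NNReal}
    (hηc : Continuous (Function.uncurry η)) (hηl : ∀ σ, LipschitzWith K (η σ))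
    (hηp : ∀ σ θ, η σ (θ + 2 * π) = η σ θ) :
    HasSum (fun n : ℤ => ∫ σ in (0 : ℝ)..2 * π, |(n : ℝ)| * ‖cf (fun θ => (η σ θ : ℂ)) n‖ ^ 2)
      (∫ σ in (0 : ℝ)..2 * π, hs (η σ)) := by
  have hcont : ∀ n : ℤ, Continuous fun σ => |(n : ℝ)| * ‖cf (fun θ => (η σ θ : ℂ)) n‖ ^ 2 :=
    fun n => continuous_const.mul ((cont_cf hηc n).norm.pow 2)
  have hsum : ∀ σ, HasSum (fun n : ℤ => |(n : ℝ)| * ‖cf (fun θ => (η σ θ : ℂ)) n‖ ^ 2)
      (hs (η σ)) := by
    intro σ
    have h := summable_hsC (lipC (hηl σ)) (fun θ => by simp only [hηp])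
    exact h.hasSum
  apply intervalIntegral.hasSum_integral_of_dominated_convergence
    (bound := fun (n : ℤ) (σ : ℝ) => |(n : ℝ)| * ‖cf (fun θ => (η σ θ : ℂ)) n‖ ^ 2)
  · intro n
    exact (hcont n).aestronglyMeasurable
  · intro n
    refine ae_of_all _ fun σ _ => ?_
    rw [Real.norm_eq_abs, abs_of_nonneg (by positivity)]
  · exact ae_of_all _ fun σ _ => (hsum σ).summable
  · have : (fun σ => ∑' n : ℤ, |(n : ℝ)| * ‖cf (fun θ => (η σ θ : ℂ)) n‖ ^ 2) =
        fun σ => hs (η σ) := by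
      funext σ
      exact (hsum σ).tsum_eq
    rw [this]
    exact (continuous_hs hηc hηl hηp).intervalIntegrable _ _
  · exact ae_of_all _ fun σ _ => hsum σ

theorem avg_hs_le {δ η : ℝ → ℝ → ℝ} {v : ℝ → ℂ} {K : NNReal}
    (hδc : Continuous (Function.uncurry δ)) (hηc : Continuous (Function.uncurry η))
    (hδl : ∀ σ, LipschitzWith K (δ σ)) (hηl : ∀ σ, LipschitzWith K (η σ))
    (hδp : ∀ σ θ, δ σ (θ + 2 * π) = δ σ θ) (hηp : ∀ σ θ, η σ (θ + 2 * π) = η σ θ)
    (hv : LipschitzWith K v) (he : ∀ σ θ, δ σ θ = 2 * inn (v θ) σ + η σ θ)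
    (h0 : ∀ θ, avgE (fun σ => η σ θ) = 0) :
    avg (fun σ => hs (η σ)) ≤ avg (fun σ => hs (δ σ)) := by
  unfold avg
  apply mul_le_mul_of_nonneg_left _ (inv_pos.2 hpi).le
  apply hasSum_le _ (hasSum_hs hηc hηl hηp) (hasSum_hs hδc hδl hδp)
  intro n
  rw [intervalIntegral.integral_const_mul, intervalIntegral.integral_const_mul]
  exact mul_le_mul_of_nonneg_left (term_le hv.continuous hδc hηc he h0 n) (abs_nonneg _)

end Pool.Agent.CC57
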