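import Pool.Agent.CC57.MainAvg
import Pool.Agent.CC57.GamDiff
import Pool.Agent.CC57.Orth

set_option autoImplicit false

/-!
The inequality on the circle.  `δ σ θ = h σ θ - gx (X θ) σ = 2 inn (v θ) σ + eta`, `v = zhC W - zhC X`.

`Gam h W - Gam h X = avg_σ ∫_0^1 (-2 Jt) dt` (`gam_diff`) `≥` (`J_bound`, integrate the lower bound over
`t ∈ [0,1]`, `∫_0^1 2(1-t) = 1`) `avg_σ (-M_σ - 2 N_σ - C ε nu - C ε hs (eta σ))`
`= π ∑ n |cf u n|² - C ε nu - C ε avg hs (eta)` (`avg_M`, `avg_N`).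
`∫ v = 0` from the assumption `∮ (h σ - gx X σ) = 0` for all `σ` and Fubini
(`v θ = avgE (fun σ => h σ θ - gx (X θ) σ)`), so `‖cf u 0‖² ≤ C' ε² nu`, and for `C' ε² ≤ 1/2`,
`nu ≤ 2 hsC u`.  `avg hs (eta) ≤ avg hs (δ)` (`avg_hs_le`).  `gauge_sum`:
`∑ n |cf u n|² ≥ hsC u - (π N)⁻¹ ∫ ‖u'‖²`, `∫ ‖u'‖² ≤ 2 (∫ ‖X'‖² + ∫ ‖W'‖²) ≤ 4 ε² ≤ 1`.  Altogether
`Gam h W - Gam h X + avg hs (δ) ≥ π hsC u - 1/N - 2 C ε hsC u - C ε avg hs (eta) + avg hs (eta) ≥ -1/N`
if `2 C ε ≤ π` and `C ε ≤ 1`.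
-/

open Real MeasureTheory Set

namespace Pool.Agent.CC57

private theorem fi_bdd {f : ℝ → ℂ} {K : NNReal} (hf : LipschitzWith K f) :
    IntervalIntegrable (fun θ => ‖deriv f θ‖ ^ 2) volume 0 (2 * π) := by
  rw [intervalIntegrable_iff]
  refine Measure.integrableOn_of_bounded (M := (K : ℝ) ^ 2) ?_
    ((measurable_deriv f).norm.pow_const 2).aestronglyMeasurable ?_
  · rw [uIoc]
    simp
  · refine Filter.Eventually.of_forall fun θ => ?_
    rw [Real.norm_eq_abs, abs_of_nonneg (sq_nonneg _)]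
    exact pow_le_pow_left₀ (norm_nonneg _) (norm_deriv_le_of_lipschitz hf) 2

private theorem fi_du {ε : ℝ} {K : NNReal} {X W : ℝ → ℂ} (hD : Curves ε K X W) :
    ∫ θ in (0 : ℝ)..2 * π, ‖deriv (du X W) θ‖ ^ 2 ≤ 1 := by
  have h1 : ∫ θ in (0 : ℝ)..2 * π, ‖deriv (du X W) θ‖ ^ 2 ≤
      ∫ θ in (0 : ℝ)..2 * π, (2 * ‖deriv X θ‖ ^ 2 + 2 * ‖deriv W θ‖ ^ 2) := by
    have hu : LipschitzWith (K + K) (du X W) := by
      unfold du
      exact hD.WL.sub hD.XL
    refine intervalIntegral.integral_mono_ae two_pi_pos.le (fi_bdd hu)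
      (((fi_bdd hD.XL).const_mul 2).add ((fi_bdd hD.WL).const_mul 2)) ?_
    filter_upwards [hD.XL.ae_differentiableAt_real, hD.WL.ae_differentiableAt_real] with θ h1 h2
    have h3 : deriv (du X W) θ = deriv W θ - deriv X θ := by
      unfold du
      exact deriv_fun_sub h2 h1
    rw [h3]
    have h4 := norm_sub_le (deriv W θ) (deriv X θ)
    have h5 := norm_nonneg (deriv W θ - deriv X θ)
    nlinarith [sq_nonneg (‖deriv W θ‖ - ‖deriv X θ‖)]
  have h2 : ∫ θ in (0 : ℝ)..2 * π, (2 * ‖deriv X θ‖ ^ 2 + 2 * ‖deriv W θ‖ ^ 2) =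
      2 * (∫ θ in (0 : ℝ)..2 * π, ‖deriv X θ‖ ^ 2) +
        2 * ∫ θ in (0 : ℝ)..2 * π, ‖deriv W θ‖ ^ 2 := by
    rw [intervalIntegral.integral_add ((fi_bdd hD.XL).const_mul 2) ((fi_bdd hD.WL).const_mul 2),
      intervalIntegral.integral_const_mul, intervalIntegral.integral_const_mul]
  have h3 := hD.XD
  have h4 := hD.WD
  have h5 : ε ^ 2 ≤ 1 / 4 := by
    have := hD.pos
    have := hD.le
    nlinarith
  linarith

private theorem fi_mean {ε : ℝ} {K : NNReal} {X W : ℝ → ℂ} {h : ℝ → ℝ → ℝ} (hD : Curves ε K X W)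
    (hc : Continuous (Function.uncurry h))
    (hz : ∀ θ, zhC (W θ) = avgE fun σ => h σ θ)
    (h0 : ∀ σ, ∫ θ in (0 : ℝ)..2 * π, (h σ θ - gx (X θ) σ) = 0) :
    (∫ θ in (0 : ℝ)..2 * π, (zhC (W θ) - zhC (X θ))) = 0 := by
  have hgc : Continuous fun p : ℝ × ℝ => gx (X p.2) p.1 :=
    continuous_gx.comp ((hD.XL.continuous.comp continuous_snd).prodMk continuous_fst)
  have hδ : Continuous fun p : ℝ × ℝ => h p.1 p.2 - gx (X p.2) p.1 := hc.sub hgc
  have e1 : ∀ θ, zhC (W θ) - zhC (X θ) =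
      (((2 * π)⁻¹ : ℝ) : ℂ) * ∫ σ in (0 : ℝ)..2 * π,
        ((h σ θ - gx (X θ) σ : ℝ) : ℂ) * Complex.exp (σ * Complex.I) := by
    intro θ
    have h1 : Continuous fun σ => h σ θ :=
      hc.comp (by fun_prop : Continuous fun σ : ℝ => (σ, θ))
    have h2 : Continuous fun σ => gx (X θ) σ :=
      continuous_gx.comp (continuous_const.prodMk continuous_id)
    have h3 : zhC (X θ) = avgE (fun σ => gx (X θ) σ) := rfl
    rw [hz θ, h3, ← avgE_sub (h1.intervalIntegrable _ _) (h2.intervalIntegrable _ _)]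
    unfold avgE
    rw [Complex.real_smul]
    congr 1
  simp only [e1]
  rw [intervalIntegral.integral_const_mul]
  have hcont : Continuous (Function.uncurry fun θ σ : ℝ =>
      ((h σ θ - gx (X θ) σ : ℝ) : ℂ) * Complex.exp (σ * Complex.I)) := by
    have h1 : Continuous fun p : ℝ × ℝ => ((h p.2 p.1 - gx (X p.1) p.2 : ℝ) : ℂ) :=
      Complex.continuous_ofReal.comp (hδ.comp (continuous_snd.prodMk continuous_fst))
    have h2 : Continuous fun p : ℝ × ℝ => Complex.exp ((p.2 : ℂ) * Complex.I) := by fun_prop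
    exact h1.mul h2
  rw [MeasureTheory.intervalIntegral_intervalIntegral_swap]
  · have : ∀ σ : ℝ, ∫ θ in (0 : ℝ)..2 * π,
        ((h σ θ - gx (X θ) σ : ℝ) : ℂ) * Complex.exp (σ * Complex.I) = 0 := by
      intro σ
      rw [intervalIntegral.integral_mul_const]
      have h3 : ∫ θ in (0 : ℝ)..2 * π, ((h σ θ - gx (X θ) σ : ℝ) : ℂ) = 0 := by
        rw [intervalIntegral.integral_ofReal, h0 σ, Complex.ofReal_zero]
      rw [h3, zero_mul]
    simp only [this]
    simp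
  · apply (hcont.continuousOn.integrableOn_compact
      (isCompact_uIcc (a := (0 : ℝ)) (b := 2 * π) |>.prod
        (isCompact_uIcc (a := (0 : ℝ)) (b := 2 * π)))).mono_set
    exact Set.prod_mono uIoc_subset_uIcc uIoc_subset_uIcc

private theorem fi_t {F : ℝ → ℝ} (hF : IntervalIntegrable F volume 0 1) {M N c : ℝ}
    (h : ∀ t, 0 ≤ t → t ≤ 1 → -2 * (1 - t) * M - N - c ≤ -2 * F t) :
    -M - N - c ≤ -2 * ∫ t in (0 : ℝ)..1, F t := by
  have h1 : ∫ t in (0 : ℝ)..1, (-2 * (1 - t) * M - N - c) ≤ ∫ t in (0 : ℝ)..1, -2 * F t := by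
    apply intervalIntegral.integral_mono_on zero_le_one
    · exact (by fun_prop : Continuous fun t : ℝ => -2 * (1 - t) * M - N - c).intervalIntegrable _ _
    · exact hF.const_mul _
    · intro t ht
      exact h t ht.1 ht.2
  rw [intervalIntegral.integral_const_mul] at h1
  refine le_trans (le_of_eq ?_) h1
  have e : ∫ t in (0 : ℝ)..1, (-2 * (1 - t) * M - N - c) =
      ∫ t in (0 : ℝ)..1, ((2 * M) * t + (-2 * M - N - c)) := by
    apply intervalIntegral.integral_congr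
    intro t _
    simp only
    ring
  rw [e, intervalIntegral.integral_add, intervalIntegral.integral_const_mul, integral_id,
    intervalIntegral.integral_const, smul_eq_mul]
  · ring
  · exact (by fun_prop : Continuous fun t : ℝ => (2 * M) * t).intervalIntegrable _ _
  · exact intervalIntegrable_const

theorem fin_ineq : ∃ ε₀ : ℝ, 0 < ε₀ ∧ ∀ (ε : ℝ) (K : NNReal) (X W : ℝ → ℂ) (h : ℝ → ℝ → ℝ) (N : ℕ),
    ε ≤ ε₀ → 1 ≤ N → Curves ε K X W → Continuous (Function.uncurry h) →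
    (∀ σ, LipschitzWith K (h σ)) → (∀ σ θ, h σ (θ + 2 * π) = h σ θ) →
    (∀ θ, zhC (W θ) = avgE fun σ => h σ θ) →
    (∀ σ, ∫ θ in (0 : ℝ)..2 * π, (h σ θ - gx (X θ) σ) = 0) →
    (∀ n : ℕ, 1 ≤ n → n ≤ N → cf (du X W) (-n) = 0) →
    Gam h X - avg (fun σ => hs fun θ => h σ θ - gx (X θ) σ) ≤ Gam h W + 1 / N := by
  obtain ⟨C, hC, HJ⟩ := J_bound
  obtain ⟨C', hC', Hm⟩ := mean_u
  refine ⟨min (1 / C) (1 / (2 * C')), by positivity, ?_⟩
  intro ε K X W h N hε hN hD hc hl hp hz h0 hg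
  have hCε : C * ε ≤ 1 := by
    have h1 : ε ≤ 1 / C := hε.trans (min_le_left _ _)
    calc C * ε ≤ C * (1 / C) := mul_le_mul_of_nonneg_left h1 hC.le
      _ = 1 := by field_simp
  have hC'ε : C' * ε ^ 2 ≤ 1 / 2 := by
    have h1 : ε ≤ 1 / (2 * C') := hε.trans (min_le_right _ _)
    have h2 : C' * ε ≤ C' * (1 / (2 * C')) := mul_le_mul_of_nonneg_left h1 hC'.le
    have h3 : C' * (1 / (2 * C')) = 1 / 2 := by field_simp
    have h4 := hD.pos
    have h5 := hD.le
    have h6 : C' * ε * ε ≤ C' * ε * 1 := mul_le_mul_of_nonneg_left (by linarith) (by positivity)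
    nlinarith
  have hNpos : (0 : ℝ) < N := by exact_mod_cast hN
  have hpi := Real.pi_gt_three
  have hup : ∀ θ, du X W (θ + 2 * π) = du X W θ := by
    intro θ
    unfold du
    rw [hD.Wp, hD.Xp]
  have huL : LipschitzWith (K + K) (du X W) := by
    unfold du
    exact hD.WL.sub hD.XL
  have hm := Hm ε K X W hD (fi_mean hD hc hz h0)
  have hH : 0 ≤ hsC (du X W) := hsC_nonneg _
  have hnu : nu X W ≤ 2 * hsC (du X W) := by
    have h1 : 0 ≤ nu X W := by
      unfold nu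
      have := sq_nonneg ‖cf (du X W) 0‖
      linarith
    have h2 : C' * ε ^ 2 * nu X W ≤ 1 / 2 * nu X W := mul_le_mul_of_nonneg_right hC'ε h1
    have h3 : nu X W = hsC (du X W) + ‖cf (du X W) 0‖ ^ 2 := rfl
    linarith
  have hnu0 : 0 ≤ nu X W := by
    unfold nu
    have := sq_nonneg ‖cf (du X W) 0‖
    linarith
  obtain ⟨ec, ⟨K', el⟩, ep, ez⟩ := eta_facts hD hc hl hp hz
  obtain ⟨mi, ma⟩ := avg_M hD
  obtain ⟨ni, na⟩ := avg_N hD hc hl hp hz
  obtain ⟨j1, j2, j3⟩ := gam_diff hD hc hl hp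
  have hhs : Continuous fun σ => hs (eta h X W σ) := continuous_hs ec el ep
  have hhi : IntervalIntegrable (fun σ => hs (eta h X W σ)) volume 0 (2 * π) :=
    hhs.intervalIntegrable _ _
  set M : ℝ → ℝ := fun σ => ∫ θ in (0 : ℝ)..2 * π, inp (du X W θ) σ *
      deriv (fun θ => inn (du X W θ) σ) θ with hMd
  set Nn : ℝ → ℝ := fun σ => ∫ θ in (0 : ℝ)..2 * π, inp (du X W θ) σ *
      deriv (eta h X W σ) θ with hNd
  have key : ∀ σ, -M σ - 2 * Nn σ - (C * ε * nu X W + C * ε * hs (eta h X W σ)) ≤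
      -2 * ∫ t in (0 : ℝ)..1, Jt h X W σ t := by
    intro σ
    apply fi_t (j1 σ)
    intro t ht0 ht1
    have h1 := HJ ε K X W h hD hl hp σ t ht0 ht1
    have h2 : -2 * (1 - t) * M σ - 2 * Nn σ - C * ε * nu X W - C * ε * hs (eta h X W σ) ≤
      -2 * Jt h X W σ t := h1
    linarith
  have key2 := avg_mono (f := fun σ => -M σ - 2 * Nn σ -
      (C * ε * nu X W + C * ε * hs (eta h X W σ)))
    (g := fun σ => -2 * ∫ t in (0 : ℝ)..1, Jt h X W σ t)
    ((mi.neg.sub (ni.const_mul 2)).sub (intervalIntegrable_const.add (hhi.const_mul _)))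
    (j2.const_mul _) key
  have e1 : avg (fun σ => -M σ - 2 * Nn σ - (C * ε * nu X W + C * ε * hs (eta h X W σ))) =
      -avg M - 2 * avg Nn - (C * ε * nu X W + C * ε * avg fun σ => hs (eta h X W σ)) := by
    rw [avg_sub (f := fun σ => -M σ - 2 * Nn σ)
      (g := fun σ => C * ε * nu X W + C * ε * hs (eta h X W σ))
      (mi.neg.sub (ni.const_mul 2)) (intervalIntegrable_const.add (hhi.const_mul _)),
      avg_sub (f := fun σ => -M σ) (g := fun σ => 2 * Nn σ) mi.neg (ni.const_mul 2),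
      avg_add (f := fun _ => C * ε * nu X W) (g := fun σ => C * ε * hs (eta h X W σ))
      intervalIntegrable_const (hhi.const_mul _), avg_const, avg_mul_left, avg_mul_left]
    have : avg (fun σ => -M σ) = -avg M := by
      have h1 := avg_mul_left (-1) M
      have h2 : (fun σ => -1 * M σ) = fun σ => -M σ := by
        funext σ
        ring
      rw [h2] at h1
      rw [h1]
      ring
    rw [this]
  rw [avg_mul_left, e1, ← j3] at key2
  have ma' : avg M = -(π * ∑' n : ℤ, (n : ℝ) * ‖cf (du X W) n‖ ^ 2) := ma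
  have na' : avg Nn = 0 := na
  rw [ma', na'] at key2
  have hgs := gauge_sum huL hup hN hg
  have hdu := fi_du hD
  -- the orthogonality
  have hgc : Continuous fun p : ℝ × ℝ => gx (X p.2) p.1 :=
    continuous_gx.comp ((hD.XL.continuous.comp continuous_snd).prodMk continuous_fst)
  have hvL : LipschitzWith (4 * K) fun θ => zhC (W θ) - zhC (X θ) := by
    have h1 : ∀ {Y : ℝ → ℂ}, LipschitzWith K Y → (∀ θ, ‖Y θ‖ ≤ ε) →
        LipschitzWith (2 * K) fun θ => zhC (Y θ) := by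
      intro Y hY hb
      refine LipschitzWith.of_dist_le_mul fun x y => ?_
      rw [dist_eq_norm, NNReal.coe_mul, NNReal.coe_ofNat, mul_assoc]
      refine (zhC_lip ((hb x).trans hD.le) ((hb y).trans hD.le)).trans ?_
      rw [← dist_eq_norm]
      exact mul_le_mul_of_nonneg_left (hY.dist_le_mul x y) (by norm_num)
    have h2 := (h1 hD.WL hD.Wb).sub (h1 hD.XL hD.Xb)
    have e : (2 * K + 2 * K : NNReal) = 4 * K := by ring
    rw [e] at h2
    exact h2
  have hgL : ∀ σ, LipschitzWith (2 * K) fun θ => gx (X θ) σ := by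
    intro σ
    refine LipschitzWith.of_dist_le_mul fun x y => ?_
    rw [Real.dist_eq, NNReal.coe_mul, NNReal.coe_ofNat, mul_assoc]
    refine (gx_lip ((hD.Xb x).trans hD.le) ((hD.Xb y).trans hD.le) σ).trans ?_
    rw [← dist_eq_norm]
    exact mul_le_mul_of_nonneg_left (hD.XL.dist_le_mul x y) (by norm_num)
  have hor := avg_hs_le (δ := fun σ θ => h σ θ - gx (X θ) σ) (η := eta h X W)
    (v := fun θ => zhC (W θ) - zhC (X θ)) (K := max (K + 2 * K) (max K' (4 * K)))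
    (hc.sub hgc) ec
    (fun σ => ((hl σ).sub (hgL σ)).weaken (le_max_left _ _))
    (fun σ => (el σ).weaken ((le_max_left _ _).trans (le_max_right _ _)))
    (fun σ θ => by simp only [hp, hD.Xp]) ep
    (hvL.weaken ((le_max_right _ _).trans (le_max_right _ _)))
    (fun σ θ => by
      unfold eta
      ring) ez
  have hη0 : 0 ≤ avg fun σ => hs (eta h X W σ) := by
    have h1 := avg_mono (f := fun _ => (0 : ℝ)) (g := fun σ => hs (eta h X W σ))
      intervalIntegrable_const hhi (fun σ => hs_nonneg _)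
    rwa [avg_const] at h1
  set S := ∑' n : ℤ, (n : ℝ) * ‖cf (du X W) n‖ ^ 2
  set He := avg fun σ => hs (eta h X W σ)
  set Hd := avg fun σ => hs fun θ => h σ θ - gx (X θ) σ
  set I := ∫ θ in (0 : ℝ)..2 * π, ‖deriv (du X W) θ‖ ^ 2
  have f1 : π * (hsC (du X W) - (π * N)⁻¹ * I) ≤ π * S :=
    mul_le_mul_of_nonneg_left hgs Real.pi_pos.le
  have f2 : π * ((π * N)⁻¹ * I) = (1 / N) * I := by
    have := Real.pi_pos
    field_simp
  have f3 : (1 / (N : ℝ)) * I ≤ (1 / (N : ℝ)) * 1 :=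
    mul_le_mul_of_nonneg_left hdu (one_div_pos.2 hNpos).le
  have f4 : C * ε * nu X W ≤ 1 * nu X W := mul_le_mul_of_nonneg_right hCε hnu0
  have f5 : C * ε * He ≤ 1 * He := mul_le_mul_of_nonneg_right hCε hη0
  have f6 : 2 * hsC (du X W) ≤ π * hsC (du X W) := mul_le_mul_of_nonneg_right (by linarith) hH
  rw [mul_sub, f2] at f1
  linarith

end Pool.Agent.CC57
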