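import Pool.Agent.CC57.Defs

set_option autoImplicit false

/-!
Data for the inequality on the circle.
-/

open Real MeasureTheory Set

namespace Pool.Agent.CC57

/-- The two curves `X`, `W`. -/
structure Curves (ε : ℝ) (K : NNReal) (X W : ℝ → ℂ) : Prop where
  pos : 0 < ε
  le : ε ≤ 1 / 2
  XL : LipschitzWith K X
  WL : LipschitzWith K W
  Xp : ∀ θ, X (θ + 2 * π) = X θ
  Wp : ∀ θ, W (θ + 2 * π) = W θ
  Xb : ∀ θ, ‖X θ‖ ≤ ε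
  Wb : ∀ θ, ‖W θ‖ ≤ ε
  XD : ∫ θ in (0 : ℝ)..2 * π, ‖deriv X θ‖ ^ 2 ≤ ε ^ 2
  WD : ∫ θ in (0 : ℝ)..2 * π, ‖deriv W θ‖ ^ 2 ≤ ε ^ 2

/-- The difference `u = W - X`. -/
noncomputable def du (X W : ℝ → ℂ) (θ : ℝ) : ℂ := W θ - X θ

/-- The homotopy `w_t = X + t (W - X)`. -/
noncomputable def wt (X W : ℝ → ℂ) (t θ : ℝ) : ℂ := X θ + t * du X W θ

/-- The quantity `hsC u + ‖mean u‖²`. -/
noncomputable def nu (X W : ℝ → ℂ) : ℝ := hsC (du X W) + ‖cf (du X W) 0‖ ^ 2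

/-- A Lipschitz and periodic function. -/
def LP (f : ℝ → ℝ) : Prop := (∃ K : NNReal, LipschitzWith K f) ∧ ∀ θ, f (θ + 2 * π) = f θ

/-- `DT(w_t)[u] ∂_θ(h_σ - g_σ(w_t))`, integrated over `θ`. -/
noncomputable def Jt (h : ℝ → ℝ → ℝ) (X W : ℝ → ℂ) (σ t : ℝ) : ℝ :=
  ∫ θ in (0 : ℝ)..2 * π, DT (wt X W t θ) σ (du X W θ) *
    deriv (fun θ => h σ θ - gx (wt X W t θ) σ) θ

end Pool.Agent.CC57
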