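import Pool.Agent.CC57.FixC
import Pool.Agent.CC57.Brouwer

set_option autoImplicit false

/-!
The fixed point.  On `E = EuclideanSpace ℂ (Fin K)` (a finite dimensional real space, `‖b‖² = ∑ ‖b i‖²`)
consider `T b i = b i + (1/2)(i+1) cf (WF b - Xc b) (-(i+1))`.  It is continuous on the closed ball of
radius `ε` (`continuousOn_coef`) and
`T b i = (1/2)(i+1) cf (WF b) (-(i+1)) - (1/2)((i+1) cf (Xc b) (-(i+1)) - 2 b i)`, so
`‖T b‖ ≤ ε/2 + ε/4 ≤ ε` (`WF_facts`, `Xc_bounds`, `cf_add`, triangle inequality in `E`).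
`brouwer_ball` gives `T b = b`, that is `cf (WF b - Xc b) (-(i+1)) = 0` for all `i : Fin K`.
The other statements are in `hF_facts`, `WF_facts`, `Xc_bounds`.
-/

open Real MeasureTheory Set

namespace Pool.Agent.CC57

private lemma fix_cf_sub {f g : ℝ → ℂ} (hf : Continuous f) (hg : Continuous g) (n : ℤ) :
    cf (fun θ => f θ - g θ) n = cf f n - cf g n := by
  have h2 : Continuous (fun θ => (-1 : ℂ) * g θ) := continuous_const.mul hg
  have h3 := cf_add (f := f) (g := fun θ => (-1 : ℂ) * g θ) (hf.intervalIntegrable _ _)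
    (h2.intervalIntegrable _ _) n
  rw [cf_mul_left] at h3
  have h4 : (fun θ => f θ - g θ) = fun θ => f θ + (-1 : ℂ) * g θ := by
    funext θ
    ring
  rw [h4]
  exact h3.trans (by ring)

theorem exists_fix : ∃ ε₀ : ℝ, 0 < ε₀ ∧ ∀ (K : ℕ) (y ε M : ℝ)
    (om : (Fin K → ℂ) → ℂ → ℂ) (f : ℂ → ℝ → ℝ) (lamc : ℝ → ℝ), 0 < ε → ε ≤ ε₀ →
    rexp (-y) ≤ ε → GaugeFam K y ε om → CircData ε M f lamc →
    ∃ b : Fin K → ℂ, ∑ i, ‖b i‖ ^ 2 ≤ ε ^ 2 ∧ ∀ n : ℕ, 1 ≤ n → n ≤ K →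
      cf (fun θ => WF y om f b θ - Xc b y θ) (-n) = 0 := by
  obtain ⟨ε1, hε1, H1⟩ := continuousOn_coef
  obtain ⟨C2, ε2, -, hε2, H2⟩ := WF_facts
  obtain ⟨C3, ε3, -, hε3, H3⟩ := Xc_bounds
  refine ⟨min ε1 (min ε2 ε3), by positivity, ?_⟩
  intro K y ε M om f lamc hε hε0 hy hG hC
  have g1 : ε ≤ ε1 := hε0.trans (min_le_left _ _)
  have g2 : ε ≤ ε2 := hε0.trans ((min_le_right _ _).trans (min_le_left _ _))
  have g3 : ε ≤ ε3 := hε0.trans ((min_le_right _ _).trans (min_le_right _ _))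
  let c : (Fin K → ℂ) → ℤ → ℂ := fun b n => cf (fun θ => WF y om f b θ - Xc b y θ) n
  let T : EuclideanSpace ℂ (Fin K) → EuclideanSpace ℂ (Fin K) := fun x =>
    WithLp.toLp 2 (fun i : Fin K => x i + (1 / 2) * (((i : ℂ) + 1) *
      c (WithLp.ofLp x) (-((i : ℤ) + 1))))
  have hball : ∀ x ∈ Metric.closedBall (0 : EuclideanSpace ℂ (Fin K)) ε,
      ∑ i, ‖(WithLp.ofLp x) i‖ ^ 2 ≤ ε ^ 2 := by
    intro x hx
    rw [mem_closedBall_zero_iff] at hx
    have h1 := EuclideanSpace.norm_sq_eq x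
    rw [← h1]
    exact pow_le_pow_left₀ (norm_nonneg x) hx 2
  have hcont : ContinuousOn T (Metric.closedBall 0 ε) := by
    refine (PiLp.continuous_toLp 2 _).comp_continuousOn (continuousOn_pi.2 fun i => ?_)
    have h1 : Continuous fun x : EuclideanSpace ℂ (Fin K) => x i :=
      (continuous_apply i).comp (PiLp.continuous_ofLp 2 _)
    have h2 : ContinuousOn (fun x : EuclideanSpace ℂ (Fin K) => c (WithLp.ofLp x) (-((i : ℤ) + 1)))
        (Metric.closedBall 0 ε) :=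
      (H1 K y ε M om f lamc hε g1 hy hG hC (-((i : ℤ) + 1))).comp
        (PiLp.continuous_ofLp 2 _).continuousOn (fun x hx => hball x hx)
    exact h1.continuousOn.add (continuousOn_const.mul (continuousOn_const.mul h2))
  have hmaps : MapsTo T (Metric.closedBall 0 ε) (Metric.closedBall 0 ε) := by
    intro x hx
    have hb := hball x hx
    obtain ⟨-, -, ⟨L2, hL2⟩, -, -, hW⟩ := H2 K (WithLp.ofLp x) y ε M om f lamc hε g2 hy hG hC hb
    obtain ⟨⟨L3, hL3⟩, -, -, -, hX⟩ := H3 K (WithLp.ofLp x) y ε hε g3 hy hb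
    let A : EuclideanSpace ℂ (Fin K) := WithLp.toLp 2 (fun i : Fin K =>
      ((i : ℂ) + 1) * cf (WF y om f (WithLp.ofLp x)) (-((i : ℤ) + 1)))
    let B : EuclideanSpace ℂ (Fin K) := WithLp.toLp 2 (fun i : Fin K =>
      ((i : ℂ) + 1) * cf (Xc (WithLp.ofLp x) y) (-((i : ℤ) + 1)) - 2 * (WithLp.ofLp x) i)
    have hA : ‖A‖ ≤ ε := by
      have h1 := EuclideanSpace.norm_sq_eq A
      have h2 : ‖A‖ ^ 2 ≤ ε ^ 2 := by rw [h1]; exact hW
      exact (abs_le_of_sq_le_sq' h2 hε.le).2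
    have hB : ‖B‖ ≤ ε / 2 := by
      have h1 := EuclideanSpace.norm_sq_eq B
      have h2 : ‖B‖ ^ 2 ≤ (ε / 2) ^ 2 := by rw [h1]; exact hX
      exact (abs_le_of_sq_le_sq' h2 (by positivity)).2
    have hT : T x = (1 / 2 : ℂ) • A - (1 / 2 : ℂ) • B := by
      ext i
      show x i + (1 / 2) * (((i : ℂ) + 1) * c (WithLp.ofLp x) (-((i : ℤ) + 1))) =
        (1 / 2 : ℂ) * (((i : ℂ) + 1) * cf (WF y om f (WithLp.ofLp x)) (-((i : ℤ) + 1))) -
        (1 / 2 : ℂ) * (((i : ℂ) + 1) * cf (Xc (WithLp.ofLp x) y) (-((i : ℤ) + 1)) - 2 * x i)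
      have h3 : c (WithLp.ofLp x) (-((i : ℤ) + 1)) =
          cf (WF y om f (WithLp.ofLp x)) (-((i : ℤ) + 1)) -
          cf (Xc (WithLp.ofLp x) y) (-((i : ℤ) + 1)) :=
        fix_cf_sub hL2.continuous hL3.continuous _
      rw [h3]
      ring
    rw [mem_closedBall_zero_iff, hT]
    refine (norm_sub_le _ _).trans ?_
    rw [norm_smul, norm_smul]
    have h4 : ‖(1 / 2 : ℂ)‖ = 1 / 2 := by simp
    rw [h4]
    linarith
  obtain ⟨x, hx, hfx⟩ := brouwer_ball hε.le hcont hmaps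
  refine ⟨WithLp.ofLp x, hball x hx, fun n hn hnK => ?_⟩
  obtain ⟨m, rfl⟩ : ∃ m, n = m + 1 := ⟨n - 1, by omega⟩
  let i : Fin K := ⟨m, by omega⟩
  have h5 := congrFun (congrArg WithLp.ofLp hfx) i
  have h6 : x i + (1 / 2) * (((i : ℂ) + 1) * c (WithLp.ofLp x) (-((i : ℤ) + 1))) = x i := h5
  have h7 : (1 / 2 : ℂ) * (((i : ℂ) + 1) * c (WithLp.ofLp x) (-((i : ℤ) + 1))) = 0 :=
    add_eq_left.1 h6
  have h8 : ((i : ℂ) + 1) ≠ 0 := by
    have := Nat.cast_add_one_ne_zero (R := ℂ) (i : ℕ)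
    exact this
  have h9 : c (WithLp.ofLp x) (-((i : ℤ) + 1)) = 0 := by
    rcases mul_eq_zero.1 h7 with h | h
    · exact absurd h (by norm_num)
    · rcases mul_eq_zero.1 h with h | h
      · exact absurd h h8
      · exact h
  have h10 : (-((m + 1 : ℕ) : ℤ)) = -((i : ℤ) + 1) := by
    show (-((m + 1 : ℕ) : ℤ)) = -((m : ℤ) + 1)
    push_cast
    ring
  rw [h10]
  exact h9

end Pool.Agent.CC57
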