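import Pool.Agent.CC57.Sph

set_option autoImplicit false

/-!
`‖xc v‖ = 2‖v‖/(1+‖v‖²)`, at most `1` and at most `2‖v‖`.
The conjugate functions.  Put `v = e^{-iσ} ψ(z) = v₁ + i v₂`, `‖v‖ < 1`.  Then with
`N = ‖1 - v²‖² = (1 - v₁² + v₂²)² + 4 v₁² v₂²` (and `1 - (2v₁/(1+‖v‖²))² = N/(1+‖v‖²)²`):
`Gs = arcsin (2 v₁/(1+‖v‖²))`, `Ts = 2 v₂/√N`, `wx = (1-‖v‖²)(1+‖v‖²)/N`, and
`∂g/∂v₁ = 2(1 - v₁² + v₂²)/((1+‖v‖²)√N)`, `∂g/∂v₂ = -4 v₁ v₂/((1+‖v‖²)√N)`,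
`∂T/∂v₁ = 4 v₁ v₂ (1-‖v‖²)/N^{3/2}`, `∂T/∂v₂ = 2(1-‖v‖²)(1-v₁²+v₂²)/N^{3/2}`
(for the last one: `N - 2v₂²(1+‖v‖²) = (1-‖v‖²)(1-v₁²+v₂²)`).  So `w g_{v₁} = T_{v₂}`,
`w g_{v₂} = -T_{v₁}`.
If `ψ` has the complex derivative `c` at `z`, then `v` has the derivative `c' = e^{-iσ} c = a + i b`,
`∂_x v = a + ib`, `∂_θ v = -b + ia`, and the chain rule gives `w G_x = T_θ`, `w G_θ = -T_x`.
`norm_fderiv_Gs_le`: `|∇_v g| = 2/(1+‖v‖²) ≤ 2`.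
(It is also possible to work in the coordinate `x = xc (ψ z)` with `Dg`, `DT`.)
`wx_gr2`: with `w G_x = T_θ`, `w G_θ = -T_x`:
`br T (2φ - G) = (2φ_x - G_x) T_θ - (2φ_θ - G_θ) T_x = w ((2φ_x - G_x) G_x + (2φ_θ - G_θ) G_θ)`, and
`w|∇φ|² = w (2∇φ·∇G - |∇G|²) + w |∇φ - ∇G|²`.
-/

open Real MeasureTheory Set

namespace Pool.Agent.CC57

private theorem s_pos (v : ℂ) : 0 < 1 + ‖v‖ ^ 2 := by positivity

private theorem norm_xc (v : ℂ) : ‖xc v‖ = 2 * ‖v‖ / (1 + ‖v‖ ^ 2) := by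
  unfold xc
  rw [norm_mul, Complex.norm_real, Real.norm_of_nonneg (by positivity)]
  ring

theorem norm_xc_le (v : ℂ) : ‖xc v‖ ≤ 1 := by
  rw [norm_xc, div_le_one (s_pos v)]
  nlinarith [sq_nonneg (1 - ‖v‖)]

theorem norm_xc_le' (v : ℂ) : ‖xc v‖ ≤ 2 * ‖v‖ := by
  rw [norm_xc, div_le_iff₀ (s_pos v)]
  have := norm_nonneg v
  nlinarith [mul_nonneg this (sq_nonneg ‖v‖)]

theorem norm_xc_lt {v : ℂ} (hv : ‖v‖ < 1) : ‖xc v‖ < 1 := by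
  rw [norm_xc, div_lt_one (s_pos v)]
  nlinarith [mul_pos (sub_pos.2 hv) (sub_pos.2 hv)]

theorem inn_xc (v : ℂ) (σ : ℝ) :
    inn (xc v) σ = 2 * inn v σ / (1 + ‖v‖ ^ 2) := by
  unfold xc
  rw [inn_smul]
  ring

private theorem inp_xc (v : ℂ) (σ : ℝ) :
    inp (xc v) σ = 2 * inp v σ / (1 + ‖v‖ ^ 2) := by
  unfold xc
  rw [inp_smul]
  ring

/-- `inn · σ` as a linear map -/
private noncomputable def l1 (σ : ℝ) : ℂ →L[ℝ] ℝ := cos σ • Complex.reCLM + sin σ • Complex.imCLM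

private noncomputable def l2 (σ : ℝ) : ℂ →L[ℝ] ℝ := cos σ • Complex.imCLM - sin σ • Complex.reCLM

private theorem l1_apply (σ : ℝ) (v : ℂ) : l1 σ v = inn v σ := by
  simp only [l1, inn, ContinuousLinearMap.add_apply, ContinuousLinearMap.smul_apply, Complex.reCLM_apply,
    Complex.imCLM_apply, smul_eq_mul]
  ring

private theorem l2_apply (σ : ℝ) (v : ℂ) : l2 σ v = inp v σ := by
  simp only [l2, inp, ContinuousLinearMap.sub_apply, ContinuousLinearMap.smul_apply, Complex.reCLM_apply,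
    Complex.imCLM_apply, smul_eq_mul]
  ring

private theorem hasInn (σ : ℝ) (v : ℂ) : HasFDerivAt (fun v => inn v σ) (l1 σ) v := by
  have e : (fun v => inn v σ) = fun v => l1 σ v := by
    funext v
    exact (l1_apply σ v).symm
  rw [e]
  exact (l1 σ).hasFDerivAt

private theorem hasInp (σ : ℝ) (v : ℂ) : HasFDerivAt (fun v => inp v σ) (l2 σ) v := by
  have e : (fun v => inp v σ) = fun v => l2 σ v := by
    funext v
    exact (l2_apply σ v).symm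
  rw [e]
  exact (l2 σ).hasFDerivAt

private theorem hasInv (σ : ℝ) (v : ℂ) :
    HasFDerivAt (fun v => (1 + (inn v σ * inn v σ + inp v σ * inp v σ))⁻¹)
      ((-((1 + (inn v σ * inn v σ + inp v σ * inp v σ)) ^ 2)⁻¹) •
        ((inn v σ • l1 σ + inn v σ • l1 σ) + (inp v σ • l2 σ + inp v σ • l2 σ))) v := by
  have hS : HasFDerivAt (fun v => 1 + (inn v σ * inn v σ + inp v σ * inp v σ))
      ((inn v σ • l1 σ + inn v σ • l1 σ) + (inp v σ • l2 σ + inp v σ • l2 σ)) v :=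
    (((hasInn σ v).mul (hasInn σ v)).add ((hasInp σ v).mul (hasInp σ v))).const_add 1
  have h0 : 1 + (inn v σ * inn v σ + inp v σ * inp v σ) ≠ 0 := by
    have := mul_self_nonneg (inn v σ)
    have := mul_self_nonneg (inp v σ)
    positivity
  exact (hasDerivAt_inv h0).comp_hasFDerivAt v hS

private theorem nsq (v : ℂ) (σ : ℝ) : 1 + ‖v‖ ^ 2 = 1 + (inn v σ * inn v σ + inp v σ * inp v σ) := by
  rw [← inn_sq_add_inp_sq v σ]
  ring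

private theorem ex1 (v : ℂ) (σ : ℝ) : ∃ L : ℂ →L[ℝ] ℝ, HasFDerivAt (fun v => inn (xc v) σ) L v ∧
    ∀ a, L a = 2 / (1 + ‖v‖ ^ 2) ^ 2 * ((1 - inn v σ ^ 2 + inp v σ ^ 2) * inn a σ -
      2 * inn v σ * inp v σ * inp a σ) := by
  have e : (fun v => inn (xc v) σ) = fun v => (2 * inn v σ) *
      (1 + (inn v σ * inn v σ + inp v σ * inp v σ))⁻¹ := by
    funext v
    rw [inn_xc, nsq v σ]
    rfl
  rw [e]
  refine ⟨_, ((hasInn σ v).const_mul 2).mul (hasInv σ v), fun a => ?_⟩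
  rw [nsq v σ]
  simp only [ContinuousLinearMap.add_apply, ContinuousLinearMap.smul_apply, l1_apply, l2_apply, smul_eq_mul]
  have h0 : 1 + (inn v σ * inn v σ + inp v σ * inp v σ) ≠ 0 := by
    have := mul_self_nonneg (inn v σ)
    have := mul_self_nonneg (inp v σ)
    positivity
  field_simp
  ring

private theorem ex2 (v : ℂ) (σ : ℝ) : ∃ L : ℂ →L[ℝ] ℝ, HasFDerivAt (fun v => inp (xc v) σ) L v ∧
    ∀ a, L a = 2 / (1 + ‖v‖ ^ 2) ^ 2 * ((1 + inn v σ ^ 2 - inp v σ ^ 2) * inp a σ -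
      2 * inn v σ * inp v σ * inn a σ) := by
  have e : (fun v => inp (xc v) σ) = fun v => (2 * inp v σ) *
      (1 + (inn v σ * inn v σ + inp v σ * inp v σ))⁻¹ := by
    funext v
    rw [inp_xc, nsq v σ]
    rfl
  rw [e]
  refine ⟨_, ((hasInp σ v).const_mul 2).mul (hasInv σ v), fun a => ?_⟩
  rw [nsq v σ]
  simp only [ContinuousLinearMap.add_apply, ContinuousLinearMap.smul_apply, l1_apply, l2_apply, smul_eq_mul]
  have h0 : 1 + (inn v σ * inn v σ + inp v σ * inp v σ) ≠ 0 := by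
    have := mul_self_nonneg (inn v σ)
    have := mul_self_nonneg (inp v σ)
    positivity
  field_simp
  ring

private theorem exG {v : ℂ} (hv : ‖v‖ < 1) (σ : ℝ) : ∃ L : ℂ →L[ℝ] ℝ,
    HasFDerivAt (fun v => gx (xc v) σ) L v ∧
    ∀ a, L a = 1 / qx (xc v) σ * (2 / (1 + ‖v‖ ^ 2) ^ 2 * ((1 - inn v σ ^ 2 + inp v σ ^ 2) * inn a σ -
      2 * inn v σ * inp v σ * inp a σ)) := by
  obtain ⟨L, hL, hLa⟩ := ex1 v σ
  have hx := norm_xc_lt hv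
  have hi := abs_inn_le (xc v) σ
  have hi' : |inn (xc v) σ| < 1 := lt_of_le_of_lt hi hx
  obtain ⟨i1, i2⟩ := abs_lt.1 hi'
  have h := (hasDerivAt_arcsin i1.ne' i2.ne).comp_hasFDerivAt v hL
  refine ⟨_, h, fun a => ?_⟩
  rw [ContinuousLinearMap.smul_apply, hLa, smul_eq_mul]
  rfl

private theorem exT {v : ℂ} (hv : ‖v‖ < 1) (σ : ℝ) : ∃ L : ℂ →L[ℝ] ℝ,
    HasFDerivAt (fun v => Tx (xc v) σ) L v ∧
    ∀ a, L a = 1 / qx (xc v) σ * (2 / (1 + ‖v‖ ^ 2) ^ 2 * ((1 + inn v σ ^ 2 - inp v σ ^ 2) * inp a σ -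
      2 * inn v σ * inp v σ * inn a σ)) + inp (xc v) σ * inn (xc v) σ / qx (xc v) σ ^ 3 *
      (2 / (1 + ‖v‖ ^ 2) ^ 2 * ((1 - inn v σ ^ 2 + inp v σ ^ 2) * inn a σ -
      2 * inn v σ * inp v σ * inp a σ)) := by
  obtain ⟨L, hL, hLa⟩ := ex1 v σ
  obtain ⟨M, hM, hMa⟩ := ex2 v σ
  have hx := norm_xc_lt hv
  have hq := qx_pos hx σ
  have hq2 := qx_sq hx σ
  have h1 : HasFDerivAt (fun v => 1 - inn (xc v) σ ^ 2) (-(inn (xc v) σ • L + inn (xc v) σ • L)) v := by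
    have e : (fun v => 1 - inn (xc v) σ ^ 2) = fun v => 1 - inn (xc v) σ * inn (xc v) σ := by
      funext v
      ring
    rw [e]
    exact (hL.mul hL).const_sub 1
  have hne : 1 - inn (xc v) σ ^ 2 ≠ 0 := by
    rw [← hq2]
    positivity
  have h2 := h1.sqrt hne
  have hqd : √(1 - inn (xc v) σ ^ 2) = qx (xc v) σ := rfl
  rw [hqd] at h2
  have h3 : HasFDerivAt (fun v => (qx (xc v) σ)⁻¹)
      ((-(qx (xc v) σ ^ 2)⁻¹) • ((1 / (2 * qx (xc v) σ)) • -(inn (xc v) σ • L + inn (xc v) σ • L))) v :=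
    (hasDerivAt_inv hq.ne').comp_hasFDerivAt v h2
  have h4 : HasFDerivAt (fun v => Tx (xc v) σ) _ v := hM.mul h3
  refine ⟨_, h4, fun a => ?_⟩
  simp only [ContinuousLinearMap.add_apply, ContinuousLinearMap.smul_apply, ContinuousLinearMap.neg_apply,
    smul_eq_mul]
  rw [← hLa a, ← hMa a]
  generalize L a = x
  generalize M a = y
  generalize qx (xc v) σ = q at *
  generalize inn (xc v) σ = p at *
  generalize inp (xc v) σ = r at *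
  field_simp
  ring

private theorem comp_ex {F : ℂ → ℝ} {ψ : ℂ → ℂ} {z c : ℂ} (hψ : HasDerivAt ψ c z) {L : ℂ →L[ℝ] ℝ}
    (hL : HasFDerivAt F L (ψ z)) : DifferentiableAt ℝ (fun z => F (ψ z)) z ∧
      ∀ a, fderiv ℝ (fun z => F (ψ z)) z a = L (c * a) := by
  have h := hL.comp z hψ.complexToReal_fderiv
  refine ⟨h.differentiableAt, fun a => ?_⟩
  have h' : HasFDerivAt (fun z => F (ψ z)) _ z := h
  rw [h'.fderiv]
  simp

theorem differentiableAt_Gs {ψ : ℂ → ℂ} {z c : ℂ} (hψ : HasDerivAt ψ c z) (h1 : ‖ψ z‖ < 1)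
    (σ : ℝ) : DifferentiableAt ℝ (Gs ψ σ) z := by
  obtain ⟨L, hL, _⟩ := exG h1 σ
  exact (comp_ex hψ hL).1

theorem differentiableAt_Ts {ψ : ℂ → ℂ} {z c : ℂ} (hψ : HasDerivAt ψ c z) (h1 : ‖ψ z‖ < 1)
    (σ : ℝ) : DifferentiableAt ℝ (Ts ψ σ) z := by
  obtain ⟨L, hL, _⟩ := exT h1 σ
  exact (comp_ex hψ hL).1

private theorem inn_mul_I (a : ℂ) (σ : ℝ) : inn (a * Complex.I) σ = -inp a σ := by
  simp only [inn, inp, Complex.mul_re, Complex.mul_im, Complex.I_re, Complex.I_im]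
  ring

private theorem inp_mul_I (a : ℂ) (σ : ℝ) : inp (a * Complex.I) σ = inn a σ := by
  simp only [inn, inp, Complex.mul_re, Complex.mul_im, Complex.I_re, Complex.I_im]
  ring

private theorem sqrt_xc {v : ℂ} (hv : ‖v‖ < 1) : √(1 - ‖xc v‖ ^ 2) = (1 - ‖v‖ ^ 2) / (1 + ‖v‖ ^ 2) := by
  have h0 := norm_nonneg v
  have h1 : 1 - ‖xc v‖ ^ 2 = ((1 - ‖v‖ ^ 2) / (1 + ‖v‖ ^ 2)) ^ 2 := by
    rw [norm_xc]
    have := (s_pos v).ne'
    field_simp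
    ring
  rw [h1, Real.sqrt_sq]
  apply div_nonneg _ (s_pos v).le
  nlinarith

/-- The Cauchy-Riemann equations. -/
private theorem cr {v : ℂ} (hv : ‖v‖ < 1) (σ : ℝ) (a : ℂ) :
    wx (xc v) σ * (1 / qx (xc v) σ * (2 / (1 + ‖v‖ ^ 2) ^ 2 * ((1 - inn v σ ^ 2 + inp v σ ^ 2) * inn a σ -
      2 * inn v σ * inp v σ * inp a σ))) =
    1 / qx (xc v) σ * (2 / (1 + ‖v‖ ^ 2) ^ 2 * ((1 + inn v σ ^ 2 - inp v σ ^ 2) * inp (a * Complex.I) σ -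
      2 * inn v σ * inp v σ * inn (a * Complex.I) σ)) + inp (xc v) σ * inn (xc v) σ / qx (xc v) σ ^ 3 *
      (2 / (1 + ‖v‖ ^ 2) ^ 2 * ((1 - inn v σ ^ 2 + inp v σ ^ 2) * inn (a * Complex.I) σ -
      2 * inn v σ * inp v σ * inp (a * Complex.I) σ)) := by
  have hx := norm_xc_lt hv
  have hq := qx_pos hx σ
  have hq2 := qx_sq hx σ
  rw [inn_mul_I, inp_mul_I]
  unfold wx
  rw [sqrt_xc hv, ← hq2, inp_xc]
  rw [inn_xc] at hq2 ⊢
  have hs : ‖v‖ ^ 2 = inn v σ ^ 2 + inp v σ ^ 2 := (inn_sq_add_inp_sq v σ).symm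
  rw [hs] at hq2 ⊢
  generalize inn v σ = u1 at *
  generalize inp v σ = u2 at *
  generalize inn a σ = a1 at *
  generalize inp a σ = a2 at *
  generalize qx (xc v) σ = q at *
  have hsp : 0 < 1 + (u1 ^ 2 + u2 ^ 2) := by positivity
  have hq3 : q ^ 2 * (1 + (u1 ^ 2 + u2 ^ 2)) ^ 2 = (1 + (u1 ^ 2 + u2 ^ 2)) ^ 2 - 4 * u1 ^ 2 := by
    rw [hq2]
    field_simp
    ring
  field_simp
  linear_combination (-((1 + u1 ^ 2 - u2 ^ 2) * a1 + 2 * u1 * u2 * a2)) * hq3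

theorem wx_Gs_one {ψ : ℂ → ℂ} {z c : ℂ} (hψ : HasDerivAt ψ c z) (h1 : ‖ψ z‖ < 1) (σ : ℝ) :
    wx (xc (ψ z)) σ * fderiv ℝ (Gs ψ σ) z 1 = fderiv ℝ (Ts ψ σ) z Complex.I := by
  obtain ⟨L, hL, hLa⟩ := exG h1 σ
  obtain ⟨M, hM, hMa⟩ := exT h1 σ
  have e1 : fderiv ℝ (Gs ψ σ) z 1 = L (c * 1) := (comp_ex hψ hL).2 1
  have e2 : fderiv ℝ (Ts ψ σ) z Complex.I = M (c * Complex.I) := (comp_ex hψ hM).2 Complex.I
  rw [e1, e2, mul_one, hLa, hMa]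
  exact cr h1 σ c

theorem wx_Gs_I {ψ : ℂ → ℂ} {z c : ℂ} (hψ : HasDerivAt ψ c z) (h1 : ‖ψ z‖ < 1) (σ : ℝ) :
    wx (xc (ψ z)) σ * fderiv ℝ (Gs ψ σ) z Complex.I = -fderiv ℝ (Ts ψ σ) z 1 := by
  obtain ⟨L, hL, hLa⟩ := exG h1 σ
  obtain ⟨M, hM, hMa⟩ := exT h1 σ
  have e1 : fderiv ℝ (Gs ψ σ) z Complex.I = L (c * Complex.I) := (comp_ex hψ hL).2 Complex.I
  have e2 : fderiv ℝ (Ts ψ σ) z 1 = M (c * 1) := (comp_ex hψ hM).2 1
  have e3 : -M (c * 1) = M (c * Complex.I * Complex.I) := by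
    rw [← map_neg]
    congr 1
    rw [mul_assoc, Complex.I_mul_I]
    ring
  rw [e1, e2, e3, hLa, hMa]
  exact cr h1 σ (c * Complex.I)

theorem norm_fderiv_Gs_le {ψ : ℂ → ℂ} {z c : ℂ} (hψ : HasDerivAt ψ c z) (h1 : ‖ψ z‖ < 1)
    (σ : ℝ) : ‖fderiv ℝ (Gs ψ σ) z‖ ≤ 2 * ‖c‖ := by
  obtain ⟨L, hL, hLa⟩ := exG h1 σ
  apply ContinuousLinearMap.opNorm_le_bound _ (by positivity)
  intro a
  have e1 : fderiv ℝ (Gs ψ σ) z a = L (c * a) := (comp_ex hψ hL).2 a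
  have e0 : 2 * ‖c‖ * ‖a‖ = 2 * ‖c * a‖ := by rw [norm_mul]; ring
  rw [e1, hLa, e0]
  generalize c * a = b
  have hx := norm_xc_lt h1
  have hq := qx_pos hx σ
  have hq2 := qx_sq hx σ
  rw [inn_xc] at hq2
  have hs : ‖ψ z‖ ^ 2 = inn (ψ z) σ ^ 2 + inp (ψ z) σ ^ 2 := (inn_sq_add_inp_sq (ψ z) σ).symm
  have hb : ‖b‖ ^ 2 = inn b σ ^ 2 + inp b σ ^ 2 := (inn_sq_add_inp_sq b σ).symm
  rw [hs] at hq2 ⊢
  generalize inn (ψ z) σ = u1 at *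
  generalize inp (ψ z) σ = u2 at *
  generalize inn b σ = a1 at *
  generalize inp b σ = a2 at *
  generalize qx (xc (ψ z)) σ = q at *
  have hsp : 1 ≤ 1 + (u1 ^ 2 + u2 ^ 2) := by
    have := sq_nonneg u1
    have := sq_nonneg u2
    linarith
  have hq3 : q ^ 2 * (1 + (u1 ^ 2 + u2 ^ 2)) ^ 2 = (1 + (u1 ^ 2 + u2 ^ 2)) ^ 2 - 4 * u1 ^ 2 := by
    rw [hq2]
    field_simp
    ring
  have hb0 := norm_nonneg b
  generalize ‖b‖ = B at *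
  rw [Real.norm_eq_abs]
  have e2 : 1 / q * (2 / (1 + (u1 ^ 2 + u2 ^ 2)) ^ 2 * ((1 - u1 ^ 2 + u2 ^ 2) * a1 - 2 * u1 * u2 * a2)) =
      2 * (((1 - u1 ^ 2 + u2 ^ 2) * a1 - 2 * u1 * u2 * a2) / (q * (1 + (u1 ^ 2 + u2 ^ 2)) ^ 2)) := by
    field_simp
  rw [e2, abs_mul, abs_of_pos (by norm_num : (0 : ℝ) < 2)]
  apply mul_le_mul_of_nonneg_left _ (by norm_num)
  rw [abs_div, abs_of_pos (by positivity : 0 < q * (1 + (u1 ^ 2 + u2 ^ 2)) ^ 2), div_le_iff₀ (by positivity)]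
  generalize hS : 1 + (u1 ^ 2 + u2 ^ 2) = S at *
  have k1 : |(1 - u1 ^ 2 + u2 ^ 2) * a1 - 2 * u1 * u2 * a2| ≤ B * (q * S) := by
    apply abs_le_of_sq_le_sq _ (by positivity)
    have e3 : (B * (q * S)) ^ 2 = B ^ 2 * (q ^ 2 * S ^ 2) := by ring
    rw [e3, hq3, hb, ← hS]
    nlinarith [sq_nonneg ((1 - u1 ^ 2 + u2 ^ 2) * a2 + 2 * u1 * u2 * a1)]
  refine k1.trans ?_
  apply mul_le_mul_of_nonneg_left _ hb0
  have : q * S ≤ q * (S * S) := by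
    apply mul_le_mul_of_nonneg_left _ hq.le
    nlinarith
  calc q * S ≤ q * (S * S) := this
    _ = q * S ^ 2 := by ring

/-- The chain rule for `br` under a holomorphic map. -/
theorem br_comp {T f : ℂ → ℝ} {ω : ℂ → ℂ} {z c : ℂ} (hω : HasDerivAt ω c z)
    (hT : DifferentiableAt ℝ T (ω z)) (hf : DifferentiableAt ℝ f (ω z)) :
    br (fun z => T (ω z)) (fun z => f (ω z)) z = ‖c‖ ^ 2 * br T f (ω z) := by
  have hT' := (comp_ex hω hT.hasFDerivAt).2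
  have hf' := (comp_ex hω hf.hasFDerivAt).2
  unfold br
  rw [hT', hT', hf', hf']
  have key : ∀ (L : ℂ →L[ℝ] ℝ) (b : ℂ), L b = b.re * L 1 + b.im * L Complex.I := by
    intro L b
    have e : b = (b.re : ℝ) • (1 : ℂ) + (b.im : ℝ) • Complex.I := by
      apply Complex.ext <;> simp
    conv_lhs => rw [e]
    rw [map_add, map_smul, map_smul, smul_eq_mul, smul_eq_mul]
  rw [key (fderiv ℝ f (ω z)) (c * 1), key (fderiv ℝ f (ω z)) (c * Complex.I),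
    key (fderiv ℝ T (ω z)) (c * 1), key (fderiv ℝ T (ω z)) (c * Complex.I)]
  have hc : ‖c‖ ^ 2 = c.re ^ 2 + c.im ^ 2 := by
    rw [Complex.sq_norm, Complex.normSq_apply]
    ring
  rw [hc]
  simp only [Complex.mul_re, Complex.mul_im, Complex.I_re, Complex.I_im, Complex.one_re, Complex.one_im]
  ring

/-- Completion of the square. -/
theorem wx_gr2 {ψ : ℂ → ℂ} {z c : ℂ} (hψ : HasDerivAt ψ c z) (h1 : ‖ψ z‖ < 1) (σ : ℝ)
    {φ : ℂ → ℝ} (hφ : DifferentiableAt ℝ φ z) :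
    wx (xc (ψ z)) σ * gr2 φ z = br (Ts ψ σ) (fun z => 2 * φ z - Gs ψ σ z) z +
      wx (xc (ψ z)) σ * gr2 (fun z => φ z - Gs ψ σ z) z := by
  have hG := differentiableAt_Gs hψ h1 σ
  have e1 : fderiv ℝ (fun z => 2 * φ z - Gs ψ σ z) z = (2 : ℝ) • fderiv ℝ φ z - fderiv ℝ (Gs ψ σ) z :=
    ((hφ.hasFDerivAt.const_mul 2).sub hG.hasFDerivAt).fderiv
  have e2 : fderiv ℝ (fun z => φ z - Gs ψ σ z) z = fderiv ℝ φ z - fderiv ℝ (Gs ψ σ) z :=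
    (hφ.hasFDerivAt.sub hG.hasFDerivAt).fderiv
  unfold br gr2
  rw [e1, e2, ← wx_Gs_one hψ h1 σ, ← neg_eq_iff_eq_neg.2 (wx_Gs_I hψ h1 σ)]
  simp only [ContinuousLinearMap.sub_apply, ContinuousLinearMap.smul_apply, smul_eq_mul]
  ring

private theorem lin_bd (L : ℂ →L[ℝ] ℝ) (a b : ℝ) : |a * L 1 + b * L Complex.I| ≤ ‖L‖ * √(a ^ 2 + b ^ 2) := by
  have e : a * L 1 + b * L Complex.I = L ((a : ℂ) + b * Complex.I) := by
    have e : (a : ℂ) + b * Complex.I = (a : ℝ) • (1 : ℂ) + (b : ℝ) • Complex.I := by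
      apply Complex.ext <;> simp
    rw [e, map_add, map_smul, map_smul, smul_eq_mul, smul_eq_mul]
  have e2 : ‖(a : ℂ) + b * Complex.I‖ = √(a ^ 2 + b ^ 2) := Complex.norm_add_mul_I a b
  rw [e, ← e2, ← Real.norm_eq_abs]
  exact L.le_opNorm _

theorem gr2_le {φ : ℂ → ℝ} {z : ℂ} {C : ℝ} (h : ‖fderiv ℝ φ z‖ ≤ C) : gr2 φ z ≤ C ^ 2 := by
  unfold gr2
  generalize fderiv ℝ φ z = L at *
  have h1 := lin_bd L (L 1) (L Complex.I)
  have e : L 1 * L 1 + L Complex.I * L Complex.I = L 1 ^ 2 + L Complex.I ^ 2 := by ring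
  rw [e] at h1
  have h0 : 0 ≤ L 1 ^ 2 + L Complex.I ^ 2 := by positivity
  rw [abs_of_nonneg h0] at h1
  generalize L 1 ^ 2 + L Complex.I ^ 2 = x at *
  have hx := Real.sq_sqrt h0
  have hs := Real.sqrt_nonneg x
  have hL := norm_nonneg L
  have h2 : √x ≤ C := by
    by_contra hc
    push Not at hc
    nlinarith
  nlinarith

theorem abs_br_le {T f : ℂ → ℝ} {z : ℂ} {C : ℝ} (h : ‖fderiv ℝ f z‖ ≤ C) :
    |br T f z| ≤ C * √(gr2 T z) := by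
  unfold br gr2
  have h1 := lin_bd (fderiv ℝ f z) (fderiv ℝ T z Complex.I) (-(fderiv ℝ T z 1))
  have e : fderiv ℝ T z Complex.I * fderiv ℝ f z 1 + -(fderiv ℝ T z 1) * fderiv ℝ f z Complex.I =
      fderiv ℝ f z 1 * fderiv ℝ T z Complex.I - fderiv ℝ f z Complex.I * fderiv ℝ T z 1 := by ring
  have e2 : fderiv ℝ T z Complex.I ^ 2 + (-(fderiv ℝ T z 1)) ^ 2 =
      fderiv ℝ T z 1 ^ 2 + fderiv ℝ T z Complex.I ^ 2 := by ring
  rw [e, e2] at h1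
  exact h1.trans (mul_le_mul_of_nonneg_right h (Real.sqrt_nonneg _))

end Pool.Agent.CC57
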