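import Pool.Agent.CC57.XcP
import Pool.Agent.CC57.Vcr

set_option autoImplicit false

/-!
The curve `Xc b y θ = xc (ψ)`, `ψ = Pc / Qc` (`psi_eq`).
`ψ' = Pc'/Qc - Pc Qc'/Qc²`; `xc v = 2 v/(1+‖v‖²)` has the derivative `2/(1+‖v‖²) dv - 4 v ⟨v, dv⟩/(1+‖v‖²)²`,
of norm `≤ 2‖dv‖`, and `‖xc'(v) dv - 2 dv‖ ≤ 6 ‖v‖² ‖dv‖`.  With `‖Pc‖ ≤ 3ε`, `‖Qc - 1‖ ≤ ε³`,
`‖Qc'‖ ≤ ε³`: `‖ψ‖ ≤ 4 ε`, `‖ψ'‖ ≤ 2‖Pc'‖ + ε³`, so `‖Xc‖ ≤ 2‖ψ‖ ≤ 8 ε`, `‖Xc'‖ ≤ 4‖Pc'‖ + 2ε³`,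
`∫ ‖Xc'‖² ≤ C ε²`.  `D = Xc - 2Pc` satisfies
`‖D'‖ ≤ ‖xc'(ψ)ψ' - 2ψ'‖ + 2‖ψ' - Pc'‖ ≤ C ε² (‖Pc'‖ + ε)`, so `(2π)⁻¹ ∫ ‖D'‖² ≤ C ε⁶ ≤ ε²/4` for small `ε`.
`(i+1) cf (2Pc) (-(i+1)) = 2 b_i` (`cf_Pc`), hence `(i+1) cf Xc (-(i+1)) - 2 b_i = (i+1) cf D (-(i+1))`,
and `∑ (i+1)² ‖cf D (-(i+1))‖² ≤ (2π)⁻¹ ∫ ‖D'‖²` (`hasSum_deriv`, the indices are distinct).
All functions are `C¹` and periodic, so Lipschitz.
-/

open Real MeasureTheory Set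

namespace Pool.Agent.CC57

private theorem xc_contDiff : ContDiff ℝ 1 xc := by
  have h1 : ContDiff ℝ 1 (fun v : ℂ => 2 / (1 + ‖v‖ ^ 2)) := by
    refine contDiff_const.div (contDiff_const.add (contDiff_norm_sq ℝ)) fun v => ?_
    positivity
  exact (Complex.ofRealCLM.contDiff.comp h1).mul contDiff_id

private theorem lip_of_per {f : ℝ → ℂ} (hf : ContDiff ℝ 1 f) (hp : ∀ θ, f (θ + 2 * π) = f θ) :
    ∃ L : NNReal, LipschitzWith L f := by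
  have hper : Function.Periodic (deriv f) (2 * π) := by
    intro θ
    rw [← deriv_comp_add_const]
    congr 1
    funext t
    exact hp t
  have hc : Continuous (deriv f) := hf.continuous_deriv le_rfl
  obtain ⟨C, hC⟩ := (isCompact_Icc (a := (0 : ℝ)) (b := 2 * π)).exists_bound_of_continuousOn
    hc.continuousOn
  have hb : ∀ θ, ‖deriv f θ‖ ≤ C := by
    intro θ
    obtain ⟨t, ht, h⟩ := hper.exists_mem_Ico₀ two_pi_pos θ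
    rw [h]
    exact hC t ⟨ht.1, ht.2.le⟩
  have hC0 : 0 ≤ C := (norm_nonneg _).trans (hb 0)
  refine ⟨⟨C, hC0⟩, ?_⟩
  refine lipschitzWith_of_nnnorm_deriv_le (hf.differentiable one_ne_zero) fun θ => ?_
  exact_mod_cast hb θ

/-- The derivative of `xc` along a curve. -/
private theorem hasDerivAt_xc {v : ℝ → ℂ} {v' : ℂ} {θ : ℝ} (hv : HasDerivAt v v' θ) :
    ∃ d : ℂ, HasDerivAt (fun t => xc (v t)) d θ ∧ ‖d - 2 * v'‖ ≤ 6 * ‖v θ‖ ^ 2 * ‖v'‖ := by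
  have h1 : HasDerivAt (fun t => ‖v t‖ ^ 2) (2 * inner ℝ (v θ) v') θ := hv.norm_sq
  have hpos : 0 < 1 + ‖v θ‖ ^ 2 := by positivity
  have h2 : HasDerivAt (fun t => 2 / (1 + ‖v t‖ ^ 2))
      ((0 * (1 + ‖v θ‖ ^ 2) - 2 * (2 * inner ℝ (v θ) v')) / (1 + ‖v θ‖ ^ 2) ^ 2) θ :=
    (hasDerivAt_const θ (2 : ℝ)).div (h1.const_add 1) hpos.ne'
  have h3 := h2.ofReal_comp.mul hv
  refine ⟨_, h3, ?_⟩
  have hin : |inner ℝ (v θ) v'| ≤ ‖v θ‖ * ‖v'‖ := abs_real_inner_le_norm _ _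
  set s := ‖v θ‖ with hs
  set c := inner ℝ (v θ) v' with hc
  have e1 : (((0 * (1 + s ^ 2) - 2 * (2 * c)) / (1 + s ^ 2) ^ 2 : ℝ) : ℂ) * v θ +
      ((2 / (1 + s ^ 2) : ℝ) : ℂ) * v' - 2 * v' =
      ((-(4 * c) / (1 + s ^ 2) ^ 2 : ℝ) : ℂ) * v θ + ((-(2 * s ^ 2) / (1 + s ^ 2) : ℝ) : ℂ) * v' := by
    have e2 : (-(2 * s ^ 2) / (1 + s ^ 2) : ℝ) = 2 / (1 + s ^ 2) - 2 := by
      field_simp
      ring
    have e3 : (0 * (1 + s ^ 2) - 2 * (2 * c)) / (1 + s ^ 2) ^ 2 = -(4 * c) / (1 + s ^ 2) ^ 2 := by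
      ring
    rw [e2, e3]
    push_cast
    ring
  rw [e1]
  refine (norm_add_le _ _).trans ?_
  rw [norm_mul, norm_mul, Complex.norm_real, Complex.norm_real, Real.norm_eq_abs,
    Real.norm_eq_abs, abs_div, abs_div, abs_neg, abs_neg, abs_mul, abs_mul]
  have h4 : |(4 : ℝ)| * |c| / |(1 + s ^ 2) ^ 2| ≤ 4 * (s * ‖v'‖) := by
    rw [abs_of_pos (by positivity : (0 : ℝ) < (1 + s ^ 2) ^ 2), abs_of_pos (by norm_num : (0 : ℝ) < 4)]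
    refine (div_le_self (by positivity) ?_).trans ?_
    · nlinarith [sq_nonneg s, sq_nonneg (s ^ 2)]
    · exact mul_le_mul_of_nonneg_left hin (by norm_num)
  have h5 : |(2 : ℝ)| * |s ^ 2| / |1 + s ^ 2| ≤ 2 * s ^ 2 := by
    rw [abs_of_pos hpos, abs_of_pos (by norm_num : (0 : ℝ) < 2), abs_of_nonneg (sq_nonneg s)]
    exact div_le_self (by positivity) (by nlinarith [sq_nonneg s])
  have h6 : |(4 : ℝ)| * |c| / |(1 + s ^ 2) ^ 2| * s ≤ 4 * (s * ‖v'‖) * s :=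
    mul_le_mul_of_nonneg_right h4 (norm_nonneg _)
  have h7 : |(2 : ℝ)| * |s ^ 2| / |1 + s ^ 2| * ‖v'‖ ≤ 2 * s ^ 2 * ‖v'‖ :=
    mul_le_mul_of_nonneg_right h5 (norm_nonneg _)
  calc _ ≤ 4 * (s * ‖v'‖) * s + 2 * s ^ 2 * ‖v'‖ := add_le_add h6 h7
    _ = 6 * s ^ 2 * ‖v'‖ := by ring

private theorem Xc_eq {K : ℕ} (b : Fin K → ℂ) (y : ℝ) :
    Xc b y = fun θ => xc (Pc b y θ / Qc b y θ) := by
  funext θ
  unfold Xc
  rw [psi_eq]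

private theorem Qc_ne {K : ℕ} {b : Fin K → ℂ} {y ε : ℝ} (hε : 0 < ε) (hε1 : ε ≤ 1 / 4)
    (hy : rexp (-y) ≤ ε) (hb : ∑ i, ‖b i‖ ^ 2 ≤ ε ^ 2) (θ : ℝ) : 3 / 4 ≤ ‖Qc b y θ‖ := by
  have h1 := norm_Qc_sub_le hε hε1 hy hb θ
  have h2 : ε ^ 3 ≤ (1 / 4 : ℝ) ^ 3 := by gcongr
  have h3 : ‖(1 : ℂ)‖ ≤ ‖Qc b y θ‖ + ‖1 - Qc b y θ‖ := by
    have h4 := norm_add_le (Qc b y θ) (1 - Qc b y θ)
    rwa [add_sub_cancel] at h4
  rw [norm_one, norm_sub_rev] at h3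
  norm_num at h2
  linarith

private theorem norm_psi_le {K : ℕ} {b : Fin K → ℂ} {y ε : ℝ} (hε : 0 < ε) (hε1 : ε ≤ 1 / 4)
    (hy : rexp (-y) ≤ ε) (hb : ∑ i, ‖b i‖ ^ 2 ≤ ε ^ 2) (θ : ℝ) :
    ‖Pc b y θ / Qc b y θ‖ ≤ 4 * ε := by
  have h1 := Qc_ne hε hε1 hy hb θ
  have h2 := norm_Pc_le hε hy hb θ
  rw [norm_div, div_le_iff₀ (by linarith)]
  nlinarith

/-- The derivative of `Pc / Qc`. -/
private theorem psi_deriv {K : ℕ} {b : Fin K → ℂ} {y ε : ℝ} (hε : 0 < ε) (hε1 : ε ≤ 1 / 4)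
    (hy : rexp (-y) ≤ ε) (hb : ∑ i, ‖b i‖ ^ 2 ≤ ε ^ 2) (θ : ℝ) :
    ∃ d : ℂ, HasDerivAt (fun t => Pc b y t / Qc b y t) d θ ∧
      ‖d - deriv (Pc b y) θ‖ ≤ 2 * ε ^ 3 * ‖deriv (Pc b y) θ‖ + 6 * ε ^ 4 := by
  have hP : HasDerivAt (Pc b y) (deriv (Pc b y) θ) θ :=
    ((contDiff_Pc b y).differentiable one_ne_zero θ).hasDerivAt
  have hQ : HasDerivAt (Qc b y) (deriv (Qc b y) θ) θ :=
    ((contDiff_Qc b y).differentiable one_ne_zero θ).hasDerivAt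
  have h1 := Qc_ne hε hε1 hy hb θ
  have h2 := norm_Pc_le hε hy hb θ
  have h3 := norm_Qc_sub_le hε hε1 hy hb θ
  have h4 := norm_deriv_Qc_le hε hε1 hy hb θ
  have hq0 : Qc b y θ ≠ 0 := by
    intro h
    rw [h, norm_zero] at h1
    norm_num at h1
  refine ⟨_, hP.div hQ hq0, ?_⟩
  generalize Pc b y θ = P at *
  generalize Qc b y θ = Q at *
  generalize deriv (Pc b y) θ = P' at *
  generalize deriv (Qc b y) θ = Q' at *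
  have e : (P' * Q - P * Q') / Q ^ 2 - P' = -(P' * (Q - 1) / Q) - P * Q' / Q ^ 2 := by
    field_simp
    ring
  rw [e]
  refine (norm_sub_le _ _).trans ?_
  rw [norm_neg, norm_div, norm_div, norm_mul, norm_mul, norm_pow]
  have hε3 : 0 < ε ^ 3 := by positivity
  have h5 : ‖P'‖ * ‖Q - 1‖ / ‖Q‖ ≤ 2 * ε ^ 3 * ‖P'‖ := by
    rw [div_le_iff₀ (by linarith)]
    have h6 : ‖P'‖ * ‖Q - 1‖ ≤ ‖P'‖ * ε ^ 3 := mul_le_mul_of_nonneg_left h3 (norm_nonneg _)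
    have h7 : 0 ≤ ‖P'‖ * ε ^ 3 := by positivity
    nlinarith
  have h8 : ‖P‖ * ‖Q'‖ / ‖Q‖ ^ 2 ≤ 6 * ε ^ 4 := by
    have h9 : (1 : ℝ) / 2 ≤ ‖Q‖ ^ 2 := by nlinarith
    rw [div_le_iff₀ (by linarith)]
    have h10 : ‖P‖ * ‖Q'‖ ≤ 3 * ε * ε ^ 3 := mul_le_mul h2 h4 (norm_nonneg _) (by positivity)
    have h11 : 0 < ε ^ 4 := by positivity
    nlinarith
  linarith

private theorem Xc_deriv {K : ℕ} {b : Fin K → ℂ} {y ε : ℝ} (hε : 0 < ε) (hε1 : ε ≤ 1 / 40)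
    (hy : rexp (-y) ≤ ε) (hb : ∑ i, ‖b i‖ ^ 2 ≤ ε ^ 2) (θ : ℝ) :
    ‖deriv (Xc b y) θ - 2 * deriv (Pc b y) θ‖ ≤ 200 * ε ^ 2 * (‖deriv (Pc b y) θ‖ + ε) := by
  obtain ⟨d, hd, hd1⟩ := psi_deriv hε (by linarith) hy hb θ
  obtain ⟨e, he, he1⟩ := hasDerivAt_xc hd
  have hv := norm_psi_le hε (by linarith) hy hb θ
  rw [Xc_eq, he.deriv]
  generalize deriv (Pc b y) θ = P' at *
  generalize Pc b y θ / Qc b y θ = v at *
  have h1 : e - 2 * P' = (e - 2 * d) + 2 * (d - P') := by ring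
  rw [h1]
  refine (norm_add_le _ _).trans ?_
  rw [norm_mul, Complex.norm_ofNat]
  have hv2 : ‖v‖ ^ 2 ≤ 16 * ε ^ 2 := by nlinarith [norm_nonneg v]
  have hd2 : ‖d‖ ≤ ‖P'‖ + (2 * ε ^ 3 * ‖P'‖ + 6 * ε ^ 4) := by
    have := norm_add_le P' (d - P')
    rw [add_sub_cancel] at this
    linarith
  have hp : 0 ≤ ‖P'‖ := norm_nonneg _
  have h2 : 6 * ‖v‖ ^ 2 * ‖d‖ ≤ 96 * ε ^ 2 * (‖P'‖ + (2 * ε ^ 3 * ‖P'‖ + 6 * ε ^ 4)) := by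
    refine mul_le_mul ?_ hd2 (norm_nonneg _) (by positivity)
    linarith
  have ha : ε ^ 3 ≤ 1 / 64000 := by
    calc ε ^ 3 ≤ (1 / 40 : ℝ) ^ 3 := by gcongr
      _ = 1 / 64000 := by norm_num
  have hb1 : ε ^ 4 ≤ ε * (1 / 64000) := by
    have : ε ^ 4 = ε * ε ^ 3 := by ring
    rw [this]
    exact mul_le_mul_of_nonneg_left ha hε.le
  have hc : ε ^ 3 * ‖P'‖ ≤ 1 / 40 * (ε ^ 2 * ‖P'‖) := by
    have : ε ^ 3 * ‖P'‖ = ε * (ε ^ 2 * ‖P'‖) := by ring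
    rw [this]
    exact mul_le_mul_of_nonneg_right hε1 (by positivity)
  have hd3 : ε ^ 4 ≤ 1 / 40 * ε ^ 3 := by
    have : ε ^ 4 = ε * ε ^ 3 := by ring
    rw [this]
    exact mul_le_mul_of_nonneg_right hε1 (by positivity)
  have hx : 0 ≤ ε ^ 2 * ‖P'‖ := by positivity
  have he3 : 0 ≤ ε ^ 3 := by positivity
  have h3 : 96 * ε ^ 2 * (‖P'‖ + (2 * ε ^ 3 * ‖P'‖ + 6 * ε ^ 4)) ≤
      96 * (ε ^ 2 * ‖P'‖) + 2 * (ε ^ 2 * ‖P'‖) + ε ^ 3 := by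
    have h4 : ε ^ 3 * (ε ^ 2 * ‖P'‖) ≤ 1 / 64000 * (ε ^ 2 * ‖P'‖) :=
      mul_le_mul_of_nonneg_right ha hx
    have h5 : ε ^ 2 * ε ^ 4 = ε ^ 3 * ε ^ 3 := by ring
    have h6 : ε ^ 3 * ε ^ 3 ≤ 1 / 64000 * ε ^ 3 := mul_le_mul_of_nonneg_right ha he3
    nlinarith
  nlinarith

theorem Xc_bounds : ∃ C ε₀ : ℝ, 0 < C ∧ 0 < ε₀ ∧ ∀ (K : ℕ) (b : Fin K → ℂ) (y ε : ℝ), 0 < ε →
    ε ≤ ε₀ → rexp (-y) ≤ ε → ∑ i, ‖b i‖ ^ 2 ≤ ε ^ 2 →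
    (∃ L : NNReal, LipschitzWith L (Xc b y)) ∧ (∀ θ, Xc b y (θ + 2 * π) = Xc b y θ) ∧
    (∀ θ, ‖Xc b y θ‖ ≤ C * ε) ∧
    ∫ θ in (0 : ℝ)..2 * π, ‖deriv (Xc b y) θ‖ ^ 2 ≤ (C * ε) ^ 2 ∧
    ∑ i : Fin K, ‖((i : ℂ) + 1) * cf (Xc b y) (-((i : ℤ) + 1)) - 2 * b i‖ ^ 2 ≤ (ε / 2) ^ 2 := by
  refine ⟨20, 1 / 40, by norm_num, by norm_num, fun K b y ε hε hε1 hy hb => ?_⟩
  have hcP := contDiff_Pc b y
  have hcQ := contDiff_Qc b y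
  have hQ0 : ∀ θ, Qc b y θ ≠ 0 := by
    intro θ h
    have h1 := Qc_ne hε (by linarith) hy hb θ
    rw [h, norm_zero] at h1
    norm_num at h1
  have hcX : ContDiff ℝ 1 (Xc b y) := by
    rw [Xc_eq]
    simp only [div_eq_mul_inv]
    exact xc_contDiff.comp (hcP.mul (hcQ.inv hQ0))
  have hper : ∀ θ, Xc b y (θ + 2 * π) = Xc b y θ := by
    intro θ
    rw [Xc_eq]
    simp only
    rw [Pc_per, Qc_per]
  obtain ⟨L, hL⟩ := lip_of_per hcX hper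
  set D : ℝ → ℂ := fun θ => Xc b y θ + (-2) * Pc b y θ with hD
  have hcD : ContDiff ℝ 1 D := hcX.add (contDiff_const.mul hcP)
  have hperD : ∀ θ, D (θ + 2 * π) = D θ := by
    intro θ
    simp only [hD]
    rw [hper, Pc_per]
  obtain ⟨LD, hLD⟩ := lip_of_per hcD hperD
  have hdD : ∀ θ, deriv D θ = deriv (Xc b y) θ - 2 * deriv (Pc b y) θ := by
    intro θ
    have h1 : HasDerivAt D (deriv (Xc b y) θ + (-2) * deriv (Pc b y) θ) θ :=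
      (hcX.differentiable one_ne_zero θ).hasDerivAt.add
        ((hcP.differentiable one_ne_zero θ).hasDerivAt.const_mul (-2 : ℂ))
    rw [h1.deriv]
    ring
  have hP2 := int_deriv_Pc_le hε hy hb
  have hcP' : Continuous (deriv (Pc b y)) := hcP.continuous_deriv le_rfl
  have hcX' : Continuous (deriv (Xc b y)) := hcX.continuous_deriv le_rfl
  have hcD' : Continuous (deriv D) := hcD.continuous_deriv le_rfl
  have hε2 : 0 < ε ^ 2 := by positivity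
  have hsm : ε ^ 4 ≤ 1 / 2560000 := by
    calc ε ^ 4 ≤ (1 / 40 : ℝ) ^ 4 := by gcongr
      _ = 1 / 2560000 := by norm_num
  have hpi := pi_pos
  -- the integral of the square of the derivative of `D`
  have hDint : ∫ θ in (0 : ℝ)..2 * π, ‖deriv D θ‖ ^ 2 ≤ 480000 * π * ε ^ 6 := by
    have h1 : ∀ θ ∈ Icc (0 : ℝ) (2 * π), ‖deriv D θ‖ ^ 2 ≤
        80000 * ε ^ 4 * ‖deriv (Pc b y) θ‖ ^ 2 + 80000 * ε ^ 6 := by
      intro θ _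
      have h2 := Xc_deriv hε hε1 hy hb θ
      rw [← hdD] at h2
      have h3 : ‖deriv D θ‖ ^ 2 ≤ (200 * ε ^ 2 * (‖deriv (Pc b y) θ‖ + ε)) ^ 2 := by
        gcongr
      refine h3.trans ?_
      have h4 : (‖deriv (Pc b y) θ‖ + ε) ^ 2 ≤ 2 * ‖deriv (Pc b y) θ‖ ^ 2 + 2 * ε ^ 2 := by
        nlinarith [sq_nonneg (‖deriv (Pc b y) θ‖ - ε)]
      calc (200 * ε ^ 2 * (‖deriv (Pc b y) θ‖ + ε)) ^ 2
          = 40000 * ε ^ 4 * (‖deriv (Pc b y) θ‖ + ε) ^ 2 := by ring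
        _ ≤ 40000 * ε ^ 4 * (2 * ‖deriv (Pc b y) θ‖ ^ 2 + 2 * ε ^ 2) := by gcongr
        _ = _ := by ring
    have h5 : ∫ θ in (0 : ℝ)..2 * π, ‖deriv D θ‖ ^ 2 ≤ ∫ θ in (0 : ℝ)..2 * π,
        (80000 * ε ^ 4 * ‖deriv (Pc b y) θ‖ ^ 2 + 80000 * ε ^ 6) := by
      refine intervalIntegral.integral_mono_on two_pi_pos.le ?_ ?_ h1
      · exact (hcD'.norm.pow 2).intervalIntegrable _ _
      · exact (((hcP'.norm.pow 2).const_mul _).add continuous_const).intervalIntegrable _ _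
    refine h5.trans ?_
    rw [intervalIntegral.integral_add, intervalIntegral.integral_const_mul,
      intervalIntegral.integral_const, sub_zero, smul_eq_mul]
    · have h6 : 80000 * ε ^ 4 * ∫ θ in (0 : ℝ)..2 * π, ‖deriv (Pc b y) θ‖ ^ 2 ≤
          80000 * ε ^ 4 * (4 * π * ε ^ 2) := by gcongr
      calc _ ≤ 80000 * ε ^ 4 * (4 * π * ε ^ 2) + 2 * π * (80000 * ε ^ 6) := by linarith
        _ = _ := by ring
    · exact ((hcP'.norm.pow 2).const_mul _).intervalIntegrable _ _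
    · exact continuous_const.intervalIntegrable _ _
  refine ⟨⟨L, hL⟩, hper, ?_, ?_, ?_⟩
  · intro θ
    rw [Xc_eq]
    refine (norm_xc_le' _).trans ?_
    have := norm_psi_le hε (by linarith) hy hb θ
    linarith
  · have h1 : ∀ θ ∈ Icc (0 : ℝ) (2 * π), ‖deriv (Xc b y) θ‖ ^ 2 ≤
        2 * ‖deriv D θ‖ ^ 2 + 8 * ‖deriv (Pc b y) θ‖ ^ 2 := by
      intro θ _
      have h2 : ‖deriv (Xc b y) θ‖ ≤ ‖deriv D θ‖ + 2 * ‖deriv (Pc b y) θ‖ := by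
        have h3 : deriv (Xc b y) θ = deriv D θ + 2 * deriv (Pc b y) θ := by
          rw [hdD]
          ring
        rw [h3]
        refine (norm_add_le _ _).trans ?_
        rw [norm_mul, Complex.norm_ofNat]
      have h4 : ‖deriv (Xc b y) θ‖ ^ 2 ≤ (‖deriv D θ‖ + 2 * ‖deriv (Pc b y) θ‖) ^ 2 := by
        gcongr
      nlinarith [sq_nonneg (‖deriv D θ‖ - 2 * ‖deriv (Pc b y) θ‖)]
    have h5 : ∫ θ in (0 : ℝ)..2 * π, ‖deriv (Xc b y) θ‖ ^ 2 ≤ ∫ θ in (0 : ℝ)..2 * π,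
        (2 * ‖deriv D θ‖ ^ 2 + 8 * ‖deriv (Pc b y) θ‖ ^ 2) := by
      refine intervalIntegral.integral_mono_on two_pi_pos.le ?_ ?_ h1
      · exact (hcX'.norm.pow 2).intervalIntegrable _ _
      · exact (((hcD'.norm.pow 2).const_mul _).add
          ((hcP'.norm.pow 2).const_mul _)).intervalIntegrable _ _
    refine h5.trans ?_
    rw [intervalIntegral.integral_add, intervalIntegral.integral_const_mul,
      intervalIntegral.integral_const_mul]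
    · have h6 : π * ε ^ 6 ≤ 4 * (1 / 2560000 * ε ^ 2) := by
        have h7 : ε ^ 6 = ε ^ 4 * ε ^ 2 := by ring
        rw [h7]
        have h8 : ε ^ 4 * ε ^ 2 ≤ 1 / 2560000 * ε ^ 2 := mul_le_mul_of_nonneg_right hsm hε2.le
        have h9 : 0 ≤ ε ^ 4 * ε ^ 2 := by positivity
        have := pi_le_four
        nlinarith
      have h10 : π * ε ^ 2 ≤ 4 * ε ^ 2 := mul_le_mul_of_nonneg_right pi_le_four hε2.le
      nlinarith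
    · exact ((hcD'.norm.pow 2).const_mul _).intervalIntegrable _ _
    · exact ((hcP'.norm.pow 2).const_mul _).intervalIntegrable _ _
  · have hsum := hasSum_deriv hLD hperD
    have hcf : ∀ n, cf D n = cf (Xc b y) n - 2 * cf (Pc b y) n := by
      intro n
      have h1 := cf_add (f := Xc b y) (g := fun θ => (-2) * Pc b y θ)
        (hcX.continuous.intervalIntegrable _ _)
        ((continuous_const.mul hcP.continuous).intervalIntegrable _ _) n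
      rw [cf_mul_left] at h1
      have h2 : cf D n = cf (Xc b y) n + -2 * cf (Pc b y) n := h1
      rw [h2]
      ring
    have hterm : ∀ i : Fin K,
        ‖((i : ℂ) + 1) * cf (Xc b y) (-((i : ℤ) + 1)) - 2 * b i‖ ^ 2 =
        ((-((i : ℤ) + 1) : ℤ) : ℝ) ^ 2 * ‖cf D (-((i : ℤ) + 1))‖ ^ 2 := by
      intro i
      have h1 : ((i : ℂ) + 1) * cf (Xc b y) (-((i : ℤ) + 1)) - 2 * b i =
          ((i : ℂ) + 1) * cf D (-((i : ℤ) + 1)) := by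
        rw [hcf, ← cf_Pc b y i]
        ring
      rw [h1, norm_mul, mul_pow]
      congr 1
      have h2 : ((i : ℂ) + 1) = (((i : ℝ) + 1 : ℝ) : ℂ) := by push_cast; rfl
      rw [h2, Complex.norm_real, Real.norm_eq_abs, sq_abs]
      push_cast
      ring
    let em : Fin K ↪ ℤ := ⟨fun i => -((i : ℤ) + 1), by
      intro i j h
      simp only [neg_inj, add_left_inj, Nat.cast_inj] at h
      exact Fin.ext h⟩
    have h1 : ∑ i : Fin K, ‖((i : ℂ) + 1) * cf (Xc b y) (-((i : ℤ) + 1)) - 2 * b i‖ ^ 2 =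
        ∑ n ∈ Finset.univ.map em, (n : ℝ) ^ 2 * ‖cf D n‖ ^ 2 := by
      rw [Finset.sum_map]
      exact Finset.sum_congr rfl fun i _ => hterm i
    rw [h1]
    have h2 : ∑ n ∈ Finset.univ.map em, (n : ℝ) ^ 2 * ‖cf D n‖ ^ 2 ≤
        (2 * π)⁻¹ * ∫ θ in (0 : ℝ)..2 * π, ‖deriv D θ‖ ^ 2 :=
      sum_le_hasSum _ (fun n _ => by positivity) hsum
    refine h2.trans ?_
    have h3 : (2 * π)⁻¹ * ∫ θ in (0 : ℝ)..2 * π, ‖deriv D θ‖ ^ 2 ≤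
        (2 * π)⁻¹ * (480000 * π * ε ^ 6) := by gcongr
    refine h3.trans ?_
    have h4 : (2 * π)⁻¹ * (480000 * π * ε ^ 6) = 240000 * (ε ^ 4 * ε ^ 2) := by
      field_simp
      ring
    rw [h4]
    have h5 : ε ^ 4 * ε ^ 2 ≤ 1 / 2560000 * ε ^ 2 := mul_le_mul_of_nonneg_right hsm hε2.le
    nlinarith

/-- Joint continuity in `(b, θ)`. -/
theorem continuousOn_Xc : ∃ ε₀ : ℝ, 0 < ε₀ ∧ ∀ (K : ℕ) (y ε : ℝ), 0 < ε → ε ≤ ε₀ →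
    rexp (-y) ≤ ε → ContinuousOn (fun p : (Fin K → ℂ) × ℝ => Xc p.1 y p.2)
      {p | ∑ i, ‖p.1 i‖ ^ 2 ≤ ε ^ 2} := by
  refine ⟨1 / 4, by norm_num, fun K y ε hε hε1 hy => ?_⟩
  have h1 : (fun p : (Fin K → ℂ) × ℝ => Xc p.1 y p.2) =
      fun p => xc (Pc p.1 y p.2 / Qc p.1 y p.2) := by
    funext p
    rw [Xc_eq]
  rw [h1]
  refine xc_contDiff.continuous.comp_continuousOn ?_
  refine ContinuousOn.div (continuous_PQ y).1.continuousOn (continuous_PQ y).2.continuousOn ?_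
  intro p hp h
  have h2 := Qc_ne hε hε1 hy hp p.2
  rw [h, norm_zero] at h2
  norm_num at h2

end Pool.Agent.CC57
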