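import Pool.Agent.CC57.FixDefs
import Pool.Agent.CC57.XcB
import Pool.Agent.CC57.Zh

set_option autoImplicit false

/-!
Bounds for the data of the fixed point argument, for `∑ ‖b i‖² ≤ ε²`.
Note `‖om b (iσ) - iσ‖ ≤ 1/8`, so `|Re (om b (iσ))| ≤ 1/8 ≤ 1`.
* `delF`: for `θ, θ'` in a period, `|delF θ - delF θ'| ≤ ∫ lamc + 2 ∫ ‖Xc'‖ ≤ √(2π) (ε + 2 C ε)`
  (Cauchy-Schwarz, `gx_lip`, `Xc_bounds`), so `|delF - mean| ≤ C' ε`.
* `hF = gx Xc + (delF - mean)`, so `|hF| ≤ 2 ‖Xc‖ + C' ε ≤ C'' ε` (`gx 0 = 0`).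
* `hF` is jointly continuous in `(σ,θ)`: `f` is continuous in `θ` (uniformly in `p`) and Lipschitz in `p`,
  `σ ↦ om b (iσ)` is continuous, `cF` is a parametric integral.
* periodicity in `σ`: `om b (iσ + 2πi) = om b (iσ) + 2πi` and `f_per'`, `inn_per`.
* the Lipschitz constant in `θ`: `sup lamc` over a period (continuous, periodic), plus that of `Xc`.
-/

open Real MeasureTheory Set

namespace Pool.Agent.CC57

private theorem fa_bdd {g : ℝ → ℝ} (hc : Continuous g) (hp : ∀ θ, g (θ + 2 * π) = g θ) :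
    ∃ Λ : NNReal, ∀ θ, |g θ| ≤ Λ := by
  have hper : Function.Periodic g (2 * π) := hp
  have hcomp := hper.compact_of_continuous (by positivity) hc
  obtain ⟨C, hC⟩ := hcomp.isBounded.exists_norm_le
  refine ⟨C.toNNReal, fun θ => ?_⟩
  exact (hC (g θ) ⟨θ, rfl⟩).trans (Real.le_coe_toNNReal C)

private theorem fa_joint {F : ℂ → ℝ → ℝ} {M : ℝ} {Λ : NNReal} {p : ℝ → ℂ}
    (hp : Continuous p) (h1 : ∀ σ σ' θ, |F (p σ) θ - F (p σ') θ| ≤ M * ‖p σ - p σ'‖)
    (h2 : ∀ σ θ θ', |F (p σ) θ' - F (p σ) θ| ≤ Λ * |θ' - θ|) :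
    Continuous fun q : ℝ × ℝ => F (p q.1) q.2 := by
  rw [continuous_iff_continuousAt]
  intro q₀
  have h3 : Filter.Tendsto (fun q : ℝ × ℝ => M * ‖p q.1 - p q₀.1‖ + Λ * |q.2 - q₀.2|)
      (nhds q₀) (nhds 0) := by
    have h4 : Continuous fun q : ℝ × ℝ => M * ‖p q.1 - p q₀.1‖ + Λ * |q.2 - q₀.2| :=
      (continuous_const.mul ((hp.comp continuous_fst).sub continuous_const).norm).add
        (continuous_const.mul (continuous_snd.sub continuous_const).abs)
    have h5 := h4.tendsto q₀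
    simpa using h5
  unfold ContinuousAt
  rw [tendsto_iff_dist_tendsto_zero]
  refine squeeze_zero (fun _ => dist_nonneg) (fun q => ?_) h3
  rw [Real.dist_eq]
  have e : F (p q.1) q.2 - F (p q₀.1) q₀.2 =
      (F (p q.1) q.2 - F (p q₀.1) q.2) + (F (p q₀.1) q.2 - F (p q₀.1) q₀.2) := by ring
  rw [e]
  exact (abs_add_le _ _).trans (add_le_add (h1 _ _ _) (h2 _ _ _))

theorem om_re {K : ℕ} {y ε : ℝ} {om : (Fin K → ℂ) → ℂ → ℂ} (hG : GaugeFam K y ε om)
    {b : Fin K → ℂ} (hb : ∑ i, ‖b i‖ ^ 2 ≤ ε ^ 2) (σ : ℝ) : |(om b (pt 0 σ)).re| ≤ 1 / 8 := by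
  have h0 : (pt 0 σ).re = 0 := by simp [pt]
  have h := (hG.gauge b hb).om_near (pt 0 σ) (by rw [h0]; norm_num)
  have h1 := (Complex.abs_re_le_norm (om b (pt 0 σ) - pt 0 σ)).trans h
  rw [Complex.sub_re, h0, sub_zero] at h1
  exact h1

theorem hF_facts : ∃ C ε₀ : ℝ, 0 < C ∧ 0 < ε₀ ∧ ∀ (K : ℕ) (b : Fin K → ℂ) (y ε M : ℝ)
    (om : (Fin K → ℂ) → ℂ → ℂ) (f : ℂ → ℝ → ℝ) (lamc : ℝ → ℝ), 0 < ε → ε ≤ ε₀ →
    rexp (-y) ≤ ε → GaugeFam K y ε om → CircData ε M f lamc → ∑ i, ‖b i‖ ^ 2 ≤ ε ^ 2 →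
    Continuous (Function.uncurry (hF y om f b)) ∧
    Continuous (cF y om f b) ∧
    (∃ L : NNReal, ∀ σ, LipschitzWith L (hF y om f b σ)) ∧
    (∀ σ θ, hF y om f b σ (θ + 2 * π) = hF y om f b σ θ) ∧
    (∀ σ, cF y om f b (σ + 2 * π) = cF y om f b σ) ∧
    (∀ σ θ, |hF y om f b σ θ| ≤ C * ε) ∧
    (∀ σ, ∫ θ in (0 : ℝ)..2 * π, (hF y om f b σ θ - gx (Xc b y θ) σ) = 0) ∧
    (∀ σ θ θ', θ ≤ θ' → |hF y om f b σ θ' - hF y om f b σ θ| ≤ ∫ t in θ..θ', lamc t) := by
  obtain ⟨C₁, ε₁, hC₁, hε₁, hX⟩ := Xc_bounds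
  refine ⟨4 + 6 * C₁, min ε₁ (1 / (2 * C₁)), by positivity, lt_min hε₁ (by positivity), ?_⟩
  intro K b y ε M om f lamc hε hεle hy hG hD hb
  obtain ⟨⟨L₁, hL₁⟩, hXp, hXb, -, -⟩ :=
    hX K b y ε hε (hεle.trans (min_le_left _ _)) hy hb
  set X := Xc b y with hXdef
  have hCε : C₁ * ε ≤ 1 / 2 := by
    have := hεle.trans (min_le_right _ _)
    rw [le_div_iff₀ (by positivity)] at this
    linarith
  have hXh : ∀ θ, ‖X θ‖ ≤ 1 / 2 := fun θ => (hXb θ).trans hCε
  have hre : ∀ σ, |(om b (pt 0 σ)).re| ≤ 1 := fun σ => (om_re hG hb σ).trans (by norm_num)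
  -- the parameter
  have hpc : Continuous fun σ : ℝ => om b (pt 0 σ) := by
    have h1 : Continuous fun σ : ℝ => (b, pt 0 σ) := by
      refine continuous_const.prodMk ?_
      unfold pt
      fun_prop
    refine hG.cont.comp_continuous (f := fun σ : ℝ => (b, pt 0 σ)) h1 fun σ => ?_
    refine ⟨hb, ?_⟩
    have : (pt 0 σ).re = 0 := by simp [pt]
    show |(pt 0 σ).re| ≤ 2
    rw [this]
    norm_num
  obtain ⟨Λ, hΛ⟩ := fa_bdd hD.lam_cont hD.lam_per
  have hfL : ∀ σ θ θ', |f (om b (pt 0 σ)) θ' - f (om b (pt 0 σ)) θ| ≤ Λ * |θ' - θ| := by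
    have key : ∀ σ θ θ', θ ≤ θ' →
        |f (om b (pt 0 σ)) θ' - f (om b (pt 0 σ)) θ| ≤ Λ * |θ' - θ| := by
      intro σ θ θ' h
      refine (hD.f_th _ (hre σ) θ θ' h).trans ?_
      have h1 : ∫ t in θ..θ', lamc t ≤ ∫ _t in θ..θ', (Λ : ℝ) :=
        intervalIntegral.integral_mono_on h (hD.lam_cont.intervalIntegrable _ _)
          (continuous_const.intervalIntegrable _ _) fun t _ => (le_abs_self _).trans (hΛ t)
      rw [intervalIntegral.integral_const, smul_eq_mul] at h1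
      rw [abs_of_nonneg (sub_nonneg.2 h)]
      linarith
    intro σ θ θ'
    rcases le_total θ θ' with h | h
    · exact key σ θ θ' h
    · rw [abs_sub_comm, abs_sub_comm θ' θ]
      exact key σ θ' θ h
  have hfc : Continuous fun q : ℝ × ℝ => f (om b (pt 0 q.1)) q.2 :=
    fa_joint hpc (fun σ σ' θ => hD.f_p _ _ (hre σ) (hre σ') θ) hfL
  have hdc : Continuous fun q : ℝ × ℝ => delF y om f b q.1 q.2 := by
    unfold delF
    refine hfc.sub ?_
    exact continuous_gx.comp ((hL₁.continuous.comp continuous_snd).prodMk continuous_fst)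
  have hcc : Continuous (cF y om f b) := by
    have h1 : Continuous fun σ : ℝ => ∫ θ in (0 : ℝ)..2 * π, delF y om f b σ θ :=
      intervalIntegral.continuous_parametric_intervalIntegral_of_continuous' hdc 0 (2 * π)
    exact continuous_const.mul h1
  have hhc : Continuous (Function.uncurry (hF y om f b)) :=
    hfc.sub (hcc.comp continuous_fst)
  have hdi : ∀ σ, Continuous (delF y om f b σ) := fun σ =>
    hdc.comp (continuous_const.prodMk continuous_id)
  -- the oscillation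
  have hlam : ∫ t in (0 : ℝ)..2 * π, lamc t ≤ 4 * ε := by
    have h1 : ∫ t in (0 : ℝ)..2 * π, lamc t ≤
        ∫ t in (0 : ℝ)..2 * π, (1 / (2 * ε) * lamc t ^ 2 + ε / 2) := by
      refine intervalIntegral.integral_mono_on (by positivity)
        (hD.lam_cont.intervalIntegrable _ _) ?_ fun t _ => ?_
      · exact ((continuous_const.mul (hD.lam_cont.pow 2)).add
          continuous_const).intervalIntegrable _ _
      · have h2 : 1 / (2 * ε) * lamc t ^ 2 + ε / 2 - lamc t =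
            1 / (2 * ε) * (lamc t - ε) ^ 2 := by
          field_simp
          ring
        have h3 : 0 ≤ 1 / (2 * ε) * (lamc t - ε) ^ 2 := by positivity
        linarith
    have i1 : IntervalIntegrable (fun t => 1 / (2 * ε) * lamc t ^ 2) volume 0 (2 * π) :=
      (continuous_const.mul (hD.lam_cont.pow 2)).intervalIntegrable _ _
    have i2 : IntervalIntegrable (fun _ : ℝ => ε / 2) volume 0 (2 * π) :=
      continuous_const.intervalIntegrable _ _
    rw [intervalIntegral.integral_add i1 i2, intervalIntegral.integral_const_mul,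
      intervalIntegral.integral_const, smul_eq_mul] at h1
    have h2 : 1 / (2 * ε) * ∫ t in (0 : ℝ)..2 * π, lamc t ^ 2 ≤ 1 / (2 * ε) * ε ^ 2 :=
      mul_le_mul_of_nonneg_left hD.lam_sq (by positivity)
    have h3 : 1 / (2 * ε) * ε ^ 2 = ε / 2 := by
      field_simp
    have h4 : (2 * π - 0) * (ε / 2) = π * ε := by ring
    have h5 : π ≤ 3.5 := by
      have := pi_lt_d2
      linarith
    have h6 : π * ε ≤ 3.5 * ε := mul_le_mul_of_nonneg_right h5 hε.le
    linarith
  have hfo : ∀ σ θ θ', |f (om b (pt 0 σ)) θ' - f (om b (pt 0 σ)) θ| ≤ 4 * ε := by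
    have key : ∀ σ, ∀ θ ∈ Set.Ico (0 : ℝ) (2 * π), ∀ θ' ∈ Set.Ico (0 : ℝ) (2 * π), θ ≤ θ' →
        |f (om b (pt 0 σ)) θ' - f (om b (pt 0 σ)) θ| ≤ 4 * ε := by
      intro σ θ h θ' h' hle
      refine (hD.f_th _ (hre σ) θ θ' hle).trans (le_trans ?_ hlam)
      refine intervalIntegral.integral_mono_interval h.1 hle h'.2.le ?_
        (hD.lam_cont.intervalIntegrable _ _)
      exact Filter.Eventually.of_forall fun t => hD.lam_nonneg t
    intro σ θ θ'
    have hper : Function.Periodic (f (om b (pt 0 σ))) (2 * π) := fun t => hD.f_per _ t (hre σ)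
    obtain ⟨t, ht, e⟩ := hper.exists_mem_Ico₀ (by positivity) θ
    obtain ⟨t', ht', e'⟩ := hper.exists_mem_Ico₀ (by positivity) θ'
    rw [e, e']
    rcases le_total t t' with h | h
    · exact key σ t ht t' ht' h
    · rw [abs_sub_comm]
      exact key σ t' ht' t ht h
  have hg0 : ∀ σ, gx 0 σ = 0 := by
    intro σ
    simp [gx, inn]
  have hgX : ∀ σ θ, |gx (X θ) σ| ≤ 2 * (C₁ * ε) := by
    intro σ θ
    have h1 := gx_lip (hXh θ) (y := 0) (by norm_num) σ
    rw [hg0, sub_zero, sub_zero] at h1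
    have := hXb θ
    linarith
  have hdo : ∀ σ θ θ', |delF y om f b σ θ - delF y om f b σ θ'| ≤ (4 + 4 * C₁) * ε := by
    intro σ θ θ'
    unfold delF
    rw [← hXdef]
    have e : f (om b (pt 0 σ)) θ - gx (X θ) σ - (f (om b (pt 0 σ)) θ' - gx (X θ') σ) =
        (f (om b (pt 0 σ)) θ - f (om b (pt 0 σ)) θ') + (gx (X θ') σ - gx (X θ) σ) := by ring
    rw [e]
    refine (abs_add_le _ _).trans ?_
    have h1 := hfo σ θ' θ
    have h2 : |gx (X θ') σ - gx (X θ) σ| ≤ |gx (X θ') σ| + |gx (X θ) σ| := abs_sub _ _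
    have h3 := hgX σ θ
    have h4 := hgX σ θ'
    linarith
  have hmean : ∀ σ θ, |delF y om f b σ θ - cF y om f b σ| ≤ (4 + 4 * C₁) * ε := by
    intro σ θ
    have e : delF y om f b σ θ - cF y om f b σ =
        avg fun θ' => delF y om f b σ θ - delF y om f b σ θ' := by
      rw [avg_sub (continuous_const.intervalIntegrable _ _) ((hdi σ).intervalIntegrable _ _),
        avg_const]
      rfl
    rw [e]
    exact abs_avg_le fun θ' => hdo σ θ θ'
  refine ⟨hhc, hcc, ⟨Λ, fun σ => ?_⟩, ?_, ?_, ?_, ?_, ?_⟩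
  · refine LipschitzWith.of_dist_le_mul fun θ θ' => ?_
    rw [Real.dist_eq, Real.dist_eq]
    have e : hF y om f b σ θ - hF y om f b σ θ' =
        f (om b (pt 0 σ)) θ - f (om b (pt 0 σ)) θ' := by
      unfold hF
      ring
    rw [e]
    exact hfL σ θ' θ
  · intro σ θ
    unfold hF
    rw [hD.f_per _ θ (hre σ)]
  · intro σ
    have hz : |(pt 0 σ).re| ≤ 2 := by
      have : (pt 0 σ).re = 0 := by simp [pt]
      rw [this]
      norm_num
    have e1 : pt 0 (σ + 2 * π) = pt 0 σ + 2 * π * Complex.I := by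
      unfold pt
      push_cast
      ring
    unfold cF
    congr 1
    funext θ
    unfold delF
    rw [e1, (hG.gauge b hb).om_per _ hz, hD.f_per' _ _ (hre σ)]
    unfold gx
    rw [inn_per]
  · intro σ θ
    have e : hF y om f b σ θ =
        (delF y om f b σ θ - cF y om f b σ) + gx (X θ) σ := by
      unfold hF delF
      ring
    rw [e]
    refine (abs_add_le _ _).trans ?_
    have h1 := hmean σ θ
    have h2 := hgX σ θ
    linarith
  · intro σ
    have e : ∀ θ, hF y om f b σ θ - gx (X θ) σ = delF y om f b σ θ - cF y om f b σ := by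
      intro θ
      unfold hF delF
      ring
    simp only [e]
    rw [intervalIntegral.integral_sub ((hdi σ).intervalIntegrable _ _)
      (continuous_const.intervalIntegrable _ _), intervalIntegral.integral_const, smul_eq_mul]
    unfold cF avg
    have := pi_pos
    field_simp
    ring
  · intro σ θ θ' h
    have e : hF y om f b σ θ' - hF y om f b σ θ =
        f (om b (pt 0 σ)) θ' - f (om b (pt 0 σ)) θ := by
      unfold hF
      ring
    rw [e]
    exact hD.f_th _ (hre σ) θ θ' h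

end Pool.Agent.CC57
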