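import Pool.Agent.CC57.Defs

set_option autoImplicit false

/-!
Fourier coefficients `cf f n = (2π)⁻¹ ∫_0^{2π} f e^{-inθ}` of bounded measurable functions.
Parseval: transfer to `AddCircle (2π)`: `fourierCoeff`, `tsum_sq_fourierCoeff` /
`hasSum_sq_fourierCoeff`, `fourierCoeffOn_eq_integral`; see also Pool/Agent/STZ/SqLarge.lean for a
worked example.  `parseval2` by polarization or from the inner product version (`fourierBasis`,
`HilbertBasis.hasSum_inner_mul_inner`).
`cf_deriv`: a Lipschitz function is absolutely continuous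
(`LipschitzWith`/`LipschitzOnWith.absolutelyContinuousOnInterval`), integration by parts
(`AbsolutelyContinuousOnInterval.integral_mul_deriv_eq_deriv_mul`, real valued) for real and imaginary
parts; the boundary terms cancel by periodicity.
`hasSum_deriv` is `parseval` for `deriv f` (bounded by the Lipschitz constant, measurable) and `cf_deriv`.
-/

open Real MeasureTheory Set

namespace Pool.Agent.CC57

private theorem hpi : (0 : ℝ) < 2 * π := two_pi_pos

private theorem cf_eq (f : ℝ → ℂ) (n : ℤ) : cf f n = fourierCoeffOn hpi f n := by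
  rw [fourierCoeffOn_eq_integral]
  unfold cf
  rw [one_div, sub_zero]
  congr 1
  apply intervalIntegral.integral_congr
  intro x _
  simp only
  rw [fourier_coe_apply, smul_eq_mul, mul_comm]
  congr 2
  push_cast
  have h2 : (2 : ℂ) * (π : ℂ) ≠ 0 := by
    simp [Real.pi_ne_zero]
  have h3 : (π : ℂ) ≠ 0 := by exact_mod_cast Real.pi_ne_zero
  field_simp

private theorem toC {w : ℝ → ℝ} {a b : ℝ} (h : IntervalIntegrable w volume a b) :
    IntervalIntegrable (fun θ => (w θ : ℂ)) volume a b :=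
  ⟨h.1.ofReal, h.2.ofReal⟩

private theorem memLp_of {f : ℝ → ℂ} (hm : AEStronglyMeasurable f (volume.restrict (Ioc 0 (2 * π))))
    {C : ℝ} (hb : ∀ θ, ‖f θ‖ ≤ C) : MemLp f 2 (volume.restrict (Ioc 0 (2 * π))) :=
  MemLp.of_bound hm C (ae_of_all _ hb)

theorem parseval {f : ℝ → ℂ} (hm : AEStronglyMeasurable f (volume.restrict (Ioc 0 (2 * π))))
    {C : ℝ} (hb : ∀ θ, ‖f θ‖ ≤ C) :
    HasSum (fun n : ℤ => ‖cf f n‖ ^ 2) ((2 * π)⁻¹ * ∫ θ in (0 : ℝ)..2 * π, ‖f θ‖ ^ 2) := by
  have h := hasSum_sq_fourierCoeffOn hpi (memLp_of hm hb)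
  rw [sub_zero, smul_eq_mul] at h
  simpa only [cf_eq] using h

private theorem intble_of {f : ℝ → ℂ} (hm : AEStronglyMeasurable f (volume.restrict (Ioc 0 (2 * π))))
    {C : ℝ} (hb : ∀ θ, ‖f θ‖ ≤ C) : IntervalIntegrable f volume 0 (2 * π) := by
  rw [intervalIntegrable_iff_integrableOn_Ioc_of_le hpi.le]
  exact MemLp.integrable (by norm_num) (memLp_of hm hb)

theorem cf_add {f g : ℝ → ℂ} (hf : IntervalIntegrable f volume 0 (2 * π))
    (hg : IntervalIntegrable g volume 0 (2 * π)) (n : ℤ) :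
    cf (fun θ => f θ + g θ) n = cf f n + cf g n := by
  unfold cf
  rw [← smul_add, ← intervalIntegral.integral_add]
  · congr 1
    apply intervalIntegral.integral_congr
    intro x _
    simp only
    ring
  · exact hf.mul_continuousOn (by fun_prop)
  · exact hg.mul_continuousOn (by fun_prop)

theorem cf_mul_left (c : ℂ) (f : ℝ → ℂ) (n : ℤ) : cf (fun θ => c * f θ) n = c * cf f n := by
  unfold cf
  rw [mul_smul_comm, ← intervalIntegral.integral_const_mul]
  congr 1
  apply intervalIntegral.integral_congr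
  intro x _
  simp only
  ring

private theorem bd_int {h : ℝ → ℂ} (hm : AEStronglyMeasurable h (volume.restrict (Ioc 0 (2 * π))))
    {C : ℝ} (hb : ∀ θ, ‖h θ‖ ≤ C) :
    IntervalIntegrable (fun θ => ‖h θ‖ ^ 2) volume 0 (2 * π) := by
  rw [intervalIntegrable_iff_integrableOn_Ioc_of_le hpi.le]
  exact (memLp_of hm hb).integrable_norm_pow (by norm_num)

theorem parseval2 {f g : ℝ → ℂ} (hf : AEStronglyMeasurable f (volume.restrict (Ioc 0 (2 * π))))
    (hg : AEStronglyMeasurable g (volume.restrict (Ioc 0 (2 * π))))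
    {C : ℝ} (hfb : ∀ θ, ‖f θ‖ ≤ C) (hgb : ∀ θ, ‖g θ‖ ≤ C) :
    HasSum (fun n : ℤ => cf f n * (starRingEnd ℂ) (cf g n))
      (((2 * π)⁻¹ : ℝ) • ∫ θ in (0 : ℝ)..2 * π, f θ * (starRingEnd ℂ) (g θ)) := by
  have pol : ∀ a b : ℂ, a * (starRingEnd ℂ) b =
      (4⁻¹ : ℂ) * (((‖a + 1 * b‖ ^ 2 : ℝ) : ℂ) - ((‖a + (-1) * b‖ ^ 2 : ℝ) : ℂ) +
        Complex.I * (((‖a + Complex.I * b‖ ^ 2 : ℝ) : ℂ) -
          ((‖a + (-Complex.I) * b‖ ^ 2 : ℝ) : ℂ))) := by
    intro a b
    simp only [← Complex.normSq_eq_norm_sq, Complex.normSq_apply]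
    apply Complex.ext
    · simp
      ring
    · simp
      ring
  have key : ∀ c : ℂ, ‖c‖ = 1 →
      HasSum (fun n : ℤ => ((‖cf f n + c * cf g n‖ ^ 2 : ℝ) : ℂ))
        (((2 * π)⁻¹ * ∫ θ in (0 : ℝ)..2 * π, ‖f θ + c * g θ‖ ^ 2 : ℝ) : ℂ) := by
    intro c hc
    have h1 : AEStronglyMeasurable (fun θ => f θ + c * g θ) (volume.restrict (Ioc 0 (2 * π))) :=
      hf.add (hg.const_mul c)
    have h2 : ∀ θ, ‖f θ + c * g θ‖ ≤ 2 * C := by
      intro θ
      calc ‖f θ + c * g θ‖ ≤ ‖f θ‖ + ‖c * g θ‖ := norm_add_le _ _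
        _ ≤ 2 * C := by
          rw [norm_mul, hc, one_mul]
          linarith [hfb θ, hgb θ]
    have h3 := parseval h1 h2
    have h4 : ∀ n : ℤ, cf (fun θ => f θ + c * g θ) n = cf f n + c * cf g n := by
      intro n
      rw [cf_add (intble_of hf hfb) ((intble_of hg hgb).const_mul c), cf_mul_left]
    simp only [h4] at h3
    exact_mod_cast Complex.hasSum_ofReal.2 h3
  have k1 := key 1 (by simp)
  have k2 := key (-1) (by simp)
  have k3 := key Complex.I (by simp)
  have k4 := key (-Complex.I) (by simp)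
  have k5 := ((k1.sub k2).add ((k3.sub k4).mul_left Complex.I)).mul_left (4⁻¹ : ℂ)
  have e1 : (fun n : ℤ => cf f n * (starRingEnd ℂ) (cf g n)) = fun n : ℤ =>
      (4⁻¹ : ℂ) * (((‖cf f n + 1 * cf g n‖ ^ 2 : ℝ) : ℂ) - ((‖cf f n + (-1) * cf g n‖ ^ 2 : ℝ) : ℂ) +
        Complex.I * (((‖cf f n + Complex.I * cf g n‖ ^ 2 : ℝ) : ℂ) -
          ((‖cf f n + (-Complex.I) * cf g n‖ ^ 2 : ℝ) : ℂ))) := by
    funext n
    exact pol _ _
  rw [e1]
  refine (Eq.subst (motive := fun z => HasSum _ z) ?_ k5)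
  have ib : ∀ c : ℂ, IntervalIntegrable (fun θ => ((‖f θ + c * g θ‖ ^ 2 : ℝ) : ℂ)) volume 0
      (2 * π) := by
    intro c
    have h1 : AEStronglyMeasurable (fun θ => f θ + c * g θ) (volume.restrict (Ioc 0 (2 * π))) :=
      hf.add (hg.const_mul c)
    have h2 : ∀ θ, ‖f θ + c * g θ‖ ≤ C + ‖c‖ * C := by
      intro θ
      calc ‖f θ + c * g θ‖ ≤ ‖f θ‖ + ‖c * g θ‖ := norm_add_le _ _
        _ ≤ C + ‖c‖ * C := by
          rw [norm_mul]
          have := mul_le_mul_of_nonneg_left (hgb θ) (norm_nonneg c)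
          linarith [hfb θ]
    exact toC (bd_int h1 h2)
  have ii : ∀ c : ℂ, (((∫ θ in (0 : ℝ)..2 * π, ‖f θ + c * g θ‖ ^ 2 : ℝ)) : ℂ) =
      ∫ θ in (0 : ℝ)..2 * π, ((‖f θ + c * g θ‖ ^ 2 : ℝ) : ℂ) := by
    intro c
    exact (intervalIntegral.integral_ofReal).symm
  have e2 : ∫ θ in (0 : ℝ)..2 * π, f θ * (starRingEnd ℂ) (g θ) =
      (4⁻¹ : ℂ) * (((∫ θ in (0 : ℝ)..2 * π, ((‖f θ + 1 * g θ‖ ^ 2 : ℝ) : ℂ)) -
        ∫ θ in (0 : ℝ)..2 * π, ((‖f θ + (-1) * g θ‖ ^ 2 : ℝ) : ℂ)) +
        Complex.I * ((∫ θ in (0 : ℝ)..2 * π, ((‖f θ + Complex.I * g θ‖ ^ 2 : ℝ) : ℂ)) -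
          ∫ θ in (0 : ℝ)..2 * π, ((‖f θ + (-Complex.I) * g θ‖ ^ 2 : ℝ) : ℂ))) := by
    rw [← intervalIntegral.integral_sub (ib _) (ib _), ← intervalIntegral.integral_sub (ib _) (ib _),
      ← intervalIntegral.integral_const_mul, ← intervalIntegral.integral_add,
      ← intervalIntegral.integral_const_mul]
    · apply intervalIntegral.integral_congr
      intro x _
      exact pol _ _
    · exact (ib _).sub (ib _)
    · exact ((ib _).sub (ib _)).const_mul _
  rw [e2]
  simp only [Complex.ofReal_mul, ii]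
  rw [Complex.real_smul]
  ring

theorem norm_cf_le {f : ℝ → ℂ} {C : ℝ} (hb : ∀ θ, ‖f θ‖ ≤ C) (n : ℤ) : ‖cf f n‖ ≤ C := by
  unfold cf
  rw [norm_smul]
  have h1 : ‖∫ θ in (0 : ℝ)..2 * π, f θ * Complex.exp (-(n * θ * Complex.I))‖ ≤
      C * |2 * π - 0| := by
    apply intervalIntegral.norm_integral_le_of_norm_le_const
    intro x _
    rw [norm_mul]
    have : ‖Complex.exp (-(n * x * Complex.I))‖ = 1 := by
      rw [Complex.norm_exp]
      simp
    rw [this, mul_one]
    exact hb x
  rw [sub_zero, abs_of_pos hpi] at h1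
  rw [Real.norm_eq_abs, abs_of_pos (inv_pos.2 hpi)]
  calc (2 * π)⁻¹ * ‖∫ θ in (0 : ℝ)..2 * π, f θ * Complex.exp (-(n * θ * Complex.I))‖
      ≤ (2 * π)⁻¹ * (C * (2 * π)) := mul_le_mul_of_nonneg_left h1 (inv_pos.2 hpi).le
    _ = C := by field_simp

/-- The coefficients of a real function. -/
theorem cf_neg_real (f : ℝ → ℝ) (n : ℤ) :
    cf (fun θ => (f θ : ℂ)) (-n) = (starRingEnd ℂ) (cf (fun θ => (f θ : ℂ)) n) := by
  unfold cf
  rw [Complex.real_smul, Complex.real_smul, map_mul, Complex.conj_ofReal]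
  congr 1
  rw [intervalIntegral.integral_of_le hpi.le, intervalIntegral.integral_of_le hpi.le,
    ← integral_conj]
  apply integral_congr_ae
  refine ae_of_all _ fun x => ?_
  simp only
  rw [map_mul, Complex.conj_ofReal, ← Complex.exp_conj]
  congr 2
  simp

/-- The coefficients of an exponential. -/
theorem cf_exp (c : ℂ) (k n : ℤ) :
    cf (fun θ => c * Complex.exp (k * θ * Complex.I)) n = if n = k then c else 0 := by
  rw [cf_mul_left]
  split_ifs with h
  · subst h
    have : cf (fun θ => Complex.exp (n * θ * Complex.I)) n = 1 := by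
      unfold cf
      have h1 : ∫ θ in (0 : ℝ)..2 * π, Complex.exp (n * θ * Complex.I) *
          Complex.exp (-(n * θ * Complex.I)) = ∫ θ in (0 : ℝ)..2 * π, (1 : ℂ) := by
        apply intervalIntegral.integral_congr
        intro x _
        simp only
        rw [← Complex.exp_add, add_neg_cancel, Complex.exp_zero]
      rw [h1, intervalIntegral.integral_const, sub_zero, smul_smul,
        inv_mul_cancel₀ hpi.ne', one_smul]
    rw [this, mul_one]
  · have hk : (k : ℂ) - n ≠ 0 := by
      intro h0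
      have h1 : (k : ℂ) = n := sub_eq_zero.1 h0
      exact h (by exact_mod_cast h1.symm)
    have : cf (fun θ => Complex.exp (k * θ * Complex.I)) n = 0 := by
      unfold cf
      have h1 : ∫ θ in (0 : ℝ)..2 * π, Complex.exp (k * θ * Complex.I) *
          Complex.exp (-(n * θ * Complex.I)) =
          ∫ θ in (0 : ℝ)..2 * π, Complex.exp ((((k : ℂ) - n) * Complex.I) * θ) := by
        apply intervalIntegral.integral_congr
        intro x _
        simp only
        rw [← Complex.exp_add]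
        congr 1
        ring
      rw [h1, integral_exp_mul_complex (mul_ne_zero hk Complex.I_ne_zero)]
      have h2 : Complex.exp (((k : ℂ) - n) * Complex.I * ((2 * π : ℝ) : ℂ)) = 1 := by
        have h3 : ((k : ℂ) - n) * Complex.I * ((2 * π : ℝ) : ℂ) =
            ((k - n : ℤ) : ℂ) * (2 * π * Complex.I) := by
          push_cast
          ring
        rw [h3, Complex.exp_int_mul_two_pi_mul_I]
      rw [h2]
      simp
    rw [this, mul_zero]

theorem cf_const (c : ℂ) {n : ℤ} (hn : n ≠ 0) : cf (fun _ => c) n = 0 := by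
  have h := cf_exp c 0 n
  rw [if_neg hn] at h
  simpa using h

private theorem real_deriv {u : ℝ → ℝ} {K : NNReal} (hu : LipschitzWith K u)
    (hp : ∀ θ, u (θ + 2 * π) = u θ) (n : ℤ) :
    cf (fun θ => ((deriv u θ : ℝ) : ℂ)) n = n * Complex.I * cf (fun θ => (u θ : ℂ)) n := by
  have hac : AbsolutelyContinuousOnInterval u 0 (2 * π) :=
    (hu.lipschitzOnWith (s := uIcc 0 (2 * π))).absolutelyContinuousOnInterval
  have hud : IntervalIntegrable (deriv u) volume 0 (2 * π) := hac.intervalIntegrable_deriv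
  have hui : IntervalIntegrable u volume 0 (2 * π) := hu.continuous.intervalIntegrable _ _
  have hcos : AbsolutelyContinuousOnInterval (fun θ : ℝ => cos (n * θ)) 0 (2 * π) := by
    apply ContDiffOn.absolutelyContinuousOnInterval
    apply ContDiff.contDiffOn
    fun_prop
  have hsin : AbsolutelyContinuousOnInterval (fun θ : ℝ => sin (n * θ)) 0 (2 * π) := by
    apply ContDiffOn.absolutelyContinuousOnInterval
    apply ContDiff.contDiffOn
    fun_prop
  have hend : u (2 * π) = u 0 := by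
    have h0 := hp 0
    rwa [zero_add] at h0
  have hc2 : cos ((n : ℝ) * (2 * π)) = 1 := by
    exact Real.cos_int_mul_two_pi n
  have hs2 : sin ((n : ℝ) * (2 * π)) = 0 := by
    have h := Real.sin_int_mul_pi (2 * n)
    push_cast at h
    rw [← h]
    ring_nf
  have d1 : ∀ x : ℝ, deriv (fun θ : ℝ => cos (n * θ)) x = -(n * sin (n * x)) := by
    intro x
    have : HasDerivAt (fun θ : ℝ => cos (n * θ)) (-sin (n * x) * (n * 1)) x :=
      ((hasDerivAt_id x).const_mul (n : ℝ)).cos
    rw [this.deriv]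
    ring
  have d2 : ∀ x : ℝ, deriv (fun θ : ℝ => sin (n * θ)) x = n * cos (n * x) := by
    intro x
    have : HasDerivAt (fun θ : ℝ => sin (n * θ)) (cos (n * x) * (n * 1)) x :=
      ((hasDerivAt_id x).const_mul (n : ℝ)).sin
    rw [this.deriv]
    ring
  have i1 : ∫ x in (0 : ℝ)..2 * π, cos (n * x) * deriv u x =
      n * ∫ x in (0 : ℝ)..2 * π, sin (n * x) * u x := by
    have h := hcos.integral_mul_deriv_eq_deriv_mul hac
    rw [h, hc2, hend]
    simp only [d1]
    rw [← intervalIntegral.integral_const_mul]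
    simp only [mul_zero, cos_zero, sub_self, zero_sub]
    rw [← intervalIntegral.integral_neg]
    apply intervalIntegral.integral_congr
    intro x _
    simp only
    ring
  have i2 : ∫ x in (0 : ℝ)..2 * π, sin (n * x) * deriv u x =
      -(n * ∫ x in (0 : ℝ)..2 * π, cos (n * x) * u x) := by
    have h := hsin.integral_mul_deriv_eq_deriv_mul hac
    rw [h, hs2, hend]
    simp only [d2]
    rw [← intervalIntegral.integral_const_mul]
    simp only [mul_zero, sin_zero, zero_mul, sub_self, zero_sub]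
    rw [← intervalIntegral.integral_neg, ← intervalIntegral.integral_neg]
    apply intervalIntegral.integral_congr
    intro x _
    simp only
    ring
  have split : ∀ w : ℝ → ℝ, IntervalIntegrable w volume 0 (2 * π) →
      ∫ θ in (0 : ℝ)..2 * π, (w θ : ℂ) * Complex.exp (-(n * θ * Complex.I)) =
        ((∫ θ in (0 : ℝ)..2 * π, cos (n * θ) * w θ : ℝ) : ℂ) -
          Complex.I * ((∫ θ in (0 : ℝ)..2 * π, sin (n * θ) * w θ : ℝ) : ℂ) := by
    intro w hw
    rw [← intervalIntegral.integral_ofReal, ← intervalIntegral.integral_ofReal,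
      ← intervalIntegral.integral_const_mul, ← intervalIntegral.integral_sub]
    · apply intervalIntegral.integral_congr
      intro x _
      simp only
      have : Complex.exp (-(n * x * Complex.I)) =
          (cos (n * x) : ℂ) - (sin (n * x) : ℂ) * Complex.I := by
        have h1 : (-((n : ℂ) * x * Complex.I)) = ((-(n * x) : ℝ) : ℂ) * Complex.I := by
          push_cast
          ring
        rw [h1, Complex.exp_mul_I, ← Complex.ofReal_cos, ← Complex.ofReal_sin, Real.cos_neg,
          Real.sin_neg]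
        push_cast
        ring
      rw [this]
      push_cast
      ring
    · exact toC (IntervalIntegrable.continuousOn_mul (g := fun θ : ℝ => cos (n * θ)) hw
        (by fun_prop))
    · exact (toC (IntervalIntegrable.continuousOn_mul (g := fun θ : ℝ => sin (n * θ)) hw
        (by fun_prop))).const_mul _
  unfold cf
  rw [split _ hud, split _ hui, i1, i2]
  rw [Complex.real_smul, Complex.real_smul]
  push_cast
  linear_combination ((2 * (π : ℂ))⁻¹ * (n : ℂ) *
    ((∫ θ in (0 : ℝ)..2 * π, sin (n * θ) * u θ : ℝ) : ℂ)) * Complex.I_mul_I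

theorem cf_deriv {f : ℝ → ℂ} {K : NNReal} (hf : LipschitzWith K f)
    (hp : ∀ θ, f (θ + 2 * π) = f θ) (n : ℤ) : cf (deriv f) n = n * Complex.I * cf f n := by
  have hu : LipschitzWith K fun θ => (f θ).re := by
    apply LipschitzWith.of_dist_le_mul
    intro x y
    refine le_trans ?_ (hf.dist_le_mul x y)
    rw [Real.dist_eq, Complex.dist_eq, ← Complex.sub_re]
    exact Complex.abs_re_le_norm _
  have hv : LipschitzWith K fun θ => (f θ).im := by
    apply LipschitzWith.of_dist_le_mul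
    intro x y
    refine le_trans ?_ (hf.dist_le_mul x y)
    rw [Real.dist_eq, Complex.dist_eq, ← Complex.sub_im]
    exact Complex.abs_im_le_norm _
  have h1 := real_deriv hu (fun θ => by simp only [hp]) n
  have h2 := real_deriv hv (fun θ => by simp only [hp]) n
  have hud : IntervalIntegrable (deriv fun θ => (f θ).re) volume 0 (2 * π) :=
    ((hu.lipschitzOnWith (s := uIcc 0 (2 * π))).absolutelyContinuousOnInterval).intervalIntegrable_deriv
  have hvd : IntervalIntegrable (deriv fun θ => (f θ).im) volume 0 (2 * π) :=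
    ((hv.lipschitzOnWith (s := uIcc 0 (2 * π))).absolutelyContinuousOnInterval).intervalIntegrable_deriv
  have hae : ∀ᵐ θ : ℝ, deriv f θ = ((deriv (fun θ => (f θ).re) θ : ℝ) : ℂ) +
      Complex.I * ((deriv (fun θ => (f θ).im) θ : ℝ) : ℂ) := by
    filter_upwards [hf.ae_differentiableAt_real] with θ hθ
    have h := hθ.hasDerivAt
    have hre : HasDerivAt (fun θ => (f θ).re) (deriv f θ).re θ := by
      exact (Complex.reCLM.hasFDerivAt (x := f θ)).comp_hasDerivAt θ h
    have him : HasDerivAt (fun θ => (f θ).im) (deriv f θ).im θ := by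
      exact (Complex.imCLM.hasFDerivAt (x := f θ)).comp_hasDerivAt θ h
    rw [hre.deriv, him.deriv, mul_comm]
    exact (Complex.re_add_im _).symm
  have e1 : cf (deriv f) n = cf (fun θ => ((deriv (fun θ => (f θ).re) θ : ℝ) : ℂ) +
      Complex.I * ((deriv (fun θ => (f θ).im) θ : ℝ) : ℂ)) n := by
    unfold cf
    congr 1
    apply intervalIntegral.integral_congr_ae
    filter_upwards [hae] with θ hθ _
    rw [hθ]
  have e2 : cf f n = cf (fun θ => ((f θ).re : ℂ) + Complex.I * ((f θ).im : ℂ)) n := by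
    unfold cf
    congr 1
    apply intervalIntegral.integral_congr
    intro θ _
    simp only
    rw [mul_comm Complex.I, Complex.re_add_im]
  rw [e1, e2, cf_add (toC hud) ((toC hvd).const_mul _),
    cf_add (toC (hu.continuous.intervalIntegrable _ _))
      ((toC (hv.continuous.intervalIntegrable _ _)).const_mul _), cf_mul_left, cf_mul_left,
    h1, h2]
  ring

theorem hasSum_deriv {f : ℝ → ℂ} {K : NNReal} (hf : LipschitzWith K f)
    (hp : ∀ θ, f (θ + 2 * π) = f θ) :
    HasSum (fun n : ℤ => (n : ℝ) ^ 2 * ‖cf f n‖ ^ 2)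
      ((2 * π)⁻¹ * ∫ θ in (0 : ℝ)..2 * π, ‖deriv f θ‖ ^ 2) := by
  have h := parseval (f := deriv f) (C := K) (measurable_deriv f).aestronglyMeasurable
    (fun θ => norm_deriv_le_of_lipschitz hf)
  have e : (fun n : ℤ => (n : ℝ) ^ 2 * ‖cf f n‖ ^ 2) = fun n : ℤ => ‖cf (deriv f) n‖ ^ 2 := by
    funext n
    rw [cf_deriv hf hp, norm_mul, norm_mul, Complex.norm_I, mul_one, mul_pow]
    congr 1
    rw [Complex.norm_intCast, sq_abs]
  rw [e]
  exact h

end Pool.Agent.CC57
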