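import Pool.Agent.CC57.FixA
import Pool.Agent.CC57.Four

set_option autoImplicit false

/-!
The curve `WF`.  `‖avgE (h · θ)‖ ≤ sup |h| ≤ C ε ≤ 1/4` (`norm_avgE_le`), so `zhC_surj` gives a point
with `‖w‖ ≤ 2 C ε ≤ 1/2`; it is unique (`zhC_expand`), so `‖WF θ‖ ≤ 2 C ε`.
`‖WF θ - WF θ'‖ ≤ 2 ‖avgE (h · θ) - avgE (h · θ')‖ ≤ 2 ∫_θ^θ' lamc` (`zhC_expand`, `norm_avgE_le`), so `WF`
is Lipschitz and `‖deriv WF θ‖ ≤ 2 lamc θ` for all `θ` (continuity of `lamc`), whence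
`∫ ‖deriv WF‖² ≤ 4 ε²` and `∑ (i+1)² ‖cf WF (-(i+1))‖² ≤ (2π)⁻¹ ∫ ‖deriv WF‖² ≤ (2/π) ε² ≤ ε²`
(`hasSum_deriv`; the indices `-(i+1)` are distinct).
Periodicity of `WF`: `hF` is periodic in `θ`.
-/

open Real MeasureTheory Set

namespace Pool.Agent.CC57

private theorem fixb_deriv_le {W : ℝ → ℂ} {l : ℝ → ℝ} (hl : Continuous l) (hl0 : ∀ θ, 0 ≤ l θ)
    (h : ∀ θ θ', θ ≤ θ' → ‖W θ' - W θ‖ ≤ 2 * ∫ t in θ..θ', l t) (θ : ℝ) :
    ‖deriv W θ‖ ≤ 2 * l θ := by
  refine le_of_forall_pos_le_add fun δ hδ => ?_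
  have hev : ∀ᶠ x in nhds θ, ‖W x - W θ‖ ≤ (2 * l θ + δ) * ‖x - θ‖ := by
    have h1 : ∀ᶠ x in nhds θ, l x < l θ + δ / 2 :=
      hl.continuousAt.eventually_lt continuousAt_const (by simp; linarith)
    obtain ⟨r, hr, hb⟩ := Metric.eventually_nhds_iff_ball.1 h1
    filter_upwards [Metric.ball_mem_nhds θ hr] with x hx
    have key : ∀ a c : ℝ, a ≤ c → (∀ t ∈ Set.Icc a c, t ∈ Metric.ball θ r) →
        ∫ t in a..c, l t ≤ (l θ + δ / 2) * (c - a) := by
      intro a c hac ht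
      have h2 : ∫ t in a..c, l t ≤ ∫ t in a..c, (l θ + δ / 2) := by
        apply intervalIntegral.integral_mono_on hac (hl.intervalIntegrable _ _)
          intervalIntegrable_const
        intro t htt
        exact (hb t (ht t htt)).le
      rw [intervalIntegral.integral_const, smul_eq_mul] at h2
      linarith
    have hx' : |x - θ| < r := by
      rw [Metric.mem_ball, Real.dist_eq] at hx
      exact hx
    rcases le_total θ x with hle | hle
    · have h3 := h θ x hle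
      have h4 := key θ x hle (by
        intro t ht
        rw [Metric.mem_ball, Real.dist_eq, abs_of_nonneg (by linarith [ht.1])]
        rw [abs_of_nonneg (by linarith)] at hx'
        linarith [ht.2])
      rw [Real.norm_eq_abs, abs_of_nonneg (by linarith)]
      calc ‖W x - W θ‖ ≤ 2 * ∫ t in θ..x, l t := h3
        _ ≤ 2 * ((l θ + δ / 2) * (x - θ)) := by linarith
        _ = (2 * l θ + δ) * (x - θ) := by ring
    · have h3 := h x θ hle
      have h4 := key x θ hle (by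
        intro t ht
        rw [Metric.mem_ball, Real.dist_eq, abs_of_nonpos (by linarith [ht.2])]
        rw [abs_of_nonpos (by linarith)] at hx'
        linarith [ht.1])
      rw [norm_sub_rev, Real.norm_eq_abs, abs_of_nonpos (by linarith)]
      calc ‖W θ - W x‖ ≤ 2 * ∫ t in x..θ, l t := h3
        _ ≤ 2 * ((l θ + δ / 2) * (θ - x)) := by linarith
        _ = (2 * l θ + δ) * -(x - θ) := by ring
  exact norm_deriv_le_of_lip' (by linarith [hl0 θ]) hev

private theorem fixb_sum_le {f : ℝ → ℂ} {L : NNReal} (hf : LipschitzWith L f)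
    (hp : ∀ θ, f (θ + 2 * π) = f θ) (K : ℕ) :
    ∑ i : Fin K, ‖((i : ℂ) + 1) * cf f (-((i : ℤ) + 1))‖ ^ 2 ≤
      (2 * π)⁻¹ * ∫ θ in (0 : ℝ)..2 * π, ‖deriv f θ‖ ^ 2 := by
  have h := hasSum_deriv hf hp
  have hinj : Function.Injective fun i : Fin K => -((i : ℤ) + 1) := by
    intro i j hij
    apply Fin.ext
    simp only at hij
    omega
  have h2 := sum_le_hasSum (Finset.univ.map ⟨fun i : Fin K => -((i : ℤ) + 1), hinj⟩)
    (fun n _ => by positivity) h
  rw [Finset.sum_map] at h2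
  refine le_trans (le_of_eq (Finset.sum_congr rfl fun i _ => ?_)) h2
  simp only [Function.Embedding.coeFn_mk]
  rw [norm_mul, mul_pow]
  congr 1
  have h3 : ‖(i : ℂ) + 1‖ = (i : ℝ) + 1 := by
    have h4 : ((i : ℂ) + 1) = (((i : ℝ) + 1 : ℝ) : ℂ) := by push_cast; rfl
    rw [h4, Complex.norm_real, Real.norm_of_nonneg (by positivity)]
  rw [h3]
  push_cast
  ring

theorem WF_facts : ∃ C ε₀ : ℝ, 0 < C ∧ 0 < ε₀ ∧ ∀ (K : ℕ) (b : Fin K → ℂ) (y ε M : ℝ)
    (om : (Fin K → ℂ) → ℂ → ℂ) (f : ℂ → ℝ → ℝ) (lamc : ℝ → ℝ), 0 < ε → ε ≤ ε₀ →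
    rexp (-y) ≤ ε → GaugeFam K y ε om → CircData ε M f lamc → ∑ i, ‖b i‖ ^ 2 ≤ ε ^ 2 →
    (∀ θ, zhC (WF y om f b θ) = avgE (fun σ => hF y om f b σ θ)) ∧
    (∀ θ, ‖WF y om f b θ‖ ≤ C * ε) ∧
    (∃ L : NNReal, LipschitzWith L (WF y om f b)) ∧
    (∀ θ, WF y om f b (θ + 2 * π) = WF y om f b θ) ∧
    ∫ θ in (0 : ℝ)..2 * π, ‖deriv (WF y om f b) θ‖ ^ 2 ≤ (2 * ε) ^ 2 ∧
    ∑ i : Fin K, ‖((i : ℂ) + 1) * cf (WF y om f b) (-((i : ℤ) + 1))‖ ^ 2 ≤ ε ^ 2 := by
  obtain ⟨C, ε₀, hC, hε₀, hA⟩ := hF_facts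
  refine ⟨2 * C, min ε₀ (1 / (4 * C)), by positivity, by positivity, ?_⟩
  intro K b y ε M om f lamc hε hε1 hy hG hD hb
  obtain ⟨hcont, -, ⟨L, hL⟩, hper, -, hbd, -, hint⟩ := hA K b y ε M om f lamc hε
    (hε1.trans (min_le_left _ _)) hy hG hD hb
  have hCε : C * ε ≤ 1 / 4 := by
    have h1 := hε1.trans (min_le_right _ _)
    have h2 : ε * (4 * C) ≤ 1 := by
      rwa [le_div_iff₀ (by positivity)] at h1
    linarith
  have hcs : ∀ θ, Continuous fun σ => hF y om f b σ θ := fun θ =>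
    hcont.comp (continuous_id.prodMk continuous_const)
  have hi : ∀ θ, IntervalIntegrable (fun σ => hF y om f b σ θ) volume 0 (2 * π) := fun θ =>
    (hcs θ).intervalIntegrable _ _
  have hav : ∀ θ, ‖avgE fun σ => hF y om f b σ θ‖ ≤ C * ε := fun θ =>
    norm_avgE_le fun σ => hbd σ θ
  have hex : ∀ θ, ∃ w : ℂ, ‖w‖ ≤ 1 / 2 ∧ zhC w = avgE (fun σ => hF y om f b σ θ) := by
    intro θ
    obtain ⟨w, hw1, hw2⟩ := zhC_surj (z := avgE fun σ => hF y om f b σ θ)
      ((hav θ).trans hCε)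
    exact ⟨w, by linarith [hav θ], hw2⟩
  have hW : ∀ θ, ‖WF y om f b θ‖ ≤ 1 / 2 ∧
      zhC (WF y om f b θ) = avgE (fun σ => hF y om f b σ θ) := by
    intro θ
    unfold WF
    rw [dif_pos (hex θ)]
    exact (hex θ).choose_spec
  have h1 : ∀ θ, ‖WF y om f b θ‖ ≤ 1 := fun θ => by linarith [(hW θ).1]
  have hdiff : ∀ (θ θ' B : ℝ), (∀ σ, |hF y om f b σ θ' - hF y om f b σ θ| ≤ B) →
      ‖WF y om f b θ' - WF y om f b θ‖ ≤ 2 * B := by
    intro θ θ' B hB
    refine (zhC_expand (h1 θ') (h1 θ)).trans ?_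
    rw [(hW θ').2, (hW θ).2, ← avgE_sub (hi θ') (hi θ)]
    have := norm_avgE_le hB
    linarith
  have hLip : LipschitzWith (2 * L) (WF y om f b) := by
    apply LipschitzWith.of_dist_le_mul
    intro θ θ'
    rw [dist_eq_norm]
    have h2 := hdiff θ' θ (L * dist θ θ') (fun σ => by
      have := (hL σ).dist_le_mul θ θ'
      rwa [Real.dist_eq] at this)
    refine h2.trans (le_of_eq ?_)
    push_cast
    ring
  have hWper : ∀ θ, WF y om f b (θ + 2 * π) = WF y om f b θ := by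
    intro θ
    have h2 := hdiff θ (θ + 2 * π) 0 (fun σ => by rw [hper, sub_self, abs_zero])
    rw [mul_zero] at h2
    exact sub_eq_zero.1 (norm_le_zero_iff.1 h2)
  have hd : ∀ θ, ‖deriv (WF y om f b) θ‖ ≤ 2 * lamc θ :=
    fixb_deriv_le hD.lam_cont hD.lam_nonneg fun θ θ' hle =>
      hdiff θ θ' _ fun σ => hint σ θ θ' hle
  have hint2 : ∫ θ in (0 : ℝ)..2 * π, ‖deriv (WF y om f b) θ‖ ^ 2 ≤ (2 * ε) ^ 2 := by
    have i1 : IntervalIntegrable (fun θ => ‖deriv (WF y om f b) θ‖ ^ 2) volume 0 (2 * π) := by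
      rw [intervalIntegrable_iff_integrableOn_Ioc_of_le two_pi_pos.le]
      refine MeasureTheory.Integrable.mono' (g := fun _ => ((2 * L : NNReal) : ℝ) ^ 2)
        (integrableOn_const measure_Ioc_lt_top.ne) ?_ ?_
      · exact ((measurable_deriv _).norm.pow_const 2).aestronglyMeasurable
      · refine ae_of_all _ fun θ => ?_
        rw [Real.norm_of_nonneg (by positivity)]
        exact pow_le_pow_left₀ (norm_nonneg _) (norm_deriv_le_of_lipschitz hLip) 2
    have i2 : IntervalIntegrable (fun θ => (2 * lamc θ) ^ 2) volume 0 (2 * π) :=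
      ((continuous_const.mul hD.lam_cont).pow 2).intervalIntegrable _ _
    calc ∫ θ in (0 : ℝ)..2 * π, ‖deriv (WF y om f b) θ‖ ^ 2
        ≤ ∫ θ in (0 : ℝ)..2 * π, (2 * lamc θ) ^ 2 := by
          apply intervalIntegral.integral_mono_on two_pi_pos.le i1 i2
          intro θ _
          exact pow_le_pow_left₀ (norm_nonneg _) (hd θ) 2
      _ = 4 * ∫ θ in (0 : ℝ)..2 * π, lamc θ ^ 2 := by
          rw [← intervalIntegral.integral_const_mul]
          apply intervalIntegral.integral_congr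
          intro θ _
          simp only
          ring
      _ ≤ (2 * ε) ^ 2 := by
          have := hD.lam_sq
          nlinarith
  refine ⟨fun θ => (hW θ).2, fun θ => ?_, ⟨2 * L, hLip⟩, hWper, hint2, ?_⟩
  · have h2 := zhC_expand (h1 θ) (w' := 0) (by simp)
    rw [sub_zero, (hW θ).2, zhC_zero, sub_zero] at h2
    have := hav θ
    linarith
  · refine (fixb_sum_le hLip hWper K).trans ?_
    have hpi := Real.pi_gt_three
    calc (2 * π)⁻¹ * ∫ θ in (0 : ℝ)..2 * π, ‖deriv (WF y om f b) θ‖ ^ 2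
        ≤ (2 * π)⁻¹ * (2 * ε) ^ 2 := mul_le_mul_of_nonneg_left hint2 (by positivity)
      _ = (2 / π) * ε ^ 2 := by field_simp
      _ ≤ 1 * ε ^ 2 := by
          refine mul_le_mul_of_nonneg_right ?_ (sq_nonneg _)
          rw [div_le_one (by positivity)]
          linarith
      _ = ε ^ 2 := one_mul _

end Pool.Agent.CC57
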