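import Pool.Agent.CC57.FixB

set_option autoImplicit false

/-!
Continuity in `b`.  Fix `b` and let `b' → b` in the set `∑ ‖b i‖² ≤ ε²`.
`sup_σ ‖om b (iσ) - om b' (iσ)‖ → 0`: joint continuity of `(b,σ) ↦ om b (iσ)` on the compact set
`{∑‖b i‖² ≤ ε²} × [0,2π]` (uniform continuity; the averages only use `σ ∈ [0,2π]`); similarly
`sup_θ ‖Xc b θ - Xc b' θ‖ → 0` (`continuousOn_Xc`, `θ ∈ [0,2π]`).  Hence `delF`, `cF`, `hF` converge
uniformly on `[0,2π]²` (`f_p`, `gx_lip`), `avgE (hF b' · θ) → avgE (hF b · θ)` uniformly in `θ`, and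
`‖WF b θ - WF b' θ‖ ≤ 2 ‖avgE (hF b · θ) - avgE (hF b' · θ)‖` (`zhC_expand`); so the Fourier coefficients
converge (`norm_cf_le`-type bound of the difference).
-/

open Real MeasureTheory Set

namespace Pool.Agent.CC57

private theorem fc_cont_f {ε M : ℝ} {f : ℂ → ℝ → ℝ} {lamc : ℝ → ℝ} (hD : CircData ε M f lamc)
    {p : ℂ} (hp : |p.re| ≤ 1) : Continuous (f p) := by
  have hG : Continuous fun θ => ∫ t in (0 : ℝ)..θ, lamc t :=
    intervalIntegral.continuous_primitive (fun a b => hD.lam_cont.intervalIntegrable a b) 0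
  have key1 : ∀ θ θ' : ℝ, θ ≤ θ' → dist (f p θ') (f p θ) ≤
      dist (∫ t in (0 : ℝ)..θ', lamc t) (∫ t in (0 : ℝ)..θ, lamc t) := by
    intro θ θ' h
    rw [Real.dist_eq, Real.dist_eq, intervalIntegral.integral_interval_sub_left
      (hD.lam_cont.intervalIntegrable _ _) (hD.lam_cont.intervalIntegrable _ _)]
    exact (hD.f_th p hp θ θ' h).trans (le_abs_self _)
  have key : ∀ θ θ' : ℝ, dist (f p θ') (f p θ) ≤
      dist (∫ t in (0 : ℝ)..θ', lamc t) (∫ t in (0 : ℝ)..θ, lamc t) := by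
    intro θ θ'
    rcases le_total θ θ' with h | h
    · exact key1 θ θ' h
    · rw [dist_comm, dist_comm (∫ t in (0 : ℝ)..θ', lamc t)]
      exact key1 θ' θ h
  rw [continuous_iff_continuousAt]
  intro θ
  rw [ContinuousAt, tendsto_iff_dist_tendsto_zero]
  refine squeeze_zero (fun _ => dist_nonneg) (fun θ' => key θ θ') ?_
  rw [← tendsto_iff_dist_tendsto_zero]
  exact hG.continuousAt

private theorem fc_om {K : ℕ} {y ε : ℝ} {om : (Fin K → ℂ) → ℂ → ℂ} (hG : GaugeFam K y ε om)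
    (σ : ℝ) : ContinuousOn (fun b => om b (pt 0 σ)) {b : Fin K → ℂ | ∑ i, ‖b i‖ ^ 2 ≤ ε ^ 2} := by
  refine hG.cont.comp (f := fun b : Fin K → ℂ => (b, pt 0 σ)) (by fun_prop) ?_
  intro b hb
  refine ⟨hb, ?_⟩
  simp [pt]

private theorem fc_f {K : ℕ} {y ε M : ℝ} {om : (Fin K → ℂ) → ℂ → ℂ} {f : ℂ → ℝ → ℝ}
    {lamc : ℝ → ℝ} (hG : GaugeFam K y ε om) (hD : CircData ε M f lamc) (σ θ : ℝ) :
    ContinuousOn (fun b => f (om b (pt 0 σ)) θ)
      {b : Fin K → ℂ | ∑ i, ‖b i‖ ^ 2 ≤ ε ^ 2} := by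
  intro b0 hb0
  have h1 := fc_om hG σ b0 hb0
  rw [ContinuousWithinAt, tendsto_iff_dist_tendsto_zero] at h1 ⊢
  have h2 : Filter.Tendsto (fun b => M * dist (om b (pt 0 σ)) (om b0 (pt 0 σ)))
      (nhdsWithin b0 {b : Fin K → ℂ | ∑ i, ‖b i‖ ^ 2 ≤ ε ^ 2}) (nhds 0) := by
    have := h1.const_mul M
    rwa [mul_zero] at this
  refine squeeze_zero' (Filter.Eventually.of_forall fun _ => dist_nonneg) ?_ h2
  filter_upwards [self_mem_nhdsWithin] with b hb
  rw [Real.dist_eq, dist_eq_norm]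
  exact hD.f_p _ _ ((om_re hG hb σ).trans (by norm_num)) ((om_re hG hb0 σ).trans (by norm_num)) θ

private theorem fc_gx_le (x : ℂ) (σ : ℝ) : |gx x σ| ≤ π / 2 := by
  unfold gx
  rw [abs_le]
  exact ⟨neg_pi_div_two_le_arcsin _, arcsin_le_pi_div_two _⟩

private theorem fc_cF {K : ℕ} {y ε M : ℝ} {om : (Fin K → ℂ) → ℂ → ℂ} {f : ℂ → ℝ → ℝ}
    {lamc : ℝ → ℝ} (hG : GaugeFam K y ε om) (hD : CircData ε M f lamc)
    (hX : ∀ b : Fin K → ℂ, ∑ i, ‖b i‖ ^ 2 ≤ ε ^ 2 → Continuous (Xc b y))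
    (hXb : ∀ θ, ContinuousOn (fun b : Fin K → ℂ => Xc b y θ) {b | ∑ i, ‖b i‖ ^ 2 ≤ ε ^ 2})
    (σ : ℝ) :
    ContinuousOn (fun b => cF y om f b σ) {b : Fin K → ℂ | ∑ i, ‖b i‖ ^ 2 ≤ ε ^ 2} := by
  intro b0 hb0
  unfold cF avg
  refine continuousWithinAt_const.mul ?_
  have hp0 : |(om b0 (pt 0 σ)).re| ≤ 1 := (om_re hG hb0 σ).trans (by norm_num)
  have hf0 := fc_cont_f hD hp0
  refine intervalIntegral.continuousWithinAt_of_dominated_interval
    (bound := fun θ => |f (om b0 (pt 0 σ)) θ| + M + π / 2) ?_ ?_ ?_ ?_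
  · filter_upwards [self_mem_nhdsWithin] with b hb
    have hp : |(om b (pt 0 σ)).re| ≤ 1 := (om_re hG hb σ).trans (by norm_num)
    have h1 : Continuous (delF y om f b σ) :=
      (fc_cont_f hD hp).sub (continuous_gx.comp ((hX b hb).prodMk continuous_const))
    exact h1.aestronglyMeasurable
  · have h1 := fc_om hG σ b0 hb0
    rw [ContinuousWithinAt, tendsto_iff_dist_tendsto_zero] at h1
    have h2 := h1.eventually_lt_const (zero_lt_one)
    filter_upwards [self_mem_nhdsWithin, h2] with b hb hlt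
    refine Filter.Eventually.of_forall fun θ _ => ?_
    have hp : |(om b (pt 0 σ)).re| ≤ 1 := (om_re hG hb σ).trans (by norm_num)
    have h3 := hD.f_p _ _ hp hp0 θ
    have h4 := fc_gx_le (Xc b y θ) σ
    rw [dist_eq_norm] at hlt
    have h5 : M * ‖om b (pt 0 σ) - om b0 (pt 0 σ)‖ ≤ M :=
      mul_le_of_le_one_right hD.M_nonneg hlt.le
    rw [Real.norm_eq_abs]
    unfold delF
    have h6 := abs_sub (f (om b (pt 0 σ)) θ) (gx (Xc b y θ) σ)
    have h7 : |f (om b (pt 0 σ)) θ| ≤ |f (om b0 (pt 0 σ)) θ| +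
        |f (om b (pt 0 σ)) θ - f (om b0 (pt 0 σ)) θ| := by
      have := abs_add_le (f (om b0 (pt 0 σ)) θ) (f (om b (pt 0 σ)) θ - f (om b0 (pt 0 σ)) θ)
      rwa [add_sub_cancel] at this
    linarith
  · exact ((hf0.abs.add continuous_const).add continuous_const).intervalIntegrable _ _
  · refine Filter.Eventually.of_forall fun θ _ => ?_
    have h0 : (fun b => delF y om f b σ θ) =
        fun b => f (om b (pt 0 σ)) θ - gx (Xc b y θ) σ := rfl
    rw [h0]
    refine (fc_f hG hD σ θ b0 hb0).sub ?_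
    have h1 : ContinuousOn (fun b : Fin K → ℂ => (Xc b y θ, σ))
        {b | ∑ i, ‖b i‖ ^ 2 ≤ ε ^ 2} := (hXb θ).prodMk continuousOn_const
    have h2 := continuous_gx.comp_continuousOn h1
    exact h2 b0 hb0

theorem continuousOn_coef : ∃ ε₀ : ℝ, 0 < ε₀ ∧ ∀ (K : ℕ) (y ε M : ℝ)
    (om : (Fin K → ℂ) → ℂ → ℂ) (f : ℂ → ℝ → ℝ) (lamc : ℝ → ℝ), 0 < ε → ε ≤ ε₀ →
    rexp (-y) ≤ ε → GaugeFam K y ε om → CircData ε M f lamc → ∀ n : ℤ,
    ContinuousOn (fun b : Fin K → ℂ => cf (fun θ => WF y om f b θ - Xc b y θ) n)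
      {b | ∑ i, ‖b i‖ ^ 2 ≤ ε ^ 2} := by
  obtain ⟨C1, ε1, hC1, hε1, H1⟩ := Xc_bounds
  obtain ⟨ε2, hε2, H2⟩ := continuousOn_Xc
  obtain ⟨C3, ε3, hC3, hε3, H3⟩ := hF_facts
  obtain ⟨C4, ε4, hC4, hε4, H4⟩ := WF_facts
  refine ⟨min (min ε1 ε2) (min (min ε3 ε4) (1 / C4)), by positivity, ?_⟩
  intro K y ε M om f lamc hε hεle hy hG hD n
  have le1 : ε ≤ ε1 := hεle.trans ((min_le_left _ _).trans (min_le_left _ _))
  have le2 : ε ≤ ε2 := hεle.trans ((min_le_left _ _).trans (min_le_right _ _))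
  have le3 : ε ≤ ε3 :=
    hεle.trans ((min_le_right _ _).trans ((min_le_left _ _).trans (min_le_left _ _)))
  have le4 : ε ≤ ε4 :=
    hεle.trans ((min_le_right _ _).trans ((min_le_left _ _).trans (min_le_right _ _)))
  have le5 : ε ≤ 1 / C4 := hεle.trans ((min_le_right _ _).trans (min_le_right _ _))
  have hC4ε : C4 * ε ≤ 1 := by
    rw [le_div_iff₀ hC4] at le5
    linarith
  have hX : ∀ b : Fin K → ℂ, ∑ i, ‖b i‖ ^ 2 ≤ ε ^ 2 → Continuous (Xc b y) := by
    intro b hb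
    obtain ⟨⟨L, hL⟩, -⟩ := H1 K b y ε hε le1 hy hb
    exact hL.continuous
  have hXb : ∀ θ, ContinuousOn (fun b : Fin K → ℂ => Xc b y θ)
      {b | ∑ i, ‖b i‖ ^ 2 ≤ ε ^ 2} := by
    intro θ
    refine (H2 K y ε hε le2 hy).comp (f := fun b : Fin K → ℂ => (b, θ)) (by fun_prop) ?_
    intro b hb
    exact hb
  have hhF : ∀ σ θ, ContinuousOn (fun b => hF y om f b σ θ)
      {b : Fin K → ℂ | ∑ i, ‖b i‖ ^ 2 ≤ ε ^ 2} := by
    intro σ θ
    exact (fc_f hG hD σ θ).sub (fc_cF hG hD hX hXb σ)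
  have hav : ∀ θ, ContinuousOn (fun b => avgE (fun σ => hF y om f b σ θ))
      {b : Fin K → ℂ | ∑ i, ‖b i‖ ^ 2 ≤ ε ^ 2} := by
    intro θ b0 hb0
    unfold avgE
    refine ContinuousWithinAt.fun_const_smul ?_ _
    refine intervalIntegral.continuousWithinAt_of_dominated_interval
      (bound := fun _ => C3 * ε) ?_ ?_ ?_ ?_
    · filter_upwards [self_mem_nhdsWithin] with b hb
      have h1 := (H3 K b y ε M om f lamc hε le3 hy hG hD hb).1
      have h2 : Continuous fun σ => hF y om f b σ θ :=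
        h1.comp (continuous_id.prodMk continuous_const)
      have h3 : Continuous fun σ : ℝ => hF y om f b σ θ • Complex.exp (σ * Complex.I) :=
        h2.smul (by fun_prop)
      exact h3.aestronglyMeasurable
    · filter_upwards [self_mem_nhdsWithin] with b hb
      refine Filter.Eventually.of_forall fun σ _ => ?_
      obtain ⟨-, -, -, -, -, h1, -, -⟩ := H3 K b y ε M om f lamc hε le3 hy hG hD hb
      rw [norm_smul, Complex.norm_exp_ofReal_mul_I, mul_one, Real.norm_eq_abs]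
      exact h1 σ θ
    · exact continuous_const.intervalIntegrable _ _
    · refine Filter.Eventually.of_forall fun σ _ => ?_
      exact ContinuousWithinAt.fun_smul (hhF σ θ b0 hb0) continuousWithinAt_const
  have hWF : ∀ θ, ContinuousOn (fun b => WF y om f b θ)
      {b : Fin K → ℂ | ∑ i, ‖b i‖ ^ 2 ≤ ε ^ 2} := by
    intro θ b0 hb0
    have h1 := hav θ b0 hb0
    rw [ContinuousWithinAt, tendsto_iff_dist_tendsto_zero] at h1 ⊢
    have h2 := h1.const_mul 2
    rw [mul_zero] at h2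
    refine squeeze_zero' (Filter.Eventually.of_forall fun _ => dist_nonneg) ?_ h2
    filter_upwards [self_mem_nhdsWithin] with b hb
    obtain ⟨e1, n1, -⟩ := H4 K b y ε M om f lamc hε le4 hy hG hD hb
    obtain ⟨e2, n2, -⟩ := H4 K b0 y ε M om f lamc hε le4 hy hG hD hb0
    rw [dist_eq_norm, dist_eq_norm, ← e1, ← e2]
    exact zhC_expand ((n1 θ).trans hC4ε) ((n2 θ).trans hC4ε)
  intro b0 hb0
  unfold cf
  refine ContinuousWithinAt.fun_const_smul ?_ _
  refine intervalIntegral.continuousWithinAt_of_dominated_interval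
    (bound := fun _ => C4 * ε + C1 * ε) ?_ ?_ ?_ ?_
  · filter_upwards [self_mem_nhdsWithin] with b hb
    obtain ⟨-, -, ⟨L, hL⟩, -⟩ := H4 K b y ε M om f lamc hε le4 hy hG hD hb
    have h1 : Continuous fun θ : ℝ => (WF y om f b θ - Xc b y θ) *
        Complex.exp (-(n * θ * Complex.I)) :=
      (hL.continuous.sub (hX b hb)).mul (by fun_prop)
    exact h1.aestronglyMeasurable
  · filter_upwards [self_mem_nhdsWithin] with b hb
    refine Filter.Eventually.of_forall fun θ _ => ?_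
    obtain ⟨-, n1, -⟩ := H4 K b y ε M om f lamc hε le4 hy hG hD hb
    obtain ⟨-, -, n2, -⟩ := H1 K b y ε hε le1 hy hb
    have h3 : ‖Complex.exp (-(n * θ * Complex.I))‖ = 1 := by
      rw [Complex.norm_exp]
      simp
    rw [norm_mul, h3, mul_one]
    exact (norm_sub_le _ _).trans (add_le_add (n1 θ) (n2 θ))
  · exact continuous_const.intervalIntegrable _ _
  · refine Filter.Eventually.of_forall fun θ _ => ?_
    exact ((hWF θ b0 hb0).sub (hXb θ b0 hb0)).mul continuousWithinAt_const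

end Pool.Agent.CC57
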