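import Pool.Agent.CC57.Vcr

set_option autoImplicit false

/-!
`v ↦ gx (xc v) σ` is Lipschitz with constant 2 on `ℂ` (it is `π/2` minus the spherical distance from
`e^{iσ}`).  By rotation (`inn_xc`) assume `σ = 0`: `g v = arcsin (2 v₁/(1+‖v‖²))`.  For `v ≠ ±1` (more
precisely `v² ≠ 1`; note `1 - (2v₁/(1+‖v‖²))² = ‖1-v²‖²/(1+‖v‖²)²`) the gradient has norm
`2/(1+‖v‖²) ≤ 2` (the computation in `Vcr` does not use `‖v‖ < 1`).  On the segment from `v` to `w` the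
function is continuous and differentiable except at at most two points, with derivative at most
`2‖w - v‖` (e.g. `MeasureTheory.integral_eq_of_hasDerivWithinAt_off_countable`, or cut the segment at the
exceptional points, or use `image_norm_le_of_...` on the pieces).
(Alternative: `g v = π/2 - 2 arctan (‖1-v‖/‖1+v‖)`.)
-/

open Real MeasureTheory Set

namespace Pool.Agent.CC57

private theorem norm_e (σ : ℝ) : ‖Complex.exp (σ * Complex.I)‖ = 1 :=
  Complex.norm_exp_ofReal_mul_I σ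

private theorem norm_add_sq (v : ℂ) (σ : ℝ) :
    ‖Complex.exp (σ * Complex.I) + v‖ ^ 2 = 1 + ‖v‖ ^ 2 + 2 * inn v σ := by
  rw [Complex.sq_norm, Complex.sq_norm, Complex.normSq_apply, Complex.normSq_apply,
    Complex.add_re, Complex.add_im, Complex.exp_ofReal_mul_I_re, Complex.exp_ofReal_mul_I_im]
  unfold inn
  have h := sin_sq_add_cos_sq σ
  linear_combination h

private theorem norm_sub_sq (v : ℂ) (σ : ℝ) :
    ‖Complex.exp (σ * Complex.I) - v‖ ^ 2 = 1 + ‖v‖ ^ 2 - 2 * inn v σ := by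
  rw [Complex.sq_norm, Complex.sq_norm, Complex.normSq_apply, Complex.normSq_apply,
    Complex.sub_re, Complex.sub_im, Complex.exp_ofReal_mul_I_re, Complex.exp_ofReal_mul_I_im]
  unfold inn
  have h := sin_sq_add_cos_sq σ
  linear_combination h

/-- Half of the angle from the opposite pole. -/
private noncomputable def al (v : ℂ) (σ : ℝ) : ℝ := (gx (xc v) σ + π / 2) / 2

private theorem al_mem (v : ℂ) (σ : ℝ) : 0 ≤ al v σ ∧ al v σ ≤ π / 2 := by
  unfold al gx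
  have h1 := neg_pi_div_two_le_arcsin (inn (xc v) σ)
  have h2 := arcsin_le_pi_div_two (inn (xc v) σ)
  constructor <;> linarith

private theorem cos_two_al (v : ℂ) (σ : ℝ) :
    cos (2 * al v σ) = -(2 * inn v σ / (1 + ‖v‖ ^ 2)) := by
  have e : 2 * al v σ = gx (xc v) σ + π / 2 := by
    unfold al
    ring
  rw [e, cos_add_pi_div_two]
  unfold gx
  have h := abs_le.1 ((abs_inn_le (xc v) σ).trans (norm_xc_le v))
  rw [sin_arcsin h.1 h.2, inn_xc]

private theorem sin_al (v : ℂ) (σ : ℝ) :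
    sin (al v σ) = ‖Complex.exp (σ * Complex.I) + v‖ / √(2 * (1 + ‖v‖ ^ 2)) := by
  have h0 : 0 < 1 + ‖v‖ ^ 2 := by positivity
  have hs : 0 ≤ sin (al v σ) :=
    sin_nonneg_of_nonneg_of_le_pi (al_mem v σ).1 (by linarith [(al_mem v σ).2, pi_pos])
  have h2 : sin (al v σ) ^ 2 = (‖Complex.exp (σ * Complex.I) + v‖ / √(2 * (1 + ‖v‖ ^ 2))) ^ 2 := by
    rw [div_pow, sq_sqrt (by positivity), norm_add_sq]
    have h3 := cos_two_al v σ
    rw [cos_two_mul] at h3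
    have h4 := sin_sq_add_cos_sq (al v σ)
    rw [eq_div_iff (by positivity)]
    have h5 : 2 * cos (al v σ) ^ 2 = 1 - 2 * inn v σ / (1 + ‖v‖ ^ 2) := by linarith
    have h6 : 2 * inn v σ / (1 + ‖v‖ ^ 2) * (1 + ‖v‖ ^ 2) = 2 * inn v σ :=
      div_mul_cancel₀ _ h0.ne'
    have h7 : 2 * sin (al v σ) ^ 2 = 1 + 2 * inn v σ / (1 + ‖v‖ ^ 2) := by linarith
    calc sin (al v σ) ^ 2 * (2 * (1 + ‖v‖ ^ 2)) = (2 * sin (al v σ) ^ 2) * (1 + ‖v‖ ^ 2) := by ring
      _ = 1 + ‖v‖ ^ 2 + 2 * inn v σ := by rw [h7, add_mul, h6]; ring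
  exact (pow_left_inj₀ hs (by positivity) two_ne_zero).1 h2

private theorem cos_al (v : ℂ) (σ : ℝ) :
    cos (al v σ) = ‖Complex.exp (σ * Complex.I) - v‖ / √(2 * (1 + ‖v‖ ^ 2)) := by
  have h0 : 0 < 1 + ‖v‖ ^ 2 := by positivity
  have hs : 0 ≤ cos (al v σ) :=
    cos_nonneg_of_neg_pi_div_two_le_of_le (by linarith [(al_mem v σ).1, pi_pos]) (al_mem v σ).2
  have h2 : cos (al v σ) ^ 2 = (‖Complex.exp (σ * Complex.I) - v‖ / √(2 * (1 + ‖v‖ ^ 2))) ^ 2 := by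
    rw [div_pow, sq_sqrt (by positivity), norm_sub_sq]
    have h3 := cos_two_al v σ
    rw [cos_two_mul] at h3
    rw [eq_div_iff (by positivity)]
    have h6 : 2 * inn v σ / (1 + ‖v‖ ^ 2) * (1 + ‖v‖ ^ 2) = 2 * inn v σ :=
      div_mul_cancel₀ _ h0.ne'
    have h7 : 2 * cos (al v σ) ^ 2 = 1 - 2 * inn v σ / (1 + ‖v‖ ^ 2) := by linarith
    calc cos (al v σ) ^ 2 * (2 * (1 + ‖v‖ ^ 2)) = (2 * cos (al v σ) ^ 2) * (1 + ‖v‖ ^ 2) := by ring
      _ = 1 + ‖v‖ ^ 2 - 2 * inn v σ := by rw [h7, sub_mul, h6]; ring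
  exact (pow_left_inj₀ hs (by positivity) two_ne_zero).1 h2

private theorem sin_al_sub (v w : ℂ) (σ : ℝ) :
    |sin (al v σ - al w σ)| ≤ ‖v - w‖ / √((1 + ‖v‖ ^ 2) * (1 + ‖w‖ ^ 2)) := by
  rw [sin_sub, sin_al, cos_al, sin_al, cos_al]
  set e := Complex.exp (σ * Complex.I) with he
  have e1 : √(2 * (1 + ‖v‖ ^ 2)) * √(2 * (1 + ‖w‖ ^ 2)) =
      2 * √((1 + ‖v‖ ^ 2) * (1 + ‖w‖ ^ 2)) := by
    rw [← sqrt_mul (by positivity), show 2 * (1 + ‖v‖ ^ 2) * (2 * (1 + ‖w‖ ^ 2)) =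
      2 ^ 2 * ((1 + ‖v‖ ^ 2) * (1 + ‖w‖ ^ 2)) by ring, sqrt_mul (by norm_num),
      sqrt_sq (by norm_num)]
  have hs : 0 < √((1 + ‖v‖ ^ 2) * (1 + ‖w‖ ^ 2)) := sqrt_pos.2 (by positivity)
  have e2 : ‖e + v‖ / √(2 * (1 + ‖v‖ ^ 2)) * (‖e - w‖ / √(2 * (1 + ‖w‖ ^ 2))) -
      ‖e - v‖ / √(2 * (1 + ‖v‖ ^ 2)) * (‖e + w‖ / √(2 * (1 + ‖w‖ ^ 2))) =
      (‖(e + v) * (e - w)‖ - ‖(e - v) * (e + w)‖) /
        (2 * √((1 + ‖v‖ ^ 2) * (1 + ‖w‖ ^ 2))) := by
    rw [div_mul_div_comm, div_mul_div_comm, e1, ← sub_div, norm_mul, norm_mul]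
  rw [e2, abs_div, abs_of_pos (by positivity : (0:ℝ) < 2 * √((1 + ‖v‖ ^ 2) * (1 + ‖w‖ ^ 2))),
    div_le_div_iff₀ (by positivity) hs]
  have h1 := abs_norm_sub_norm_le ((e + v) * (e - w)) ((e - v) * (e + w))
  have h2 : (e + v) * (e - w) - (e - v) * (e + w) = 2 * e * (v - w) := by ring
  have h3' : ‖2 * e * (v - w)‖ = 2 * ‖v - w‖ := by
    rw [norm_mul, norm_mul, he, norm_e, Complex.norm_ofNat, mul_one]
  rw [h2, h3'] at h1
  have h3 : |‖(e + v) * (e - w)‖ - ‖(e - v) * (e + w)‖| ≤ 2 * ‖v - w‖ := h1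
  calc _ ≤ 2 * ‖v - w‖ * √((1 + ‖v‖ ^ 2) * (1 + ‖w‖ ^ 2)) :=
        mul_le_mul_of_nonneg_right h3 hs.le
    _ = _ := by ring

private theorem sqrt_ge {A B d : ℝ} (hA : 0 ≤ A) (hB : 0 ≤ B) (hd : 0 ≤ d) (h : d ≤ A + B)
    (h2 : d ≤ 2) : 1 + (d / 2) ^ 2 ≤ √((1 + A ^ 2) * (1 + B ^ 2)) := by
  apply le_sqrt_of_sq_le
  have e : (1 + A ^ 2) * (1 + B ^ 2) = (1 - A * B) ^ 2 + (A + B) ^ 2 := by ring
  rw [e]
  by_cases hS : 2 ≤ A + B
  · have h3 : d ^ 2 ≤ 4 := by nlinarith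
    have h4 : 1 + (d / 2) ^ 2 ≤ 2 := by nlinarith
    have h5 : (1 + (d / 2) ^ 2) ^ 2 ≤ 4 := by nlinarith [sq_nonneg (d / 2)]
    nlinarith [sq_nonneg (1 - A * B)]
  · push Not at hS
    have h3 : A * B ≤ ((A + B) / 2) ^ 2 := by nlinarith [sq_nonneg (A - B)]
    have h4 : ((A + B) / 2) ^ 2 ≤ 1 := by nlinarith
    have h5 : (1 - ((A + B) / 2) ^ 2) ^ 2 ≤ (1 - A * B) ^ 2 := by nlinarith
    have h6 : (1 + (d / 2) ^ 2) ^ 2 ≤ (1 + ((A + B) / 2) ^ 2) ^ 2 := by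
      have : (d / 2) ^ 2 ≤ ((A + B) / 2) ^ 2 := by
        apply pow_le_pow_left₀ (by linarith)
        linarith
      nlinarith [sq_nonneg (d / 2)]
    nlinarith

private theorem sin_two_arctan (y : ℝ) : sin (2 * arctan y) = 2 * y / (1 + y ^ 2) := by
  rw [sin_two_mul, sin_arctan, cos_arctan]
  have h : √(1 + y ^ 2) * √(1 + y ^ 2) = 1 + y ^ 2 := mul_self_sqrt (by positivity)
  have h0 : 0 < √(1 + y ^ 2) := sqrt_pos.2 (by positivity)
  rw [mul_assoc, div_mul_div_comm, h]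
  ring

private theorem arctan_le {y : ℝ} (hy : 0 ≤ y) : arctan y ≤ y := by
  rcases hy.eq_or_lt with h | h
  · rw [← h, arctan_zero]
  · have h1 := lt_tan (arctan_pos.2 h) (arctan_lt_pi_div_two y)
    rw [tan_arctan] at h1
    exact h1.le

private theorem al_sub (v w : ℂ) (σ : ℝ) : |al v σ - al w σ| ≤ ‖v - w‖ := by
  set d := ‖v - w‖ with hd
  have hd0 : 0 ≤ d := norm_nonneg _
  have h1 := al_mem v σ
  have h2 := al_mem w σ
  have hb : |al v σ - al w σ| ≤ π / 2 := by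
    rw [abs_le]
    constructor <;> linarith
  by_cases hd2 : π / 2 ≤ d
  · exact hb.trans hd2
  · push Not at hd2
    have hd3 : d ≤ 2 := by
      have := pi_le_four
      linarith
    have h3 := sin_al_sub v w σ
    rw [← hd] at h3
    have h4 : d ≤ ‖v‖ + ‖w‖ := norm_sub_le v w
    have h5 := sqrt_ge (norm_nonneg v) (norm_nonneg w) hd0 h4 hd3
    have h6 : |sin (al v σ - al w σ)| ≤ sin (2 * arctan (d / 2)) := by
      rw [sin_two_arctan]
      refine h3.trans ?_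
      rw [mul_div_cancel₀ _ (two_ne_zero)]
      exact div_le_div_of_nonneg_left hd0 (by positivity) h5
    have h7 : |sin (al v σ - al w σ)| = sin |al v σ - al w σ| := by
      rcases abs_cases (al v σ - al w σ) with ⟨ha, hb'⟩ | ⟨ha, hb'⟩
      · rw [ha, abs_of_nonneg]
        exact sin_nonneg_of_nonneg_of_le_pi hb' (by rw [← ha]; linarith [pi_pos])
      · rw [ha, sin_neg, abs_of_nonpos]
        exact sin_nonpos_of_nonpos_of_neg_pi_le hb'.le (by linarith [pi_pos])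
    rw [h7] at h6
    have h8 : arctan (d / 2) ≤ π / 4 := by
      rw [← arctan_one]
      exact arctan_mono (by linarith)
    have h9 : 0 ≤ arctan (d / 2) := arctan_nonneg.2 (by linarith)
    have h10 : |al v σ - al w σ| ≤ 2 * arctan (d / 2) := by
      by_contra hc
      push Not at hc
      have := sin_lt_sin_of_lt_of_le_pi_div_two (by linarith [pi_pos]) hb hc
      linarith
    have h11 := arctan_le (y := d / 2) (by linarith)
    linarith

theorem gx_xc_lip (σ : ℝ) : LipschitzWith 2 fun v : ℂ => gx (xc v) σ := by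
  refine LipschitzWith.of_dist_le_mul fun v w => ?_
  rw [Real.dist_eq, Complex.dist_eq]
  have h := al_sub v w σ
  have e : gx (xc v) σ - gx (xc w) σ = 2 * (al v σ - al w σ) := by
    unfold al
    ring
  rw [e, abs_mul, abs_two]
  have : ((2 : NNReal) : ℝ) = 2 := rfl
  rw [this]
  linarith

/-- The value at the pole. -/
theorem gx_xc_pole (σ : ℝ) : gx (xc (Complex.exp (σ * Complex.I))) σ = π / 2 := by
  have h : inn (Complex.exp (σ * Complex.I)) σ = 1 := by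
    unfold inn
    rw [Complex.exp_ofReal_mul_I_re, Complex.exp_ofReal_mul_I_im]
    have := sin_sq_add_cos_sq σ
    linear_combination this
  unfold gx
  rw [inn_xc, h, norm_e]
  norm_num

theorem gx_xc_anti (σ : ℝ) : gx (xc (-Complex.exp (σ * Complex.I))) σ = -(π / 2) := by
  have h : inn (-Complex.exp (σ * Complex.I)) σ = -1 := by
    unfold inn
    rw [Complex.neg_re, Complex.neg_im, Complex.exp_ofReal_mul_I_re, Complex.exp_ofReal_mul_I_im]
    have := sin_sq_add_cos_sq σ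
    linear_combination -this
  unfold gx
  rw [inn_xc, h, norm_neg, norm_e]
  norm_num

/-- `ψ(τ z) = -1 / conj ψ(z)` gives the antipodal point. -/
theorem gx_xc_antipode {v w : ℂ} (h : w * (starRingEnd ℂ) v = -1) (σ : ℝ) :
    gx (xc w) σ = -gx (xc v) σ := by
  have hv : v ≠ 0 := by
    rintro rfl
    rw [map_zero, mul_zero] at h
    norm_num at h
  have hn : 0 < ‖v‖ := norm_pos_iff.2 hv
  have hw : w = ((-(1 / ‖v‖ ^ 2) : ℝ) : ℂ) * v := by
    have h1 : w * ((starRingEnd ℂ) v * v) = -v := by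
      rw [← mul_assoc, h]
      ring
    have h2 : (starRingEnd ℂ) v * v = ((‖v‖ ^ 2 : ℝ) : ℂ) := by
      rw [mul_comm, Complex.mul_conj, Complex.sq_norm]
    rw [h2] at h1
    have h3 : ((‖v‖ ^ 2 : ℝ) : ℂ) ≠ 0 := by
      rw [Complex.ofReal_ne_zero]
      positivity
    have h4 : w = -v / ((‖v‖ ^ 2 : ℝ) : ℂ) := by
      rw [eq_div_iff h3]
      exact h1
    rw [h4]
    push_cast
    ring
  have hnw : ‖w‖ = 1 / ‖v‖ := by
    rw [hw, norm_mul, Complex.norm_real, Real.norm_eq_abs, abs_neg, abs_of_pos (by positivity)]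
    field_simp
  unfold gx
  rw [← arcsin_neg, inn_xc, inn_xc, hnw, hw, inn_smul]
  congr 1
  field_simp
  ring

end Pool.Agent.CC57
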