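import Pool.Agent.CC57.SphDer
import Pool.Agent.CC57.Avg

set_option autoImplicit false

/-!
`Gam (φ - c) X = avg ∮ (2φ - g(X)) (T(X))'`.  For each `σ`, at a.e. `θ` (where `X` is differentiable)
`DT (X θ) σ (X' θ) = deriv (fun θ => Tx (X θ) σ) θ` (`hasDerivAt_Tx_comp`), and
`∮ (2(φ - c) - g) T' = ∮ (2φ - g) T' - 2 c ∮ T'`, `∮ T' = 0` by periodicity (`θ ↦ Tx (X θ) σ` is Lipschitz by
`Tx_lip`; fundamental theorem for Lipschitz functions).
-/

open Real MeasureTheory Set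

namespace Pool.Agent.CC57

theorem gam_shift {X : ℝ → ℂ} {K : NNReal} (hX : LipschitzWith K X)
    (hXp : ∀ θ, X (θ + 2 * π) = X θ) (hXb : ∀ θ, ‖X θ‖ ≤ 1 / 2) {φ : ℝ → ℝ → ℝ} {c : ℝ → ℝ}
    (hφ : ∀ σ, Continuous (φ σ)) :
    Gam (fun σ θ => φ σ θ - c σ) X =
      avg (fun σ => ∫ θ in (0 : ℝ)..2 * π, (2 * φ σ θ - gx (X θ) σ) *
        deriv (fun θ => Tx (X θ) σ) θ) := by
  unfold Gam
  congr 1
  funext σ
  have hXc : Continuous X := hX.continuous
  have hTl : LipschitzWith (2 * K) (fun θ => Tx (X θ) σ) := by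
    refine LipschitzWith.of_dist_le_mul fun s t => ?_
    rw [Real.dist_eq]
    have h1 := Tx_lip (hXb s) (hXb t) σ
    have h2 := hX.dist_le_mul s t
    rw [dist_eq_norm] at h2
    have h3 : ((2 * K : NNReal) : ℝ) = 2 * (K : ℝ) := by
      rw [NNReal.coe_mul]; norm_num
    rw [h3]
    nlinarith
  have hac : AbsolutelyContinuousOnInterval (fun θ => Tx (X θ) σ) 0 (2 * π) :=
    (hTl.lipschitzOnWith).absolutelyContinuousOnInterval
  have hint : IntervalIntegrable (deriv (fun θ => Tx (X θ) σ)) volume 0 (2 * π) :=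
    hac.intervalIntegrable_deriv
  have hzero : ∫ θ in (0 : ℝ)..2 * π, deriv (fun θ => Tx (X θ) σ) θ = 0 := by
    rw [hac.integral_deriv_eq_sub]
    have h := hXp 0
    rw [zero_add] at h
    show Tx (X (2 * π)) σ - Tx (X 0) σ = 0
    rw [h, sub_self]
  have hg : Continuous (fun θ => gx (X θ) σ) :=
    continuous_gx.comp (hXc.prodMk continuous_const)
  have h1 : ∫ θ in (0 : ℝ)..2 * π,
        (2 * (φ σ θ - c σ) - gx (X θ) σ) * DT (X θ) σ (deriv X θ) =
      ∫ θ in (0 : ℝ)..2 * π, ((2 * φ σ θ - gx (X θ) σ) * deriv (fun θ => Tx (X θ) σ) θ -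
        2 * c σ * deriv (fun θ => Tx (X θ) σ) θ) := by
    apply intervalIntegral.integral_congr_ae
    filter_upwards [hX.ae_differentiableAt_real] with θ hθ _
    have h2 := hasDerivAt_Tx_comp hθ.hasDerivAt (lt_of_le_of_lt (hXb θ) (by norm_num)) σ
    rw [h2.deriv]
    ring
  have h2 : IntervalIntegrable
      (fun θ => (2 * φ σ θ - gx (X θ) σ) * deriv (fun θ => Tx (X θ) σ) θ) volume 0 (2 * π) :=
    hint.continuousOn_mul (((continuous_const.mul (hφ σ)).sub hg).continuousOn)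
  have h3 : IntervalIntegrable
      (fun θ => 2 * c σ * deriv (fun θ => Tx (X θ) σ) θ) volume 0 (2 * π) :=
    hint.const_mul _
  show ∫ θ in (0 : ℝ)..2 * π,
        (2 * (φ σ θ - c σ) - gx (X θ) σ) * DT (X θ) σ (deriv X θ) = _
  rw [h1, intervalIntegral.integral_sub h2 h3, intervalIntegral.integral_const_mul, hzero,
    mul_zero, sub_zero]

end Pool.Agent.CC57
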