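import Mathlib

set_option autoImplicit false

/-!
Inversion of `z ↦ z + B z` on a strip, `‖B‖ ≤ 1/16`, `B` with Lipschitz constant `1/4` on `|Re z| ≤ 3`.
For `|Re z| ≤ 19/8` the map `l ↦ z - B l` maps the closed ball of radius `1/8` around `z` (which lies in
`|Re| ≤ 5/2`) to itself and is a contraction: a unique fixed point (`ContractingWith` on the complete
subset, e.g. `ContractingWith.exists_fixedPoint'`).  Any solution `l` of `l + B l = z` in `|Re l| ≤ 3`
satisfies `‖l - z‖ ≤ 1/16` and two solutions coincide as `‖l - l'‖ = ‖B l' - B l‖ ≤ ‖l - l'‖/4`.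
`inv_lip`: `(3/4)‖om z - om z'‖ ≤ ‖z - z'‖`.
`differentiableAt`: `om` is continuous near `z`, `l ↦ l + B l` has at `om z` the derivative
`1 + B'(om z) ≠ 0` (`‖B'‖ ≤ 1/4`), and `om` is locally a right inverse:
`HasDerivAt.of_local_left_inverse`.  Mathlib only.
-/

open Set

namespace Pool.Agent.CC57

theorem re_lt_aux {l z : ℂ} {a b : ℝ} (hz : |z.re| ≤ a) (h : ‖l - z‖ ≤ b) : |l.re| ≤ a + b := by
  have h1 : |l.re - z.re| ≤ b := by
    have := Complex.abs_re_le_norm (l - z)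
    rw [Complex.sub_re] at this
    exact this.trans h
  have h2 : l.re = z.re + (l.re - z.re) := by ring
  rw [h2]
  exact (abs_add_le _ _).trans (add_le_add hz h1)

theorem exists_inv {B : ℂ → ℂ} (hB : ∀ z : ℂ, |z.re| ≤ 3 → ‖B z‖ ≤ 1 / 16)
    (hL : ∀ z w : ℂ, |z.re| ≤ 3 → |w.re| ≤ 3 → ‖B z - B w‖ ≤ 1 / 4 * ‖z - w‖) {z : ℂ}
    (hz : |z.re| ≤ 19 / 8) : ∃ l : ℂ, ‖l - z‖ ≤ 1 / 16 ∧ l + B l = z := by
  have hre : ∀ l ∈ Metric.closedBall z (1 / 8), |l.re| ≤ 3 := by
    intro l hl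
    rw [Metric.mem_closedBall, dist_eq_norm] at hl
    have := re_lt_aux hz hl
    linarith
  have hmap : MapsTo (fun l => z - B l) (Metric.closedBall z (1 / 8))
      (Metric.closedBall z (1 / 8)) := by
    intro l hl
    have h1 := hB l (hre l hl)
    rw [Metric.mem_closedBall, dist_eq_norm]
    have h2 : z - B l - z = -B l := by ring
    rw [h2, norm_neg]
    linarith
  have hc : ContractingWith (1 / 4) (hmap.restrict (fun l => z - B l) _ _) := by
    refine ⟨?_, LipschitzWith.of_dist_le_mul ?_⟩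
    · rw [← NNReal.coe_lt_coe]
      push_cast
      norm_num
    · rintro ⟨l, hl⟩ ⟨l', hl'⟩
      have h1 := hL l' l (hre l' hl') (hre l hl)
      rw [Subtype.dist_eq, Subtype.dist_eq]
      simp only [MapsTo.val_restrict_apply]
      rw [dist_eq_norm, dist_eq_norm]
      have h2 : z - B l - (z - B l') = B l' - B l := by ring
      rw [h2, norm_sub_rev l l']
      refine h1.trans (le_of_eq ?_)
      push_cast
      ring
  obtain ⟨l, hl, hfix, -⟩ := hc.exists_fixedPoint' (Metric.isClosed_closedBall.isComplete) hmap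
    (Metric.mem_closedBall_self (by norm_num)) (edist_ne_top _ _)
  have h3 : z - B l = l := hfix
  refine ⟨l, ?_, ?_⟩
  · have h4 : l - z = -B l := by rw [← h3]; ring_nf; rw [h3]
    rw [h4, norm_neg]
    exact hB l (hre l hl)
  · calc l + B l = (z - B l) + B l := by rw [h3]
      _ = z := by ring

theorem inv_lip {B : ℂ → ℂ}
    (hL : ∀ z w : ℂ, |z.re| ≤ 3 → |w.re| ≤ 3 → ‖B z - B w‖ ≤ 1 / 4 * ‖z - w‖) {l l' : ℂ}
    (hl : |l.re| ≤ 3) (hl' : |l'.re| ≤ 3) :
    ‖l - l'‖ ≤ 4 / 3 * ‖(l + B l) - (l' + B l')‖ := by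
  have h1 := hL l l' hl hl'
  have h2 : l - l' = ((l + B l) - (l' + B l')) - (B l - B l') := by ring
  have h3 : ‖l - l'‖ ≤ ‖(l + B l) - (l' + B l')‖ + ‖B l - B l'‖ := by
    calc ‖l - l'‖ = ‖((l + B l) - (l' + B l')) - (B l - B l')‖ := by rw [← h2]
      _ ≤ _ := norm_sub_le _ _
  linarith

theorem inv_unique {B : ℂ → ℂ}
    (hL : ∀ z w : ℂ, |z.re| ≤ 3 → |w.re| ≤ 3 → ‖B z - B w‖ ≤ 1 / 4 * ‖z - w‖) {l l' : ℂ}
    (hl : |l.re| ≤ 3) (hl' : |l'.re| ≤ 3) (h : l + B l = l' + B l') : l = l' := by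
  have h1 := inv_lip hL hl hl'
  rw [h, sub_self, norm_zero, mul_zero] at h1
  exact sub_eq_zero.mp (norm_le_zero_iff.mp h1)

theorem inv_differentiableAt {B om : ℂ → ℂ} (hB : ∀ z : ℂ, |z.re| ≤ 3 → ‖B z‖ ≤ 1 / 16)
    (hL : ∀ z w : ℂ, |z.re| ≤ 3 → |w.re| ≤ 3 → ‖B z - B w‖ ≤ 1 / 4 * ‖z - w‖)
    (hd : ∀ z : ℂ, |z.re| < 3 → DifferentiableAt ℂ B z)
    (hom : ∀ z : ℂ, |z.re| ≤ 19 / 8 → ‖om z - z‖ ≤ 1 / 16 ∧ om z + B (om z) = z) {z : ℂ}
    (hz : |z.re| < 19 / 8) : DifferentiableAt ℂ om z := by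
  have hre : ∀ w : ℂ, |w.re| ≤ 19 / 8 → |(om w).re| < 3 := by
    intro w hw
    have := re_lt_aux hw (hom w hw).1
    linarith
  have hopen : IsOpen {w : ℂ | |w.re| < 19 / 8} :=
    isOpen_lt (Complex.continuous_re.abs) continuous_const
  have hev : ∀ᶠ w in nhds z, |w.re| < 19 / 8 := hopen.mem_nhds hz
  have hcont : ContinuousAt om z := by
    rw [Metric.continuousAt_iff]
    intro ε hε
    obtain ⟨δ, hδ, hball⟩ := Metric.eventually_nhds_iff.mp hev
    refine ⟨min δ (ε / 2), lt_min hδ (by linarith), fun {w} hw => ?_⟩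
    have hw1 : |w.re| < 19 / 8 := hball (lt_of_lt_of_le hw (min_le_left _ _))
    have hw2 : dist w z < ε / 2 := lt_of_lt_of_le hw (min_le_right _ _)
    have h1 := inv_lip hL (hre w hw1.le).le (hre z hz.le).le
    rw [(hom w hw1.le).2, (hom z hz.le).2] at h1
    rw [dist_eq_norm] at hw2 ⊢
    linarith
  have hz3 := hre z hz.le
  have hB1 : HasDerivAt B (deriv B (om z)) (om z) := (hd _ hz3).hasDerivAt
  have hnorm : ‖deriv B (om z)‖ ≤ 1 / 4 := by
    refine norm_deriv_le_of_lip' (by norm_num) ?_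
    have hopen3 : IsOpen {w : ℂ | |w.re| < 3} :=
      isOpen_lt (Complex.continuous_re.abs) continuous_const
    filter_upwards [hopen3.mem_nhds hz3] with w hw
    exact hL w (om z) (le_of_lt hw) hz3.le
  have hne : (1 : ℂ) + deriv B (om z) ≠ 0 := by
    intro h
    have h1 : deriv B (om z) = -1 := by
      calc deriv B (om z) = (1 + deriv B (om z)) - 1 := by ring
        _ = -1 := by rw [h]; ring
    rw [h1, norm_neg, norm_one] at hnorm
    norm_num at hnorm
  have hf : HasDerivAt (fun l : ℂ => l + B l) (1 + deriv B (om z)) (om z) :=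
    (hasDerivAt_id _).add hB1
  refine (HasDerivAt.of_local_left_inverse hcont hf hne ?_).differentiableAt
  filter_upwards [hev] with w hw
  exact (hom w hw.le).2

end Pool.Agent.CC57
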