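import Pool.Agent.CC57.PsiLog
import Pool.Agent.CC57.InvMap

set_option autoImplicit false

/-!
Existence of the gauge maps.  Choose `ε₀` so small that `ε ≤ ε₀`, `e^{-y} ≤ ε₀` imply `Small y ε` (and
`y ≥ 5`).  `om b z` is the solution `l` of `l + Bf b y l = z` given by `exists_inv` for
`∑ ‖b i‖² ≤ ε²`, `|Re z| ≤ 19/8`.  The fields of `IsGauge`:
* `diff`: `psi` is a quotient of entire functions, and `‖As‖ ≤ 13/10 ε e^{-y} e^{5} < 1` for `Re z < 5/2`
  (`norm_As_le`, as `5/2 ≤ y`).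
* `per`: `psi_per`.
* `small`: for `-y ≤ x ≤ -1/2`: `‖e^z (1 + Af)‖ ≤ e^x + 13/10 ε e^{-y-x} ≤ e^{-1/2} + 13/10 ε`,
  `‖1 + As‖ ≥ 1 - 1/100`; `e^{-1/2} < 0.61`.
* `tiny`: for `-y ≤ x ≤ -y+1`: `‖e^z (1+Af)‖ ≤ e · e^{-y} + 13/10 ε`.
* `om_diff`: `inv_differentiableAt`.  `om_per`, `om_tau`: uniqueness (`inv_unique`), `Bf_per`, `Bf_tau`:
  with `l = om z`, `tau l + Bf (tau l) = -conj l + iπ - conj (Bf l) = tau z`.
* `om_near`: `1/16 ≤ 1/8`.  `psi_om`: `exp_add_Bf`.
* `om_surj`: for `|Re l| ≤ 3/2` put `z = l + Bf l`, `|Re z| ≤ 2`, and `om z = l` by uniqueness.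
* Continuity: with `l = om b z`, `l' = om b' z'`, `inv_lip` for `Bf b` gives
  `‖l - l'‖ ≤ (4/3) ‖z - (l' + Bf b l')‖ ≤ (4/3)(‖z - z'‖ + ‖Bf b' l' - Bf b l'‖)`, and `Bf b l' → Bf b' l'`
  as `b → b'` by `continuousOn_Bf`.
-/

open Real MeasureTheory Set

namespace Pool.Agent.CC57

/-- A continuous family of gauge maps. -/
structure GaugeFam (K : ℕ) (y ε : ℝ) (om : (Fin K → ℂ) → ℂ → ℂ) : Prop where
  gauge : ∀ b : Fin K → ℂ, ∑ i, ‖b i‖ ^ 2 ≤ ε ^ 2 → IsGauge y (psi b y) (om b)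
  cont : ContinuousOn (fun p : (Fin K → ℂ) × ℂ => om p.1 p.2)
    {p | ∑ i, ‖p.1 i‖ ^ 2 ≤ ε ^ 2 ∧ |p.2.re| ≤ 2}

theorem psi_norm_aux {K : ℕ} {b : Fin K → ℂ} {y ε : ℝ} (hs : Small y ε)
    (hb : ∑ i, ‖b i‖ ^ 2 ≤ ε ^ 2) {z : ℂ} (h1 : -y ≤ z.re) (h2 : z.re ≤ 5 / 2) :
    ‖As b y z‖ ≤ 1 / 100 ∧ ‖psi b y z‖ ≤ (rexp z.re + 13 / 10 * ε) / (99 / 100) := by
  obtain ⟨hε, hy, hsm⟩ := hs
  have hA := norm_Af_le hε hb h1
  have hS := norm_As_le hε hb (z := z) (y := y) (by linarith)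
  have hS2 : ‖As b y z‖ ≤ 1 / 100 := by
    refine hS.trans (le_trans ?_ hsm)
    refine mul_le_mul_of_nonneg_left ?_ (by positivity)
    exact Real.exp_le_exp.mpr (by linarith)
  refine ⟨hS2, ?_⟩
  have hnum : ‖Complex.exp z * (1 + Af b y z)‖ ≤ rexp z.re + 13 / 10 * ε := by
    rw [norm_mul, Complex.norm_exp]
    have h3 : ‖1 + Af b y z‖ ≤ 1 + 13 / 10 * ε * rexp (-y) * rexp (-2 * z.re) := by
      refine (norm_add_le _ _).trans ?_
      rw [norm_one]
      linarith
    have h4 : rexp z.re * (rexp (-y) * rexp (-2 * z.re)) ≤ 1 := by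
      rw [← Real.exp_add, ← Real.exp_add, Real.exp_le_one_iff]
      linarith
    calc rexp z.re * ‖1 + Af b y z‖ ≤
        rexp z.re * (1 + 13 / 10 * ε * rexp (-y) * rexp (-2 * z.re)) :=
          mul_le_mul_of_nonneg_left h3 (Real.exp_pos _).le
      _ = rexp z.re + 13 / 10 * ε * (rexp z.re * (rexp (-y) * rexp (-2 * z.re))) := by ring
      _ ≤ rexp z.re + 13 / 10 * ε * 1 := by
          have := mul_le_mul_of_nonneg_left h4 (by positivity : 0 ≤ 13 / 10 * ε)
          linarith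
      _ = _ := by ring
  have hden : 99 / 100 ≤ ‖1 + As b y z‖ := by
    have h5 : ‖(1 : ℂ)‖ - ‖-As b y z‖ ≤ ‖1 - -As b y z‖ := norm_sub_norm_le _ _
    rw [norm_one, norm_neg, sub_neg_eq_add] at h5
    linarith
  unfold psi
  rw [norm_div]
  exact div_le_div₀ (by positivity) hnum (by norm_num) hden

theorem exists_gaugeFam : ∃ ε₀ : ℝ, 0 < ε₀ ∧ ∀ (K : ℕ) (y ε : ℝ), 0 ≤ ε → ε ≤ ε₀ →
    rexp (-y) ≤ ε₀ → ∃ om : (Fin K → ℂ) → ℂ → ℂ, GaugeFam K y ε om := by
  refine ⟨rexp (-8), Real.exp_pos _, fun K y ε hε hε1 hy => ?_⟩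
  have hy8 : 8 ≤ y := by
    have := Real.exp_le_exp.mp hy
    linarith
  have he1 : (2 : ℝ) ≤ rexp 1 := by
    have := Real.add_one_le_exp (1 : ℝ)
    linarith
  have he7 : rexp (-7) ≤ 1 / 128 := by
    have h1 : (2 : ℝ) ^ 7 ≤ rexp 1 ^ 7 := pow_le_pow_left₀ (by norm_num) he1 _
    rw [← Real.exp_nat_mul] at h1
    rw [Real.exp_neg, one_div]
    refine inv_anti₀ (by norm_num) ?_
    norm_num at h1 ⊢
    exact h1
  have he8 : rexp (-8) ≤ 1 / 256 := by
    have h1 : (2 : ℝ) ^ 8 ≤ rexp 1 ^ 8 := pow_le_pow_left₀ (by norm_num) he1 _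
    rw [← Real.exp_nat_mul] at h1
    rw [Real.exp_neg, one_div]
    refine inv_anti₀ (by norm_num) ?_
    norm_num at h1 ⊢
    exact h1
  have he10 : rexp (-10) ≤ 1 / 1024 := by
    have h1 : (2 : ℝ) ^ 10 ≤ rexp 1 ^ 10 := pow_le_pow_left₀ (by norm_num) he1 _
    rw [← Real.exp_nat_mul] at h1
    rw [Real.exp_neg, one_div]
    refine inv_anti₀ (by norm_num) ?_
    norm_num at h1 ⊢
    exact h1
  have hs : Small y ε := by
    refine ⟨hε, by linarith, ?_⟩
    have h1 : ε * rexp (-y) ≤ rexp (-8) * rexp (-8) :=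
      mul_le_mul hε1 hy (Real.exp_pos _).le (Real.exp_pos _).le
    have h2 : rexp (-8) * rexp (-8) * rexp 6 = rexp (-10) := by
      rw [← Real.exp_add, ← Real.exp_add]
      norm_num
    have h3 : ε * rexp (-y) * rexp 6 ≤ rexp (-10) := by
      rw [← h2]
      exact mul_le_mul_of_nonneg_right h1 (Real.exp_pos _).le
    have h4 : 13 / 10 * ε * rexp (-y) * rexp 6 = 13 / 10 * (ε * rexp (-y) * rexp 6) := by ring
    rw [h4]
    linarith
  have hex : ∀ (b : Fin K → ℂ) (z : ℂ), ∃ l : ℂ, ∑ i, ‖b i‖ ^ 2 ≤ ε ^ 2 → |z.re| ≤ 19 / 8 →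
      ‖l - z‖ ≤ 1 / 16 ∧ l + Bf b y l = z := by
    intro b z
    by_cases hb : ∑ i, ‖b i‖ ^ 2 ≤ ε ^ 2
    · by_cases hz : |z.re| ≤ 19 / 8
      · obtain ⟨l, hl⟩ := exists_inv (B := Bf b y) (fun z hz => norm_Bf_le hs hb hz)
          (fun z w hz hw => Bf_lip hs hb hz hw) hz
        exact ⟨l, fun _ _ => hl⟩
      · exact ⟨0, fun _ h => absurd h hz⟩
    · exact ⟨0, fun h => absurd h hb⟩
  choose om hom using hex
  have hre : ∀ (b : Fin K → ℂ) (z : ℂ), ∑ i, ‖b i‖ ^ 2 ≤ ε ^ 2 → |z.re| ≤ 19 / 8 →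
      |(om b z).re| ≤ 3 := by
    intro b z hb hz
    have := re_lt_aux hz (hom b z hb hz).1
    linarith
  refine ⟨om, ⟨fun b hb => ?_, ?_⟩⟩
  · have hB : ∀ z : ℂ, |z.re| ≤ 3 → ‖Bf b y z‖ ≤ 1 / 16 := fun z hz => norm_Bf_le hs hb hz
    have hL : ∀ z w : ℂ, |z.re| ≤ 3 → |w.re| ≤ 3 → ‖Bf b y z - Bf b y w‖ ≤ 1 / 4 * ‖z - w‖ :=
      fun z w hz hw => Bf_lip hs hb hz hw
    refine ⟨by linarith, ?_, psi_per b y, ?_, ?_, ?_, ?_, ?_, ?_, ?_, ?_⟩
    · intro z hz
      have hSn : ‖As b y z‖ < 1 := by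
        have hS := norm_As_le hε hb (z := z) (y := y) (by linarith)
        refine lt_of_le_of_lt (hS.trans ?_) (by norm_num : (1 / 100 : ℝ) < 1)
        refine le_trans ?_ hs.2.2
        refine mul_le_mul_of_nonneg_left ?_ (by positivity)
        exact Real.exp_le_exp.mpr (by linarith)
      have hne : 1 + As b y z ≠ 0 := by
        intro h
        have h1 : As b y z = -1 := by
          calc As b y z = (1 + As b y z) - 1 := by ring
            _ = -1 := by rw [h]; ring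
        rw [h1, norm_neg, norm_one] at hSn
        exact lt_irrefl _ hSn
      have h1 : DifferentiableAt ℂ (fun z => Complex.exp z * (1 + Af b y z)) z :=
        Complex.differentiable_exp.differentiableAt.mul
          ((differentiableAt_const _).add (differentiable_Af b y).differentiableAt)
      have h2 : DifferentiableAt ℂ (fun z => 1 + As b y z) z :=
        (differentiableAt_const _).add (differentiable_As b y).differentiableAt
      exact h1.div h2 hne
    · intro z h1 h2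
      obtain ⟨-, h3⟩ := psi_norm_aux hs hb h1 (by linarith)
      have h4 : rexp z.re ≤ 61 / 100 := by
        have h5 : rexp z.re ≤ rexp (-1 / 2) := Real.exp_le_exp.mpr h2
        have h6 : rexp (-1 / 2) ^ 2 = rexp (-1) := by
          rw [← Real.exp_nat_mul]
          norm_num
        have h7 : rexp (-1) < 0.3678794412 := Real.exp_neg_one_lt_d9
        norm_num at h7
        have h8 : |rexp (-1 / 2)| ≤ 61 / 100 := by
          refine abs_le_of_sq_le_sq ?_ (by norm_num)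
          rw [h6]
          norm_num
          linarith
        exact h5.trans ((le_abs_self _).trans h8)
      refine h3.trans ?_
      rw [div_le_iff₀ (by norm_num)]
      linarith
    · intro z h1 h2
      obtain ⟨-, h3⟩ := psi_norm_aux hs hb h1 (by linarith)
      have h4 : rexp z.re ≤ 1 / 128 :=
        (Real.exp_le_exp.mpr (by linarith)).trans he7
      refine h3.trans ?_
      rw [div_le_iff₀ (by norm_num)]
      linarith
    · intro z hz
      exact inv_differentiableAt hB hL (fun z hz => differentiableAt_Bf hs hb hz.le)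
        (fun z hz => hom b z hb hz) (by linarith)
    · intro z hz
      have hz' : |(z + 2 * π * Complex.I).re| ≤ 19 / 8 := by
        have : (z + 2 * π * Complex.I).re = z.re := by simp
        rw [this]
        linarith
      have hr : |(om b z + 2 * π * Complex.I).re| ≤ 3 := by
        have : (om b z + 2 * π * Complex.I).re = (om b z).re := by simp
        rw [this]
        exact hre b z hb (by linarith)
      refine inv_unique hL (hre b _ hb hz') hr ?_
      rw [(hom b _ hb hz').2, Bf_per]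
      have := (hom b z hb (by linarith)).2
      linear_combination -this
    · intro z hz
      exact (hom b z hb (by linarith)).1.trans (by norm_num)
    · intro z hz
      have hz' : |(tau z).re| ≤ 19 / 8 := by
        rw [tau_re, abs_neg]
        linarith
      have hr : |(tau (om b z)).re| ≤ 3 := by
        rw [tau_re, abs_neg]
        exact hre b z hb (by linarith)
      refine inv_unique hL (hre b _ hb hz') hr ?_
      rw [(hom b _ hb hz').2, Bf_tau hs hb (hre b z hb (by linarith))]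
      have := congrArg (starRingEnd ℂ) (hom b z hb (by linarith)).2
      rw [map_add] at this
      unfold tau
      linear_combination this
    · intro z hz
      rw [← exp_add_Bf hs hb (hre b z hb (by linarith)), (hom b z hb (by linarith)).2]
    · intro l hl
      have h1 : |(l + Bf b y l).re| ≤ 3 / 2 + 1 / 16 := by
        refine re_lt_aux hl ?_
        have : l + Bf b y l - l = Bf b y l := by ring
        rw [this]
        exact hB l (by linarith)
      refine ⟨l + Bf b y l, by linarith, ?_⟩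
      exact inv_unique hL (hre b _ hb (by linarith)) (by linarith)
        (hom b _ hb (by linarith)).2
  · intro p hp
    obtain ⟨hb, hz⟩ := hp
    have hl := hom p.1 p.2 hb (by linarith)
    set l := om p.1 p.2 with hldef
    have hlre : |l.re| ≤ 3 := hre p.1 p.2 hb (by linarith)
    have hcB : ContinuousWithinAt (fun q : (Fin K → ℂ) × ℂ => Bf q.1 y l)
        {p | ∑ i, ‖p.1 i‖ ^ 2 ≤ ε ^ 2 ∧ |p.2.re| ≤ 2} p := by
      have h1 := continuousOn_Bf (K := K) hs (p.1, l) ⟨hb, hlre⟩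
      have h2 : ContinuousWithinAt (fun q : (Fin K → ℂ) × ℂ => (q.1, l))
          {p | ∑ i, ‖p.1 i‖ ^ 2 ≤ ε ^ 2 ∧ |p.2.re| ≤ 2} p :=
        (continuous_fst.prodMk continuous_const).continuousWithinAt
      exact ContinuousWithinAt.comp (x := p) (f := fun q : (Fin K → ℂ) × ℂ => (q.1, l))
        (g := fun q : (Fin K → ℂ) × ℂ => Bf q.1 y q.2)
        (t := {p : (Fin K → ℂ) × ℂ | ∑ i, ‖p.1 i‖ ^ 2 ≤ ε ^ 2 ∧
        |p.2.re| ≤ 3}) h1 h2 fun q hq => ⟨hq.1, hlre⟩
    have hg : ContinuousWithinAt (fun q : (Fin K → ℂ) × ℂ => 4 / 3 * ‖q.2 - (l + Bf q.1 y l)‖)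
        {p | ∑ i, ‖p.1 i‖ ^ 2 ≤ ε ^ 2 ∧ |p.2.re| ≤ 2} p :=
      continuousWithinAt_const.mul ((continuous_snd.continuousWithinAt.sub
        (continuousWithinAt_const.add hcB)).norm)
    have hg0 : Filter.Tendsto (fun q : (Fin K → ℂ) × ℂ => 4 / 3 * ‖q.2 - (l + Bf q.1 y l)‖)
        (nhdsWithin p {p | ∑ i, ‖p.1 i‖ ^ 2 ≤ ε ^ 2 ∧ |p.2.re| ≤ 2}) (nhds 0) := by
      have h3 := hg.tendsto
      rw [hl.2, sub_self, norm_zero, mul_zero] at h3
      exact h3
    have hd : Filter.Tendsto (fun q : (Fin K → ℂ) × ℂ => om q.1 q.2 - l)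
        (nhdsWithin p {p | ∑ i, ‖p.1 i‖ ^ 2 ≤ ε ^ 2 ∧ |p.2.re| ≤ 2}) (nhds 0) := by
      refine squeeze_zero_norm' ?_ hg0
      filter_upwards [self_mem_nhdsWithin] with q hq
      have h4 := inv_lip (B := Bf q.1 y) (fun z w hz hw => Bf_lip hs hq.1 hz hw)
        (hre q.1 q.2 hq.1 (by linarith [hq.2])) hlre
      rw [(hom q.1 q.2 hq.1 (by linarith [hq.2])).2] at h4
      exact h4
    have h5 := hd.add_const l
    simp only [sub_add_cancel, zero_add] at h5
    exact h5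

end Pool.Agent.CC57
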