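import Pool.Agent.CC57.GenW
import Pool.Agent.H65G.Gamma

set_option autoImplicit false

/-!
Copy of the last part of `Pool.Agent.H65G.Gamma` for a general family `h`, with `η = 1`.
-/

open Real Set MeasureTheory Metric Filter Topology
open scoped RealInnerProductSpace

namespace Pool.Agent.CC57

open Pool.Agent.H65G

variable {d : ℕ} {X : Type} [MetricSpace X] {k : ℝ} {h : Sph (d + 1) → X → ℝ}

/-- The map `Γ_s : X → ℝ^n`. -/
noncomputable def gamf (k : ℝ) (h : Sph (d + 1) → X → ℝ) (s : Sph (d + 1)) (x : X) : E (d + 1) :=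
  ((d + 1 : ℝ) * h s x) • (s : E (d + 1)) + Pool.Agent.H65G.psi d s (wfam k h x)

theorem exists_lip_gamf (hk0 : 0 < k) (hk : k < 1) (hh : HFam k h) :
    ∃ K : ℝ, 0 ≤ K ∧ ∀ (s : Sph (d + 1)) (x y : X),
      ‖gamf k h s x - gamf k h s y‖ ≤ K * dist x y := by
  obtain ⟨K, hK0, hK⟩ := exists_lip_psi d (d : ℝ) hk
  refine ⟨(d + 1) + K * (d + 1), by positivity, fun s x y => ?_⟩
  have hs : ‖(s : E (d + 1))‖ = 1 := by simp
  have h1 := hK s _ _ (wfam_spec hk0 hh x).1 (wfam_spec hk0 hh y).1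
  have h2 := norm_wfam_sub_le hk0 hk hh x y
  have h3 := hh.lip s x y
  have h4 : gamf k h s x - gamf k h s y =
      ((d + 1 : ℝ) * (h s x - h s y)) • (s : E (d + 1)) +
      (Pool.Agent.H65G.psi d s (wfam k h x) - Pool.Agent.H65G.psi d s (wfam k h y)) := by
    unfold gamf
    rw [mul_sub, sub_smul]
    abel
  rw [h4]
  refine (norm_add_le _ _).trans ?_
  have h5 : ‖((d + 1 : ℝ) * (h s x - h s y)) • (s : E (d + 1))‖ ≤ (d + 1) * dist x y := by
    rw [norm_smul, hs, mul_one, norm_mul, Real.norm_eq_abs, Real.norm_eq_abs,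
      abs_of_nonneg (by positivity : (0 : ℝ) ≤ d + 1)]
    gcongr
  calc _ ≤ (d + 1) * dist x y + K * ((d + 1) * dist x y) := by
        refine add_le_add h5 (h1.trans ?_)
        gcongr
    _ = _ := by ring

theorem continuous_gamf (hk0 : 0 < k) (hk : k < 1) (hh : HFam k h) :
    Continuous fun p : Sph (d + 1) × X => gamf k h p.1 p.2 := by
  have h1 : Continuous fun p : Sph (d + 1) × X => h p.1 p.2 := hh.cont
  have h2 := continuous_wfam hk0 hk hh
  have h3 := continuousOn_psi (d := d) (d : ℝ) hk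
  have h4 : Continuous fun p : Sph (d + 1) × X => (p.1, wfam k h p.2) :=
    continuous_fst.prodMk (h2.comp continuous_snd)
  have key : ∀ P : Sph (d + 1) → E (d + 1) → E (d + 1),
      ContinuousOn (fun p : Sph (d + 1) × E (d + 1) => P p.1 p.2) (univ ×ˢ closedBall 0 k) →
      Continuous fun p : Sph (d + 1) × X => P p.1 (wfam k h p.2) := by
    intro P hP
    have h6 := hP.comp_continuous h4 fun p => ⟨mem_univ _,
      mem_closedBall_zero_iff.2 (wfam_spec hk0 hh p.2).1⟩
    exact h6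
  have h5 := key _ h3
  have h7 : Continuous fun p : Sph (d + 1) × X =>
      ((d + 1 : ℝ) * h p.1 p.2) • (p.1 : E (d + 1)) :=
    (continuous_const.mul h1).smul (by fun_prop)
  exact h7.add h5

end Pool.Agent.CC57
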