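import Pool.Agent.CC57.GenGam
import Pool.Agent.H65G.CubeInt

set_option autoImplicit false

/-!
Copy of `Pool.Agent.H65G.CubeBound` and `Pool.Agent.H65G.CubeInt` for a general family `h`, `η = 1`:
replace `gext k₁ γ s` by `h s`, `wfun k k₁ γ` by `wfam k h`, `zfun k₁ γ` by `zfam h`, `gam k k₁ γ` by
`gamf k h`, `eta d k k₁` by `1`.  The pointwise bound is `H65G.point_bound` with `η = 1` (the derivative
of `gamf` in a chart is `lmap w 1 M u s` where `d / 1 = d`); `lmap`, `dzh`, `point_bound`, `sq_fderiv_le`,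
`ae_interior_cube`, `exists_det_bound`, `integrable_sqrt_det`, `posSemidef_of`, `quad_eq`,
`continuous_qt`, ... can be used unchanged.
-/

open Real Set MeasureTheory Metric Filter Topology Matrix
open scoped RealInnerProductSpace

namespace Pool.Agent.CC57

open Pool.Agent.H65G

variable {d : ℕ} {X : Type} [MetricSpace X] {k : ℝ} {h : Sph (d + 1) → X → ℝ}
  {q : E (d + 1) → X} {G : E (d + 1) → Matrix (Fin (d + 1)) (Fin (d + 1)) ℝ}

/-- `h_s` in the chart. -/
noncomputable def hchf (h : Sph (d + 1) → X → ℝ) (q : E (d + 1) → X) (s : Sph (d + 1))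
    (p : E (d + 1)) : ℝ := h s (qt q p)

/-- `Γ_s` in the chart. -/
noncomputable def fchf (k : ℝ) (h : Sph (d + 1) → X → ℝ) (q : E (d + 1) → X) (s : Sph (d + 1))
    (p : E (d + 1)) : E (d + 1) := gamf k h s (qt q p)

theorem continuous_hchf (hh : HFam k h) (hq : IsRiemannianCube q G) :
    Continuous (Function.uncurry (hchf h q)) := by
  have h1 := hh.cont
  have h2 : Continuous fun p : Sph (d + 1) × E (d + 1) => (p.1, qt q p.2) :=
    continuous_fst.prodMk ((continuous_qt hq).comp continuous_snd)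
  exact h1.comp h2

theorem continuous_fchf (hk0 : 0 < k) (hk : k < 1) (hh : HFam k h)
    (hq : IsRiemannianCube q G) :
    Continuous (Function.uncurry (fchf k h q)) := by
  have h1 := continuous_gamf hk0 hk hh
  have h2 : Continuous fun p : Sph (d + 1) × E (d + 1) => (p.1, qt q p.2) :=
    continuous_fst.prodMk ((continuous_qt hq).comp continuous_snd)
  exact h1.comp h2

theorem lip_hchf (hh : HFam k h) (hq : IsRiemannianCube q G) {L : ℝ} (hL0 : 0 ≤ L)
    (hL : ∀ p ∈ cube (d + 1), ∀ ξ, quad (G p) ξ ≤ L ^ 2 * ‖ξ‖ ^ 2) (s : Sph (d + 1)) :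
    LipschitzWith (Real.toNNReal L) (hchf h q s) := by
  apply LipschitzWith.of_dist_le_mul
  intro x y
  rw [Real.coe_toNNReal _ hL0, Real.dist_eq, dist_eq_norm]
  exact (hh.lip s _ _).trans (dist_qt_le hq hL0 hL x y)

/-- The set of good pairs `(p, s)`. -/
theorem ae_ae_differentiable_fam (hh : HFam k h) (hq : IsRiemannianCube q G) :
    ∀ᵐ p ∂(volume : Measure (E (d + 1))), ∀ᵐ s ∂(sigma (d + 1)),
      DifferentiableAt ℝ (hchf h q s) p := by
  obtain ⟨L, hL0, hL⟩ := exists_bound hq.continuousOn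
  have hm : MeasurableSet {p : Sph (d + 1) × E (d + 1) | DifferentiableAt ℝ (hchf h q p.1) p.2} :=
    measurableSet_of_differentiableAt_with_param ℝ (continuous_hchf hh hq)
  have h1 : ∀ᵐ s ∂(sigma (d + 1)), ∀ᵐ p ∂(volume : Measure (E (d + 1))),
      DifferentiableAt ℝ (hchf h q s) p :=
    Eventually.of_forall fun s => (lip_hchf hh hq hL0 hL s).ae_differentiableAt
  have hsf : SFinite (sigma (d + 1)) := inferInstance
  have hsf' : SFinite (volume : Measure (E (d + 1))) := inferInstance
  have h2 : ∀ᵐ z ∂((sigma (d + 1)).prod (volume : Measure (E (d + 1)))),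
      DifferentiableAt ℝ (hchf h q z.1) z.2 := (Measure.ae_prod_iff_ae_ae hm).2 h1
  have h3 : ∀ᵐ z ∂((volume : Measure (E (d + 1))).prod (sigma (d + 1))),
      DifferentiableAt ℝ (hchf h q z.2) z.1 := by
    have h4 := (Measure.measurePreserving_swap (μ := (volume : Measure (E (d + 1))))
      (ν := sigma (d + 1))).quasiMeasurePreserving.ae h2
    exact h4
  exact Measure.ae_ae_of_ae_prod h3

theorem hasFDerivAt_zchf (hh : HFam k h) (hq : IsRiemannianCube q G) {p : E (d + 1)}
    (hp : ∀ᵐ s ∂(sigma (d + 1)), DifferentiableAt ℝ (hchf h q s) p) :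
    Integrable (fun s : Sph (d + 1) => (fderiv ℝ (hchf h q s) p).smulRight (s : E (d + 1)))
      (sigma (d + 1)) ∧
    HasFDerivAt (fun p => zfam h (qt q p))
      (∫ s : Sph (d + 1), (fderiv ℝ (hchf h q s) p).smulRight (s : E (d + 1)) ∂(sigma (d + 1)))
      p := by
  obtain ⟨L, hL0, hL⟩ := exists_bound hq.continuousOn
  have hmeas : Measurable fun s : Sph (d + 1) => fderiv ℝ (hchf h q s) p := by
    have h1 := measurable_fderiv_with_param ℝ (continuous_hchf hh hq)
    exact h1.comp (measurable_id.prodMk measurable_const)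
  have key := hasFDerivAt_integral_of_dominated_loc_of_lip (μ := sigma (d + 1))
    (F := fun (p : E (d + 1)) (s : Sph (d + 1)) => hchf h q s p • (s : E (d + 1)))
    (F' := fun s : Sph (d + 1) => (fderiv ℝ (hchf h q s) p).smulRight (s : E (d + 1)))
    (x₀ := p) (s := univ) (bound := fun _ => L) Filter.univ_mem ?_ ?_ ?_ ?_ (integrable_const _) ?_
  · refine ⟨key.1, ?_⟩
    have h2 : (fun p => zfam h (qt q p)) = fun p => ∫ s : Sph (d + 1),
        hchf h q s p • (s : E (d + 1)) ∂(sigma (d + 1)) := by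
      ext1 p
      simp only [zfam, hchf]
    rw [h2]
    exact key.2
  · refine Eventually.of_forall fun x => ?_
    exact (integrable_zfam hh (qt q x)).aestronglyMeasurable
  · exact integrable_zfam hh (qt q p)
  · have h3 : Measurable fun s : Sph (d + 1) =>
        (ContinuousLinearMap.smulRightL ℝ (E (d + 1)) (E (d + 1)) (fderiv ℝ (hchf h q s) p))
          (s : E (d + 1)) := by
      have hR : Continuous fun z : (E (d + 1) →L[ℝ] ℝ) × E (d + 1) =>
          ContinuousLinearMap.smulRightL ℝ (E (d + 1)) (E (d + 1)) z.1 z.2 := by fun_prop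
      exact hR.measurable.comp (hmeas.prodMk measurable_subtype_coe)
    exact h3.aestronglyMeasurable
  · refine Eventually.of_forall fun s => ?_
    have h4 : LipschitzWith (Real.nnabs L) fun x => hchf h q s x • (s : E (d + 1)) := by
      apply LipschitzWith.of_dist_le_mul
      intro x y
      have hs : ‖(s : E (d + 1))‖ = 1 := by simp
      rw [dist_eq_norm, ← sub_smul, norm_smul, hs, mul_one, Real.coe_nnabs, abs_of_nonneg hL0]
      have := (lip_hchf hh hq hL0 hL s).dist_le_mul x y
      rwa [Real.coe_toNNReal _ hL0, Real.dist_eq] at this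
    exact h4.lipschitzOnWith
  · filter_upwards [hp] with s hs
    exact hs.hasFDerivAt.smul_const _

/-- The derivative of `Γ_s` in the chart. -/
theorem hasFDerivAt_fchf (hk0 : 0 < k) (hk : k < 1) (hh : HFam k h) {p : E (d + 1)}
    {s : Sph (d + 1)}
    (hp : DifferentiableAt ℝ (hchf h q s) p)
    (hw : DifferentiableAt ℝ (fun p => wfam k h (qt q p)) p) :
    HasFDerivAt (fchf k h q s)
      (lmap (wfam k h (qt q p)) 1 (fderiv ℝ (fun p => wfam k h (qt q p)) p)
        ((InnerProductSpace.toDual ℝ (E (d + 1))).symm (fderiv ℝ (hchf h q s) p)) s) p := by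
  have hwn : ‖wfam k h (qt q p)‖ < 1 :=
    lt_of_le_of_lt (wfam_spec hk0 hh (qt q p)).1 hk
  have h1 := (hp.hasFDerivAt.const_mul (d + 1 : ℝ)).smul_const (s : E (d + 1))
  have h2 := (hasFDerivAt_psi (d : ℝ) hwn s).comp p hw.hasFDerivAt
  have h3 := h1.add h2
  have h4 : fchf k h q s = (fun p => ((d + 1 : ℝ) * hchf h q s p) • (s : E (d + 1))) +
      (Pool.Agent.H65G.psi (d : ℝ) s ∘ fun p => wfam k h (qt q p)) := by
    ext1 p
    simp only [fchf, gamf, hchf, Pi.add_apply, Function.comp_apply]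
  rw [h4]
  refine h3.congr_fderiv ?_
  ext ξ i
  simp only [lmap, dpsi]
  simp
  ring

/-- The pointwise bound in the chart. -/
theorem chart_bound_fam (hd : 1 ≤ d) (hk0 : 0 < k) (hk : k < 1)
    (hcrit : ∀ r, 0 ≤ r → r ≤ k → Crit d r)
    (hh : HFam k h) (hq : IsRiemannianCube q G) {p : E (d + 1)}
    (hpi : p ∈ interior (cube (d + 1)))
    (hp : ∀ᵐ s ∂(sigma (d + 1)), DifferentiableAt ℝ (hchf h q s) p)
    (hw : DifferentiableAt ℝ (fun p => wfam k h (qt q p)) p) :
    ∫ s, (fderiv ℝ (fchf k h q s) p).det ∂(sigma (d + 1)) ≤ √(G p).det := by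
  obtain ⟨L, hL0, hL⟩ := exists_bound hq.continuousOn
  obtain ⟨hzi, hz⟩ := hasFDerivAt_zchf hh hq hp
  have hwn : ‖wfam k h (qt q p)‖ < 1 :=
    lt_of_le_of_lt (wfam_spec hk0 hh (qt q p)).1 hk
  set M := fderiv ℝ (fun p => wfam k h (qt q p)) p with hM
  set w := wfam k h (qt q p) with hwdef
  set u : Sph (d + 1) → E (d + 1) := fun s =>
    (InnerProductSpace.toDual ℝ (E (d + 1))).symm (fderiv ℝ (hchf h q s) p) with hu
  have hmeas : Measurable fun s : Sph (d + 1) => fderiv ℝ (hchf h q s) p := by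
    have h1 := measurable_fderiv_with_param ℝ (continuous_hchf hh hq)
    exact h1.comp (measurable_id.prodMk measurable_const)
  have hum : Measurable u :=
    ((InnerProductSpace.toDual ℝ (E (d + 1))).symm.continuous.measurable).comp hmeas
  have hub : ∀ s, ‖u s‖ ≤ L := by
    intro s
    simp only [hu, LinearIsometryEquiv.norm_map]
    have := norm_fderiv_le_of_lipschitz ℝ (x₀ := p) (lip_hchf hh hq hL0 hL s)
    rwa [Real.coe_toNNReal _ hL0] at this
  have hui : ∀ s ξ, ⟪u s, ξ⟫ = fderiv ℝ (hchf h q s) p ξ := by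
    intro s ξ
    simp only [hu]
    exact InnerProductSpace.toDual_symm_apply
  -- the relation between the derivatives
  have hrel : ∀ ξ, (∫ s, dzh w s ∂(sigma (d + 1))) (M ξ) =
      (1 : ℝ) • ∫ s, ⟪u s, ξ⟫ • (s : E (d + 1)) ∂(sigma (d + 1)) := by
    have h1 : HasFDerivAt (fun p => zh (wfam k h (qt q p)))
        ((∫ s, dzh w s ∂(sigma (d + 1))).comp M) p :=
      HasFDerivAt.comp (g := zh) (f := fun p => wfam k h (qt q p)) p (hasFDerivAt_zh hwn)
        hw.hasFDerivAt
    have h2 : (fun p => zh (wfam k h (qt q p))) = fun p => zfam h (qt q p) := by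
      ext1 p
      exact (wfam_spec hk0 hh (qt q p)).2
    rw [h2] at h1
    have h3 := h1.unique hz
    intro ξ
    have h4 := DFunLike.congr_fun h3 ξ
    simp only [ContinuousLinearMap.comp_apply] at h4
    rw [h4, ContinuousLinearMap.integral_apply hzi, one_smul]
    simp only [ContinuousLinearMap.smulRight_apply, hui]
  -- a.e. equality of the integrands
  have hae : (fun s => (fderiv ℝ (fchf k h q s) p).det) =ᵐ[sigma (d + 1)]
      fun s => (lmap w 1 M (u s) s).det := by
    filter_upwards [hp] with s hs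
    rw [(hasFDerivAt_fchf hk0 hk hh hs hw).fderiv]
  rw [integral_congr_ae hae]
  refine (le_abs_self _).trans ?_
  have key := point_bound hd hwn (hcrit _ (norm_nonneg _) (wfam_spec hk0 hh (qt q p)).1)
    (one_pos : (0 : ℝ) < 1) hum hub hrel (posSemidef_of hq (interior_subset hpi)) ?_
  · simpa using key
  intro s ξ
  have h5 := sq_fderiv_le hq (g := h s) (hh.lip s) hpi (WithLp.toLp 2 ξ)
  rw [quad_eq] at h5
  have h6 : (fun i => u s i) ⬝ᵥ ξ = fderiv ℝ (h s ∘ qt q) p (WithLp.toLp 2 ξ) := by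
    have h7 := hui s (WithLp.toLp 2 ξ)
    rw [inner_eq_dot] at h7
    exact h7
  rw [h6]
  exact h5

theorem norm_fderiv_fchf_le (hk0 : 0 < k) (hk : k < 1) (hh : HFam k h)
    (hq : IsRiemannianCube q G) :
    ∃ C : ℝ, ∀ s p, ‖fderiv ℝ (fchf k h q s) p‖ ≤ C := by
  obtain ⟨L, hL0, hL⟩ := exists_bound hq.continuousOn
  obtain ⟨K, hK0, hK⟩ := exists_lip_gamf hk0 hk hh
  refine ⟨K * L, fun s p => ?_⟩
  have hl : LipschitzWith (Real.toNNReal (K * L)) (fchf k h q s) := by
    apply LipschitzWith.of_dist_le_mul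
    intro x y
    rw [Real.coe_toNNReal _ (by positivity), dist_eq_norm, dist_eq_norm]
    refine (hK s _ _).trans ?_
    rw [mul_assoc]
    exact mul_le_mul_of_nonneg_left (dist_qt_le hq hL0 hL x y) hK0
  have := norm_fderiv_le_of_lipschitz ℝ (x₀ := p) hl
  rwa [Real.coe_toNNReal _ (by positivity)] at this

theorem integrable_det_fchf (hk0 : 0 < k) (hk : k < 1) (hh : HFam k h)
    (hq : IsRiemannianCube q G) :
    Integrable (fun z : Sph (d + 1) × E (d + 1) => (fderiv ℝ (fchf k h q z.1) z.2).det)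
      ((sigma (d + 1)).prod ((volume : Measure (E (d + 1))).restrict (cube (d + 1)))) := by
  obtain ⟨C, hC⟩ := norm_fderiv_fchf_le hk0 hk hh hq
  obtain ⟨B, hB⟩ := exists_det_bound (d + 1) C
  have hfin : IsFiniteMeasure ((volume : Measure (E (d + 1))).restrict (cube (d + 1))) :=
    ⟨by rw [Measure.restrict_apply_univ]; exact (isCompact_cube (d + 1)).measure_lt_top⟩
  have hsf : IsFiniteMeasure (sigma (d + 1)) := inferInstance
  have hm : Measurable fun z : Sph (d + 1) × E (d + 1) =>
      (fderiv ℝ (fchf k h q z.1) z.2).det :=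
    (ContinuousLinearMap.continuous_det (𝕜 := ℝ) (E := E (d + 1))).measurable.comp
      (measurable_fderiv_with_param ℝ (continuous_fchf hk0 hk hh hq))
  exact Integrable.mono' (integrable_const B) hm.aestronglyMeasurable
    (Eventually.of_forall fun z => hB _ (hC _ _))

theorem ae_differentiable_wchf (hk0 : 0 < k) (hk : k < 1) (hh : HFam k h)
    (hq : IsRiemannianCube q G) :
    ∀ᵐ p ∂(volume : Measure (E (d + 1))), DifferentiableAt ℝ (fun p => wfam k h (qt q p)) p := by
  obtain ⟨L, hL0, hL⟩ := exists_bound hq.continuousOn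
  have hl : LipschitzWith (Real.toNNReal ((d + 1) * L)) (fun p => wfam k h (qt q p)) := by
    apply LipschitzWith.of_dist_le_mul
    intro x y
    rw [Real.coe_toNNReal _ (by positivity), dist_eq_norm, dist_eq_norm]
    refine (norm_wfam_sub_le hk0 hk hh _ _).trans ?_
    rw [mul_assoc (d + 1 : ℝ)]
    exact mul_le_mul_of_nonneg_left (dist_qt_le hq hL0 hL x y) (by positivity)
  exact hl.ae_differentiableAt

theorem fderiv_gamf_q (s : Sph (d + 1)) {p : E (d + 1)}
    (hp : p ∈ interior (cube (d + 1))) :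
    fderiv ℝ (gamf k h s ∘ q) p = fderiv ℝ (fchf k h q s) p := by
  have h1 := eventually_qt (q := q) (gamf k h s) hp
  exact h1.symm.fderiv_eq

theorem integral_gamf_q (s : Sph (d + 1)) :
    ∫ p in cube (d + 1), (fderiv ℝ (gamf k h s ∘ q) p).det =
      ∫ p in cube (d + 1), (fderiv ℝ (fchf k h q s) p).det := by
  refine integral_congr_ae ?_
  filter_upwards [ae_interior_cube (d + 1)] with p hp
  rw [fderiv_gamf_q s hp]

/-- The bound for a cube. -/
theorem cube_bound_fam (hd : 1 ≤ d) (hk0 : 0 < k) (hk : k < 1)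
    (hcrit : ∀ r, 0 ≤ r → r ≤ k → Crit d r) (hh : HFam k h) (hq : IsRiemannianCube q G) :
    Integrable (fun s => ∫ p in cube (d + 1), (fderiv ℝ (gamf k h s ∘ q) p).det)
      (sigma (d + 1)) ∧
    ∫ s, (∫ p in cube (d + 1), (fderiv ℝ (gamf k h s ∘ q) p).det) ∂(sigma (d + 1)) ≤
      cubeVolume G := by
  have hfin : IsFiniteMeasure ((volume : Measure (E (d + 1))).restrict (cube (d + 1))) :=
    ⟨by rw [Measure.restrict_apply_univ]; exact (isCompact_cube (d + 1)).measure_lt_top⟩
  have hsf : IsFiniteMeasure (sigma (d + 1)) := inferInstance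
  have hi := integrable_det_fchf hk0 hk hh hq
  simp only [integral_gamf_q]
  refine ⟨hi.integral_prod_left, ?_⟩
  have hsw := integral_integral_swap (μ := sigma (d + 1))
    (ν := (volume : Measure (E (d + 1))).restrict (cube (d + 1)))
    (f := fun s p => (fderiv ℝ (fchf k h q s) p).det) hi
  rw [hsw, cubeVolume]
  refine integral_mono_ae hi.integral_prod_right (integrable_sqrt_det hq) ?_
  filter_upwards [ae_interior_cube (d + 1), ae_restrict_of_ae (ae_ae_differentiable_fam hh hq),
    ae_restrict_of_ae (ae_differentiable_wchf hk0 hk hh hq)] with p hp1 hp2 hp3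
  exact chart_bound_fam hd hk0 hk hcrit hh hq hp1 hp2 hp3

end Pool.Agent.CC57
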