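import Pool.Agent.H65G.ZFun

set_option autoImplicit false

/-!
Copy of `Pool.Agent.H65G.ZFun` (and of `continuous_wfun`) for a general family `h` of functions instead
of `gext k₁ γ`, with `η = 1`.  `‖zfam h x‖ ≤ sup |h s x| ≤ rho d k` (norm of the integral of a function
bounded by `rho d k` on a probability space), so `zh_surj` applies.
-/

open Real Set MeasureTheory Metric Filter Topology
open scoped RealInnerProductSpace

namespace Pool.Agent.CC57

open Pool.Agent.H65G

variable {d : ℕ} {X : Type} [MetricSpace X]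

/-- A jointly continuous family of small 1-Lipschitz functions. -/
structure HFam (k : ℝ) (h : Sph (d + 1) → X → ℝ) : Prop where
  cont : Continuous (Function.uncurry h)
  lip : ∀ s x y, |h s x - h s y| ≤ dist x y
  bdd : ∀ s x, |h s x| ≤ rho d k

/-- `Z(x) = ∫ h_s(x) s`. -/
noncomputable def zfam (h : Sph (d + 1) → X → ℝ) (x : X) : E (d + 1) :=
  ∫ s : Sph (d + 1), h s x • (s : E (d + 1)) ∂(sigma (d + 1))

open Classical in
/-- The point with `zh w = Z(x)`. -/
noncomputable def wfam (k : ℝ) (h : Sph (d + 1) → X → ℝ) (x : X) : E (d + 1) :=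
  if H : ∃ w : E (d + 1), ‖w‖ ≤ k ∧ zh w = zfam h x then H.choose else 0

variable {k : ℝ} {h : Sph (d + 1) → X → ℝ}

theorem continuous_dir (hh : HFam k h) (x : X) : Continuous fun s : Sph (d + 1) => h s x := by
  have h2 : Continuous fun s : Sph (d + 1) => (s, x) := by fun_prop
  exact hh.cont.comp h2

theorem integrable_zfam (hh : HFam k h) (x : X) :
    Integrable (fun s : Sph (d + 1) => h s x • (s : E (d + 1))) (sigma (d + 1)) :=
  integrable_of_cont ((continuous_dir hh x).smul continuous_subtype_val)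

theorem norm_zfam_sub_le (hh : HFam k h) (x y : X) : ‖zfam h x - zfam h y‖ ≤ dist x y := by
  unfold zfam
  rw [← integral_sub (integrable_zfam hh x) (integrable_zfam hh y)]
  have h1 : ∀ᵐ s ∂(sigma (d + 1)), ‖h s x • (s : E (d + 1)) -
      h s y • (s : E (d + 1))‖ ≤ dist x y := by
    refine Eventually.of_forall fun s => ?_
    have hs : ‖(s : E (d + 1))‖ = 1 := by simp
    rw [← sub_smul, norm_smul, hs, mul_one]
    exact hh.lip s x y
  have := norm_integral_le_of_norm_le_const h1
  simpa using this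

theorem norm_zfam_le (hh : HFam k h) (x : X) : ‖zfam h x‖ ≤ rho d k := by
  unfold zfam
  have h1 : ∀ᵐ s ∂(sigma (d + 1)), ‖h s x • (s : E (d + 1))‖ ≤ rho d k := by
    refine Eventually.of_forall fun s => ?_
    have hs : ‖(s : E (d + 1))‖ = 1 := by simp
    rw [norm_smul, hs, mul_one]
    exact hh.bdd s x
  have := norm_integral_le_of_norm_le_const h1
  simpa using this

theorem wfam_spec (hk0 : 0 < k) (hh : HFam k h) (x : X) :
    ‖wfam k h x‖ ≤ k ∧ zh (wfam k h x) = zfam h x := by
  have H : ∃ w : E (d + 1), ‖w‖ ≤ k ∧ zh w = zfam h x := zh_surj hk0.le (norm_zfam_le hh x)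
  unfold wfam
  rw [dif_pos H]
  exact H.choose_spec

theorem norm_wfam_sub_le (hk0 : 0 < k) (hk : k < 1) (hh : HFam k h) (x y : X) :
    ‖wfam k h x - wfam k h y‖ ≤ (d + 1) * dist x y := by
  obtain ⟨h1, h2⟩ := wfam_spec hk0 hh x
  obtain ⟨h3, h4⟩ := wfam_spec hk0 hh y
  have h5 := zh_expand (h1.trans hk.le) (h3.trans hk.le)
  rw [h2, h4] at h5
  have h6 := norm_zfam_sub_le hh x y
  have h7 : (0 : ℝ) < d + 1 := by positivity
  calc _ ≤ (d + 1) * ‖zfam h x - zfam h y‖ := h5
    _ ≤ (d + 1) * dist x y := by gcongr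

theorem continuous_wfam (hk0 : 0 < k) (hk : k < 1) (hh : HFam k h) :
    Continuous (wfam k h) := by
  have h1 : LipschitzWith (Real.toNNReal ((d + 1 : ℝ))) (wfam k h) := by
    apply LipschitzWith.of_dist_le_mul
    intro x y
    rw [Real.coe_toNNReal _ (by positivity), dist_eq_norm]
    exact norm_wfam_sub_le hk0 hk hh x y
  exact h1.continuous

end Pool.Agent.CC57
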