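import Pool.Agent.CC57.HalfArea

set_option autoImplicit false

/-!
Areas.  `F = lam²` is continuous, nonnegative, periodic and `tau`-invariant on `|Re z| ≤ L`.
* `area_split`: for `0 ≤ y ≤ L`, `Cell (-L) L` is the disjoint union of `Cell (-L) (-y)`,
  `Cell (-y) y` and `Cell y L`; the integrals over the first and the last coincide by `int_cell_tau`
  (apply it to `F` times the indicator of `|Re z| ≤ L` or note that only `|Re z| ≤ L` matters, the
  boundary lines are null sets).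
* `good_circle`: if `∫_{Cell (-L) L} F < 4π` then `∫_{Cell (-L) (-(H + L₀/2))} F < 2π` by `area_split`, so
  `∫_{H+L₀/2}^{H+L₀} (∮ F(pt (-y) θ) dθ) dy < 2π` (`integral_cell`, substitution `x = -y`) and some `y` has
  `∮ ≤ 2π / (L₀/2)`.
-/

open Real MeasureTheory Set

namespace Pool.Agent.CC57

private theorem intb {F : ℂ → ℝ} (hF : Continuous F) (a b : ℝ) : IntegrableOn F (Cell a b) := by
  have hsub : Cell a b ⊆ Set.Icc a b ×ℂ Set.Icc 0 (2 * π) := by
    intro z hz
    obtain ⟨h1, h2, h3, h4⟩ := hz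
    exact ⟨⟨h1.le, h2⟩, ⟨h3.le, h4⟩⟩
  have hcomp : IsCompact (Set.Icc a b ×ℂ Set.Icc (0 : ℝ) (2 * π)) :=
    isCompact_Icc.reProdIm isCompact_Icc
  exact (hF.continuousOn.integrableOn_compact hcomp).mono_set hsub

private theorem cell_union {a b c : ℝ} (hab : a ≤ b) (hbc : b ≤ c) :
    Cell a c = Cell a b ∪ Cell b c := by
  ext z
  simp only [Cell, mem_union, mem_ofPred_eq]
  constructor
  · rintro ⟨h1, h2, h3⟩
    rcases le_or_gt z.re b with h | h
    · exact Or.inl ⟨h1, h, h3⟩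
    · exact Or.inr ⟨h, h2, h3⟩
  · rintro (⟨h1, h2, h3⟩ | ⟨h1, h2, h3⟩)
    · exact ⟨h1, h2.trans hbc, h3⟩
    · exact ⟨hab.trans_lt h1, h2, h3⟩

private theorem cell_disj (a b c : ℝ) : Disjoint (Cell a b) (Cell b c) := by
  rw [Set.disjoint_left]
  intro z h1 h2
  exact absurd h1.2.1 (not_le.2 h2.1)

private theorem int_union {F : ℂ → ℝ} (hF : Continuous F) {a b c : ℝ} (hab : a ≤ b)
    (hbc : b ≤ c) : ∫ z in Cell a c, F z = (∫ z in Cell a b, F z) + ∫ z in Cell b c, F z := by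
  rw [cell_union hab hbc]
  exact setIntegral_union (cell_disj a b c) (measurableSet_cell b c) (intb hF _ _) (intb hF _ _)

theorem area_split {L y : ℝ} (hy : 0 ≤ y) (hyL : y ≤ L) {F : ℂ → ℝ} (hF : Continuous F)
    (hp : ∀ z, F (z + 2 * π * Complex.I) = F z)
    (ht : ∀ z : ℂ, |z.re| ≤ L → F (tau z) = F z) :
    1 / 2 * ∫ z in Cell (-L) L, F z = 1 / 2 * (∫ z in Cell (-y) y, F z) +
      ∫ z in Cell (-L) (-y), F z := by
  have h1 : ∫ z in Cell (-L) L, F z = (∫ z in Cell (-L) (-y), F z) +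
      ((∫ z in Cell (-y) y, F z) + ∫ z in Cell y L, F z) := by
    rw [int_union hF (b := -y) (by linarith) (by linarith),
      int_union hF (a := -y) (b := y) (by linarith) hyL]
  have h2 := int_cell_tau hF.measurable hp (-L) (-y)
  rw [neg_neg, neg_neg] at h2
  have h3 : ∫ z in Cell (-L) (-y), F (tau z) = ∫ z in Cell (-L) (-y), F z := by
    apply setIntegral_congr_fun (measurableSet_cell _ _)
    intro z hz
    apply ht
    rw [abs_le]
    exact ⟨hz.1.le, by linarith [hz.2.1]⟩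
  rw [h1, ← h2, h3]
  ring

theorem good_circle {L H L₀ : ℝ} (hH : 0 ≤ H) (hL₀ : 0 < L₀) (hL : H + L₀ ≤ L) {F : ℂ → ℝ}
    (hF : Continuous F) (h0 : ∀ z, 0 ≤ F z) (hp : ∀ z, F (z + 2 * π * Complex.I) = F z)
    (ht : ∀ z : ℂ, |z.re| ≤ L → F (tau z) = F z)
    (hlt : 1 / 2 * ∫ z in Cell (-L) L, F z < 2 * π) :
    ∃ y : ℝ, H + L₀ / 2 < y ∧ y < H + L₀ ∧
      ∫ θ in (0 : ℝ)..2 * π, F (pt (-y) θ) ≤ 4 * π / L₀ := by
  by_contra hcon
  push Not at hcon
  have h1 := area_split (L := L) (y := H + L₀ / 2) (by linarith) (by linarith) hF hp ht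
  have h2 : 0 ≤ ∫ z in Cell (-(H + L₀ / 2)) (H + L₀ / 2), F z :=
    setIntegral_nonneg (measurableSet_cell _ _) fun z _ => h0 z
  have h3 : ∫ z in Cell (-L) (-(H + L₀ / 2)), F z < 2 * π := by linarith
  have h4 := int_union hF (a := -L) (b := -(H + L₀)) (c := -(H + L₀ / 2)) (by linarith)
    (by linarith)
  have h5 : 0 ≤ ∫ z in Cell (-L) (-(H + L₀)), F z :=
    setIntegral_nonneg (measurableSet_cell _ _) fun z _ => h0 z
  have h6 := integral_cell (a := -(H + L₀)) (b := -(H + L₀ / 2)) (by linarith) (intb hF _ _)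
  have hc : Continuous fun x : ℝ => ∫ θ in (0 : ℝ)..2 * π, F (pt x θ) := by
    apply intervalIntegral.continuous_parametric_intervalIntegral_of_continuous'
      (f := fun x θ => F (pt x θ))
    apply hF.comp
    unfold pt
    fun_prop
  have h7 : ∫ x in (-(H + L₀))..(-(H + L₀ / 2)), 4 * π / L₀ ≤
      ∫ x in (-(H + L₀))..(-(H + L₀ / 2)), ∫ θ in (0 : ℝ)..2 * π, F (pt x θ) := by
    apply intervalIntegral.integral_mono_on_of_le_Ioo (by linarith)
    · exact continuous_const.intervalIntegrable _ _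
    · exact hc.intervalIntegrable _ _
    · intro x hx
      have := hcon (-x) (by linarith [hx.2]) (by linarith [hx.1])
      rw [neg_neg] at this
      exact this.le
  rw [intervalIntegral.integral_const, smul_eq_mul] at h7
  have h8 : (-(H + L₀ / 2) - -(H + L₀)) * (4 * π / L₀) = 2 * π := by
    field_simp
    ring
  rw [h8] at h7
  linarith

end Pool.Agent.CC57
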