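import Pool.Agent.CC57.PhiS
import Pool.Agent.CC57.Ann

set_option autoImplicit false

/-!
The family on `X`: `hX σ x = max (-1/4) (min (1/4) (Phat (p σ) x - c σ))`, with `p`, `c` continuous,
`|Re p σ| ≤ 1`, `p (σ + 2π) = p σ + 2πi`, `c (σ + 2π) = c σ`.
Joint continuity: `|Phat (p σ) x - Phat (p σ') x'| ≤ M ‖p σ - p σ'‖ + dist x x'` (`Phat_seg`,
`exists_lam_bound`, `Phat_lip_x`).  The clamp is 1-Lipschitz.  Periodicity: `Phat_per`.
`isAnn`: the part `-L ≤ Re z ≤ -y` of the strip, `H ≤ y < L`, is contained in `D` (`clean`); `seg_le_dist`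
on this convex set (the filter `nhdsWithin z {-L ≤ Re ≤ -y}` is smaller than the one in `lip`, as the set
is contained in `D ∩ {|Re| ≤ L}`), `per`.
-/

open Real MeasureTheory Set

namespace Pool.Agent.CC57

variable {X : Type} [MetricSpace X]
  {γ : Metric.sphere (0 : EuclideanSpace ℝ (Fin 2)) 1 → X} {F : X → X → ℝ} {L H : ℝ}
  {lam : ℂ → ℝ} {D : Set ℂ} {Ψ : ℂ → X}

/-- The clamped functions on `X`. -/
noncomputable def hX (F : X → X → ℝ) (D : Set ℂ) (Ψ : ℂ → X) (p : ℝ → ℂ) (c : ℝ → ℝ) (σ : ℝ)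
    (x : X) : ℝ := max (-(1 / 4)) (min (1 / 4) (Phat F D Ψ (p σ) x - c σ))

private theorem clamp4_lip (a b : ℝ) :
    |max (-(1 / 4)) (min (1 / 4) a) - max (-(1 / 4)) (min (1 / 4) b)| ≤ |a - b| := by
  refine (abs_max_sub_max_le_max _ _ _ _).trans ?_
  rw [sub_self, abs_zero, max_eq_right (abs_nonneg _)]
  refine (abs_min_sub_min_le_max _ _ _ _).trans ?_
  rw [sub_self, abs_zero, max_eq_right (abs_nonneg _)]

private theorem clamp4_abs (a : ℝ) : |max (-(1 / 4)) (min (1 / 4) a)| ≤ 1 / 4 := by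
  rw [abs_le]
  exact ⟨le_max_left _ _, max_le (by norm_num) (min_le_left _ _)⟩

private theorem Phat_lip_p (hC : IsCollar γ L H lam D Ψ) (hF : IsF γ F) {M : ℝ}
    (hM : ∀ z : ℂ, |z.re| ≤ L → lam z ≤ M) {p p' : ℂ} (hp : |p.re| ≤ L) (hp' : |p'.re| ≤ L)
    (x : X) : |Phat F D Ψ p' x - Phat F D Ψ p x| ≤ M * ‖p' - p‖ := by
  refine (Phat_seg hC hF hp hp' x).trans ?_
  refine mul_le_mul_of_nonneg_right ?_ (norm_nonneg _)
  have hcont : Continuous fun t : ℝ => lam (p + t * (p' - p)) := by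
    have := hC.lam_cont
    fun_prop
  have h1 : ∫ t in (0 : ℝ)..1, lam (p + t * (p' - p)) ≤ ∫ _ in (0 : ℝ)..1, M := by
    refine intervalIntegral.integral_mono_on zero_le_one (hcont.intervalIntegrable _ _)
      (continuous_const.intervalIntegrable _ _) ?_
    intro t ht
    apply hM
    have e : (p + t * (p' - p)).re = (1 - t) * p.re + t * p'.re := by
      simp
      ring
    rw [e]
    rw [abs_le] at hp hp' ⊢
    have h0 := ht.1
    have h1 := ht.2
    constructor <;> nlinarith [hp.1, hp.2, hp'.1, hp'.2]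
  simpa using h1

theorem hX_facts (hC : IsCollar γ L H lam D Ψ) (hF : IsF γ F) (hL : 1 ≤ L) {p : ℝ → ℂ}
    {c : ℝ → ℝ} (hp : Continuous p) (hc : Continuous c) (hp1 : ∀ σ, |(p σ).re| ≤ 1)
    (hpp : ∀ σ, p (σ + 2 * π) = p σ + 2 * π * Complex.I) (hcp : ∀ σ, c (σ + 2 * π) = c σ) :
    Continuous (Function.uncurry (hX F D Ψ p c)) ∧
    (∀ σ x, hX F D Ψ p c (σ + 2 * π) x = hX F D Ψ p c σ x) ∧
    (∀ σ x x', |hX F D Ψ p c σ x - hX F D Ψ p c σ x'| ≤ dist x x') ∧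
    (∀ σ x, |hX F D Ψ p c σ x| ≤ 1 / 4) := by
  have hpL : ∀ σ, |(p σ).re| ≤ L := fun σ => (hp1 σ).trans hL
  refine ⟨?_, ?_, ?_, fun σ x => clamp4_abs _⟩
  · obtain ⟨M, hM0, hM⟩ := exists_lam_bound hC
    have h1 : Continuous fun q : ℝ × X => Phat F D Ψ (p q.1) q.2 := by
      rw [continuous_iff_continuousAt]
      rintro ⟨σ, x⟩
      rw [ContinuousAt, tendsto_iff_dist_tendsto_zero]
      have h2 : Filter.Tendsto (fun q : ℝ × X => M * ‖p q.1 - p σ‖ + dist q.2 x) (nhds (σ, x))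
          (nhds 0) := by
        have h3 : Continuous fun q : ℝ × X => M * ‖p q.1 - p σ‖ + dist q.2 x := by fun_prop
        have h4 := h3.tendsto (σ, x)
        simpa using h4
      refine squeeze_zero (fun q => dist_nonneg) (fun q => ?_) h2
      rw [Real.dist_eq]
      have h5 := Phat_lip_p hC hF hM (hpL σ) (hpL q.1) q.2
      have h6 := Phat_lip_x (D := D) (Ψ := Ψ) hF (p σ) q.2 x
      calc |Phat F D Ψ (p q.1) q.2 - Phat F D Ψ (p σ) x|
          = |(Phat F D Ψ (p q.1) q.2 - Phat F D Ψ (p σ) q.2) +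
            (Phat F D Ψ (p σ) q.2 - Phat F D Ψ (p σ) x)| := by ring_nf
        _ ≤ _ := (abs_add_le _ _).trans (add_le_add h5 h6)
    have h2 : Function.uncurry (hX F D Ψ p c) = fun q : ℝ × X =>
        max (-(1 / 4)) (min (1 / 4) (Phat F D Ψ (p q.1) q.2 - c q.1)) := by
      funext q
      rfl
    rw [h2]
    exact continuous_const.max (continuous_const.min (h1.sub (hc.comp continuous_fst)))
  · intro σ x
    unfold hX
    rw [hpp, hcp, Phat_per hC (hpL σ)]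
  · intro σ x x'
    unfold hX
    refine (clamp4_lip _ _).trans ?_
    rw [sub_sub_sub_cancel_right]
    exact Phat_lip_x hF _ _ _

theorem isAnn (hC : IsCollar γ L H lam D Ψ) {y : ℝ} (hH : 0 ≤ H) (hy : H ≤ y) (hyL : y < L) :
    IsAnn L y lam Ψ := by
  have hD : ∀ z : ℂ, -L ≤ z.re → z.re ≤ -y → z ∈ D := fun z h1 h2 =>
    hC.clean z h1 (by linarith)
  refine ⟨hyL, hC.lam_cont, hC.lam_nonneg, hC.lam_per, fun z h1 h2 => (hC.per z (hD z h1 h2)).2,
    ?_⟩
  intro z w hz1 hz2 hw1 hw2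
  have hS : Convex ℝ {w : ℂ | -L ≤ w.re ∧ w.re ≤ -y} := by
    have e : {w : ℂ | -L ≤ w.re ∧ w.re ≤ -y} = Complex.reLm ⁻¹' (Icc (-L) (-y)) := by
      ext w
      simp
    rw [e]
    exact (convex_Icc _ _).linear_preimage _
  refine seg_le_dist hC.lam_cont hS ?_ (z := z) (w := w) ⟨hz1, hz2⟩ ⟨hw1, hw2⟩
  intro u hu c hc
  have hu1 : |u.re| ≤ L := by
    rw [abs_le]
    exact ⟨hu.1, by linarith [hu.2]⟩
  refine (hC.lip u (hD u hu.1 hu.2) hu1 c hc).filter_mono (nhdsWithin_mono u ?_)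
  intro v hv
  refine ⟨hD v hv.1 hv.2, ?_⟩
  show |v.re| ≤ L
  rw [abs_le]
  exact ⟨hv.1, by linarith [hv.2]⟩

end Pool.Agent.CC57
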