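import Pool.Agent.CC57.Four

set_option autoImplicit false

/-!
The `H^{1/2}` seminorm.  All functions are Lipschitz and `2π`-periodic.
`summable_hs`: `|n| ≤ n²` and `hasSum_deriv`.  `abs_int_le`: by `parseval2` and `cf_deriv`,
`∫ f g' = 2π ∑ cf f n * conj (n i cf g n)` (real valued functions, `conj (g') = g'`), so
`|∫ f g'| ≤ 2π ∑ |n| |cf f n| |cf g n| ≤ π ∑ |n| (κ⁻¹ |cf f n|² + κ |cf g n|²)`.
`hs_add_le` from `|a + b|² ≤ 2|a|² + 2|b|²`.  `l2_le` from `parseval` and `1 ≤ |n|` for `n ≠ 0`.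
-/

open Real MeasureTheory Set

namespace Pool.Agent.CC57

theorem abs_le_sq (n : ℤ) : |(n : ℝ)| ≤ (n : ℝ) ^ 2 := by
  rcases eq_or_ne n 0 with rfl | hn
  · simp
  · have h1 : (1 : ℝ) ≤ |(n : ℝ)| := by
      rw [← Int.cast_abs]
      exact_mod_cast Int.one_le_abs hn
    rw [← sq_abs]
    nlinarith

theorem lip_ofReal {f : ℝ → ℝ} {K : NNReal} (hf : LipschitzWith K f) :
    LipschitzWith K fun θ => (f θ : ℂ) := by
  intro x y
  have h := hf x y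
  rw [Complex.isometry_ofReal.edist_eq]
  exact h

theorem deriv_ofReal (g : ℝ → ℝ) (θ : ℝ) :
    deriv (fun θ => (g θ : ℂ)) θ = ((deriv g θ : ℝ) : ℂ) := by
  by_cases hg : DifferentiableAt ℝ g θ
  · exact hg.hasDerivAt.ofReal_comp.deriv
  · rw [deriv_zero_of_not_differentiableAt hg, deriv_zero_of_not_differentiableAt]
    · simp
    · intro h
      apply hg
      have h1 := Complex.reCLM.differentiableAt.comp θ h
      exact h1

theorem per_bdd {E : Type*} [NormedAddCommGroup E] {f : ℝ → E} {K : NNReal}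
    (hf : LipschitzWith K f) (hp : ∀ θ, f (θ + 2 * π) = f θ) : ∃ C : ℝ, ∀ θ, ‖f θ‖ ≤ C := by
  refine ⟨‖f 0‖ + K * (2 * π), fun θ => ?_⟩
  have h2 : (0 : ℝ) < 2 * π := by positivity
  obtain ⟨y, hy, hfy⟩ := Function.Periodic.exists_mem_Ico₀ (f := f) hp h2 θ
  rw [hfy]
  have h1 := hf.dist_le_mul y 0
  rw [dist_eq_norm, dist_zero_right, Real.norm_eq_abs, abs_of_nonneg hy.1] at h1
  have h3 : ‖f y‖ ≤ ‖f y - f 0‖ + ‖f 0‖ := by
    have := norm_add_le (f y - f 0) (f 0)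
    rwa [sub_add_cancel] at this
  have h4 : (K : ℝ) * y ≤ K * (2 * π) := mul_le_mul_of_nonneg_left hy.2.le K.2
  linarith

theorem summable_hsC {f : ℝ → ℂ} {K : NNReal} (hf : LipschitzWith K f)
    (hp : ∀ θ, f (θ + 2 * π) = f θ) : Summable fun n : ℤ => |(n : ℝ)| * ‖cf f n‖ ^ 2 := by
  refine Summable.of_nonneg_of_le (fun n => by positivity) (fun n => ?_)
    (hasSum_deriv hf hp).summable
  exact mul_le_mul_of_nonneg_right (abs_le_sq n) (by positivity)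

theorem hsC_nonneg (f : ℝ → ℂ) : 0 ≤ hsC f := by
  exact tsum_nonneg fun n => by positivity

theorem hs_nonneg (f : ℝ → ℝ) : 0 ≤ hs f := by
  exact hsC_nonneg _

theorem hsC_le {f : ℝ → ℂ} {K : NNReal} (hf : LipschitzWith K f)
    (hp : ∀ θ, f (θ + 2 * π) = f θ) :
    hsC f ≤ (2 * π)⁻¹ * ∫ θ in (0 : ℝ)..2 * π, ‖deriv f θ‖ ^ 2 := by
  have h := hasSum_deriv hf hp
  unfold hsC
  refine (Summable.tsum_le_tsum (fun n => ?_) (summable_hsC hf hp) h.summable).trans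
    (le_of_eq h.tsum_eq)
  exact mul_le_mul_of_nonneg_right (abs_le_sq n) (by positivity)

theorem hs_mul_left (c : ℝ) (f : ℝ → ℝ) : hs (fun θ => c * f θ) = c ^ 2 * hs f := by
  unfold hs hsC
  rw [← tsum_mul_left]
  refine tsum_congr fun n => ?_
  have e : (fun θ => ((c * f θ : ℝ) : ℂ)) = fun θ => (c : ℂ) * (f θ : ℂ) := by
    funext θ
    push_cast
    ring
  rw [e, cf_mul_left, norm_mul, Complex.norm_real, Real.norm_eq_abs, mul_pow, sq_abs]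
  ring

theorem hs_add_const {f : ℝ → ℝ} (hf : IntervalIntegrable f volume 0 (2 * π)) (c : ℝ) :
    hs (fun θ => f θ + c) = hs f := by
  unfold hs hsC
  refine tsum_congr fun n => ?_
  rcases eq_or_ne n 0 with rfl | hn
  · simp
  · have e : (fun θ => ((f θ + c : ℝ) : ℂ)) = fun θ => (f θ : ℂ) + (c : ℂ) := by
      funext θ
      push_cast
      ring
    have hf' : IntervalIntegrable (fun θ => (f θ : ℂ)) volume 0 (2 * π) :=
      ⟨hf.1.ofReal, hf.2.ofReal⟩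
    rw [e, cf_add hf' intervalIntegrable_const, cf_const _ hn, add_zero]

theorem hs_add_le {f g : ℝ → ℝ} {K : NNReal} (hf : LipschitzWith K f) (hg : LipschitzWith K g)
    (hfp : ∀ θ, f (θ + 2 * π) = f θ) (hgp : ∀ θ, g (θ + 2 * π) = g θ) :
    hs (fun θ => f θ + g θ) ≤ 2 * hs f + 2 * hs g := by
  have hF := lip_ofReal hf
  have hG := lip_ofReal hg
  have hFp : ∀ θ, ((f (θ + 2 * π) : ℝ) : ℂ) = (f θ : ℂ) := fun θ => by rw [hfp]
  have hGp : ∀ θ, ((g (θ + 2 * π) : ℝ) : ℂ) = (g θ : ℂ) := fun θ => by rw [hgp]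
  have hsF := summable_hsC hF hFp
  have hsG := summable_hsC hG hGp
  have hS : Summable fun n : ℤ => 2 * (|(n : ℝ)| * ‖cf (fun θ => (f θ : ℂ)) n‖ ^ 2) +
      2 * (|(n : ℝ)| * ‖cf (fun θ => (g θ : ℂ)) n‖ ^ 2) :=
    (hsF.mul_left 2).add (hsG.mul_left 2)
  have hle : ∀ n : ℤ, |(n : ℝ)| * ‖cf (fun θ => ((f θ + g θ : ℝ) : ℂ)) n‖ ^ 2 ≤
      2 * (|(n : ℝ)| * ‖cf (fun θ => (f θ : ℂ)) n‖ ^ 2) +
      2 * (|(n : ℝ)| * ‖cf (fun θ => (g θ : ℂ)) n‖ ^ 2) := by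
    intro n
    have e : (fun θ => ((f θ + g θ : ℝ) : ℂ)) = fun θ => (f θ : ℂ) + (g θ : ℂ) := by
      funext θ
      push_cast
      ring
    have hf' : IntervalIntegrable (fun θ => (f θ : ℂ)) volume 0 (2 * π) :=
      hF.continuous.intervalIntegrable _ _
    have hg' : IntervalIntegrable (fun θ => (g θ : ℂ)) volume 0 (2 * π) :=
      hG.continuous.intervalIntegrable _ _
    rw [e, cf_add hf' hg']
    have h1 := norm_add_le (cf (fun θ => (f θ : ℂ)) n) (cf (fun θ => (g θ : ℂ)) n)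
    have h2 : ‖cf (fun θ => (f θ : ℂ)) n + cf (fun θ => (g θ : ℂ)) n‖ ^ 2 ≤
        2 * ‖cf (fun θ => (f θ : ℂ)) n‖ ^ 2 + 2 * ‖cf (fun θ => (g θ : ℂ)) n‖ ^ 2 := by
      have h3 := norm_nonneg (cf (fun θ => (f θ : ℂ)) n + cf (fun θ => (g θ : ℂ)) n)
      nlinarith [sq_nonneg (‖cf (fun θ => (f θ : ℂ)) n‖ - ‖cf (fun θ => (g θ : ℂ)) n‖)]
    calc |(n : ℝ)| * ‖cf (fun θ => (f θ : ℂ)) n + cf (fun θ => (g θ : ℂ)) n‖ ^ 2 ≤
        |(n : ℝ)| * (2 * ‖cf (fun θ => (f θ : ℂ)) n‖ ^ 2 +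
          2 * ‖cf (fun θ => (g θ : ℂ)) n‖ ^ 2) := mul_le_mul_of_nonneg_left h2 (abs_nonneg _)
      _ = _ := by ring
  have hsum : Summable fun n : ℤ => |(n : ℝ)| * ‖cf (fun θ => ((f θ + g θ : ℝ) : ℂ)) n‖ ^ 2 :=
    Summable.of_nonneg_of_le (fun n => by positivity) hle hS
  have h4 := Summable.tsum_le_tsum hle hsum hS
  rw [Summable.tsum_add (hsF.mul_left 2) (hsG.mul_left 2), tsum_mul_left, tsum_mul_left] at h4
  exact h4

theorem abs_int_le {f g : ℝ → ℝ} {K : NNReal} (hf : LipschitzWith K f) (hg : LipschitzWith K g)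
    (hfp : ∀ θ, f (θ + 2 * π) = f θ) (hgp : ∀ θ, g (θ + 2 * π) = g θ) {κ : ℝ} (hκ : 0 < κ) :
    |∫ θ in (0 : ℝ)..2 * π, f θ * deriv g θ| ≤ π * (κ⁻¹ * hs f + κ * hs g) := by
  have hF := lip_ofReal hf
  have hG := lip_ofReal hg
  have hFp : ∀ θ, ((f (θ + 2 * π) : ℝ) : ℂ) = (f θ : ℂ) := fun θ => by rw [hfp]
  have hGp : ∀ θ, ((g (θ + 2 * π) : ℝ) : ℂ) = (g θ : ℂ) := fun θ => by rw [hgp]
  obtain ⟨C, hC⟩ := per_bdd hF hFp
  have hder : ∀ θ, ‖deriv (fun θ => (g θ : ℂ)) θ‖ ≤ K := fun θ =>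
    norm_deriv_le_of_lipschitz hG
  have hm1 : AEStronglyMeasurable (fun θ => (f θ : ℂ)) (volume.restrict (Ioc 0 (2 * π))) :=
    hF.continuous.aestronglyMeasurable
  have hm2 : AEStronglyMeasurable (deriv fun θ => (g θ : ℂ))
      (volume.restrict (Ioc 0 (2 * π))) := aestronglyMeasurable_deriv _ _
  have hpar := parseval2 (C := max C K) hm1 hm2 (fun θ => (hC θ).trans (le_max_left _ _))
    (fun θ => (hder θ).trans (le_max_right _ _))
  have hsF := (summable_hsC hF hFp).hasSum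
  have hsG := (summable_hsC hG hGp).hasSum
  have hS := ((hsF.mul_left (κ⁻¹ / 2)).add (hsG.mul_left (κ / 2)))
  have hle := hpar.norm_le_of_bounded hS (fun n => by
    rw [cf_deriv hG hGp n, norm_mul, RCLike.norm_conj, norm_mul, norm_mul, Complex.norm_I,
      mul_one, Complex.norm_intCast]
    set a := ‖cf (fun θ => (f θ : ℂ)) n‖ with ha
    set b := ‖cf (fun θ => (g θ : ℂ)) n‖ with hb
    have h1 : a * b ≤ κ⁻¹ / 2 * a ^ 2 + κ / 2 * b ^ 2 := by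
      have h2 : 0 ≤ (κ⁻¹ * a - b) ^ 2 * (κ / 2) := by positivity
      have h3 : (κ⁻¹ * a - b) ^ 2 * (κ / 2) = κ⁻¹ / 2 * a ^ 2 + κ / 2 * b ^ 2 - a * b := by
        field_simp
        ring
      linarith
    calc a * (|(n : ℝ)| * b) = |(n : ℝ)| * (a * b) := by ring
      _ ≤ |(n : ℝ)| * (κ⁻¹ / 2 * a ^ 2 + κ / 2 * b ^ 2) :=
          mul_le_mul_of_nonneg_left h1 (abs_nonneg _)
      _ = _ := by ring)
  have e : (∫ θ in (0 : ℝ)..2 * π, (f θ : ℂ) *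
      (starRingEnd ℂ) (deriv (fun θ => (g θ : ℂ)) θ)) =
      ((∫ θ in (0 : ℝ)..2 * π, f θ * deriv g θ : ℝ) : ℂ) := by
    rw [← intervalIntegral.integral_ofReal]
    congr 1
    funext θ
    rw [deriv_ofReal, Complex.conj_ofReal]
    push_cast
    ring
  rw [e, norm_smul, Complex.norm_real, Real.norm_eq_abs, Real.norm_eq_abs] at hle
  have h2 : (0 : ℝ) < 2 * π := by positivity
  rw [abs_of_pos (inv_pos.2 h2)] at hle
  have h5 : |∫ θ in (0 : ℝ)..2 * π, f θ * deriv g θ| =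
      (2 * π) * ((2 * π)⁻¹ * |∫ θ in (0 : ℝ)..2 * π, f θ * deriv g θ|) := by
    field_simp
  rw [h5]
  refine (mul_le_mul_of_nonneg_left hle h2.le).trans (le_of_eq ?_)
  unfold hs hsC
  ring

theorem l2_le {f : ℝ → ℂ} {K : NNReal} (hf : LipschitzWith K f)
    (hp : ∀ θ, f (θ + 2 * π) = f θ) :
    ∫ θ in (0 : ℝ)..2 * π, ‖f θ‖ ^ 2 ≤ 2 * π * (‖cf f 0‖ ^ 2 + hsC f) := by
  obtain ⟨C, hC⟩ := per_bdd hf hp
  have h1 := parseval (C := C) (hf.continuous.aestronglyMeasurable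
    (μ := volume.restrict (Ioc 0 (2 * π)))) hC
  have h2 := (hasSum_ite_eq (0 : ℤ) (‖cf f 0‖ ^ 2)).add (summable_hsC hf hp).hasSum
  have h3 := hasSum_le (fun n => by
    rcases eq_or_ne n 0 with rfl | hn
    · simp
    · rw [if_neg hn, zero_add]
      have h4 : (1 : ℝ) ≤ |(n : ℝ)| := by
        rw [← Int.cast_abs]
        exact_mod_cast Int.one_le_abs hn
      nlinarith [sq_nonneg ‖cf f n‖]) h1 h2
  have h4 : (0 : ℝ) < 2 * π := by positivity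
  have h5 : ∫ θ in (0 : ℝ)..2 * π, ‖f θ‖ ^ 2 =
      (2 * π) * ((2 * π)⁻¹ * ∫ θ in (0 : ℝ)..2 * π, ‖f θ‖ ^ 2) := by
    field_simp
  rw [h5]
  exact mul_le_mul_of_nonneg_left h3 h4.le

end Pool.Agent.CC57
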