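import Pool.Agent.CC57.OmB
import Pool.Agent.CC57.Rect

set_option autoImplicit false

/-!
`∫_{Nc} F ≤ (1/2) ∫_{Cell (-y) y} F` for nonnegative continuous `F`, periodic and `tau`-invariant on
`|Re z| ≤ y`.
`Nc ∩ tau⁻¹ Nc = ∅` up to periods: if `z ∈ Nc` and `|Re z| ≤ 1` then `‖ψ (tau z)‖ = 1/‖ψ z‖ > 1`
(`psi_tau`); if `Re z < -1` then `Re (tau z) > 1`.  Hence, with the periodic indicator
`χ z = 1` iff `-y < Re z ≤ 1 ∧ ‖ψ z‖ < 1`, `χ z + χ (tau z) ≤ 1`, and for the integral over
`Cell (-y) y` of `F χ`, `∫ F(z) χ(z) = ∫ F(tau z) χ(tau z) = ∫ F(z) χ(tau z)`: the map `tau` preserves the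
measure (it is `z ↦ -conj z + iπ`), maps `-y < Re z < y` to itself and a cell to a cell up to periods
(for a periodic function the integral over `0 < im ≤ 2π` equals that over `π < im ≤ 3π`).
`int_cell_tau`: the same argument for a function on `a < Re z < b`.
-/

open Real MeasureTheory Set

namespace Pool.Agent.CC57

private theorem shift_aux {F : ℂ → ℝ} (hp : ∀ z, F (z + 2 * π * Complex.I) = F z) {P : Set ℝ}
    (hP : MeasurableSet P) :
    ∫ z in {z : ℂ | z.re ∈ P ∧ π < z.im ∧ z.im ≤ 3 * π}, F z =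
      ∫ z in {z : ℂ | z.re ∈ P ∧ 0 < z.im ∧ z.im ≤ 2 * π}, F z := by
  have hpi := Real.pi_pos
  set S1 : Set ℂ := {z : ℂ | z.re ∈ P ∧ π < z.im ∧ z.im ≤ 2 * π} with hS1
  set S2 : Set ℂ := {z : ℂ | z.re ∈ P ∧ 2 * π < z.im ∧ z.im ≤ 3 * π} with hS2
  set S3 : Set ℂ := {z : ℂ | z.re ∈ P ∧ 0 < z.im ∧ z.im ≤ π} with hS3
  have ms : ∀ c d : ℝ, MeasurableSet {z : ℂ | z.re ∈ P ∧ c < z.im ∧ z.im ≤ d} := fun c d =>
    (Complex.measurable_re hP).inter ((measurableSet_lt measurable_const Complex.measurable_im).inter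
      (measurableSet_le Complex.measurable_im measurable_const))
  have e1 : {z : ℂ | z.re ∈ P ∧ π < z.im ∧ z.im ≤ 3 * π} = S1 ∪ S2 := by
    ext z
    simp only [hS1, hS2, mem_union, mem_ofPred_eq]
    constructor
    · rintro ⟨h1, h2, h3⟩
      rcases le_or_gt z.im (2 * π) with h | h
      · exact Or.inl ⟨h1, h2, h⟩
      · exact Or.inr ⟨h1, h, h3⟩
    · rintro (⟨h1, h2, h3⟩ | ⟨h1, h2, h3⟩)
      · exact ⟨h1, h2, by linarith⟩
      · exact ⟨h1, by linarith, h3⟩
  have e2 : {z : ℂ | z.re ∈ P ∧ 0 < z.im ∧ z.im ≤ 2 * π} = S1 ∪ S3 := by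
    ext z
    simp only [hS1, hS3, mem_union, mem_ofPred_eq]
    constructor
    · rintro ⟨h1, h2, h3⟩
      rcases le_or_gt z.im π with h | h
      · exact Or.inr ⟨h1, h2, h⟩
      · exact Or.inl ⟨h1, h, h3⟩
    · rintro (⟨h1, h2, h3⟩ | ⟨h1, h2, h3⟩)
      · exact ⟨h1, by linarith, h3⟩
      · exact ⟨h1, h2, by linarith⟩
  have d1 : Disjoint S1 S2 := by
    rw [Set.disjoint_left]
    rintro z ⟨_, _, h⟩ ⟨_, h', _⟩
    linarith
  have d2 : Disjoint S1 S3 := by
    rw [Set.disjoint_left]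
    rintro z ⟨_, h, _⟩ ⟨_, _, h'⟩
    linarith
  have hT : MeasurePreserving (fun z : ℂ => z + 2 * π * Complex.I) volume volume :=
    measurePreserving_add_right volume _
  have hE : MeasurableEmbedding (fun z : ℂ => z + 2 * π * Complex.I) :=
    (MeasurableEquiv.addRight (2 * π * Complex.I : ℂ)).measurableEmbedding
  have pre : (fun z : ℂ => z + 2 * π * Complex.I) ⁻¹' S2 = S3 := by
    ext z
    have h1 : (z + 2 * π * Complex.I).re = z.re := by simp
    have h2 : (z + 2 * π * Complex.I).im = z.im + 2 * π := by simp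
    simp only [hS2, hS3, mem_preimage, mem_ofPred_eq, h1, h2]
    constructor
    · rintro ⟨h1, h2, h3⟩
      exact ⟨h1, by linarith, by linarith⟩
    · rintro ⟨h1, h2, h3⟩
      exact ⟨h1, by linarith, by linarith⟩
  have hFT : F ∘ (fun z : ℂ => z + 2 * π * Complex.I) = F := by
    funext z
    exact hp z
  have i1 : ∫ z in S3, F z = ∫ z in S2, F z := by
    have h := hT.setIntegral_preimage_emb hE F S2
    rw [pre] at h
    rw [← h]
    apply setIntegral_congr_fun (ms _ _)
    intro z _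
    exact (hp z).symm
  have i2 : IntegrableOn F S3 ↔ IntegrableOn F S2 := by
    have h := hT.integrableOn_comp_preimage hE (f := F) (s := S2)
    rw [pre, hFT] at h
    exact h
  rw [e1, e2]
  by_cases h1 : IntegrableOn F S1
  · by_cases h2 : IntegrableOn F S2
    · rw [setIntegral_union d1 (ms _ _) h1 h2, setIntegral_union d2 (ms _ _) h1 (i2.2 h2), i1]
    · rw [integral_undef (fun h => h2 (IntegrableOn.mono_set h subset_union_right)),
        integral_undef (fun h => h2 (i2.1 (IntegrableOn.mono_set h subset_union_right)))]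
  · rw [integral_undef (fun h => h1 (IntegrableOn.mono_set h subset_union_left)),
      integral_undef (fun h => h1 (IntegrableOn.mono_set h subset_union_left))]

private theorem tau_re' (z : ℂ) : (tau z).re = -z.re := by simp [tau]

private theorem tau_im' (z : ℂ) : (tau z).im = z.im + π := by simp [tau]

private theorem tau_per' (z : ℂ) : tau (z + 2 * π * Complex.I) = tau z + 2 * π * Complex.I := by
  apply Complex.ext
  · rw [tau_re', Complex.add_re, Complex.add_re, tau_re']
    simp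
  · rw [tau_im', Complex.add_im, Complex.add_im, tau_im']
    ring

private theorem cont_tau : Continuous tau := by
  unfold tau
  exact (Complex.continuous_conj.neg).add continuous_const

private theorem mp_tau : MeasurePreserving tau volume volume := by
  have h1 : MeasurePreserving (fun z : ℂ => (starRingEnd ℂ) z) volume volume :=
    Complex.conjLIE.measurePreserving
  have h2 : MeasurePreserving (fun z : ℂ => -z) volume volume := Measure.measurePreserving_neg volume
  have h3 : MeasurePreserving (fun z : ℂ => z + π * Complex.I) volume volume :=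
    measurePreserving_add_right volume _
  exact h3.comp (h2.comp h1)

private theorem emb_tau : MeasurableEmbedding tau := by
  have h : Function.Injective tau := by
    intro z w h
    have h1 := congrArg Complex.re h
    have h2 := congrArg Complex.im h
    rw [tau_re', tau_re'] at h1
    rw [tau_im', tau_im'] at h2
    apply Complex.ext <;> linarith
  exact cont_tau.measurableEmbedding h

/-- The involution exchanges the two ends. -/
theorem int_cell_tau {F : ℂ → ℝ} (hF : Measurable F) (hp : ∀ z, F (z + 2 * π * Complex.I) = F z)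
    (a b : ℝ) : ∫ z in Cell a b, F (tau z) = ∫ z in Cell (-b) (-a), F z := by
  have hpi := Real.pi_pos
  set S : Set ℂ := {z : ℂ | z.re ∈ Ico (-b) (-a) ∧ π < z.im ∧ z.im ≤ 3 * π} with hS
  have pre : tau ⁻¹' S = Cell a b := by
    ext z
    simp only [hS, Cell, mem_preimage, mem_ofPred_eq, tau_re', tau_im', mem_Ico]
    constructor
    · rintro ⟨⟨h1, h2⟩, h3, h4⟩
      exact ⟨by linarith, by linarith, by linarith, by linarith⟩
    · rintro ⟨h1, h2, h3, h4⟩
      exact ⟨⟨by linarith, by linarith⟩, by linarith, by linarith⟩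
  have h := mp_tau.setIntegral_preimage_emb emb_tau F S
  rw [pre] at h
  rw [h, hS, shift_aux hp measurableSet_Ico]
  apply setIntegral_congr_set
  filter_upwards [RectAux.ae_re_ne (-b), RectAux.ae_re_ne (-a)] with z h1 h2
  apply propext
  show (z.re ∈ Ico (-b) (-a) ∧ 0 < z.im ∧ z.im ≤ 2 * π) ↔ (-b < z.re ∧ z.re ≤ -a ∧ 0 < z.im ∧ z.im ≤ 2 * π)
  rw [mem_Ico]
  constructor
  · rintro ⟨⟨a1, a2⟩, a3, a4⟩
    exact ⟨lt_of_le_of_ne a1 (Ne.symm h1), a2.le, a3, a4⟩
  · rintro ⟨a1, a2, a3, a4⟩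
    exact ⟨⟨a1.le, lt_of_le_of_ne a2 h2⟩, a3, a4⟩

private theorem int_cont {F : ℂ → ℝ} (hF : Continuous F) (a b : ℝ) : IntegrableOn F (Cell a b) := by
  have h1 : IsCompact (Icc a b ×ℂ Icc (0 : ℝ) (2 * π)) := isCompact_Icc.reProdIm isCompact_Icc
  apply (hF.continuousOn.integrableOn_compact h1).mono_set
  rintro z ⟨a1, a2, a3, a4⟩
  exact ⟨⟨a1.le, a2⟩, ⟨a3.le, a4⟩⟩

theorem half_area {y : ℝ} {ψ om : ℂ → ℂ} (hg : IsGauge y ψ om) {F : ℂ → ℝ} (hF : Continuous F)
    (h0 : ∀ z, 0 ≤ F z) (hp : ∀ z, F (z + 2 * π * Complex.I) = F z)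
    (ht : ∀ z : ℂ, |z.re| ≤ y → F (tau z) = F z) :
    ∫ z in Nc y ψ, F z ≤ 1 / 2 * ∫ z in Cell (-y) y, F z := by
  have hy := hg.y_ge
  set A : Set ℂ := {z : ℂ | z.re ≤ 1 ∧ ‖ψ z‖ < 1} with hA
  have mA : MeasurableSet A := by
    have hU : IsOpen {z : ℂ | z.re < 5 / 2} := isOpen_lt Complex.continuous_re continuous_const
    have hc : ContinuousOn (fun z => ‖ψ z‖) {z : ℂ | z.re < 5 / 2} := fun z hz =>
      ((hg.diff z hz).continuousAt.norm).continuousWithinAt
    have h1 : IsOpen ({z : ℂ | z.re < 5 / 2} ∩ (fun z => ‖ψ z‖) ⁻¹' (Iio 1)) :=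
      hc.isOpen_inter_preimage hU isOpen_Iio
    have h2 : A = {z : ℂ | z.re ≤ 1} ∩ ({z : ℂ | z.re < 5 / 2} ∩ (fun z => ‖ψ z‖) ⁻¹' (Iio 1)) := by
      ext z
      simp only [hA, mem_inter_iff, mem_ofPred_eq, mem_preimage, mem_Iio]
      constructor
      · rintro ⟨a1, a2⟩
        exact ⟨a1, by linarith, a2⟩
      · rintro ⟨a1, _, a2⟩
        exact ⟨a1, a2⟩
    rw [h2]
    exact (measurableSet_le Complex.measurable_re measurable_const).inter h1.measurableSet
  have pA : ∀ z, z + 2 * π * Complex.I ∈ A ↔ z ∈ A := by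
    intro z
    have h1 : (z + 2 * π * Complex.I).re = z.re := by simp
    simp only [hA, mem_ofPred_eq, h1, hg.per]
  set G : ℂ → ℝ := A.indicator F with hG
  have mG : Measurable G := hF.measurable.indicator mA
  have pG : ∀ z, G (z + 2 * π * Complex.I) = G z := by
    intro z
    by_cases hz : z ∈ A
    · rw [hG, indicator_of_mem ((pA z).2 hz), indicator_of_mem hz, hp]
    · rw [hG, indicator_of_notMem (fun h => hz ((pA z).1 h)), indicator_of_notMem hz]
  have e1 : ∫ z in Nc y ψ, F z = ∫ z in Cell (-y) y, G z := by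
    rw [hG, setIntegral_indicator mA]
    congr 2
    ext z
    simp only [Nc, Cell, hA, mem_inter_iff, mem_ofPred_eq]
    constructor
    · rintro ⟨⟨a1, a2, a3, a4⟩, a5⟩
      exact ⟨⟨a1, by linarith, a3, a4⟩, a2, a5⟩
    · rintro ⟨⟨a1, a2, a3, a4⟩, a5, a6⟩
      exact ⟨⟨a1, a5, a3, a4⟩, a6⟩
  have e2 := int_cell_tau mG pG (-y) y
  rw [neg_neg] at e2
  have i0 : IntegrableOn F (Cell (-y) y) := int_cont hF _ _
  have i1 : IntegrableOn G (Cell (-y) y) := i0.indicator mA
  have i2 : IntegrableOn (fun z => G (tau z)) (Cell (-y) y) := by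
    have h1 : IntegrableOn (fun z => F (tau z)) (Cell (-y) y) := int_cont (hF.comp cont_tau) _ _
    have h2 := h1.indicator (cont_tau.measurable mA)
    refine h2.congr (ae_of_all _ fun z => ?_)
    by_cases hz : tau z ∈ A
    · rw [indicator_of_mem (show z ∈ tau ⁻¹' A from hz)]
      exact (indicator_of_mem hz F).symm
    · rw [indicator_of_notMem (show z ∉ tau ⁻¹' A from hz)]
      exact (indicator_of_notMem hz F).symm
  have key : ∫ z in Cell (-y) y, (G z + G (tau z)) ≤ ∫ z in Cell (-y) y, F z := by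
    apply setIntegral_mono_on (i1.add i2) i0 (measurableSet_cell _ _)
    rintro z ⟨a1, a2, a3, a4⟩
    have hz : |z.re| ≤ y := abs_le.2 ⟨a1.le, a2⟩
    have hFz := ht z hz
    show G z + G (tau z) ≤ F z
    by_cases h1 : z ∈ A
    · have h2 : tau z ∉ A := by
        intro h2
        have b1 : z.re ≤ 1 := h1.1
        have b2 : (tau z).re ≤ 1 := h2.1
        rw [tau_re'] at b2
        have b3 := psi_tau hg (l := z) (abs_le.2 ⟨by linarith, by linarith⟩)
        have b4 := congrArg norm b3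
        rw [norm_mul, Complex.norm_conj, norm_neg, norm_one] at b4
        have b5 : ‖ψ z‖ < 1 := h1.2
        have b6 : ‖ψ (tau z)‖ < 1 := h2.2
        nlinarith [norm_nonneg (ψ z), norm_nonneg (ψ (tau z))]
      rw [hG, indicator_of_mem h1, indicator_of_notMem h2, add_zero]
    · rw [hG, indicator_of_notMem h1, zero_add]
      by_cases h2 : tau z ∈ A
      · rw [indicator_of_mem h2, hFz]
      · rw [indicator_of_notMem h2]
        exact h0 z
  rw [integral_add i1 i2, e2] at key
  rw [e1]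
  linarith

end Pool.Agent.CC57
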