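import Pool.Agent.CC57.Half

set_option autoImplicit false

/-!
Continuity of `σ ↦ hs (δ σ)`.  For each `n`, `σ ↦ cf (δ σ) n` is continuous
(`intervalIntegral.continuous_parametric_intervalIntegral_of_continuous'`), and the tail is uniformly
small: `∑_{|n| > N} |n| |cf (δ σ) n|² ≤ (1/N) ∑ n² |cf (δ σ) n|² ≤ K² / N` by `hasSum_deriv` and
`|deriv| ≤ K`.  So the function is a uniform limit of the continuous functions given by the partial sums.
-/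

open Real MeasureTheory Set

namespace Pool.Agent.CC57

theorem continuous_cf_param {δ : ℝ → ℝ → ℝ} (hc : Continuous (Function.uncurry δ)) (n : ℤ) :
    Continuous fun σ => cf (fun θ => ((δ σ θ : ℝ) : ℂ)) n := by
  unfold cf
  have h0 : Continuous fun σ : ℝ => ∫ θ in (0 : ℝ)..2 * π,
      ((δ σ θ : ℝ) : ℂ) * Complex.exp (-((n : ℂ) * (θ : ℂ) * Complex.I)) := ?_
  · exact Continuous.const_smul h0 ((2 * π)⁻¹ : ℝ)
  apply intervalIntegral.continuous_parametric_intervalIntegral_of_continuous'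
  have h1 : Continuous fun p : ℝ × ℝ => ((δ p.1 p.2 : ℝ) : ℂ) :=
    Complex.continuous_ofReal.comp hc
  have h2 : Continuous fun p : ℝ × ℝ => Complex.exp (-((n : ℂ) * (p.2 : ℂ) * Complex.I)) := by
    fun_prop
  exact h1.mul h2

theorem hs_tail_aux {f : ℝ → ℂ} {K : NNReal} (hf : LipschitzWith K f)
    (hp : ∀ θ, f (θ + 2 * π) = f θ) :
    ∑' n : ℤ, (n : ℝ) ^ 2 * ‖cf f n‖ ^ 2 ≤ (K : ℝ) ^ 2 := by
  rw [(hasSum_deriv hf hp).tsum_eq]
  have hπ : (0 : ℝ) < 2 * π := by positivity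
  have h1 : ‖∫ θ in (0 : ℝ)..2 * π, ‖deriv f θ‖ ^ 2‖ ≤ (K : ℝ) ^ 2 * |2 * π - 0| := by
    apply intervalIntegral.norm_integral_le_of_norm_le_const
    intro x _
    have h2 := norm_deriv_le_of_lipschitz hf (x₀ := x)
    rw [Real.norm_eq_abs, abs_of_nonneg (by positivity)]
    gcongr
  have h3 : ∫ θ in (0 : ℝ)..2 * π, ‖deriv f θ‖ ^ 2 ≤ (K : ℝ) ^ 2 * (2 * π) := by
    have h4 := le_trans (le_abs_self _) h1
    rwa [sub_zero, abs_of_pos hπ] at h4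
  calc (2 * π)⁻¹ * ∫ θ in (0 : ℝ)..2 * π, ‖deriv f θ‖ ^ 2
      ≤ (2 * π)⁻¹ * ((K : ℝ) ^ 2 * (2 * π)) := by gcongr
    _ = (K : ℝ) ^ 2 := by field_simp

theorem hs_tail {f : ℝ → ℂ} {K : NNReal} (hf : LipschitzWith K f)
    (hp : ∀ θ, f (θ + 2 * π) = f θ) (N : ℕ) :
    |hsC f - ∑ n ∈ Finset.Icc (-(N : ℤ)) N, |(n : ℝ)| * ‖cf f n‖ ^ 2| ≤ (K : ℝ) ^ 2 / (N + 1) := by
  have hs1 := summable_hsC hf hp
  have hs2 := (hasSum_deriv hf hp).summable
  have e1 : hsC f - ∑ n ∈ Finset.Icc (-(N : ℤ)) N, |(n : ℝ)| * ‖cf f n‖ ^ 2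
      = ∑' n : ↑((Finset.Icc (-(N : ℤ)) N : Finset ℤ) : Set ℤ)ᶜ, |((n : ℤ) : ℝ)| * ‖cf f n‖ ^ 2 := by
    unfold hsC
    have := hs1.sum_add_tsum_compl (s := Finset.Icc (-(N : ℤ)) N)
    linarith
  rw [e1, abs_of_nonneg (tsum_nonneg fun n => by positivity)]
  have hN : (0 : ℝ) < N + 1 := by positivity
  calc ∑' n : ↑((Finset.Icc (-(N : ℤ)) N : Finset ℤ) : Set ℤ)ᶜ, |((n : ℤ) : ℝ)| * ‖cf f n‖ ^ 2
      ≤ ∑' n : ↑((Finset.Icc (-(N : ℤ)) N : Finset ℤ) : Set ℤ)ᶜ,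
          (N + 1 : ℝ)⁻¹ * (((n : ℤ) : ℝ) ^ 2 * ‖cf f n‖ ^ 2) := by
        apply Summable.tsum_le_tsum
        · rintro ⟨n, hn⟩
          have hn' : (N : ℝ) + 1 ≤ |(n : ℝ)| := by
            simp only [Finset.coe_Icc, Set.mem_compl_iff, Set.mem_Icc, not_and_or, not_le] at hn
            have : ((N : ℤ) + 1) ≤ |n| := by
              rcases hn with h | h
              · rw [le_abs]; right; omega
              · rw [le_abs]; left; omega
            exact_mod_cast this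
          have h0 : 0 ≤ |(n : ℝ)| := abs_nonneg _
          show |(n : ℝ)| * ‖cf f n‖ ^ 2 ≤ (N + 1 : ℝ)⁻¹ * ((n : ℝ) ^ 2 * ‖cf f n‖ ^ 2)
          rw [← mul_assoc]
          apply mul_le_mul_of_nonneg_right _ (by positivity)
          rw [inv_mul_eq_div, le_div_iff₀ hN, ← sq_abs (n : ℝ)]
          nlinarith
        · exact hs1.subtype _
        · exact (hs2.subtype _).mul_left _
    _ = (N + 1 : ℝ)⁻¹ * ∑' n : ↑((Finset.Icc (-(N : ℤ)) N : Finset ℤ) : Set ℤ)ᶜ,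
          (((n : ℤ) : ℝ) ^ 2 * ‖cf f n‖ ^ 2) := tsum_mul_left
    _ ≤ (N + 1 : ℝ)⁻¹ * ∑' n : ℤ, (n : ℝ) ^ 2 * ‖cf f n‖ ^ 2 := by
        gcongr
        exact hs2.tsum_subtype_le (fun n : ℤ => (n : ℝ) ^ 2 * ‖cf f n‖ ^ 2) _
          (fun n => by positivity)
    _ ≤ (N + 1 : ℝ)⁻¹ * (K : ℝ) ^ 2 := by
        gcongr
        exact hs_tail_aux hf hp
    _ = (K : ℝ) ^ 2 / (N + 1) := by rw [inv_mul_eq_div]

theorem continuous_hs {δ : ℝ → ℝ → ℝ} {K : NNReal} (hc : Continuous (Function.uncurry δ))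
    (hl : ∀ σ, LipschitzWith K (δ σ)) (hp : ∀ σ θ, δ σ (θ + 2 * π) = δ σ θ) :
    Continuous fun σ => hs (δ σ) := by
  have hl' : ∀ σ, LipschitzWith K fun θ => ((δ σ θ : ℝ) : ℂ) := by
    intro σ
    have := Complex.isometry_ofReal.lipschitz.comp (hl σ)
    rw [one_mul] at this
    exact this
  have hp' : ∀ σ θ, ((δ σ (θ + 2 * π) : ℝ) : ℂ) = ((δ σ θ : ℝ) : ℂ) := by
    intro σ θ; rw [hp]
  have hu : TendstoUniformly
      (fun (N : ℕ) (σ : ℝ) => ∑ n ∈ Finset.Icc (-(N : ℤ)) N,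
        |(n : ℝ)| * ‖cf (fun θ => ((δ σ θ : ℝ) : ℂ)) n‖ ^ 2)
      (fun σ => hs (δ σ)) Filter.atTop := by
    rw [Metric.tendstoUniformly_iff]
    intro ε hε
    have h1 : Filter.Tendsto (fun N : ℕ => (K : ℝ) ^ 2 / ((N : ℝ) + 1)) Filter.atTop (nhds 0) := by
      apply Filter.Tendsto.div_atTop tendsto_const_nhds
      exact Filter.tendsto_atTop_add_const_right _ _ tendsto_natCast_atTop_atTop
    filter_upwards [h1.eventually (gt_mem_nhds hε)] with N hN σ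
    rw [Real.dist_eq]
    exact lt_of_le_of_lt (hs_tail (hl' σ) (hp' σ) N) hN
  apply hu.continuous
  apply Filter.Frequently.of_forall
  intro N
  apply continuous_finsetSum
  intro n _
  exact ((continuous_cf_param hc n).norm.pow 2).const_mul _ 

end Pool.Agent.CC57
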