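import Pool.Agent.CC57.Sig

set_option autoImplicit false

/-!
`h : ℝ → X → ℝ` jointly continuous and `2π`-periodic in `σ` induces
`h' : Sph 2 → X → ℝ`, `h' (circ σ) = h σ`, jointly continuous: `circ` factors through the
homeomorphism of `AddCircle (2π)` with the circle, and `(σ, x) ↦ (σ mod 2π, x)` is an open quotient map.
(Or directly: near each point of the circle there is a continuous local inverse of `circ`, by `arcsin`,
`arccos` or `Complex.arg`.)
-/

open Real Set MeasureTheory

namespace Pool.Agent.CC57

open Pool.Agent.H65G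

/-- The point of `Circle` of a point of the sphere. -/
private noncomputable def kap (s : Sph 2) : Circle :=
  ⟨⟨(s : E 2) 0, (s : E 2) 1⟩, by
    have h := mem_sphere_zero_iff_norm.1 s.2
    rw [EuclideanSpace.norm_eq, Real.sqrt_eq_one] at h
    rw [Submonoid.unitSphere, ← SetLike.mem_coe]
    show (_ : ℂ) ∈ Metric.sphere (0 : ℂ) 1
    rw [mem_sphere_zero_iff_norm, Complex.norm_def, Complex.normSq_mk, Real.sqrt_eq_one]
    have h2 : (s : E 2) 0 ^ 2 + (s : E 2) 1 ^ 2 = 1 := by simpa [Fin.sum_univ_two] using h
    linear_combination h2⟩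

private theorem continuous_kap : Continuous kap := by
  apply Continuous.subtype_mk
  have h0 : Continuous fun s : Sph 2 => (s : E 2) 0 :=
    (EuclideanSpace.proj (𝕜 := ℝ) (0 : Fin 2) : E 2 →L[ℝ] ℝ).continuous.comp continuous_subtype_val
  have h1 : Continuous fun s : Sph 2 => (s : E 2) 1 :=
    (EuclideanSpace.proj (𝕜 := ℝ) (1 : Fin 2) : E 2 →L[ℝ] ℝ).continuous.comp continuous_subtype_val
  have h2 := (Complex.continuous_ofReal.comp h0).add ((Complex.continuous_ofReal.comp h1).mul (continuous_const (y := Complex.I)))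
  refine h2.congr fun s => ?_
  apply Complex.ext <;> simp

private theorem kap_circ (σ : ℝ) : kap (circ σ) = Circle.exp σ := by
  ext1
  rw [Circle.coe_exp]
  apply Complex.ext
  · rw [Complex.exp_ofReal_mul_I_re]
    rfl
  · rw [Complex.exp_ofReal_mul_I_im]
    rfl

/-- A periodic family as a family on the circle. -/
theorem exists_sigFam {X : Type} [TopologicalSpace X] {h : ℝ → X → ℝ}
    (hc : Continuous (Function.uncurry h)) (hp : ∀ σ x, h (σ + 2 * π) x = h σ x) :
    ∃ h' : Sph 2 → X → ℝ, Continuous (Function.uncurry h') ∧ ∀ σ x, h' (circ σ) x = h σ x := by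
  have hper : Function.Periodic h (2 * π) := fun σ => by
    funext x
    exact hp σ x
  set H : AddCircle (2 * π) → X → ℝ := hper.lift with hH
  have hHc : ∀ σ : ℝ, H (σ : AddCircle (2 * π)) = h σ := fun σ => hper.lift_coe σ
  have hq : IsOpenQuotientMap (Prod.map ((↑) : ℝ → AddCircle (2 * π)) (id : X → X)) :=
    (QuotientAddGroup.isOpenQuotientMap_mk).prodMap IsOpenQuotientMap.id
  have hcont : Continuous (Function.uncurry H) := by
    rw [hq.isQuotientMap.continuous_iff]
    have : Function.uncurry H ∘ Prod.map ((↑) : ℝ → AddCircle (2 * π)) (id : X → X) = Function.uncurry h := by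
      funext x
      show H (x.1 : AddCircle (2 * π)) x.2 = h x.1 x.2
      rw [hHc]
    rw [this]
    exact hc
  refine ⟨fun s x => H (AddCircle.homeomorphCircle'.symm (kap s)) x, ?_, ?_⟩
  · exact hcont.comp (Continuous.prodMk ((AddCircle.homeomorphCircle'.symm.continuous.comp continuous_kap).comp
      continuous_fst) continuous_snd)
  · intro σ x
    show H (AddCircle.homeomorphCircle'.symm (kap (circ σ))) x = h σ x
    rw [kap_circ, ← AddCircle.homeomorphCircle'_apply_mk, Homeomorph.symm_apply_apply, hHc]

end Pool.Agent.CC57
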