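import Pool.Agent.CC57.InnerB
import Pool.Agent.CC57.SigFam

set_option autoImplicit false

/-!
The inner inequality in the complex coordinate.  Let `h' : Sph 2 → X → ℝ` be the family of
`exists_sigFam`; it is an `HFam (d := 1) (1/2)` (`rho_ge`, `circ_surj`).  The loop
`c θ = Ψ (pt (-y) θ)` is Lipschitz (`ann_lip`) and periodic.  `cr_gamf` for every `σ` and
`integral_sigma` turn the left side of `inner_sph` into `Gam (fun σ θ => h σ (Ψ (pt (-y) θ))) W`.
-/

open Real Set MeasureTheory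
open scoped RealInnerProductSpace

namespace Pool.Agent.CC57

open Pool.Agent.H65G

theorem inner_ineq {X : Type} [MetricSpace X] {L y : ℝ} {lam : ℂ → ℝ} {Ψ : ℂ → X}
    (hA : IsAnn L y lam Ψ) {m : ℕ} {q : Fin m → E 2 → X} {G : Fin m → E 2 → Matrix (Fin 2) (Fin 2) ℝ}
    (hq : ∀ j, IsRiemannianCube (q j) (G j)) (hB : HasLoop q fun θ => Ψ (pt (-L) θ))
    {h : ℝ → X → ℝ}
    (hc : Continuous (Function.uncurry h)) (hp : ∀ σ x, h (σ + 2 * π) x = h σ x)
    (hl : ∀ σ x x', |h σ x - h σ x'| ≤ dist x x') (hb : ∀ σ x, |h σ x| ≤ 1 / 4)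
    {W : ℝ → ℂ} {K : NNReal} (hW : LipschitzWith K W) (hW1 : ∀ θ, ‖W θ‖ ≤ 1 / 2)
    (hz : ∀ θ, zhC (W θ) = avgE fun σ => h σ (Ψ (pt (-y) θ))) :
    Gam (fun σ θ => h σ (Ψ (pt (-y) θ))) W ≤
      (∫ z in Cell (-L) (-y), lam z ^ 2) + ∑ j, cubeVolume (G j) := by
  obtain ⟨h', hc', hh'⟩ := exists_sigFam hc hp
  have hfam : HFam (d := 1) (1 / 2) h' := by
    refine ⟨hc', ?_, ?_⟩
    · intro s x x'
      obtain ⟨σ, _, _, rfl⟩ := circ_surj s
      rw [hh', hh']
      exact hl σ x x'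
    · intro s x
      obtain ⟨σ, _, _, rfl⟩ := circ_surj s
      rw [hh']
      exact (hb σ x).trans rho_ge
  obtain ⟨hI, hle⟩ := inner_sph hA hq hB hfam
  obtain ⟨Kc, hKc⟩ := ann_lip hA
  have hre : ∀ θ : ℝ, (pt (-y) θ).re = -y := by
    intro θ
    simp [pt]
  have hmem : ∀ θ : ℝ, pt (-y) θ ∈ {z : ℂ | -L ≤ z.re ∧ z.re ≤ -y} := by
    intro θ
    have h1 := hA.lt
    refine ⟨?_, ?_⟩
    · rw [hre]
      linarith
    · rw [hre]
  have hcL : LipschitzWith Kc fun θ => Ψ (pt (-y) θ) := by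
    refine LipschitzWith.of_dist_le_mul fun θ θ' => ?_
    refine (hKc.dist_le_mul _ (hmem θ) _ (hmem θ')).trans (le_of_eq ?_)
    congr 1
    rw [dist_eq_norm, Real.dist_eq]
    have h2 : pt (-y) θ - pt (-y) θ' = ((θ - θ' : ℝ) : ℂ) * Complex.I := by
      unfold pt
      push_cast
      ring
    rw [h2, norm_mul, Complex.norm_I, mul_one, Complex.norm_real, Real.norm_eq_abs]
  have hcp : ∀ θ, Ψ (pt (-y) (θ + 2 * π)) = Ψ (pt (-y) θ) := by
    intro θ
    have h1 := hA.per (pt (-y) θ) (hmem θ).1 (hmem θ).2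
    rw [← h1]
    congr 1
    unfold pt
    push_cast
    ring
  have hz' : ∀ θ, zhC (W θ) = avgE fun σ => h' (circ σ) (Ψ (pt (-y) θ)) := by
    intro θ
    rw [hz θ]
    congr 1
    funext σ
    rw [hh']
  have hG : Gam (fun σ θ => h σ (Ψ (pt (-y) θ))) W =
      ∫ s, 1 / 2 * cr (fun θ => gamf (d := 1) (1 / 2) h' s (Ψ (pt (-y) θ))) ∂(sigma 2) := by
    rw [integral_sigma hI.aestronglyMeasurable, smul_eq_mul]
    unfold Gam avg
    congr 1
    refine intervalIntegral.integral_congr fun σ _ => ?_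
    have h1 := cr_gamf hfam (hcL.weaken (le_max_left Kc K)) hcp (hW.weaken (le_max_right Kc K))
      hW1 hz' σ
    simp only [hh'] at h1
    exact h1.symm
  rw [hG]
  exact hle

end Pool.Agent.CC57
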