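import Pool.Agent.CC57.Ann
import Pool.Agent.CC57.GenInt
import Pool.Agent.H65G.Crit

set_option autoImplicit false

/-!
The inner inequality on the sphere `Sph 2`.  `gamf (1/2) h s` is Lipschitz; by `HasLoop` for
the loop `Ψ (pt (-L) θ)` and `det_ann`,
`∑_j ∫ det D(gamf s ∘ q_j) + ∫ det D(gamf s ∘ annq) = (1/2) cr (gamf s (Ψ (pt (-y) ·)))` for every `s`.
Integrate over `s` and use `cube_bound_fam` (`d = 1`, `k = 1/2`; `Crit 1 r` for `r ≤ 1/2` by `crit_of`)
for the squares `q_j` and for `annq` (`isRiem_ann`, `vol_ann`).  The integral of the right side is a sum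
of integrable functions.
`rho_ge`: `rho 1 (1/2) ≥ 1/4`: `arcsin m · m ≥ m²`, and the mean of `s₀²` is `1/2` (`moment_two`).
-/

open Real Set MeasureTheory
open scoped RealInnerProductSpace

namespace Pool.Agent.CC57

open Pool.Agent.H65G

private theorem arcsin_half_mul {t : ℝ} (h0 : -1 ≤ t) (h1 : t ≤ 1) :
    1 / 2 * t ^ 2 ≤ arcsin (1 / 2 * t) * t := by
  rcases le_total 0 t with h | h
  · have h2 : 0 ≤ arcsin (1 / 2 * t) := arcsin_nonneg.2 (by linarith)
    have h3 := sin_le h2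
    rw [sin_arcsin (by linarith) (by linarith)] at h3
    nlinarith
  · have h2 : 0 ≤ arcsin (-(1 / 2 * t)) := arcsin_nonneg.2 (by linarith)
    have h3 := sin_le h2
    rw [sin_arcsin (by linarith) (by linarith), arcsin_neg] at h3
    nlinarith

theorem rho_ge : 1 / 4 ≤ rho 1 (1 / 2) := by
  have h1 : ∫ s : Sph (1 + 1), 1 / 2 * (s : E (1 + 1)) 0 ^ 2 ∂(sigma (1 + 1)) = 1 / 4 := by
    rw [integral_const_mul, moment_two]
    norm_num
  rw [← h1, rho]
  have hc : Continuous (fun s : Sph (1 + 1) => (s : E (1 + 1)) 0) := continuous_s0 1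
  refine integral_mono (integrable_of_cont (by fun_prop)) (integrable_of_cont ?_) ?_
  · exact (continuous_arcsin.comp (continuous_const.mul hc)).mul hc
  · intro s
    have hs := s0_sq_le s
    exact arcsin_half_mul (by nlinarith) (by nlinarith)

theorem inner_sph {X : Type} [MetricSpace X] {L y : ℝ} {lam : ℂ → ℝ} {Ψ : ℂ → X}
    (hA : IsAnn L y lam Ψ) {m : ℕ} {q : Fin m → E 2 → X} {G : Fin m → E 2 → Matrix (Fin 2) (Fin 2) ℝ}
    (hq : ∀ j, IsRiemannianCube (q j) (G j)) (hB : HasLoop q fun θ => Ψ (pt (-L) θ))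
    {h : Sph 2 → X → ℝ}
    (hh : HFam (d := 1) (1 / 2) h) :
    Integrable (fun s => 1 / 2 * cr (fun θ => gamf (d := 1) (1 / 2) h s (Ψ (pt (-y) θ))))
      (sigma 2) ∧
    ∫ s, 1 / 2 * cr (fun θ => gamf (d := 1) (1 / 2) h s (Ψ (pt (-y) θ))) ∂(sigma 2) ≤
      (∫ z in Cell (-L) (-y), lam z ^ 2) + ∑ j, cubeVolume (G j) := by
  have hcrit : ∀ r : ℝ, 0 ≤ r → r ≤ 1 / 2 → Crit 1 r := by
    intro r hr0 hr1
    refine crit_of le_rfl hr0 (by linarith) (Or.inl ⟨rfl, ?_⟩)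
    nlinarith
  have hk0 : (0 : ℝ) < 1 / 2 := by norm_num
  have hk1 : (1 / 2 : ℝ) < 1 := by norm_num
  obtain ⟨K₂, hK₂0, hK₂⟩ := exists_lip_gamf (d := 1) hk0 hk1 hh
  have key : ∀ s : Sph 2, 1 / 2 * cr (fun θ => gamf (d := 1) (1 / 2) h s (Ψ (pt (-y) θ))) =
      (∫ p in cube 2, (fderiv ℝ (gamf (d := 1) (1 / 2) h s ∘ annq L y Ψ) p).det) +
      ∑ j, ∫ p in cube 2, (fderiv ℝ (gamf (d := 1) (1 / 2) h s ∘ q j) p).det := by
    intro s
    have hF : LipschitzWith K₂.toNNReal (gamf (d := 1) (1 / 2) h s) := by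
      apply LipschitzWith.of_dist_le_mul
      intro x x'
      rw [dist_eq_norm, Real.coe_toNNReal _ hK₂0]
      exact hK₂ s x x'
    have h1 := hB hF
    have h2 := det_ann hA hF
    rw [h1, h2]
    ring
  have ha := cube_bound_fam (d := 1) le_rfl hk0 hk1 hcrit hh (isRiem_ann hA)
  have hb := fun j => cube_bound_fam (d := 1) le_rfl hk0 hk1 hcrit hh (hq j)
  simp only [key]
  have hs : Integrable (fun s : Sph 2 => ∑ j, ∫ p in cube 2,
      (fderiv ℝ (gamf (d := 1) (1 / 2) h s ∘ q j) p).det) (sigma 2) :=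
    integrable_finsetSum _ fun j _ => (hb j).1
  refine ⟨ha.1.add hs, ?_⟩
  have h3 : ∫ s : Sph 2, ((∫ p in cube 2,
      (fderiv ℝ (gamf (d := 1) (1 / 2) h s ∘ annq L y Ψ) p).det) +
      ∑ j, ∫ p in cube 2, (fderiv ℝ (gamf (d := 1) (1 / 2) h s ∘ q j) p).det) ∂(sigma 2) =
      (∫ s : Sph 2, (∫ p in cube 2,
        (fderiv ℝ (gamf (d := 1) (1 / 2) h s ∘ annq L y Ψ) p).det) ∂(sigma 2)) +
      ∑ j, ∫ s : Sph 2, (∫ p in cube 2,
        (fderiv ℝ (gamf (d := 1) (1 / 2) h s ∘ q j) p).det) ∂(sigma 2) := by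
    rw [integral_add ha.1 hs, integral_finsetSum _ fun j _ => (hb j).1]
  rw [h3]
  refine add_le_add ?_ (Finset.sum_le_sum fun j _ => (hb j).2)
  rw [← vol_ann hA]
  exact ha.2

end Pool.Agent.CC57
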