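import Pool.Agent.CC57.InnerA
import Pool.Agent.CC57.SphDer
import Pool.Agent.CC57.Zh

set_option autoImplicit false

/-!
The form on the loop, in the complex coordinate.  `h' : Sph 2 → X → ℝ` is an `HFam (d := 1) (1/2)`,
`c : ℝ → X` is a Lipschitz periodic loop, `W θ ∈ ℂ` with `‖W θ‖ ≤ 1/2` and
`zhC (W θ) = avgE (fun σ => h' (circ σ) (c θ))`.
Put `w θ = wfam (1/2) h' (c θ) : E 2`.  Then `w θ = (Re W θ, Im W θ)` (`wfam_W`): both have norm `≤ 1/2` and
the same image under `zh` (`wfam_spec`, `zh_circ`, `integral_sigma`), `zh_inj`.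
For `s = circ σ`, `s^⊥ = (-sin σ, cos σ)`: `⟨w, s⟩ = inn W σ`, `w - ⟨w,s⟩ s = inp W σ s^⊥`, so
`gamf s (c θ) = a s + T s^⊥` with `a = 2 h' s (c θ) - gx (W θ) σ`, `T = Tx (W θ) σ` (unfold
`H65G.psi`, which is irreducible: `rw [Pool.Agent.H65G.psi]` or `unfold`).  In the positive orthonormal
basis `s, s^⊥`: `cr = ∮ (a T' - T a') = 2 ∮ a T'` (integration by parts for Lipschitz periodic functions)
and `T' = DT (W θ) σ (W' θ)` for a.e. `θ` (`hasDerivAt_Tx_comp`).
-/

open Real Set MeasureTheory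
open scoped RealInnerProductSpace

namespace Pool.Agent.CC57

open Pool.Agent.H65G

private theorem circ_coord_zero (σ : ℝ) : (circ σ : E 2) 0 = cos σ := by
  simp [circ]

private theorem circ_coord_one (σ : ℝ) : (circ σ : E 2) 1 = sin σ := by
  simp [circ]

private theorem inner_circ (w : ℂ) (σ : ℝ) :
    ⟪(WithLp.toLp 2 ![w.re, w.im] : E 2), (circ σ : E 2)⟫ = inn w σ := by
  simp only [PiLp.inner_apply, Fin.sum_univ_two, circ_coord_zero, circ_coord_one, inn]
  simp
  ring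

theorem wfam_W {X : Type} [MetricSpace X] {h' : Sph 2 → X → ℝ} (hh : HFam (d := 1) (1 / 2) h')
    {x : X} {w : ℂ} (hw : ‖w‖ ≤ 1 / 2) (hz : zhC w = avgE fun σ => h' (circ σ) x) :
    wfam (d := 1) (1 / 2) h' x = (WithLp.toLp 2 ![w.re, w.im] : E 2) := by
  have hspec := wfam_spec (d := 1) (k := 1 / 2) (by norm_num) hh x
  have h1 : ‖(WithLp.toLp 2 ![w.re, w.im] : E 2)‖ ≤ 1 / 2 := by
    rw [EuclideanSpace.norm_eq]
    rw [Complex.norm_eq_sqrt_sq_add_sq] at hw
    simpa [Fin.sum_univ_two] using hw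
  have hcx : Continuous fun s : Sph 2 => h' s x :=
    hh.cont.comp (continuous_id.prodMk continuous_const)
  have hcσ : Continuous fun σ : ℝ => h' (circ σ) x := hcx.comp continuous_circ
  have hint : IntervalIntegrable (fun σ : ℝ => h' (circ σ) x) volume 0 (2 * π) :=
    hcσ.intervalIntegrable _ _
  refine zh_inj (d := 1) (hspec.1.trans (by norm_num)) (h1.trans (by norm_num)) ?_
  rw [hspec.2]
  have hcoord : ∀ i : Fin 2, (zfam h' x) i =
      (2 * π)⁻¹ * ∫ σ in (0 : ℝ)..2 * π, h' (circ σ) x * (circ σ : E 2) i := by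
    intro i
    unfold zfam
    rw [integral_coord_apply (integrable_zfam hh x)]
    simp only [PiLp.smul_apply, smul_eq_mul]
    rw [integral_sigma, smul_eq_mul]
    apply Continuous.aestronglyMeasurable
    exact hcx.mul ((EuclideanSpace.proj (𝕜 := ℝ) i : E 2 →L[ℝ] ℝ).continuous.comp
      continuous_subtype_val)
  obtain ⟨hz0, hz1⟩ := zh_circ w
  rw [hz] at hz0 hz1
  rw [avgE_re hint, avg] at hz0
  rw [avgE_im hint, avg] at hz1
  ext i
  fin_cases i
  · show (zfam h' x) 0 = (zh (WithLp.toLp 2 ![w.re, w.im] : E 2)) 0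
    rw [hcoord 0, ← hz0]
    simp only [circ_coord_zero]
  · show (zfam h' x) 1 = (zh (WithLp.toLp 2 ![w.re, w.im] : E 2)) 1
    rw [hcoord 1, ← hz1]
    simp only [circ_coord_one]

private theorem gamf_coord {X : Type} [MetricSpace X] {h' : Sph 2 → X → ℝ}
    (hh : HFam (d := 1) (1 / 2) h') {x : X} {w : ℂ} (hw : ‖w‖ ≤ 1 / 2)
    (hz : zhC w = avgE fun σ => h' (circ σ) x) (σ : ℝ) :
    (gamf (d := 1) (1 / 2) h' (circ σ) x) 0 =
        (2 * h' (circ σ) x - gx w σ) * cos σ - Tx w σ * sin σ ∧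
      (gamf (d := 1) (1 / 2) h' (circ σ) x) 1 =
        (2 * h' (circ σ) x - gx w σ) * sin σ + Tx w σ * cos σ := by
  have hsc := sin_sq_add_cos_sq σ
  unfold gamf
  rw [wfam_W hh hw hz, Pool.Agent.H65G.psi, inner_circ]
  have hq : Tx w σ = (√(1 - inn w σ ^ 2))⁻¹ * inp w σ := by
    rw [Tx, qx, div_eq_inv_mul]
  rw [hq]
  constructor
  · simp only [PiLp.add_apply, PiLp.smul_apply, PiLp.sub_apply, smul_eq_mul, circ_coord_zero, gx,
      inp]
    simp
    unfold inn
    generalize (√(1 - (w.re * cos σ + w.im * sin σ) ^ 2))⁻¹ = Q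
    generalize arcsin (w.re * cos σ + w.im * sin σ) = A
    linear_combination (-Q * w.re) * hsc
  · simp only [PiLp.add_apply, PiLp.smul_apply, PiLp.sub_apply, smul_eq_mul, circ_coord_one, gx,
      inp]
    simp
    unfold inn
    generalize (√(1 - (w.re * cos σ + w.im * sin σ) ^ 2))⁻¹ = Q
    generalize arcsin (w.re * cos σ + w.im * sin σ) = A
    linear_combination (-Q * w.im) * hsc

theorem cr_gamf {X : Type} [MetricSpace X] {h' : Sph 2 → X → ℝ} (hh : HFam (d := 1) (1 / 2) h')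
    {c : ℝ → X} {K : NNReal} (hcL : LipschitzWith K c) (hcp : ∀ θ, c (θ + 2 * π) = c θ)
    {W : ℝ → ℂ} (hW : LipschitzWith K W) (hW1 : ∀ θ, ‖W θ‖ ≤ 1 / 2)
    (hz : ∀ θ, zhC (W θ) = avgE fun σ => h' (circ σ) (c θ)) (σ : ℝ) :
    1 / 2 * cr (fun θ => gamf (d := 1) (1 / 2) h' (circ σ) (c θ)) =
      ∫ θ in (0 : ℝ)..2 * π, (2 * h' (circ σ) (c θ) - gx (W θ) σ) * DT (W θ) σ (deriv W θ) := by
  have hWp : W (2 * π) = W 0 := by
    have h1 := zhC_expand ((hW1 (2 * π)).trans (by norm_num)) ((hW1 0).trans (by norm_num))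
    have h2 : c (2 * π) = c 0 := by
      have := hcp 0
      rwa [zero_add] at this
    rw [hz (2 * π), hz 0, h2, sub_self, norm_zero, mul_zero] at h1
    exact sub_eq_zero.1 (norm_le_zero_iff.1 h1)
  have hcp0 : c (2 * π) = c 0 := by
    have := hcp 0
    rwa [zero_add] at this
  set a : ℝ → ℝ := fun θ => 2 * h' (circ σ) (c θ) - gx (W θ) σ with ha
  set T : ℝ → ℝ := fun θ => Tx (W θ) σ with hT
  have haL : LipschitzWith (4 * K) a := by
    refine LipschitzWith.of_dist_le_mul fun θ θ' => ?_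
    have h1 := hh.lip (circ σ) (c θ) (c θ')
    have h2 := gx_lip (hW1 θ) (hW1 θ') σ
    have h3 := hcL.dist_le_mul θ θ'
    have h4 := hW.dist_le_mul θ θ'
    rw [dist_eq_norm (W θ) (W θ')] at h4
    rw [Real.dist_eq]
    push_cast
    have h5 : a θ - a θ' = 2 * (h' (circ σ) (c θ) - h' (circ σ) (c θ')) -
        (gx (W θ) σ - gx (W θ') σ) := by
      simp only [ha]
      ring
    rw [h5]
    refine (abs_sub _ _).trans ?_
    rw [abs_mul, abs_two]
    linarith
  have hTL : LipschitzWith (2 * K) T := by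
    refine LipschitzWith.of_dist_le_mul fun θ θ' => ?_
    have h2 := Tx_lip (hW1 θ) (hW1 θ') σ
    have h4 := hW.dist_le_mul θ θ'
    rw [dist_eq_norm (W θ) (W θ')] at h4
    rw [Real.dist_eq]
    push_cast
    simp only [hT]
    linarith
  have haAC : AbsolutelyContinuousOnInterval a 0 (2 * π) :=
    (haL.lipschitzOnWith (s := uIcc 0 (2 * π))).absolutelyContinuousOnInterval
  have hTAC : AbsolutelyContinuousOnInterval T 0 (2 * π) :=
    (hTL.lipschitzOnWith (s := uIcc 0 (2 * π))).absolutelyContinuousOnInterval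
  have hf0 : ∀ θ, (gamf (d := 1) (1 / 2) h' (circ σ) (c θ)) 0 = a θ * cos σ - T θ * sin σ :=
    fun θ => (gamf_coord hh (hW1 θ) (hz θ) σ).1
  have hf1 : ∀ θ, (gamf (d := 1) (1 / 2) h' (circ σ) (c θ)) 1 = a θ * sin σ + T θ * cos σ :=
    fun θ => (gamf_coord hh (hW1 θ) (hz θ) σ).2
  have hsc := sin_sq_add_cos_sq σ
  have hcr : cr (fun θ => gamf (d := 1) (1 / 2) h' (circ σ) (c θ)) =
      ∫ θ in (0 : ℝ)..2 * π, (a θ * deriv T θ - T θ * deriv a θ) := by
    unfold cr
    simp only [hf0, hf1]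
    refine intervalIntegral.integral_congr_ae ?_
    filter_upwards [haL.ae_differentiableAt (μ := volume), hTL.ae_differentiableAt (μ := volume)]
      with θ h1 h2 _
    have e1 : deriv (fun θ => a θ * sin σ + T θ * cos σ) θ =
        deriv a θ * sin σ + deriv T θ * cos σ :=
      ((h1.hasDerivAt.mul_const _).add (h2.hasDerivAt.mul_const _)).deriv
    have e2 : deriv (fun θ => a θ * cos σ - T θ * sin σ) θ =
        deriv a θ * cos σ - deriv T θ * sin σ :=
      ((h1.hasDerivAt.mul_const _).sub (h2.hasDerivAt.mul_const _)).deriv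
    rw [e1, e2]
    linear_combination (a θ * deriv T θ - T θ * deriv a θ) * hsc
  have hi1 : IntervalIntegrable (fun θ => a θ * deriv T θ) volume 0 (2 * π) :=
    hTAC.intervalIntegrable_deriv.continuousOn_mul haAC.continuousOn
  have hi2 : IntervalIntegrable (fun θ => T θ * deriv a θ) volume 0 (2 * π) :=
    haAC.intervalIntegrable_deriv.continuousOn_mul hTAC.continuousOn
  have hparts := hTAC.integral_mul_deriv_eq_deriv_mul haAC
  have hper : T (2 * π) * a (2 * π) - T 0 * a 0 = 0 := by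
    simp only [hT, ha, hWp, hcp0]
    ring
  have hcomm : ∫ θ in (0 : ℝ)..2 * π, deriv T θ * a θ =
      ∫ θ in (0 : ℝ)..2 * π, a θ * deriv T θ := by
    congr 1
    ext θ
    ring
  rw [hper, zero_sub, hcomm] at hparts
  rw [hcr, intervalIntegral.integral_sub hi1 hi2, hparts]
  have hfin : ∫ θ in (0 : ℝ)..2 * π, a θ * deriv T θ =
      ∫ θ in (0 : ℝ)..2 * π, (2 * h' (circ σ) (c θ) - gx (W θ) σ) *
        DT (W θ) σ (deriv W θ) := by
    refine intervalIntegral.integral_congr_ae ?_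
    filter_upwards [hW.ae_differentiableAt (μ := volume)] with θ h1 _
    have e1 : deriv T θ = DT (W θ) σ (deriv W θ) :=
      (hasDerivAt_Tx_comp h1.hasDerivAt (lt_of_le_of_lt (hW1 θ) (by norm_num)) σ).deriv
    rw [e1]
  rw [← hfin]
  ring

end Pool.Agent.CC57
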