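import Pool.Agent.CC57.ErrZ

set_option autoImplicit false

/-!
Pointwise lower bound of `-2 Jt`.  Put `u = du X W`, `v = zhC W - zhC X`, `g_t = gx (w_t) σ`,
`e1 = g_t - gx X σ - t inn u` (`err_g`), `e2 = DT(w_t)[u] - inp u` (`err_t`),
`e3 = (2 inn v - inn u) - e1` (`err_z`), `η σ θ = h σ θ - gx (X θ) σ - 2 inn (v θ) σ`.  Then
`h σ - g_t = (1 - t) inn u + η + e3`, `DT(w_t)[u] = inp u + e2`, and (all functions are in `LP`, so a.e.
differentiable and the integrals can be split)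
`Jt = (1-t) ∮ inp u (inn u)' + ∮ inp u η' + ∮ inp u e3' + ∮ e2 ((1-t) inn u + η + e3)'`.
Bounds by `abs_int_le` (`|∮ f g'| ≤ π (κ⁻¹ hs f + κ hs g)`):
`|∮ inp u e3'| ≤ π (ε hs(inp u) + ε⁻¹ hs e3) ≤ C ε nu`, `|∮ e2 ((1-t) inn u)'| ≤ C ε nu` (`κ = ε`),
`|∮ e2 η'| ≤ π (ε⁻¹ hs e2 + ε hs η) ≤ C ε nu + π ε hs η`, `|∮ e2 e3'| ≤ π (hs e2 + hs e3) ≤ C ε² nu`,
with `hs (inn u)`, `hs (inp u) ≤ 2 hsC u ≤ 2 nu` (`hs_add_le`, `hs_mul_left`, `hs_re_add_hs_im`) and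
`hs e3 ≤ 2 hs (2 inn v - inn u) + 2 hs e1`.
-/

open Real MeasureTheory Set

namespace Pool.Agent.CC57

/-- The part of `h_σ - g_σ(X)` orthogonal to `e^{iσ}`. -/
noncomputable def eta (h : ℝ → ℝ → ℝ) (X W : ℝ → ℂ) (σ θ : ℝ) : ℝ :=
  h σ θ - gx (X θ) σ - 2 * inn (zhC (W θ) - zhC (X θ)) σ

private lemma lp_add {f g : ℝ → ℝ} (hf : LP f) (hg : LP g) : LP (fun θ => f θ + g θ) := by
  obtain ⟨⟨K1, h1⟩, p1⟩ := hf
  obtain ⟨⟨K2, h2⟩, p2⟩ := hg
  refine ⟨⟨K1 + K2, h1.add h2⟩, fun θ => ?_⟩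
  simp only [p1, p2]

private lemma lp_sub {f g : ℝ → ℝ} (hf : LP f) (hg : LP g) : LP (fun θ => f θ - g θ) := by
  obtain ⟨⟨K1, h1⟩, p1⟩ := hf
  obtain ⟨⟨K2, h2⟩, p2⟩ := hg
  refine ⟨⟨K1 + K2, h1.sub h2⟩, fun θ => ?_⟩
  simp only [p1, p2]

private lemma lp_mul {f : ℝ → ℝ} (hf : LP f) (c : ℝ) : LP (fun θ => c * f θ) := by
  obtain ⟨⟨K1, h1⟩, p1⟩ := hf
  refine ⟨⟨‖c‖₊ * K1, LipschitzWith.of_dist_le_mul fun x y => ?_⟩, fun θ => ?_⟩
  · rw [dist_eq_norm, ← mul_sub, norm_mul, NNReal.coe_mul, coe_nnnorm, mul_assoc, ← dist_eq_norm]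
    exact mul_le_mul_of_nonneg_left (h1.dist_le_mul x y) (norm_nonneg c)
  · simp only [p1]

private lemma lp_cont {f : ℝ → ℝ} (hf : LP f) : Continuous f := by
  obtain ⟨⟨K1, h1⟩, -⟩ := hf
  exact h1.continuous

private lemma lp_ii_deriv {g : ℝ → ℝ} (hg : LP g) : IntervalIntegrable (deriv g) volume 0 (2 * π) := by
  obtain ⟨⟨K, h⟩, -⟩ := hg
  rw [intervalIntegrable_iff]
  refine Measure.integrableOn_of_bounded (M := K) ?_ (measurable_deriv g).aestronglyMeasurable ?_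
  · rw [uIoc]
    simp
  · exact Filter.Eventually.of_forall fun θ => norm_deriv_le_of_lipschitz h

private lemma lp_ii {f g : ℝ → ℝ} (hf : LP f) (hg : LP g) :
    IntervalIntegrable (fun θ => f θ * deriv g θ) volume 0 (2 * π) :=
  (lp_ii_deriv hg).continuousOn_mul (lp_cont hf).continuousOn

private lemma lp_diff {g : ℝ → ℝ} (hg : LP g) : ∀ᵐ θ : ℝ, DifferentiableAt ℝ g θ := by
  obtain ⟨⟨K, h⟩, -⟩ := hg
  exact h.ae_differentiableAt

private lemma B_add_left {f1 f2 g : ℝ → ℝ} (hf1 : LP f1) (hf2 : LP f2) (hg : LP g) :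
    ∫ θ in (0 : ℝ)..2 * π, (f1 θ + f2 θ) * deriv g θ =
      (∫ θ in (0 : ℝ)..2 * π, f1 θ * deriv g θ) + ∫ θ in (0 : ℝ)..2 * π, f2 θ * deriv g θ := by
  rw [← intervalIntegral.integral_add (lp_ii hf1 hg) (lp_ii hf2 hg)]
  refine intervalIntegral.integral_congr fun θ _ => ?_
  exact add_mul _ _ _

private lemma B_add_right {f g1 g2 : ℝ → ℝ} (hf : LP f) (hg1 : LP g1) (hg2 : LP g2) :
    ∫ θ in (0 : ℝ)..2 * π, f θ * deriv (fun θ => g1 θ + g2 θ) θ =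
      (∫ θ in (0 : ℝ)..2 * π, f θ * deriv g1 θ) + ∫ θ in (0 : ℝ)..2 * π, f θ * deriv g2 θ := by
  rw [← intervalIntegral.integral_add (lp_ii hf hg1) (lp_ii hf hg2)]
  refine intervalIntegral.integral_congr_ae ?_
  filter_upwards [lp_diff hg1, lp_diff hg2] with θ h1 h2 _
  rw [deriv_fun_add h1 h2, mul_add]

private lemma B_mul_right {f g : ℝ → ℝ} (c : ℝ) :
    ∫ θ in (0 : ℝ)..2 * π, f θ * deriv (fun θ => c * g θ) θ =
      c * ∫ θ in (0 : ℝ)..2 * π, f θ * deriv g θ := by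
  rw [← intervalIntegral.integral_const_mul]
  refine intervalIntegral.integral_congr fun θ _ => ?_
  show f θ * deriv (fun θ => c * g θ) θ = c * (f θ * deriv g θ)
  rw [deriv_const_mul_field]
  ring

private lemma lp_abs {f g : ℝ → ℝ} (hf : LP f) (hg : LP g) {κ : ℝ} (hκ : 0 < κ) :
    |∫ θ in (0 : ℝ)..2 * π, f θ * deriv g θ| ≤ π * (κ⁻¹ * hs f + κ * hs g) := by
  obtain ⟨⟨K1, h1⟩, p1⟩ := hf
  obtain ⟨⟨K2, h2⟩, p2⟩ := hg
  exact abs_int_le (h1.weaken (le_max_left K1 K2)) (h2.weaken (le_max_right K1 K2)) p1 p2 hκ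

private lemma lp_hs_add {f g : ℝ → ℝ} (hf : LP f) (hg : LP g) :
    hs (fun θ => f θ + g θ) ≤ 2 * hs f + 2 * hs g := by
  obtain ⟨⟨K1, h1⟩, p1⟩ := hf
  obtain ⟨⟨K2, h2⟩, p2⟩ := hg
  exact hs_add_le (h1.weaken (le_max_left K1 K2)) (h2.weaken (le_max_right K1 K2)) p1 p2

private lemma lp_hs_sub {f g : ℝ → ℝ} (hf : LP f) (hg : LP g) :
    hs (fun θ => f θ - g θ) ≤ 2 * hs f + 2 * hs g := by
  have h1 := lp_hs_add hf (lp_mul hg (-1))
  have e1 : (fun θ => f θ + -1 * g θ) = fun θ => f θ - g θ := by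
    funext θ
    ring
  rw [e1, hs_mul_left] at h1
  linarith

private lemma jb_uL {ε : ℝ} {K : NNReal} {X W : ℝ → ℂ} (hD : Curves ε K X W) :
    LipschitzWith (K + K) (du X W) := by
  unfold du
  exact hD.WL.sub hD.XL

private lemma jb_up {ε : ℝ} {K : NNReal} {X W : ℝ → ℂ} (hD : Curves ε K X W) (θ : ℝ) :
    du X W (θ + 2 * π) = du X W θ := by
  unfold du
  rw [hD.Wp, hD.Xp]

private lemma jb_lp {u : ℝ → ℂ} {K : NNReal} (hu : LipschitzWith K u)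
    (hp : ∀ θ, u (θ + 2 * π) = u θ) (F : ℂ → ℝ) (hF : ∀ a b, |F a - F b| ≤ ‖a - b‖) :
    LP (fun θ => F (u θ)) := by
  refine ⟨⟨K, LipschitzWith.of_dist_le_mul fun x y => ?_⟩, fun θ => by simp only [hp]⟩
  rw [Real.dist_eq]
  refine (hF _ _).trans ?_
  rw [← dist_eq_norm]
  exact hu.dist_le_mul x y

private lemma jb_reLP {u : ℝ → ℂ} {K : NNReal} (hu : LipschitzWith K u)
    (hp : ∀ θ, u (θ + 2 * π) = u θ) : LP (fun θ => (u θ).re) :=
  jb_lp hu hp Complex.re fun a b => by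
    rw [← Complex.sub_re]
    exact Complex.abs_re_le_norm _

private lemma jb_imLP {u : ℝ → ℂ} {K : NNReal} (hu : LipschitzWith K u)
    (hp : ∀ θ, u (θ + 2 * π) = u θ) : LP (fun θ => (u θ).im) :=
  jb_lp hu hp Complex.im fun a b => by
    rw [← Complex.sub_im]
    exact Complex.abs_im_le_norm _

private lemma jb_hs {u : ℝ → ℂ} {K : NNReal} (hu : LipschitzWith K u)
    (hp : ∀ θ, u (θ + 2 * π) = u θ) (a b : ℝ) (ha : a ^ 2 ≤ 1) (hb : b ^ 2 ≤ 1) :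
    hs (fun θ => a * (u θ).re + b * (u θ).im) ≤ 2 * hsC u := by
  have h1 := lp_hs_add (lp_mul (jb_reLP hu hp) a) (lp_mul (jb_imLP hu hp) b)
  rw [hs_mul_left, hs_mul_left] at h1
  have h2 := hs_re_add_hs_im hu hp
  have h3 := hs_nonneg fun θ => (u θ).re
  have h4 := hs_nonneg fun θ => (u θ).im
  have h5 : a ^ 2 * hs (fun θ => (u θ).re) ≤ 1 * hs (fun θ => (u θ).re) :=
    mul_le_mul_of_nonneg_right ha h3
  have h6 : b ^ 2 * hs (fun θ => (u θ).im) ≤ 1 * hs (fun θ => (u θ).im) :=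
    mul_le_mul_of_nonneg_right hb h4
  linarith

private lemma jb_arith {ε N H C2 C4 hf ha he2 he3 t b1 b2 b3 b4 : ℝ} (hε : 0 < ε) (hε1 : ε ≤ 1 / 2)
    (hN : 0 ≤ N) (hH : 0 ≤ H) (hC2 : 0 < C2) (hC4 : 0 < C4) (h1 : hf ≤ 2 * N) (h2 : ha ≤ 2 * N)
    (h3 : he2 ≤ C2 * ε ^ 2 * N) (h4 : he3 ≤ C4 * ε ^ 2 * N) (ht0 : 0 ≤ t) (ht1 : t ≤ 1)
    (k1 : |b1| ≤ π * (ε⁻¹⁻¹ * hf + ε⁻¹ * he3)) (k2 : |b2| ≤ π * (ε⁻¹ * he2 + ε * ha))
    (k3 : |b3| ≤ π * (ε⁻¹ * he2 + ε * H)) (k4 : |b4| ≤ π * (1⁻¹ * he2 + 1 * he3)) :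
    2 * b1 + 2 * ((1 - t) * b2) + 2 * b3 + 2 * b4 ≤
      2 * π * (4 + 3 * C2 + 2 * C4) * ε * N + 2 * π * (4 + 3 * C2 + 2 * C4) * ε * H := by
  have hpi := Real.pi_pos
  have e1 : ε⁻¹ * he2 ≤ C2 * ε * N := by
    calc ε⁻¹ * he2 ≤ ε⁻¹ * (C2 * ε ^ 2 * N) := mul_le_mul_of_nonneg_left h3 (by positivity)
      _ = C2 * ε * N := by field_simp
  have e2 : ε⁻¹ * he3 ≤ C4 * ε * N := by
    calc ε⁻¹ * he3 ≤ ε⁻¹ * (C4 * ε ^ 2 * N) := mul_le_mul_of_nonneg_left h4 (by positivity)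
      _ = C4 * ε * N := by field_simp
  have e3 : ε ^ 2 * N ≤ ε * N := by
    have : ε ^ 2 ≤ ε := by nlinarith
    exact mul_le_mul_of_nonneg_right this hN
  have e4 : he2 ≤ C2 * (ε * N) := by
    calc he2 ≤ C2 * ε ^ 2 * N := h3
      _ = C2 * (ε ^ 2 * N) := by ring
      _ ≤ C2 * (ε * N) := mul_le_mul_of_nonneg_left e3 hC2.le
  have e5 : he3 ≤ C4 * (ε * N) := by
    calc he3 ≤ C4 * ε ^ 2 * N := h4
      _ = C4 * (ε ^ 2 * N) := by ring
      _ ≤ C4 * (ε * N) := mul_le_mul_of_nonneg_left e3 hC4.le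
  have e6 : ε * hf ≤ ε * (2 * N) := mul_le_mul_of_nonneg_left h1 hε.le
  have e7 : ε * ha ≤ ε * (2 * N) := mul_le_mul_of_nonneg_left h2 hε.le
  rw [inv_inv] at k1
  rw [inv_one, one_mul, one_mul] at k4
  have f1 : |b1| ≤ π * ((2 + C4) * (ε * N)) := by
    refine k1.trans (mul_le_mul_of_nonneg_left ?_ hpi.le)
    linarith
  have f2 : |b2| ≤ π * ((2 + C2) * (ε * N)) := by
    refine k2.trans (mul_le_mul_of_nonneg_left ?_ hpi.le)
    linarith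
  have f3 : |b3| ≤ π * (C2 * (ε * N) + ε * H) := by
    refine k3.trans (mul_le_mul_of_nonneg_left ?_ hpi.le)
    linarith
  have f4 : |b4| ≤ π * ((C2 + C4) * (ε * N)) := by
    refine k4.trans (mul_le_mul_of_nonneg_left ?_ hpi.le)
    linarith
  have g1 := le_abs_self b1
  have g3 := le_abs_self b3
  have g4 := le_abs_self b4
  have g2 : (1 - t) * b2 ≤ |b2| := by
    have h5 : (1 - t) * b2 ≤ (1 - t) * |b2| :=
      mul_le_mul_of_nonneg_left (le_abs_self b2) (by linarith)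
    have h6 : (1 - t) * |b2| ≤ 1 * |b2| :=
      mul_le_mul_of_nonneg_right (by linarith) (abs_nonneg b2)
    linarith
  have hEN : 0 ≤ ε * N := mul_nonneg hε.le hN
  have hEH : 0 ≤ ε * H := mul_nonneg hε.le hH
  have g5 : 0 ≤ π * (C2 * (ε * H)) := by positivity
  have g6 : 0 ≤ π * (C4 * (ε * H)) := by positivity
  have g7 : 0 ≤ π * (ε * H) := by positivity
  nlinarith

theorem J_bound : ∃ C : ℝ, 0 < C ∧ ∀ (ε : ℝ) (K : NNReal) (X W : ℝ → ℂ) (h : ℝ → ℝ → ℝ),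
    Curves ε K X W → (∀ σ, LipschitzWith K (h σ)) → (∀ σ θ, h σ (θ + 2 * π) = h σ θ) →
    ∀ (σ t : ℝ), 0 ≤ t → t ≤ 1 →
    -2 * (1 - t) * (∫ θ in (0 : ℝ)..2 * π, inp (du X W θ) σ * deriv (fun θ => inn (du X W θ) σ) θ) -
      2 * (∫ θ in (0 : ℝ)..2 * π, inp (du X W θ) σ * deriv (eta h X W σ) θ) -
      C * ε * nu X W - C * ε * hs (eta h X W σ) ≤ -2 * Jt h X W σ t := by
  obtain ⟨C1, hC1, H1⟩ := err_g
  obtain ⟨C2, hC2, H2⟩ := err_t
  obtain ⟨C3, hC3, H3⟩ := err_z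
  refine ⟨2 * π * (4 + 3 * C2 + 2 * (2 * C3 + 2 * C1)), by positivity, ?_⟩
  intro ε K X W h hD hL hp σ t ht0 ht1
  obtain ⟨L1, B1⟩ := H1 ε K X W hD σ t ht0 ht1
  obtain ⟨L2, B2⟩ := H2 ε K X W hD σ t ht0 ht1
  obtain ⟨L3, B3⟩ := H3 ε K X W hD σ
  set e1 : ℝ → ℝ := fun θ => gx (wt X W t θ) σ - gx (X θ) σ - t * inn (du X W θ) σ with he1
  set e2 : ℝ → ℝ := fun θ => DT (wt X W t θ) σ (du X W θ) - inp (du X W θ) σ with he2
  set ez : ℝ → ℝ := fun θ => 2 * inn (zhC (W θ) - zhC (X θ)) σ - inn (du X W θ) σ with hez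
  have hu := jb_uL hD
  have hup := jb_up hD
  have hsc := sin_sq_add_cos_sq σ
  have La : LP (fun θ => inn (du X W θ) σ) := jb_lp hu hup (fun z => inn z σ) fun a b => by
    rw [← inn_sub]
    exact abs_inn_le _ _
  have Lf : LP (fun θ => inp (du X W θ) σ) := jb_lp hu hup (fun z => inp z σ) fun a b => by
    rw [← inp_sub]
    exact abs_inp_le _ _
  have Lg : LP (fun θ => gx (X θ) σ) := by
    refine ⟨⟨2 * K, LipschitzWith.of_dist_le_mul fun x y => ?_⟩, fun θ => by simp only [hD.Xp]⟩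
    rw [Real.dist_eq, NNReal.coe_mul, NNReal.coe_ofNat, mul_assoc]
    refine (gx_lip ((hD.Xb x).trans hD.le) ((hD.Xb y).trans hD.le) σ).trans ?_
    rw [← dist_eq_norm]
    exact mul_le_mul_of_nonneg_left (hD.XL.dist_le_mul x y) (by norm_num)
  have Lh : LP (h σ) := ⟨⟨K, hL σ⟩, hp σ⟩
  have Leta : LP (eta h X W σ) := by
    have h1 := lp_sub (lp_sub Lh Lg) (lp_add L3 La)
    have h2 : (fun θ => h σ θ - gx (X θ) σ - (ez θ + inn (du X W θ) σ)) = eta h X W σ := by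
      funext θ
      rw [hez]
      unfold eta
      ring
    rwa [h2] at h1
  set e3 : ℝ → ℝ := fun θ => ez θ - e1 θ with he3
  have Le3 : LP e3 := lp_sub L3 L1
  have hnu : hsC (du X W) ≤ nu X W := by
    unfold nu
    have := sq_nonneg ‖cf (du X W) 0‖
    linarith
  have hN : 0 ≤ nu X W := (hsC_nonneg _).trans hnu
  have hfb : hs (fun θ => inp (du X W θ) σ) ≤ 2 * nu X W := by
    have h1 := jb_hs hu hup (-sin σ) (cos σ) (by nlinarith [sq_nonneg (cos σ)])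
      (by nlinarith [sq_nonneg (sin σ)])
    have h2 : (fun θ => -sin σ * (du X W θ).re + cos σ * (du X W θ).im) =
        fun θ => inp (du X W θ) σ := by
      funext θ
      unfold inp
      ring
    rw [h2] at h1
    linarith
  have hab : hs (fun θ => inn (du X W θ) σ) ≤ 2 * nu X W := by
    have h1 := jb_hs hu hup (cos σ) (sin σ) (by nlinarith [sq_nonneg (sin σ)])
      (by nlinarith [sq_nonneg (cos σ)])
    have h2 : (fun θ => cos σ * (du X W θ).re + sin σ * (du X W θ).im) =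
        fun θ => inn (du X W θ) σ := by
      funext θ
      unfold inn
      ring
    rw [h2] at h1
    linarith
  have hB3 : hs e3 ≤ (2 * C3 + 2 * C1) * ε ^ 2 * nu X W := by
    have h1 := lp_hs_sub L3 L1
    have h2 : hs e3 ≤ 2 * hs ez + 2 * hs e1 := h1
    calc hs e3 ≤ 2 * hs ez + 2 * hs e1 := h2
      _ ≤ 2 * (C3 * ε ^ 2 * nu X W) + 2 * (C1 * ε ^ 2 * nu X W) := by gcongr
      _ = _ := by ring
  -- the expansion
  have hexp : Jt h X W σ t =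
      (1 - t) * (∫ θ in (0 : ℝ)..2 * π, inp (du X W θ) σ * deriv (fun θ => inn (du X W θ) σ) θ) +
      (∫ θ in (0 : ℝ)..2 * π, inp (du X W θ) σ * deriv (eta h X W σ) θ) +
      (∫ θ in (0 : ℝ)..2 * π, inp (du X W θ) σ * deriv e3 θ) +
      (1 - t) * (∫ θ in (0 : ℝ)..2 * π, e2 θ * deriv (fun θ => inn (du X W θ) σ) θ) +
      (∫ θ in (0 : ℝ)..2 * π, e2 θ * deriv (eta h X W σ) θ) +
      (∫ θ in (0 : ℝ)..2 * π, e2 θ * deriv e3 θ) := by
    have g1 : Jt h X W σ t = ∫ θ in (0 : ℝ)..2 * π, (inp (du X W θ) σ + e2 θ) *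
        deriv (fun θ => ((1 - t) * inn (du X W θ) σ + eta h X W σ θ) + e3 θ) θ := by
      unfold Jt
      have g2 : (fun θ => h σ θ - gx (wt X W t θ) σ) =
          fun θ => ((1 - t) * inn (du X W θ) σ + eta h X W σ θ) + e3 θ := by
        funext θ
        rw [he3, hez, he1]
        unfold eta
        ring
      rw [g2]
      refine intervalIntegral.integral_congr fun θ _ => ?_
      show DT (wt X W t θ) σ (du X W θ) * _ = (inp (du X W θ) σ + e2 θ) * _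
      congr 1
      rw [he2]
      ring
    have La' := lp_mul La (1 - t)
    have Lae := lp_add La' Leta
    rw [g1, B_add_left Lf L2 (lp_add Lae Le3), B_add_right Lf Lae Le3, B_add_right L2 Lae Le3,
      B_add_right Lf La' Leta, B_add_right L2 La' Leta, B_mul_right, B_mul_right]
    ring
  have k1 := lp_abs Lf Le3 (κ := ε⁻¹) (inv_pos.2 hD.pos)
  have k2 := lp_abs L2 La (κ := ε) hD.pos
  have k3 := lp_abs L2 Leta (κ := ε) hD.pos
  have k4 := lp_abs L2 Le3 (κ := 1) one_pos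
  have hfin := jb_arith hD.pos hD.le hN (hs_nonneg (eta h X W σ)) hC2
    (by positivity : 0 < 2 * C3 + 2 * C1) hfb hab B2 hB3 ht0 ht1 k1 k2 k3 k4
  rw [hexp]
  linarith

end Pool.Agent.CC57
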