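import Pool.Agent.CC57.Sig
import Pool.Agent.CC57.Rect

set_option autoImplicit false

/-!
`HasBoundary` in terms of the boundary loop.  `c θ = γ' (circ θ)` is Lipschitz, `F : X → E 2` is
Lipschitz, `f θ = F (c θ)`, periodic.  `cr f = ∫ (f₀ f₁' - f₁ f₀')`.
Take the cone extension `F₀ x = ‖x‖ • F (γ' (x/‖x‖))` on the closed unit ball (`F₀ 0 = 0`).  It is
Lipschitz: in polar coordinates `F₀ (r circ θ) = r f(θ)`; for `r ≥ r'`,
`‖r f(θ) - r' f(θ')‖ ≤ |r - r'| sup ‖f‖ + r' ‖f θ - f θ'‖`, and `r' |θ - θ'| ≤ (π/2) ‖r circ θ - r' circ θ'‖`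
for the representatives with `|θ - θ'| ≤ π` (`f` is bounded and Lipschitz; choose
`C = sup ‖f‖ + (π/2) Lip f` times a constant).
`HasBoundary` with this `F₀` gives `∑ ∫ det D(F ∘ q_j) = ∫_ball det DF₀`.  In polar coordinates
(`integral_comp_polarCoord_symm` transported to `E 2`): at a.e. point `r circ θ` with `0 < r < 1` and
`f` differentiable at `θ`, `F₀` is differentiable (composition of the polar chart, a local
diffeomorphism, and `(r,θ) ↦ r f θ`) and `det DF₀ = (1/r)(∂_r × ∂_θ)(r f) = f × f'`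
(`a × b = a₀ b₁ - a₁ b₀`).  So `∫_ball det DF₀ = ∫_0^{2π}∫_0^1 (f × f') r dr dθ = (1/2) cr f`.
-/

open Real Set MeasureTheory Metric
open scoped RealInnerProductSpace

namespace Pool.Agent.CC57

open Pool.Agent.H65G

/-- `∫ (f₀ f₁' - f₁ f₀')` over a period. -/
noncomputable def cr (f : ℝ → E 2) : ℝ :=
  ∫ θ in (0 : ℝ)..2 * π, ((f θ) 0 * deriv (fun θ => (f θ) 1) θ -
    (f θ) 1 * deriv (fun θ => (f θ) 0) θ)

/-- The cross product. -/
def cx (a b : E 2) : ℝ := a 0 * b 1 - a 1 * b 0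

theorem det_cx (A : E 2 →L[ℝ] E 2) (u v : E 2) : cx (A u) (A v) = A.det * cx u v := by
  have hdet : A.det = (A (EuclideanSpace.single 0 1)) 0 * (A (EuclideanSpace.single 1 1)) 1 -
      (A (EuclideanSpace.single 1 1)) 0 * (A (EuclideanSpace.single 0 1)) 1 := by
    rw [ContinuousLinearMap.det,
      ← LinearMap.det_toMatrix (EuclideanSpace.basisFun (Fin 2) ℝ).toBasis, Matrix.det_fin_two]
    simp [LinearMap.toMatrix_apply]
  have hu : ∀ w : E 2, w = w 0 • EuclideanSpace.single 0 1 + w 1 • EuclideanSpace.single 1 1 := by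
    intro w
    ext i
    fin_cases i <;> simp
  have hAu : ∀ w : E 2, A w = w 0 • A (EuclideanSpace.single 0 1) +
      w 1 • A (EuclideanSpace.single 1 1) := by
    intro w
    conv_lhs => rw [hu w]
    rw [map_add, map_smul, map_smul]
  rw [hAu u, hAu v, hdet]
  simp only [cx, PiLp.add_apply, PiLp.smul_apply, smul_eq_mul]
  ring

theorem coe_circ' (σ : ℝ) : (circ σ : E 2) = WithLp.toLp 2 ![cos σ, sin σ] := rfl

/-- The derivative of `circ`. -/
noncomputable def circ' (σ : ℝ) : E 2 := WithLp.toLp 2 ![-sin σ, cos σ]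

theorem hasDerivAt_circ (σ : ℝ) : HasDerivAt (fun σ => (circ σ : E 2)) (circ' σ) σ := by
  have h1 : HasDerivAt (fun σ : ℝ => (![cos σ, sin σ] : Fin 2 → ℝ)) ![-sin σ, cos σ] σ := by
    rw [hasDerivAt_pi]
    intro i
    fin_cases i
    · simpa using hasDerivAt_cos σ
    · simpa using hasDerivAt_sin σ
  exact (PiLp.continuousLinearEquiv 2 ℝ (fun _ : Fin 2 => ℝ)).symm.hasFDerivAt.comp_hasDerivAt σ h1

theorem hasDerivAt_coord {f : ℝ → E 2} {v : E 2} {θ : ℝ} (h : HasDerivAt f v θ) (i : Fin 2) :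
    HasDerivAt (fun θ => (f θ) i) (v i) θ :=
  (EuclideanSpace.proj (𝕜 := ℝ) i : E 2 →L[ℝ] ℝ).hasFDerivAt.comp_hasDerivAt θ h

theorem cx_circ (σ : ℝ) : cx (circ σ : E 2) (circ' σ) = 1 := by
  simp only [cx, coe_circ', circ']
  simp only [Matrix.cons_val_zero, Matrix.cons_val_one]
  have := Real.sin_sq_add_cos_sq σ
  linarith [this]

theorem circ_add_two_pi (σ : ℝ) : circ (σ + 2 * π) = circ σ := by
  apply Subtype.ext
  simp [coe_circ']

theorem exists_close (s s' : Sph 2) : ∃ θ θ' : ℝ, circ θ = s ∧ circ θ' = s' ∧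
    |θ - θ'| ≤ 2 * ‖(s : E 2) - s'‖ := by
  have key : ∀ θ θ' : ℝ, |θ - θ'| ≤ π → |θ - θ'| ≤ 2 * ‖(circ θ : E 2) - circ θ'‖ := by
    intro θ θ' h
    have h1 : ‖(circ θ : E 2) - circ θ'‖ ^ 2 = 2 - 2 * cos (θ - θ') := by
      rw [EuclideanSpace.norm_sq_eq, Fin.sum_univ_two]
      simp only [coe_circ', PiLp.sub_apply, Matrix.cons_val_zero, Matrix.cons_val_one,
        Real.norm_eq_abs, sq_abs]
      rw [Real.cos_sub]
      have e1 := Real.sin_sq_add_cos_sq θ
      have e2 := Real.sin_sq_add_cos_sq θ'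
      linear_combination e1 + e2
    have h2 := Real.cos_le_one_sub_mul_cos_sq h
    have h3 : 4 / π ^ 2 * (θ - θ') ^ 2 ≤ ‖(circ θ : E 2) - circ θ'‖ ^ 2 := by
      rw [h1]
      have : 4 / π ^ 2 * (θ - θ') ^ 2 = 2 * (2 / π ^ 2 * (θ - θ') ^ 2) := by ring
      rw [this]
      linarith
    have h4 : (θ - θ') ^ 2 ≤ (2 * ‖(circ θ : E 2) - circ θ'‖) ^ 2 := by
      have hp : 0 < π := pi_pos
      have hp4 : π ^ 2 ≤ 16 := by nlinarith [pi_lt_four]
      have h5 : (1 : ℝ) / 4 ≤ 4 / π ^ 2 := by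
        rw [div_le_div_iff₀ (by norm_num) (by positivity)]
        linarith
      have h6 := mul_le_mul_of_nonneg_right h5 (sq_nonneg (θ - θ'))
      rw [mul_pow]
      linarith
    exact abs_le_of_sq_le_sq h4 (by positivity)
  obtain ⟨θ, h1, h2, rfl⟩ := circ_surj s
  obtain ⟨θ', h1', h2', rfl⟩ := circ_surj s'
  rcases le_total |θ - θ'| π with h | h
  · exact ⟨θ, θ', rfl, rfl, key θ θ' h⟩
  · rcases le_total θ θ' with h3 | h3
    · rw [abs_of_nonpos (by linarith)] at h
      refine ⟨θ + 2 * π, θ', circ_add_two_pi θ, rfl, ?_⟩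
      rw [← circ_add_two_pi θ]
      refine key _ _ ?_
      rw [abs_le]
      constructor <;> linarith [pi_pos]
    · rw [abs_of_nonneg (by linarith)] at h
      refine ⟨θ, θ' + 2 * π, rfl, circ_add_two_pi θ', ?_⟩
      rw [← circ_add_two_pi θ']
      refine key _ _ ?_
      rw [abs_le]
      constructor <;> linarith [pi_pos]

/-- The direction of a vector. -/
noncomputable def un (x : E 2) : Sph 2 :=
  if h : x = 0 then circ 0 else ⟨‖x‖⁻¹ • x, by
    rw [mem_sphere_zero_iff_norm, norm_smul, norm_inv, norm_norm]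
    exact inv_mul_cancel₀ (norm_ne_zero_iff.mpr h)⟩

theorem norm_smul_un (x : E 2) : ‖x‖ • (un x : E 2) = x := by
  by_cases h : x = 0
  · simp [h]
  · unfold un
    rw [dif_neg h]
    simp only
    rw [smul_smul, mul_inv_cancel₀ (norm_ne_zero_iff.mpr h), one_smul]

theorem norm_sph (s : Sph 2) : ‖(s : E 2)‖ = 1 := by simp

theorem un_smul {r : ℝ} (hr : 0 < r) (s : Sph 2) : un (r • (s : E 2)) = s := by
  have h1 : ‖r • (s : E 2)‖ = r := by
    rw [norm_smul, norm_sph, mul_one, Real.norm_of_nonneg hr.le]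
  have h2 : r • (s : E 2) ≠ 0 := by
    rw [← norm_ne_zero_iff, h1]
    exact hr.ne'
  unfold un
  rw [dif_neg h2]
  apply Subtype.ext
  simp only
  rw [h1, smul_smul, inv_mul_cancel₀ hr.ne', one_smul]

/-- The cone extension. -/
noncomputable def cone (g : Sph 2 → E 2) (x : E 2) : E 2 := ‖x‖ • g (un x)

theorem cone_smul (g : Sph 2 → E 2) {r : ℝ} (hr : 0 < r) (s : Sph 2) :
    cone g (r • (s : E 2)) = r • g s := by
  unfold cone
  rw [un_smul hr, norm_smul, norm_sph, mul_one, Real.norm_of_nonneg hr.le]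

theorem cone_sph (g : Sph 2 → E 2) (s : Sph 2) : cone g (s : E 2) = g s := by
  have h := cone_smul g one_pos s
  rwa [one_smul, one_smul] at h

theorem cone_lip {g : Sph 2 → E 2} {C M : ℝ} (hM : 0 ≤ M) (hC : ∀ s, ‖g s‖ ≤ C)
    (hg : ∀ s s', ‖g s - g s'‖ ≤ M * ‖(s : E 2) - s'‖) (x y : E 2) :
    ‖cone g x - cone g y‖ ≤ (C + 2 * M) * ‖x - y‖ := by
  have hC0 : 0 ≤ C := (norm_nonneg _).trans (hC (circ 0))
  have key : ∀ x y : E 2, ‖y‖ ≤ ‖x‖ → ‖cone g x - cone g y‖ ≤ (C + 2 * M) * ‖x - y‖ := by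
    intro x y hxy
    have e : cone g x - cone g y = (‖x‖ - ‖y‖) • g (un x) + ‖y‖ • (g (un x) - g (un y)) := by
      unfold cone
      rw [sub_smul, smul_sub]
      abel
    have h1 : ‖x‖ - ‖y‖ ≤ ‖x - y‖ := norm_sub_norm_le _ _
    have h2 : ‖y‖ * ‖(un x : E 2) - un y‖ ≤ 2 * ‖x - y‖ := by
      have e2 : ‖y‖ • ((un x : E 2) - un y) = (x - y) - (‖x‖ - ‖y‖) • (un x : E 2) := by
        rw [smul_sub, sub_smul, norm_smul_un, norm_smul_un]
        abel
      have h3 : ‖y‖ * ‖(un x : E 2) - un y‖ = ‖‖y‖ • ((un x : E 2) - un y)‖ := by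
        rw [norm_smul, norm_norm]
      rw [h3, e2]
      refine (norm_sub_le _ _).trans ?_
      rw [norm_smul, norm_sph, mul_one, Real.norm_of_nonneg (by linarith)]
      linarith
    rw [e]
    refine (norm_add_le _ _).trans ?_
    rw [norm_smul, norm_smul, norm_norm, Real.norm_of_nonneg (by linarith)]
    have h4 : (‖x‖ - ‖y‖) * ‖g (un x)‖ ≤ ‖x - y‖ * C :=
      mul_le_mul h1 (hC _) (norm_nonneg _) (norm_nonneg _)
    have h5 : ‖y‖ * ‖g (un x) - g (un y)‖ ≤ M * (2 * ‖x - y‖) := by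
      calc ‖y‖ * ‖g (un x) - g (un y)‖ ≤ ‖y‖ * (M * ‖(un x : E 2) - un y‖) :=
            mul_le_mul_of_nonneg_left (hg _ _) (norm_nonneg _)
        _ = M * (‖y‖ * ‖(un x : E 2) - un y‖) := by ring
        _ ≤ _ := mul_le_mul_of_nonneg_left h2 hM
    linarith
  rcases le_total ‖y‖ ‖x‖ with h | h
  · exact key x y h
  · rw [norm_sub_rev, norm_sub_rev x y]
    exact key y x h

/-- The integrand of `cr`. -/
noncomputable def Gf (f : ℝ → E 2) (θ : ℝ) : ℝ :=
  (f θ) 0 * deriv (fun θ => (f θ) 1) θ - (f θ) 1 * deriv (fun θ => (f θ) 0) θ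

theorem det_cone {g : Sph 2 → E 2} {r θ : ℝ} (hr : 0 < r)
    (hd : DifferentiableAt ℝ (cone g) (r • (circ θ : E 2))) :
    (fderiv ℝ (cone g) (r • (circ θ : E 2))).det = Gf (fun θ => g (circ θ)) θ := by
  set A := fderiv ℝ (cone g) (r • (circ θ : E 2)) with hA
  have h1 : A (circ θ : E 2) = g (circ θ) := by
    have c1 : HasDerivAt (fun t : ℝ => t • (circ θ : E 2)) (circ θ : E 2) r := by
      simpa using (hasDerivAt_id r).smul_const (circ θ : E 2)
    have c2 : HasDerivAt (fun t : ℝ => cone g (t • (circ θ : E 2))) (A (circ θ : E 2)) r :=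
      HasFDerivAt.comp_hasDerivAt (l := cone g) r hd.hasFDerivAt c1
    have c3 : HasDerivAt (fun t : ℝ => t • g (circ θ)) (g (circ θ)) r := by
      simpa using (hasDerivAt_id r).smul_const (g (circ θ))
    refine c2.unique (c3.congr_of_eventuallyEq ?_)
    filter_upwards [lt_mem_nhds hr] with t ht
    exact cone_smul g ht _
  have h2 : HasDerivAt (fun φ => g (circ φ)) (A (circ' θ)) θ := by
    have c1 : HasDerivAt (fun φ : ℝ => r • (circ φ : E 2)) (r • circ' θ) θ :=
      (hasDerivAt_circ θ).const_smul r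
    have c2 : HasDerivAt (fun φ : ℝ => cone g (r • (circ φ : E 2))) (A (r • circ' θ)) θ :=
      HasFDerivAt.comp_hasDerivAt (l := cone g) θ hd.hasFDerivAt c1
    have c3 : HasDerivAt (fun φ : ℝ => r⁻¹ • cone g (r • (circ φ : E 2)))
        (r⁻¹ • A (r • circ' θ)) θ := c2.const_smul r⁻¹
    have e1 : (fun φ : ℝ => r⁻¹ • cone g (r • (circ φ : E 2))) = fun φ => g (circ φ) := by
      funext φ
      rw [cone_smul g hr, smul_smul, inv_mul_cancel₀ hr.ne', one_smul]
    have e2 : r⁻¹ • A (r • circ' θ) = A (circ' θ) := by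
      rw [map_smul, smul_smul, inv_mul_cancel₀ hr.ne', one_smul]
    rwa [e1, e2] at c3
  have h3 := det_cx A (circ θ : E 2) (circ' θ)
  rw [cx_circ, mul_one, h1] at h3
  rw [← h3]
  have h4 := hasDerivAt_coord h2
  simp only [cx, Gf]
  rw [(h4 1).deriv, (h4 0).deriv]

/-- Polar coordinates in `E 2`. -/
noncomputable def eqv : ℝ × ℝ ≃ᵐ E 2 :=
  (MeasurableEquiv.finTwoArrow (α := ℝ)).symm.trans (MeasurableEquiv.toLp 2 (Fin 2 → ℝ))

theorem eqv_apply (a : ℝ × ℝ) : eqv a = WithLp.toLp 2 ![a.1, a.2] := rfl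

theorem eqv_mp : MeasurePreserving eqv (volume : Measure (ℝ × ℝ)) (volume : Measure (E 2)) := by
  have h1 := (volume_preserving_finTwoArrow ℝ).symm
  have h2 := (EuclideanSpace.volume_preserving_symm_measurableEquiv_toLp (Fin 2)).symm
  exact h2.comp h1

theorem eqv_polar (a : ℝ × ℝ) : eqv (polarCoord.symm a) = a.1 • (circ a.2 : E 2) := by
  rw [eqv_apply, coe_circ']
  ext i
  fin_cases i <;> simp

theorem polar_ae {s : Set (ℝ × ℝ)} (hs : volume s = 0) :
    ∀ᵐ a ∂(volume.restrict polarCoord.target), polarCoord.symm a ∉ s := by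
  set s' := toMeasurable volume s with hs'
  have hm : MeasurableSet s' := measurableSet_toMeasurable _ _
  have h0 : volume s' = 0 := by rw [hs', measure_toMeasurable, hs]
  have h1 := lintegral_comp_polarCoord_symm (s'.indicator 1)
  rw [lintegral_indicator_one hm, h0] at h1
  have hmeas : Measurable fun a : ℝ × ℝ =>
      ENNReal.ofReal a.1 • (s'.indicator (1 : ℝ × ℝ → ENNReal)) (polarCoord.symm a) := by
    refine Measurable.smul (ENNReal.measurable_ofReal.comp measurable_fst) ?_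
    exact (measurable_one.indicator hm).comp continuous_polarCoord_symm.measurable
  rw [lintegral_eq_zero_iff hmeas] at h1
  filter_upwards [h1, ae_restrict_mem polarCoord.open_target.measurableSet] with a ha hat
  intro hmem
  have hmem' : polarCoord.symm a ∈ s' := subset_toMeasurable _ _ hmem
  have hr : 0 < a.1 := hat.1
  simp only [Pi.zero_apply, smul_eq_mul, mul_eq_zero, ENNReal.ofReal_eq_zero] at ha
  rcases ha with ha | ha
  · linarith
  · rw [indicator_of_mem hmem'] at ha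
    simp at ha

theorem integral_det_cone {g : Sph 2 → E 2} {K : NNReal} (hl : LipschitzWith K (cone g)) :
    ∫ p in closedBall (0 : E 2) 1, (fderiv ℝ (cone g) p).det =
      1 / 2 * cr (fun θ => g (circ θ)) := by
  rw [← integral_indicator measurableSet_closedBall, ← eqv_mp.integral_comp',
    ← integral_comp_polarCoord_symm]
  have hae : ∀ᵐ p ∂(volume : Measure (E 2)), DifferentiableAt ℝ (cone g) p :=
    hl.ae_differentiableAt
  have hae2 : ∀ᵐ a ∂(volume : Measure (ℝ × ℝ)), DifferentiableAt ℝ (cone g) (eqv a) :=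
    eqv_mp.quasiMeasurePreserving.ae hae
  have hae3 := polar_ae (s := {a | ¬ DifferentiableAt ℝ (cone g) (eqv a)}) hae2
  have hcongr : ∫ a in polarCoord.target, a.1 •
      (closedBall (0 : E 2) 1).indicator (fun p => (fderiv ℝ (cone g) p).det)
        (eqv (polarCoord.symm a)) =
      ∫ a in Ioi (0 : ℝ) ×ˢ Ioo (-π) π,
        ((Iic (1 : ℝ)).indicator (fun r => r) a.1) * Gf (fun θ => g (circ θ)) a.2 := by
    refine integral_congr_ae ?_
    filter_upwards [hae3, ae_restrict_mem polarCoord.open_target.measurableSet] with a ha hat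
    have hr : 0 < a.1 := hat.1
    have hd : DifferentiableAt ℝ (cone g) (a.1 • (circ a.2 : E 2)) := by
      have := not_not.mp ha
      rwa [eqv_polar] at this
    rw [eqv_polar]
    by_cases h1 : a.1 ≤ 1
    · rw [indicator_of_mem, indicator_of_mem (by exact h1), det_cone hr hd, smul_eq_mul]
      rw [mem_closedBall_zero_iff, norm_smul, norm_sph, mul_one, Real.norm_of_nonneg hr.le]
      exact h1
    · rw [indicator_of_notMem, indicator_of_notMem (by exact h1), smul_zero, zero_mul]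
      rw [mem_closedBall_zero_iff, norm_smul, norm_sph, mul_one, Real.norm_of_nonneg hr.le]
      exact h1
  rw [hcongr, Measure.volume_eq_prod, setIntegral_prod_mul]
  have h1 : ∫ r in Ioi (0 : ℝ), (Iic (1 : ℝ)).indicator (fun r => r) r = 1 / 2 := by
    rw [setIntegral_indicator measurableSet_Iic]
    have : Ioi (0 : ℝ) ∩ Iic 1 = Ioc 0 1 := by ext; simp
    rw [this, ← intervalIntegral.integral_of_le (by norm_num), integral_id]
    norm_num
  rw [h1]
  congr 1
  unfold cr
  have hper : Function.Periodic (Gf fun θ => g (circ θ)) (2 * π) := by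
    intro θ
    have hp : ∀ i : Fin 2, Function.Periodic (fun θ => (g (circ θ)) i) (2 * π) := by
      intro i θ
      simp only [circ_add_two_pi]
    have hd : ∀ i : Fin 2, deriv (fun θ => (g (circ θ)) i) (θ + 2 * π) =
        deriv (fun θ => (g (circ θ)) i) θ := by
      intro i
      rw [← deriv_comp_add_const]
      congr 1
      funext x
      exact hp i x
    unfold Gf
    rw [hd, hd]
    simp only [circ_add_two_pi]
  have h2 := hper.intervalIntegral_add_eq (-π) 0
  rw [zero_add] at h2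
  have h3 : -π + 2 * π = π := by ring
  rw [h3] at h2
  rw [← integral_Ioc_eq_integral_Ioo, ← intervalIntegral.integral_of_le (by linarith [pi_pos]), h2]
  rfl

theorem loop_of_boundary {X : Type} [MetricSpace X] {m : ℕ} {q : Fin m → E 2 → X}
    {γ' : Sph 2 → X} (hB : HasBoundary q γ') {K : NNReal}
    (hK : LipschitzWith K fun θ => γ' (circ θ)) {F : X → E 2} {K' : NNReal}
    (hF : LipschitzWith K' F) :
    ∑ j, ∫ p in cube 2, (fderiv ℝ (F ∘ q j) p).det = 1 / 2 * cr (fun θ => F (γ' (circ θ))) := by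
  set g : Sph 2 → E 2 := fun s => F (γ' s) with hg
  set M : ℝ := K' * K * 2 with hM
  have hM0 : 0 ≤ M := by positivity
  have hgl : ∀ s s' : Sph 2, ‖g s - g s'‖ ≤ M * ‖(s : E 2) - s'‖ := by
    intro s s'
    obtain ⟨θ, θ', rfl, rfl, h⟩ := exists_close s s'
    have h1 := (hF.comp hK).dist_le_mul θ θ'
    rw [Real.dist_eq] at h1
    simp only [Function.comp_apply] at h1
    rw [dist_eq_norm] at h1
    refine h1.trans ?_
    rw [hM, NNReal.coe_mul, mul_assoc ((K' : ℝ) * K)]
    exact mul_le_mul_of_nonneg_left h (by positivity)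
  have hC : ∀ s : Sph 2, ‖g s‖ ≤ ‖g (circ 0)‖ + M * 2 := by
    intro s
    have h1 := hgl s (circ 0)
    have h2 : ‖(s : E 2) - circ 0‖ ≤ 2 := by
      refine (norm_sub_le _ _).trans ?_
      rw [norm_sph, norm_sph]
      norm_num
    have h3 := mul_le_mul_of_nonneg_left h2 hM0
    have h4 : ‖g s‖ ≤ ‖g (circ 0)‖ + ‖g s - g (circ 0)‖ := by
      have := norm_add_le (g (circ 0)) (g s - g (circ 0))
      rwa [add_sub_cancel] at this
    linarith
  have hlip := cone_lip hM0 hC hgl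
  have hcst : 0 ≤ (‖g (circ 0)‖ + M * 2) + 2 * M := by positivity
  have hl : LipschitzWith (Real.toNNReal ((‖g (circ 0)‖ + M * 2) + 2 * M)) (cone g) := by
    refine LipschitzWith.of_dist_le_mul fun x y => ?_
    rw [dist_eq_norm, dist_eq_norm, Real.coe_toNNReal _ hcst]
    exact hlip x y
  rw [hB F (cone g) ⟨_, hF⟩ ⟨_, hl.lipschitzOnWith⟩ (fun t => (cone_sph g t).symm)]
  exact integral_det_cone hl

/-- The squares `q j` have boundary the loop `c`. -/
def HasLoop {X : Type} [MetricSpace X] {m : ℕ} (q : Fin m → E 2 → X) (c : ℝ → X) : Prop :=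
  ∀ {F : X → E 2} {K' : NNReal}, LipschitzWith K' F →
    ∑ j, ∫ p in cube 2, (fderiv ℝ (F ∘ q j) p).det = 1 / 2 * cr (fun θ => F (c θ))

end Pool.Agent.CC57
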