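import Pool.Agent.CC57.JBound

set_option autoImplicit false

/-!
The averages of the main terms.  `u = du X W`.
* `avg_M`: for a.e. `θ`, `deriv (inn u) = inn u'`, so by Fubini and `avg_inp_mul_inn` the mean over `σ` of
  `∮ inp u (inn u)'` is `∮ (u₂ u₁' - u₁ u₂')/2 = -π ∑ n |cf u n|²` (`int_cross`).  The function of `σ` is a
  trigonometric polynomial, so continuous.
* `avg_N`: integration by parts, `∮ inp u η' = -∮ inp u' η`, for each `σ`; `eta` is jointly continuous
  and `avgE (fun σ => eta h X W σ θ) = 0` for all `θ`: `avgE (h - gx X) = zhC W - zhC X = v` by assumption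
  and `avgE (2 inn v) = v` (`avgE_inn`).  By Fubini and `avg_mul_inp` the mean over `σ` is zero.
* `eta_facts`: joint continuity, uniform Lipschitz constant, periodicity (`gx_lip`, `zhC_lip`).
-/

open Real MeasureTheory Set

namespace Pool.Agent.CC57

private theorem lip_u {ε : ℝ} {K : NNReal} {X W : ℝ → ℂ} (hD : Curves ε K X W) :
    LipschitzWith (K + K) (du X W) := hD.WL.sub hD.XL

private theorem per_u {ε : ℝ} {K : NNReal} {X W : ℝ → ℂ} (hD : Curves ε K X W) (θ : ℝ) :
    du X W (θ + 2 * π) = du X W θ := by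
  unfold du
  rw [hD.Xp, hD.Wp]

private theorem lip_re {f : ℝ → ℂ} {K : NNReal} (hf : LipschitzWith K f) :
    LipschitzWith K fun θ => (f θ).re := by
  apply LipschitzWith.of_dist_le_mul
  intro x y
  refine le_trans ?_ (hf.dist_le_mul x y)
  rw [Real.dist_eq, Complex.dist_eq, ← Complex.sub_re]
  exact Complex.abs_re_le_norm _

private theorem lip_im {f : ℝ → ℂ} {K : NNReal} (hf : LipschitzWith K f) :
    LipschitzWith K fun θ => (f θ).im := by
  apply LipschitzWith.of_dist_le_mul
  intro x y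
  refine le_trans ?_ (hf.dist_le_mul x y)
  rw [Real.dist_eq, Complex.dist_eq, ← Complex.sub_im]
  exact Complex.abs_im_le_norm _

private theorem lip_inn {f : ℝ → ℂ} {K : NNReal} (hf : LipschitzWith K f) (σ : ℝ) :
    LipschitzWith K fun θ => inn (f θ) σ := by
  apply LipschitzWith.of_dist_le_mul
  intro x y
  refine le_trans ?_ (hf.dist_le_mul x y)
  rw [Real.dist_eq, Complex.dist_eq, ← inn_sub]
  exact abs_inn_le _ _

private theorem lip_inp {f : ℝ → ℂ} {K : NNReal} (hf : LipschitzWith K f) (σ : ℝ) :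
    LipschitzWith K fun θ => inp (f θ) σ := by
  apply LipschitzWith.of_dist_le_mul
  intro x y
  refine le_trans ?_ (hf.dist_le_mul x y)
  rw [Real.dist_eq, Complex.dist_eq, ← inp_sub]
  exact abs_inp_le _ _

private theorem hda_re {f : ℝ → ℂ} {f' : ℂ} {θ : ℝ} (h : HasDerivAt f f' θ) :
    HasDerivAt (fun θ => (f θ).re) f'.re θ :=
  (Complex.reCLM.hasFDerivAt (x := f θ)).comp_hasDerivAt θ h

private theorem hda_im {f : ℝ → ℂ} {f' : ℂ} {θ : ℝ} (h : HasDerivAt f f' θ) :
    HasDerivAt (fun θ => (f θ).im) f'.im θ :=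
  (Complex.imCLM.hasFDerivAt (x := f θ)).comp_hasDerivAt θ h

private theorem hda_inn {f : ℝ → ℂ} {f' : ℂ} {θ : ℝ} (h : HasDerivAt f f' θ) (σ : ℝ) :
    HasDerivAt (fun θ => inn (f θ) σ) (inn f' σ) θ :=
  ((hda_re h).mul_const (cos σ)).add ((hda_im h).mul_const (sin σ))

private theorem hda_inp {f : ℝ → ℂ} {f' : ℂ} {θ : ℝ} (h : HasDerivAt f f' θ) (σ : ℝ) :
    HasDerivAt (fun θ => inp (f θ) σ) (inp f' σ) θ :=
  ((hda_im h).mul_const (cos σ)).sub ((hda_re h).mul_const (sin σ))

private theorem lip_zh {ε : ℝ} (hε : ε ≤ 1 / 2) {K : NNReal} {X : ℝ → ℂ} (hX : LipschitzWith K X)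
    (hb : ∀ θ, ‖X θ‖ ≤ ε) : LipschitzWith (2 * K) fun θ => zhC (X θ) := by
  apply LipschitzWith.of_dist_le_mul
  intro x y
  rw [Complex.dist_eq]
  refine (zhC_lip ((hb x).trans hε) ((hb y).trans hε)).trans ?_
  have h := hX.dist_le_mul x y
  rw [Complex.dist_eq] at h
  push_cast
  linarith

theorem eta_facts {ε : ℝ} {K : NNReal} {X W : ℝ → ℂ} {h : ℝ → ℝ → ℝ} (hD : Curves ε K X W)
    (hc : Continuous (Function.uncurry h)) (hl : ∀ σ, LipschitzWith K (h σ))
    (hp : ∀ σ θ, h σ (θ + 2 * π) = h σ θ)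
    (hz : ∀ θ, zhC (W θ) = avgE fun σ => h σ θ) :
    Continuous (Function.uncurry (eta h X W)) ∧ (∃ K' : NNReal, ∀ σ, LipschitzWith K' (eta h X W σ)) ∧
    (∀ σ θ, eta h X W σ (θ + 2 * π) = eta h X W σ θ) ∧
    (∀ θ, avgE (fun σ => eta h X W σ θ) = 0) := by
  have hv : LipschitzWith (2 * K + 2 * K) fun θ => zhC (W θ) - zhC (X θ) :=
    (lip_zh hD.le hD.WL hD.Wb).sub (lip_zh hD.le hD.XL hD.Xb)
  have hgx : ∀ x : ℂ, Continuous (gx x) := fun x =>
    continuous_gx.comp (continuous_const.prodMk continuous_id)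
  refine ⟨?_, ⟨K + 2 * K + 2 * (2 * K + 2 * K), fun σ => ?_⟩, fun σ θ => ?_, fun θ => ?_⟩
  · have h1 : Continuous fun p : ℝ × ℝ => gx (X p.2) p.1 :=
      Continuous.comp (g := fun p : ℂ × ℝ => gx p.1 p.2) (f := fun p : ℝ × ℝ => (X p.2, p.1))
        continuous_gx ((hD.XL.continuous.comp continuous_snd).prodMk continuous_fst)
    have h2 : Continuous fun p : ℝ × ℝ => inn (zhC (W p.2) - zhC (X p.2)) p.1 :=
      Continuous.comp (g := fun p : ℂ × ℝ => inn p.1 p.2)
        (f := fun p : ℝ × ℝ => (zhC (W p.2) - zhC (X p.2), p.1))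
        continuous_inn ((hv.continuous.comp continuous_snd).prodMk continuous_fst)
    exact (hc.sub h1).sub (continuous_const.mul h2)
  · apply LipschitzWith.of_dist_le_mul
    intro x y
    have e1 := (hl σ).dist_le_mul x y
    have e2 := hD.XL.dist_le_mul x y
    have e3 := gx_lip ((hD.Xb x).trans hD.le) ((hD.Xb y).trans hD.le) σ
    have e4 := (lip_inn hv σ).dist_le_mul x y
    rw [Real.dist_eq] at e1 e4
    rw [Complex.dist_eq] at e2
    rw [Real.dist_eq]
    simp only [NNReal.coe_add, NNReal.coe_mul, NNReal.coe_ofNat] at e4 ⊢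
    unfold eta
    have e5 : h σ x - gx (X x) σ - 2 * inn (zhC (W x) - zhC (X x)) σ -
        (h σ y - gx (X y) σ - 2 * inn (zhC (W y) - zhC (X y)) σ) =
        (h σ x - h σ y) - (gx (X x) σ - gx (X y) σ) -
          2 * (inn (zhC (W x) - zhC (X x)) σ - inn (zhC (W y) - zhC (X y)) σ) := by ring
    rw [e5]
    have e6 := abs_sub ((h σ x - h σ y) - (gx (X x) σ - gx (X y) σ))
      (2 * (inn (zhC (W x) - zhC (X x)) σ - inn (zhC (W y) - zhC (X y)) σ))
    have e7 := abs_sub (h σ x - h σ y) (gx (X x) σ - gx (X y) σ)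
    rw [abs_mul, abs_two] at e6
    linarith
  · unfold eta
    rw [hp, hD.Xp, hD.Wp]
  · have i1 : IntervalIntegrable (fun σ => h σ θ) volume 0 (2 * π) :=
      (hc.comp (continuous_id.prodMk continuous_const)).intervalIntegrable _ _
    have i2 : IntervalIntegrable (fun σ => gx (X θ) σ) volume 0 (2 * π) :=
      (hgx _).intervalIntegrable _ _
    have i3 : IntervalIntegrable (fun σ => inn (((2 : ℝ) : ℂ) * (zhC (W θ) - zhC (X θ))) σ) volume
        0 (2 * π) :=
      (continuous_inn.comp (continuous_const.prodMk continuous_id)).intervalIntegrable _ _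
    have e1 : (fun σ => eta h X W σ θ) = fun σ => (h σ θ - gx (X θ) σ) -
        inn (((2 : ℝ) : ℂ) * (zhC (W θ) - zhC (X θ))) σ := by
      funext σ
      rw [inn_smul]
      rfl
    rw [e1, avgE_sub (i1.sub i2) i3, avgE_sub i1 i2, ← hz]
    have e2 : avgE (fun σ => gx (X θ) σ) = zhC (X θ) := rfl
    have e3 : avgE (fun σ => inn (((2 : ℝ) : ℂ) * (zhC (W θ) - zhC (X θ))) σ) =
        zhC (W θ) - zhC (X θ) := by
      have := avgE_inn (((2 : ℝ) : ℂ) * (zhC (W θ) - zhC (X θ)))
      rw [this]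
      push_cast
      ring
    rw [e2, e3, sub_self]

private theorem cont_deriv_bd {u : ℝ → ℂ} {K : NNReal} (hu : LipschitzWith K u) (θ : ℝ) :
    ‖deriv u θ‖ ≤ K := norm_deriv_le_of_lipschitz hu

private theorem int_prod {u : ℝ → ℂ} {K : NNReal} (hu : LipschitzWith K u) {a b : ℂ → ℝ}
    (ha : Continuous a) (hb : Continuous b) (hbb : ∀ z, |b z| ≤ ‖z‖) :
    IntervalIntegrable (fun θ => a (u θ) * b (deriv u θ)) volume 0 (2 * π) := by
  have h1 : IntervalIntegrable (fun θ => b (deriv u θ)) volume 0 (2 * π) := by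
    rw [intervalIntegrable_iff_integrableOn_Ioc_of_le two_pi_pos.le]
    refine Integrable.of_bound (hb.measurable.comp (measurable_deriv u)).aestronglyMeasurable K
      (ae_of_all _ fun θ => ?_)
    rw [Real.norm_eq_abs]
    exact (hbb _).trans (cont_deriv_bd hu θ)
  exact h1.continuousOn_mul (ha.comp hu.continuous).continuousOn

theorem avg_M {ε : ℝ} {K : NNReal} {X W : ℝ → ℂ} (hD : Curves ε K X W) :
    IntervalIntegrable (fun σ => ∫ θ in (0 : ℝ)..2 * π, inp (du X W θ) σ *
      deriv (fun θ => inn (du X W θ) σ) θ) volume 0 (2 * π) ∧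
    avg (fun σ => ∫ θ in (0 : ℝ)..2 * π, inp (du X W θ) σ *
      deriv (fun θ => inn (du X W θ) σ) θ) = -(π * ∑' n : ℤ, (n : ℝ) * ‖cf (du X W) n‖ ^ 2) := by
  have hu := lip_u hD
  set u := du X W with hudef
  have jrr := int_prod hu Complex.continuous_re Complex.continuous_re Complex.abs_re_le_norm
  have jri := int_prod hu Complex.continuous_re Complex.continuous_im Complex.abs_im_le_norm
  have jir := int_prod hu Complex.continuous_im Complex.continuous_re Complex.abs_re_le_norm
  have jii := int_prod hu Complex.continuous_im Complex.continuous_im Complex.abs_im_le_norm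
  set A := ∫ θ in (0 : ℝ)..2 * π, (u θ).im * (deriv u θ).re with hA
  set B1 := ∫ θ in (0 : ℝ)..2 * π, (u θ).im * (deriv u θ).im with hB1
  set B2 := ∫ θ in (0 : ℝ)..2 * π, (u θ).re * (deriv u θ).re with hB2
  set E' := ∫ θ in (0 : ℝ)..2 * π, (u θ).re * (deriv u θ).im with hE
  have key : (fun σ => ∫ θ in (0 : ℝ)..2 * π, inp (u θ) σ * deriv (fun θ => inn (u θ) σ) θ) =
      fun σ => A * (inp Complex.I σ * inn 1 σ) + (B1 - B2) * (inp Complex.I σ * inn Complex.I σ) -
        E' * (inp (-1) σ * inn Complex.I σ) := by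
    funext σ
    have h1 : ∫ θ in (0 : ℝ)..2 * π, inp (u θ) σ * deriv (fun θ => inn (u θ) σ) θ =
        ∫ θ in (0 : ℝ)..2 * π, (((u θ).im * (deriv u θ).re) * (cos σ * cos σ) +
          ((u θ).im * (deriv u θ).im - (u θ).re * (deriv u θ).re) * (cos σ * sin σ) -
            ((u θ).re * (deriv u θ).im) * (sin σ * sin σ)) := by
      apply intervalIntegral.integral_congr_ae
      filter_upwards [hu.ae_differentiableAt_real] with θ hθ _
      rw [(hda_inn hθ.hasDerivAt σ).deriv]
      unfold inn inp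
      ring
    rw [h1, intervalIntegral.integral_sub ((jir.mul_const _).add ((jii.sub jrr).mul_const _))
      (jri.mul_const _), intervalIntegral.integral_add (jir.mul_const _)
      ((jii.sub jrr).mul_const _), intervalIntegral.integral_mul_const,
      intervalIntegral.integral_mul_const, intervalIntegral.integral_mul_const,
      intervalIntegral.integral_sub jii jrr]
    simp only [inn, inp, Complex.I_re, Complex.I_im, Complex.one_re, Complex.one_im,
      Complex.neg_re, Complex.neg_im]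
    ring
  have ci : ∀ a b : ℂ, Continuous fun σ => inp a σ * inn b σ := fun a b =>
    (continuous_inp.comp (continuous_const.prodMk continuous_id)).mul
      (continuous_inn.comp (continuous_const.prodMk continuous_id))
  have ii : ∀ (c : ℝ) (a b : ℂ), IntervalIntegrable (fun σ => c * (inp a σ * inn b σ)) volume 0
      (2 * π) := fun c a b => (continuous_const.mul (ci a b)).intervalIntegrable _ _
  rw [key]
  refine ⟨((ii _ _ _).add (ii _ _ _)).sub (ii _ _ _), ?_⟩
  rw [avg_sub ((ii _ _ _).add (ii _ _ _)) (ii _ _ _), avg_add (ii _ _ _) (ii _ _ _), avg_mul_left,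
    avg_mul_left, avg_mul_left, avg_inp_mul_inn, avg_inp_mul_inn, avg_inp_mul_inn]
  have hcr := int_cross hu (per_u hD)
  have h2 : ∫ θ in (0 : ℝ)..2 * π, ((u θ).re * deriv (fun θ => (u θ).im) θ -
      (u θ).im * deriv (fun θ => (u θ).re) θ) = E' - A := by
    rw [hE, hA, ← intervalIntegral.integral_sub jri jir]
    apply intervalIntegral.integral_congr_ae
    filter_upwards [hu.ae_differentiableAt_real] with θ hθ _
    rw [(hda_re hθ.hasDerivAt).deriv, (hda_im hθ.hasDerivAt).deriv]
  rw [h2] at hcr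
  simp only [Complex.I_re, Complex.I_im, Complex.one_re, Complex.one_im,
      Complex.neg_re, Complex.neg_im]
  linear_combination (-1 / 2) * hcr

theorem avg_N {ε : ℝ} {K : NNReal} {X W : ℝ → ℂ} {h : ℝ → ℝ → ℝ} (hD : Curves ε K X W)
    (hc : Continuous (Function.uncurry h)) (hl : ∀ σ, LipschitzWith K (h σ))
    (hp : ∀ σ θ, h σ (θ + 2 * π) = h σ θ)
    (hz : ∀ θ, zhC (W θ) = avgE fun σ => h σ θ) :
    IntervalIntegrable (fun σ => ∫ θ in (0 : ℝ)..2 * π, inp (du X W θ) σ *
      deriv (eta h X W σ) θ) volume 0 (2 * π) ∧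
    avg (fun σ => ∫ θ in (0 : ℝ)..2 * π, inp (du X W θ) σ * deriv (eta h X W σ) θ) = 0 := by
  obtain ⟨hec, ⟨K', hel⟩, hep, he0⟩ := eta_facts hD hc hl hp hz
  have hu := lip_u hD
  have hup := per_u hD
  set u := du X W with hudef
  have hpi : (0 : ℝ) < 2 * π := two_pi_pos
  have key : ∀ σ, ∫ θ in (0 : ℝ)..2 * π, inp (u θ) σ * deriv (eta h X W σ) θ =
      -∫ θ in (0 : ℝ)..2 * π, eta h X W σ θ * inp (deriv u θ) σ := by
    intro σ
    have hac1 : AbsolutelyContinuousOnInterval (fun θ => inp (u θ) σ) 0 (2 * π) :=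
      ((lip_inp hu σ).lipschitzOnWith (s := uIcc 0 (2 * π))).absolutelyContinuousOnInterval
    have hac2 : AbsolutelyContinuousOnInterval (eta h X W σ) 0 (2 * π) :=
      ((hel σ).lipschitzOnWith (s := uIcc 0 (2 * π))).absolutelyContinuousOnInterval
    rw [hac1.integral_mul_deriv_eq_deriv_mul hac2]
    have e1 : u (2 * π) = u 0 := by
      have h0 := hup 0
      rwa [zero_add] at h0
    have e2 : eta h X W σ (2 * π) = eta h X W σ 0 := by
      have h0 := hep σ 0
      rwa [zero_add] at h0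
    rw [e1, e2, sub_self, zero_sub]
    congr 1
    apply intervalIntegral.integral_congr_ae
    filter_upwards [hu.ae_differentiableAt_real] with θ hθ _
    rw [(hda_inp hθ.hasDerivAt σ).deriv, mul_comm]
  set μ : Measure ℝ := volume.restrict (Ioc 0 (2 * π)) with hμ
  obtain ⟨M, hM⟩ := (isCompact_Icc (a := (0 : ℝ)) (b := 2 * π)).prod
    (isCompact_Icc (a := (0 : ℝ)) (b := 2 * π)) |>.exists_bound_of_continuousOn hec.continuousOn
  have hint : Integrable (fun p : ℝ × ℝ => eta h X W p.1 p.2 * inp (deriv u p.2) p.1)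
      (μ.prod μ) := by
    have hm : Measurable fun p : ℝ × ℝ => eta h X W p.1 p.2 * inp (deriv u p.2) p.1 :=
      hec.measurable.mul (continuous_inp.measurable.comp
        (((measurable_deriv u).comp measurable_snd).prodMk measurable_fst))
    refine Integrable.of_bound hm.aestronglyMeasurable (|M| * (K + K)) ?_
    rw [hμ, Measure.prod_restrict]
    apply ae_restrict_of_forall_mem (measurableSet_Ioc.prod measurableSet_Ioc)
    intro p hp'
    have h1 := hM p ⟨⟨hp'.1.1.le, hp'.1.2⟩, ⟨hp'.2.1.le, hp'.2.2⟩⟩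
    rw [norm_mul]
    have h2 : ‖inp (deriv u p.2) p.1‖ ≤ K + K := by
      rw [Real.norm_eq_abs]
      refine (abs_inp_le _ _).trans ?_
      exact_mod_cast cont_deriv_bd hu p.2
    exact mul_le_mul (h1.trans (le_abs_self M)) h2 (norm_nonneg _) (abs_nonneg M)
  have hN : (fun σ => ∫ θ in (0 : ℝ)..2 * π, inp (u θ) σ * deriv (eta h X W σ) θ) =
      fun σ => -∫ θ, eta h X W σ θ * inp (deriv u θ) σ ∂μ := by
    funext σ
    rw [key, intervalIntegral.integral_of_le hpi.le]
  constructor
  · rw [hN, intervalIntegrable_iff_integrableOn_Ioc_of_le hpi.le]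
    exact hint.integral_prod_left.neg
  · rw [hN]
    unfold avg
    rw [intervalIntegral.integral_of_le hpi.le, integral_neg]
    have h3 := integral_integral_swap (f := fun σ θ => eta h X W σ θ * inp (deriv u θ) σ) hint
    rw [h3]
    have h4 : ∀ θ, ∫ σ, eta h X W σ θ * inp (deriv u θ) σ ∂μ = 0 := by
      intro θ
      have i1 : IntervalIntegrable (fun σ => eta h X W σ θ) volume 0 (2 * π) :=
        (hec.comp (continuous_id.prodMk continuous_const)).intervalIntegrable _ _
      have h5 := avg_mul_inp i1 (deriv u θ)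
      rw [he0 θ] at h5
      unfold avg at h5
      rw [intervalIntegral.integral_of_le hpi.le] at h5
      have h6 : (2 * π)⁻¹ ≠ 0 := inv_ne_zero hpi.ne'
      have h7 : (2 * π)⁻¹ * ∫ σ, eta h X W σ θ * inp (deriv u θ) σ ∂μ = 0 := by
        rw [hμ, h5]
        simp
      exact (mul_eq_zero.1 h7).resolve_left h6
    simp only [h4]
    simp

end Pool.Agent.CC57
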