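import Pool.Agent.CC57.Sph

set_option autoImplicit false

/-!
The visual weights have mean one: for `‖x‖ < 1`, `avg (wx x) = 1`.
With `x = ρ e^{iα}`, `inn x σ = ρ cos (σ - α)`; by periodicity
`∫_0^{2π} dσ/(1 - ρ² cos²(σ-α)) = ∫_0^{2π} dσ/(1 - ρ² cos² σ) = 2π/√(1-ρ²)`.
(For instance from `Pool.Agent.H65G.visual_mass` with `d = 1` and polar coordinates, or: for fixed `ρ`
the function `arctan (tan σ / √(1-ρ²)) / √(1-ρ²)` is a primitive of `1/(1 - ρ² cos² σ)` on
`(-π/2, π/2)`, with limits `± π/(2√(1-ρ²))`; or as in `visual_mass` by showing that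
`√(1-ρ²) ∫` has derivative zero in `ρ`.)
`int_wx_theta`: for `z = x + iθ`, `x < 0`: `xc (e^z) = e^{iθ}/cosh x` (as `2e^x/(1+e^{2x}) = 1/cosh x`), so
`wx (xc (e^z)) σ` is a function of `θ - σ` which is even and the integral over `θ` equals the integral
over `σ`, namely `2π`.
-/

open Real MeasureTheory Set

namespace Pool.Agent.CC57

/-- The common integral. -/
private theorem mass_int {ρ : ℝ} (h0 : 0 ≤ ρ) (h1 : ρ < 1) (α : ℝ) :
    ∫ t in (0 : ℝ)..2 * π, √(1 - ρ ^ 2) / (1 - (ρ * cos (t - α)) ^ 2) = 2 * π := by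
  have hρ : 0 < 1 - ρ ^ 2 := by nlinarith
  set q : ℝ := √(1 - ρ ^ 2) with hq
  have hq0 : 0 < q := sqrt_pos.2 hρ
  have hq2 : q ^ 2 = 1 - ρ ^ 2 := sq_sqrt hρ.le
  have hD : ∀ s c : ℝ, s ^ 2 + c ^ 2 = 1 → 0 < q * c ^ 2 + s ^ 2 := by
    intro s c h
    rcases eq_or_ne c 0 with hc | hc
    · rw [hc] at h ⊢
      nlinarith
    · have : 0 < c ^ 2 := by positivity
      nlinarith [sq_nonneg s, mul_pos hq0 this]
  have hE : ∀ s c : ℝ, s ^ 2 + c ^ 2 = 1 → 0 < q ^ 2 * c ^ 2 + s ^ 2 := by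
    intro s c h
    rcases eq_or_ne c 0 with hc | hc
    · rw [hc] at h ⊢
      nlinarith
    · have : 0 < c ^ 2 := by positivity
      nlinarith [sq_nonneg s, mul_pos (pow_pos hq0 2) this]
  let F : ℝ → ℝ := fun t => t + arctan ((1 - q) * (sin (t - α) * cos (t - α)) /
    (q * cos (t - α) ^ 2 + sin (t - α) ^ 2))
  have hder : ∀ t, HasDerivAt F (q / (1 - (ρ * cos (t - α)) ^ 2)) t := by
    intro t
    have hs : HasDerivAt (fun t => sin (t - α)) (cos (t - α)) t := by
      have := (hasDerivAt_sin (t - α)).comp t ((hasDerivAt_id t).sub_const α)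
      rw [mul_one] at this
      exact this
    have hc : HasDerivAt (fun t => cos (t - α)) (-sin (t - α)) t := by
      have := (hasDerivAt_cos (t - α)).comp t ((hasDerivAt_id t).sub_const α)
      rw [mul_one] at this
      exact this
    have hsc := sin_sq_add_cos_sq (t - α)
    have hN := (hs.fun_mul hc).const_mul (1 - q)
    have hDn := ((hc.fun_pow 2).const_mul q).fun_add (hs.fun_pow 2)
    have hDp := hD _ _ hsc
    have hEp := hE _ _ hsc
    have h2 := (hN.fun_div hDn hDp.ne').arctan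
    have h3 := (hasDerivAt_id' t).fun_add h2
    refine h3.congr_deriv ?_
    set s := sin (t - α)
    set c := cos (t - α)
    have e1 : 1 - (ρ * c) ^ 2 = q ^ 2 * c ^ 2 + s ^ 2 := by
      rw [hq2]
      linear_combination -hsc
    rw [e1]
    have e2 : (q * c ^ 2 + s ^ 2) ^ 2 + ((1 - q) * (s * c)) ^ 2 = q ^ 2 * c ^ 2 + s ^ 2 := by
      linear_combination (q ^ 2 * c ^ 2 + s ^ 2) * hsc
    have e3 : 1 + ((1 - q) * (s * c) / (q * c ^ 2 + s ^ 2)) ^ 2 =
        (q ^ 2 * c ^ 2 + s ^ 2) / (q * c ^ 2 + s ^ 2) ^ 2 := by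
      rw [← e2]
      field_simp
    rw [e3]
    field_simp
    push_cast
    have hs2 : s ^ 2 = 1 - c ^ 2 := by linarith
    have hs4 : s ^ 4 = (1 - c ^ 2) ^ 2 := by rw [← hs2]; ring
    ring_nf
    simp only [hs2, hs4]
    ring
  have hint : IntervalIntegrable (fun t => q / (1 - (ρ * cos (t - α)) ^ 2)) volume 0 (2 * π) := by
    apply Continuous.intervalIntegrable
    refine continuous_const.div (by fun_prop) fun t => ?_
    have hsc := sin_sq_add_cos_sq (t - α)
    have hEp := hE _ _ hsc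
    have e1 : 1 - (ρ * cos (t - α)) ^ 2 = q ^ 2 * cos (t - α) ^ 2 + sin (t - α) ^ 2 := by
      rw [hq2]
      linear_combination -hsc
    rw [e1]
    exact hEp.ne'
  rw [intervalIntegral.integral_eq_sub_of_hasDerivAt (fun t _ => hder t) hint]
  have e1 : sin (2 * π - α) = sin (0 - α) := by
    rw [show 2 * π - α = (0 - α) + 2 * π by ring, sin_add_two_pi]
  have e2 : cos (2 * π - α) = cos (0 - α) := by
    rw [show 2 * π - α = (0 - α) + 2 * π by ring, cos_add_two_pi]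
  simp only [F]
  rw [e1, e2]
  ring

private theorem inn_eq (x : ℂ) (σ : ℝ) : inn x σ = ‖x‖ * cos (σ - Complex.arg x) := by
  unfold inn
  rw [← Complex.norm_mul_cos_arg x, ← Complex.norm_mul_sin_arg x, Complex.norm_mul_cos_arg,
    Complex.norm_mul_sin_arg, cos_sub]
  conv_lhs => rw [← Complex.norm_mul_cos_arg x, ← Complex.norm_mul_sin_arg x]
  ring

private theorem den_pos {x : ℂ} (hx : ‖x‖ < 1) (σ : ℝ) : 0 < 1 - inn x σ ^ 2 := by
  rw [← qx_sq hx σ]
  exact pow_pos (qx_pos hx σ) 2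

theorem wx_nonneg {x : ℂ} (hx : ‖x‖ < 1) (σ : ℝ) : 0 ≤ wx x σ := by
  unfold wx
  exact div_nonneg (sqrt_nonneg _) (den_pos hx σ).le

theorem continuous_wx {x : ℂ} (hx : ‖x‖ < 1) : Continuous (wx x) := by
  unfold wx
  refine continuous_const.div ?_ fun σ => (den_pos hx σ).ne'
  have h : Continuous (inn x) := continuous_inn.comp (continuous_const.prodMk continuous_id)
  exact continuous_const.sub (h.pow 2)

theorem avg_wx {x : ℂ} (hx : ‖x‖ < 1) : avg (wx x) = 1 := by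
  unfold avg wx
  have h : ∀ σ, √(1 - ‖x‖ ^ 2) / (1 - inn x σ ^ 2) =
      √(1 - ‖x‖ ^ 2) / (1 - (‖x‖ * cos (σ - Complex.arg x)) ^ 2) := fun σ => by rw [inn_eq]
  simp only [h]
  rw [mass_int (norm_nonneg x) hx]
  have := pi_pos
  field_simp

theorem int_wx_theta {x : ℝ} (hx : x < 0) (σ : ℝ) :
    ∫ θ in (0 : ℝ)..2 * π, wx (xc (Complex.exp (pt x θ))) σ = 2 * π := by
  set ρ : ℝ := 2 / (1 + rexp x ^ 2) * rexp x with hρ
  have hx0 : 0 < rexp x := exp_pos x
  have hx1 : rexp x < 1 := by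
    rw [exp_lt_one_iff]
    exact hx
  have h0 : 0 ≤ ρ := by positivity
  have h1 : ρ < 1 := by
    rw [hρ, div_mul_eq_mul_div, div_lt_one (by positivity)]
    nlinarith [sq_nonneg (1 - rexp x), mul_pos (sub_pos.2 hx1) (sub_pos.2 hx1)]
  have hv : ∀ θ : ℝ, xc (Complex.exp (pt x θ)) = (ρ : ℂ) * Complex.exp (θ * Complex.I) := by
    intro θ
    unfold xc pt
    rw [Complex.exp_add, norm_mul, Complex.norm_exp_ofReal_mul_I, mul_one, Complex.norm_exp,
      Complex.ofReal_re, ← Complex.ofReal_exp, hρ]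
    push_cast
    ring
  have hn : ∀ θ : ℝ, ‖xc (Complex.exp (pt x θ))‖ = ρ := by
    intro θ
    rw [hv, norm_mul, Complex.norm_exp_ofReal_mul_I, mul_one, Complex.norm_real,
      Real.norm_of_nonneg h0]
  have hi : ∀ θ : ℝ, inn (xc (Complex.exp (pt x θ))) σ = ρ * cos (θ - σ) := by
    intro θ
    rw [hv]
    unfold inn
    rw [Complex.re_ofReal_mul, Complex.im_ofReal_mul, Complex.exp_ofReal_mul_I_re,
      Complex.exp_ofReal_mul_I_im, cos_sub]
    ring
  have h : ∀ θ : ℝ, wx (xc (Complex.exp (pt x θ))) σ =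
      √(1 - ρ ^ 2) / (1 - (ρ * cos (θ - σ)) ^ 2) := by
    intro θ
    unfold wx
    rw [hn, hi]
  simp only [h]
  exact mass_int h0 h1 σ

end Pool.Agent.CC57
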