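import Pool.Agent.CC57.Half

set_option autoImplicit false

/-!
The multiplier lemma.  Write `p k = ‖cf φ k‖`, `q k = ‖cf f k‖`, `P = φ f`.

1. `cf P n = ∑_k cf φ (n - k) cf f k` (absolutely convergent): `parseval2` for `φ e^{-inθ}` (or rather
   its conjugate) and `f`.  Hence `‖cf P n‖ ≤ ∑_k p (n - k) q k`.
2. `√|n| ≤ √|n-k| + √|k|`, so `√|n| ‖cf P n‖ ≤ S1 n + S2 n + S3 n` with
   `S1 n = ∑_k p (n - k) √|k| q k`, `S2 n = √|n| p n q 0`, `S3 n = ∑_{k ≠ 0, n} √|n-k| p (n - k) q k`.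
3. `∑_k p k ≤ B + (∑_{k≠0} 1/k²)^{1/2} (∑ k² p k²)^{1/2} ≤ C B` as `∑ k² p k² ≤ (2π)⁻¹ ∫ φ'² ≤ B²/(2π)`
   and `∑_{k≠0} 1/k² = π²/3`.  By Cauchy-Schwarz with the weights `p (n-k)`:
   `S1 n ² ≤ (∑ p) ∑_k p (n-k) |k| q k²`, so `∑_n S1 n² ≤ (∑ p)² hs f ≤ C B² hs f`.
4. `∑_n S2 n² ≤ (∑ n² p n²) q 0² ≤ B² q 0²`.
5. With `α m = |m| p m`, `β k = √|k| q k`: `S3 n = ∑_{k≠0,n} (|n-k| |k|)^{-1/2} α (n-k) β k`, so
   `S3 n² ≤ (∑_{k≠0,n} 1/(|n-k||k|)) ∑_k α(n-k)² β k²` and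
   `1/(|n-k||k|) ≤ (1/(n-k)² + 1/k²)/2`, whence `∑_{k≠0,n} 1/(|n-k||k|) ≤ π²/3`; sum over `n`:
   `∑_n S3 n² ≤ (π²/3) (∑ α²)(∑ β²) ≤ C B² hs f`.
6. `hs P = ∑ |n| ‖cf P n‖² ≤ 3 (∑ S1² + ∑ S2² + ∑ S3²)`, and `q 0 = |avg f|`.
The sums are taken in `ENNReal`.
-/

open Real MeasureTheory Set
open scoped ENNReal

namespace Pool.Agent.CC57

namespace MulAux

theorem prod_le_sq (a b : ℝ≥0∞) : a * b ≤ a ^ 2 + b ^ 2 := by
  rcases le_total a b with h | h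
  · calc a * b ≤ b * b := by gcongr
      _ = b ^ 2 := by ring
      _ ≤ a ^ 2 + b ^ 2 := le_add_self
  · calc a * b ≤ a * a := by gcongr
      _ = a ^ 2 := by ring
      _ ≤ a ^ 2 + b ^ 2 := le_self_add

theorem add_sq_le4 (a b : ℝ≥0∞) : (a + b) ^ 2 ≤ 4 * (a ^ 2 + b ^ 2) := by
  have h := prod_le_sq a b
  calc (a + b) ^ 2 = (a ^ 2 + b ^ 2) + (a * b + a * b) := by ring
    _ ≤ (a ^ 2 + b ^ 2) + ((a ^ 2 + b ^ 2) + (a ^ 2 + b ^ 2)) := by gcongr
    _ = 3 * (a ^ 2 + b ^ 2) := by ring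
    _ ≤ 4 * (a ^ 2 + b ^ 2) := by gcongr; norm_num

theorem add3_sq_le (a b c : ℝ≥0∞) : (a + b + c) ^ 2 ≤ 16 * (a ^ 2 + b ^ 2 + c ^ 2) := by
  calc (a + b + c) ^ 2 ≤ 4 * ((a + b) ^ 2 + c ^ 2) := add_sq_le4 _ _
    _ ≤ 4 * (4 * (a ^ 2 + b ^ 2) + 4 * c ^ 2) := by
        gcongr
        · exact add_sq_le4 _ _
        · calc c ^ 2 = 1 * c ^ 2 := by rw [one_mul]
            _ ≤ 4 * c ^ 2 := by gcongr; norm_num
    _ = 16 * (a ^ 2 + b ^ 2 + c ^ 2) := by ring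

theorem sq_tsum (a : ℤ → ℝ≥0∞) : (∑' k, a k) ^ 2 = ∑' j, ∑' k, a j * a k := by
  rw [sq, ← ENNReal.tsum_mul_right]
  congr 1
  ext j
  rw [ENNReal.tsum_mul_left]

/-- Weighted Cauchy-Schwarz, up to a constant. -/
theorem cs1 (a c : ℤ → ℝ≥0∞) :
    (∑' k, a k * c k) ^ 2 ≤ 2 * ((∑' k, a k) * ∑' k, a k * c k ^ 2) := by
  rw [sq_tsum]
  calc ∑' j, ∑' k, a j * c j * (a k * c k)
      ≤ ∑' j, ∑' k, (a j * (a k * c k ^ 2) + (a j * c j ^ 2) * a k) := by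
        apply ENNReal.tsum_le_tsum; intro j
        apply ENNReal.tsum_le_tsum; intro k
        calc a j * c j * (a k * c k) = (a j * a k) * (c j * c k) := by ring
          _ ≤ (a j * a k) * (c j ^ 2 + c k ^ 2) := by gcongr; exact prod_le_sq _ _
          _ = a j * (a k * c k ^ 2) + (a j * c j ^ 2) * a k := by ring
    _ = (∑' k, a k) * (∑' k, a k * c k ^ 2) + (∑' k, a k * c k ^ 2) * ∑' k, a k := by
        have h : ∀ j, ∑' k, (a j * (a k * c k ^ 2) + (a j * c j ^ 2) * a k)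
            = a j * (∑' k, a k * c k ^ 2) + (a j * c j ^ 2) * ∑' k, a k := by
          intro j
          rw [ENNReal.tsum_add, ENNReal.tsum_mul_left, ENNReal.tsum_mul_left]
        rw [tsum_congr h, ENNReal.tsum_add, ENNReal.tsum_mul_right, ENNReal.tsum_mul_right]
    _ = 2 * ((∑' k, a k) * ∑' k, a k * c k ^ 2) := by ring

/-- Cauchy-Schwarz, up to a constant. -/
theorem cs2 (u v : ℤ → ℝ≥0∞) :
    (∑' k, u k * v k) ^ 2 ≤ 2 * ((∑' k, u k ^ 2) * ∑' k, v k ^ 2) := by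
  rw [sq_tsum]
  calc ∑' j, ∑' k, u j * v j * (u k * v k)
      ≤ ∑' j, ∑' k, (u j ^ 2 * v k ^ 2 + v j ^ 2 * u k ^ 2) := by
        apply ENNReal.tsum_le_tsum; intro j
        apply ENNReal.tsum_le_tsum; intro k
        calc u j * v j * (u k * v k) = (u j * v k) * (v j * u k) := by ring
          _ ≤ (u j * v k) ^ 2 + (v j * u k) ^ 2 := prod_le_sq _ _
          _ = u j ^ 2 * v k ^ 2 + v j ^ 2 * u k ^ 2 := by ring
    _ = (∑' k, u k ^ 2) * (∑' k, v k ^ 2) + (∑' k, v k ^ 2) * ∑' k, u k ^ 2 := by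
        have h : ∀ j, ∑' k, (u j ^ 2 * v k ^ 2 + v j ^ 2 * u k ^ 2)
            = u j ^ 2 * (∑' k, v k ^ 2) + v j ^ 2 * ∑' k, u k ^ 2 := by
          intro j
          rw [ENNReal.tsum_add, ENNReal.tsum_mul_left, ENNReal.tsum_mul_left]
        rw [tsum_congr h, ENNReal.tsum_add, ENNReal.tsum_mul_right, ENNReal.tsum_mul_right]
    _ = 2 * ((∑' k, u k ^ 2) * ∑' k, v k ^ 2) := by ring

theorem tsum_shift (a : ℤ → ℝ≥0∞) (k : ℤ) : ∑' n, a (n - k) = ∑' n, a n :=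
  (Equiv.subRight k).tsum_eq a

theorem tsum_refl (a : ℤ → ℝ≥0∞) (n : ℤ) : ∑' k, a (n - k) = ∑' k, a k :=
  (Equiv.subLeft n).tsum_eq a

theorem conv_sum (a b : ℤ → ℝ≥0∞) :
    ∑' n, ∑' k, a (n - k) * b k = (∑' n, a n) * ∑' k, b k := by
  rw [ENNReal.tsum_comm]
  have h : ∀ k, ∑' n, a (n - k) * b k = (∑' n, a n) * b k := by
    intro k
    rw [ENNReal.tsum_mul_right, tsum_shift]
  rw [tsum_congr h, ENNReal.tsum_mul_left]

/-- The abstract form of the lemma. -/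
theorem abstract_mul (P p q s r : ℤ → ℝ≥0∞) (hP : ∀ n, P n ≤ ∑' k, p (n - k) * q k)
    (hs : ∀ n k, s n ≤ s (n - k) + s k) (hs0 : s 0 = 0) (hr : ∀ k, k ≠ 0 → r k * s k = 1) :
    ∑' n, (s n * P n) ^ 2 ≤ 16 * (2 * ((∑' k, p k) * ((∑' k, p k) * ∑' k, (s k * q k) ^ 2)) +
      (∑' n, (s n * p n) ^ 2) * q 0 ^ 2 +
      2 * (2 * (∑' k, r k ^ 4) * ((∑' k, (s k * s k * p k) ^ 2) * ∑' k, (s k * q k) ^ 2))) := by
  set b : ℤ → ℝ≥0∞ := fun k => s k * q k with hb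
  set α : ℤ → ℝ≥0∞ := fun k => s k * s k * p k with hα
  have key : ∀ n, s n * P n ≤ (∑' k, p (n - k) * b k) + s n * p n * q 0 +
      ∑' k, (r (n - k) * r k) * (α (n - k) * b k) := by
    intro n
    have hterm : ∀ k, s n * (p (n - k) * q k) ≤ p (n - k) * b k +
        ((if k = 0 then s n * p n * q 0 else 0) + (r (n - k) * r k) * (α (n - k) * b k)) := by
      intro k
      calc s n * (p (n - k) * q k) ≤ (s (n - k) + s k) * (p (n - k) * q k) := by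
            gcongr; exact hs n k
        _ = p (n - k) * b k + s (n - k) * (p (n - k) * q k) := by simp only [hb]; ring
        _ ≤ _ := by
          gcongr
          by_cases hk : k = 0
          · subst hk
            rw [if_pos rfl, sub_zero]
            calc s n * (p n * q 0) = s n * p n * q 0 := by ring
              _ ≤ _ := le_self_add
          · rw [if_neg hk, zero_add]
            by_cases hnk : n - k = 0
            · rw [hnk, hs0, zero_mul]; exact bot_le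
            · have e : r (n - k) * r k * (α (n - k) * b k) =
                  (r (n - k) * s (n - k)) * (r k * s k) * (s (n - k) * (p (n - k) * q k)) := by
                simp only [hα, hb]; ring
              rw [e, hr _ hnk, hr _ hk, one_mul, one_mul]
    calc s n * P n ≤ s n * ∑' k, p (n - k) * q k := by gcongr; exact hP n
      _ = ∑' k, s n * (p (n - k) * q k) := ENNReal.tsum_mul_left.symm
      _ ≤ ∑' k, (p (n - k) * b k +
        ((if k = 0 then s n * p n * q 0 else 0) + (r (n - k) * r k) * (α (n - k) * b k))) :=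
          ENNReal.tsum_le_tsum hterm
      _ = (∑' k, p (n - k) * b k) + s n * p n * q 0 +
          ∑' k, (r (n - k) * r k) * (α (n - k) * b k) := by
          rw [ENNReal.tsum_add, ENNReal.tsum_add, tsum_ite_eq, add_assoc]
  have h1 : ∑' n, (∑' k, p (n - k) * b k) ^ 2 ≤
      2 * ((∑' k, p k) * ((∑' k, p k) * ∑' k, b k ^ 2)) := by
    calc ∑' n, (∑' k, p (n - k) * b k) ^ 2
        ≤ ∑' n, 2 * ((∑' k, p (n - k)) * ∑' k, p (n - k) * b k ^ 2) :=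
          ENNReal.tsum_le_tsum fun n => cs1 (fun k => p (n - k)) b
      _ = ∑' n, 2 * ((∑' k, p k) * ∑' k, p (n - k) * b k ^ 2) := by
          congr 1; ext n; rw [tsum_refl p n]
      _ = 2 * ((∑' k, p k) * ∑' n, ∑' k, p (n - k) * b k ^ 2) := by
          rw [ENNReal.tsum_mul_left, ENNReal.tsum_mul_left]
      _ = _ := by rw [conv_sum p fun k => b k ^ 2]
  have h2 : ∑' n, (s n * p n * q 0) ^ 2 = (∑' n, (s n * p n) ^ 2) * q 0 ^ 2 := by
    rw [← ENNReal.tsum_mul_right]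
    congr 1; ext n; ring
  have h3 : ∑' n, (∑' k, (r (n - k) * r k) * (α (n - k) * b k)) ^ 2 ≤
      2 * (2 * (∑' k, r k ^ 4) * ((∑' k, α k ^ 2) * ∑' k, b k ^ 2)) := by
    have hw : ∀ n, ∑' k, (r (n - k) * r k) ^ 2 ≤ 2 * ∑' k, r k ^ 4 := by
      intro n
      calc ∑' k, (r (n - k) * r k) ^ 2 ≤ ∑' k, (r (n - k) ^ 4 + r k ^ 4) := by
            apply ENNReal.tsum_le_tsum; intro k
            calc (r (n - k) * r k) ^ 2 = (r (n - k) ^ 2) * (r k ^ 2) := by ring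
              _ ≤ (r (n - k) ^ 2) ^ 2 + (r k ^ 2) ^ 2 := prod_le_sq _ _
              _ = _ := by ring
        _ = 2 * ∑' k, r k ^ 4 := by
            rw [ENNReal.tsum_add, tsum_refl (fun k => r k ^ 4) n]; ring
    calc ∑' n, (∑' k, (r (n - k) * r k) * (α (n - k) * b k)) ^ 2
        ≤ ∑' n, 2 * ((∑' k, (r (n - k) * r k) ^ 2) * ∑' k, (α (n - k) * b k) ^ 2) :=
          ENNReal.tsum_le_tsum fun n => cs2 _ _
      _ ≤ ∑' n, 2 * ((2 * ∑' k, r k ^ 4) * ∑' k, α (n - k) ^ 2 * b k ^ 2) := by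
          apply ENNReal.tsum_le_tsum; intro n
          gcongr 2 * (?_ * ?_)
          · exact hw n
          · apply le_of_eq; congr 1; ext k; ring
      _ = 2 * ((2 * ∑' k, r k ^ 4) * ∑' n, ∑' k, α (n - k) ^ 2 * b k ^ 2) := by
          rw [ENNReal.tsum_mul_left, ENNReal.tsum_mul_left]
      _ = _ := by rw [conv_sum (fun k => α k ^ 2) fun k => b k ^ 2]
  calc ∑' n, (s n * P n) ^ 2
      ≤ ∑' n, 16 * ((∑' k, p (n - k) * b k) ^ 2 + (s n * p n * q 0) ^ 2 +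
          (∑' k, (r (n - k) * r k) * (α (n - k) * b k)) ^ 2) := by
        apply ENNReal.tsum_le_tsum; intro n
        calc (s n * P n) ^ 2 ≤ ((∑' k, p (n - k) * b k) + s n * p n * q 0 +
              ∑' k, (r (n - k) * r k) * (α (n - k) * b k)) ^ 2 := by
                gcongr; exact key n
          _ ≤ _ := add3_sq_le _ _ _
    _ = 16 * (∑' n, (∑' k, p (n - k) * b k) ^ 2 + ∑' n, (s n * p n * q 0) ^ 2 +
          ∑' n, (∑' k, (r (n - k) * r k) * (α (n - k) * b k)) ^ 2) := by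
        rw [ENNReal.tsum_mul_left, ENNReal.tsum_add, ENNReal.tsum_add]
    _ ≤ _ := by
        rw [h2]
        gcongr

/-- A summable bound from the derivative. -/
theorem sum_le (p s r : ℤ → ℝ≥0∞) (hr : ∀ k, k ≠ 0 → r k * s k = 1) :
    (∑' k, p k) ^ 2 ≤ 4 * (p 0 ^ 2 + 2 * ((∑' k, r k ^ 4) * ∑' k, (s k * s k * p k) ^ 2)) := by
  have h : ∀ k, p k ≤ (if k = 0 then p 0 else 0) + r k ^ 2 * (s k * s k * p k) := by
    intro k
    by_cases hk : k = 0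
    · subst hk
      rw [if_pos rfl]; exact le_self_add
    · rw [if_neg hk, zero_add]
      have e : r k ^ 2 * (s k * s k * p k) = (r k * s k) * (r k * s k) * p k := by ring
      rw [e, hr k hk, one_mul, one_mul]
  calc (∑' k, p k) ^ 2 ≤ (p 0 + ∑' k, r k ^ 2 * (s k * s k * p k)) ^ 2 := by
        gcongr
        calc ∑' k, p k ≤ ∑' k, ((if k = 0 then p 0 else 0) + r k ^ 2 * (s k * s k * p k)) :=
              ENNReal.tsum_le_tsum h
          _ = _ := by rw [ENNReal.tsum_add, tsum_ite_eq]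
    _ ≤ 4 * (p 0 ^ 2 + (∑' k, r k ^ 2 * (s k * s k * p k)) ^ 2) := add_sq_le4 _ _
    _ ≤ 4 * (p 0 ^ 2 + 2 * ((∑' k, (r k ^ 2) ^ 2) * ∑' k, (s k * s k * p k) ^ 2)) := by
        gcongr
        exact cs2 _ _
    _ = _ := by
        congr 5
        ext k
        ring

/-- `√|k|` as an extended nonnegative real. -/
noncomputable def sr (k : ℤ) : ℝ≥0∞ := ENNReal.ofReal (√|(k : ℝ)|)

/-- `1/√|k|`. -/
noncomputable def rr (k : ℤ) : ℝ≥0∞ := ENNReal.ofReal ((√|(k : ℝ)|)⁻¹)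

theorem sr_add (n k : ℤ) : sr n ≤ sr (n - k) + sr k := by
  unfold sr
  rw [← ENNReal.ofReal_add (by positivity) (by positivity)]
  apply ENNReal.ofReal_le_ofReal
  rw [Real.sqrt_le_iff]
  refine ⟨by positivity, ?_⟩
  have h1 : |(n : ℝ)| ≤ |((n - k : ℤ) : ℝ)| + |(k : ℝ)| := by
    have := abs_add_le ((n : ℝ) - k) (k : ℝ)
    push_cast
    simpa using this
  have h2 := Real.sq_sqrt (abs_nonneg ((n - k : ℤ) : ℝ))
  have h3 := Real.sq_sqrt (abs_nonneg (k : ℝ))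
  have h4 : 0 ≤ √|((n - k : ℤ) : ℝ)| * √|(k : ℝ)| := by positivity
  nlinarith

theorem sr_zero : sr 0 = 0 := by simp [sr]

theorem rr_mul (k : ℤ) (hk : k ≠ 0) : rr k * sr k = 1 := by
  unfold sr rr
  rw [← ENNReal.ofReal_mul (by positivity), inv_mul_cancel₀, ENNReal.ofReal_one]
  have : (0 : ℝ) < |(k : ℝ)| := abs_pos.mpr (by exact_mod_cast hk)
  positivity

theorem rr_four : ∑' k, rr k ^ 4 = ENNReal.ofReal (∑' k : ℤ, 1 / (k : ℝ) ^ 2) := by
  rw [ENNReal.ofReal_tsum_of_nonneg (fun n => by positivity)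
    (Real.summable_one_div_int_pow.mpr (by norm_num))]
  congr 1; ext k
  unfold rr
  rw [← ENNReal.ofReal_pow (by positivity)]
  congr 1
  rw [inv_pow, show (√|(k : ℝ)|) ^ 4 = ((√|(k : ℝ)|) ^ 2) ^ 2 by ring,
    Real.sq_sqrt (abs_nonneg _), sq_abs, one_div]

theorem sr_mul_sq (k : ℤ) (x : ℂ) :
    (sr k * ‖x‖ₑ) ^ 2 = ENNReal.ofReal (|(k : ℝ)| * ‖x‖ ^ 2) := by
  unfold sr
  rw [← ofReal_norm, ← ENNReal.ofReal_mul (by positivity),
    ← ENNReal.ofReal_pow (by positivity), mul_pow, Real.sq_sqrt (abs_nonneg _)]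

theorem sr_sr_mul_sq (k : ℤ) (x : ℂ) :
    (sr k * sr k * ‖x‖ₑ) ^ 2 = ENNReal.ofReal ((k : ℝ) ^ 2 * ‖x‖ ^ 2) := by
  unfold sr
  rw [← ofReal_norm, ← ENNReal.ofReal_mul (by positivity),
    ← ENNReal.ofReal_mul (by positivity), Real.mul_self_sqrt (abs_nonneg _),
    ← ENNReal.ofReal_pow (by positivity), mul_pow, sq_abs]

theorem sr_mul_le (k : ℤ) (x : ℂ) : (sr k * ‖x‖ₑ) ^ 2 ≤ (sr k * sr k * ‖x‖ₑ) ^ 2 := by
  rw [sr_mul_sq, sr_sr_mul_sq]
  apply ENNReal.ofReal_le_ofReal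
  apply mul_le_mul_of_nonneg_right _ (by positivity)
  rw [← sq_abs (k : ℝ)]
  by_cases hk : k = 0
  · subst hk; simp
  · have : (1 : ℝ) ≤ |(k : ℝ)| := by
      have := Int.one_le_abs hk
      exact_mod_cast this
    nlinarith

theorem deriv_cast (φ : ℝ → ℝ) (θ : ℝ) :
    deriv (fun t => ((φ t : ℝ) : ℂ)) θ = ((deriv φ θ : ℝ) : ℂ) := by
  by_cases h : DifferentiableAt ℝ φ θ
  · exact (h.hasDerivAt.ofReal_comp).deriv
  · rw [deriv_zero_of_not_differentiableAt h, deriv_zero_of_not_differentiableAt,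
      Complex.ofReal_zero]
    intro h'
    apply h
    have := Complex.reCLM.differentiableAt.comp θ h'
    exact this

theorem lip_cast {f : ℝ → ℝ} {K : NNReal} (hf : LipschitzWith K f) :
    LipschitzWith K fun θ => ((f θ : ℝ) : ℂ) := by
  have := Complex.isometry_ofReal.lipschitz.comp hf
  rw [one_mul] at this
  exact this

theorem exists_bound {f : ℝ → ℝ} {K : NNReal} (hf : LipschitzWith K f)
    (hp : ∀ θ, f (θ + 2 * π) = f θ) : ∃ C, ∀ θ, ‖((f θ : ℝ) : ℂ)‖ ≤ C := by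
  have hper : Function.Periodic f (2 * π) := hp
  refine ⟨|f 0| + K * (2 * π), fun θ => ?_⟩
  obtain ⟨y, hy, hy'⟩ := hper.exists_mem_Ico₀ Real.two_pi_pos θ
  rw [hy', Complex.norm_real, Real.norm_eq_abs]
  have h1 := hf.dist_le_mul y 0
  rw [Real.dist_eq, Real.dist_eq, sub_zero, abs_of_nonneg hy.1] at h1
  have h2 : |f y| ≤ |f 0| + |f y - f 0| := by
    have := abs_add_le (f 0) (f y - f 0)
    simpa using this
  have h3 : (K : ℝ) * y ≤ K * (2 * π) := by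
    have := hy.2.le
    gcongr
  linarith

theorem sum_alpha {φ : ℝ → ℝ} {K : NNReal} {B : ℝ} (hφ : LipschitzWith K φ)
    (hp : ∀ θ, φ (θ + 2 * π) = φ θ) (hB : ∫ θ in (0 : ℝ)..2 * π, deriv φ θ ^ 2 ≤ B ^ 2) :
    ∑' k : ℤ, (sr k * sr k * ‖cf (fun θ => ((φ θ : ℝ) : ℂ)) k‖ₑ) ^ 2 ≤ ENNReal.ofReal (B ^ 2) := by
  have h := hasSum_deriv (lip_cast hφ) (f := fun θ => ((φ θ : ℝ) : ℂ))
    (fun θ => by simp only [hp])
  simp only [sr_sr_mul_sq]
  rw [← ENNReal.ofReal_tsum_of_nonneg (fun n => by positivity) h.summable, h.tsum_eq]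
  apply ENNReal.ofReal_le_ofReal
  have e : ∫ θ in (0 : ℝ)..2 * π, ‖deriv (fun t => ((φ t : ℝ) : ℂ)) θ‖ ^ 2 =
      ∫ θ in (0 : ℝ)..2 * π, deriv φ θ ^ 2 := by
    congr 1; ext θ
    rw [deriv_cast, Complex.norm_real, Real.norm_eq_abs, sq_abs]
  rw [e]
  have h1 : (2 * π)⁻¹ ≤ 1 := by
    apply inv_le_one_of_one_le₀
    linarith [Real.pi_gt_three]
  have h2 : 0 ≤ ∫ θ in (0 : ℝ)..2 * π, deriv φ θ ^ 2 :=
    intervalIntegral.integral_nonneg (by positivity) fun _ _ => by positivity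
  calc (2 * π)⁻¹ * ∫ θ in (0 : ℝ)..2 * π, deriv φ θ ^ 2
      ≤ 1 * ∫ θ in (0 : ℝ)..2 * π, deriv φ θ ^ 2 := by gcongr
    _ ≤ B ^ 2 := by rw [one_mul]; exact hB

/-- The coefficients of a product. -/
theorem cf_mul_le {φ f : ℝ → ℝ} {K : NNReal} (hφ : LipschitzWith K φ) (hf : LipschitzWith K f)
    (hφp : ∀ θ, φ (θ + 2 * π) = φ θ) (hfp : ∀ θ, f (θ + 2 * π) = f θ) (n : ℤ) :
    ‖cf (fun θ => ((φ θ * f θ : ℝ) : ℂ)) n‖ₑ ≤
      ∑' k, ‖cf (fun θ => ((φ θ : ℝ) : ℂ)) (n - k)‖ₑ * ‖cf (fun θ => ((f θ : ℝ) : ℂ)) k‖ₑ := by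
  obtain ⟨C1, hC1⟩ := exists_bound hφ hφp
  obtain ⟨C2, hC2⟩ := exists_bound hf hfp
  set g : ℝ → ℂ := fun θ => ((φ θ : ℝ) : ℂ) * Complex.exp (n * θ * Complex.I) with hg
  have hgb : ∀ θ, ‖g θ‖ ≤ C1 := by
    intro θ
    rw [hg]
    simp only
    rw [norm_mul, show ((n : ℂ) * θ * Complex.I) = ((n * θ : ℝ) : ℂ) * Complex.I by push_cast; ring,
      Complex.norm_exp_ofReal_mul_I, mul_one]
    exact hC1 θ
  have hfm : AEStronglyMeasurable (fun θ => ((f θ : ℝ) : ℂ)) (volume.restrict (Ioc 0 (2 * π))) :=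
    (lip_cast hf).continuous.aestronglyMeasurable
  have hgm : AEStronglyMeasurable g (volume.restrict (Ioc 0 (2 * π))) := by
    apply Continuous.aestronglyMeasurable
    exact (lip_cast hφ).continuous.mul (by fun_prop)
  have hs := parseval2 hfm hgm (C := max C1 C2) (fun θ => (hC2 θ).trans (le_max_right _ _))
    (fun θ => (hgb θ).trans (le_max_left _ _))
  have e1 : (((2 * π)⁻¹ : ℝ) • ∫ θ in (0 : ℝ)..2 * π, ((f θ : ℝ) : ℂ) * (starRingEnd ℂ) (g θ)) =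
      cf (fun θ => ((φ θ * f θ : ℝ) : ℂ)) n := by
    unfold cf
    congr 1
    congr 1; ext θ
    rw [hg]
    simp only [map_mul, Complex.conj_ofReal, ← Complex.exp_conj, Complex.conj_I]
    rw [show (starRingEnd ℂ) (n : ℂ) = (n : ℂ) by
      rw [← Complex.ofReal_intCast, Complex.conj_ofReal]]
    push_cast
    ring_nf
  have e2 : ∀ k, (starRingEnd ℂ) (cf g k) = cf (fun θ => ((φ θ : ℝ) : ℂ)) (n - k) := by
    intro k
    have : cf g k = cf (fun θ => ((φ θ : ℝ) : ℂ)) (-(n - k)) := by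
      unfold cf
      congr 1
      congr 1; ext θ
      rw [hg]
      simp only
      rw [mul_assoc, ← Complex.exp_add]
      congr 2
      push_cast
      ring
    rw [this, cf_neg_real]
    simp
  rw [← e1, ← hs.tsum_eq]
  calc ‖∑' k, cf (fun θ => ((f θ : ℝ) : ℂ)) k * (starRingEnd ℂ) (cf g k)‖ₑ
      ≤ ∑' k, ‖cf (fun θ => ((f θ : ℝ) : ℂ)) k * (starRingEnd ℂ) (cf g k)‖ₑ :=
        enorm_tsum_le_tsum_enorm
    _ = _ := by
        congr 1; ext k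
        rw [enorm_mul, e2, mul_comm]

theorem cf_zero_avg (f : ℝ → ℝ) : cf (fun θ => ((f θ : ℝ) : ℂ)) 0 = ((avg f : ℝ) : ℂ) := by
  unfold cf avg
  simp only [Int.cast_zero, zero_mul, neg_zero, Complex.exp_zero, mul_one]
  rw [intervalIntegral.integral_ofReal, Complex.real_smul]
  push_cast
  ring

end MulAux

open MulAux in
theorem hs_mul_le : ∃ C : ℝ, 0 < C ∧ ∀ (φ f : ℝ → ℝ) (K : NNReal) (B : ℝ), LipschitzWith K φ →
    LipschitzWith K f → (∀ θ, φ (θ + 2 * π) = φ θ) → (∀ θ, f (θ + 2 * π) = f θ) →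
    (∀ θ, |φ θ| ≤ B) → ∫ θ in (0 : ℝ)..2 * π, deriv φ θ ^ 2 ≤ B ^ 2 →
    hs (fun θ => φ θ * f θ) ≤ C * B ^ 2 * (hs f + avg f ^ 2) := by
  set Z : ℝ := ∑' k : ℤ, 1 / (k : ℝ) ^ 2 with hZ
  have hZ0 : 0 ≤ Z := tsum_nonneg fun k => by positivity
  refine ⟨16 * (8 * (1 + 2 * Z) + 1 + 4 * Z), by positivity, ?_⟩
  intro φ f K B hφ hf hφp hfp hB hB'
  have hB0 : 0 ≤ B := (abs_nonneg _).trans (hB 0)
  by_cases hsum : Summable fun n : ℤ => |(n : ℝ)| * ‖cf (fun θ => ((φ θ * f θ : ℝ) : ℂ)) n‖ ^ 2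
  swap
  · have : hs (fun θ => φ θ * f θ) = 0 := by
      unfold hs hsC
      exact tsum_eq_zero_of_not_summable hsum
    rw [this]
    have := hs_nonneg f
    positivity
  have hfs := summable_hsC (lip_cast hf) (f := fun θ => ((f θ : ℝ) : ℂ))
    (fun θ => by simp only [hfp])
  have E1 : ENNReal.ofReal (hs fun θ => φ θ * f θ) =
      ∑' n, (sr n * ‖cf (fun θ => ((φ θ * f θ : ℝ) : ℂ)) n‖ₑ) ^ 2 := by
    unfold hs hsC
    rw [ENNReal.ofReal_tsum_of_nonneg (fun n => by positivity) hsum]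
    simp only [sr_mul_sq]
  have E2 : ∑' n, (sr n * ‖cf (fun θ => ((f θ : ℝ) : ℂ)) n‖ₑ) ^ 2 = ENNReal.ofReal (hs f) := by
    unfold hs hsC
    rw [ENNReal.ofReal_tsum_of_nonneg (fun n => by positivity) hfs]
    simp only [sr_mul_sq]
  have A1 := abstract_mul (fun n => ‖cf (fun θ => ((φ θ * f θ : ℝ) : ℂ)) n‖ₑ)
    (fun k => ‖cf (fun θ => ((φ θ : ℝ) : ℂ)) k‖ₑ) (fun k => ‖cf (fun θ => ((f θ : ℝ) : ℂ)) k‖ₑ)
    sr rr (fun n => cf_mul_le hφ hf hφp hfp n) sr_add sr_zero rr_mul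
  have A2 := sum_le (fun k => ‖cf (fun θ => ((φ θ : ℝ) : ℂ)) k‖ₑ) sr rr rr_mul
  have A3 := sum_alpha hφ hφp hB'
  have A4 : ∑' n, (sr n * ‖cf (fun θ => ((φ θ : ℝ) : ℂ)) n‖ₑ) ^ 2 ≤ ENNReal.ofReal (B ^ 2) :=
    (ENNReal.tsum_le_tsum fun k => sr_mul_le k _).trans A3
  have A5 : ‖cf (fun θ => ((φ θ : ℝ) : ℂ)) 0‖ₑ ^ 2 ≤ ENNReal.ofReal (B ^ 2) := by
    rw [ENNReal.ofReal_pow hB0, ← ofReal_norm]
    gcongr
    apply norm_cf_le
    intro θ
    rw [Complex.norm_real, Real.norm_eq_abs]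
    exact hB θ
  have A6 : ‖cf (fun θ => ((f θ : ℝ) : ℂ)) 0‖ₑ ^ 2 = ENNReal.ofReal (avg f ^ 2) := by
    rw [cf_zero_avg, ← ofReal_norm, Complex.norm_real, ← ENNReal.ofReal_pow (by positivity),
      Real.norm_eq_abs, sq_abs]
  have A7 : (∑' k, ‖cf (fun θ => ((φ θ : ℝ) : ℂ)) k‖ₑ) ^ 2 ≤
      ENNReal.ofReal (4 * (1 + 2 * Z) * B ^ 2) := by
    refine A2.trans ?_
    rw [rr_four]
    calc 4 * (‖cf (fun θ => ((φ θ : ℝ) : ℂ)) 0‖ₑ ^ 2 + 2 * (ENNReal.ofReal Z *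
          ∑' k, (sr k * sr k * ‖cf (fun θ => ((φ θ : ℝ) : ℂ)) k‖ₑ) ^ 2))
        ≤ 4 * (ENNReal.ofReal (B ^ 2) + 2 * (ENNReal.ofReal Z * ENNReal.ofReal (B ^ 2))) := by
          gcongr
      _ = ENNReal.ofReal (4 * (1 + 2 * Z) * B ^ 2) := by
          rw [show (4 : ℝ≥0∞) = ENNReal.ofReal 4 by norm_num,
            show (2 : ℝ≥0∞) = ENNReal.ofReal 2 by norm_num,
            ← ENNReal.ofReal_mul (by positivity), ← ENNReal.ofReal_mul (by positivity),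
            ← ENNReal.ofReal_add (by positivity) (by positivity),
            ← ENNReal.ofReal_mul (by positivity)]
          congr 1
          ring
  rw [← E1, E2, rr_four] at A1
  have hsf := hs_nonneg f
  have F : ENNReal.ofReal (hs fun θ => φ θ * f θ) ≤
      ENNReal.ofReal (16 * (8 * (1 + 2 * Z) + 1 + 4 * Z) * B ^ 2 * (hs f + avg f ^ 2)) := by
    refine A1.trans ?_
    calc 16 * (2 * ((∑' k, ‖cf (fun θ => ((φ θ : ℝ) : ℂ)) k‖ₑ) *
            ((∑' k, ‖cf (fun θ => ((φ θ : ℝ) : ℂ)) k‖ₑ) * ENNReal.ofReal (hs f))) +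
          (∑' n, (sr n * ‖cf (fun θ => ((φ θ : ℝ) : ℂ)) n‖ₑ) ^ 2) *
            ‖cf (fun θ => ((f θ : ℝ) : ℂ)) 0‖ₑ ^ 2 +
          2 * (2 * ENNReal.ofReal Z *
            ((∑' k, (sr k * sr k * ‖cf (fun θ => ((φ θ : ℝ) : ℂ)) k‖ₑ) ^ 2) *
              ENNReal.ofReal (hs f))))
        = 16 * (2 * ((∑' k, ‖cf (fun θ => ((φ θ : ℝ) : ℂ)) k‖ₑ) ^ 2 * ENNReal.ofReal (hs f)) +
          (∑' n, (sr n * ‖cf (fun θ => ((φ θ : ℝ) : ℂ)) n‖ₑ) ^ 2) *
            ENNReal.ofReal (avg f ^ 2) +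
          2 * (2 * ENNReal.ofReal Z *
            ((∑' k, (sr k * sr k * ‖cf (fun θ => ((φ θ : ℝ) : ℂ)) k‖ₑ) ^ 2) *
              ENNReal.ofReal (hs f)))) := by rw [A6]; ring
      _ ≤ 16 * (2 * (ENNReal.ofReal (4 * (1 + 2 * Z) * B ^ 2) * ENNReal.ofReal (hs f)) +
          ENNReal.ofReal (B ^ 2) * ENNReal.ofReal (avg f ^ 2) +
          2 * (2 * ENNReal.ofReal Z * (ENNReal.ofReal (B ^ 2) * ENNReal.ofReal (hs f)))) := by
          gcongr
      _ = ENNReal.ofReal (16 * (2 * (4 * (1 + 2 * Z) * B ^ 2 * hs f) + B ^ 2 * avg f ^ 2 +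
            2 * (2 * Z * (B ^ 2 * hs f)))) := by
          rw [show (16 : ℝ≥0∞) = ENNReal.ofReal 16 by norm_num,
            show (2 : ℝ≥0∞) = ENNReal.ofReal 2 by norm_num]
          rw [← ENNReal.ofReal_mul (by positivity), ← ENNReal.ofReal_mul (by positivity),
            ← ENNReal.ofReal_mul (by positivity), ← ENNReal.ofReal_mul (by positivity),
            ← ENNReal.ofReal_mul (by positivity), ← ENNReal.ofReal_mul (by positivity),
            ← ENNReal.ofReal_mul (by positivity),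
            ← ENNReal.ofReal_add (by positivity) (by positivity),
            ← ENNReal.ofReal_add (by positivity) (by positivity),
            ← ENNReal.ofReal_mul (by positivity)]
      _ ≤ _ := by
          apply ENNReal.ofReal_le_ofReal
          have h1 : 0 ≤ B ^ 2 * avg f ^ 2 := by positivity
          have h2 : 0 ≤ B ^ 2 * hs f := by positivity
          have h3 : 0 ≤ Z * (B ^ 2 * avg f ^ 2) := by positivity
          nlinarith
  rw [ENNReal.ofReal_le_ofReal_iff (by positivity)] at F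
  exact F

end Pool.Agent.CC57
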