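import Pool.Agent.CC57.FinDefs
import Pool.Agent.CC57.Mul
import Pool.Agent.CC57.Cplx

set_option autoImplicit false

/-!
The multiplier lemma for `u = W - X`.  If `|φ θ| ≤ A ε` and
`|φ θ - φ θ'| ≤ A (‖X θ - X θ'‖ + ‖W θ - W θ'‖)` then `φ` is Lipschitz with constant `2 A K`, and
`|φ'| ≤ A (‖X'‖ + ‖W'‖)` wherever all derivatives exist (a.e.: Rademacher,
`LipschitzWith.ae_differentiableAt`), so `∫ φ'² ≤ 2 A² (∫ ‖X'‖² + ∫ ‖W'‖²) ≤ 4 A² ε²`.  Apply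
`hs_mul_le` with `B = 2 A ε` to `φ₁ u₁` and `φ₂ u₂`, then `hs_add_le`, `hs_re_add_hs_im`,
`avg_sq_add_avg_sq` (`hs` and `avg²` of `u₁`, `u₂` are at most those of `u`).
The product of bounded Lipschitz functions is Lipschitz.
-/

open Real MeasureTheory Set

namespace Pool.Agent.CC57

private lemma mu_ii {f : ℝ → ℝ} (hm : Measurable f) {C : ℝ} (hb : ∀ θ, ‖f θ‖ ≤ C) (a b : ℝ) :
    IntervalIntegrable f volume a b := by
  rw [intervalIntegrable_iff]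
  refine Measure.integrableOn_of_bounded (M := C) ?_ hm.aestronglyMeasurable ?_
  · rw [uIoc]
    simp
  · exact Filter.Eventually.of_forall fun θ => hb θ

private lemma mu_XW {ε : ℝ} {K : NNReal} {X W : ℝ → ℂ} (hD : Curves ε K X W) (θ θ' : ℝ) :
    ‖X θ - X θ'‖ + ‖W θ - W θ'‖ ≤ 2 * K * |θ - θ'| := by
  have h1 := hD.XL.dist_le_mul θ θ'
  have h2 := hD.WL.dist_le_mul θ θ'
  rw [dist_eq_norm, dist_eq_norm, Real.norm_eq_abs] at h1 h2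
  linarith

private lemma mu_lip {ε : ℝ} {K : NNReal} {X W : ℝ → ℂ} (hD : Curves ε K X W) {A : ℝ} (hA : 0 ≤ A)
    {φ : ℝ → ℝ} (hl : ∀ θ θ', |φ θ - φ θ'| ≤ A * (‖X θ - X θ'‖ + ‖W θ - W θ'‖)) :
    LipschitzWith (2 * Real.toNNReal A * K) φ := by
  refine LipschitzWith.of_dist_le_mul fun θ θ' => ?_
  rw [Real.dist_eq, Real.dist_eq]
  refine (hl θ θ').trans ?_
  have h1 := mul_le_mul_of_nonneg_left (mu_XW hD θ θ') hA
  refine h1.trans (le_of_eq ?_)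
  push_cast
  rw [Real.coe_toNNReal A hA]
  ring

private lemma mu_per {ε : ℝ} {K : NNReal} {X W : ℝ → ℂ} (hD : Curves ε K X W) {A : ℝ}
    {φ : ℝ → ℝ} (hl : ∀ θ θ', |φ θ - φ θ'| ≤ A * (‖X θ - X θ'‖ + ‖W θ - W θ'‖)) (θ : ℝ) :
    φ (θ + 2 * π) = φ θ := by
  have h1 := hl (θ + 2 * π) θ
  rw [hD.Xp, hD.Wp, sub_self, sub_self, norm_zero, add_zero, mul_zero] at h1
  exact sub_eq_zero.1 (abs_nonpos_iff.1 h1)

private lemma mu_du_lip {ε : ℝ} {K : NNReal} {X W : ℝ → ℂ} (hD : Curves ε K X W) :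
    LipschitzWith (2 * K) (du X W) := by
  refine LipschitzWith.of_dist_le_mul fun θ θ' => ?_
  rw [dist_eq_norm, Real.dist_eq]
  have h1 := mu_XW hD θ θ'
  have h2 : du X W θ - du X W θ' = (W θ - W θ') - (X θ - X θ') := by
    unfold du
    ring
  rw [h2]
  have h3 := norm_sub_le (W θ - W θ') (X θ - X θ')
  push_cast
  linarith

private lemma mu_du_per {ε : ℝ} {K : NNReal} {X W : ℝ → ℂ} (hD : Curves ε K X W) (θ : ℝ) :
    du X W (θ + 2 * π) = du X W θ := by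
  unfold du
  rw [hD.Xp, hD.Wp]

private lemma mu_du_b {ε : ℝ} {K : NNReal} {X W : ℝ → ℂ} (hD : Curves ε K X W) (θ : ℝ) :
    ‖du X W θ‖ ≤ 2 * ε := by
  unfold du
  have h1 := norm_sub_le (W θ) (X θ)
  have h2 := hD.Xb θ
  have h3 := hD.Wb θ
  linarith

private lemma mu_re {u : ℝ → ℂ} {K : NNReal} (hu : LipschitzWith K u) :
    LipschitzWith K (fun θ => (u θ).re) := by
  refine LipschitzWith.of_dist_le_mul fun x y => ?_
  refine le_trans ?_ (hu.dist_le_mul x y)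
  rw [Real.dist_eq, dist_eq_norm, ← Complex.sub_re]
  exact Complex.abs_re_le_norm _

private lemma mu_im {u : ℝ → ℂ} {K : NNReal} (hu : LipschitzWith K u) :
    LipschitzWith K (fun θ => (u θ).im) := by
  refine LipschitzWith.of_dist_le_mul fun x y => ?_
  refine le_trans ?_ (hu.dist_le_mul x y)
  rw [Real.dist_eq, dist_eq_norm, ← Complex.sub_im]
  exact Complex.abs_im_le_norm _

private lemma mu_mul {φ v : ℝ → ℝ} {K₁ K₂ B₁ B₂ : NNReal} (h1 : LipschitzWith K₁ φ)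
    (h2 : LipschitzWith K₂ v) (hb1 : ∀ θ, |φ θ| ≤ B₁) (hb2 : ∀ θ, |v θ| ≤ B₂) :
    LipschitzWith (B₁ * K₂ + K₁ * B₂) (fun θ => φ θ * v θ) := by
  refine LipschitzWith.of_dist_le_mul fun x y => ?_
  have e1 := h1.dist_le_mul x y
  have e2 := h2.dist_le_mul x y
  rw [Real.dist_eq, Real.dist_eq] at e1 e2
  rw [Real.dist_eq, Real.dist_eq]
  have e3 : φ x * v x - φ y * v y = φ x * (v x - v y) + (φ x - φ y) * v y := by ring
  rw [e3]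
  refine (abs_add_le _ _).trans ?_
  rw [abs_mul, abs_mul]
  have e4 : |φ x| * |v x - v y| ≤ B₁ * (K₂ * |x - y|) :=
    mul_le_mul (hb1 x) e2 (abs_nonneg _) B₁.2
  have e5 : |φ x - φ y| * |v y| ≤ K₁ * |x - y| * B₂ :=
    mul_le_mul e1 (hb2 y) (abs_nonneg _) (by positivity)
  push_cast
  linarith

theorem LP_mul_add {ε : ℝ} {K : NNReal} {X W : ℝ → ℂ} (hD : Curves ε K X W) {A : ℝ} (hA : 0 ≤ A)
    {φ₁ φ₂ : ℝ → ℝ}
    (hb₁ : ∀ θ, |φ₁ θ| ≤ A * ε) (hb₂ : ∀ θ, |φ₂ θ| ≤ A * ε)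
    (hl₁ : ∀ θ θ', |φ₁ θ - φ₁ θ'| ≤ A * (‖X θ - X θ'‖ + ‖W θ - W θ'‖))
    (hl₂ : ∀ θ θ', |φ₂ θ - φ₂ θ'| ≤ A * (‖X θ - X θ'‖ + ‖W θ - W θ'‖)) :
    LP (fun θ => φ₁ θ * (du X W θ).re + φ₂ θ * (du X W θ).im) := by
  have hAe : 0 ≤ A * ε := mul_nonneg hA hD.pos.le
  have he : 0 ≤ 2 * ε := by linarith [hD.pos]
  refine ⟨⟨_, (mu_mul (B₁ := ⟨A * ε, hAe⟩) (B₂ := ⟨2 * ε, he⟩) (mu_lip hD hA hl₁)
    (mu_re (mu_du_lip hD)) hb₁ ?_).add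
    (mu_mul (B₁ := ⟨A * ε, hAe⟩) (B₂ := ⟨2 * ε, he⟩) (mu_lip hD hA hl₂)
    (mu_im (mu_du_lip hD)) hb₂ ?_)⟩, ?_⟩
  · intro θ
    exact (Complex.abs_re_le_norm _).trans (mu_du_b hD θ)
  · intro θ
    exact (Complex.abs_im_le_norm _).trans (mu_du_b hD θ)
  · intro θ
    show φ₁ (θ + 2 * π) * (du X W (θ + 2 * π)).re + φ₂ (θ + 2 * π) * (du X W (θ + 2 * π)).im = _
    rw [mu_per hD hl₁, mu_per hD hl₂, mu_du_per hD]

private lemma mu_der {A : ℝ} {X W : ℝ → ℂ} {φ : ℝ → ℝ}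
    (hl : ∀ θ θ', |φ θ - φ θ'| ≤ A * (‖X θ - X θ'‖ + ‖W θ - W θ'‖)) {θ : ℝ}
    (h1 : DifferentiableAt ℝ φ θ) (h2 : DifferentiableAt ℝ X θ) (h3 : DifferentiableAt ℝ W θ) :
    |deriv φ θ| ≤ A * (‖deriv X θ‖ + ‖deriv W θ‖) := by
  have t1 := (hasDerivAt_iff_tendsto_slope.1 h1.hasDerivAt).norm
  have t2 := (hasDerivAt_iff_tendsto_slope.1 h2.hasDerivAt).norm
  have t3 := (hasDerivAt_iff_tendsto_slope.1 h3.hasDerivAt).norm
  have t4 := (t2.add t3).const_mul A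
  rw [← Real.norm_eq_abs]
  refine le_of_tendsto_of_tendsto t1 t4 (Filter.Eventually.of_forall fun θ' => ?_)
  simp only [slope_def_module, norm_smul, Real.norm_eq_abs]
  have h5 := mul_le_mul_of_nonneg_left (hl θ' θ) (abs_nonneg (θ' - θ)⁻¹)
  refine h5.trans (le_of_eq ?_)
  ring

private lemma mu_int {ε : ℝ} {K : NNReal} {X W : ℝ → ℂ} (hD : Curves ε K X W) {A : ℝ} (hA : 0 ≤ A)
    {φ : ℝ → ℝ} (hl : ∀ θ θ', |φ θ - φ θ'| ≤ A * (‖X θ - X θ'‖ + ‖W θ - W θ'‖)) :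
    ∫ θ in (0 : ℝ)..2 * π, deriv φ θ ^ 2 ≤ (2 * A * ε) ^ 2 := by
  have hL := mu_lip hD hA hl
  have hdφ : ∀ θ, ‖deriv φ θ‖ ≤ (2 * Real.toNNReal A * K : NNReal) := fun θ =>
    norm_deriv_le_of_lipschitz hL
  have hdX : ∀ θ, ‖deriv X θ‖ ≤ K := fun θ => norm_deriv_le_of_lipschitz hD.XL
  have hdW : ∀ θ, ‖deriv W θ‖ ≤ K := fun θ => norm_deriv_le_of_lipschitz hD.WL
  have i1 : IntervalIntegrable (fun θ => deriv φ θ ^ 2) volume 0 (2 * π) := by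
    refine mu_ii (C := ((2 * Real.toNNReal A * K : NNReal) : ℝ) ^ 2)
      ((measurable_deriv φ).pow_const 2) (fun θ => ?_) _ _
    rw [norm_pow]
    exact pow_le_pow_left₀ (norm_nonneg _) (hdφ θ) 2
  have i2 : IntervalIntegrable (fun θ => ‖deriv X θ‖ ^ 2) volume 0 (2 * π) := by
    refine mu_ii (C := (K : ℝ) ^ 2) ((measurable_deriv X).norm.pow_const 2) (fun θ => ?_) _ _
    rw [norm_pow, norm_norm]
    exact pow_le_pow_left₀ (norm_nonneg _) (hdX θ) 2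
  have i3 : IntervalIntegrable (fun θ => ‖deriv W θ‖ ^ 2) volume 0 (2 * π) := by
    refine mu_ii (C := (K : ℝ) ^ 2) ((measurable_deriv W).norm.pow_const 2) (fun θ => ?_) _ _
    rw [norm_pow, norm_norm]
    exact pow_le_pow_left₀ (norm_nonneg _) (hdW θ) 2
  have h1 : ∫ θ in (0 : ℝ)..2 * π, deriv φ θ ^ 2 ≤
      ∫ θ in (0 : ℝ)..2 * π, 2 * A ^ 2 * (‖deriv X θ‖ ^ 2 + ‖deriv W θ‖ ^ 2) := by
    refine intervalIntegral.integral_mono_ae (by positivity) i1 ((i2.add i3).const_mul _) ?_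
    filter_upwards [hL.ae_differentiableAt (μ := volume), hD.XL.ae_differentiableAt (μ := volume),
      hD.WL.ae_differentiableAt (μ := volume)] with θ a1 a2 a3
    have h2 := mu_der hl a1 a2 a3
    have h3 : deriv φ θ ^ 2 ≤ (A * (‖deriv X θ‖ + ‖deriv W θ‖)) ^ 2 := by
      rw [← sq_abs (deriv φ θ)]
      exact pow_le_pow_left₀ (abs_nonneg _) h2 2
    refine h3.trans ?_
    have h4 := mul_nonneg (sq_nonneg A) (sq_nonneg (‖deriv X θ‖ - ‖deriv W θ‖))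
    show _ ≤ 2 * A ^ 2 * (‖deriv X θ‖ ^ 2 + ‖deriv W θ‖ ^ 2)
    nlinarith
  refine h1.trans ?_
  rw [intervalIntegral.integral_const_mul, intervalIntegral.integral_add i2 i3]
  have h5 := hD.XD
  have h6 := hD.WD
  have h7 : 0 ≤ 2 * A ^ 2 := by positivity
  nlinarith [mul_le_mul_of_nonneg_left (add_le_add h5 h6) h7]

theorem hs_multU : ∃ C : ℝ, 0 < C ∧ ∀ (ε : ℝ) (K : NNReal) (X W : ℝ → ℂ), Curves ε K X W →
    ∀ (A : ℝ) (φ₁ φ₂ : ℝ → ℝ), 0 ≤ A → (∀ θ, |φ₁ θ| ≤ A * ε) → (∀ θ, |φ₂ θ| ≤ A * ε) →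
    (∀ θ θ', |φ₁ θ - φ₁ θ'| ≤ A * (‖X θ - X θ'‖ + ‖W θ - W θ'‖)) →
    (∀ θ θ', |φ₂ θ - φ₂ θ'| ≤ A * (‖X θ - X θ'‖ + ‖W θ - W θ'‖)) →
    hs (fun θ => φ₁ θ * (du X W θ).re + φ₂ θ * (du X W θ).im) ≤ C * A ^ 2 * ε ^ 2 * nu X W := by
  obtain ⟨C, hC, hmul⟩ := hs_mul_le
  refine ⟨8 * C, by positivity, ?_⟩
  intro ε K X W hD A φ₁ φ₂ hA hb₁ hb₂ hl₁ hl₂
  have hAe : 0 ≤ A * ε := mul_nonneg hA hD.pos.le
  have he : 0 ≤ 2 * ε := by linarith [hD.pos]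
  have hre : ∀ θ, |(du X W θ).re| ≤ 2 * ε := fun θ =>
    (Complex.abs_re_le_norm _).trans (mu_du_b hD θ)
  have him : ∀ θ, |(du X W θ).im| ≤ 2 * ε := fun θ =>
    (Complex.abs_im_le_norm _).trans (mu_du_b hD θ)
  have hb : ∀ {φ : ℝ → ℝ}, (∀ θ, |φ θ| ≤ A * ε) → ∀ θ, |φ θ| ≤ 2 * A * ε := by
    intro φ h θ
    have := h θ
    linarith
  have key : ∀ (φ v : ℝ → ℝ), (∀ θ, |φ θ| ≤ A * ε) →
      (∀ θ θ', |φ θ - φ θ'| ≤ A * (‖X θ - X θ'‖ + ‖W θ - W θ'‖)) → LipschitzWith (2 * K) v →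
      (∀ θ, v (θ + 2 * π) = v θ) →
      hs (fun θ => φ θ * v θ) ≤ C * (2 * A * ε) ^ 2 * (hs v + avg v ^ 2) := by
    intro φ v h1 h2 h3 h4
    exact hmul φ v (max (2 * Real.toNNReal A * K) (2 * K)) (2 * A * ε)
      ((mu_lip hD hA h2).weaken (le_max_left _ _)) (h3.weaken (le_max_right _ _))
      (mu_per hD h2) h4 (hb h1) (mu_int hD hA h2)
  have k1 := key φ₁ (fun θ => (du X W θ).re) hb₁ hl₁ (mu_re (mu_du_lip hD))
    (fun θ => by rw [mu_du_per hD])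
  have k2 := key φ₂ (fun θ => (du X W θ).im) hb₂ hl₂ (mu_im (mu_du_lip hD))
    (fun θ => by rw [mu_du_per hD])
  have l1 := mu_mul (B₁ := ⟨A * ε, hAe⟩) (B₂ := ⟨2 * ε, he⟩) (mu_lip hD hA hl₁)
    (mu_re (mu_du_lip hD)) hb₁ hre
  have l2 := mu_mul (B₁ := ⟨A * ε, hAe⟩) (B₂ := ⟨2 * ε, he⟩) (mu_lip hD hA hl₂)
    (mu_im (mu_du_lip hD)) hb₂ him
  have k3 := hs_add_le l1 l2
    (fun θ => by rw [mu_per hD hl₁, mu_du_per hD]) (fun θ => by rw [mu_per hD hl₂, mu_du_per hD])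
  have k4 := hs_re_add_hs_im (mu_du_lip hD) (mu_du_per hD)
  have k5 := avg_sq_add_avg_sq (mu_du_lip hD)
  unfold nu
  rw [← k4, ← k5]
  refine k3.trans ?_
  have h0 : 0 ≤ C * (2 * A * ε) ^ 2 := by positivity
  nlinarith

end Pool.Agent.CC57
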