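import Pool.Agent.CC57.Mass
import Pool.Agent.CC57.Vcr
import Pool.Agent.CC57.Rect

set_option autoImplicit false

/-!
Stokes formula with poles in the straight strip.  For `z = x + iθ`, `x < 0`, and `φ = θ - σ`:
`Ts exp σ z = sin φ / √(sinh² x + sin² φ)`, of absolute value at most `1`, smooth on `x < 0`.
1. Integrability: `|∇T| = wx |∇G| ≤ 2 wx ‖e^z‖ ≤ 2 wx` (`wx_Gs_one`, `wx_Gs_I`, `norm_fderiv_Gs_le`), and
   `∫_{-2}^0 ∫ wx = 4π` (`int_wx_theta`, Tonelli), `f` Lipschitz: `|br| ≤ K |∇T|` (`abs_br_le`).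
2. For `0 < c < 2`: `rect_stokes` on `-2 ≤ x ≤ -c` with `A = f`, `B = Ts exp σ` (Lipschitz there):
   `∫_{Cell(-2)(-c)} br = ∮ f(pt (-c) θ) T_θ(pt (-c) θ) dθ` (the other boundary term is `0` as `f = 0`
   there).
3. Limit `c → 0+`: `∮ |T_θ(-c + iθ)| dθ ≤ 4` (total variation of `T`: `T` is monotone between
   `φ = ±π/2`; or `|T_θ| = |cos φ| sinh² x/(sinh²x + sin²φ)^{3/2}` has this integral) and
   `|f(-c+iθ) - f(iθ)| ≤ K c`, so one may replace `f(-c+iθ)` by `f(iθ)`.  Integrate by parts: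
   `∮ f(iθ) T_θ(-c+iθ) = -∮ T(-c+iθ) (d/dθ) f(iθ)`, and `T(-c+iθ) → sign (sin (θ - σ))` boundedly, so the
   limit is `-∫_σ^{σ+π} f_θ + ∫_{σ+π}^{σ+2π} f_θ = 2 f(iσ) - 2 f(i(σ+π))` (periodicity).
   The left side converges to the integral over `Cell (-2) 0` (dominated convergence, `Re z = 0` is null).
-/

open Real MeasureTheory Set

namespace Pool.Agent.CC57

private lemma nr_re (x θ : ℝ) : (pt x θ).re = x := by simp [pt]

private lemma nr_im (x θ : ℝ) : (pt x θ).im = θ := by simp [pt]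

private lemma nr_exp_lt {z : ℂ} (hz : z.re < 0) : ‖Complex.exp z‖ < 1 := by
  rw [Complex.norm_exp]
  exact Real.exp_lt_one_iff.2 hz

private lemma nr_inp_xc (v : ℂ) (σ : ℝ) : inp (xc v) σ = 2 * inp v σ / (1 + ‖v‖ ^ 2) := by
  have h : inp (xc v) σ = (2 / (1 + ‖v‖ ^ 2)) * inp v σ := by
    unfold xc
    rw [inp_smul]
  rw [h]; ring

private lemma nr_inn_exp (x θ σ : ℝ) :
    inn (Complex.exp (pt x θ)) σ = exp x * cos (θ - σ) := by
  unfold inn
  rw [Complex.exp_re, Complex.exp_im, nr_re, nr_im, cos_sub]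
  ring

private lemma nr_inp_exp (x θ σ : ℝ) :
    inp (Complex.exp (pt x θ)) σ = exp x * sin (θ - σ) := by
  unfold inp
  rw [Complex.exp_re, Complex.exp_im, nr_re, nr_im, sin_sub]
  ring

private lemma nr_cosh (x : ℝ) : 2 * exp x / (1 + exp x ^ 2) = 1 / cosh x := by
  have h1 : (0 : ℝ) < exp x := exp_pos x
  rw [cosh_eq, exp_neg]
  field_simp
  ring

private lemma nr_inn (x θ σ : ℝ) :
    inn (xc (Complex.exp (pt x θ))) σ = cos (θ - σ) / cosh x := by
  rw [inn_xc, nr_inn_exp, Complex.norm_exp, nr_re]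
  have := nr_cosh x
  calc 2 * (exp x * cos (θ - σ)) / (1 + exp x ^ 2)
      = cos (θ - σ) * (2 * exp x / (1 + exp x ^ 2)) := by ring
    _ = _ := by rw [this]; ring

private lemma nr_inp (x θ σ : ℝ) :
    inp (xc (Complex.exp (pt x θ))) σ = sin (θ - σ) / cosh x := by
  rw [nr_inp_xc, nr_inp_exp, Complex.norm_exp, nr_re]
  have := nr_cosh x
  calc 2 * (exp x * sin (θ - σ)) / (1 + exp x ^ 2)
      = sin (θ - σ) * (2 * exp x / (1 + exp x ^ 2)) := by ring
    _ = _ := by rw [this]; ring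

/-- The explicit formula. -/
private lemma nr_Ts (x θ σ : ℝ) :
    Ts Complex.exp σ (pt x θ) = sin (θ - σ) / √(sinh x ^ 2 + sin (θ - σ) ^ 2) := by
  unfold Ts Tx qx
  rw [nr_inn, nr_inp]
  have hc : 0 < cosh x := cosh_pos x
  have h1 : 1 - (cos (θ - σ) / cosh x) ^ 2 = (sinh x ^ 2 + sin (θ - σ) ^ 2) / cosh x ^ 2 := by
    have h2 : cosh x ^ 2 = sinh x ^ 2 + 1 := cosh_sq x
    have h3 := sin_sq_add_cos_sq (θ - σ)
    field_simp
    linarith
  rw [h1, sqrt_div (by positivity), sqrt_sq hc.le, div_div_div_cancel_right₀ hc.ne']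

private lemma nr_abs_Ts (x θ σ : ℝ) : |Ts Complex.exp σ (pt x θ)| ≤ 1 := by
  rw [nr_Ts, abs_div, abs_of_nonneg (sqrt_nonneg _)]
  apply div_le_one_of_le₀ _ (sqrt_nonneg _)
  rw [← sqrt_sq_eq_abs]
  apply sqrt_le_sqrt
  nlinarith [sq_nonneg (sinh x)]

private lemma nr_tend_pos {θ σ : ℝ} (h : 0 < sin (θ - σ)) :
    Filter.Tendsto (fun n : ℕ => Ts Complex.exp σ (pt (-(1 / ((n : ℝ) + 1))) θ)) Filter.atTop
      (nhds 1) := by
  have h1 : Filter.Tendsto (fun n : ℕ => -(1 / ((n : ℝ) + 1))) Filter.atTop (nhds 0) := by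
    simpa using (tendsto_one_div_add_atTop_nhds_zero_nat (𝕜 := ℝ)).neg
  have h2 : ContinuousAt (fun x : ℝ => sin (θ - σ) / √(sinh x ^ 2 + sin (θ - σ) ^ 2)) 0 := by
    apply ContinuousAt.div
    · fun_prop
    · fun_prop
    · simp [sqrt_sq h.le, h.ne']
  have h3 := h2.tendsto.comp h1
  simp only [sinh_zero] at h3
  have h4 : sin (θ - σ) / √((0 : ℝ) ^ 2 + sin (θ - σ) ^ 2) = 1 := by
    rw [show (0 : ℝ) ^ 2 + sin (θ - σ) ^ 2 = sin (θ - σ) ^ 2 by ring, sqrt_sq h.le, div_self h.ne']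
  rw [h4] at h3
  refine h3.congr fun n => ?_
  simp only [Function.comp]
  rw [nr_Ts]

private lemma nr_tend_neg {θ σ : ℝ} (h : sin (θ - σ) < 0) :
    Filter.Tendsto (fun n : ℕ => Ts Complex.exp σ (pt (-(1 / ((n : ℝ) + 1))) θ)) Filter.atTop
      (nhds (-1)) := by
  have h1 : Filter.Tendsto (fun n : ℕ => -(1 / ((n : ℝ) + 1))) Filter.atTop (nhds 0) := by
    simpa using (tendsto_one_div_add_atTop_nhds_zero_nat (𝕜 := ℝ)).neg
  have h5 : √(sin (θ - σ) ^ 2) = -sin (θ - σ) := by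
    rw [sqrt_sq_eq_abs, abs_of_neg h]
  have h2 : ContinuousAt (fun x : ℝ => sin (θ - σ) / √(sinh x ^ 2 + sin (θ - σ) ^ 2)) 0 := by
    apply ContinuousAt.div
    · fun_prop
    · fun_prop
    · simp [h5, h.ne]
  have h3 := h2.tendsto.comp h1
  simp only [sinh_zero] at h3
  have h4 : sin (θ - σ) / √((0 : ℝ) ^ 2 + sin (θ - σ) ^ 2) = -1 := by
    rw [show (0 : ℝ) ^ 2 + sin (θ - σ) ^ 2 = sin (θ - σ) ^ 2 by ring, h5, div_neg,
      div_self h.ne]
  rw [h4] at h3
  refine h3.congr fun n => ?_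
  simp only [Function.comp]
  rw [nr_Ts]

/-- `|∇T| ≤ 2 w`. -/
private lemma nr_gr2 {z : ℂ} (hz : z.re < 0) (σ : ℝ) :
    √(gr2 (Ts Complex.exp σ) z) ≤ 2 * wx (xc (Complex.exp z)) σ := by
  have hψ : HasDerivAt Complex.exp (Complex.exp z) z := Complex.hasDerivAt_exp z
  have h1 := nr_exp_lt hz
  have hw : 0 ≤ wx (xc (Complex.exp z)) σ := wx_nonneg (norm_xc_lt h1) σ
  have a1 := wx_Gs_one hψ h1 σ
  have a2 := wx_Gs_I hψ h1 σ
  have a3 := gr2_le (norm_fderiv_Gs_le hψ h1 σ)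
  unfold gr2 at a3 ⊢
  rw [← a1]
  have a4 : fderiv ℝ (Ts Complex.exp σ) z 1 =
      -(wx (xc (Complex.exp z)) σ * fderiv ℝ (Gs Complex.exp σ) z Complex.I) := by linarith
  rw [a4]
  apply sqrt_le_iff.2
  refine ⟨by positivity, ?_⟩
  have h2 : (2 * ‖Complex.exp z‖) ^ 2 ≤ 4 := by
    nlinarith [norm_nonneg (Complex.exp z)]
  nlinarith [mul_le_mul_of_nonneg_left (a3.trans h2) (sq_nonneg (wx (xc (Complex.exp z)) σ))]

private lemma nr_fderiv_le {T : ℂ → ℝ} {z : ℂ} : ‖fderiv ℝ T z‖ ≤ √(gr2 T z) := by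
  apply ContinuousLinearMap.opNorm_le_bound _ (sqrt_nonneg _)
  intro v
  have h1 : fderiv ℝ T z v = v.re * fderiv ℝ T z 1 + v.im * fderiv ℝ T z Complex.I := by
    have h2 : v = v.re • (1 : ℂ) + v.im • Complex.I := by
      apply Complex.ext <;> simp
    conv_lhs => rw [h2]
    rw [map_add, map_smul, map_smul]
    simp
  rw [h1, norm_eq_abs, ← Real.sqrt_sq (norm_nonneg v), ← sqrt_mul (by unfold gr2; positivity)]
  rw [← sqrt_sq_eq_abs]
  apply sqrt_le_sqrt
  rw [← Complex.normSq_eq_norm_sq, Complex.normSq_apply]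
  unfold gr2
  nlinarith [sq_nonneg (v.re * fderiv ℝ T z Complex.I - v.im * fderiv ℝ T z 1)]


private lemma nr_norm_xc (v : ℂ) : ‖xc v‖ = 2 * ‖v‖ / (1 + ‖v‖ ^ 2) := by
  unfold xc
  rw [norm_mul, Complex.norm_real, norm_of_nonneg (by positivity)]
  ring

private lemma nr_wx_le {z : ℂ} {c : ℝ} (hc : 0 < c) (hz : z.re ≤ -c) (σ : ℝ) :
    wx (xc (Complex.exp z)) σ ≤ ((1 - exp (-c) ^ 2) ^ 2 / 4)⁻¹ := by
  have hr : ‖Complex.exp z‖ ≤ exp (-c) := by
    rw [Complex.norm_exp]; exact exp_le_exp.2 hz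
  have hr1 : exp (-c) < 1 := Real.exp_lt_one_iff.2 (by linarith)
  have hr0 : 0 < exp (-c) := exp_pos _
  set r := ‖Complex.exp z‖ with hrdef
  have hrn : 0 ≤ r := norm_nonneg _
  have hδ : 0 < (1 - exp (-c) ^ 2) ^ 2 / 4 := by
    have : 0 < 1 - exp (-c) ^ 2 := by nlinarith
    positivity
  have h1 : (1 - exp (-c) ^ 2) ^ 2 / 4 ≤ 1 - ‖xc (Complex.exp z)‖ ^ 2 := by
    rw [nr_norm_xc, ← hrdef]
    have h2 : 1 - (2 * r / (1 + r ^ 2)) ^ 2 = (1 - r ^ 2) ^ 2 / (1 + r ^ 2) ^ 2 := by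
      field_simp
      ring
    rw [h2]
    have h3 : (1 - exp (-c) ^ 2) ^ 2 ≤ (1 - r ^ 2) ^ 2 := by
      apply pow_le_pow_left₀
      · nlinarith
      · nlinarith
    have h4 : (1 + r ^ 2) ^ 2 ≤ 4 := by
      have h40 : r ^ 2 ≤ 1 := by nlinarith
      nlinarith [sq_nonneg r]
    have h5 : 0 < (1 + r ^ 2) ^ 2 := by positivity
    rw [div_le_div_iff₀ (by norm_num) h5]
    nlinarith [sq_nonneg (1 - exp (-c) ^ 2), sq_nonneg (1 - r ^ 2)]
  have h6 : (1 - exp (-c) ^ 2) ^ 2 / 4 ≤ 1 - inn (xc (Complex.exp z)) σ ^ 2 := by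
    have := abs_inn_le (xc (Complex.exp z)) σ
    have h7 : inn (xc (Complex.exp z)) σ ^ 2 ≤ ‖xc (Complex.exp z)‖ ^ 2 := by
      rw [← sq_abs (inn (xc (Complex.exp z)) σ)]
      exact pow_le_pow_left₀ (abs_nonneg _) this 2
    linarith
  unfold wx
  rw [inv_eq_one_div]
  apply div_le_div₀ (by norm_num) _ hδ h6
  rw [sqrt_le_iff]
  refine ⟨by norm_num, ?_⟩
  nlinarith [sq_nonneg ‖xc (Complex.exp z)‖]

private lemma nr_lip {c : ℝ} (hc : 0 < c) (σ : ℝ) :
    ∃ K' : NNReal, LipschitzOnWith K' (Ts Complex.exp σ) {z : ℂ | -2 ≤ z.re ∧ z.re ≤ -c} := by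
  refine ⟨Real.toNNReal (2 * ((1 - exp (-c) ^ 2) ^ 2 / 4)⁻¹), ?_⟩
  apply Convex.lipschitzOnWith_of_nnnorm_fderiv_le (𝕜 := ℝ)
  · intro z hz
    exact differentiableAt_Ts (Complex.hasDerivAt_exp z) (nr_exp_lt (by linarith [hz.2])) σ
  · intro z hz
    rw [← NNReal.coe_le_coe, coe_nnnorm, Real.coe_toNNReal _ (by positivity)]
    refine (nr_fderiv_le.trans (nr_gr2 (by linarith [hz.2]) σ)).trans ?_
    have := nr_wx_le hc hz.2 σ
    linarith
  · have : {z : ℂ | -2 ≤ z.re ∧ z.re ≤ -c} = Complex.reLm ⁻¹' (Icc (-2) (-c)) := by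
      ext z; simp
    rw [this]
    exact (convex_Icc _ _).linear_preimage _

private lemma nr_re_ne : ∀ᵐ z : ℂ, z.re ≠ 0 := by
  have h : volume ((LinearMap.ker Complex.reLm : Submodule ℝ ℂ) : Set ℂ) = 0 := by
    apply Measure.addHaar_submodule
    intro h
    have h1 : (1 : ℂ) ∈ LinearMap.ker Complex.reLm := by rw [h]; trivial
    simp at h1
  rw [ae_iff]
  convert h using 2
  ext z
  simp

private lemma nr_meas_wx (σ : ℝ) : Measurable fun z : ℂ => wx (xc (Complex.exp z)) σ := by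
  unfold wx inn xc
  fun_prop

private lemma nr_wx_int (σ : ℝ) :
    IntegrableOn (fun z : ℂ => wx (xc (Complex.exp z)) σ) (Cell (-2) 0) := by
  have hmp := Complex.volume_preserving_equiv_real_prod
  have hs : Cell (-2) 0 = Complex.measurableEquivRealProd ⁻¹' (Ioc (-2 : ℝ) 0 ×ˢ Ioc 0 (2 * π)) := by
    ext z
    simp [Cell, Complex.measurableEquivRealProd, and_assoc]
  have hf : (fun z : ℂ => wx (xc (Complex.exp z)) σ) =
      (fun p : ℝ × ℝ => wx (xc (Complex.exp (pt p.1 p.2))) σ) ∘ Complex.measurableEquivRealProd := by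
    funext z
    have : pt (Complex.measurableEquivRealProd z).1 (Complex.measurableEquivRealProd z).2 = z := by
      simp [pt, Complex.measurableEquivRealProd]
    simp only [Function.comp]
    rw [this]
  rw [hf, hs, hmp.integrableOn_comp_preimage Complex.measurableEquivRealProd.measurableEmbedding]
  unfold IntegrableOn
  rw [Measure.volume_eq_prod, ← Measure.prod_restrict,
    Measure.restrict_congr_set (Ioo_ae_eq_Ioc (a := (-2 : ℝ)) (b := 0)).symm]
  have hmeas : Measurable (fun p : ℝ × ℝ => wx (xc (Complex.exp (pt p.1 p.2))) σ) := by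
    have h1 : Measurable fun p : ℝ × ℝ => pt p.1 p.2 := by unfold pt; fun_prop
    exact (nr_meas_wx σ).comp h1
  have hint : ∀ x : ℝ, x < 0 →
      Integrable (fun θ => wx (xc (Complex.exp (pt x θ))) σ) (volume.restrict (Ioc 0 (2 * π))) := by
    intro x hx
    have h1 : ∫ θ in (0 : ℝ)..2 * π, wx (xc (Complex.exp (pt x θ))) σ ≠ 0 := by
      rw [int_wx_theta hx]; positivity
    have h2 := intervalIntegral.intervalIntegrable_of_integral_ne_zero h1
    rwa [intervalIntegrable_iff_integrableOn_Ioc_of_le (by positivity)] at h2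
  rw [integrable_prod_iff hmeas.aestronglyMeasurable]
  refine ⟨?_, ?_⟩
  · filter_upwards [ae_restrict_mem measurableSet_Ioo] with x hx
    exact hint x hx.2
  · have hc : Integrable (fun _ : ℝ => 2 * π) (volume.restrict (Ioo (-2 : ℝ) 0)) := by
      apply integrable_const
    refine hc.congr ?_
    filter_upwards [ae_restrict_mem measurableSet_Ioo] with x hx
    have h1 : ∀ θ : ℝ, ‖wx (xc (Complex.exp (pt x θ))) σ‖ = wx (xc (Complex.exp (pt x θ))) σ := by
      intro θ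
      apply norm_of_nonneg
      exact wx_nonneg (norm_xc_lt (nr_exp_lt (by rw [nr_re]; exact hx.2))) σ
    simp only [h1]
    rw [← intervalIntegral.integral_of_le (by positivity), int_wx_theta hx.2]

private lemma nr_int {f : ℂ → ℝ} {K : NNReal}
    (hf : LipschitzOnWith K f {z | -2 ≤ z.re ∧ z.re ≤ 0}) (σ : ℝ) :
    IntegrableOn (br (Ts Complex.exp σ) f) (Cell (-2) 0) := by
  have h1 := (nr_wx_int σ).const_mul (2 * (K : ℝ))
  refine Integrable.mono' h1 ?_ ?_
  · apply Measurable.aestronglyMeasurable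
    unfold br
    exact ((measurable_fderiv_apply_const ℝ f _).mul (measurable_fderiv_apply_const ℝ _ _)).sub
      ((measurable_fderiv_apply_const ℝ f _).mul (measurable_fderiv_apply_const ℝ _ _))
  · filter_upwards [ae_restrict_mem (measurableSet_cell (-2) 0), ae_restrict_of_ae nr_re_ne] with z hz hz0
    have hz1 : z.re < 0 := lt_of_le_of_ne hz.2.1 hz0
    have hnhds : {z : ℂ | -2 ≤ z.re ∧ z.re ≤ 0} ∈ nhds z := by
      have : {z : ℂ | -2 < z.re ∧ z.re < 0} ∈ nhds z :=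
        IsOpen.mem_nhds ((isOpen_lt continuous_const Complex.continuous_re).inter
          (isOpen_lt Complex.continuous_re continuous_const)) ⟨hz.1, hz1⟩
      exact Filter.mem_of_superset this fun w hw => ⟨hw.1.le, hw.2.le⟩
    have h2 : ‖fderiv ℝ f z‖ ≤ K := norm_fderiv_le_of_lipschitzOn ℝ hnhds hf
    have h3 := abs_br_le (T := Ts Complex.exp σ) h2
    have h4 := nr_gr2 hz1 σ
    rw [norm_eq_abs]
    calc _ ≤ _ := h3
      _ ≤ K * (2 * wx (xc (Complex.exp z)) σ) := mul_le_mul_of_nonneg_left h4 K.2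
      _ = _ := by ring


private lemma nr_per (x θ : ℝ) : pt x (θ + 2 * π) = pt x θ + 2 * π * Complex.I := by
  unfold pt
  push_cast
  ring

private lemma nr_pt_lip (x : ℝ) {f : ℂ → ℝ} {K : NNReal} {a b : ℝ}
    (hf : LipschitzOnWith K f {z | a ≤ z.re ∧ z.re ≤ b}) (h1 : a ≤ x) (h2 : x ≤ b) :
    LipschitzWith K fun θ : ℝ => f (pt x θ) := by
  apply LipschitzWith.of_dist_le_mul
  intro s t
  have h := hf.dist_le_mul (pt x s) ⟨by rw [nr_re]; exact h1, by rw [nr_re]; exact h2⟩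
    (pt x t) ⟨by rw [nr_re]; exact h1, by rw [nr_re]; exact h2⟩
  have h3 : dist (pt x s) (pt x t) = dist s t := by
    rw [Complex.dist_eq, Real.dist_eq]
    have : pt x s - pt x t = ((s - t : ℝ) : ℂ) * Complex.I := by
      unfold pt; push_cast; ring
    rw [this, norm_mul, Complex.norm_I, mul_one, Complex.norm_real, norm_eq_abs]
  rw [h3] at h
  exact h

private lemma nr_deriv_per {g : ℝ → ℝ} (h : ∀ θ, g (θ + 2 * π) = g θ) (θ : ℝ) :
    deriv g (θ + 2 * π) = deriv g θ := by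
  rw [← deriv_comp_add_const]
  congr 1
  funext t
  exact h t

/-- Integration by parts and splitting. -/
private lemma nr_parts {F T : ℝ → ℝ} {K K' : NNReal} (hF : LipschitzWith K F)
    (hT : LipschitzWith K' T) (hFp : ∀ θ, F (θ + 2 * π) = F θ) (hTp : ∀ θ, T (θ + 2 * π) = T θ)
    (σ : ℝ) :
    ∫ θ in (0 : ℝ)..2 * π, F θ * deriv T θ =
      2 * F σ - 2 * F (σ + π) - (∫ θ in σ..σ + π, deriv F θ * (T θ - 1)) -
        ∫ θ in σ + π..σ + π + π, deriv F θ * (T θ + 1) := by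
  have hFac : ∀ a b, AbsolutelyContinuousOnInterval F a b := fun a b =>
    (hF.lipschitzOnWith (s := uIcc a b)).absolutelyContinuousOnInterval
  have hTac : ∀ a b, AbsolutelyContinuousOnInterval T a b := fun a b =>
    (hT.lipschitzOnWith (s := uIcc a b)).absolutelyContinuousOnInterval
  have hper : Function.Periodic (fun θ => F θ * deriv T θ) (2 * π) := by
    intro θ
    simp only
    rw [hFp, nr_deriv_per hTp]
  have h1 : ∫ θ in (0 : ℝ)..2 * π, F θ * deriv T θ = ∫ θ in σ..σ + 2 * π, F θ * deriv T θ := by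
    have := hper.intervalIntegral_add_eq 0 σ
    rwa [zero_add] at this
  rw [h1, (hFac σ (σ + 2 * π)).integral_mul_deriv_eq_deriv_mul (hTac _ _), hFp, hTp, sub_self,
    zero_sub]
  have hFi : ∀ a b, IntervalIntegrable (deriv F) volume a b := fun a b =>
    (hFac a b).intervalIntegrable_deriv
  have hi : ∀ a b, IntervalIntegrable (fun θ => deriv F θ * T θ) volume a b := fun a b =>
    (hFi a b).mul_continuousOn hT.continuous.continuousOn
  rw [show σ + 2 * π = σ + π + π by ring, ← intervalIntegral.integral_add_adjacent_intervals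
    (hi σ (σ + π)) (hi (σ + π) (σ + π + π))]
  have h2 : ∫ θ in σ..σ + π, deriv F θ * (T θ - 1) =
      (∫ θ in σ..σ + π, deriv F θ * T θ) - (F (σ + π) - F σ) := by
    rw [← (hFac σ (σ + π)).integral_deriv_eq_sub, ← intervalIntegral.integral_sub (hi _ _) (hFi _ _)]
    congr 1
    funext θ
    ring
  have h3 : ∫ θ in σ + π..σ + π + π, deriv F θ * (T θ + 1) =
      (∫ θ in σ + π..σ + π + π, deriv F θ * T θ) + (F σ - F (σ + π)) := by
    have h4 : F σ = F (σ + π + π) := by rw [← hFp σ]; congr 1; ring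
    rw [h4, ← (hFac (σ + π) (σ + π + π)).integral_deriv_eq_sub,
      ← intervalIntegral.integral_add (hi _ _) (hFi _ _)]
    congr 1
    funext θ
    ring
  rw [h2, h3]
  ring

private lemma nr_limit {f : ℂ → ℝ} {K : NNReal}
    (hf : LipschitzOnWith K f {z | -2 ≤ z.re ∧ z.re ≤ 0})
    (hp : ∀ z : ℂ, -2 ≤ z.re → z.re ≤ 0 → f (z + 2 * π * Complex.I) = f z) (σ : ℝ) :
    Filter.Tendsto (fun n : ℕ => ∫ θ in (0 : ℝ)..2 * π, f (pt (-(1 / ((n : ℝ) + 1))) θ) *
      deriv (fun θ => Ts Complex.exp σ (pt (-(1 / ((n : ℝ) + 1))) θ)) θ) Filter.atTop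
      (nhds (2 * f (pt 0 σ) - 2 * f (pt 0 (σ + π)))) := by
  have hc0 : ∀ n : ℕ, 0 < 1 / ((n : ℝ) + 1) := fun n => by positivity
  have hc1 : ∀ n : ℕ, 1 / ((n : ℝ) + 1) ≤ 1 := fun n => by
    rw [div_le_one (by positivity)]; linarith [n.cast_nonneg (α := ℝ)]
  have hF : ∀ n : ℕ, LipschitzWith K fun θ : ℝ => f (pt (-(1 / ((n : ℝ) + 1))) θ) := fun n =>
    nr_pt_lip _ hf (by linarith [hc1 n]) (by linarith [hc0 n])
  have hT : ∀ n : ℕ, ∃ K' : NNReal,
      LipschitzWith K' fun θ : ℝ => Ts Complex.exp σ (pt (-(1 / ((n : ℝ) + 1))) θ) := fun n => by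
    obtain ⟨K', hK'⟩ := nr_lip (hc0 n) σ
    exact ⟨K', nr_pt_lip _ hK' (by linarith [hc1 n]) (by linarith [hc0 n])⟩
  have hTp : ∀ n : ℕ, ∀ θ : ℝ, Ts Complex.exp σ (pt (-(1 / ((n : ℝ) + 1))) (θ + 2 * π)) =
      Ts Complex.exp σ (pt (-(1 / ((n : ℝ) + 1))) θ) := fun n θ => by
    rw [nr_Ts, nr_Ts, show θ + 2 * π - σ = (θ - σ) + 2 * π by ring, sin_add_two_pi]
  have hFp : ∀ n : ℕ, ∀ θ : ℝ, f (pt (-(1 / ((n : ℝ) + 1))) (θ + 2 * π)) =
      f (pt (-(1 / ((n : ℝ) + 1))) θ) := fun n θ => by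
    rw [nr_per]
    exact hp _ (by rw [nr_re]; linarith [hc1 n]) (by rw [nr_re]; linarith [hc0 n])
  have hlim0 : Filter.Tendsto (fun n : ℕ => 1 / ((n : ℝ) + 1)) Filter.atTop (nhds 0) :=
    tendsto_one_div_add_atTop_nhds_zero_nat (𝕜 := ℝ)
  have hFl : ∀ x : ℝ, Filter.Tendsto (fun n : ℕ => f (pt (-(1 / ((n : ℝ) + 1))) x)) Filter.atTop
      (nhds (f (pt 0 x))) := by
    intro x
    rw [tendsto_iff_dist_tendsto_zero]
    have h1 : Filter.Tendsto (fun n : ℕ => (K : ℝ) * (1 / ((n : ℝ) + 1))) Filter.atTop (nhds 0) := by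
      simpa using hlim0.const_mul (K : ℝ)
    refine squeeze_zero (fun n => dist_nonneg) (fun n => ?_) h1
    have h := hf.dist_le_mul (pt (-(1 / ((n : ℝ) + 1))) x)
      ⟨by rw [nr_re]; linarith [hc1 n], by rw [nr_re]; linarith [hc0 n]⟩ (pt 0 x)
      ⟨by rw [nr_re]; norm_num, by rw [nr_re]⟩
    refine h.trans (le_of_eq ?_)
    congr 1
    rw [Complex.dist_eq]
    have : pt (-(1 / ((n : ℝ) + 1))) x - pt 0 x = ((-(1 / ((n : ℝ) + 1)) : ℝ) : ℂ) := by
      unfold pt; push_cast; ring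
    rw [this, Complex.norm_real, norm_neg, norm_of_nonneg (hc0 n).le]
  have hdb : ∀ n : ℕ, ∀ θ : ℝ, ‖deriv (fun θ : ℝ => f (pt (-(1 / ((n : ℝ) + 1))) θ)) θ‖ ≤ K :=
    fun n θ => norm_deriv_le_of_lipschitz (hF n)
  have hE1 : Filter.Tendsto (fun n : ℕ => ∫ θ in σ..σ + π,
      deriv (fun θ : ℝ => f (pt (-(1 / ((n : ℝ) + 1))) θ)) θ *
        (Ts Complex.exp σ (pt (-(1 / ((n : ℝ) + 1))) θ) - 1)) Filter.atTop (nhds 0) := by
    have h0 : (0 : ℝ) = ∫ θ in σ..σ + π, (0 : ℝ) := by simp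
    rw [h0]
    apply intervalIntegral.tendsto_integral_filter_of_dominated_convergence (fun _ => 2 * (K : ℝ))
    · filter_upwards with n
      obtain ⟨K', hK'⟩ := hT n
      exact ((measurable_deriv _).mul (hK'.continuous.measurable.sub_const 1)).aestronglyMeasurable
    · filter_upwards with n
      filter_upwards with θ _
      rw [norm_mul]
      have h1 : ‖Ts Complex.exp σ (pt (-(1 / ((n : ℝ) + 1))) θ) - 1‖ ≤ 2 := by
        have := abs_le.1 (nr_abs_Ts (-(1 / ((n : ℝ) + 1))) θ σ)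
        rw [norm_eq_abs, abs_le]
        constructor <;> linarith
      calc _ ≤ (K : ℝ) * 2 := mul_le_mul (hdb n θ) h1 (norm_nonneg _) K.2
        _ = _ := by ring
    · exact intervalIntegrable_const
    · have hne : ∀ᵐ θ : ℝ, θ ≠ σ + π := by
        rw [ae_iff]; simp
      filter_upwards [hne] with θ hθ hmem
      rw [uIoc_of_le (by linarith [pi_pos])] at hmem
      have hs : 0 < sin (θ - σ) := by
        apply sin_pos_of_pos_of_lt_pi
        · linarith [hmem.1]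
        · have : θ < σ + π := lt_of_le_of_ne hmem.2 hθ
          linarith
      have h1 := (nr_tend_pos hs).sub_const 1
      rw [sub_self] at h1
      have h2 := (h1.norm).const_mul (K : ℝ)
      rw [norm_zero, mul_zero] at h2
      refine squeeze_zero_norm (fun n => ?_) h2
      rw [norm_mul]
      exact mul_le_mul_of_nonneg_right (hdb n θ) (norm_nonneg _)
  have hE2 : Filter.Tendsto (fun n : ℕ => ∫ θ in σ + π..σ + π + π,
      deriv (fun θ : ℝ => f (pt (-(1 / ((n : ℝ) + 1))) θ)) θ *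
        (Ts Complex.exp σ (pt (-(1 / ((n : ℝ) + 1))) θ) + 1)) Filter.atTop (nhds 0) := by
    have h0 : (0 : ℝ) = ∫ θ in σ + π..σ + π + π, (0 : ℝ) := by simp
    rw [h0]
    apply intervalIntegral.tendsto_integral_filter_of_dominated_convergence (fun _ => 2 * (K : ℝ))
    · filter_upwards with n
      obtain ⟨K', hK'⟩ := hT n
      exact ((measurable_deriv _).mul (hK'.continuous.measurable.add_const 1)).aestronglyMeasurable
    · filter_upwards with n
      filter_upwards with θ _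
      rw [norm_mul]
      have h1 : ‖Ts Complex.exp σ (pt (-(1 / ((n : ℝ) + 1))) θ) + 1‖ ≤ 2 := by
        have := abs_le.1 (nr_abs_Ts (-(1 / ((n : ℝ) + 1))) θ σ)
        rw [norm_eq_abs, abs_le]
        constructor <;> linarith
      calc _ ≤ (K : ℝ) * 2 := mul_le_mul (hdb n θ) h1 (norm_nonneg _) K.2
        _ = _ := by ring
    · exact intervalIntegrable_const
    · have hne : ∀ᵐ θ : ℝ, θ ≠ σ + π + π := by
        rw [ae_iff]; simp
      filter_upwards [hne] with θ hθ hmem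
      rw [uIoc_of_le (by linarith [pi_pos])] at hmem
      have hs : sin (θ - σ) < 0 := by
        have h1 : 0 < sin (θ - σ - π) := by
          apply sin_pos_of_pos_of_lt_pi
          · linarith [hmem.1]
          · have : θ < σ + π + π := lt_of_le_of_ne hmem.2 hθ
            linarith
        rw [sin_sub_pi] at h1
        linarith
      have h1 := (nr_tend_neg hs).add_const 1
      rw [neg_add_cancel] at h1
      have h2 := (h1.norm).const_mul (K : ℝ)
      rw [norm_zero, mul_zero] at h2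
      refine squeeze_zero_norm (fun n => ?_) h2
      rw [norm_mul]
      exact mul_le_mul_of_nonneg_right (hdb n θ) (norm_nonneg _)
  have hmain := ((((hFl σ).const_mul 2).sub ((hFl (σ + π)).const_mul 2)).sub hE1).sub hE2
  rw [sub_zero, sub_zero] at hmain
  refine hmain.congr fun n => ?_
  obtain ⟨K', hK'⟩ := hT n
  exact (nr_parts (hF n) hK' (hFp n) (hTp n) σ).symm

theorem near {f : ℂ → ℝ} {K : NNReal} (hf : LipschitzOnWith K f {z | -2 ≤ z.re ∧ z.re ≤ 0})
    (hp : ∀ z : ℂ, -2 ≤ z.re → z.re ≤ 0 → f (z + 2 * π * Complex.I) = f z)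
    (h0 : ∀ z : ℂ, -2 ≤ z.re → z.re ≤ -3 / 2 → f z = 0) (σ : ℝ) :
    IntegrableOn (br (Ts Complex.exp σ) f) (Cell (-2) 0) ∧
    ∫ z in Cell (-2) 0, br (Ts Complex.exp σ) f z = 2 * f (pt 0 σ) - 2 * f (pt 0 (σ + π)) := by
  have hint := nr_int hf σ
  refine ⟨hint, ?_⟩
  have hc0 : ∀ n : ℕ, 0 < 1 / ((n : ℝ) + 1) := fun n => by positivity
  have hc1 : ∀ n : ℕ, 1 / ((n : ℝ) + 1) ≤ 1 := fun n => by
    rw [div_le_one (by positivity)]; linarith [n.cast_nonneg (α := ℝ)]
  -- the formula on the cells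
  have hcell : ∀ n : ℕ, ∫ z in Cell (-2) (-(1 / ((n : ℝ) + 1))), br (Ts Complex.exp σ) f z =
      ∫ θ in (0 : ℝ)..2 * π, f (pt (-(1 / ((n : ℝ) + 1))) θ) *
        deriv (fun θ => Ts Complex.exp σ (pt (-(1 / ((n : ℝ) + 1))) θ)) θ := by
    intro n
    obtain ⟨K', hK'⟩ := nr_lip (hc0 n) σ
    have hA : LipschitzOnWith (max K K') f {z | -2 ≤ z.re ∧ z.re ≤ -(1 / ((n : ℝ) + 1))} :=
      (hf.mono fun z hz => ⟨hz.1, by linarith [hz.2, hc0 n]⟩).weaken (le_max_left _ _)
    have hB := hK'.weaken (le_max_right K K')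
    rw [rect_stokes (by linarith [hc1 n]) hA hB (fun z h1 h2 => hp z h1 (by linarith [hc0 n]))]
    · have h2 : ∀ θ : ℝ, f (pt (-2) θ) = 0 := fun θ =>
        h0 _ (by rw [nr_re]) (by rw [nr_re]; norm_num)
      simp only [h2, zero_mul, intervalIntegral.integral_zero, sub_zero]
    · intro z _ _
      have hz : z = pt z.re z.im := by
        unfold pt; exact (Complex.re_add_im z).symm
      rw [hz, ← nr_per, nr_Ts, nr_Ts, show z.im + 2 * π - σ = (z.im - σ) + 2 * π by ring,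
        sin_add_two_pi]
  have hlim := nr_limit hf hp σ
  have hlim2 : Filter.Tendsto (fun n : ℕ => ∫ z in Cell (-2) (-(1 / ((n : ℝ) + 1))),
      br (Ts Complex.exp σ) f z) Filter.atTop
      (nhds (∫ z in ⋃ n : ℕ, Cell (-2) (-(1 / ((n : ℝ) + 1))), br (Ts Complex.exp σ) f z)) := by
    apply tendsto_setIntegral_of_monotone
    · exact fun n => measurableSet_cell _ _
    · intro m n hmn z hz
      refine ⟨hz.1, hz.2.1.trans ?_, hz.2.2⟩
      have : 1 / ((n : ℝ) + 1) ≤ 1 / ((m : ℝ) + 1) := by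
        apply one_div_le_one_div_of_le (by positivity)
        have : (m : ℝ) ≤ n := by exact_mod_cast hmn
        linarith
      linarith
    · refine hint.mono_set ?_
      apply iUnion_subset
      intro n z hz
      exact ⟨hz.1, by linarith [hz.2.1, hc0 n], hz.2.2⟩
  have hset : ∫ z in ⋃ n : ℕ, Cell (-2) (-(1 / ((n : ℝ) + 1))), br (Ts Complex.exp σ) f z =
      ∫ z in Cell (-2) 0, br (Ts Complex.exp σ) f z := by
    apply setIntegral_congr_set
    filter_upwards [nr_re_ne] with z hz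
    apply propext
    constructor
    · intro h
      obtain ⟨n, hn⟩ := mem_iUnion.1 h
      exact ⟨hn.1, by linarith [hn.2.1, hc0 n], hn.2.2⟩
    · intro h
      have hz1 : z.re < 0 := lt_of_le_of_ne h.2.1 hz
      obtain ⟨n, hn⟩ := exists_nat_one_div_lt (neg_pos.2 hz1)
      exact mem_iUnion.2 ⟨n, h.1, by linarith, h.2.2⟩
  rw [hset] at hlim2
  simp only [hcell] at hlim2
  exact tendsto_nhds_unique hlim2 hlim

end Pool.Agent.CC57
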