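import Pool.Agent.CC57.OutB
import Pool.Agent.CC57.HalfArea
import Pool.Agent.CC57.HsCont
import Pool.Agent.CC57.Avg
import Pool.Agent.CC57.SphDer

set_option autoImplicit false

/-!
The outer inequality.  `w_σ(z) = wx (xc (ψ z)) σ`.
A. `avg_σ ∫_{Nc} w_σ lam² = ∫_{Nc} lam²` (Fubini for the nonnegative jointly measurable function
   `w_σ(z) lam²`, continuous on `ℝ × Nc`; `avg_wx`, `‖xc (ψ z)‖ < 1` by `norm_xc_lt`), in particular
   `σ ↦ ∫_{Nc} w_σ lam²` is interval integrable and `w_σ lam²` is integrable on `Nc` for a.e.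
   `σ ∈ (0, 2π)`.  (`Nc` is measurable: `ψ` is continuous on `Re z < 5/2`.)
B. `out_sigma` for a.e. `σ` (with `φ σ`, `IsFam`).
C. Take the mean over `σ`: the left side of B is continuous in `σ` (`continuous_hs` with
   `δ σ θ = φ σ (pt (-y) θ) - Gs ψ σ (pt (-y) θ)`, which is jointly continuous and Lipschitz in `θ` uniformly
   in `σ`; the parametric integral: `deriv (Ts ψ σ (pt (-y) ·)) θ` is jointly continuous in `(σ,θ)`, for
   instance since it is `DT (X θ) σ (X' θ)` with the smooth curve `X θ = xc (ψ (pt (-y) θ))`, or integrate by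
   parts).  Conclude with `half_area` for `F = lam²`.
-/

open Real MeasureTheory Set

namespace Pool.Agent.CC57

private lemma ou_Nc_meas {y : ℝ} {ψ om : ℂ → ℂ} (hg : IsGauge y ψ om) :
    MeasurableSet (Nc y ψ) := by
  have ho : IsOpen {z : ℂ | z.re < 5 / 2} := isOpen_lt Complex.continuous_re continuous_const
  have hc : ContinuousOn ψ {z : ℂ | z.re < 5 / 2} := fun z hz =>
    (hg.diff z hz).continuousAt.continuousWithinAt
  have h1 : IsOpen ({z : ℂ | z.re < 5 / 2} ∩ ψ ⁻¹' Metric.ball 0 1) :=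
    hc.isOpen_inter_preimage ho Metric.isOpen_ball
  have h2 : Nc y ψ = Cell (-y) 1 ∩ ({z : ℂ | z.re < 5 / 2} ∩ ψ ⁻¹' Metric.ball 0 1) := by
    ext z
    constructor
    · rintro ⟨h1, h2⟩
      refine ⟨h1, ?_, ?_⟩
      · have := h1.2.1
        change z.re < 5 / 2
        linarith
      · simpa using h2
    · rintro ⟨h1, -, h2⟩
      exact ⟨h1, by simpa using h2⟩
  rw [h2]
  exact (measurableSet_cell _ _).inter h1.measurableSet

/-- The weight is jointly continuous. -/
private lemma ou_wx_cont : ContinuousOn (fun p : ℂ × ℝ => wx p.1 p.2) {p | ‖p.1‖ < 1} := by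
  unfold wx
  apply ContinuousOn.div
  · apply Continuous.continuousOn
    fun_prop
  · exact (continuous_const.sub (continuous_inn.pow 2)).continuousOn
  · rintro ⟨x, σ⟩ hx
    have h1 : ‖x‖ < 1 := hx
    have h2 := abs_inn_le x σ
    have h3 : inn x σ ^ 2 < 1 := by
      rw [← sq_abs]
      have h4 := abs_nonneg (inn x σ)
      nlinarith
    simp only
    linarith

private lemma ou_xc_cont : Continuous xc := by
  unfold xc
  apply Continuous.mul _ continuous_id
  apply Complex.continuous_ofReal.comp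
  apply Continuous.div continuous_const (by fun_prop)
  intro v
  positivity

private lemma ou_xc_contDiff : ContDiff ℝ 1 xc := by
  unfold xc
  apply ContDiff.mul _ contDiff_id
  apply Complex.ofRealCLM.contDiff.comp
  apply ContDiff.div contDiff_const
  · exact contDiff_const.add (contDiff_norm_sq ℝ)
  · intro v
    positivity

private lemma ou_X {y : ℝ} {ψ om : ℂ → ℂ} (hg : IsGauge y ψ om) :
    ContDiff ℝ 1 fun θ : ℝ => xc (ψ (pt (-y) θ)) := by
  have hy := hg.y_ge
  apply ou_xc_contDiff.comp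
  have ho : IsOpen {z : ℂ | z.re < 5 / 2} := isOpen_lt Complex.continuous_re continuous_const
  have h1 : DifferentiableOn ℂ ψ {z : ℂ | z.re < 5 / 2} := fun z hz =>
    (hg.diff z hz).differentiableWithinAt
  have h2 : ContDiffOn ℂ 1 ψ {z : ℂ | z.re < 5 / 2} := h1.contDiffOn ho
  have h3 : ContDiffOn ℝ 1 ψ {z : ℂ | z.re < 5 / 2} := h2.restrict_scalars ℝ
  have h4 : ContDiff ℝ 1 fun θ : ℝ => pt (-y) θ := by
    unfold pt
    apply ContDiff.add contDiff_const
    exact (Complex.ofRealCLM.contDiff).mul contDiff_const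
  exact h3.comp_contDiff h4 fun θ => by
    change (pt (-y) θ).re < 5 / 2
    simp [pt]
    linarith

private lemma ou_lam_int {y : ℝ} {ψ : ℂ → ℂ} {lam : ℂ → ℝ} (hlc : Continuous lam) :
    IntegrableOn (fun z => lam z ^ 2) (Nc y ψ) := by
  have hK : IsCompact (Icc (-y) 1 ×ℂ Icc 0 (2 * π)) := isCompact_Icc.reProdIm isCompact_Icc
  refine ((hlc.pow 2).continuousOn.integrableOn_compact hK).mono_set ?_
  intro z hz
  rw [Complex.mem_reProdIm]
  exact ⟨⟨hz.1.1.le, hz.1.2.1⟩, ⟨hz.1.2.2.1.le, hz.1.2.2.2⟩⟩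

private lemma ou_fub {y : ℝ} {ψ om : ℂ → ℂ} (hg : IsGauge y ψ om) {lam : ℂ → ℝ}
    (hlc : Continuous lam) :
    Integrable (fun p : ℝ × ℂ => wx (xc (ψ p.2)) p.1 * lam p.2 ^ 2)
      ((volume.restrict (Ioc 0 (2 * π))).prod (volume.restrict (Nc y ψ))) ∧
    avg (fun σ => ∫ z in Nc y ψ, wx (xc (ψ z)) σ * lam z ^ 2) = ∫ z in Nc y ψ, lam z ^ 2 := by
  have hNm := ou_Nc_meas hg
  have hψ : ContinuousOn ψ (Nc y ψ) := fun z hz =>
    (hg.diff z (by linarith [hz.1.2.1])).continuousAt.continuousWithinAt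
  have hlt : ∀ z ∈ Nc y ψ, ‖xc (ψ z)‖ < 1 := fun z hz => norm_xc_lt hz.2
  have hl2 : Continuous (fun p : ℝ × ℂ => lam p.2 ^ 2) := (hlc.comp continuous_snd).pow 2
  have hw2 : ContinuousOn (fun p : ℝ × ℂ => wx (xc (ψ p.2)) p.1) (univ ×ˢ Nc y ψ) := by
    have h1 : ContinuousOn (fun p : ℝ × ℂ => ((xc (ψ p.2), p.1) : ℂ × ℝ)) (univ ×ˢ Nc y ψ) := by
      apply ContinuousOn.prodMk _ continuousOn_fst
      exact ou_xc_cont.comp_continuousOn (hψ.comp continuousOn_snd fun p hp => hp.2)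
    have h2 : MapsTo (fun p : ℝ × ℂ => ((xc (ψ p.2), p.1) : ℂ × ℝ)) (univ ×ˢ Nc y ψ)
        {p : ℂ × ℝ | ‖p.1‖ < 1} := fun p hp => hlt _ hp.2
    have h3 := ContinuousOn.comp ou_wx_cont h1 h2
    exact h3
  have hcont : ContinuousOn (fun p : ℝ × ℂ => wx (xc (ψ p.2)) p.1 * lam p.2 ^ 2)
      (univ ×ˢ Nc y ψ) := hw2.mul hl2.continuousOn
  have hmeas : AEStronglyMeasurable (fun p : ℝ × ℂ => wx (xc (ψ p.2)) p.1 * lam p.2 ^ 2)
      ((volume.restrict (Ioc 0 (2 * π))).prod (volume.restrict (Nc y ψ))) := by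
    rw [Measure.prod_restrict]
    refine (hcont.mono ?_).aestronglyMeasurable (measurableSet_Ioc.prod hNm)
    exact prod_mono (subset_univ _) subset_rfl
  have hin : ∀ z ∈ Nc y ψ, ∫ σ in Ioc 0 (2 * π), wx (xc (ψ z)) σ * lam z ^ 2 =
      2 * π * lam z ^ 2 := by
    intro z hz
    have h1 := avg_wx (hlt z hz)
    unfold avg at h1
    have hpi : (2 * π : ℝ) ≠ 0 := by positivity
    rw [integral_mul_const, ← intervalIntegral.integral_of_le (by positivity)]
    have h2 : ∫ σ in (0 : ℝ)..2 * π, wx (xc (ψ z)) σ = 2 * π := by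
      field_simp at h1
      linarith
    rw [h2]
  have hint : Integrable (fun p : ℝ × ℂ => wx (xc (ψ p.2)) p.1 * lam p.2 ^ 2)
      ((volume.restrict (Ioc 0 (2 * π))).prod (volume.restrict (Nc y ψ))) := by
    rw [integrable_prod_iff' hmeas]
    refine ⟨?_, ?_⟩
    · filter_upwards [ae_restrict_mem hNm] with z hz
      have h1 : Continuous fun σ => wx (xc (ψ z)) σ * lam z ^ 2 :=
        (continuous_wx (hlt z hz)).mul continuous_const
      exact (h1.continuousOn.integrableOn_compact (isCompact_Icc (a := 0) (b := 2 * π))).mono_set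
        Ioc_subset_Icc_self
    · have h1 : Integrable (fun z => 2 * π * lam z ^ 2) (volume.restrict (Nc y ψ)) :=
        (ou_lam_int hlc).const_mul (2 * π)
      refine h1.congr ?_
      filter_upwards [ae_restrict_mem hNm] with z hz
      rw [← hin z hz]
      apply setIntegral_congr_fun measurableSet_Ioc
      intro σ _
      exact (norm_of_nonneg (mul_nonneg (wx_nonneg (hlt z hz) σ) (sq_nonneg _))).symm
  refine ⟨hint, ?_⟩
  unfold avg
  rw [intervalIntegral.integral_of_le (by positivity), integral_integral_swap hint]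
  have h3 : ∫ z in Nc y ψ, ∫ σ in Ioc 0 (2 * π), wx (xc (ψ z)) σ * lam z ^ 2 =
      ∫ z in Nc y ψ, 2 * π * lam z ^ 2 := setIntegral_congr_fun hNm fun z hz => hin z hz
  rw [h3, integral_const_mul]
  have hpi : (2 * π : ℝ) ≠ 0 := by positivity
  field_simp

theorem out_ineq {y : ℝ} {ψ om : ℂ → ℂ} (hg : IsGauge y ψ om) {K : NNReal} {lam : ℂ → ℝ}
    {φ : ℝ → ℂ → ℝ} (hφ : IsFam y K lam (fun σ => om (pt 0 σ)) φ) (hlc : Continuous lam)
    (hl0 : ∀ z, 0 ≤ lam z) (hlp : ∀ z, lam (z + 2 * π * Complex.I) = lam z)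
    (hlt : ∀ z : ℂ, |z.re| ≤ y → lam (tau z) = lam z) :
    2 * π - avg (fun σ => ∫ θ in (0 : ℝ)..2 * π, (2 * φ σ (pt (-y) θ) - Gs ψ σ (pt (-y) θ)) *
        deriv (fun θ => Ts ψ σ (pt (-y) θ)) θ) +
      avg (fun σ => hs fun θ => φ σ (pt (-y) θ) - Gs ψ σ (pt (-y) θ)) ≤
    1 / 2 * ∫ z in Cell (-y) y, lam z ^ 2 := by
  have hy := hg.y_ge
  -- the curve
  set X : ℝ → ℂ := fun θ => xc (ψ (pt (-y) θ)) with hX
  have hXc1 : ContDiff ℝ 1 X := ou_X hg
  have hXc : Continuous X := hXc1.continuous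
  have hXd : Continuous (deriv X) := hXc1.continuous_deriv le_rfl
  have hXhas : ∀ θ, HasDerivAt X (deriv X θ) θ := fun θ =>
    ((hXc1.differentiable one_ne_zero) θ).hasDerivAt
  have hXlt : ∀ θ, ‖X θ‖ < 1 := by
    intro θ
    have h1 := hg.tiny (pt (-y) θ) (by simp [pt]) (by simp [pt])
    have h2 := norm_xc_le' (ψ (pt (-y) θ))
    change ‖xc (ψ (pt (-y) θ))‖ < 1
    linarith
  have hpt : Continuous (pt (-y)) := by unfold pt; fun_prop
  have hTd : ∀ σ θ, deriv (fun θ => Ts ψ σ (pt (-y) θ)) θ = DT (X θ) σ (deriv X θ) := fun σ θ =>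
    (hasDerivAt_Tx_comp (hXhas θ) (hXlt θ) σ).deriv
  have hTc : Continuous fun p : ℝ × ℝ => DT (X p.2) p.1 (deriv X p.2) := by
    have h1 : Continuous fun p : ℝ × ℝ => ((X p.2, p.1) : ℂ × ℝ) :=
      (hXc.comp continuous_snd).prodMk continuous_fst
    have h2 : ∀ a : ℂ, Continuous fun p : ℝ × ℝ => DT (X p.2) p.1 a := by
      intro a
      have h4 := ContinuousOn.comp_continuous (continuousOn_DT a) h1 fun p => hXlt p.2
      exact h4
    have h3 : (fun p : ℝ × ℝ => DT (X p.2) p.1 (deriv X p.2)) = fun p : ℝ × ℝ =>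
        (deriv X p.2).re * DT (X p.2) p.1 1 + (deriv X p.2).im * DT (X p.2) p.1 Complex.I := by
      funext p
      exact DT_coord _ _ _
    rw [h3]
    exact ((Complex.continuous_re.comp (hXd.comp continuous_snd)).mul (h2 1)).add
      ((Complex.continuous_im.comp (hXd.comp continuous_snd)).mul (h2 Complex.I))
  have hφc : Continuous fun p : ℝ × ℝ => φ p.1 (pt (-y) p.2) :=
    hφ.cont.comp (continuous_fst.prodMk (hpt.comp continuous_snd))
  have hGc : Continuous fun p : ℝ × ℝ => Gs ψ p.1 (pt (-y) p.2) :=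
    continuous_gx.comp ((hXc.comp continuous_snd).prodMk continuous_fst)
  -- the first function
  set P : ℝ → ℝ := fun σ => ∫ θ in (0 : ℝ)..2 * π,
    (2 * φ σ (pt (-y) θ) - Gs ψ σ (pt (-y) θ)) * deriv (fun θ => Ts ψ σ (pt (-y) θ)) θ with hP
  have hPc : Continuous P := by
    simp only [hP, hTd]
    apply intervalIntegral.continuous_parametric_intervalIntegral_of_continuous'
    exact ((hφc.const_mul 2).sub hGc).mul hTc
  -- the second function
  set Q : ℝ → ℝ := fun σ => hs fun θ => φ σ (pt (-y) θ) - Gs ψ σ (pt (-y) θ) with hQ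
  obtain ⟨Kψ, hKψ⟩ := psi_lip hg
  have hptl : ∀ s t : ℝ, dist (pt (-y) s) (pt (-y) t) = dist s t := by
    intro s t
    rw [Complex.dist_eq, Real.dist_eq]
    have : pt (-y) s - pt (-y) t = ((s - t : ℝ) : ℂ) * Complex.I := by
      unfold pt; push_cast; ring
    rw [this, norm_mul, Complex.norm_I, mul_one, Complex.norm_real, norm_eq_abs]
  have hQc : Continuous Q := by
    refine continuous_hs (δ := fun σ θ => φ σ (pt (-y) θ) - Gs ψ σ (pt (-y) θ))
      (K := K + 2 * Kψ) (hφc.sub hGc) (fun σ => ?_) (fun σ θ => ?_)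
    · apply LipschitzWith.of_dist_le_mul
      intro s t
      have h1 := (hφ.lip σ).dist_le_mul (pt (-y) s) (pt (-y) t)
      have h2 := ((gx_xc_lip σ).comp_lipschitzOnWith hKψ).dist_le_mul (pt (-y) s)
        ⟨by simp [pt], by simp [pt]; linarith⟩ (pt (-y) t)
        ⟨by simp [pt], by simp [pt]; linarith⟩
      rw [hptl] at h1 h2
      rw [Real.dist_eq] at h1 h2 ⊢
      have h4 : φ σ (pt (-y) s) - Gs ψ σ (pt (-y) s) - (φ σ (pt (-y) t) - Gs ψ σ (pt (-y) t)) =
        (φ σ (pt (-y) s) - φ σ (pt (-y) t)) - (gx (xc (ψ (pt (-y) s))) σ -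
          gx (xc (ψ (pt (-y) t))) σ) := by
        unfold Gs; ring
      rw [h4]
      refine (abs_sub _ _).trans ?_
      push_cast at h2 ⊢
      have h5 : |gx (xc (ψ (pt (-y) s))) σ - gx (xc (ψ (pt (-y) t))) σ| ≤ 2 * Kψ * dist s t := h2
      linarith
    · have h1 : pt (-y) (θ + 2 * π) = pt (-y) θ + 2 * π * Complex.I := by
        unfold pt; push_cast; ring
      rw [h1, hφ.per]
      unfold Gs
      rw [hg.per]
  -- the right side
  obtain ⟨hint, hfub⟩ := ou_fub hg hlc
  set I : ℝ → ℝ := fun σ => ∫ z in Nc y ψ, wx (xc (ψ z)) σ * lam z ^ 2 with hI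
  have hIint : Integrable I (volume.restrict (Ioc 0 (2 * π))) := hint.integral_prod_left
  have hae : ∀ᵐ σ ∂(volume.restrict (Ioc 0 (2 * π))),
      IntegrableOn (fun z => wx (xc (ψ z)) σ * lam z ^ 2) (Nc y ψ) := hint.prod_right_ae
  have hle : ∀ᵐ σ ∂(volume.restrict (Ioc 0 (2 * π))), 2 * π - P σ + Q σ ≤ I σ := by
    filter_upwards [hae] with σ hσ
    exact out_sigma hg (hφ.lip σ) (hφ.grad σ) (hφ.per σ) (hφ.anti σ) (hφ.pole σ) hσ
  have hPi : IntervalIntegrable P volume 0 (2 * π) := hPc.intervalIntegrable _ _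
  have hQi : IntervalIntegrable Q volume 0 (2 * π) := hQc.intervalIntegrable _ _
  have hci : IntervalIntegrable (fun _ : ℝ => 2 * π) volume 0 (2 * π) := intervalIntegrable_const
  have h1 : avg (fun σ => 2 * π - P σ + Q σ) = 2 * π - avg P + avg Q := by
    rw [avg_add (hci.sub hPi) hQi, avg_sub hci hPi, avg_const]
  have h2 : avg (fun σ => 2 * π - P σ + Q σ) ≤ avg I := by
    unfold avg
    apply mul_le_mul_of_nonneg_left _ (by positivity)
    rw [intervalIntegral.integral_of_le (by positivity),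
      intervalIntegral.integral_of_le (by positivity)]
    apply integral_mono_ae _ hIint hle
    have := ((hci.sub hPi).add hQi)
    rw [intervalIntegrable_iff_integrableOn_Ioc_of_le (by positivity)] at this
    exact this
  have h3 := half_area hg (F := fun z => lam z ^ 2) (hlc.pow 2) (fun z => sq_nonneg _)
    (fun z => by simp only [hlp]) (fun z hz => by simp only [hlt z hz])
  rw [h1, hfub] at h2
  exact h2.trans h3

end Pool.Agent.CC57
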