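import Pool.Agent.CC57.Half
import Pool.Agent.CC57.Rect

set_option autoImplicit false

/-!
Trace inequality: for `F` Lipschitz and periodic on `a ≤ Re z ≤ a+1`,
`π hs (F(a + i·)) ≤ ∫_{Cell a (a+1)} |∇F|²`.
For `n ≠ 0` put `m = |n|`, `χ(x) = max 0 (1 - m (x - a))`, `F̂ x = cf (F(x+i·)) n`,
`c x = cf (F_x(x+i·)) n` (defined for a.e. `x`; `F_x = fderiv F z 1`).  For every `θ`, by the fundamental
theorem for the Lipschitz function `x ↦ χ(x) F(x+iθ)` on `[a, a+1/m]`,
`-F(a+iθ) = ∫_a^{a+1/m} (-m F + χ F_x) dx`; multiply by `e^{-inθ}` and integrate in `θ` (Fubini):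
`|F̂ a| ≤ ∫_a^{a+1/m} (m |F̂| + |c|) dx`, so `|F̂ a|² ≤ (2/m) ∫_a^{a+1} (m² |F̂|² + |c|²) dx`
(Cauchy-Schwarz on an interval of length `1/m`).  So
`(m/2) |F̂ a|² ≤ ∫ (n² |F̂ x|² + |c x|²) dx`.  For a finite set of `n`, sum: Parseval (Bessel) at a.e. `x`:
`2π ∑_n |c x|² ≤ ∮ F_x²` and `2π ∑ n² |F̂ x|² ≤ ∮ F_θ²` (`hasSum_deriv`; `deriv (θ ↦ F(x+iθ)) = F_θ` where
`F` is differentiable, a.e.).  Hence `π ∑_{finite} |n| |F̂ a|² ≤ ∫∫ |∇F|²`, for all finite sets.
-/

open Real MeasureTheory Set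

namespace Pool.Agent.CC57

namespace TraceAux

open RectAux

/-- Cauchy-Schwarz on an interval. -/
theorem cs {g : ℝ → ℝ} {a b : ℝ} (hab : a < b) (hg : IntervalIntegrable g volume a b)
    (hg2 : IntervalIntegrable (fun x => g x ^ 2) volume a b) :
    (∫ x in a..b, g x) ^ 2 ≤ (b - a) * ∫ x in a..b, g x ^ 2 := by
  set I := ∫ x in a..b, g x with hI
  have hL : 0 < b - a := by linarith
  have h0 : 0 ≤ ∫ x in a..b, (g x - I / (b - a)) ^ 2 :=
    intervalIntegral.integral_nonneg hab.le fun x _ => sq_nonneg _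
  have h1 : ∫ x in a..b, (g x - I / (b - a)) ^ 2 =
      (∫ x in a..b, g x ^ 2) - 2 * (I / (b - a)) * I + (b - a) * (I / (b - a)) ^ 2 := by
    have e : ∀ x, (g x - I / (b - a)) ^ 2 =
        (g x ^ 2 - 2 * (I / (b - a)) * g x) + (I / (b - a)) ^ 2 := fun x => by ring
    simp_rw [e]
    rw [intervalIntegral.integral_add (hg2.sub (hg.const_mul _)) intervalIntegrable_const,
      intervalIntegral.integral_sub hg2 (hg.const_mul _), intervalIntegral.integral_const_mul,
      intervalIntegral.integral_const, smul_eq_mul]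
  rw [h1] at h0
  have h2 : (b - a) * ((∫ x in a..b, g x ^ 2) - 2 * (I / (b - a)) * I +
      (b - a) * (I / (b - a)) ^ 2) = (b - a) * (∫ x in a..b, g x ^ 2) - I ^ 2 := by
    field_simp
    ring
  nlinarith [mul_nonneg hL.le h0]

/-- Measurability of Fourier coefficients with a parameter. -/
theorem measurable_cf {D : ℝ → ℝ → ℝ} (hD : Measurable (fun p : ℝ × ℝ => D p.1 p.2)) (n : ℤ) :
    Measurable fun x => cf (fun θ => (D x θ : ℂ)) n := by
  unfold cf
  have h2 : (0 : ℝ) ≤ 2 * π := by positivity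
  simp_rw [intervalIntegral.integral_of_le h2]
  have h : StronglyMeasurable (Function.uncurry fun (x θ : ℝ) =>
      (D x θ : ℂ) * Complex.exp (-(n * θ * Complex.I))) := by
    apply Measurable.stronglyMeasurable
    have m1 : Measurable fun p : ℝ × ℝ => (D p.1 p.2 : ℂ) := Complex.measurable_ofReal.comp hD
    have m2 : Measurable fun p : ℝ × ℝ => Complex.exp (-(n * p.2 * Complex.I)) := by
      apply Continuous.measurable
      fun_prop
    exact m1.mul m2
  have h3 : Measurable fun x : ℝ => ∫ θ in Ioc 0 (2 * π),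
      (D x θ : ℂ) * Complex.exp (-(n * θ * Complex.I)) := h.integral_prod_right.measurable
  exact h3.const_smul ((2 * π)⁻¹ : ℝ)

theorem intervalIntegrable_of_bdd {g : ℝ → ℝ} (hg : Measurable g) {C : ℝ} (hC : ∀ x, |g x| ≤ C)
    (a b : ℝ) : IntervalIntegrable g volume a b := by
  rw [intervalIntegrable_iff]
  refine Measure.integrableOn_of_bounded (M := C) ?_ hg.aestronglyMeasurable
    (Filter.Eventually.of_forall hC)
  simp [uIoc, Real.volume_Ioc]

theorem intervalIntegrable_of_bddC {g : ℝ → ℂ} (hg : Measurable g) {C : ℝ} (hC : ∀ x, ‖g x‖ ≤ C)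
    (a b : ℝ) : IntervalIntegrable g volume a b := by
  rw [intervalIntegrable_iff]
  refine Measure.integrableOn_of_bounded (M := C) ?_ hg.aestronglyMeasurable
    (Filter.Eventually.of_forall hC)
  simp [uIoc, Real.volume_Ioc]

theorem bdd_mul_exp {D : ℝ → ℝ → ℝ} (hD : Measurable (fun p : ℝ × ℝ => D p.1 p.2)) {C a b c d : ℝ}
    (hC : ∀ x θ, x ∈ uIoc a b → |D x θ| ≤ C) (n : ℤ) :
    IntegrableOn (Function.uncurry fun (x θ : ℝ) =>
      (D x θ : ℂ) * Complex.exp (-(n * θ * Complex.I))) (uIoc a b ×ˢ uIoc c d) := by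
  have m1 : Measurable fun p : ℝ × ℝ => (D p.1 p.2 : ℂ) := Complex.measurable_ofReal.comp hD
  have m2 : Measurable fun p : ℝ × ℝ => Complex.exp (-(n * p.2 * Complex.I)) := by
    apply Continuous.measurable
    fun_prop
  refine Measure.integrableOn_of_bounded (M := C) ?_ (m1.mul m2).aestronglyMeasurable ?_
  · rw [Measure.volume_eq_prod, Measure.prod_prod]
    simp [uIoc, Real.volume_Ioc, ENNReal.mul_eq_top]
  · rw [ae_restrict_iff' (measurableSet_uIoc.prod measurableSet_uIoc)]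
    refine Filter.Eventually.of_forall fun p hp => ?_
    simp only [Function.uncurry, norm_mul]
    have e : ‖Complex.exp (-(n * p.2 * Complex.I))‖ = 1 := by
      rw [Complex.norm_exp]
      simp
    rw [e, mul_one, Complex.norm_real]
    exact hC _ _ hp.1

section

variable {K : NNReal} {α : ℝ → ℝ → ℝ}

theorem exists_bound (hα : Lip2 K α) (hp : ∀ x θ, α x (θ + 2 * π) = α x θ) (a b : ℝ) :
    ∃ C : ℝ, ∀ x θ, x ∈ Icc a b → |α x θ| ≤ C := by
  obtain ⟨C, hC⟩ := (isCompact_Icc.prod isCompact_Icc).exists_bound_of_continuousOn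
    (f := fun p : ℝ × ℝ => α p.1 p.2) (s := Icc a b ×ˢ Icc 0 (2 * π)) hα.continuous.continuousOn
  refine ⟨C, fun x θ hx => ?_⟩
  have hper : Function.Periodic (α x) (2 * π) := hp x
  obtain ⟨y, hy, hy2⟩ := hper.exists_mem_Ico₀ two_pi_pos θ
  rw [hy2]
  exact hC (x, y) ⟨hx, ⟨hy.1, hy.2.le⟩⟩

/-- The representation of the Fourier coefficient at the boundary. -/
theorem cf_repr (hα : Lip2 K α) (hp : ∀ x θ, α x (θ + 2 * π) = α x θ) (a : ℝ) (n : ℤ) {m : ℝ}
    (hm : 0 < m) :
    -cf (fun θ => (α a θ : ℂ)) n = ∫ x in a..a + 1 / m, (-(m : ℂ) * cf (fun θ => (α x θ : ℂ)) n +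
      ((1 - m * (x - a) : ℝ) : ℂ) * cf (fun θ => (d1 α x θ : ℂ)) n) := by
  set b := a + 1 / m with hb
  have hab : a ≤ b := by
    have : 0 < 1 / m := by positivity
    linarith
  obtain ⟨C, hC⟩ := exists_bound hα hp a b
  have hcα := hα.continuous
  have hC0 : 0 ≤ C := (abs_nonneg _).trans (hC a 0 ⟨le_rfl, hab⟩)
  set D : ℝ → ℝ → ℝ := fun x θ => -m * α x θ + (1 - m * (x - a)) * d1 α x θ with hDd
  have hD : Measurable (fun p : ℝ × ℝ => D p.1 p.2) := by
    have m1 := hcα.measurable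
    have m2 := hα.measurable_d1
    have m3 : Measurable fun p : ℝ × ℝ => 1 - m * (p.1 - a) :=
      Continuous.measurable (by fun_prop)
    exact (m1.const_mul _).add (m3.mul m2)
  have hDb : ∀ x θ, x ∈ uIoc a b → |D x θ| ≤ m * C + K := by
    intro x θ hx
    rw [uIoc_of_le hab] at hx
    have h1 := hC x θ ⟨hx.1.le, hx.2⟩
    have h2 := hα.abs_d1_le x θ
    have h3 : |1 - m * (x - a)| ≤ 1 := by
      have h4 : x - a ≤ 1 / m := by rw [hb] at hx; linarith [hx.2]
      have h5 : m * (x - a) ≤ 1 := by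
        calc m * (x - a) ≤ m * (1 / m) := by gcongr
          _ = 1 := by field_simp
      have h6 : 0 ≤ m * (x - a) := mul_nonneg hm.le (by linarith [hx.1])
      rw [abs_le]
      constructor <;> linarith
    calc |D x θ| ≤ |-m * α x θ| + |(1 - m * (x - a)) * d1 α x θ| := abs_add_le _ _
      _ ≤ m * C + 1 * K := by
          rw [abs_mul, abs_mul, abs_neg, abs_of_pos hm]
          gcongr
      _ = m * C + K := by ring
  have e1 : ∀ x, -(m : ℂ) * cf (fun θ => (α x θ : ℂ)) n +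
      ((1 - m * (x - a) : ℝ) : ℂ) * cf (fun θ => (d1 α x θ : ℂ)) n =
      cf (fun θ => (D x θ : ℂ)) n := by
    intro x
    have i1 : IntervalIntegrable (fun θ => -(m : ℂ) * (α x θ : ℂ)) volume 0 (2 * π) := by
      apply Continuous.intervalIntegrable
      have : Continuous fun θ => α x θ := (hα.snd x).continuous
      fun_prop
    have i2 : IntervalIntegrable (fun θ => ((1 - m * (x - a) : ℝ) : ℂ) * (d1 α x θ : ℂ))
        volume 0 (2 * π) := by
      have m2 : Measurable fun θ => d1 α x θ :=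
        hα.measurable_d1.comp (measurable_const.prodMk measurable_id)
      have m3 : Measurable fun θ => (d1 α x θ : ℂ) := Complex.measurable_ofReal.comp m2
      refine (intervalIntegrable_of_bddC m3 (C := K) ?_ _ _).const_mul _
      intro θ
      rw [Complex.norm_real]
      exact hα.abs_d1_le x θ
    rw [← cf_mul_left, ← cf_mul_left, ← cf_add i1 i2]
    congr 1
    funext θ
    simp only [hDd]
    push_cast
    ring
  simp_rw [e1]
  unfold cf
  rw [intervalIntegral.integral_smul, intervalIntegral_intervalIntegral_swap (bdd_mul_exp hD hDb n)]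
  rw [← smul_neg, ← intervalIntegral.integral_neg]
  congr 1
  refine intervalIntegral.integral_congr fun θ _ => ?_
  simp only
  rw [intervalIntegral.integral_mul_const, intervalIntegral.integral_ofReal, ← neg_mul]
  congr 1
  -- the fundamental theorem
  have ac1 : AbsolutelyContinuousOnInterval (fun x : ℝ => 1 - m * (x - a)) a b := by
    have : LipschitzWith ⟨m, hm.le⟩ (fun x : ℝ => 1 - m * (x - a)) := by
      refine LipschitzWith.of_dist_le_mul fun x y => ?_
      rw [Real.dist_eq, Real.dist_eq]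
      have : 1 - m * (x - a) - (1 - m * (y - a)) = -(m * (x - y)) := by ring
      rw [this, abs_neg, abs_mul, abs_of_pos hm]
      rfl
    exact (this.lipschitzOnWith).absolutelyContinuousOnInterval
  have ibp := AbsolutelyContinuousOnInterval.integral_mul_deriv_eq_deriv_mul ac1 (hα.ac a b θ)
  have d : deriv (fun x : ℝ => 1 - m * (x - a)) = fun _ => -m := by
    funext x
    have : HasDerivAt (fun x : ℝ => 1 - m * (x - a)) (-(m * 1)) x :=
      (((hasDerivAt_id x).sub_const a).const_mul m).const_sub 1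
    rw [this.deriv, mul_one]
  rw [d] at ibp
  have hbm : 1 - m * (b - a) = 0 := by
    rw [hb]
    field_simp
    ring
  have j1 : IntervalIntegrable (fun x => -m * α x θ) volume a b :=
    ((hα.fst θ).continuous.intervalIntegrable _ _).const_mul _
  have j2 : IntervalIntegrable (fun x => (1 - m * (x - a)) * d1 α x θ) volume a b := by
    refine intervalIntegrable_mul (G := fun x => 1 - m * (x - a)) (D := fun x => d1 α x θ)
      (M := K) (by fun_prop) ?_ (fun x => hα.abs_d1_le x θ) a b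
    exact hα.measurable_d1.comp (measurable_id.prodMk measurable_const)
  have s : ∫ x in a..b, D x θ = -α a θ := by
    simp only [hDd]
    rw [intervalIntegral.integral_add j1 j2]
    have : ∫ x in a..b, (1 - m * (x - a)) * d1 α x θ =
        ∫ x in a..b, (1 - m * (x - a)) * deriv (fun x => α x θ) x := rfl
    rw [this, ibp, hbm]
    ring
  rw [s]
  push_cast
  ring

theorem cf_bound (hα : Lip2 K α) (hp : ∀ x θ, α x (θ + 2 * π) = α x θ) (a : ℝ) (n : ℤ) :
    |(n : ℝ)| * ‖cf (fun θ => (α a θ : ℂ)) n‖ ^ 2 ≤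
      2 * ∫ x in a..a + 1, ((n : ℝ) ^ 2 * ‖cf (fun θ => (α x θ : ℂ)) n‖ ^ 2 +
        ‖cf (fun θ => (d1 α x θ : ℂ)) n‖ ^ 2) := by
  rcases eq_or_ne n 0 with rfl | hn
  · simp only [Int.cast_zero, abs_zero, zero_mul]
    refine mul_nonneg (by norm_num) (intervalIntegral.integral_nonneg (by linarith) fun x _ => ?_)
    positivity
  have hn1 : (1 : ℝ) ≤ |(n : ℝ)| := by
    rw [← Int.cast_abs]
    exact_mod_cast Int.one_le_abs hn
  set m : ℝ := |(n : ℝ)| with hmd
  have hm : 0 < m := by linarith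
  have hm2 : m ^ 2 = (n : ℝ) ^ 2 := sq_abs _
  set b := a + 1 / m with hb
  have h1m : 0 < 1 / m := by positivity
  have h1m' : 1 / m ≤ 1 := by
    rw [div_le_one hm]; exact hn1
  have hab : a < b := by linarith
  have hb1 : b ≤ a + 1 := by linarith
  obtain ⟨C, hC⟩ := exists_bound hα hp a (a + 1)
  set u : ℝ → ℂ := fun x => cf (fun θ => (α x θ : ℂ)) n with hu
  set v : ℝ → ℂ := fun x => cf (fun θ => (d1 α x θ : ℂ)) n with hv
  have mu : Measurable u := measurable_cf hα.continuous.measurable n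
  have mv : Measurable v := measurable_cf hα.measurable_d1 n
  have bu : ∀ x ∈ Icc a (a + 1), ‖u x‖ ≤ C := fun x hx =>
    norm_cf_le (fun θ => by rw [Complex.norm_real]; exact hC x θ hx) n
  have bv : ∀ x, ‖v x‖ ≤ K := fun x =>
    norm_cf_le (fun θ => by rw [Complex.norm_real]; exact hα.abs_d1_le x θ) n
  have hC0 : 0 ≤ C := (norm_nonneg _).trans (bu a ⟨le_rfl, by linarith⟩)
  have intOf : ∀ {g : ℝ → ℝ} (M : ℝ), Measurable g → (∀ x ∈ Icc a (a + 1), |g x| ≤ M) →
      ∀ c d, a ≤ c → c ≤ d → d ≤ a + 1 → IntervalIntegrable g volume c d := by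
    intro g M hg hM c d h1 h2 h3
    rw [intervalIntegrable_iff_integrableOn_Ioc_of_le h2]
    refine Measure.integrableOn_of_bounded (M := M) (by simp [Real.volume_Ioc])
      hg.aestronglyMeasurable ?_
    rw [ae_restrict_iff' measurableSet_Ioc]
    exact Filter.Eventually.of_forall fun x hx => hM x ⟨h1.trans hx.1.le, hx.2.trans h3⟩
  set g : ℝ → ℝ := fun x => m * ‖u x‖ + ‖v x‖ with hg
  have mg : Measurable g := (mu.norm.const_mul _).add mv.norm
  have g0 : ∀ x, 0 ≤ g x := fun x => by positivity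
  have bg : ∀ x ∈ Icc a (a + 1), |g x| ≤ m * C + K := by
    intro x hx
    rw [abs_of_nonneg (g0 x)]
    have := bu x hx
    have := bv x
    simp only [hg]
    gcongr
  have bg2 : ∀ x ∈ Icc a (a + 1), |g x ^ 2| ≤ (m * C + K) ^ 2 := by
    intro x hx
    rw [abs_of_nonneg (sq_nonneg _), ← sq_abs]
    exact pow_le_pow_left₀ (abs_nonneg _) (bg x hx) 2
  have ig : IntervalIntegrable g volume a b := intOf _ mg bg a b le_rfl hab.le hb1
  have ig2 : IntervalIntegrable (fun x => g x ^ 2) volume a b :=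
    intOf _ (mg.pow_const 2) bg2 a b le_rfl hab.le hb1
  have step1 : ‖u a‖ ≤ ∫ x in a..b, g x := by
    have h := cf_repr hα hp a n hm
    have : ‖u a‖ = ‖∫ x in a..b, (-(m : ℂ) * u x + ((1 - m * (x - a) : ℝ) : ℂ) * v x)‖ := by
      rw [← h, norm_neg]
    rw [this]
    refine intervalIntegral.norm_integral_le_of_norm_le hab.le ?_ ig
    refine Filter.Eventually.of_forall fun x hx => ?_
    have h5 : |1 - m * (x - a)| ≤ 1 := by
      have h4 : x - a ≤ 1 / m := by rw [hb] at hx; linarith [hx.2]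
      have h5 : m * (x - a) ≤ 1 := by
        calc m * (x - a) ≤ m * (1 / m) := by gcongr
          _ = 1 := by field_simp
      have h6 : 0 ≤ m * (x - a) := mul_nonneg hm.le (by linarith [hx.1])
      rw [abs_le]
      constructor <;> linarith
    calc ‖-(m : ℂ) * u x + ((1 - m * (x - a) : ℝ) : ℂ) * v x‖
        ≤ ‖-(m : ℂ) * u x‖ + ‖((1 - m * (x - a) : ℝ) : ℂ) * v x‖ := norm_add_le _ _
      _ = m * ‖u x‖ + |1 - m * (x - a)| * ‖v x‖ := by
          rw [norm_mul, norm_mul, norm_neg, Complex.norm_real, Complex.norm_real,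
            Real.norm_eq_abs, Real.norm_eq_abs, abs_of_pos hm]
      _ ≤ m * ‖u x‖ + 1 * ‖v x‖ := by gcongr
      _ = g x := by rw [one_mul]
  have step2 : ‖u a‖ ^ 2 ≤ (1 / m) * ∫ x in a..b, g x ^ 2 := by
    have h := cs hab ig ig2
    have hba : b - a = 1 / m := by rw [hb]; ring
    rw [hba] at h
    exact (pow_le_pow_left₀ (norm_nonneg _) step1 2).trans h
  have step3 : ∫ x in a..b, g x ^ 2 ≤ ∫ x in a..a + 1, g x ^ 2 := by
    refine intervalIntegral.integral_mono_interval le_rfl hab.le hb1 ?_ ?_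
    · exact Filter.Eventually.of_forall fun x => sq_nonneg _
    · exact intOf _ (mg.pow_const 2) bg2 a (a + 1) le_rfl (by linarith) le_rfl
  have step4 : ∫ x in a..a + 1, g x ^ 2 ≤
      ∫ x in a..a + 1, 2 * ((n : ℝ) ^ 2 * ‖u x‖ ^ 2 + ‖v x‖ ^ 2) := by
    refine intervalIntegral.integral_mono_on (by linarith) ?_ ?_ ?_
    · exact intOf _ (mg.pow_const 2) bg2 a (a + 1) le_rfl (by linarith) le_rfl
    · refine intOf (2 * ((n : ℝ) ^ 2 * C ^ 2 + K ^ 2)) ?_ ?_ a (a + 1) le_rfl (by linarith) le_rfl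
      · exact ((((mu.norm.pow_const 2).const_mul _).add (mv.norm.pow_const 2)).const_mul _)
      · intro x hx
        rw [abs_of_nonneg (by positivity)]
        have := bu x hx
        have := bv x
        gcongr
    · intro x _
      rw [← hm2]
      simp only [hg]
      nlinarith [sq_nonneg (m * ‖u x‖ - ‖v x‖)]
  rw [intervalIntegral.integral_const_mul] at step4
  calc m * ‖u a‖ ^ 2 ≤ m * ((1 / m) * ∫ x in a..b, g x ^ 2) := by gcongr
    _ = ∫ x in a..b, g x ^ 2 := by field_simp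
    _ ≤ _ := step3.trans step4

theorem sum_le (hα : Lip2 K α) (hp : ∀ x θ, α x (θ + 2 * π) = α x θ) (a : ℝ) (s : Finset ℤ) :
    π * ∑ n ∈ s, |(n : ℝ)| * ‖cf (fun θ => (α a θ : ℂ)) n‖ ^ 2 ≤
      ∫ x in a..a + 1, ∫ θ in (0 : ℝ)..2 * π, (d1 α x θ ^ 2 + deriv (α x) θ ^ 2) := by
  obtain ⟨C, hC⟩ := exists_bound hα hp a (a + 1)
  have hK : (0 : ℝ) ≤ K := K.2
  set u : ℤ → ℝ → ℂ := fun n x => cf (fun θ => (α x θ : ℂ)) n with hu
  set v : ℤ → ℝ → ℂ := fun n x => cf (fun θ => (d1 α x θ : ℂ)) n with hv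
  have mu : ∀ n, Measurable (u n) := fun n => measurable_cf hα.continuous.measurable n
  have mv : ∀ n, Measurable (v n) := fun n => measurable_cf hα.measurable_d1 n
  have bu : ∀ n, ∀ x ∈ Icc a (a + 1), ‖u n x‖ ≤ C := fun n x hx =>
    norm_cf_le (fun θ => by rw [Complex.norm_real]; exact hC x θ hx) n
  have bv : ∀ n x, ‖v n x‖ ≤ K := fun n x =>
    norm_cf_le (fun θ => by rw [Complex.norm_real]; exact hα.abs_d1_le x θ) n
  have hC0 : 0 ≤ C := (norm_nonneg _).trans (bu 0 a ⟨le_rfl, by linarith⟩)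
  have m1 : ∀ x, Measurable fun θ => d1 α x θ := fun x =>
    hα.measurable_d1.comp (measurable_const.prodMk measurable_id)
  have b2 : ∀ x θ, |deriv (α x) θ| ≤ K := fun x θ => norm_deriv_le_of_lipschitz (hα.snd x)
  have md : Measurable fun p : ℝ × ℝ => deriv (α p.1) p.2 :=
    measurable_deriv_with_param (𝕜 := ℝ) (f := α) hα.continuous
  have iS : ∀ n : ℤ, IntervalIntegrable (fun x => (n : ℝ) ^ 2 * ‖u n x‖ ^ 2 + ‖v n x‖ ^ 2) volume
      a (a + 1) := by
    intro n
    rw [intervalIntegrable_iff_integrableOn_Ioc_of_le (by linarith)]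
    refine Measure.integrableOn_of_bounded (M := (n : ℝ) ^ 2 * C ^ 2 + K ^ 2)
      (by simp [Real.volume_Ioc]) ?_ ?_
    · exact ((((mu n).norm.pow_const 2).const_mul _).add
        ((mv n).norm.pow_const 2)).aestronglyMeasurable
    rw [ae_restrict_iff' measurableSet_Ioc]
    refine Filter.Eventually.of_forall fun x hx => ?_
    have := bu n x ⟨hx.1.le, hx.2⟩
    have := bv n x
    rw [Real.norm_eq_abs, abs_of_nonneg (by positivity)]
    gcongr
  have h1 : ∑ n ∈ s, |(n : ℝ)| * ‖u n a‖ ^ 2 ≤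
      2 * ∫ x in a..a + 1, ∑ n ∈ s, ((n : ℝ) ^ 2 * ‖u n x‖ ^ 2 + ‖v n x‖ ^ 2) := by
    rw [intervalIntegral.integral_finsetSum fun n _ => iS n, Finset.mul_sum]
    exact Finset.sum_le_sum fun n _ => cf_bound hα hp a n
  have par : ∀ x, ∑ n ∈ s, ((n : ℝ) ^ 2 * ‖u n x‖ ^ 2 + ‖v n x‖ ^ 2) ≤
      (2 * π)⁻¹ * ∫ θ in (0 : ℝ)..2 * π, (d1 α x θ ^ 2 + deriv (α x) θ ^ 2) := by
    intro x
    have hlip : LipschitzWith K (fun θ => (α x θ : ℂ)) := by
      refine LipschitzWith.of_dist_le_mul fun θ θ' => ?_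
      rw [Complex.dist_eq, ← Complex.ofReal_sub, Complex.norm_real, Real.norm_eq_abs,
        ← Real.dist_eq]
      exact (hα.snd x).dist_le_mul θ θ'
    have p1 := hasSum_deriv hlip (fun θ => by rw [hp])
    have p2 := parseval (f := fun θ => (d1 α x θ : ℂ)) (C := K)
      (Complex.measurable_ofReal.comp (m1 x)).aestronglyMeasurable
      (fun θ => by rw [Complex.norm_real]; exact hα.abs_d1_le x θ)
    have q1 := sum_le_hasSum s (fun n _ => by positivity) p1
    have q2 := sum_le_hasSum s (fun n _ => by positivity) p2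
    have e1 : ∫ θ in (0 : ℝ)..2 * π, ‖deriv (fun θ => (α x θ : ℂ)) θ‖ ^ 2 =
        ∫ θ in (0 : ℝ)..2 * π, deriv (α x) θ ^ 2 := by
      apply intervalIntegral.integral_congr_ae
      filter_upwards [(hα.snd x).ae_differentiableAt_real] with θ hθ _
      have : HasDerivAt (fun θ => (α x θ : ℂ)) ((deriv (α x) θ : ℝ) : ℂ) θ :=
        hθ.hasDerivAt.ofReal_comp
      rw [this.deriv, Complex.norm_real, Real.norm_eq_abs, sq_abs]
    have e2 : ∫ θ in (0 : ℝ)..2 * π, ‖(d1 α x θ : ℂ)‖ ^ 2 =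
        ∫ θ in (0 : ℝ)..2 * π, d1 α x θ ^ 2 := by
      apply intervalIntegral.integral_congr
      intro θ _
      simp only
      rw [Complex.norm_real, Real.norm_eq_abs, sq_abs]
    rw [e1] at q1
    rw [e2] at q2
    have i1 : IntervalIntegrable (fun θ => d1 α x θ ^ 2) volume 0 (2 * π) :=
      intervalIntegrable_of_bdd ((m1 x).pow_const 2) (C := K ^ 2) (fun θ => by
        rw [abs_of_nonneg (sq_nonneg _), ← sq_abs]
        exact pow_le_pow_left₀ (abs_nonneg _) (hα.abs_d1_le x θ) 2) _ _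
    have i2 : IntervalIntegrable (fun θ => deriv (α x) θ ^ 2) volume 0 (2 * π) :=
      intervalIntegrable_of_bdd ((measurable_deriv (α x)).pow_const 2) (C := K ^ 2) (fun θ => by
        rw [abs_of_nonneg (sq_nonneg _), ← sq_abs]
        exact pow_le_pow_left₀ (abs_nonneg _) (b2 x θ) 2) _ _
    rw [intervalIntegral.integral_add i1 i2, Finset.sum_add_distrib, mul_add]
    linarith
  have iT : IntervalIntegrable (fun x => (2 * π)⁻¹ *
      ∫ θ in (0 : ℝ)..2 * π, (d1 α x θ ^ 2 + deriv (α x) θ ^ 2)) volume a (a + 1) := by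
    apply IntervalIntegrable.const_mul
    refine intervalIntegrable_of_bdd (C := 2 * π * (K ^ 2 + K ^ 2)) ?_ ?_ _ _
    · have h2 : (0 : ℝ) ≤ 2 * π := by positivity
      simp_rw [intervalIntegral.integral_of_le h2]
      have h : StronglyMeasurable (Function.uncurry fun (x θ : ℝ) =>
          d1 α x θ ^ 2 + deriv (α x) θ ^ 2) :=
        ((hα.measurable_d1.pow_const 2).add (md.pow_const 2)).stronglyMeasurable
      exact h.integral_prod_right.measurable
    · intro x
      have := intervalIntegral.norm_integral_le_of_norm_le_const (a := 0) (b := 2 * π)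
        (C := K ^ 2 + K ^ 2) (f := fun θ => d1 α x θ ^ 2 + deriv (α x) θ ^ 2) ?_
      · rw [Real.norm_eq_abs, sub_zero, abs_of_pos two_pi_pos] at this
        linarith
      · intro θ _
        rw [Real.norm_eq_abs, abs_of_nonneg (by positivity), ← sq_abs (d1 α x θ),
          ← sq_abs (deriv (α x) θ)]
        exact add_le_add (pow_le_pow_left₀ (abs_nonneg _) (hα.abs_d1_le x θ) 2)
          (pow_le_pow_left₀ (abs_nonneg _) (b2 x θ) 2)
  have h2 : ∫ x in a..a + 1, ∑ n ∈ s, ((n : ℝ) ^ 2 * ‖u n x‖ ^ 2 + ‖v n x‖ ^ 2) ≤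
      ∫ x in a..a + 1, (2 * π)⁻¹ *
        ∫ θ in (0 : ℝ)..2 * π, (d1 α x θ ^ 2 + deriv (α x) θ ^ 2) := by
    refine intervalIntegral.integral_mono_on (by linarith) ?_ iT fun x _ => par x
    have h3 := IntervalIntegrable.sum s fun n _ => iS n
    have h4 : (∑ n ∈ s, fun x => (n : ℝ) ^ 2 * ‖u n x‖ ^ 2 + ‖v n x‖ ^ 2) =
        fun x => ∑ n ∈ s, ((n : ℝ) ^ 2 * ‖u n x‖ ^ 2 + ‖v n x‖ ^ 2) := by
      funext x
      rw [Finset.sum_apply]
    rw [← h4]
    exact h3
  rw [intervalIntegral.integral_const_mul] at h2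
  calc π * ∑ n ∈ s, |(n : ℝ)| * ‖u n a‖ ^ 2
      ≤ π * (2 * ∫ x in a..a + 1, ∑ n ∈ s, ((n : ℝ) ^ 2 * ‖u n x‖ ^ 2 + ‖v n x‖ ^ 2)) := by
        gcongr
    _ ≤ π * (2 * ((2 * π)⁻¹ * ∫ x in a..a + 1,
          ∫ θ in (0 : ℝ)..2 * π, (d1 α x θ ^ 2 + deriv (α x) θ ^ 2))) := by gcongr
    _ = _ := by field_simp

end

end TraceAux

open RectAux TraceAux in
theorem trace_ineq {F : ℂ → ℝ} {K : NNReal} {a : ℝ}
    (hF : LipschitzOnWith K F {z : ℂ | a ≤ z.re ∧ z.re ≤ a + 1})
    (hp : ∀ z : ℂ, a ≤ z.re → z.re ≤ a + 1 → F (z + 2 * π * Complex.I) = F z) :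
    IntegrableOn (gr2 F) (Cell a (a + 1)) ∧
    π * hs (fun θ => F (pt a θ)) ≤ ∫ z in Cell a (a + 1), gr2 F z := by
  have hab : a ≤ a + 1 := by linarith
  have mgr : Measurable (gr2 F) := by
    unfold gr2
    exact ((measurable_fderiv_apply_const ℝ F 1).pow_const 2).add
      ((measurable_fderiv_apply_const ℝ F Complex.I).pow_const 2)
  have int : IntegrableOn (gr2 F) (Cell a (a + 1)) := by
    refine Measure.integrableOn_of_bounded (M := K ^ 2 + K ^ 2) (volume_cell_lt_top a (a + 1)).ne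
      mgr.aestronglyMeasurable ?_
    rw [ae_restrict_iff' (measurableSet_cell a (a + 1))]
    filter_upwards [ae_re_ne (a + 1)] with z hz hz2
    have hA' := norm_fderiv_le_strip hF hz2.1 (lt_of_le_of_ne hz2.2.1 hz)
    have e1 : |fderiv ℝ F z 1| ≤ K := by
      refine ((fderiv ℝ F z).le_opNorm 1).trans ?_
      simpa using hA'
    have e2 : |fderiv ℝ F z Complex.I| ≤ K := by
      refine ((fderiv ℝ F z).le_opNorm Complex.I).trans ?_
      simpa using hA'
    unfold gr2
    rw [Real.norm_eq_abs, abs_of_nonneg (by positivity), ← sq_abs, ← sq_abs (fderiv ℝ F z Complex.I)]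
    exact add_le_add (pow_le_pow_left₀ (abs_nonneg _) e1 2) (pow_le_pow_left₀ (abs_nonneg _) e2 2)
  refine ⟨int, ?_⟩
  set α := cl a (a + 1) F with hαd
  have hα : Lip2 K α := lip2_cl hab hF
  have hpt : ∀ x θ : ℝ, pt x (θ + 2 * π) = pt x θ + 2 * π * Complex.I := by
    intro x θ
    simp only [pt]
    push_cast
    ring
  have h1 : ∀ y : ℝ, a ≤ max a (min y (a + 1)) ∧ max a (min y (a + 1)) ≤ a + 1 := fun y =>
    ⟨le_max_left _ _, max_le hab (min_le_right _ _)⟩
  have hpα : ∀ x θ, α x (θ + 2 * π) = α x θ := by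
    intro x θ
    simp only [hαd, cl]
    rw [hpt]
    exact hp _ (by simp [pt_mk]) (by simp [pt_mk])
  have e0 : ∫ z in Cell a (a + 1), gr2 F z =
      ∫ z in Cell a (a + 1), (d1 α z.re z.im ^ 2 + deriv (α z.re) z.im ^ 2) := by
    refine setIntegral_congr_ae (measurableSet_cell a (a + 1)) ?_
    filter_upwards [ae_differentiableAt_cell hF] with z k1 hz
    obtain ⟨⟨z1, z2⟩, k3⟩ := k1 hz
    have ev : ∀ᶠ s in nhds z.re, a ≤ s ∧ s ≤ a + 1 := by
      filter_upwards [Ioo_mem_nhds z1 z2] with s hs using ⟨hs.1.le, hs.2.le⟩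
    have a1 : d1 α z.re z.im = fderiv ℝ F z 1 := by
      refine HasDerivAt.deriv ?_
      refine (hasDerivAt_pt_re k3).congr_of_eventuallyEq ?_
      filter_upwards [ev] with s hs
      exact cl_eq hs.1 hs.2 _
    have a2 : deriv (α z.re) z.im = fderiv ℝ F z Complex.I := by
      refine HasDerivAt.deriv ?_
      refine (hasDerivAt_pt_im k3).congr_of_eventuallyEq ?_
      exact Filter.Eventually.of_forall fun s => cl_eq z1.le z2.le s
    rw [a1, a2]
    rfl
  have int2 : IntegrableOn (fun z : ℂ => d1 α z.re z.im ^ 2 + deriv (α z.re) z.im ^ 2)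
      (Cell a (a + 1)) := by
    have m0 : Measurable fun z : ℂ => (z.re, z.im) :=
      Complex.measurable_re.prodMk Complex.measurable_im
    have m1 : Measurable fun z : ℂ => d1 α z.re z.im := hα.measurable_d1.comp m0
    have md : Measurable fun p : ℝ × ℝ => deriv (α p.1) p.2 :=
      measurable_deriv_with_param (𝕜 := ℝ) (f := α) hα.continuous
    have m2 : Measurable fun z : ℂ => deriv (α z.re) z.im := md.comp m0
    refine Measure.integrableOn_of_bounded (M := K ^ 2 + K ^ 2) (volume_cell_lt_top a (a + 1)).ne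
      ((m1.pow_const 2).add (m2.pow_const 2)).aestronglyMeasurable ?_
    refine Filter.Eventually.of_forall fun z => ?_
    rw [Real.norm_eq_abs, abs_of_nonneg (by positivity), ← sq_abs (d1 α z.re z.im),
      ← sq_abs (deriv (α z.re) z.im)]
    exact add_le_add (pow_le_pow_left₀ (abs_nonneg _) (hα.abs_d1_le _ _) 2)
      (pow_le_pow_left₀ (abs_nonneg _) (norm_deriv_le_of_lipschitz (hα.snd _)) 2)
  rw [e0, integral_cell hab int2]
  have e3 : ∀ x θ : ℝ, d1 α (pt x θ).re (pt x θ).im ^ 2 + deriv (α (pt x θ).re) (pt x θ).im ^ 2 =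
      d1 α x θ ^ 2 + deriv (α x) θ ^ 2 := by
    intro x θ
    simp [pt_mk]
  simp_rw [e3]
  have e4 : (fun θ => ((F (pt a θ) : ℝ) : ℂ)) = fun θ => ((α a θ : ℝ) : ℂ) := by
    funext θ
    rw [hαd, cl_eq le_rfl hab]
  have key : hs (fun θ => F (pt a θ)) ≤ π⁻¹ *
      ∫ x in a..a + 1, ∫ θ in (0 : ℝ)..2 * π, (d1 α x θ ^ 2 + deriv (α x) θ ^ 2) := by
    unfold hs hsC
    rw [e4]
    refine Real.tsum_le_of_sum_le (fun n => by positivity) fun s => ?_
    have := sum_le hα hpα a s
    rw [le_inv_mul_iff₀ pi_pos]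
    exact this
  calc π * hs (fun θ => F (pt a θ)) ≤ π * (π⁻¹ *
      ∫ x in a..a + 1, ∫ θ in (0 : ℝ)..2 * π, (d1 α x θ ^ 2 + deriv (α x) θ ^ 2)) := by gcongr
    _ = _ := by field_simp

end Pool.Agent.CC57
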