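import Pool.Agent.CC57.PoleStokes
import Pool.Agent.CC57.Trace
import Pool.Agent.CC57.GLip
import Pool.Agent.CC57.Mass

set_option autoImplicit false

/-!
The outer inequality for one `σ`.  `w(z) = wx (xc (ψ z)) σ`, `G = Gs ψ σ`, `T = Ts ψ σ`.
At a.e. `z ∈ Nc` (interior points where `φ` is differentiable; `|Re z| < y` there) `‖ψ z‖ < 1`, so
`w lam² ≥ w gr2 φ = br T (2φ - G) + w gr2 (φ - G)` (`hgrad`, `gr2_le`, `wx_gr2`, `wx_nonneg`, `norm_xc`), and
`w gr2 (φ - G) ≥ (1/2) gr2 (φ - G)` if `Re z ≤ -y + 1` (`tiny`: `‖xc (ψ z)‖ ≤ 2‖ψ z‖ ≤ 1/2`, so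
`w ≥ √(1 - 1/4) ≥ 1/2` as `1 - inn² ≤ 1`), `≥ 0` otherwise.  Integrate over `Nc` (all three functions are
integrable: `hi`, `pole_stokes`, `trace_ineq`; `Cell (-y) (-y+1) ⊆ Nc` by `tiny`):
`∫_{Nc} w lam² ≥ ∫_{Nc} br T f + (1/2) ∫_{Cell (-y) (-y+1)} gr2 (φ - G)`, where `f = 2φ - G` composed with
the clamp of `Re z` to `[-y, 1]` (the clamp does not change `br` and `gr2` at interior points of `Nc`).
`f` is Lipschitz on `-y ≤ Re z ≤ 3` (`gx_xc_lip`, `psi_lip`), periodic.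
`pole_stokes`: `∫_{Nc} br T f = 2 f (om (iσ)) - 2 f (tau (om (iσ))) - ∮ f(pt (-y) θ) T_θ`, where
`φ (om (iσ)) = π/2` (`hpole`), `φ (tau p) = -π/2` (`hanti`), `G (om (iσ)) = π/2` (`psi_om`, `gx_xc_pole`),
`G (tau (om (iσ))) = -π/2` (`psi_tau`, `gx_xc_antipode`), so the first two terms give `2π`.
`trace_ineq` for `φ - G` on `-y ≤ Re z ≤ -y+1`.
-/

open Real MeasureTheory Set

namespace Pool.Agent.CC57

private lemma ob_Nc_meas {y : ℝ} {ψ om : ℂ → ℂ} (hg : IsGauge y ψ om) :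
    MeasurableSet (Nc y ψ) := by
  have ho : IsOpen {z : ℂ | z.re < 5 / 2} := isOpen_lt Complex.continuous_re continuous_const
  have hc : ContinuousOn ψ {z : ℂ | z.re < 5 / 2} := fun z hz =>
    (hg.diff z hz).continuousAt.continuousWithinAt
  have h1 : IsOpen ({z : ℂ | z.re < 5 / 2} ∩ ψ ⁻¹' Metric.ball 0 1) :=
    hc.isOpen_inter_preimage ho Metric.isOpen_ball
  have h2 : Nc y ψ = Cell (-y) 1 ∩ ({z : ℂ | z.re < 5 / 2} ∩ ψ ⁻¹' Metric.ball 0 1) := by
    ext z
    constructor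
    · rintro ⟨h1, h2⟩
      refine ⟨h1, ?_, ?_⟩
      · have := h1.2.1
        change z.re < 5 / 2
        linarith
      · simpa using h2
    · rintro ⟨h1, -, h2⟩
      exact ⟨h1, by simpa using h2⟩
  rw [h2]
  exact (measurableSet_cell _ _).inter h1.measurableSet

/-- The clamp. -/
private noncomputable def obc (z : ℂ) : ℂ := ⟨min z.re 2, z.im⟩

private lemma obc_re (z : ℂ) : (obc z).re = min z.re 2 := rfl

private lemma obc_id {z : ℂ} (hz : z.re ≤ 2) : obc z = z := by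
  unfold obc
  rw [min_eq_left hz]

private lemma obc_per (z : ℂ) : obc (z + 2 * π * Complex.I) = obc z + 2 * π * Complex.I := by
  apply Complex.ext
  · simp [obc]
  · simp [obc]

private lemma obc_lip : LipschitzWith 1 obc := by
  apply LipschitzWith.of_dist_le_mul
  intro z w
  rw [NNReal.coe_one, one_mul, Complex.dist_eq, Complex.dist_eq]
  have h1 : |(obc z - obc w).re| ≤ |(z - w).re| := by
    rw [Complex.sub_re, obc_re, obc_re, Complex.sub_re]
    have h2 := abs_min_sub_min_le_max z.re 2 w.re 2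
    rw [sub_self, abs_zero] at h2
    exact h2.trans (max_eq_left (abs_nonneg _)).le
  have h2 : (obc z - obc w).im = (z - w).im := by simp [obc]
  rw [← Real.sqrt_sq (norm_nonneg (obc z - obc w)), ← Real.sqrt_sq (norm_nonneg (z - w))]
  apply sqrt_le_sqrt
  rw [← Complex.normSq_eq_norm_sq, ← Complex.normSq_eq_norm_sq, Complex.normSq_apply,
    Complex.normSq_apply, h2]
  nlinarith [sq_abs (obc z - obc w).re, sq_abs (z - w).re, abs_nonneg (obc z - obc w).re]

theorem out_sigma {y : ℝ} {ψ om : ℂ → ℂ} (hg : IsGauge y ψ om) {K : NNReal} {lam : ℂ → ℝ}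
    {φ : ℂ → ℝ} (hlip : LipschitzWith K φ)
    (hgrad : ∀ z : ℂ, |z.re| < y → ‖fderiv ℝ φ z‖ ≤ lam z)
    (hper : ∀ z, φ (z + 2 * π * Complex.I) = φ z)
    (hanti : ∀ z : ℂ, |z.re| ≤ y → φ (tau z) = -φ z) {σ : ℝ}
    (hpole : φ (om (pt 0 σ)) = π / 2)
    (hi : IntegrableOn (fun z => wx (xc (ψ z)) σ * lam z ^ 2) (Nc y ψ)) :
    2 * π - (∫ θ in (0 : ℝ)..2 * π, (2 * φ (pt (-y) θ) - Gs ψ σ (pt (-y) θ)) *
        deriv (fun θ => Ts ψ σ (pt (-y) θ)) θ) +
      hs (fun θ => φ (pt (-y) θ) - Gs ψ σ (pt (-y) θ)) ≤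
    ∫ z in Nc y ψ, wx (xc (ψ z)) σ * lam z ^ 2 := by
  have hy := hg.y_ge
  obtain ⟨Kψ, hKψ⟩ := psi_lip hg
  have hGl : LipschitzOnWith (2 * Kψ) (Gs ψ σ) {z : ℂ | -y ≤ z.re ∧ z.re ≤ 2} :=
    (gx_xc_lip σ).comp_lipschitzOnWith hKψ
  have hGper : ∀ z, Gs ψ σ (z + 2 * π * Complex.I) = Gs ψ σ z := by
    intro z
    unfold Gs
    rw [hg.per]
  -- the function f
  set f : ℂ → ℝ := fun z => 2 * φ (obc z) - Gs ψ σ (obc z) with hf
  have hmaps : MapsTo obc {z : ℂ | -y ≤ z.re ∧ z.re ≤ 3} {z : ℂ | -y ≤ z.re ∧ z.re ≤ 2} := by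
    intro z hz
    refine ⟨?_, ?_⟩
    · rw [obc_re]
      exact le_min hz.1 (by linarith)
    · rw [obc_re]
      exact min_le_right _ _
  have hfl : LipschitzOnWith (2 * K + 2 * Kψ) f {z : ℂ | -y ≤ z.re ∧ z.re ≤ 3} := by
    apply LipschitzOnWith.of_dist_le_mul
    intro z hz w hw
    have h1 := hlip.dist_le_mul (obc z) (obc w)
    have h2 := hGl.dist_le_mul _ (hmaps hz) _ (hmaps hw)
    have h3 := obc_lip.dist_le_mul z w
    rw [NNReal.coe_one, one_mul] at h3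
    rw [Real.dist_eq] at h1 h2 ⊢
    have h4 : f z - f w = 2 * (φ (obc z) - φ (obc w)) -
        (Gs ψ σ (obc z) - Gs ψ σ (obc w)) := by
      simp only [hf]; ring
    rw [h4]
    refine (abs_sub _ _).trans ?_
    rw [abs_mul, abs_of_pos (by norm_num : (0 : ℝ) < 2)]
    have h5 : (K : ℝ) * dist (obc z) (obc w) ≤ K * dist z w :=
      mul_le_mul_of_nonneg_left h3 K.2
    have h6 : ((2 * Kψ : NNReal) : ℝ) * dist (obc z) (obc w) ≤ ((2 * Kψ : NNReal) : ℝ) * dist z w :=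
      mul_le_mul_of_nonneg_left h3 (2 * Kψ).2
    push_cast at h2 h6 ⊢
    linarith
  have hfp : ∀ z : ℂ, -y ≤ z.re → z.re ≤ 3 → f (z + 2 * π * Complex.I) = f z := by
    intro z _ _
    simp only [hf]
    rw [obc_per, hper, hGper]
  obtain ⟨hi1, hI1⟩ := pole_stokes hg hfl hfp σ
  -- the values at the poles
  have hpt : (pt 0 σ).re = 0 := by simp [pt]
  have hpt2 : |(pt 0 σ).re| ≤ 2 := by rw [hpt]; norm_num
  have hore := abs_le.1 (om_re_le hg hpt2)
  rw [hpt, sub_zero] at hore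
  have hG1 : Gs ψ σ (om (pt 0 σ)) = π / 2 := by
    unfold Gs
    rw [hg.psi_om _ hpt2]
    have : pt 0 σ = σ * Complex.I := by simp [pt]
    rw [this]
    exact gx_xc_pole σ
  have hG2 : Gs ψ σ (tau (om (pt 0 σ))) = -(π / 2) := by
    have h1 := gx_xc_antipode (psi_tau hg (l := om (pt 0 σ)) (by
      rw [abs_le]; constructor <;> linarith [hore.1, hore.2])) σ
    unfold Gs at hG1 ⊢
    rw [h1, hG1]
  have hφ2 : φ (tau (om (pt 0 σ))) = -(π / 2) := by
    rw [hanti _ (by rw [abs_le]; constructor <;> linarith [hore.1, hore.2]), hpole]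
  have e1 : f (om (pt 0 σ)) = π / 2 := by
    simp only [hf]
    rw [obc_id (by linarith [hore.2]), hpole, hG1]
    ring
  have e2 : f (tau (om (pt 0 σ))) = -(π / 2) := by
    have h3 : (tau (om (pt 0 σ))).re = -(om (pt 0 σ)).re := by simp [tau]
    simp only [hf]
    rw [obc_id (by rw [h3]; linarith [hore.1]), hφ2, hG2]
    ring
  have e3 : ∀ θ : ℝ, f (pt (-y) θ) = 2 * φ (pt (-y) θ) - Gs ψ σ (pt (-y) θ) := by
    intro θ
    simp only [hf]
    rw [obc_id (by simp [pt]; linarith)]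
  simp only [e3] at hI1
  rw [e1, e2] at hI1
  -- the trace inequality
  have hFl : LipschitzOnWith (K + 2 * Kψ) (fun z => φ z - Gs ψ σ z)
      {z : ℂ | -y ≤ z.re ∧ z.re ≤ -y + 1} := by
    apply LipschitzOnWith.of_dist_le_mul
    intro z hz w hw
    have h1 := hlip.dist_le_mul z w
    have h2 := hGl.dist_le_mul z ⟨hz.1, by linarith [hz.2]⟩ w ⟨hw.1, by linarith [hw.2]⟩
    rw [Real.dist_eq] at h1 h2 ⊢
    have h4 : φ z - Gs ψ σ z - (φ w - Gs ψ σ w) = (φ z - φ w) - (Gs ψ σ z - Gs ψ σ w) := by ring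
    rw [h4]
    refine (abs_sub _ _).trans ?_
    push_cast at h2 ⊢
    linarith
  obtain ⟨hi2, hI2⟩ := trace_ineq hFl (fun z _ _ => by rw [hper, hGper])
  -- the sets
  have hNm := ob_Nc_meas hg
  have hCm := measurableSet_cell (-y) (-y + 1)
  have hCN : Cell (-y) (-y + 1) ⊆ Nc y ψ := by
    intro z hz
    refine ⟨⟨hz.1, by linarith [hz.2.1], hz.2.2⟩, ?_⟩
    have := hg.tiny z hz.1.le hz.2.1
    change ‖ψ z‖ < 1
    linarith
  -- the pointwise inequality
  have hpw : ∀ᵐ z ∂(volume.restrict (Nc y ψ)), br (Ts ψ σ) f z +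
      (Cell (-y) (-y + 1)).indicator (fun z => 1 / 2 * gr2 (fun z => φ z - Gs ψ σ z) z) z ≤
      wx (xc (ψ z)) σ * lam z ^ 2 := by
    filter_upwards [ae_restrict_mem hNm, ae_restrict_of_ae hlip.ae_differentiableAt] with z hz hd
    have hz1 : -y < z.re := hz.1.1
    have hz2 : z.re ≤ 1 := hz.1.2.1
    have hlt : ‖ψ z‖ < 1 := hz.2
    have hder : HasDerivAt ψ (deriv ψ z) z := (hg.diff z (by linarith)).hasDerivAt
    have hw0 : 0 ≤ wx (xc (ψ z)) σ := wx_nonneg (norm_xc_lt hlt) σ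
    have h1 := wx_gr2 hder hlt σ hd
    have h2 := gr2_le (hgrad z (by rw [abs_lt]; constructor <;> linarith))
    have h3 : br (Ts ψ σ) f z = br (Ts ψ σ) (fun z => 2 * φ z - Gs ψ σ z) z := by
      have h4 : f =ᶠ[nhds z] fun z => 2 * φ z - Gs ψ σ z := by
        have : {z : ℂ | z.re < 2} ∈ nhds z :=
          (isOpen_lt Complex.continuous_re continuous_const).mem_nhds (by
            change z.re < 2
            linarith)
        filter_upwards [this] with w hw
        simp only [hf]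
        rw [obc_id (le_of_lt hw)]
      unfold br
      rw [h4.fderiv_eq]
    have h5 : wx (xc (ψ z)) σ * gr2 φ z ≤ wx (xc (ψ z)) σ * lam z ^ 2 :=
      mul_le_mul_of_nonneg_left h2 hw0
    have hg0 : 0 ≤ gr2 (fun z => φ z - Gs ψ σ z) z := by unfold gr2; positivity
    have h6 : (Cell (-y) (-y + 1)).indicator (fun z => 1 / 2 * gr2 (fun z => φ z - Gs ψ σ z) z) z ≤
        wx (xc (ψ z)) σ * gr2 (fun z => φ z - Gs ψ σ z) z := by
      by_cases hc : z ∈ Cell (-y) (-y + 1)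
      · rw [indicator_of_mem hc]
        apply mul_le_mul_of_nonneg_right _ hg0
        have h7 := hg.tiny z hc.1.le hc.2.1
        have h8 := norm_xc_le' (ψ z)
        have h9 : ‖xc (ψ z)‖ ≤ 1 / 2 := by linarith
        have h10 := norm_nonneg (xc (ψ z))
        have h11 := abs_inn_le (xc (ψ z)) σ
        have h12 : inn (xc (ψ z)) σ ^ 2 ≤ 1 / 4 := by
          rw [← sq_abs]
          have := pow_le_pow_left₀ (abs_nonneg _) (h11.trans h9) 2
          norm_num at this ⊢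
          linarith
        unfold wx
        rw [le_div_iff₀ (by linarith)]
        have h13 : 1 / 2 ≤ √(1 - ‖xc (ψ z)‖ ^ 2) := by
          apply le_sqrt_of_sq_le
          nlinarith
        nlinarith [sq_nonneg (inn (xc (ψ z)) σ)]
      · rw [indicator_of_notMem hc]
        exact mul_nonneg hw0 hg0
    rw [h3]
    linarith
  have hind : IntegrableOn ((Cell (-y) (-y + 1)).indicator
      (fun z => 1 / 2 * gr2 (fun z => φ z - Gs ψ σ z) z)) (Nc y ψ) := by
    have h1 : IntegrableOn (fun z => 1 / 2 * gr2 (fun z => φ z - Gs ψ σ z) z)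
      (Cell (-y) (-y + 1)) := hi2.const_mul (1 / 2)
    exact (h1.integrable_indicator hCm).integrableOn
  have hmono := integral_mono_ae (hi1.add hind) hi hpw
  have hadd : ∫ z in Nc y ψ, (br (Ts ψ σ) f + (Cell (-y) (-y + 1)).indicator
      (fun z => 1 / 2 * gr2 (fun z => φ z - Gs ψ σ z) z)) z =
      (∫ z in Nc y ψ, br (Ts ψ σ) f z) +
        1 / 2 * ∫ z in Cell (-y) (-y + 1), gr2 (fun z => φ z - Gs ψ σ z) z := by
    simp only [Pi.add_apply]
    rw [integral_add hi1 hind, setIntegral_indicator hCm, inter_eq_right.2 hCN,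
      integral_const_mul]
  rw [hadd, hI1] at hmono
  have hhs0 : 0 ≤ hs (fun θ => φ (pt (-y) θ) - Gs ψ σ (pt (-y) θ)) := by
    unfold hs hsC
    exact tsum_nonneg fun n => by positivity
  nlinarith [pi_gt_three, hI2]

end Pool.Agent.CC57
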