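import Pool.Agent.CC57.Rect

set_option autoImplicit false

/-!
Change of variables for periodic functions.  Let `U = Cell a b`, `om` injective on `U` modulo periods,
`V = om '' U`, and let `S` be the set of all `z + 2πi n`, `z ∈ V`, `n ∈ ℤ`.
`per_integral`: `V` is measurable, its translates by `2πi n` are pairwise disjoint, `g` is
`2πi`-periodic and integrable on `V`.  Then
`∫_V g = ∑_n ∫_{V ∩ {2πn < im ≤ 2π(n+1)}} g = ∑_n ∫_{(V - 2πi n) ∩ {0 < im ≤ 2π}} g
= ∫_{S ∩ {0 < im ≤ 2π}} g`.
-/

open Real MeasureTheory Set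

namespace Pool.Agent.CC57

theorem per_int {g : ℂ → ℝ} (hg : ∀ z, g (z + 2 * π * Complex.I) = g z) (n : ℤ) (z : ℂ) :
    g (z + 2 * π * n * Complex.I) = g z := by
  have h : Function.Periodic g (2 * π * Complex.I) := hg
  have h1 := h.int_mul n z
  rw [← h1]
  congr 1
  ring

theorem im_shift (n : ℤ) (z : ℂ) : (z + 2 * π * n * Complex.I).im = z.im + 2 * π * n := by
  simp [Complex.add_im, Complex.mul_im]

theorem per_setInt {g : ℂ → ℝ} (hg : ∀ z, g (z + 2 * π * Complex.I) = g z)
    (n : ℤ) (A B : Set ℂ) (hB : B = (fun z : ℂ => z + 2 * π * n * Complex.I) ⁻¹' A) :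
    ∫ z in A, g z = ∫ z in B, g z := by
  have hp : MeasurePreserving (fun z : ℂ => z + 2 * π * n * Complex.I) volume volume :=
    measurePreserving_add_right volume _
  have he : MeasurableEmbedding (fun z : ℂ => z + 2 * π * n * Complex.I) :=
    (MeasurableEquiv.addRight (2 * π * n * Complex.I : ℂ)).measurableEmbedding
  rw [← hp.setIntegral_preimage_emb he g A, hB]
  refine integral_congr_ae (Filter.Eventually.of_forall fun z => ?_)
  exact per_int hg n z

theorem per_intOn {g : ℂ → ℝ} (hg : ∀ z, g (z + 2 * π * Complex.I) = g z)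
    (n : ℤ) (A B : Set ℂ) (hB : B = (fun z : ℂ => z + 2 * π * n * Complex.I) ⁻¹' A)
    (hA : IntegrableOn g A) : IntegrableOn g B := by
  have hp : MeasurePreserving (fun z : ℂ => z + 2 * π * n * Complex.I) volume volume :=
    measurePreserving_add_right volume _
  have he : MeasurableEmbedding (fun z : ℂ => z + 2 * π * n * Complex.I) :=
    (MeasurableEquiv.addRight (2 * π * n * Complex.I : ℂ)).measurableEmbedding
  have h1 := (hp.integrableOn_comp_preimage he).2 hA
  rw [← hB] at h1
  have h2 : g ∘ (fun z : ℂ => z + 2 * π * n * Complex.I) = g := by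
    funext z
    exact per_int hg n z
  rwa [h2] at h1

theorem per_integral {V : Set ℂ} (hV : MeasurableSet V)
    (hd : ∀ z ∈ V, ∀ n : ℤ, n ≠ 0 → z + 2 * π * n * Complex.I ∉ V) {g : ℂ → ℝ}
    (hg : ∀ z, g (z + 2 * π * Complex.I) = g z) (hi : IntegrableOn g V) :
    IntegrableOn g {z | 0 < z.im ∧ z.im ≤ 2 * π ∧ ∃ n : ℤ, z + 2 * π * n * Complex.I ∈ V} ∧
    ∫ z in V, g z = ∫ z in {z | 0 < z.im ∧ z.im ≤ 2 * π ∧ ∃ n : ℤ,
      z + 2 * π * n * Complex.I ∈ V}, g z := by
  have hpi : 0 < 2 * π := by positivity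
  set A : ℤ → Set ℂ := fun n => V ∩ Complex.im ⁻¹' Ioc (2 * π * n) (2 * π * (n + 1)) with hA
  set B : ℤ → Set ℂ := fun n => (fun z : ℂ => z + 2 * π * n * Complex.I) ⁻¹' A n with hB
  have hAm : ∀ n, MeasurableSet (A n) := fun n =>
    hV.inter (Complex.measurable_im measurableSet_Ioc)
  have hBm : ∀ n, MeasurableSet (B n) := fun n =>
    (measurable_id.add_const _) (hAm n)
  have hBmem : ∀ n z, z ∈ B n ↔ 0 < z.im ∧ z.im ≤ 2 * π ∧ z + 2 * π * n * Complex.I ∈ V := by
    intro n z
    simp only [hB, hA, mem_preimage, mem_inter_iff, mem_Ioc, im_shift]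
    constructor
    · rintro ⟨h1, h2, h3⟩
      exact ⟨by linarith, by linarith, h1⟩
    · rintro ⟨h1, h2, h3⟩
      exact ⟨h3, by linarith, by linarith⟩
  have hAd : Pairwise (Function.onFun Disjoint A) := by
    intro m n hmn
    rw [Function.onFun, Set.disjoint_left]
    rintro z ⟨-, h1, h2⟩ ⟨-, h3, h4⟩
    apply hmn
    have h5 : (m : ℝ) < n + 1 := by
      have := h1.trans_le h4
      exact lt_of_mul_lt_mul_left this hpi.le
    have h6 : (n : ℝ) < m + 1 := by
      have := h3.trans_le h2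
      exact lt_of_mul_lt_mul_left this hpi.le
    have h7 : m < n + 1 := by exact_mod_cast h5
    have h8 : n < m + 1 := by exact_mod_cast h6
    omega
  have hBd : Pairwise (Function.onFun Disjoint B) := by
    intro m n hmn
    rw [Function.onFun, Set.disjoint_left]
    intro z h1 h2
    rw [hBmem] at h1 h2
    refine hd _ h1.2.2 (n - m) (sub_ne_zero.2 (Ne.symm hmn)) ?_
    have : z + 2 * π * m * Complex.I + 2 * π * ((n - m : ℤ) : ℂ) * Complex.I =
        z + 2 * π * n * Complex.I := by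
      push_cast
      ring
    rw [this]
    exact h2.2.2
  have hAU : (⋃ n, A n) = V := by
    ext z
    simp only [mem_iUnion]
    constructor
    · rintro ⟨n, h, -⟩
      exact h
    · intro h
      refine ⟨⌈z.im / (2 * π)⌉ - 1, h, ?_, ?_⟩
      · have := Int.ceil_lt_add_one (z.im / (2 * π))
        push_cast
        have h1 : (⌈z.im / (2 * π)⌉ : ℝ) - 1 < z.im / (2 * π) := by linarith
        rw [lt_div_iff₀ hpi] at h1
        linarith
      · have := Int.le_ceil (z.im / (2 * π))
        rw [div_le_iff₀ hpi] at this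
        push_cast
        linarith
  have hBU : (⋃ n, B n) = {z | 0 < z.im ∧ z.im ≤ 2 * π ∧ ∃ n : ℤ,
      z + 2 * π * n * Complex.I ∈ V} := by
    ext z
    simp only [mem_iUnion, mem_setOf_eq, hBmem]
    constructor
    · rintro ⟨n, h1, h2, h3⟩
      exact ⟨h1, h2, n, h3⟩
    · rintro ⟨h1, h2, n, h3⟩
      exact ⟨n, h1, h2, h3⟩
  have hiA : ∀ n, IntegrableOn g (A n) := fun n => hi.mono_set inter_subset_left
  have hiB : ∀ n, IntegrableOn g (B n) := fun n => per_intOn hg n (A n) (B n) rfl (hiA n)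
  have hs : Summable fun n => ∫ z in B n, ‖g z‖ := by
    have h1 : ∀ n, ∫ z in A n, ‖g z‖ = ∫ z in B n, ‖g z‖ := fun n =>
      per_setInt (g := fun z => ‖g z‖) (fun z => by simp only [hg z]) n (A n) (B n) rfl
    have h2 : HasSum (fun n => ∫ z in A n, ‖g z‖) (∫ z in ⋃ n, A n, ‖g z‖) :=
      hasSum_integral_iUnion hAm hAd (by rw [hAU]; exact hi.norm)
    simp only [h1] at h2
    exact h2.summable
  have hiU : IntegrableOn g (⋃ n, B n) := integrableOn_iUnion_of_summable_integral_norm hiB hs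
  refine ⟨by rw [← hBU]; exact hiU, ?_⟩
  rw [← hBU, integral_iUnion hBm hBd hiU]
  conv_lhs => rw [← hAU]
  rw [integral_iUnion hAm hAd (by rw [hAU]; exact hi)]
  congr 1
  funext n
  exact per_setInt hg n (A n) (B n) rfl

end Pool.Agent.CC57
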