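import Mathlib

set_option autoImplicit false

/-!
From the pointwise Lipschitz constant to segments.  `S` is convex, `lam` continuous,
`limsup_{w → z, w ∈ S} |f w - f z| / ‖w - z‖ ≤ lam z` for all `z ∈ S`.  For `z, w ∈ S` let
`g t = f (z + t (w - z))`, `t ∈ [0,1]`; `g` is continuous on `[0,1]` and for every `t` and
`c > lam (z + t (w - z)) ‖w - z‖`, `|g t' - g t| ≤ c |t' - t|` for `t' > t` close to `t`.  Compare with
`B t = ∫_0^t lam(...)‖w - z‖ + η t`: `image_norm_le_of_liminf_right_slope_norm_lt_deriv_boundary` (for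
`g t - g 0`), then `η → 0`.
The version for maps to a metric space: apply it to `f = dist (Ψ z) (Ψ ·)`.
Gradient: at an interior point `z`, if `f` is differentiable then `|fderiv f z v| ≤ c ‖v‖` for all
`c > lam z`.
Mathlib only.
-/

open Set MeasureTheory

namespace Pool.Agent.CC57

private theorem cont_of_pt {lam : ℂ → ℝ} {S : Set ℂ} {f : ℂ → ℝ} {z : ℂ}
    (h : ∀ c, lam z < c → ∀ᶠ w in nhdsWithin z S, |f w - f z| ≤ c * ‖w - z‖) :
    ContinuousWithinAt f S z := by
  have h1 := h (lam z + 1) (by linarith)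
  rw [ContinuousWithinAt, tendsto_iff_dist_tendsto_zero]
  have h2 : Filter.Tendsto (fun w => (lam z + 1) * ‖w - z‖) (nhdsWithin z S) (nhds 0) := by
    have h3 : Continuous fun w : ℂ => (lam z + 1) * ‖w - z‖ := by fun_prop
    have h4 := (h3.tendsto z).mono_left (nhdsWithin_le_nhds (s := S))
    simpa using h4
  refine squeeze_zero' (Filter.Eventually.of_forall fun w => dist_nonneg) ?_ h2
  filter_upwards [h1] with w hw
  rw [Real.dist_eq]
  exact hw

theorem seg_le {lam : ℂ → ℝ} (hlam : Continuous lam) {S : Set ℂ} (hS : Convex ℝ S) {f : ℂ → ℝ}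
    (h : ∀ z ∈ S, ∀ c, lam z < c → ∀ᶠ w in nhdsWithin z S, |f w - f z| ≤ c * ‖w - z‖)
    {z w : ℂ} (hz : z ∈ S) (hw : w ∈ S) :
    |f w - f z| ≤ (∫ t in (0 : ℝ)..1, lam (z + t * (w - z))) * ‖w - z‖ := by
  rcases eq_or_ne w z with hwz | hwz
  · rw [hwz, sub_self, sub_self, norm_zero, mul_zero, abs_zero]
  have hL : 0 < ‖w - z‖ := norm_pos_iff.2 (sub_ne_zero.2 hwz)
  set L : ℝ := ‖w - z‖ with hLdef
  obtain ⟨γ, hγ⟩ : ∃ γ : ℝ → ℂ, γ = fun t : ℝ => z + t * (w - z) := ⟨_, rfl⟩
  have hγc : Continuous γ := by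
    rw [hγ]
    fun_prop
  have hγS : ∀ t ∈ Icc (0 : ℝ) 1, γ t ∈ S := by
    rintro t ⟨h0, h1⟩
    have h2 := hS hz hw (by linarith : (0 : ℝ) ≤ 1 - t) h0 (by ring)
    have e : (1 - t) • z + t • w = γ t := by
      rw [hγ, Complex.real_smul, Complex.real_smul]
      push_cast
      ring
    rwa [e] at h2
  have hγd : ∀ s t : ℝ, ‖γ t - γ s‖ = |t - s| * L := by
    intro s t
    have e : γ t - γ s = ((t - s : ℝ) : ℂ) * (w - z) := by
      rw [hγ]
      push_cast
      ring
    rw [e, norm_mul, Complex.norm_real, Real.norm_eq_abs]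
  obtain ⟨g, hg⟩ : ∃ g : ℝ → ℝ, g = fun t => f (γ t) - f z := ⟨_, rfl⟩
  have hgc : ContinuousOn g (Icc 0 1) := by
    rw [hg]
    refine ContinuousOn.sub ?_ continuousOn_const
    intro t ht
    exact (cont_of_pt (h (γ t) (hγS t ht))).comp hγc.continuousWithinAt hγS
  have hlg : Continuous fun s : ℝ => lam (γ s) := hlam.comp hγc
  have hBd : ∀ (η x : ℝ), HasDerivAt (fun t => (∫ s in (0 : ℝ)..t, lam (γ s)) * L + η * t)
      (lam (γ x) * L + η * 1) x := fun η x =>
    (((hlg.integral_hasStrictDerivAt 0 x).hasDerivAt).mul_const L).add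
      ((hasDerivAt_id x).const_mul η)
  have key : ∀ η : ℝ, 0 < η → ‖g 1‖ ≤ (∫ s in (0 : ℝ)..1, lam (γ s)) * L + η * 1 := by
    intro η hη
    refine image_norm_le_of_liminf_right_slope_norm_lt_deriv_boundary (f := g) (a := 0) (b := 1)
      (f' := fun t => lam (γ t) * L) (B := fun t => (∫ s in (0 : ℝ)..t, lam (γ s)) * L + η * t)
      (B' := fun t => lam (γ t) * L + η * 1) hgc ?_ ?_ ?_ ?_ ?_
      (right_mem_Icc.2 zero_le_one)
    · intro x hx r hr
      have hx' : x ∈ Icc (0 : ℝ) 1 := ⟨hx.1, hx.2.le⟩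
      have hr' : lam (γ x) < r / L := by
        rw [lt_div_iff₀ hL]
        exact hr
      obtain ⟨c, hc1, hc2⟩ := exists_between hr'
      have h1 := h (γ x) (hγS x hx') c hc1
      have h2 : Filter.Tendsto γ (nhdsWithin x (Ioi x)) (nhdsWithin (γ x) S) := by
        refine tendsto_nhdsWithin_iff.2 ⟨hγc.continuousAt.tendsto.mono_left nhdsWithin_le_nhds, ?_⟩
        have h3 : Ioo x 1 ∈ nhdsWithin x (Ioi x) := Ioo_mem_nhdsGT hx.2
        filter_upwards [h3] with t ht
        exact hγS t ⟨hx.1.trans ht.1.le, ht.2.le⟩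
      have h4 : ∀ᶠ t in nhdsWithin x (Ioi x), slope (norm ∘ g) x t < r := by
        filter_upwards [h2.eventually h1, self_mem_nhdsWithin] with t ht hxt
        have hxt' : 0 < t - x := sub_pos.2 hxt
        rw [slope_def_field, div_lt_iff₀ hxt']
        have h5 : (norm ∘ g) t - (norm ∘ g) x ≤ |f (γ t) - f (γ x)| := by
          have h6 := abs_norm_sub_norm_le (g t) (g x)
          have h7 : g t - g x = f (γ t) - f (γ x) := by
            rw [hg]
            ring
          rw [h7, Real.norm_eq_abs (f (γ t) - f (γ x))] at h6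
          exact (le_abs_self _).trans h6
        rw [hγd, abs_of_pos hxt'] at ht
        have h8 : c * L < r := by
          rw [lt_div_iff₀ hL] at hc2
          exact hc2
        have h9 : c * ((t - x) * L) < r * (t - x) := by
          have := mul_lt_mul_of_pos_right h8 hxt'
          linarith
        linarith
      exact h4.frequently
    · rw [hg, hγ]
      simp
    · exact fun x _ => (hBd η x).continuousAt.continuousWithinAt
    · intro x _
      exact (hBd η x).hasDerivWithinAt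
    · intro x _ _
      linarith
  have e : g 1 = f w - f z := by
    rw [hg, hγ]
    simp
  rw [e, Real.norm_eq_abs] at key
  have e2 : (∫ s in (0 : ℝ)..1, lam (γ s)) = ∫ t in (0 : ℝ)..1, lam (z + t * (w - z)) := by
    rw [hγ]
  rw [← e2]
  refine le_of_forall_pos_le_add fun η hη => ?_
  have := key η hη
  linarith

theorem seg_le_dist {X : Type} [MetricSpace X] {lam : ℂ → ℝ} (hlam : Continuous lam) {S : Set ℂ}
    (hS : Convex ℝ S) {Ψ : ℂ → X}
    (h : ∀ z ∈ S, ∀ c, lam z < c → ∀ᶠ w in nhdsWithin z S, dist (Ψ w) (Ψ z) ≤ c * ‖w - z‖)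
    {z w : ℂ} (hz : z ∈ S) (hw : w ∈ S) :
    dist (Ψ w) (Ψ z) ≤ (∫ t in (0 : ℝ)..1, lam (z + t * (w - z))) * ‖w - z‖ := by
  have h1 := seg_le (f := fun u => dist (Ψ u) (Ψ z)) hlam hS (fun z' hz' c hc => by
    filter_upwards [h z' hz' c hc] with w' hw'
    refine le_trans ?_ hw'
    exact abs_dist_sub_le _ _ _) hz hw
  simp only [dist_self, sub_zero, abs_of_nonneg dist_nonneg] at h1
  exact h1

theorem norm_fderiv_le_of_pt {f : ℂ → ℝ} {z : ℂ} {l : ℝ} (hl : 0 ≤ l)
    (h : ∀ c, l < c → ∀ᶠ w in nhds z, |f w - f z| ≤ c * ‖w - z‖) : ‖fderiv ℝ f z‖ ≤ l := by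
  by_cases hd : DifferentiableAt ℝ f z
  · refine le_of_forall_pos_le_add fun ε hε => ?_
    refine hd.hasFDerivAt.le_of_lip' (by linarith) ?_
    filter_upwards [h (l + ε) (by linarith)] with w hw
    rw [Real.norm_eq_abs]
    exact hw
  · rw [fderiv_zero_of_not_differentiableAt hd, norm_zero]
    exact hl

end Pool.Agent.CC57
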