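import Pool.Agent.CC57.FDist
import Pool.Agent.CC57.PtLip
import Pool.Agent.CC57.PsiB

set_option autoImplicit false

/-!
The functions on the Moebius band.  `F` as in `exists_F`.  `Phat p x` is `F (Ψ p) x` for `p ∈ D` and
`-F (Ψ (tau p)) x` otherwise; `Phi p z` is `Phat p (Ψ z)` for `z ∈ D` and `-Phat p (Ψ (tau z))` otherwise.
All statements concern the strip `|Re z| ≤ L`.

Key remark: if `z ∈ D` and `tau z ∈ D` then `Phat z = -F (Ψ (tau z))` as well (`seam` and
`F (γ (-s)) x = -F (γ s) x`), and `Phi p z = -Phat p (Ψ (tau z))` (`F P (γ (-s)) = -F P (γ s)`).  So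
the alternatives agree on the seam.
* `Phat_pt`: pointwise Lipschitz bound in `p`, uniformly in `x`.  Let `p` be in the strip, `c > lam p`.
  If `p ∈ D`: for `p' ∈ D` near `p`, `|Phat p' x - Phat p x| ≤ dist (Ψ p') (Ψ p) ≤ c ‖p' - p‖` (`lip`).  If
  `tau p ∉ D`, then (D closed) all `p'` near `p` have `tau p' ∉ D`, so `p' ∈ D`.  If `tau p ∈ D`, for
  `p' ∉ D`, `tau p' ∈ D` and by the key remark the difference is at most
  `dist (Ψ (tau p')) (Ψ (tau p)) ≤ c ‖tau p' - tau p‖ = c ‖p' - p‖`, as `lam (tau p) = lam p < c` and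
  `|Re (tau p')| ≤ L`.  If `p ∉ D` then `tau p ∈ D`, symmetric (`tau (tau p) = p + 2πi`, and `p'` near `p`
  is not in `D`).
* `Phi_pt`: the same in `z`.
* Then `seg_le` (the strip is convex) gives the Lipschitz bounds along segments; with `lam ≤ M` on the
  strip (continuous, periodic: bounded) both are `M`-Lipschitz.
* `Phat_tau`, `Phi_tau`: if `p ∈ D`, `tau p ∉ D`: `Phat (tau p) x = -F (Ψ (tau (tau p))) x = -F (Ψ p) x`
  (`tau_tau`, `per`), etc.; periodicity: `tau (p + 2πi) = tau p + 2πi`.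
* `Phi_self`: `Phi p p = π/2` in both cases.
-/

open Real Set MeasureTheory

namespace Pool.Agent.CC57

/-- The abstract properties of `F`. -/
structure IsF {X : Type} [MetricSpace X] (γ : Metric.sphere (0 : EuclideanSpace ℝ (Fin 2)) 1 → X)
    (F : X → X → ℝ) : Prop where
  lip_x : ∀ P x x', |F P x - F P x'| ≤ dist x x'
  lip_P : ∀ P P' x, |F P x - F P' x| ≤ dist P P'
  self : ∀ P, F P P = π / 2
  anti_x : ∀ P s, F P (γ (-s)) = -F P (γ s)
  anti_P : ∀ s x, F (γ (-s)) x = -F (γ s) x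
  bdd : ∀ P x, |F P x| ≤ π / 2

variable {X : Type} [MetricSpace X]

open Classical in
noncomputable def Phat (F : X → X → ℝ) (D : Set ℂ) (Ψ : ℂ → X) (p : ℂ) (x : X) : ℝ :=
  if p ∈ D then F (Ψ p) x else -F (Ψ (tau p)) x

open Classical in
noncomputable def Phi (F : X → X → ℝ) (D : Set ℂ) (Ψ : ℂ → X) (p z : ℂ) : ℝ :=
  if z ∈ D then Phat F D Ψ p (Ψ z) else -Phat F D Ψ p (Ψ (tau z))

variable {γ : Metric.sphere (0 : EuclideanSpace ℝ (Fin 2)) 1 → X} {F : X → X → ℝ} {L H : ℝ}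
  {lam : ℂ → ℝ} {D : Set ℂ} {Ψ : ℂ → X}

theorem exists_lam_bound (hC : IsCollar γ L H lam D Ψ) : ∃ M : ℝ, 0 ≤ M ∧
    ∀ z : ℂ, |z.re| ≤ L → lam z ≤ M := by
  have hK : IsCompact ((Icc (-L) L) ×ℂ (Icc (0 : ℝ) (2 * π))) :=
    isCompact_Icc.reProdIm isCompact_Icc
  obtain ⟨C, hC1⟩ := hK.exists_bound_of_continuousOn hC.lam_cont.continuousOn
  refine ⟨max C 0, le_max_right _ _, fun z hz => ?_⟩
  have hper : Function.Periodic lam (2 * π * Complex.I) := hC.lam_per
  have h2 : (0 : ℝ) < 2 * π := by positivity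
  have h1 := Int.floor_le (z.im / (2 * π))
  have h3 := Int.lt_floor_add_one (z.im / (2 * π))
  rw [le_div_iff₀ h2] at h1
  rw [div_lt_iff₀ h2] at h3
  set n : ℤ := ⌊z.im / (2 * π)⌋ with hn
  have h4 := hper.sub_zsmul_eq n (x := z)
  rw [← h4]
  refine le_trans ?_ (le_max_left C 0)
  refine (le_abs_self _).trans ?_
  rw [← Real.norm_eq_abs]
  apply hC1
  rw [Complex.mem_reProdIm]
  have e1 : (z - n • (2 * π * Complex.I)).re = z.re := by
    simp [zsmul_eq_mul]
  have e2 : (z - n • (2 * π * Complex.I)).im = z.im - n * (2 * π) := by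
    simp [zsmul_eq_mul]
  rw [e1, e2]
  refine ⟨abs_le.1 hz, ?_, ?_⟩
  · linarith
  · linarith

theorem Phat_lip_x (hF : IsF γ F) (p : ℂ) (x x' : X) :
    |Phat F D Ψ p x - Phat F D Ψ p x'| ≤ dist x x' := by
  unfold Phat
  split_ifs with h
  · exact hF.lip_x _ _ _
  · have h1 := hF.lip_x (Ψ (tau p)) x' x
    rw [dist_comm] at h1
    rwa [show -F (Ψ (tau p)) x - -F (Ψ (tau p)) x' = F (Ψ (tau p)) x' - F (Ψ (tau p)) x by ring]

theorem abs_Phat_le (hF : IsF γ F) (p : ℂ) (x : X) : |Phat F D Ψ p x| ≤ π / 2 := by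
  unfold Phat
  split_ifs with h
  · exact hF.bdd _ _
  · rw [abs_neg]
    exact hF.bdd _ _

private theorem continuous_tau : Continuous tau := by
  unfold tau
  exact (Complex.continuous_conj.neg).add continuous_const

private theorem norm_tau_sub (z w : ℂ) : ‖tau z - tau w‖ = ‖z - w‖ := by
  have e : tau z - tau w = -(starRingEnd ℂ) (z - w) := by
    unfold tau
    rw [map_sub]
    ring
  rw [e, norm_neg, Complex.norm_conj]

private theorem pt_aux {ι : Type} (G : ι → X → ℝ) (hG : ∀ i x x', |G i x - G i x'| ≤ dist x x')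
    (hγ : ∀ i s, G i (γ (-s)) = -G i (γ s)) (hC : IsCollar γ L H lam D Ψ) {z : ℂ}
    (hz : |z.re| ≤ L) {c : ℝ} (hc : lam z < c) (Q : ι → ℂ → ℝ)
    (h1 : ∀ i w, w ∈ D → Q i w = G i (Ψ w)) (h2 : ∀ i w, w ∉ D → Q i w = -G i (Ψ (tau w))) :
    ∀ᶠ z' in nhdsWithin z {w : ℂ | |w.re| ≤ L}, ∀ i, |Q i z' - Q i z| ≤ c * ‖z' - z‖ := by
  -- the two alternatives agree on the seam
  have h2' : ∀ i w, |w.re| ≤ L → tau w ∈ D → Q i w = -G i (Ψ (tau w)) := by
    intro i w hw htw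
    by_cases hwD : w ∈ D
    · obtain ⟨s, hs1, hs2⟩ := hC.seam w hwD htw hw
      rw [h1 i w hwD, hs1, hs2, hγ, neg_neg]
    · exact h2 i w hwD
  have htz : |(tau z).re| ≤ L := by
    rw [tau_re, abs_neg]
    exact hz
  have E1 : ∀ᶠ w in nhdsWithin z {w : ℂ | |w.re| ≤ L}, z ∈ D → w ∈ D →
      dist (Ψ w) (Ψ z) ≤ c * ‖w - z‖ := by
    by_cases hzD : z ∈ D
    · have h3 := hC.lip z hzD hz c hc
      rw [eventually_nhdsWithin_iff] at h3 ⊢
      filter_upwards [h3] with w hw hwS _ hwD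
      exact hw ⟨hwD, hwS⟩
    · exact Filter.Eventually.of_forall fun w h => absurd h hzD
  have E2 : ∀ᶠ w in nhdsWithin z {w : ℂ | |w.re| ≤ L}, tau z ∈ D → tau w ∈ D →
      dist (Ψ (tau w)) (Ψ (tau z)) ≤ c * ‖w - z‖ := by
    by_cases hzD : tau z ∈ D
    · have h3 := hC.lip (tau z) hzD htz c (by rw [hC.lam_tau z hz]; exact hc)
      rw [eventually_nhdsWithin_iff] at h3
      have h4 := (continuous_tau.tendsto z).eventually h3
      rw [eventually_nhdsWithin_iff]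
      filter_upwards [h4] with w hw hwS _ hwD
      have h5 := hw ⟨hwD, by
        show |(tau w).re| ≤ L
        rw [tau_re, abs_neg]
        exact hwS⟩
      rwa [norm_tau_sub] at h5
    · exact Filter.Eventually.of_forall fun w h => absurd h hzD
  have E3 : ∀ᶠ w in nhdsWithin z {w : ℂ | |w.re| ≤ L}, z ∉ D → w ∉ D := by
    by_cases hzD : z ∈ D
    · exact Filter.Eventually.of_forall fun w h => absurd hzD h
    · have h3 : Dᶜ ∈ nhds z := hC.closed.isOpen_compl.mem_nhds hzD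
      filter_upwards [mem_nhdsWithin_of_mem_nhds h3] with w hw _
      exact hw
  have E4 : ∀ᶠ w in nhdsWithin z {w : ℂ | |w.re| ≤ L}, tau z ∉ D → tau w ∉ D := by
    by_cases hzD : tau z ∈ D
    · exact Filter.Eventually.of_forall fun w h => absurd hzD h
    · have h3 : tau ⁻¹' Dᶜ ∈ nhds z :=
        (hC.closed.isOpen_compl.preimage continuous_tau).mem_nhds hzD
      filter_upwards [mem_nhdsWithin_of_mem_nhds h3] with w hw _
      exact hw
  filter_upwards [E1, E2, E3, E4, self_mem_nhdsWithin] with w e1 e2 e3 e4 hwS i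
  rcases hC.cover w hwS with hwD | hwD
  · have hzD : z ∈ D := by
      by_contra h
      exact e3 h hwD
    rw [h1 i w hwD, h1 i z hzD]
    exact (hG i _ _).trans (e1 hzD hwD)
  · have hzD : tau z ∈ D := by
      by_contra h
      exact e4 h hwD
    rw [h2' i w hwS hwD, h2' i z hz hzD]
    have h5 := hG i (Ψ (tau w)) (Ψ (tau z))
    rw [show -G i (Ψ (tau w)) - -G i (Ψ (tau z)) = -(G i (Ψ (tau w)) - G i (Ψ (tau z))) by ring,
      abs_neg]
    exact h5.trans (e2 hzD hwD)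

theorem Phat_pt (hC : IsCollar γ L H lam D Ψ) (hF : IsF γ F) {p : ℂ} (hp : |p.re| ≤ L) {c : ℝ}
    (hc : lam p < c) : ∀ᶠ p' in nhdsWithin p {w : ℂ | |w.re| ≤ L}, ∀ x,
      |Phat F D Ψ p' x - Phat F D Ψ p x| ≤ c * ‖p' - p‖ :=
  pt_aux (fun (x : X) (P : X) => F P x) (fun x P P' => hF.lip_P P P' x)
    (fun x s => hF.anti_P s x) hC hp hc (fun x p => Phat F D Ψ p x)
    (fun x w hw => by unfold Phat; rw [if_pos hw]) (fun x w hw => by unfold Phat; rw [if_neg hw])

theorem Phi_pt (hC : IsCollar γ L H lam D Ψ) (hF : IsF γ F) (p : ℂ) {z : ℂ} (hz : |z.re| ≤ L)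
    {c : ℝ} (hc : lam z < c) : ∀ᶠ z' in nhdsWithin z {w : ℂ | |w.re| ≤ L},
      |Phi F D Ψ p z' - Phi F D Ψ p z| ≤ c * ‖z' - z‖ := by
  have h := pt_aux (fun (_ : Unit) (x : X) => Phat F D Ψ p x)
    (fun _ x x' => Phat_lip_x hF p x x')
    (fun _ s => by
      unfold Phat
      split_ifs
      · exact hF.anti_x _ s
      · rw [hF.anti_x]) hC hz hc (fun _ z => Phi F D Ψ p z)
    (fun _ w hw => by unfold Phi; rw [if_pos hw]) (fun _ w hw => by unfold Phi; rw [if_neg hw])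
  filter_upwards [h] with w hw
  exact hw ()

end Pool.Agent.CC57
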