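import Pool.Agent.CC57.Phi

set_option autoImplicit false

/-!
Consequences of `Phat_pt`, `Phi_pt` (see the header of `Phi`): bounds along segments (`seg_le`, the strip
is convex), periodicity, behaviour under `tau`, value at the base point.
-/

open Real Set MeasureTheory

namespace Pool.Agent.CC57

variable {X : Type} [MetricSpace X]
  {γ : Metric.sphere (0 : EuclideanSpace ℝ (Fin 2)) 1 → X} {F : X → X → ℝ} {L H : ℝ}
  {lam : ℂ → ℝ} {D : Set ℂ} {Ψ : ℂ → X}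

private theorem convex_strip (L : ℝ) : Convex ℝ {w : ℂ | |w.re| ≤ L} := by
  have e : {w : ℂ | |w.re| ≤ L} = Complex.reLm ⁻¹' (Icc (-L) L) := by
    ext w
    simp [abs_le]
  rw [e]
  exact (convex_Icc _ _).linear_preimage _

private theorem Phat_anti (hF : IsF γ F) (p : ℂ)
    (s : Metric.sphere (0 : EuclideanSpace ℝ (Fin 2)) 1) :
    Phat F D Ψ p (γ (-s)) = -Phat F D Ψ p (γ s) := by
  unfold Phat
  split_ifs
  · exact hF.anti_x _ s
  · rw [hF.anti_x]

private theorem tau_add (z : ℂ) : tau (z + 2 * π * Complex.I) = tau z + 2 * π * Complex.I := by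
  unfold tau
  rw [map_add, map_mul, map_mul, Complex.conj_I, Complex.conj_ofReal, map_ofNat]
  ring

theorem Phat_seg (hC : IsCollar γ L H lam D Ψ) (hF : IsF γ F) {p p' : ℂ} (hp : |p.re| ≤ L)
    (hp' : |p'.re| ≤ L) (x : X) : |Phat F D Ψ p' x - Phat F D Ψ p x| ≤
      (∫ t in (0 : ℝ)..1, lam (p + t * (p' - p))) * ‖p' - p‖ :=
  seg_le (f := fun p => Phat F D Ψ p x) hC.lam_cont (convex_strip L)
    (fun z hz c hc => by
      filter_upwards [Phat_pt hC hF hz hc] with w hw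
      exact hw x) hp hp'

theorem Phi_seg (hC : IsCollar γ L H lam D Ψ) (hF : IsF γ F) (p : ℂ) {z z' : ℂ}
    (hz : |z.re| ≤ L) (hz' : |z'.re| ≤ L) : |Phi F D Ψ p z' - Phi F D Ψ p z| ≤
      (∫ t in (0 : ℝ)..1, lam (z + t * (z' - z))) * ‖z' - z‖ :=
  seg_le (f := fun z => Phi F D Ψ p z) hC.lam_cont (convex_strip L)
    (fun _ hz _ hc => Phi_pt hC hF p hz hc) hz hz'

theorem Phi_seg_p (hC : IsCollar γ L H lam D Ψ) (hF : IsF γ F) {p p' : ℂ} (hp : |p.re| ≤ L)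
    (hp' : |p'.re| ≤ L) (z : ℂ) : |Phi F D Ψ p' z - Phi F D Ψ p z| ≤
      (∫ t in (0 : ℝ)..1, lam (p + t * (p' - p))) * ‖p' - p‖ := by
  unfold Phi
  split_ifs with h
  · exact Phat_seg hC hF hp hp' _
  · rw [show -Phat F D Ψ p' (Ψ (tau z)) - -Phat F D Ψ p (Ψ (tau z)) =
      -(Phat F D Ψ p' (Ψ (tau z)) - Phat F D Ψ p (Ψ (tau z))) by ring, abs_neg]
    exact Phat_seg hC hF hp hp' _

private theorem tau_mem (hC : IsCollar γ L H lam D Ψ) {z : ℂ} (hz : |z.re| ≤ L) (h : z ∉ D) :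
    tau z ∈ D := (hC.cover z hz).resolve_left h

theorem Phat_per (hC : IsCollar γ L H lam D Ψ) {p : ℂ} (hp : |p.re| ≤ L) (x : X) :
    Phat F D Ψ (p + 2 * π * Complex.I) x = Phat F D Ψ p x := by
  unfold Phat
  by_cases h : p ∈ D
  · rw [if_pos h, if_pos (hC.per p h).1, (hC.per p h).2]
  · rw [if_neg h, if_neg (fun h' => h (hC.per' p h')), tau_add,
      (hC.per (tau p) (tau_mem hC hp h)).2]

theorem Phi_per (hC : IsCollar γ L H lam D Ψ) (p : ℂ) {z : ℂ} (hz : |z.re| ≤ L) :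
    Phi F D Ψ p (z + 2 * π * Complex.I) = Phi F D Ψ p z := by
  unfold Phi
  by_cases h : z ∈ D
  · rw [if_pos h, if_pos (hC.per z h).1, (hC.per z h).2]
  · rw [if_neg h, if_neg (fun h' => h (hC.per' z h')), tau_add,
      (hC.per (tau z) (tau_mem hC hz h)).2]

theorem Phi_tau (hC : IsCollar γ L H lam D Ψ) (hF : IsF γ F) (p : ℂ) {z : ℂ} (hz : |z.re| ≤ L) :
    Phi F D Ψ p (tau z) = -Phi F D Ψ p z := by
  have htz : |(tau z).re| ≤ L := by
    rw [tau_re, abs_neg]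
    exact hz
  by_cases h : z ∈ D
  · have h1 : Phi F D Ψ p z = Phat F D Ψ p (Ψ z) := by unfold Phi; rw [if_pos h]
    rw [h1]
    by_cases h2 : tau z ∈ D
    · obtain ⟨s, hs1, hs2⟩ := hC.seam z h h2 hz
      have h3 : Phi F D Ψ p (tau z) = Phat F D Ψ p (Ψ (tau z)) := by unfold Phi; rw [if_pos h2]
      rw [h3, hs1, hs2, Phat_anti hF]
    · have h3 : Phi F D Ψ p (tau z) = -Phat F D Ψ p (Ψ (tau (tau z))) := by
        unfold Phi
        rw [if_neg h2]
      rw [h3, tau_tau, (hC.per z h).2]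
  · have h1 : Phi F D Ψ p z = -Phat F D Ψ p (Ψ (tau z)) := by unfold Phi; rw [if_neg h]
    have h2 := tau_mem hC hz h
    have h3 : Phi F D Ψ p (tau z) = Phat F D Ψ p (Ψ (tau z)) := by unfold Phi; rw [if_pos h2]
    rw [h1, h3, neg_neg]

theorem Phi_self (hF : IsF γ F) (p : ℂ) : Phi F D Ψ p p = π / 2 := by
  unfold Phi Phat
  by_cases h : p ∈ D
  · rw [if_pos h, if_pos h, hF.self]
  · rw [if_neg h, if_neg h, neg_neg, hF.self]

end Pool.Agent.CC57
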