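import Pool.Agent.CC57.Near
import Pool.Agent.CC57.Chg

set_option autoImplicit false

/-!
Stokes formula with poles.  `f` is Lipschitz on the strip `-y ≤ Re z ≤ 3` and periodic.  Let
`χ z = max 0 (min 1 (2 (Re z + 1)))`, so `χ = 0` for `Re z ≤ -1`, `χ = 1` for `Re z ≥ -1/2`;
`f = χ f + (1 - χ) f`, both parts are Lipschitz (products of bounded Lipschitz functions; `f` is bounded
on the strip by periodicity) on the strip.
* `χ f` (extended by `0` to `Re z < -y`; it is zero for `Re z ≤ -1`): by `chg` and `near` applied to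
  `(χ f) ∘ om` (zero for `Re z ≤ -3/2` as `|Re om z - Re z| ≤ 1/8`; `om_lip`; `om_per`):
  `∫_{Nc} br T (χ f) = 2 (χ f)(om (iσ)) - 2 (χ f)(om (i(σ+π))) = 2 f (om (iσ)) - 2 f (tau (om (iσ)))`, as
  `i(σ+π) = tau (iσ)` and `om (tau z) = tau (om z)`, and `Re om (iσ) ≥ -1/8`.
* `(1-χ) f`: it vanishes for `Re z ≥ -1/2`, and for `-y < Re z ≤ -1/2` the point is in `Nc` (`small`).
  `rect_stokes` on `-y ≤ Re z ≤ -1/2` with `A = (1-χ) f`, `B = Ts ψ σ` (`Ts_lip`):
  `∫ = 0 - ∮ f(pt (-y) θ) T_θ`, as `χ (pt (-y) θ) = 0`.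
`br T` is additive at points where both functions are differentiable (a.e.).
-/

open Real MeasureTheory Set

namespace Pool.Agent.CC57

/-- The cut-off function. -/
private noncomputable def psc (z : ℂ) : ℝ := max 0 (min 1 (2 * (z.re + 1)))

private lemma psc_nonneg (z : ℂ) : 0 ≤ psc z := le_max_left _ _

private lemma psc_le (z : ℂ) : psc z ≤ 1 := max_le (by norm_num) (min_le_left _ _)

private lemma psc_abs (z : ℂ) : |psc z| ≤ 1 := by
  rw [abs_of_nonneg (psc_nonneg z)]; exact psc_le z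

private lemma psc_abs' (z : ℂ) : |1 - psc z| ≤ 1 := by
  rw [abs_le]; constructor <;> linarith [psc_nonneg z, psc_le z]

private lemma psc_zero {z : ℂ} (hz : z.re ≤ -1) : psc z = 0 := by
  unfold psc
  apply max_eq_left
  exact (min_le_right _ _).trans (by linarith)

private lemma psc_one {z : ℂ} (hz : -1 / 2 ≤ z.re) : psc z = 1 := by
  unfold psc
  rw [min_eq_left (by linarith), max_eq_right (by norm_num)]

private lemma psc_per (z : ℂ) : psc (z + 2 * π * Complex.I) = psc z := by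
  unfold psc
  have : (z + 2 * π * Complex.I).re = z.re := by simp
  rw [this]

private lemma psc_lip (z w : ℂ) : |psc z - psc w| ≤ 2 * ‖z - w‖ := by
  unfold psc
  have h1 := abs_max_sub_max_le_max (0 : ℝ) (min 1 (2 * (z.re + 1))) 0 (min 1 (2 * (w.re + 1)))
  have h2 := abs_min_sub_min_le_max (1 : ℝ) (2 * (z.re + 1)) 1 (2 * (w.re + 1))
  rw [sub_self, abs_zero] at h1 h2
  have h1' := h1.trans (max_eq_right (abs_nonneg _)).le
  have h2' := h2.trans (max_eq_right (abs_nonneg _)).le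
  have h3 : |2 * (z.re + 1) - 2 * (w.re + 1)| = 2 * |(z - w).re| := by
    rw [Complex.sub_re, show 2 * (z.re + 1) - 2 * (w.re + 1) = 2 * (z.re - w.re) by ring, abs_mul,
      abs_of_pos (by norm_num : (0 : ℝ) < 2)]
  have h4 := Complex.abs_re_le_norm (z - w)
  linarith

/-- Translation by integer periods. -/
private lemma ps_per {a b : ℝ} {f : ℂ → ℝ}
    (hp : ∀ z : ℂ, a ≤ z.re → z.re ≤ b → f (z + 2 * π * Complex.I) = f z) (n : ℤ) (z : ℂ)
    (h1 : a ≤ z.re) (h2 : z.re ≤ b) : f (z + n * (2 * π * Complex.I)) = f z := by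
  have hre : ∀ m : ℤ, (z + m * (2 * π * Complex.I)).re = z.re := by
    intro m; simp
  induction n with
  | zero => simp
  | succ n ih =>
    rw [← ih]
    have h := hp (z + ((n : ℤ) : ℂ) * (2 * π * Complex.I)) (by rw [hre]; exact h1)
      (by rw [hre]; exact h2)
    rw [← h]
    congr 1
    push_cast
    ring
  | pred n ih =>
    rw [← ih]
    have h := hp (z + ((-(n : ℤ) - 1 : ℤ) : ℂ) * (2 * π * Complex.I)) (by rw [hre]; exact h1)
      (by rw [hre]; exact h2)
    rw [← h]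
    congr 1
    push_cast
    ring

/-- A Lipschitz periodic function on a strip is bounded. -/
private lemma ps_bdd {a b : ℝ} {f : ℂ → ℝ} {K : NNReal}
    (hf : LipschitzOnWith K f {z : ℂ | a ≤ z.re ∧ z.re ≤ b})
    (hp : ∀ z : ℂ, a ≤ z.re → z.re ≤ b → f (z + 2 * π * Complex.I) = f z) :
    ∃ M : ℝ, 0 ≤ M ∧ ∀ z : ℂ, a ≤ z.re → z.re ≤ b → |f z| ≤ M := by
  refine ⟨|f a| + K * (|b - a| + 2 * π), by positivity, fun z h1 h2 => ?_⟩
  set n : ℤ := ⌊z.im / (2 * π)⌋ with hn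
  have hpi : 0 < 2 * π := by positivity
  have hn1 : (n : ℝ) * (2 * π) ≤ z.im := by
    have := Int.floor_le (z.im / (2 * π))
    rwa [← hn, le_div_iff₀ hpi] at this
  have hn2 : z.im < (n + 1) * (2 * π) := by
    have := Int.lt_floor_add_one (z.im / (2 * π))
    rwa [← hn, div_lt_iff₀ hpi] at this
  have h3 := ps_per hp (-n) z h1 h2
  set w : ℂ := z + ((-n : ℤ) : ℂ) * (2 * π * Complex.I) with hw
  have hwre : w.re = z.re := by simp [hw]
  have hwim : w.im = z.im - n * (2 * π) := by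
    simp [hw]; ring
  have h4 := hf.dist_le_mul w ⟨by rw [hwre]; exact h1, by rw [hwre]; exact h2⟩ (a : ℂ)
    ⟨by simp, by simp; linarith⟩
  have h5 : dist w (a : ℂ) ≤ |b - a| + 2 * π := by
    rw [Complex.dist_eq]
    refine (Complex.norm_le_abs_re_add_abs_im _).trans ?_
    have h6 : |(w - a).re| ≤ |b - a| := by
      rw [Complex.sub_re, Complex.ofReal_re, hwre, abs_of_nonneg (by linarith),
        abs_of_nonneg (by linarith)]
      linarith
    have h7 : |(w - a).im| ≤ 2 * π := by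
      rw [Complex.sub_im, Complex.ofReal_im, sub_zero, hwim, abs_of_nonneg (by linarith)]
      linarith
    linarith
  rw [← h3]
  rw [Real.dist_eq] at h4
  have h8 : |f w| ≤ |f a| + |f w - f a| := by
    have := abs_add_le (f a) (f w - f a)
    rwa [add_sub_cancel] at this
  have h9 : (K : ℝ) * dist w (a : ℂ) ≤ K * (|b - a| + 2 * π) :=
    mul_le_mul_of_nonneg_left h5 K.2
  linarith

/-- Products with a bounded Lipschitz function. -/
private lemma ps_mul_lip {c f : ℂ → ℝ} {S : Set ℂ} {K : NNReal} {M : ℝ} (hM : 0 ≤ M)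
    (hf : LipschitzOnWith K f S) (hb : ∀ z ∈ S, |f z| ≤ M) (hc : ∀ z, |c z| ≤ 1)
    (hcl : ∀ z w, |c z - c w| ≤ 2 * ‖z - w‖) :
    LipschitzOnWith (K + Real.toNNReal (2 * M)) (fun z => c z * f z) S := by
  apply LipschitzOnWith.of_dist_le_mul
  intro z hz w hw
  have h1 := hf.dist_le_mul z hz w hw
  rw [Real.dist_eq, Complex.dist_eq] at h1 ⊢
  have h2 : c z * f z - c w * f w = c z * (f z - f w) + (c z - c w) * f w := by ring
  rw [h2]
  refine (abs_add_le _ _).trans ?_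
  rw [abs_mul, abs_mul]
  have h3 : |c z| * |f z - f w| ≤ K * ‖z - w‖ := by
    calc |c z| * |f z - f w| ≤ 1 * |f z - f w| := mul_le_mul_of_nonneg_right (hc z) (abs_nonneg _)
      _ ≤ _ := by rw [one_mul]; exact h1
  have h4 : |c z - c w| * |f w| ≤ 2 * ‖z - w‖ * M :=
    mul_le_mul (hcl z w) (hb w hw) (abs_nonneg _) (by positivity)
  rw [NNReal.coe_add, Real.coe_toNNReal _ (by positivity)]
  linarith

/-- Rademacher on an open strip. -/
private lemma ps_diff {a b : ℝ} {f : ℂ → ℝ} {K : NNReal}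
    (hf : LipschitzOnWith K f {z : ℂ | a ≤ z.re ∧ z.re ≤ b}) :
    ∀ᵐ z : ℂ, a < z.re → z.re < b → DifferentiableAt ℝ f z := by
  have h1 := hf.ae_differentiableWithinAt_of_mem (μ := volume)
  filter_upwards [h1] with z hz ha hb
  refine (hz ⟨ha.le, hb.le⟩).differentiableAt ?_
  have : {z : ℂ | a < z.re ∧ z.re < b} ∈ nhds z :=
    IsOpen.mem_nhds ((isOpen_lt continuous_const Complex.continuous_re).inter
      (isOpen_lt Complex.continuous_re continuous_const)) ⟨ha, hb⟩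
  exact Filter.mem_of_superset this fun w hw => ⟨hw.1.le, hw.2.le⟩

private lemma ps_Nc_meas {y : ℝ} {ψ om : ℂ → ℂ} (hg : IsGauge y ψ om) :
    MeasurableSet (Nc y ψ) := by
  have ho : IsOpen {z : ℂ | z.re < 5 / 2} := isOpen_lt Complex.continuous_re continuous_const
  have hc : ContinuousOn ψ {z : ℂ | z.re < 5 / 2} := fun z hz =>
    (hg.diff z hz).continuousAt.continuousWithinAt
  have h1 : IsOpen ({z : ℂ | z.re < 5 / 2} ∩ ψ ⁻¹' Metric.ball 0 1) :=
    hc.isOpen_inter_preimage ho Metric.isOpen_ball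
  have h2 : Nc y ψ = Cell (-y) 1 ∩ ({z : ℂ | z.re < 5 / 2} ∩ ψ ⁻¹' Metric.ball 0 1) := by
    ext z
    constructor
    · rintro ⟨h1, h2⟩
      refine ⟨h1, ?_, ?_⟩
      · have := h1.2.1
        change z.re < 5 / 2
        linarith
      · simpa using h2
    · rintro ⟨h1, -, h2⟩
      exact ⟨h1, by simpa using h2⟩
  rw [h2]
  exact (measurableSet_cell _ _).inter h1.measurableSet

private lemma ps_fderiv_zero {f : ℂ → ℝ} {z : ℂ} (h : ∀ᶠ w in nhds z, f w = 0) (T : ℂ → ℝ) :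
    br T f z = 0 := by
  have h1 : fderiv ℝ f z = 0 := by
    have h2 : f =ᶠ[nhds z] fun _ => (0 : ℝ) := h
    rw [h2.fderiv_eq]
    simp
  unfold br
  rw [h1]
  simp

theorem pole_stokes {y : ℝ} {ψ om : ℂ → ℂ} (hg : IsGauge y ψ om) {f : ℂ → ℝ} {K : NNReal}
    (hf : LipschitzOnWith K f {z : ℂ | -y ≤ z.re ∧ z.re ≤ 3})
    (hp : ∀ z : ℂ, -y ≤ z.re → z.re ≤ 3 → f (z + 2 * π * Complex.I) = f z) (σ : ℝ) :
    IntegrableOn (br (Ts ψ σ) f) (Nc y ψ) ∧
    ∫ z in Nc y ψ, br (Ts ψ σ) f z = 2 * f (om (pt 0 σ)) - 2 * f (tau (om (pt 0 σ))) -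
      ∫ θ in (0 : ℝ)..2 * π, f (pt (-y) θ) * deriv (fun θ => Ts ψ σ (pt (-y) θ)) θ := by
  have hy := hg.y_ge
  obtain ⟨M, hM, hbd⟩ := ps_bdd hf hp
  set f1 : ℂ → ℝ := fun z => psc z * f z with hf1
  set f2 : ℂ → ℝ := fun z => (1 - psc z) * f z with hf2
  have hl1 := ps_mul_lip (c := psc) hM hf (fun z hz => hbd z hz.1 hz.2) psc_abs psc_lip
  have hl2 := ps_mul_lip (c := fun z => 1 - psc z) hM hf (fun z hz => hbd z hz.1 hz.2) psc_abs'
    (fun z w => by
      rw [show 1 - psc z - (1 - psc w) = -(psc z - psc w) by ring, abs_neg]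
      exact psc_lip z w)
  change LipschitzOnWith _ f1 _ at hl1
  change LipschitzOnWith _ f2 _ at hl2
  set K1 := K + Real.toNNReal (2 * M) with hK1
  have hre : ∀ z : ℂ, (z + 2 * π * Complex.I).re = z.re := fun z => by simp
  have hp1 : ∀ z : ℂ, -y ≤ z.re → z.re ≤ 3 → f1 (z + 2 * π * Complex.I) = f1 z := by
    intro z h1 h2
    simp only [hf1]
    rw [psc_per, hp z h1 h2]
  have hp2 : ∀ z : ℂ, -y ≤ z.re → z.re ≤ 3 → f2 (z + 2 * π * Complex.I) = f2 z := by
    intro z h1 h2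
    simp only [hf2]
    rw [psc_per, hp z h1 h2]
  -- the first part
  have hA : LipschitzOnWith K1 f1 {z : ℂ | |z.re| ≤ 3} :=
    hl1.mono fun z hz => by
      have := abs_le.1 (show |z.re| ≤ 3 from hz)
      exact ⟨by linarith [this.1], this.2⟩
  have hA1 : ∀ z : ℂ, |z.re| ≤ 3 → f1 (z + 2 * π * Complex.I) = f1 z := by
    intro z hz
    have := abs_le.1 hz
    exact hp1 z (by linarith [this.1]) this.2
  have hA0 : ∀ z : ℂ, z.re ≤ -1 → f1 z = 0 := by
    intro z hz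
    simp only [hf1]
    rw [psc_zero hz, zero_mul]
  have hom : ∀ z : ℂ, |z.re| ≤ 2 → |(om z).re| ≤ 3 := by
    intro z hz
    have h1 := abs_le.1 (om_re_le hg hz)
    have h2 := abs_le.1 hz
    rw [abs_le]
    constructor <;> linarith [h1.1, h1.2, h2.1, h2.2]
  obtain ⟨Ko, hKo⟩ := om_lip hg
  have hsub : {z : ℂ | -2 ≤ z.re ∧ z.re ≤ 0} ⊆ {z : ℂ | |z.re| ≤ 2} := by
    intro z hz
    change |z.re| ≤ 2
    rw [abs_le]
    exact ⟨hz.1, by linarith [hz.2]⟩
  have hcomp : LipschitzOnWith (K1 * Ko) (f1 ∘ om) {z : ℂ | -2 ≤ z.re ∧ z.re ≤ 0} :=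
    hA.comp (hKo.mono hsub) fun z hz => hom z (hsub hz)
  have hnear := near hcomp (fun z h1 h2 => by
      have hz : |z.re| ≤ 2 := abs_le.2 ⟨h1, by linarith⟩
      simp only [Function.comp]
      rw [hg.om_per z hz, hA1 _ (hom z hz)]) (fun z h1 h2 => by
      have hz : |z.re| ≤ 2 := abs_le.2 ⟨h1, by linarith⟩
      simp only [Function.comp]
      apply hA0
      have := (abs_le.1 (om_re_le hg hz)).2
      linarith) σ
  obtain ⟨hi1, hI1⟩ := chg hg hA hA1 hA0 σ hnear.1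
  rw [hnear.2] at hI1
  have hpt0 : |(pt 0 σ).re| ≤ 2 := by simp [pt]
  have htau : pt 0 (σ + π) = tau (pt 0 σ) := by
    unfold pt tau
    simp
    ring
  have e1 : f1 (om (pt 0 σ)) = f (om (pt 0 σ)) := by
    simp only [hf1]
    have h1 := (abs_le.1 (om_re_le hg hpt0)).1
    have h2 : (pt 0 σ).re = 0 := by simp [pt]
    rw [psc_one (by linarith), one_mul]
  have e2 : f1 (om (pt 0 (σ + π))) = f (tau (om (pt 0 σ))) := by
    rw [htau, hg.om_tau _ hpt0]
    simp only [hf1]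
    have h1 := (abs_le.1 (om_re_le hg hpt0)).2
    have h2 : (pt 0 σ).re = 0 := by simp [pt]
    have h3 : (tau (om (pt 0 σ))).re = -(om (pt 0 σ)).re := by simp [tau]
    rw [psc_one (by rw [h3]; linarith), one_mul]
  simp only [Function.comp] at hI1
  rw [e1, e2] at hI1
  -- the second part
  have hs2 : {z : ℂ | -y ≤ z.re ∧ z.re ≤ -1 / 2} ⊆ {z : ℂ | -y ≤ z.re ∧ z.re ≤ 3} :=
    fun z hz => ⟨hz.1, by linarith [hz.2]⟩
  obtain ⟨KT, hKT⟩ := Ts_lip hg σ
  have hB1 : LipschitzOnWith (max K1 KT) f2 {z : ℂ | -y ≤ z.re ∧ z.re ≤ -1 / 2} :=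
    (hl2.mono hs2).weaken (le_max_left _ _)
  have hB2 := hKT.weaken (le_max_right K1 KT)
  have hTp : ∀ z : ℂ, -y ≤ z.re → z.re ≤ -1 / 2 → Ts ψ σ (z + 2 * π * Complex.I) = Ts ψ σ z := by
    intro z _ _
    unfold Ts
    rw [hg.per]
  have hst := rect_stokes (show -y ≤ -1 / 2 by linarith) hB1 hB2
    (fun z h1 h2 => hp2 z h1 (by linarith)) hTp
  have hib := integrableOn_br hB1 hB2
  have hend : ∀ θ : ℝ, f2 (pt (-1 / 2) θ) = 0 := by
    intro θ
    simp only [hf2]
    rw [psc_one (by simp [pt]), sub_self, zero_mul]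
  have hend' : ∀ θ : ℝ, f2 (pt (-y) θ) = f (pt (-y) θ) := by
    intro θ
    simp only [hf2]
    rw [psc_zero (by simp [pt]; linarith), sub_zero, one_mul]
  simp only [hend, hend', zero_mul, intervalIntegral.integral_zero, zero_sub] at hst
  have hNm := ps_Nc_meas hg
  have hcs : Cell (-y) (-1 / 2) ⊆ Nc y ψ := by
    intro z hz
    refine ⟨⟨hz.1, by linarith [hz.2.1], hz.2.2⟩, ?_⟩
    have := hg.small z hz.1.le hz.2.1
    change ‖ψ z‖ < 1
    linarith
  have hzero : ∀ z ∈ Nc y ψ \ Cell (-y) (-1 / 2), br (Ts ψ σ) f2 z = 0 := by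
    rintro z ⟨hz1, hz2⟩
    have hz3 : -1 / 2 < z.re := by
      by_contra h
      exact hz2 ⟨hz1.1.1, not_lt.1 h, hz1.1.2.2⟩
    apply ps_fderiv_zero
    have : {z : ℂ | -1 / 2 < z.re} ∈ nhds z :=
      (isOpen_lt continuous_const Complex.continuous_re).mem_nhds hz3
    filter_upwards [this] with w hw
    simp only [hf2]
    rw [psc_one (le_of_lt hw), sub_self, zero_mul]
  have hi2 : IntegrableOn (br (Ts ψ σ) f2) (Nc y ψ) :=
    hib.of_forall_sdiff_eq_zero hNm hzero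
  have hI2 : ∫ z in Nc y ψ, br (Ts ψ σ) f2 z =
      -∫ θ in (0 : ℝ)..2 * π, f (pt (-y) θ) * deriv (fun θ => Ts ψ σ (pt (-y) θ)) θ := by
    rw [setIntegral_eq_of_subset_of_forall_sdiff_eq_zero hNm hcs hzero, hst]
  -- the sum
  have hsum : ∀ᵐ z ∂(volume.restrict (Nc y ψ)),
      br (Ts ψ σ) f1 z + br (Ts ψ σ) f2 z = br (Ts ψ σ) f z := by
    filter_upwards [ae_restrict_mem hNm, ae_restrict_of_ae (ps_diff hl1),
      ae_restrict_of_ae (ps_diff hl2)] with z hz h1 h2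
    have hz1 : -y < z.re := hz.1.1
    have hz2 : z.re < 3 := by linarith [hz.1.2.1]
    have hd1 := h1 hz1 hz2
    have hd2 := h2 hz1 hz2
    have hff : f = fun z => f1 z + f2 z := by
      funext z
      simp only [hf1, hf2]
      ring
    have h3 : fderiv ℝ f z = fderiv ℝ f1 z + fderiv ℝ f2 z := by
      conv_lhs => rw [hff]
      exact fderiv_fun_add hd1 hd2
    unfold br
    rw [h3]
    simp only [add_apply]
    ring
  refine ⟨(hi1.add hi2).congr hsum, ?_⟩
  rw [← integral_congr_ae hsum, integral_add hi1 hi2, hI1, hI2]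
  ring

end Pool.Agent.CC57
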