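import Pool.Agent.CC57.PsiB

set_option autoImplicit false

/-!
`Bf = log (1 + Af) - log (1 + As)` on `|Re z| ≤ 3`.  If `13/10 ε e^{-y} e^6 ≤ 1/100` and `y ≥ 5` then
`‖Af‖, ‖As‖ ≤ 1/100` on `|Re z| ≤ 3` (`norm_Af_le`, `norm_As_le`) and the derivatives are at most `1/25`
(`norm_deriv_Af_le`, ...; `4/1.3 ≤ 4`).
`|log (1+w)| ≤ 2|w|` for `|w| ≤ 1/2` (`Complex.norm_log_one_add_le` or similar).
`exp (z + Bf z) = e^z (1 + Af)/(1 + As) = psi`.  Real part of `1 + Af` is positive, so the principal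
logarithm is differentiable there and commutes with `conj` (`Complex.log_conj`).
`Bf (tau z) = log (1 + conj As) - log (1 + conj Af) = -conj (Bf z)`.
Lipschitz bound: the derivative `Af'/(1+Af) - As'/(1+As)` has norm `≤ 1/4` on the convex set
`|Re z| ≤ 3` (`Convex.norm_image_sub_le_of_norm_deriv_le` or the version within a set).
-/

open Real MeasureTheory Set

namespace Pool.Agent.CC57

/-- `log (ψ / ζ)` near the equator. -/
noncomputable def Bf {K : ℕ} (b : Fin K → ℂ) (y : ℝ) (z : ℂ) : ℂ :=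
  Complex.log (1 + Af b y z) - Complex.log (1 + As b y z)

/-- The smallness condition. -/
def Small (y ε : ℝ) : Prop := 0 ≤ ε ∧ 5 ≤ y ∧ 13 / 10 * ε * rexp (-y) * rexp 6 ≤ 1 / 100

private theorem Af_small {K : ℕ} {b : Fin K → ℂ} {y ε : ℝ} (hs : Small y ε)
    (hb : ∑ i, ‖b i‖ ^ 2 ≤ ε ^ 2) {z : ℂ} (hz : |z.re| ≤ 3) : ‖Af b y z‖ ≤ 1 / 100 := by
  obtain ⟨h0, h1, h2⟩ := hs
  obtain ⟨z1, z2⟩ := abs_le.1 hz
  refine (norm_Af_le h0 hb (by linarith)).trans (le_trans ?_ h2)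
  apply mul_le_mul_of_nonneg_left _ (by positivity)
  exact Real.exp_le_exp.2 (by linarith)

private theorem As_small {K : ℕ} {b : Fin K → ℂ} {y ε : ℝ} (hs : Small y ε)
    (hb : ∑ i, ‖b i‖ ^ 2 ≤ ε ^ 2) {z : ℂ} (hz : |z.re| ≤ 3) : ‖As b y z‖ ≤ 1 / 100 := by
  obtain ⟨h0, h1, h2⟩ := hs
  obtain ⟨z1, z2⟩ := abs_le.1 hz
  refine (norm_As_le h0 hb (by linarith)).trans (le_trans ?_ h2)
  apply mul_le_mul_of_nonneg_left _ (by positivity)
  exact Real.exp_le_exp.2 (by linarith)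

private theorem dAf_small {K : ℕ} {b : Fin K → ℂ} {y ε : ℝ} (hs : Small y ε)
    (hb : ∑ i, ‖b i‖ ^ 2 ≤ ε ^ 2) {z : ℂ} (hz : |z.re| ≤ 3) : ‖deriv (Af b y) z‖ ≤ 1 / 25 := by
  obtain ⟨h0, h1, h2⟩ := hs
  obtain ⟨z1, z2⟩ := abs_le.1 hz
  refine (norm_deriv_Af_le h0 hb (by linarith)).trans ?_
  have h3 : 4 * ε * rexp (-y) * rexp (-2 * z.re) ≤ 4 * ε * rexp (-y) * rexp 6 := by
    apply mul_le_mul_of_nonneg_left _ (by positivity)
    exact Real.exp_le_exp.2 (by linarith)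
  have h4 : 0 ≤ ε * rexp (-y) * rexp 6 := by positivity
  linarith

private theorem dAs_small {K : ℕ} {b : Fin K → ℂ} {y ε : ℝ} (hs : Small y ε)
    (hb : ∑ i, ‖b i‖ ^ 2 ≤ ε ^ 2) {z : ℂ} (hz : |z.re| ≤ 3) : ‖deriv (As b y) z‖ ≤ 1 / 25 := by
  obtain ⟨h0, h1, h2⟩ := hs
  obtain ⟨z1, z2⟩ := abs_le.1 hz
  refine (norm_deriv_As_le h0 hb (by linarith)).trans ?_
  have h3 : 4 * ε * rexp (-y) * rexp (2 * z.re) ≤ 4 * ε * rexp (-y) * rexp 6 := by
    apply mul_le_mul_of_nonneg_left _ (by positivity)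
    exact Real.exp_le_exp.2 (by linarith)
  have h4 : 0 ≤ ε * rexp (-y) * rexp 6 := by positivity
  linarith

private theorem slit {w : ℂ} (hw : ‖w‖ ≤ 1 / 100) : 1 + w ∈ Complex.slitPlane :=
  Complex.mem_slitPlane_of_norm_lt_one (by linarith)

private theorem log_small {w : ℂ} (hw : ‖w‖ ≤ 1 / 100) : ‖Complex.log (1 + w)‖ ≤ 3 / 200 := by
  have := Complex.norm_log_one_add_half_le_self (z := w) (by linarith)
  linarith

theorem norm_Bf_le {K : ℕ} {b : Fin K → ℂ} {y ε : ℝ} (hs : Small y ε)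
    (hb : ∑ i, ‖b i‖ ^ 2 ≤ ε ^ 2) {z : ℂ} (hz : |z.re| ≤ 3) : ‖Bf b y z‖ ≤ 1 / 16 := by
  unfold Bf
  refine (norm_sub_le _ _).trans ?_
  have h1 := log_small (Af_small hs hb hz)
  have h2 := log_small (As_small hs hb hz)
  linarith

private theorem hasDerivAt_Bf {K : ℕ} {b : Fin K → ℂ} {y ε : ℝ} (hs : Small y ε)
    (hb : ∑ i, ‖b i‖ ^ 2 ≤ ε ^ 2) {z : ℂ} (hz : |z.re| ≤ 3) :
    HasDerivAt (Bf b y) (deriv (Af b y) z / (1 + Af b y z) - deriv (As b y) z / (1 + As b y z)) z := by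
  have h1 : HasDerivAt (fun z => 1 + Af b y z) (deriv (Af b y) z) z :=
    ((differentiable_Af b y) z).hasDerivAt.const_add 1
  have h2 : HasDerivAt (fun z => 1 + As b y z) (deriv (As b y) z) z :=
    ((differentiable_As b y) z).hasDerivAt.const_add 1
  exact (h1.clog (slit (Af_small hs hb hz))).sub (h2.clog (slit (As_small hs hb hz)))

theorem differentiableAt_Bf {K : ℕ} {b : Fin K → ℂ} {y ε : ℝ} (hs : Small y ε)
    (hb : ∑ i, ‖b i‖ ^ 2 ≤ ε ^ 2) {z : ℂ} (hz : |z.re| ≤ 3) :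
    DifferentiableAt ℂ (Bf b y) z :=
  (hasDerivAt_Bf hs hb hz).differentiableAt

private theorem quot_small {w c : ℂ} (hw : ‖w‖ ≤ 1 / 100) (hc : ‖c‖ ≤ 1 / 25) : ‖c / (1 + w)‖ ≤ 1 / 8 := by
  have h1 : 1 - ‖w‖ ≤ ‖1 + w‖ := by
    have := norm_sub_norm_le (1 : ℂ) (-w)
    rw [norm_neg, norm_one, sub_neg_eq_add] at this
    exact this
  have h2 : 0 < ‖1 + w‖ := by linarith
  rw [norm_div, div_le_iff₀ h2]
  linarith

theorem Bf_lip {K : ℕ} {b : Fin K → ℂ} {y ε : ℝ} (hs : Small y ε)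
    (hb : ∑ i, ‖b i‖ ^ 2 ≤ ε ^ 2) {z w : ℂ} (hz : |z.re| ≤ 3) (hw : |w.re| ≤ 3) :
    ‖Bf b y z - Bf b y w‖ ≤ 1 / 4 * ‖z - w‖ := by
  have hconv : Convex ℝ {z : ℂ | |z.re| ≤ 3} := by
    have : {z : ℂ | |z.re| ≤ 3} = Complex.reLm ⁻¹' (Set.Icc (-3) 3) := by
      ext z
      simp [abs_le]
    rw [this]
    exact (convex_Icc (-3) 3).linear_preimage Complex.reLm
  apply Convex.norm_image_sub_le_of_norm_deriv_le (s := {z : ℂ | |z.re| ≤ 3})
    (fun x hx => differentiableAt_Bf hs hb hx) _ hconv hw hz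
  intro x hx
  rw [(hasDerivAt_Bf hs hb hx).deriv]
  refine (norm_sub_le _ _).trans ?_
  have h1 := quot_small (Af_small hs hb hx) (dAf_small hs hb hx)
  have h2 := quot_small (As_small hs hb hx) (dAs_small hs hb hx)
  linarith

theorem exp_add_Bf {K : ℕ} {b : Fin K → ℂ} {y ε : ℝ} (hs : Small y ε)
    (hb : ∑ i, ‖b i‖ ^ 2 ≤ ε ^ 2) {z : ℂ} (hz : |z.re| ≤ 3) :
    Complex.exp (z + Bf b y z) = psi b y z := by
  unfold Bf psi
  have h1 := Complex.slitPlane_ne_zero (slit (Af_small hs hb hz))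
  have h2 := Complex.slitPlane_ne_zero (slit (As_small hs hb hz))
  rw [Complex.exp_add, Complex.exp_sub, Complex.exp_log h1, Complex.exp_log h2, mul_div_assoc]

theorem Bf_per {K : ℕ} (b : Fin K → ℂ) (y : ℝ) (z : ℂ) :
    Bf b y (z + 2 * π * Complex.I) = Bf b y z := by
  unfold Bf
  rw [Af_per, As_per]

theorem Bf_tau {K : ℕ} {b : Fin K → ℂ} {y ε : ℝ} (hs : Small y ε)
    (hb : ∑ i, ‖b i‖ ^ 2 ≤ ε ^ 2) {z : ℂ} (hz : |z.re| ≤ 3) :
    Bf b y (tau z) = -(starRingEnd ℂ) (Bf b y z) := by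
  unfold Bf
  have h1 := Complex.slitPlane_arg_ne_pi (slit (Af_small hs hb hz))
  have h2 := Complex.slitPlane_arg_ne_pi (slit (As_small hs hb hz))
  rw [Af_tau, As_tau, map_sub, ← Complex.log_conj _ h1, ← Complex.log_conj _ h2, map_add, map_add, map_one]
  ring

/-- Continuity in `b` and `z`. -/
theorem continuousOn_Bf {K : ℕ} {y ε : ℝ} (hs : Small y ε) :
    ContinuousOn (fun p : (Fin K → ℂ) × ℂ => Bf p.1 y p.2)
      {p | ∑ i, ‖p.1 i‖ ^ 2 ≤ ε ^ 2 ∧ |p.2.re| ≤ 3} := by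
  unfold Bf
  refine ContinuousOn.sub ?_ ?_
  · refine ContinuousOn.clog (continuous_const.add (continuous_Af y)).continuousOn ?_
    rintro p ⟨h1, h2⟩
    exact slit (Af_small hs h1 h2)
  · refine ContinuousOn.clog (continuous_const.add (continuous_As y)).continuousOn ?_
    rintro p ⟨h1, h2⟩
    exact slit (As_small hs h1 h2)

end Pool.Agent.CC57
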