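import Pool.Agent.CC57.Defs
import Pool.Agent.H65G.ZH

set_option autoImplicit false

/-!
The measure `sigma 2` on the unit circle of `EuclideanSpace ℝ (Fin 2)` is the image of the normalized
Lebesgue measure on `(0, 2π]` under `circ σ = (cos σ, sin σ)`.
Proof of `map_circ`: for a measurable set `s` of the circle, `Measure.toSphere_apply'`:
`toSphere s = 2 · volume (Ioo 0 1 • s)` and by polar coordinates (`integral_comp_polarCoord_symm` or the
`lintegral` version; identify `E 2` with `ℝ × ℝ`, volume preserving) the area of the sector is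
`∫_0^1 r dr · |{σ ∈ (0,2π] : circ σ ∈ s}| = |...|/2`; the total mass is `2π`.
(Or: uniqueness of the rotation invariant probability measure.)
`integral_sigma` then follows from `integral_map`.
-/

open Real Set MeasureTheory
open scoped RealInnerProductSpace

namespace Pool.Agent.CC57

open Pool.Agent.H65G

/-- The point `(cos σ, sin σ)`. -/
noncomputable def circ (σ : ℝ) : Sph 2 :=
  ⟨WithLp.toLp 2 ![cos σ, sin σ], by
    rw [mem_sphere_zero_iff_norm, EuclideanSpace.norm_eq, Real.sqrt_eq_one]
    simp [Fin.sum_univ_two]⟩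

theorem continuous_circ : Continuous circ := by
  apply Continuous.subtype_mk
  apply (PiLp.continuous_toLp 2 (fun _ : Fin 2 => ℝ)).comp
  apply continuous_pi
  intro i
  fin_cases i
  · exact continuous_cos
  · exact continuous_sin

private theorem coe_circ (σ : ℝ) : (circ σ : E 2) = WithLp.toLp 2 ![cos σ, sin σ] := rfl

private theorem circ_zero (σ : ℝ) : (circ σ : E 2) 0 = cos σ := by simp [coe_circ]

private theorem circ_one (σ : ℝ) : (circ σ : E 2) 1 = sin σ := by simp [coe_circ]

private theorem circ_per (σ : ℝ) : circ (σ + 2 * π) = circ σ := by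
  ext1
  rw [coe_circ, coe_circ, cos_add_two_pi, sin_add_two_pi]

theorem circ_surj (s : Sph 2) : ∃ σ : ℝ, 0 < σ ∧ σ ≤ 2 * π ∧ circ σ = s := by
  have hs : (s : E 2) 0 ^ 2 + (s : E 2) 1 ^ 2 = 1 := by
    have h := mem_sphere_zero_iff_norm.1 s.2
    rw [EuclideanSpace.norm_eq, Real.sqrt_eq_one] at h
    simpa [Fin.sum_univ_two] using h
  set z : ℂ := ⟨(s : E 2) 0, (s : E 2) 1⟩ with hz
  have hn : ‖z‖ = 1 := by
    rw [Complex.norm_def, Complex.normSq_mk, Real.sqrt_eq_one]
    linear_combination hs
  have h0 : cos (Complex.arg z) = (s : E 2) 0 := by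
    have := Complex.norm_mul_cos_arg z
    rwa [hn, one_mul] at this
  have h1 : sin (Complex.arg z) = (s : E 2) 1 := by
    have := Complex.norm_mul_sin_arg z
    rwa [hn, one_mul] at this
  have hc : circ (Complex.arg z) = s := by
    ext i
    fin_cases i
    · show (circ (Complex.arg z) : E 2) 0 = (s : E 2) 0
      rw [circ_zero, h0]
    · show (circ (Complex.arg z) : E 2) 1 = (s : E 2) 1
      rw [circ_one, h1]
  rcases lt_or_ge 0 (Complex.arg z) with h | h
  · exact ⟨Complex.arg z, h, by linarith [Complex.arg_le_pi z, pi_pos], hc⟩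
  · exact ⟨Complex.arg z + 2 * π, by linarith [Complex.neg_pi_lt_arg z, pi_pos], by linarith,
      by rw [circ_per, hc]⟩

theorem circ_add_pi (σ : ℝ) : circ (σ + π) = -circ σ := by
  ext i
  rw [coe_circ, cos_add_pi, sin_add_pi]
  fin_cases i
  · show -cos σ = (-(circ σ : E 2)) 0
    rw [PiLp.neg_apply, circ_zero]
  · show -sin σ = (-(circ σ : E 2)) 1
    rw [PiLp.neg_apply, circ_one]

private theorem repr_eq (z : ℂ) : (Complex.orthonormalBasisOneI.repr z : E 2) =
    ‖z‖ • (circ (Complex.arg z) : E 2) := by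
  ext i
  fin_cases i
  · show (Complex.orthonormalBasisOneI.repr z : E 2) 0 = (‖z‖ • (circ (Complex.arg z) : E 2)) 0
    rw [PiLp.smul_apply, circ_zero, smul_eq_mul, Complex.norm_mul_cos_arg,
      Complex.orthonormalBasisOneI_repr_apply]
    rfl
  · show (Complex.orthonormalBasisOneI.repr z : E 2) 1 = (‖z‖ • (circ (Complex.arg z) : E 2)) 1
    rw [PiLp.smul_apply, circ_one, smul_eq_mul, Complex.norm_mul_sin_arg,
      Complex.orthonormalBasisOneI_repr_apply]
    rfl

open scoped Pointwise in
private theorem preim {s : Set (Sph 2)} :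
    (Complex.orthonormalBasisOneI.repr : ℂ → E 2) ⁻¹' (Ioo (0 : ℝ) 1 • ((↑) '' s)) =
      {z : ℂ | 0 < ‖z‖ ∧ ‖z‖ < 1 ∧ circ (Complex.arg z) ∈ s} := by
  ext z
  constructor
  · rintro ⟨r, hr, _, ⟨y, hy, rfl⟩, h⟩
    have h1 : r • (y : E 2) = ‖z‖ • (circ (Complex.arg z) : E 2) := by
      rw [← repr_eq]
      exact h
    have h2 : ‖z‖ = r := by
      have h3 := congrArg norm h1
      rw [norm_smul, norm_smul, mem_sphere_zero_iff_norm.1 y.2,
        mem_sphere_zero_iff_norm.1 (circ (Complex.arg z)).2, mul_one, mul_one, norm_norm,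
        Real.norm_eq_abs, abs_of_pos hr.1] at h3
      exact h3.symm
    have h4 : circ (Complex.arg z) = y := by
      ext1
      rw [h2] at h1
      exact (smul_right_injective _ hr.1.ne' h1).symm
    refine ⟨by rw [h2]; exact hr.1, by rw [h2]; exact hr.2, by rw [h4]; exact hy⟩
  · rintro ⟨h1, h2, h3⟩
    exact ⟨‖z‖, ⟨h1, h2⟩, _, ⟨_, h3, rfl⟩, (repr_eq z).symm⟩

private theorem vol_sector {s : Set (Sph 2)} (hs : MeasurableSet s) :
    volume {z : ℂ | 0 < ‖z‖ ∧ ‖z‖ < 1 ∧ circ (Complex.arg z) ∈ s} =
      2⁻¹ * volume (Ioc (-π) π ∩ circ ⁻¹' s) := by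
  have hcm : Measurable circ := continuous_circ.measurable
  have hB : MeasurableSet {z : ℂ | 0 < ‖z‖ ∧ ‖z‖ < 1 ∧ circ (Complex.arg z) ∈ s} := by
    apply MeasurableSet.inter (measurableSet_lt measurable_const measurable_norm)
    apply MeasurableSet.inter (measurableSet_lt measurable_norm measurable_const)
    exact (hcm.comp Complex.measurable_arg) hs
  set B := {z : ℂ | 0 < ‖z‖ ∧ ‖z‖ < 1 ∧ circ (Complex.arg z) ∈ s} with hBdef
  rw [← lintegral_indicator_one hB, ← Complex.lintegral_comp_polarCoord_symm]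
  have h1 : ∫⁻ p in polarCoord.target, ENNReal.ofReal p.1 •
      B.indicator 1 (Complex.polarCoord.symm p) =
      ∫⁻ p in Ioi (0 : ℝ) ×ˢ Ioo (-π) π,
        ((Ioo (0 : ℝ) 1).indicator (fun r => ENNReal.ofReal r) p.1 *
          (circ ⁻¹' s).indicator 1 p.2) := by
    apply setLIntegral_congr_fun (measurableSet_Ioi.prod measurableSet_Ioo)
    intro p hp
    have hp1 : 0 < p.1 := hp.1
    have hp2 : p.2 ∈ Ioc (-π) π := ⟨hp.2.1, hp.2.2.le⟩
    have hn : ‖Complex.polarCoord.symm p‖ = p.1 := by
      rw [Complex.norm_polarCoord_symm, abs_of_pos hp1]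
    have ha : Complex.arg (Complex.polarCoord.symm p) = p.2 := by
      rw [Complex.polarCoord_symm_apply, Complex.ofReal_cos, Complex.ofReal_sin]
      exact Complex.arg_mul_cos_add_sin_mul_I hp1 hp2
    have hmem : Complex.polarCoord.symm p ∈ B ↔ p.1 < 1 ∧ circ p.2 ∈ s := by
      simp only [hBdef, mem_ofPred_eq, hn, ha]
      exact ⟨fun h => h.2, fun h => ⟨hp1, h⟩⟩
    show ENNReal.ofReal p.1 • B.indicator 1 (Complex.polarCoord.symm p) =
      (Ioo (0 : ℝ) 1).indicator (fun r => ENNReal.ofReal r) p.1 * (circ ⁻¹' s).indicator 1 p.2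
    by_cases h1 : p.1 < 1
    · have e1 : (Ioo (0 : ℝ) 1).indicator (fun r => ENNReal.ofReal r) p.1 =
          ENNReal.ofReal p.1 := indicator_of_mem (show p.1 ∈ Ioo (0 : ℝ) 1 from ⟨hp1, h1⟩) _
      by_cases h2 : circ p.2 ∈ s
      · rw [indicator_of_mem (hmem.2 ⟨h1, h2⟩), e1,
          indicator_of_mem (show p.2 ∈ circ ⁻¹' s from h2)]
        rfl
      · rw [indicator_of_notMem (fun h => h2 (hmem.1 h).2), e1,
          indicator_of_notMem (show p.2 ∉ circ ⁻¹' s from h2)]
        rfl
    · have e1 : (Ioo (0 : ℝ) 1).indicator (fun r => ENNReal.ofReal r) p.1 = 0 :=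
        indicator_of_notMem (fun h => h1 h.2) _
      rw [indicator_of_notMem (fun h => h1 (hmem.1 h).1), e1, zero_mul, smul_zero]
  rw [h1, Measure.volume_eq_prod, ← Measure.prod_restrict, lintegral_prod_mul]
  · congr 1
    · rw [lintegral_indicator measurableSet_Ioo, Measure.restrict_restrict measurableSet_Ioo]
      have h2 : Ioo (0 : ℝ) 1 ∩ Ioi 0 = Ioo 0 1 := by
        ext x
        simp only [mem_inter_iff, mem_Ioo, mem_Ioi]
        tauto
      rw [h2, Measure.restrict_congr_set Ioo_ae_eq_Ioc,
        ← ofReal_integral_eq_lintegral_ofReal]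
      · rw [← intervalIntegral.integral_of_le zero_le_one, integral_id]
        norm_num
        rw [one_div, ENNReal.ofReal_inv_of_pos (by norm_num)]
        norm_num
      · exact (intervalIntegral.intervalIntegrable_id (μ := volume) (a := 0) (b := 1)).1
      · filter_upwards [ae_restrict_mem measurableSet_Ioc] with x hx using hx.1.le
    · rw [lintegral_indicator_one (hcm hs), Measure.restrict_apply (hcm hs), inter_comm]
      exact measure_congr (Ioo_ae_eq_Ioc.inter (ae_eq_refl _))
  · exact ((measurable_id.ennreal_ofReal).indicator measurableSet_Ioo).aemeasurable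
  · exact (measurable_one.indicator (hcm hs)).aemeasurable

private theorem toSphere_eq : (volume : Measure (E 2)).toSphere =
    Measure.map circ (volume.restrict (Ioc (-π) π)) := by
  have hcm : Measurable circ := continuous_circ.measurable
  ext s hs
  rw [Measure.map_apply hcm hs, Measure.toSphere_apply' _ hs, Measure.restrict_apply (hcm hs)]
  have h1 := (Complex.orthonormalBasisOneI.measurePreserving_repr).measure_preimage_emb
    (Complex.orthonormalBasisOneI.repr.toHomeomorph.measurableEmbedding)
  rw [← h1, preim, vol_sector hs, ← mul_assoc, inter_comm]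
  have h2 : ((Module.finrank ℝ (E 2) : ℕ) : ENNReal) = 2 := by
    simp
  rw [h2, ENNReal.mul_inv_cancel (by norm_num) (by norm_num), one_mul]

private theorem sigma_eq : sigma 2 =
    (ENNReal.ofReal (2 * π))⁻¹ • Measure.map circ (volume.restrict (Ioc (-π) π)) := by
  have hcm : Measurable circ := continuous_circ.measurable
  unfold sigma
  rw [toSphere_eq, Measure.map_apply hcm MeasurableSet.univ, preimage_univ,
    Measure.restrict_apply_univ, Real.volume_Ioc]
  congr 3
  ring

theorem integral_sigma {F : Type} [NormedAddCommGroup F] [NormedSpace ℝ F] {f : Sph 2 → F}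
    (hf : AEStronglyMeasurable f (sigma 2)) :
    ∫ s, f s ∂(sigma 2) = ((2 * π)⁻¹ : ℝ) • ∫ σ in (0 : ℝ)..2 * π, f (circ σ) := by
  have hcm : Measurable circ := continuous_circ.measurable
  have hpos : (0 : ℝ) < 2 * π := two_pi_pos
  have hne : (ENNReal.ofReal (2 * π)) ≠ 0 := by
    rw [Ne, ENNReal.ofReal_eq_zero, not_le]
    exact hpos
  have hf' : AEStronglyMeasurable f (Measure.map circ (volume.restrict (Ioc (-π) π))) := by
    rw [sigma_eq] at hf
    have h := hf.smul_measure (ENNReal.ofReal (2 * π))
    rwa [smul_smul, ENNReal.mul_inv_cancel hne ENNReal.ofReal_ne_top, one_smul] at h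
  rw [sigma_eq, integral_smul_measure, integral_map hcm.aemeasurable hf']
  have h1 : ∫ σ in (0 : ℝ)..2 * π, f (circ σ) = ∫ σ in (-π)..π, f (circ σ) := by
    have hper : Function.Periodic (fun σ => f (circ σ)) (2 * π) := fun σ => by
      simp only [circ_per]
    have h := hper.intervalIntegral_add_eq 0 (-π)
    rw [zero_add] at h
    rw [h]
    congr 1
    ring
  rw [h1, intervalIntegral.integral_of_le (by linarith [pi_pos])]
  congr 1
  rw [ENNReal.toReal_inv, ENNReal.toReal_ofReal hpos.le]

/-- `zh` in the complex coordinate. -/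
theorem zh_circ (w : ℂ) : (zhC w).re = (zh (WithLp.toLp 2 ![w.re, w.im] : E 2)) 0 ∧
    (zhC w).im = (zh (WithLp.toLp 2 ![w.re, w.im] : E 2)) 1 := by
  have hin : ∀ σ, ⟪(WithLp.toLp 2 ![w.re, w.im] : E 2), (circ σ : E 2)⟫ = inn w σ := by
    intro σ
    simp only [PiLp.inner_apply, Fin.sum_univ_two, circ_zero, circ_one, inn]
    simp
    ring
  have hcont : Continuous fun σ : ℝ => gx w σ • Complex.exp (σ * Complex.I) := by
    have : Continuous fun σ : ℝ => gx w σ := by
      unfold gx inn
      exact continuous_arcsin.comp (by fun_prop)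
    exact this.smul (by fun_prop)
  have hint : IntervalIntegrable (fun σ : ℝ => gx w σ • Complex.exp (σ * Complex.I)) volume 0
      (2 * π) := hcont.intervalIntegrable _ _
  have hz : ∀ i : Fin 2, (zh (WithLp.toLp 2 ![w.re, w.im] : E 2)) i =
      (2 * π)⁻¹ * ∫ σ in (0 : ℝ)..2 * π, gx w σ * (circ σ : E 2) i := by
    intro i
    unfold zh
    rw [integral_coord_apply (integrable_integrand _)]
    simp only [PiLp.smul_apply, smul_eq_mul]
    rw [integral_sigma, smul_eq_mul]
    · congr 1
      apply intervalIntegral.integral_congr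
      intro σ _
      simp only [hin, gx]
    · apply Continuous.aestronglyMeasurable
      apply Continuous.mul
      · exact continuous_arcsin.comp (by fun_prop)
      · exact (EuclideanSpace.proj (𝕜 := ℝ) i : E 2 →L[ℝ] ℝ).continuous.comp
          continuous_subtype_val
  rw [hz 0, hz 1]
  simp only [circ_zero, circ_one]
  unfold zhC avgE
  rw [Complex.real_smul, Complex.re_ofReal_mul, Complex.im_ofReal_mul]
  constructor
  · congr 1
    have h := Complex.reCLM.intervalIntegral_comp_comm hint
    simp only [Complex.reCLM_apply] at h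
    rw [← h]
    apply intervalIntegral.integral_congr
    intro σ _
    simp only
    rw [Complex.real_smul, Complex.re_ofReal_mul, Complex.exp_ofReal_mul_I_re]
  · congr 1
    have h := Complex.imCLM.intervalIntegral_comp_comm hint
    simp only [Complex.imCLM_apply] at h
    rw [← h]
    apply intervalIntegral.integral_congr
    intro σ _
    simp only
    rw [Complex.real_smul, Complex.im_ofReal_mul, Complex.exp_ofReal_mul_I_im]

end Pool.Agent.CC57
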