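import Pool.Agent.CC57.Defs

set_option autoImplicit false

/-!
Elementary facts on the functions `inn`, `inp`, `qx`, `gx`, `Tx`, `Dg`, `DT`.  Everything is immediate
from the definitions: `inn x σ ^ 2 + inp x σ ^ 2 = ‖x‖ ^ 2` (as `cos² + sin² = 1`), hence
`|inn x σ| ≤ ‖x‖` and, for `‖x‖ < 1`, `qx x σ ≥ √(1 - ‖x‖²) > 0`.  `inn` and `inp` are real linear in
`x` and have derivative `inp x σ` resp. `-inn x σ` in `σ`.  Mathlib only.
-/

open Real MeasureTheory Set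

namespace Pool.Agent.CC57

theorem inn_add (x y : ℂ) (σ : ℝ) : inn (x + y) σ = inn x σ + inn y σ := by
  unfold inn
  rw [Complex.add_re, Complex.add_im]
  ring

theorem inn_sub (x y : ℂ) (σ : ℝ) : inn (x - y) σ = inn x σ - inn y σ := by
  unfold inn
  rw [Complex.sub_re, Complex.sub_im]
  ring

theorem inn_smul (t : ℝ) (x : ℂ) (σ : ℝ) : inn (t * x) σ = t * inn x σ := by
  unfold inn
  rw [Complex.re_ofReal_mul, Complex.im_ofReal_mul]
  ring

theorem inp_add (x y : ℂ) (σ : ℝ) : inp (x + y) σ = inp x σ + inp y σ := by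
  unfold inp
  rw [Complex.add_re, Complex.add_im]
  ring

theorem inp_sub (x y : ℂ) (σ : ℝ) : inp (x - y) σ = inp x σ - inp y σ := by
  unfold inp
  rw [Complex.sub_re, Complex.sub_im]
  ring

theorem inp_smul (t : ℝ) (x : ℂ) (σ : ℝ) : inp (t * x) σ = t * inp x σ := by
  unfold inp
  rw [Complex.re_ofReal_mul, Complex.im_ofReal_mul]
  ring

theorem inn_sq_add_inp_sq (x : ℂ) (σ : ℝ) : inn x σ ^ 2 + inp x σ ^ 2 = ‖x‖ ^ 2 := by
  rw [Complex.sq_norm, Complex.normSq_apply]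
  unfold inn inp
  have h := sin_sq_add_cos_sq σ
  linear_combination (x.re ^ 2 + x.im ^ 2) * h

theorem abs_inn_le (x : ℂ) (σ : ℝ) : |inn x σ| ≤ ‖x‖ := by
  apply abs_le_of_sq_le_sq _ (norm_nonneg x)
  have h := inn_sq_add_inp_sq x σ
  have h2 := sq_nonneg (inp x σ)
  linarith

theorem abs_inp_le (x : ℂ) (σ : ℝ) : |inp x σ| ≤ ‖x‖ := by
  apply abs_le_of_sq_le_sq _ (norm_nonneg x)
  have h := inn_sq_add_inp_sq x σ
  have h2 := sq_nonneg (inn x σ)
  linarith

theorem hasDerivAt_inn (x : ℂ) (σ : ℝ) : HasDerivAt (inn x) (inp x σ) σ := by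
  have h1 := ((hasDerivAt_cos σ).const_mul x.re).add ((hasDerivAt_sin σ).const_mul x.im)
  refine h1.congr_deriv ?_
  unfold inp
  ring

theorem hasDerivAt_inp (x : ℂ) (σ : ℝ) : HasDerivAt (inp x) (-inn x σ) σ := by
  have h1 := ((hasDerivAt_cos σ).const_mul x.im).sub ((hasDerivAt_sin σ).const_mul x.re)
  refine h1.congr_deriv ?_
  unfold inn
  ring

theorem continuous_inn : Continuous fun p : ℂ × ℝ => inn p.1 p.2 := by
  unfold inn
  exact ((Complex.continuous_re.comp continuous_fst).mul (continuous_cos.comp continuous_snd)).add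
    ((Complex.continuous_im.comp continuous_fst).mul (continuous_sin.comp continuous_snd))

theorem continuous_inp : Continuous fun p : ℂ × ℝ => inp p.1 p.2 := by
  unfold inp
  exact ((Complex.continuous_im.comp continuous_fst).mul (continuous_cos.comp continuous_snd)).sub
    ((Complex.continuous_re.comp continuous_fst).mul (continuous_sin.comp continuous_snd))

theorem continuous_gx : Continuous fun p : ℂ × ℝ => gx p.1 p.2 := by
  unfold gx
  exact continuous_arcsin.comp continuous_inn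

theorem inn_per (x : ℂ) (σ : ℝ) : inn x (σ + 2 * π) = inn x σ := by
  unfold inn
  rw [cos_add_two_pi, sin_add_two_pi]

theorem inp_per (x : ℂ) (σ : ℝ) : inp x (σ + 2 * π) = inp x σ := by
  unfold inp
  rw [cos_add_two_pi, sin_add_two_pi]

private theorem inn_sq_le (x : ℂ) (σ : ℝ) : inn x σ ^ 2 ≤ ‖x‖ ^ 2 := by
  have h := inn_sq_add_inp_sq x σ
  have h2 := sq_nonneg (inp x σ)
  linarith

private theorem one_sub_pos {x : ℂ} (hx : ‖x‖ < 1) (σ : ℝ) : 0 < 1 - inn x σ ^ 2 := by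
  have h := inn_sq_le x σ
  have h1 : ‖x‖ ^ 2 < 1 := by
    have := norm_nonneg x
    nlinarith
  linarith

theorem qx_pos {x : ℂ} (hx : ‖x‖ < 1) (σ : ℝ) : 0 < qx x σ :=
  sqrt_pos.2 (one_sub_pos hx σ)

theorem qx_sq {x : ℂ} (hx : ‖x‖ < 1) (σ : ℝ) : qx x σ ^ 2 = 1 - inn x σ ^ 2 :=
  sq_sqrt (one_sub_pos hx σ).le

theorem qx_ge {x : ℂ} (hx : ‖x‖ ≤ 1 / 2) (σ : ℝ) : 4 / 5 ≤ qx x σ := by
  unfold qx
  apply le_sqrt_of_sq_le
  have h := inn_sq_le x σ
  have h1 : ‖x‖ ^ 2 ≤ (1 / 2) ^ 2 := pow_le_pow_left₀ (norm_nonneg x) hx 2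
  norm_num at h1 ⊢
  linarith

theorem qx_le_one (x : ℂ) (σ : ℝ) : qx x σ ≤ 1 := by
  unfold qx
  rw [sqrt_le_one]
  have h := sq_nonneg (inn x σ)
  linarith

/-- `DT` and `Dg` are real linear in the direction. -/
theorem Dg_add (x : ℂ) (σ : ℝ) (a b : ℂ) : Dg x σ (a + b) = Dg x σ a + Dg x σ b := by
  unfold Dg
  rw [inn_add]
  ring

theorem Dg_smul (x : ℂ) (σ : ℝ) (t : ℝ) (a : ℂ) : Dg x σ (t * a) = t * Dg x σ a := by
  unfold Dg
  rw [inn_smul]
  ring

theorem DT_add (x : ℂ) (σ : ℝ) (a b : ℂ) : DT x σ (a + b) = DT x σ a + DT x σ b := by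
  unfold DT
  rw [inn_add, inp_add]
  ring

theorem DT_smul (x : ℂ) (σ : ℝ) (t : ℝ) (a : ℂ) : DT x σ (t * a) = t * DT x σ a := by
  unfold DT
  rw [inn_smul, inp_smul]
  ring

/-- `a = a.re * 1 + a.im * I`. -/
theorem Dg_coord (x : ℂ) (σ : ℝ) (a : ℂ) :
    Dg x σ a = a.re * Dg x σ 1 + a.im * Dg x σ Complex.I := by
  rw [← Dg_smul, ← Dg_smul, ← Dg_add, mul_one, Complex.re_add_im]

theorem DT_coord (x : ℂ) (σ : ℝ) (a : ℂ) :
    DT x σ a = a.re * DT x σ 1 + a.im * DT x σ Complex.I := by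
  rw [← DT_smul, ← DT_smul, ← DT_add, mul_one, Complex.re_add_im]

private theorem inn_zero (σ : ℝ) : inn 0 σ = 0 := by simp [inn]

private theorem inp_zero (σ : ℝ) : inp 0 σ = 0 := by simp [inp]

private theorem qx_zero (σ : ℝ) : qx 0 σ = 1 := by
  unfold qx
  rw [inn_zero]
  simp

theorem Dg_zero (σ : ℝ) (a : ℂ) : Dg 0 σ a = inn a σ := by
  unfold Dg
  rw [qx_zero, div_one]

theorem DT_zero (σ : ℝ) (a : ℂ) : DT 0 σ a = inp a σ := by
  unfold DT
  rw [qx_zero, inn_zero, inp_zero]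
  ring

theorem abs_Dg_le {x : ℂ} (hx : ‖x‖ ≤ 1 / 2) (σ : ℝ) (a : ℂ) : |Dg x σ a| ≤ 2 * ‖a‖ := by
  have hq := qx_ge hx σ
  have hq0 : 0 < qx x σ := by linarith
  unfold Dg
  rw [abs_div, abs_of_pos hq0, div_le_iff₀ hq0]
  have h1 := abs_inn_le a σ
  have h2 := norm_nonneg a
  nlinarith

theorem abs_DT_le {x : ℂ} (hx : ‖x‖ ≤ 1 / 2) (σ : ℝ) (a : ℂ) : |DT x σ a| ≤ 2 * ‖a‖ := by
  have hq := qx_ge hx σ
  have hq0 : 0 < qx x σ := by linarith
  have ha := norm_nonneg a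
  have h1 : |inp a σ / qx x σ| ≤ 5 / 4 * ‖a‖ := by
    rw [abs_div, abs_of_pos hq0, div_le_iff₀ hq0]
    have h1 := abs_inp_le a σ
    nlinarith
  have hx2 : ‖x‖ ^ 2 ≤ (1 / 2) ^ 2 := pow_le_pow_left₀ (norm_nonneg x) hx 2
  have h3 : |inp x σ * inn x σ| ≤ 1 / 8 := by
    have h4 := inn_sq_add_inp_sq x σ
    rw [abs_le]
    constructor
    · nlinarith [sq_nonneg (inp x σ + inn x σ)]
    · nlinarith [sq_nonneg (inp x σ - inn x σ)]
  have hq3 : (4 / 5 : ℝ) ^ 3 ≤ qx x σ ^ 3 := pow_le_pow_left₀ (by norm_num) hq 3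
  have hq3' : 0 < qx x σ ^ 3 := by positivity
  have h2 : |inp x σ * inn x σ * inn a σ / qx x σ ^ 3| ≤ 1 / 4 * ‖a‖ := by
    rw [abs_div, abs_of_pos hq3', div_le_iff₀ hq3', abs_mul]
    have h5 := abs_inn_le a σ
    have h6 : |inp x σ * inn x σ| * |inn a σ| ≤ 1 / 8 * ‖a‖ :=
      mul_le_mul h3 h5 (abs_nonneg _) (by norm_num)
    refine h6.trans ?_
    have h7 : 1 / 4 * ‖a‖ * (4 / 5) ^ 3 ≤ 1 / 4 * ‖a‖ * qx x σ ^ 3 :=
      mul_le_mul_of_nonneg_left hq3 (by positivity)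
    norm_num at h7 ⊢
    linarith
  unfold DT
  refine (abs_add_le _ _).trans ?_
  linarith

private theorem continuous_qx : Continuous fun p : ℂ × ℝ => qx p.1 p.2 := by
  unfold qx
  exact continuous_sqrt.comp (continuous_const.sub (continuous_inn.pow 2))

/-- Joint continuity on `‖x‖ < 1`. -/
theorem continuousOn_Dg (a : ℂ) :
    ContinuousOn (fun p : ℂ × ℝ => Dg p.1 p.2 a) {p | ‖p.1‖ < 1} := by
  unfold Dg
  refine ContinuousOn.div ?_ continuous_qx.continuousOn fun p hp => (qx_pos hp p.2).ne'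
  exact (continuous_inn.comp (continuous_const.prodMk continuous_snd)).continuousOn

theorem continuousOn_DT (a : ℂ) :
    ContinuousOn (fun p : ℂ × ℝ => DT p.1 p.2 a) {p | ‖p.1‖ < 1} := by
  unfold DT
  refine ContinuousOn.add ?_ ?_
  · refine ContinuousOn.div ?_ continuous_qx.continuousOn fun p hp => (qx_pos hp p.2).ne'
    exact (continuous_inp.comp (continuous_const.prodMk continuous_snd)).continuousOn
  · refine ContinuousOn.div ?_ (continuous_qx.pow 3).continuousOn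
      fun p hp => pow_ne_zero 3 (qx_pos hp p.2).ne'
    exact ((continuous_inp.mul continuous_inn).mul
      (continuous_inn.comp (continuous_const.prodMk continuous_snd))).continuousOn

theorem continuousOn_Tx : ContinuousOn (fun p : ℂ × ℝ => Tx p.1 p.2) {p | ‖p.1‖ < 1} := by
  unfold Tx
  exact continuous_inp.continuousOn.div continuous_qx.continuousOn
    fun p hp => (qx_pos hp p.2).ne'

end Pool.Agent.CC57
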