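import Pool.Agent.CC57.TopN

set_option autoImplicit false

/-!
The final assembly.
-/

open Real MeasureTheory Set

open scoped RealInnerProductSpace

namespace Pool.Agent.CC57

open Pool.Agent.H65G

theorem cubeVolume_nonneg {n : ℕ} (G : EuclideanSpace ℝ (Fin n) → Matrix (Fin n) (Fin n) ℝ) :
    0 ≤ cubeVolume G := by
  unfold cubeVolume
  exact integral_nonneg fun p => Real.sqrt_nonneg _

theorem top : ∃ L₀ : ℝ, 0 < L₀ ∧ ∀ {X : Type} [MetricSpace X]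
    {γ : Metric.sphere (0 : EuclideanSpace ℝ (Fin 2)) 1 → X} {L H : ℝ}
    {lam : ℂ → ℝ} {D : Set ℂ} {Ψ : ℂ → X} {m : ℕ} {q : Fin m → EuclideanSpace ℝ (Fin 2) → X}
    {G : Fin m → EuclideanSpace ℝ (Fin 2) → Matrix (Fin 2) (Fin 2) ℝ},
    (∀ s t : Metric.sphere (0 : EuclideanSpace ℝ (Fin 2)) 1,
      arccos ⟪(s : EuclideanSpace ℝ (Fin 2)), (t : EuclideanSpace ℝ (Fin 2))⟫ ≤
        dist (γ s) (γ t)) →
    IsCollar γ L H lam D Ψ → 0 ≤ H → H + L₀ ≤ L →
    (∀ j, IsRiemannianCube (q j) (G j)) → (HasLoop q fun θ => Ψ (pt (-L) θ)) →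
    2 * π ≤ 1 / 2 * (∫ z in Cell (-L) L, lam z ^ 2) + ∑ j, cubeVolume (G j) := by
  obtain ⟨ε, hε, hmain⟩ := topN
  set L₀ : ℝ := max (2 * max 1 (-log ε)) (4 * π / ε ^ 2) with hL₀
  have h1 : 2 ≤ L₀ := by
    have h2 : (2 : ℝ) ≤ 2 * max 1 (-log ε) := by linarith [le_max_left (1 : ℝ) (-log ε)]
    exact h2.trans (le_max_left _ _)
  have h2 : 2 * (-log ε) ≤ L₀ := by
    have : 2 * (-log ε) ≤ 2 * max 1 (-log ε) := by linarith [le_max_right (1 : ℝ) (-log ε)]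
    exact this.trans (le_max_left _ _)
  have h3 : 4 * π / L₀ ≤ ε ^ 2 := by
    have h4 : 4 * π / ε ^ 2 ≤ L₀ := le_max_right _ _
    rw [div_le_iff₀ (by linarith)]
    rw [div_le_iff₀ (by positivity)] at h4
    linarith
  clear_value L₀
  refine ⟨L₀, by linarith, ?_⟩
  intro X _ γ L H lam D Ψ m q G hγ hCol hH hHL hq hB
  by_contra hcon
  push Not at hcon
  have hvol : 0 ≤ ∑ j, cubeVolume (G j) := Finset.sum_nonneg fun j _ => cubeVolume_nonneg _
  obtain ⟨F, f1, f2, f3, f4, f5, f6⟩ := exists_F hγ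
  have hF : IsF γ F := ⟨f1, f2, f3, f4, f5, f6⟩
  obtain ⟨y, hy1, hy2, hy3⟩ := good_circle (F := fun z => lam z ^ 2) hH (by linarith : 0 < L₀) hHL
    (hCol.lam_cont.pow 2) (fun z => sq_nonneg _) (fun z => by rw [hCol.lam_per z])
    (fun z hz => by rw [hCol.lam_tau z hz]) (by linarith)
  have hyL : y < L := by linarith
  have hy : rexp (-y) ≤ ε := by
    rw [← Real.le_log_iff_exp_le hε]
    linarith
  have key : ∀ N : ℕ, 1 ≤ N →
      2 * π - 1 / N ≤ 1 / 2 * (∫ z in Cell (-L) L, lam z ^ 2) + ∑ j, cubeVolume (G j) := fun N hN =>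
    hmain hCol hF hH (by linarith) (by linarith) hyL hy (hy3.trans h3) hq hB hN
  set tot : ℝ := 1 / 2 * (∫ z in Cell (-L) L, lam z ^ 2) + ∑ j, cubeVolume (G j) with htot
  obtain ⟨N, hN⟩ := exists_nat_gt (1 / (2 * π - tot))
  have hd : 0 < 2 * π - tot := by linarith
  have hN0 : (0 : ℝ) < N := lt_trans (by positivity) hN
  have hN1 : 1 ≤ N := by
    have : 0 < N := by exact_mod_cast hN0
    omega
  have h5 := key N hN1
  have h6 : 1 / (N : ℝ) < 2 * π - tot := by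
    rw [div_lt_iff₀ hN0]
    rw [div_lt_iff₀ hd] at hN
    linarith
  linarith

end Pool.Agent.CC57
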