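import Pool.Agent.CC57.Out
import Pool.Agent.CC57.Inner
import Pool.Agent.CC57.Fin
import Pool.Agent.CC57.Fix
import Pool.Agent.CC57.Good
import Pool.Agent.CC57.CircD
import Pool.Agent.CC57.HX
import Pool.Agent.CC57.GamX

set_option autoImplicit false

/-!
The inequality up to `1/N`, for a good circle.
-/

open Real MeasureTheory Set

namespace Pool.Agent.CC57

open Pool.Agent.H65G

theorem cl_pt {y θ : ℝ} (hy : 0 ≤ y) : cl y (pt (-y) θ) = pt (-y) θ := by
  unfold cl pt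
  simp [min_eq_left (show -y ≤ y by linarith)]

theorem pt_add (x θ : ℝ) : pt x (θ + 2 * π) = pt x θ + 2 * π * Complex.I := by
  unfold pt
  push_cast
  ring

theorem topN : ∃ ε : ℝ, 0 < ε ∧ ∀ {X : Type} [MetricSpace X]
    {γ : Metric.sphere (0 : EuclideanSpace ℝ (Fin 2)) 1 → X} {F : X → X → ℝ} {L H : ℝ}
    {lam : ℂ → ℝ} {D : Set ℂ} {Ψ : ℂ → X} {m : ℕ} {q : Fin m → E 2 → X}
    {G : Fin m → E 2 → Matrix (Fin 2) (Fin 2) ℝ} {y : ℝ} {N : ℕ},
    IsCollar γ L H lam D Ψ → IsF γ F → 0 ≤ H → H ≤ y → 1 ≤ y → y < L → rexp (-y) ≤ ε →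
    ∫ θ in (0 : ℝ)..2 * π, lam (pt (-y) θ) ^ 2 ≤ ε ^ 2 →
    (∀ j, IsRiemannianCube (q j) (G j)) → (HasLoop q fun θ => Ψ (pt (-L) θ)) → 1 ≤ N →
    2 * π - 1 / N ≤ 1 / 2 * (∫ z in Cell (-L) L, lam z ^ 2) + ∑ j, cubeVolume (G j) := by
  obtain ⟨eF, heF0, hFin⟩ := fin_ineq
  obtain ⟨CX, eX, hCX, heX0, hXc⟩ := Xc_bounds
  obtain ⟨Ch, eh, hCh, heh0, hh⟩ := hF_facts
  obtain ⟨CW, eW, hCW, heW0, hW⟩ := WF_facts
  obtain ⟨ex, hex0, hfix⟩ := exists_fix
  obtain ⟨eg, heg0, hgau⟩ := exists_gaugeFam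
  set C : ℝ := max (max CX Ch) (max CW 2) with hCdef
  have hC2 : 2 ≤ C := (le_max_right _ _).trans (le_max_right _ _)
  have hCXC : CX ≤ C := (le_max_left _ _).trans (le_max_left _ _)
  have hChC : Ch ≤ C := (le_max_right _ _).trans (le_max_left _ _)
  have hCWC : CW ≤ C := (le_max_left _ _).trans (le_max_right _ _)
  have hC0 : 0 < C := by linarith
  set ε : ℝ := min (min (min eX eh) (min eW ex)) (min eg (min (eF / C) (1 / 4 / C))) with hεdef
  have hε0 : 0 < ε := by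
    rw [hεdef]
    refine lt_min (lt_min (lt_min heX0 heh0) (lt_min heW0 hex0)) (lt_min heg0 (lt_min ?_ ?_)) <;>
      positivity
  have hε1 : ε ≤ eX := (min_le_left _ _).trans ((min_le_left _ _).trans (min_le_left _ _))
  have hε2 : ε ≤ eh := (min_le_left _ _).trans ((min_le_left _ _).trans (min_le_right _ _))
  have hε3 : ε ≤ eW := (min_le_left _ _).trans ((min_le_right _ _).trans (min_le_left _ _))
  have hε4 : ε ≤ ex := (min_le_left _ _).trans ((min_le_right _ _).trans (min_le_right _ _))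
  have hε5 : ε ≤ eg := (min_le_right _ _).trans (min_le_left _ _)
  have hε6 : C * ε ≤ eF := by
    have h : ε ≤ eF / C := (min_le_right _ _).trans ((min_le_right _ _).trans (min_le_left _ _))
    rw [le_div_iff₀ hC0] at h
    linarith
  have hε7 : C * ε ≤ 1 / 4 := by
    have h : ε ≤ 1 / 4 / C := (min_le_right _ _).trans ((min_le_right _ _).trans (min_le_right _ _))
    rw [le_div_iff₀ hC0] at h
    linarith
  clear_value ε C
  refine ⟨ε, hε0, ?_⟩
  intro X _ γ F L H lam D Ψ m q G y N hCol hF hH hHy hy1 hyL hey hlam hq hB hN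
  have hy0 : 0 ≤ y := by linarith
  obtain ⟨M, hcirc⟩ := circData hCol hF hy1 hyL hlam
  obtain ⟨om, hom⟩ := hgau N y ε hε0.le hε5 (hey.trans hε5)
  set f : ℂ → ℝ → ℝ := fun p θ => Phi F D Ψ p (pt (-y) θ) with hfdef
  obtain ⟨b, hb, hbn⟩ := hfix N y ε M om f _ hε0 hε4 hey hom hcirc
  obtain ⟨⟨LX, hLX⟩, hXp, hXb, hXD, -⟩ := hXc N b y ε hε0 hε1 hey hb
  obtain ⟨hhc, hcc, ⟨Lh, hLh⟩, hhp, hcp, hhb, hh0, -⟩ :=
    hh N b y ε M om f _ hε0 hε2 hey hom hcirc hb
  obtain ⟨hWz, hWb, ⟨LW, hLW⟩, hWp, hWD, -⟩ := hW N b y ε M om f _ hε0 hε3 hey hom hcirc hb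
  have hgb : IsGauge y (psi b y) (om b) := hom.gauge b hb
  -- the base points
  set p : ℝ → ℂ := fun σ => om b (pt 0 σ) with hpdef
  have hp1 : ∀ σ, |(p σ).re| ≤ 1 := fun σ => (om_re hom hb σ).trans (by norm_num)
  have hpc : Continuous p := by
    have h1 : Continuous fun σ : ℝ => ((b, pt 0 σ) : (Fin N → ℂ) × ℂ) := by
      unfold pt
      fun_prop
    exact hom.cont.comp_continuous h1 fun σ => ⟨hb, by simp [pt]⟩
  have hpp : ∀ σ, p (σ + 2 * π) = p σ + 2 * π * Complex.I := by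
    intro σ
    simp only [hpdef]
    rw [pt_add]
    exact hgb.om_per _ (by simp [pt])
  -- the outer inequality
  obtain ⟨K1, hfam⟩ := isFam hCol hF hy1 hyL hpc hp1
  have hout := out_ineq hgb hfam hCol.lam_cont hCol.lam_nonneg hCol.lam_per
    (fun z hz => hCol.lam_tau z (hz.trans hyL.le))
  simp only [cl_pt hy0] at hout
  -- `Gam` at `X`
  have hfc : ∀ σ, Continuous (f (p σ)) := by
    intro σ
    have h1 : Continuous fun θ => CC57.hF y om f b σ θ + cF y om f b σ :=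
      (hhc.comp (Continuous.prodMk_right σ)).add continuous_const
    refine h1.congr fun θ => ?_
    unfold CC57.hF
    simp [hpdef]
  have hCe : 0 ≤ C * ε := by positivity
  have hXhalf : ∀ θ, ‖Xc b y θ‖ ≤ 1 / 2 := by
    intro θ
    have h1 := hXb θ
    have h2 : CX * ε ≤ C * ε := by gcongr
    linarith
  have hgX := gam_shift hLX hXp hXhalf (φ := fun σ => f (p σ)) (c := cF y om f b) hfc
  have hhs : ∀ σ, hs (fun θ => CC57.hF y om f b σ θ - gx (Xc b y θ) σ) =
      hs (fun θ => f (p σ) θ - gx (Xc b y θ) σ) := by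
    intro σ
    have hcX : Continuous fun θ => gx (Xc b y θ) σ :=
      continuous_gx.comp (hLX.continuous.prodMk continuous_const)
    have h1 := hs_add_const (f := fun θ => f (p σ) θ - gx (Xc b y θ) σ)
      (((hfc σ).sub hcX).intervalIntegrable _ _) (-cF y om f b σ)
    rw [← h1]
    congr 1
    ext θ
    unfold CC57.hF
    simp only [hpdef]
    ring
  -- the inequality on the circle
  have hcur : Curves (C * ε) (max (max LX LW) Lh) (Xc b y) (WF y om f b) := by
    refine ⟨by positivity, by linarith, hLX.weaken ?_, hLW.weaken ?_, hXp, hWp, ?_, ?_, ?_, ?_⟩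
    · exact (le_max_left _ _).trans (le_max_left _ _)
    · exact (le_max_right _ _).trans (le_max_left _ _)
    · intro θ
      refine (hXb θ).trans ?_
      gcongr
    · intro θ
      refine (hWb θ).trans ?_
      gcongr
    · refine hXD.trans ?_
      gcongr
    · refine hWD.trans ?_
      gcongr
  have hfin := hFin (C * ε) (max (max LX LW) Lh) (Xc b y) (WF y om f b) (CC57.hF y om f b) N hε6 hN
    hcur hhc (fun σ => (hLh σ).weaken (le_max_right _ _)) hhp hWz hh0 hbn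
  -- the inner inequality
  have hann := isAnn hCol hH hHy hyL
  obtain ⟨hx1, hx2, hx3, hx4⟩ := hX_facts hCol hF (hy1.trans hyL.le) hpc hcc hp1 hpp hcp
  have hcircle : ∀ σ θ, hX F D Ψ p (cF y om f b) σ (Ψ (pt (-y) θ)) = CC57.hF y om f b σ θ := by
    intro σ θ
    have hD : pt (-y) θ ∈ D := by
      refine hCol.clean _ ?_ ?_ <;> simp [pt] <;> linarith
    have h1 : Phat F D Ψ (p σ) (Ψ (pt (-y) θ)) - cF y om f b σ = CC57.hF y om f b σ θ := by
      unfold CC57.hF
      simp only [hfdef, Phi, if_pos hD, hpdef]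
    have h2 := abs_le.1 (hhb σ θ)
    have h3 : Ch * ε ≤ C * ε := by gcongr
    unfold hX
    rw [h1, min_eq_right (by linarith), max_eq_right (by linarith)]
  have hWhalf : ∀ θ, ‖WF y om f b θ‖ ≤ 1 / 2 := by
    intro θ
    have h1 := hWb θ
    have h2 : CW * ε ≤ C * ε := by gcongr
    linarith
  have hinn := inner_ineq hann hq hB hx1 hx2 hx3 hx4 hLW hWhalf (fun θ => by
    rw [hWz θ]
    congr 1
    ext σ
    exact (hcircle σ θ).symm)
  simp only [hcircle] at hinn
  -- the areas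
  have hsp := area_split hy0 hyL.le (F := fun z => lam z ^ 2) (hCol.lam_cont.pow 2)
    (fun z => by rw [hCol.lam_per z]) (fun z hz => by rw [hCol.lam_tau z hz])
  rw [hsp]
  simp only [hhs] at hfin
  have hgX' : Gam (CC57.hF y om f b) (Xc b y) =
      avg (fun σ => ∫ θ in (0 : ℝ)..2 * π, (2 * f (p σ) θ - gx (Xc b y θ) σ) *
        deriv (fun θ => Tx (Xc b y θ) σ) θ) := hgX
  have hout' : 2 * π - Gam (CC57.hF y om f b) (Xc b y) +
      avg (fun σ => hs fun θ => f (p σ) θ - gx (Xc b y θ) σ) ≤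
      1 / 2 * ∫ z in Cell (-y) y, lam z ^ 2 := by
    rw [hgX']
    exact hout
  have e : Gam (fun σ θ => CC57.hF y om f b σ θ) (WF y om f b) =
    Gam (CC57.hF y om f b) (WF y om f b) := rfl
  rw [e] at hinn
  linarith

end Pool.Agent.CC57
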