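import Pool.Agent.CC57.PsiB
import Pool.Agent.CC57.Four

set_option autoImplicit false

/-!
Numerator and denominator on the circle `z = -y + iθ`, `r = e^{-y}`:
`Pc b y θ = e^z (1 + Af) = r e^{iθ} + ∑ (b_i/(i+1)) e^{-i(i+1)θ}`, `Qc b y θ = 1 + As`.
`‖Pc‖ ≤ r + 13/10 ε` (`norm_Af_le` or directly), `Pc' = i r e^{iθ} - i ∑ b_i e^{-i(i+1)θ}`,
`∫ ‖Pc'‖² = 2π (r² + ∑ ‖b_i‖²) ≤ 4π ε²` (orthogonality of the exponentials, or `parseval` and `cf_exp`).
`‖Qc - 1‖ ≤ 13/10 ε e^{-3y}`, `‖Qc'‖ = ‖deriv As‖ ≤ 4 ε e^{-3y}` (`norm_As_le`, `norm_deriv_As_le`, here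
`1 ≤ y`), both `≤ 4 ε^4 ≤ ε²`... (as `e^{-y} ≤ ε ≤ 1/4`).
`cf Pc (-(i+1)) = b_i/(i+1)` by `cf_exp`.
-/

open Real MeasureTheory Set

namespace Pool.Agent.CC57

variable {K : ℕ}

noncomputable def Pc (b : Fin K → ℂ) (y θ : ℝ) : ℂ :=
  Complex.exp (pt (-y) θ) * (1 + Af b y (pt (-y) θ))

noncomputable def Qc (b : Fin K → ℂ) (y θ : ℝ) : ℂ := 1 + As b y (pt (-y) θ)

theorem psi_eq (b : Fin K → ℂ) (y θ : ℝ) : psi b y (pt (-y) θ) = Pc b y θ / Qc b y θ := by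
  rfl

private theorem xcp_pt (y θ : ℝ) : pt (-y) (θ + 2 * π) = pt (-y) θ + 2 * π * Complex.I := by
  unfold pt
  push_cast
  ring

theorem Pc_per (b : Fin K → ℂ) (y θ : ℝ) : Pc b y (θ + 2 * π) = Pc b y θ := by
  unfold Pc
  rw [xcp_pt, Af_per, Complex.exp_add, Complex.exp_two_pi_mul_I, mul_one]

theorem Qc_per (b : Fin K → ℂ) (y θ : ℝ) : Qc b y (θ + 2 * π) = Qc b y θ := by
  unfold Qc
  rw [xcp_pt, As_per]

private theorem xcp_contDiff_pt (y : ℝ) : ContDiff ℝ 1 (fun θ : ℝ => pt (-y) θ) := by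
  unfold pt
  exact contDiff_const.add (Complex.ofRealCLM.contDiff.mul contDiff_const)

theorem contDiff_Pc (b : Fin K → ℂ) (y : ℝ) : ContDiff ℝ 1 (Pc b y) := by
  unfold Pc
  have h1 : ContDiff ℝ 1 (Af b y) := (differentiable_Af b y).contDiff.restrict_scalars ℝ
  have h2 : ContDiff ℝ 1 Complex.exp := Complex.contDiff_exp
  exact (h2.comp (xcp_contDiff_pt y)).mul (contDiff_const.add (h1.comp (xcp_contDiff_pt y)))

theorem contDiff_Qc (b : Fin K → ℂ) (y : ℝ) : ContDiff ℝ 1 (Qc b y) := by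
  unfold Qc
  have h1 : ContDiff ℝ 1 (As b y) := (differentiable_As b y).contDiff.restrict_scalars ℝ
  exact contDiff_const.add (h1.comp (xcp_contDiff_pt y))

private theorem xcp_re (y θ : ℝ) : (pt (-y) θ).re = -y := by
  unfold pt
  simp

theorem norm_Pc_le {b : Fin K → ℂ} {y ε : ℝ} (hε : 0 < ε) (hy : rexp (-y) ≤ ε)
    (hb : ∑ i, ‖b i‖ ^ 2 ≤ ε ^ 2) (θ : ℝ) : ‖Pc b y θ‖ ≤ 3 * ε := by
  unfold Pc
  rw [norm_mul, Complex.norm_exp, xcp_re]
  have h1 := norm_Af_le (y := y) hε.le hb (z := pt (-y) θ) (by rw [xcp_re])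
  rw [xcp_re] at h1
  have h2 : ‖1 + Af b y (pt (-y) θ)‖ ≤ 1 + 13 / 10 * ε * rexp (-y) * rexp (-2 * -y) :=
    (norm_add_le _ _).trans (by rw [norm_one]; linarith)
  have h3 : rexp (-y) * rexp (-y) * rexp (-2 * -y) = 1 := by
    rw [← Real.exp_add, ← Real.exp_add]
    have : -y + -y + -2 * -y = 0 := by ring
    rw [this, Real.exp_zero]
  calc rexp (-y) * ‖1 + Af b y (pt (-y) θ)‖
      ≤ rexp (-y) * (1 + 13 / 10 * ε * rexp (-y) * rexp (-2 * -y)) :=
        mul_le_mul_of_nonneg_left h2 (Real.exp_pos _).le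
    _ = rexp (-y) + 13 / 10 * ε * (rexp (-y) * rexp (-y) * rexp (-2 * -y)) := by ring
    _ ≤ 3 * ε := by rw [h3]; linarith

/-! Trigonometric polynomials. -/

private noncomputable def tp (r : ℂ) (c : Fin K → ℂ) (θ : ℝ) : ℂ :=
  r * Complex.exp ((1 : ℤ) * θ * Complex.I) +
    ∑ i : Fin K, c i * Complex.exp (((-((i : ℤ) + 1) : ℤ) : ℂ) * θ * Complex.I)

private theorem cf_sum {ι : Type*} (s : Finset ι) (f : ι → ℝ → ℂ)
    (hf : ∀ i ∈ s, Continuous (f i)) (n : ℤ) :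
    cf (fun θ => ∑ i ∈ s, f i θ) n = ∑ i ∈ s, cf (f i) n := by
  classical
  induction s using Finset.induction_on with
  | empty => simp [cf]
  | insert a s ha ih =>
    have h1 : (fun θ => ∑ i ∈ insert a s, f i θ) = fun θ => f a θ + ∑ i ∈ s, f i θ := by
      funext θ
      rw [Finset.sum_insert ha]
    rw [h1, cf_add ((hf a (by simp)).intervalIntegrable _ _)
      ((continuous_finsetSum s fun i hi => hf i (by simp [hi])).intervalIntegrable _ _),
      ih fun i hi => hf i (by simp [hi]), Finset.sum_insert ha]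

private theorem tp_cont (r : ℂ) (c : Fin K → ℂ) : Continuous (tp r c) := by
  unfold tp
  fun_prop

private theorem cf_tp (r : ℂ) (c : Fin K → ℂ) (n : ℤ) :
    cf (tp r c) n = (if n = 1 then r else 0) +
      ∑ i : Fin K, (if n = -((i : ℤ) + 1) then c i else 0) := by
  unfold tp
  have c1 : Continuous fun θ : ℝ => r * Complex.exp ((1 : ℤ) * θ * Complex.I) := by fun_prop
  have c2 : ∀ i : Fin K, Continuous fun θ : ℝ =>
      c i * Complex.exp (((-((i : ℤ) + 1) : ℤ) : ℂ) * θ * Complex.I) := by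
    intro i
    fun_prop
  rw [cf_add (c1.intervalIntegrable _ _)
    ((continuous_finsetSum _ fun i _ => c2 i).intervalIntegrable _ _), cf_exp r 1 n,
    cf_sum _ _ (fun i _ => c2 i)]
  congr 1
  exact Finset.sum_congr rfl fun i _ => cf_exp (c i) (-((i : ℤ) + 1)) n

private theorem tp_hasSum (r : ℂ) (c : Fin K → ℂ) :
    HasSum (fun n : ℤ => ‖cf (tp r c) n‖ ^ 2) (‖r‖ ^ 2 + ∑ i, ‖c i‖ ^ 2) := by
  have h1 : (fun n : ℤ => ‖cf (tp r c) n‖ ^ 2) = fun n : ℤ => (if n = 1 then ‖r‖ ^ 2 else 0) +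
      ∑ i : Fin K, (if n = -((i : ℤ) + 1) then ‖c i‖ ^ 2 else 0) := by
    funext n
    rw [cf_tp]
    by_cases hn : n = 1
    · subst hn
      have h2 : ∀ i : Fin K, ¬ ((1 : ℤ) = -((i : ℤ) + 1)) := by
        intro i
        omega
      simp only [h2, if_true, if_false, Finset.sum_const_zero, add_zero]
    · by_cases hj : ∃ j : Fin K, n = -((j : ℤ) + 1)
      · obtain ⟨j, rfl⟩ := hj
        have h3 : ∀ i : Fin K, (-((j : ℤ) + 1) = -((i : ℤ) + 1)) ↔ i = j := by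
          intro i
          constructor
          · intro h
            apply Fin.ext
            omega
          · rintro rfl
            rfl
        simp only [h3, if_neg hn, Finset.sum_ite_eq', Finset.mem_univ, if_true, zero_add]
      · push Not at hj
        simp only [hn, hj, if_false, Finset.sum_const_zero, add_zero, norm_zero]
        norm_num
  rw [h1]
  exact (hasSum_ite_eq 1 _).add (hasSum_sum fun i _ => hasSum_ite_eq _ _)

private theorem tp_deriv (r : ℂ) (c : Fin K → ℂ) (θ : ℝ) :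
    HasDerivAt (tp r c) (tp (Complex.I * r) (fun i => -((i : ℂ) + 1) * Complex.I * c i) θ) θ := by
  have h0 : ∀ (k : ℤ) (a : ℂ), HasDerivAt (fun θ : ℝ => a * Complex.exp (k * θ * Complex.I))
      (k * Complex.I * a * Complex.exp (k * θ * Complex.I)) θ := by
    intro k a
    have h1 : HasDerivAt (fun θ : ℝ => (θ : ℂ)) 1 θ := Complex.ofRealCLM.hasDerivAt
    have h2 : HasDerivAt (fun θ : ℝ => (k : ℂ) * θ * Complex.I) (k * 1 * Complex.I) θ :=
      (h1.const_mul (k : ℂ)).mul_const Complex.I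
    exact (h2.cexp.const_mul a).congr_deriv (by ring)
  have h1 := (h0 1 r).fun_add (HasDerivAt.fun_sum (u := Finset.univ)
    fun (i : Fin K) _ => h0 (-((i : ℤ) + 1)) (c i))
  refine HasDerivAt.congr_deriv (f := tp r c) h1 ?_
  unfold tp
  push_cast
  congr 1
  ring

private theorem Pc_tp (b : Fin K → ℂ) (y : ℝ) :
    Pc b y = tp (rexp (-y) : ℂ) (fun i => b i / ((i : ℂ) + 1)) := by
  funext θ
  unfold Pc Af tp pt
  rw [mul_add, mul_one, Finset.mul_sum]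
  congr 1
  · rw [Complex.ofReal_exp, ← Complex.exp_add]
    congr 1
    push_cast
    ring
  · refine Finset.sum_congr rfl fun i _ => ?_
    have e : Complex.exp (((-((i : ℤ) + 1) : ℤ) : ℂ) * θ * Complex.I) =
        Complex.exp (((-y : ℝ) : ℂ) + θ * Complex.I) *
          (Complex.exp (-(((i : ℂ) + 1) * y)) *
            Complex.exp (-(((i : ℂ) + 2) * (((-y : ℝ) : ℂ) + θ * Complex.I)))) := by
      rw [← Complex.exp_add, ← Complex.exp_add]
      congr 1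
      push_cast
      ring
    rw [e]
    ring

private theorem deriv_Pc (b : Fin K → ℂ) (y : ℝ) :
    deriv (Pc b y) = tp (Complex.I * (rexp (-y) : ℂ)) (fun i => -(Complex.I * b i)) := by
  funext θ
  rw [Pc_tp]
  have h := (tp_deriv (rexp (-y) : ℂ) (fun i => b i / ((i : ℂ) + 1)) θ).deriv
  rw [h]
  congr 1
  funext i
  have h1 : ((i : ℂ) + 1) ≠ 0 := by
    have : (0 : ℝ) < (i : ℝ) + 1 := by positivity
    exact_mod_cast this.ne'
  field_simp

private theorem tp_bound (r : ℂ) (c : Fin K → ℂ) (θ : ℝ) : ‖tp r c θ‖ ≤ ‖r‖ + ∑ i, ‖c i‖ := by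
  have h0 : ∀ (k : ℤ) (a : ℂ), ‖a * Complex.exp (k * θ * Complex.I)‖ = ‖a‖ := by
    intro k a
    rw [norm_mul, Complex.norm_exp]
    simp
  unfold tp
  refine (norm_add_le _ _).trans (add_le_add (h0 1 r).le ((norm_sum_le _ _).trans ?_))
  exact Finset.sum_le_sum fun i _ => (h0 _ _).le

theorem int_deriv_Pc_le {b : Fin K → ℂ} {y ε : ℝ} (hε : 0 < ε) (hy : rexp (-y) ≤ ε)
    (hb : ∑ i, ‖b i‖ ^ 2 ≤ ε ^ 2) :
    ∫ θ in (0 : ℝ)..2 * π, ‖deriv (Pc b y) θ‖ ^ 2 ≤ 4 * π * ε ^ 2 := by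
  rw [deriv_Pc]
  have h1 := parseval (f := tp (Complex.I * (rexp (-y) : ℂ)) (fun i => -(Complex.I * b i)))
    (tp_cont _ _).aestronglyMeasurable (tp_bound _ _)
  have h2 := h1.unique (tp_hasSum _ _)
  have h3 : ‖Complex.I * (rexp (-y) : ℂ)‖ ^ 2 ≤ ε ^ 2 := by
    rw [norm_mul, Complex.norm_I, one_mul, Complex.norm_real, Real.norm_of_nonneg (exp_pos _).le]
    exact pow_le_pow_left₀ (exp_pos _).le hy 2
  have h4 : ∑ i, ‖-(Complex.I * b i)‖ ^ 2 ≤ ε ^ 2 := by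
    refine le_trans (le_of_eq (Finset.sum_congr rfl fun i _ => ?_)) hb
    rw [norm_neg, norm_mul, Complex.norm_I, one_mul]
  have h5 : ∫ θ in (0 : ℝ)..2 * π, ‖tp (Complex.I * (rexp (-y) : ℂ))
      (fun i => -(Complex.I * b i)) θ‖ ^ 2 = 2 * π * (‖Complex.I * (rexp (-y) : ℂ)‖ ^ 2 +
        ∑ i, ‖-(Complex.I * b i)‖ ^ 2) := by
    rw [← h2]
    field_simp
  rw [h5]
  have := Real.pi_pos
  nlinarith

private theorem xcp_y {y ε : ℝ} (hε1 : ε ≤ 1 / 4) (hy : rexp (-y) ≤ ε) : 1 / 2 ≤ y := by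
  by_contra h
  push Not at h
  have h1 : rexp (-(1 / 2)) < rexp (-y) := Real.exp_lt_exp.2 (by linarith)
  have h2 : -(1 / 2 : ℝ) + 1 ≤ rexp (-(1 / 2)) := Real.add_one_le_exp _
  linarith

private theorem xcp_e3 {y ε : ℝ} (hy : rexp (-y) ≤ ε) : rexp (-y) * rexp (2 * -y) ≤ ε ^ 3 := by
  have h1 : rexp (-y) * rexp (2 * -y) = rexp (-y) ^ 3 := by
    rw [← Real.exp_add, ← Real.exp_nat_mul]
    congr 1
    push_cast
    ring
  rw [h1]
  exact pow_le_pow_left₀ (exp_pos _).le hy 3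

theorem norm_Qc_sub_le {b : Fin K → ℂ} {y ε : ℝ} (hε : 0 < ε) (hε1 : ε ≤ 1 / 4)
    (hy : rexp (-y) ≤ ε) (hb : ∑ i, ‖b i‖ ^ 2 ≤ ε ^ 2) (θ : ℝ) : ‖Qc b y θ - 1‖ ≤ ε ^ 3 := by
  unfold Qc
  rw [add_sub_cancel_left]
  have hy2 := xcp_y hε1 hy
  have h1 := norm_As_le (y := y) hε.le hb (z := pt (-y) θ) (by rw [xcp_re]; linarith)
  rw [xcp_re] at h1
  have h2 := xcp_e3 hy
  have h3 : (0 : ℝ) ≤ rexp (-y) * rexp (2 * -y) := by positivity
  calc ‖As b y (pt (-y) θ)‖ ≤ 13 / 10 * ε * (rexp (-y) * rexp (2 * -y)) := by linarith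
    _ ≤ 1 * ε ^ 3 := mul_le_mul (by linarith) h2 h3 (by norm_num)
    _ = ε ^ 3 := one_mul _

theorem norm_deriv_Qc_le {b : Fin K → ℂ} {y ε : ℝ} (hε : 0 < ε) (hε1 : ε ≤ 1 / 4)
    (hy : rexp (-y) ≤ ε) (hb : ∑ i, ‖b i‖ ^ 2 ≤ ε ^ 2) (θ : ℝ) :
    ‖deriv (Qc b y) θ‖ ≤ ε ^ 3 := by
  have hy2 := xcp_y hε1 hy
  have h1 := norm_deriv_As_le (y := y) hε.le hb (z := pt (-y) θ) (by rw [xcp_re]; linarith)
  rw [xcp_re] at h1
  have h2 := xcp_e3 hy
  have h3 : (0 : ℝ) ≤ rexp (-y) * rexp (2 * -y) := by positivity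
  have h4 : HasDerivAt (fun θ : ℝ => pt (-y) θ) Complex.I θ := by
    have h5 : HasDerivAt (fun θ : ℝ => (θ : ℂ)) 1 θ := Complex.ofRealCLM.hasDerivAt
    have h6 := (h5.mul_const Complex.I).const_add (((-y : ℝ) : ℂ))
    rw [one_mul] at h6
    exact h6
  have h5 : HasDerivAt (Qc b y) (Complex.I • deriv (As b y) (pt (-y) θ)) θ :=
    (HasDerivAt.scomp θ (differentiable_As b y (pt (-y) θ)).hasDerivAt h4).const_add 1
  rw [h5.deriv, norm_smul, Complex.norm_I, one_mul]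
  calc ‖deriv (As b y) (pt (-y) θ)‖ ≤ 4 * ε * (rexp (-y) * rexp (2 * -y)) := by linarith
    _ ≤ 1 * ε ^ 3 := mul_le_mul (by linarith) h2 h3 (by norm_num)
    _ = ε ^ 3 := one_mul _

theorem cf_Pc (b : Fin K → ℂ) (y : ℝ) (i : Fin K) :
    ((i : ℂ) + 1) * cf (Pc b y) (-((i : ℤ) + 1)) = b i := by
  rw [Pc_tp, cf_tp]
  have h1 : ¬ (-((i : ℤ) + 1) = 1) := by omega
  have h3 : ∀ j : Fin K, (-((i : ℤ) + 1) = -((j : ℤ) + 1)) ↔ j = i := by
    intro j
    constructor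
    · intro h
      apply Fin.ext
      omega
    · rintro rfl
      rfl
  simp only [h3, if_neg h1, Finset.sum_ite_eq', Finset.mem_univ, if_true, zero_add]
  have h2 : ((i : ℂ) + 1) ≠ 0 := by
    have : (0 : ℝ) < (i : ℝ) + 1 := by positivity
    exact_mod_cast this.ne'
  field_simp

/-- Joint continuity in `(b, θ)`. -/
theorem continuous_PQ (y : ℝ) : Continuous (fun p : (Fin K → ℂ) × ℝ => Pc p.1 y p.2) ∧
    Continuous (fun p : (Fin K → ℂ) × ℝ => Qc p.1 y p.2) := by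
  have h1 : Continuous fun θ : ℝ => pt (-y) θ := (xcp_contDiff_pt y).continuous
  have h2 : Continuous fun p : (Fin K → ℂ) × ℝ => ((p.1, pt (-y) p.2) : (Fin K → ℂ) × ℂ) :=
    continuous_fst.prodMk (h1.comp continuous_snd)
  have h3 := (continuous_Af (K := K) y).comp h2
  have h4 := (continuous_As (K := K) y).comp h2
  exact ⟨(Complex.continuous_exp.comp (h1.comp continuous_snd)).mul (continuous_const.add h3),
    continuous_const.add h4⟩

end Pool.Agent.CC57
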